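import Pool.Agent.Lib.MP_79499b_co.EO.Defs

/-!
# DZ: the ranges

The primes `w` are taken from `(X1 x, X2 x]`, `X1 x = exp (log x)^(2/5)`, `X2 x = exp (log x)^(9/20)`;
`LL x = log log x`, `Z0 x = ⌊(log x)^100⌋`, `yy x = ⌊(log log x)^8⌋`. `Rg x w` says that `w` is a prime of
the range. `cnt x P` (from EO) is the number of `n < x` with `P n`.
-/

set_option autoImplicit false

namespace Pool.Agent.Lib.MP_79499b_co.DZ

open Finset
open scoped Classical

export Pool.Agent.Lib.MP_79499b_co.EO (cnt cnt_nonneg cnt_mono cnt_or cnt_false cnt_exists cnt_period)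

/-- the lower end of the range of the primes `w` -/
noncomputable def X1 (x : ℕ) : ℝ := Real.exp (Real.log x ^ (2 / 5 : ℝ))

/-- the upper end of the range of the primes `w` -/
noncomputable def X2 (x : ℕ) : ℝ := Real.exp (Real.log x ^ (9 / 20 : ℝ))

/-- `log log x` -/
noncomputable def LL (x : ℕ) : ℝ := Real.log (Real.log x)

/-- the bound between small and large prime factors of `n` -/
noncomputable def Z0 (x : ℕ) : ℕ := ⌊Real.log x ^ 100⌋₊

/-- the bound for the small primes not dividing `(w-1)/c` -/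
noncomputable def yy (x : ℕ) : ℕ := ⌊LL x ^ 8⌋₊

/-- `w` is a prime in `(X1 x, X2 x]` -/
def Rg (x w : ℕ) : Prop := w.Prime ∧ X1 x < w ∧ (w : ℝ) ≤ X2 x

/-- the finite set of the primes in `(X1 x, X2 x]` -/
noncomputable def RR (x : ℕ) : Finset ℕ := (Icc 1 ⌊X2 x⌋₊).filter (fun w => Rg x w)

theorem mem_RR {x w : ℕ} : w ∈ RR x ↔ Rg x w := by
  unfold RR
  rw [mem_filter, mem_Icc]
  constructor
  · exact fun h => h.2
  · intro h
    exact ⟨⟨h.1.one_lt.le, Nat.le_floor h.2.2⟩, h⟩

theorem LL_tend : Filter.Tendsto LL Filter.atTop Filter.atTop :=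
  Real.tendsto_log_atTop.comp (Real.tendsto_log_atTop.comp tendsto_natCast_atTop_atTop)

theorem log_tend : Filter.Tendsto (fun x : ℕ => Real.log (x : ℝ)) Filter.atTop Filter.atTop :=
  Real.tendsto_log_atTop.comp tendsto_natCast_atTop_atTop

end Pool.Agent.Lib.MP_79499b_co.DZ
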