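import Pool.Agent.Lib.MP_79499b_co.DZ.NDef
import Pool.Agent.Lib.MP_79499b_co.DZ.LD

/-!
# Density zero of the orders of abelian Singer difference sets of even dimension: interface

`m = 2 s`, `W = w1 w2`, `w_i = c_i r_i + 1`.  `ND` (in `NDef`) is what part N proves for almost all
`n`; `Shape` and `Split` are what part C proves for almost all `n`; part A shows that both together
exclude abelian difference sets.
-/

set_option autoImplicit false

namespace Pool.Agent.Lib.MP_79499b_co.DZ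

open Finset

/-- the cyclotomic field of conductor `W` -/
abbrev CF (W : ℕ) : Type := CyclotomicField W ℚ

/-- `p` is a quadratic nonresidue modulo the odd prime `w` -/
def NR (w p : ℕ) : Prop := ¬ IsSquare (p : ZMod w)

/-- `p` is not an `l`-th power modulo `w` for any prime `l ∣ r` -/
def NP (w r p : ℕ) : Prop :=
  ∀ l : ℕ, l.Prime → l ∣ r → ¬ ∃ y : ZMod w, y ^ l = (p : ZMod w)

/-- the shape of the pair: `w_i = c_i r_i + 1` primes, `w1 ∣ n ^ s + 1`, `w2 ∣ (n ^ s - 1) / (n - 1)` -/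
structure Shape (s c1 c2 w1 w2 r1 r2 n : ℕ) : Prop where
  prime1 : w1.Prime
  prime2 : w2.Prime
  ne : w1 ≠ w2
  eq1 : w1 = c1 * r1 + 1
  eq2 : w2 = c2 * r2 + 1
  odd1 : Odd r1
  odd2 : Odd r2
  one1 : 1 < r1
  one2 : 1 < r2
  cop1 : r1.Coprime (c1 * c2)
  cop2 : r2.Coprime (c1 * c2)
  cop : r1.Coprime r2
  dvd1 : w1 ∣ n ^ s + 1
  dvd2 : w2 ∣ ∑ i ∈ range s, n ^ i

/-- every prime factor `p` of `n` is a nonresidue modulo both `w_i`, or not an `l`-th power modulo `w_i`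
for the primes `l ∣ r_i`, `i = 1, 2`, or it is `p0` and `p0 ^ v ≤ B`, `p0 ^ v ∥ n` -/
def Split (p0 B w1 w2 r1 r2 n : ℕ) : Prop :=
  ∀ p : ℕ, p.Prime → p ∣ n →
    (NR w1 p ∧ NR w2 p) ∨ (NP w1 r1 p ∧ NP w2 r2 p) ∨ (p = p0 ∧ p0 ^ n.factorization p0 ≤ B)

/-- some prime `p ∣ n`, `p > X2^8`, is a nonresidue modulo both primes -/
def Large (x w1 w2 n : ℕ) : Prop :=
  ∃ p : ℕ, p.Prime ∧ p ∣ n ∧ X2 x ^ 8 < (p : ℝ) ∧ NR w1 p ∧ NR w2 p

end Pool.Agent.Lib.MP_79499b_co.DZ
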