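import Pool.Agent.Lib.MP_79499b_co.General
import Pool.Agent.Lib.MP_79499b_co.DZ.Defs

/-!
# DZ A1: twists and self-conjugate primes

`pw t X = X^{(t)}`, `iv X = X^{(-1)}`, `el univ = u = ∑ g`, `aug` = sum of the coefficients.

Claim (`dvd_selfconj`): if `X X^{(-1)} = N + λ u`, `p^(2e) ∣ N`, `p ∤ |G|`, `g^(p^j) = g⁻¹` for all
`g : G`, and `t` is coprime to `|G|`, then `p^(2e) ∣ X^{(t)} X^{(-1)} - λ u`.

Proof (copy the proof of `dvd_twist_gen` in General.lean and change the middle). `v = |G|`, `k = aug X`,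
`Y = v X - k u`. As there, `u u = v u`, `X u = k u`, `k^2 = N + λ v`, `Y Y^{(-1)} = N (v (v - u))`.
Now `pw (p^0) Y = pw 1 Y = Y` and `pw (p^j) Y = iv Y` (`pw_eq_iv`), so
`∏ i ∈ range 2, pw (p ^ s i) Y = Y * iv Y` with `s i = if i = 0 then 0 else j` is divisible by
`p^(e*2)`, hence `p^e ∣ Y` by `dvd_of_dvd_prod` (f = 2). Then `p^e ∣ pw t Y` and `p^e ∣ iv Y` (apply the ring
homomorphisms), so `p^(2e) ∣ pw t Y * iv Y`. As in `dvd_twist_gen` (h5 there, with `t` in place of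
`p^j`; `pw_el_univ` needs `t` coprime to `|G|`):
`v^2 (pw t X * iv X - λ u) = pw t Y * iv Y + N (v u)`, and `v` is coprime to `p`; conclude
coefficientwise (`intCast_dvd_iff`) as there.
-/

set_option autoImplicit false

namespace Pool.Agent.Lib.MP_79499b_co.DZ

open Finset MonoidAlgebra

variable {G : Type} [CommGroup G] [Fintype G]

theorem dvd_selfconj (X : MonoidAlgebra ℤ G) {N lam : ℤ}
    (hD : X * iv X = (N : MonoidAlgebra ℤ G) + (lam : MonoidAlgebra ℤ G) * el univ)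
    {p : ℕ} (hp : p.Prime) (hG : (Nat.card G).Coprime p) {j : ℕ} (hj : ∀ g : G, g ^ p ^ j = g⁻¹)
    {e : ℕ} (he : (p : ℤ) ^ (2 * e) ∣ N) {t : ℕ} (ht : (Nat.card G).Coprime t) :
    (((p : ℤ) ^ (2 * e) : ℤ) : MonoidAlgebra ℤ G) ∣
      pw t X * iv X - (lam : MonoidAlgebra ℤ G) * el univ := by
  set u : MonoidAlgebra ℤ G := el univ with hu
  set v : ℤ := (Fintype.card G : ℤ) with hv
  set k : ℤ := aug X with hk
  have huu : u * u = (v : MonoidAlgebra ℤ G) * u := by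
    rw [hu, mul_el_univ, aug_el]; simp [hv]
  have hDu : X * u = (k : MonoidAlgebra ℤ G) * u := by rw [hu, mul_el_univ]
  have hiDu : iv X * u = (k : MonoidAlgebra ℤ G) * u := by
    rw [hu, mul_el_univ, aug_iv]
  have hkk : k ^ 2 = N + lam * v := by
    have := congrArg aug hD
    rw [map_mul, aug_iv, map_add, map_mul, map_intCast, map_intCast, aug_el] at this
    simp only [← hk, hv, card_univ] at this ⊢
    simpa [sq] using this
  set Y : MonoidAlgebra ℤ G := (v : MonoidAlgebra ℤ G) * X - (k : MonoidAlgebra ℤ G) * u with hY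
  have hivY : iv Y = (v : MonoidAlgebra ℤ G) * iv X - (k : MonoidAlgebra ℤ G) * u := by
    rw [hY, map_sub, map_mul, map_mul, map_intCast, map_intCast, hu, iv_el_univ]
  have hpwY : pw t Y
      = (v : MonoidAlgebra ℤ G) * pw t X - (k : MonoidAlgebra ℤ G) * u := by
    rw [hY, map_sub, map_mul, map_mul, map_intCast, map_intCast, hu, pw_el_univ ht]
  have hpDu : pw t X * u = (k : MonoidAlgebra ℤ G) * u := by
    rw [hu, mul_el_univ, aug_pw]
  have hYY : Y * iv Y = (N : MonoidAlgebra ℤ G) *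
      ((v : MonoidAlgebra ℤ G) * ((v : MonoidAlgebra ℤ G) - u)) := by
    have hkk' : (k : MonoidAlgebra ℤ G) ^ 2 = N + lam * v := by exact_mod_cast congrArg _ hkk
    rw [hivY, hY]
    linear_combination (v : MonoidAlgebra ℤ G) ^ 2 * hD
      - (v : MonoidAlgebra ℤ G) * k * hDu - (v : MonoidAlgebra ℤ G) * k * hiDu
      + (k : MonoidAlgebra ℤ G) ^ 2 * huu - (v : MonoidAlgebra ℤ G) * u * hkk'
  have h3 : (((p : ℤ) ^ e : ℤ) : MonoidAlgebra ℤ G) ∣ Y := by
    refine dvd_of_dvd_prod hp hG (f := 2) (by norm_num) (fun i => if i = 0 then 0 else j) e Y ?_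
    rw [Finset.prod_range_succ, Finset.prod_range_one]
    simp only [if_true, pow_zero, one_ne_zero, if_false]
    rw [pw_eq_self (by simp), pw_eq_iv hj, hYY]
    have h4 : (p : ℤ) ^ (e * 2) ∣ N := by rw [mul_comm]; exact he
    exact Dvd.dvd.mul_right (map_dvd (Int.castRingHom (MonoidAlgebra ℤ G)) h4) _
  have h3t : (((p : ℤ) ^ e : ℤ) : MonoidAlgebra ℤ G) ∣ pw t Y := by
    have := map_dvd (pw t : MonoidAlgebra ℤ G →+* MonoidAlgebra ℤ G) h3
    rwa [map_intCast] at this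
  have h3i : (((p : ℤ) ^ e : ℤ) : MonoidAlgebra ℤ G) ∣ iv Y := by
    have := map_dvd (iv : MonoidAlgebra ℤ G →+* MonoidAlgebra ℤ G) h3
    rwa [map_intCast] at this
  have h3p : (((p : ℤ) ^ (2 * e) : ℤ) : MonoidAlgebra ℤ G) ∣ pw t Y * iv Y := by
    have h5 : (((p : ℤ) ^ (2 * e) : ℤ) : MonoidAlgebra ℤ G) =
        (((p : ℤ) ^ e : ℤ) : MonoidAlgebra ℤ G) * (((p : ℤ) ^ e : ℤ) : MonoidAlgebra ℤ G) := by
      rw [← Int.cast_mul, ← pow_add, two_mul]
    rw [h5]
    exact mul_dvd_mul h3t h3i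
  have h4 : (((p : ℤ) ^ (2 * e) : ℤ) : MonoidAlgebra ℤ G) ∣
      ((v ^ 2 : ℤ) : MonoidAlgebra ℤ G) *
      (pw t X * iv X - (lam : MonoidAlgebra ℤ G) * u) := by
    have hkk' : (k : MonoidAlgebra ℤ G) ^ 2 = N + lam * v := by exact_mod_cast congrArg _ hkk
    have h5 : ((v ^ 2 : ℤ) : MonoidAlgebra ℤ G) *
      (pw t X * iv X - (lam : MonoidAlgebra ℤ G) * u)
        = pw t Y * iv Y + (N : MonoidAlgebra ℤ G) * ((v : MonoidAlgebra ℤ G) * u) := by
      rw [hivY, hpwY]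
      push_cast
      linear_combination (v : MonoidAlgebra ℤ G) * k * hpDu + (v : MonoidAlgebra ℤ G) * k * hiDu
        - (k : MonoidAlgebra ℤ G) ^ 2 * huu + (v : MonoidAlgebra ℤ G) * u * hkk'
    rw [h5]
    exact dvd_add h3p (Dvd.dvd.mul_right (map_dvd (Int.castRingHom (MonoidAlgebra ℤ G)) he) _)
  rw [intCast_dvd_iff] at h4 ⊢
  intro g
  have h6 := h4 g
  rw [← zsmul_eq_mul, coeff_smul_apply, smul_eq_mul] at h6
  refine IsCoprime.dvd_of_dvd_mul_left ?_ h6
  apply IsCoprime.pow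
  rw [hv, ← Nat.card_eq_fintype_card]
  exact Nat.isCoprime_iff_coprime.mpr hG.symm

end Pool.Agent.Lib.MP_79499b_co.DZ
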