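import Pool.Agent.Lib.MP_79499b_co.General
import Pool.Agent.Lib.MP_79499b_co.EvenExcl29
import Pool.Agent.Lib.MP_79499b_co.DZ.Defs

/-!
# DZ A7: `ND` evaluates the characters

Claim (`ev_eq`). `|Q| = W > 0`, `X X^{(-1)} = (n^e0)^2 + λ u` in `ℤ[Q]`, `X^{(t)} = X` for all `t` with
`t^r ≡ 1 (mod W)`, and `ND (CyclotomicField W ℚ) e0 r n`. Then `χ(X) = ± n^e0` for every nontrivial
character `χ : Q →* ℂˣ`.
Proof. `K = CyclotomicField W ℚ`, `ζ` a primitive `W`-th root of unity in `K`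
(`IsCyclotomicExtension.zeta_spec`), `φ0 : K →+* ℂ` any embedding (`NumberField.Embeddings`, nonempty).
`φ0 ζ` is a primitive `W`-th root of unity, `χ(g)^W = 1` (`pow_card_eq_one`), so
`χ(g) = (φ0 ζ)^(i g)` with `i g : ℕ` (`IsPrimitiveRoot.eq_pow_of_pow_eq_one`). Put `u g = ζ^(i g) : K`.
`φ0 (u g) = χ(g)`; `φ0` is injective, so `u (g h) = u g * u h`, `u 1 = 1`: a monoid homomorphism `u : Q →* K`
(even to `𝓞 K`, as `ζ` is integral). `U : MonoidAlgebra ℤ Q →+* 𝓞 K`, the ring homomorphism with `single g 1 ↦ u g`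
(`MonoidAlgebra.lift`, as in the definition of `EvenExcl29.ev`); `β = U X`.
(a) `φ0 (U Y) = χ(Y)` for all `Y` (`ringHom_ext'`), where `χ(Y) = EvenExcl29.ev χ Y`.
(b) `MFix`: let `τ : K ≃ₐ[ℚ] K`, `τ^r = 1`. `τ ζ = ζ^t` for some natural number `t`
(`τ ζ` is a `W`-th root of unity: `(zeta_spec).eq_pow_of_pow_eq_one`). `τ^j ζ = ζ^(t^j)`, so `ζ^(t^r) = ζ`
and `t^r ≡ 1 (mod W)` (`IsPrimitiveRoot.pow_inj` / `pow_eq_pow_iff_modEq`, order of `ζ` is `W`).
`τ (U Y) = U (pw t Y)` for all `Y` (both ring homomorphisms map `single g 1` to `u g ^ t`), so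
`τ β = U (pw t X) = U X = β`.
(c) all absolute values: let `φ : K →+* ℂ`. `φ (U (iv Y)) = conj (φ (U Y))` (on `single g 1`: `φ (u g)` is a root of
unity, so its conjugate is its inverse, and `u g⁻¹ = (u g)⁻¹`). `U (el univ) = 0` since `u` is
nontrivial: with `u a ≠ 1`, `u a * ∑ u g = ∑ u g` (as in `EvenExcl29.ev_univ`). So
`|φ β|^2 = φ (U (X * iv X)) = (n^e0)^2` and `‖φ β‖ = n^e0`.
(d) `ND` gives `β = ± n^e0`; apply `φ0` and (a).
-/

set_option autoImplicit false

namespace Pool.Agent.Lib.MP_79499b_co.DZ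

open Finset MonoidAlgebra

theorem ev_eq_aux {K : Type} [Field K] [NumberField K] {W : ℕ} [NeZero W]
    [IsCyclotomicExtension {W} ℚ K] {Q : Type} [CommGroup Q] [Fintype Q] {r n e0 : ℕ} (hW : 0 < W)
    (hQ : Nat.card Q = W) (X : MonoidAlgebra ℤ Q) {lam : ℤ}
    (hX : X * iv X = (((((n : ℤ) ^ e0) ^ 2 : ℤ)) : MonoidAlgebra ℤ Q)
      + (lam : MonoidAlgebra ℤ Q) * el univ)
    (hfix : ∀ t : ℕ, t ^ r ≡ 1 [MOD W] → pw t X = X)
    (hND : ND K e0 r n)
    (χ : Q →* ℂˣ) (hχ : ∃ a, χ a ≠ 1) :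
    EvenExcl29.ev χ X = (((n : ℤ) ^ e0 : ℤ) : integralClosure ℤ ℂ) ∨
      EvenExcl29.ev χ X = -(((n : ℤ) ^ e0 : ℤ) : integralClosure ℤ ℂ) := by
  classical
  have hζ : IsPrimitiveRoot (IsCyclotomicExtension.zeta W ℚ K) W :=
    IsCyclotomicExtension.zeta_spec W ℚ K
  set ζ : K := IsCyclotomicExtension.zeta W ℚ K with hζdef
  let z : NumberField.RingOfIntegers K := hζ.toInteger
  have hz : ((z : NumberField.RingOfIntegers K) : K) = ζ := rfl
  obtain ⟨φ0⟩ : Nonempty (K →+* ℂ) := inferInstance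
  let ψ : NumberField.RingOfIntegers K →+* ℂ :=
    φ0.comp (algebraMap (NumberField.RingOfIntegers K) K)
  have hψ : Function.Injective ψ :=
    φ0.injective.comp NumberField.RingOfIntegers.coe_injective
  have hψz : ψ z = φ0 ζ := rfl
  have hφ : IsPrimitiveRoot (φ0 ζ) W := hζ.map_of_injective φ0.injective
  have hexp : ∀ g : Q, g ^ W = 1 := fun g => by rw [← hQ]; exact pow_card_eq_one'
  have hχW : ∀ g : Q, ((χ g : ℂˣ) : ℂ) ^ W = 1 := by
    intro g
    rw [← Units.val_pow_eq_pow_val, ← map_pow, hexp, map_one, Units.val_one]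
  choose i hi hi' using fun g : Q => hφ.eq_pow_of_pow_eq_one (hχW g)
  have hui : ∀ g, ψ (z ^ i g) = ((χ g : ℂˣ) : ℂ) := by
    intro g
    rw [map_pow, hψz, hi']
  let u : Q →* NumberField.RingOfIntegers K :=
    { toFun := fun g => z ^ i g
      map_one' := by
        apply hψ
        rw [hui, map_one, map_one, Units.val_one]
      map_mul' := by
        intro a b
        apply hψ
        rw [map_mul, hui, hui, hui, map_mul, Units.val_mul] }
  have hu : ∀ g, u g = z ^ i g := fun g => rfl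
  let U : MonoidAlgebra ℤ Q →+* NumberField.RingOfIntegers K :=
    (MonoidAlgebra.lift ℤ (NumberField.RingOfIntegers K) Q u).toRingHom
  have hU : ∀ g, U (single g (1 : ℤ)) = u g := by
    intro g
    simp [U]
  have ha : ∀ Y : MonoidAlgebra ℤ Q, ψ (U Y) = ((EvenExcl29.ev χ Y : integralClosure ℤ ℂ) : ℂ) := by
    intro Y
    have : ψ.comp U = (algebraMap (integralClosure ℤ ℂ) ℂ).comp (EvenExcl29.ev χ) := by
      apply ringHom_ext'
      intro g
      simp only [RingHom.comp_apply]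
      rw [hU, EvenExcl29.ev_single]
      change ψ (u g) = ((EvenExcl29.chr χ g : integralClosure ℤ ℂ) : ℂ)
      rw [hu, hui, EvenExcl29.coe_chr]
    exact congrArg (fun f => f Y) this
  have hb : MFix K r (U X) := by
    intro τ hτ
    have h1 : (τ ζ) ^ W = 1 := by rw [← map_pow, hζ.pow_eq_one, map_one]
    obtain ⟨t, -, ht⟩ := hζ.eq_pow_of_pow_eq_one h1
    have h2 : ∀ j : ℕ, (τ ^ j) ζ = ζ ^ (t ^ j) := by
      intro j
      induction j with
      | zero => simp
      | succ j ih =>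
        rw [pow_succ, AlgEquiv.mul_apply, ← ht, map_pow, ih, ← pow_mul, ← pow_succ]
    have h3 : ζ ^ (t ^ r) = ζ ^ 1 := by
      rw [← h2 r, hτ, pow_one]
      rfl
    have h4 : t ^ r ≡ 1 [MOD W] := by
      have h5 : IsOfFinOrder ζ := isOfFinOrder_iff_pow_eq_one.mpr ⟨W, hW, hζ.pow_eq_one⟩
      have h6 := h5.pow_eq_pow_iff_modEq.mp h3
      rwa [← hζ.eq_orderOf] at h6
    have h5 : ∀ Y : MonoidAlgebra ℤ Q, τ ((U Y : NumberField.RingOfIntegers K) : K)
        = ((U (pw t Y) : NumberField.RingOfIntegers K) : K) := by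
      intro Y
      have : ((τ : K →ₐ[ℚ] K) : K →+* K).comp
          ((algebraMap (NumberField.RingOfIntegers K) K).comp U)
          = (algebraMap (NumberField.RingOfIntegers K) K).comp (U.comp (pw t)) := by
        apply ringHom_ext'
        intro g
        simp only [RingHom.comp_apply]
        rw [hU, pw_single, hU, map_pow, hu, map_pow, map_pow, map_pow]
        change (τ ζ) ^ i g = (ζ ^ i g) ^ t
        rw [← ht, ← pow_mul, ← pow_mul, mul_comm]
      exact congrArg (fun f => f Y) this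
    rw [h5, hfix t h4]
  have hunitW : ∀ g, (u g) ^ W = 1 := by
    intro g
    rw [← map_pow, hexp, map_one]
  have hc : ∀ φ : K →+* ℂ, ‖φ ((U X : NumberField.RingOfIntegers K) : K)‖ = (n : ℝ) ^ e0 := by
    intro φ
    let Φ : NumberField.RingOfIntegers K →+* ℂ :=
      φ.comp (algebraMap (NumberField.RingOfIntegers K) K)
    have h1 : ∀ Y : MonoidAlgebra ℤ Q, (starRingEnd ℂ) (Φ (U Y)) = Φ (U (iv Y)) := by
      intro Y
      have : (starRingEnd ℂ).comp (Φ.comp U) = (Φ.comp U).comp iv := by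
        apply ringHom_ext'
        intro g
        simp only [RingHom.comp_apply]
        rw [iv_single, hU, hU]
        have h2 : Φ (u g) ^ W = 1 := by rw [← map_pow, hunitW, map_one]
        have h3 : ‖Φ (u g)‖ = 1 := Complex.norm_eq_one_of_pow_eq_one h2 hW.ne'
        have h4 : Φ (u g⁻¹) * Φ (u g) = 1 := by
          rw [← map_mul, ← map_mul, inv_mul_cancel, map_one, map_one]
        rw [eq_inv_of_mul_eq_one_left h4, Complex.inv_eq_conj h3]
      exact congrArg (fun f => f Y) this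
    have h2 : U (el univ) = 0 := by
      obtain ⟨a, ha'⟩ := hχ
      have h3 : U (el univ) = ∑ g : Q, u g := by
        rw [el, map_sum]
        exact Finset.sum_congr rfl fun g _ => hU g
      have h4 : u a * ∑ g : Q, u g = ∑ g : Q, u g := by
        rw [Finset.mul_sum]
        simp_rw [← map_mul]
        exact Equiv.sum_comp (Equiv.mulLeft a) (fun g => u g)
      have h5 : (u a - 1) * ∑ g : Q, u g = 0 := by
        rw [sub_mul, h4, one_mul, sub_self]
      rcases mul_eq_zero.mp h5 with h | h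
      · exfalso
        apply ha'
        apply Units.ext
        rw [← hui, ← hu, sub_eq_zero.mp h, map_one, Units.val_one]
      · rw [h3, h]
    have h3 : Φ (U X) * (starRingEnd ℂ) (Φ (U X)) = ((n : ℂ) ^ e0) ^ 2 := by
      rw [h1, ← map_mul, ← map_mul, hX, map_add, map_mul, h2, mul_zero, add_zero, map_intCast,
        map_intCast]
      push_cast
      rfl
    rw [Complex.mul_conj, Complex.normSq_eq_norm_sq] at h3
    have h4 : ‖Φ (U X)‖ ^ 2 = ((n : ℝ) ^ e0) ^ 2 := by exact_mod_cast h3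
    have h5 : ‖Φ (U X)‖ = (n : ℝ) ^ e0 :=
      (pow_left_inj₀ (norm_nonneg _) (by positivity) two_ne_zero).mp h4
    exact h5
  rcases hND (U X) hb hc with h | h
  · left
    apply Subtype.ext
    rw [← ha, h]
    push_cast
    simp
  · right
    apply Subtype.ext
    rw [← ha, h]
    push_cast
    simp

theorem ev_eq {Q : Type} [CommGroup Q] [Fintype Q] {W r n e0 : ℕ} (hW : 0 < W)
    (hQ : Nat.card Q = W) (X : MonoidAlgebra ℤ Q) {lam : ℤ}
    (hX : X * iv X = (((((n : ℤ) ^ e0) ^ 2 : ℤ)) : MonoidAlgebra ℤ Q)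
      + (lam : MonoidAlgebra ℤ Q) * el univ)
    (hfix : ∀ t : ℕ, t ^ r ≡ 1 [MOD W] → pw t X = X)
    (hND : ND (CyclotomicField W ℚ) e0 r n)
    (χ : Q →* ℂˣ) (hχ : ∃ a, χ a ≠ 1) :
    EvenExcl29.ev χ X = (((n : ℤ) ^ e0 : ℤ) : integralClosure ℤ ℂ) ∨
      EvenExcl29.ev χ X = -(((n : ℤ) ^ e0 : ℤ) : integralClosure ℤ ℂ) := by
  have : NeZero W := ⟨hW.ne'⟩
  have h : @IsCyclotomicExtension {W} ℚ (CyclotomicField W ℚ) _ _ DivisionRing.toRatAlgebra := by
    have e : (DivisionRing.toRatAlgebra : Algebra ℚ (CyclotomicField W ℚ))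
        = CyclotomicField.algebra W ℚ := Subsingleton.elim _ _
    rw [e]
    exact CyclotomicField.isCyclotomicExtension W ℚ
  exact @ev_eq_aux (CyclotomicField W ℚ) _ _ W _ h Q _ _ r n e0 hW hQ X lam hX hfix hND χ hχ

end Pool.Agent.Lib.MP_79499b_co.DZ
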