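import Pool.Agent.Lib.MP_79499b_co.General
import Pool.Agent.Lib.MP_79499b_co.EvenExcl29
import Pool.Agent.Lib.MP_79499b_co.DZ.Defs

/-!
# DZ A8: the sign contradiction

Claim (`sign_contra`). `w1`, `w2` primes dividing `|Q|`, `χ(X) = ± N0` for all nontrivial characters,
`aug X ≡ N0` modulo `w1`, `aug X ≡ -N0` modulo `w2`, `w_i ∤ 2 N0`. Contradiction.
Proof: the second half of `EvenExcl29.even_excl` (from `hne` on), with `E = X`, `D.card = aug X`: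
`w1 ≠ w2`; characters `χ1`, `χ2` of orders `w1`, `w2` (`exists_chr`), `χ3 = χ1 χ2` nontrivial; `χ1(X) ≡ aug X`
modulo a maximal ideal over `w1`, so `χ1(X) = N0`; `χ2(X) = -N0`; `χ3(X) ≡ χ2(X) = -N0` modulo
the ideal over `w1` and `≡ χ1(X) = N0` modulo the ideal over `w2`, but it is `N0` or `-N0`.
-/

set_option autoImplicit false

namespace Pool.Agent.Lib.MP_79499b_co.DZ

open Finset MonoidAlgebra

theorem sign_contra {Q : Type} [CommGroup Q] [Fintype Q] (X : MonoidAlgebra ℤ Q) {N0 : ℤ}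
    {w₁ w₂ : ℕ} (hw₁ : w₁.Prime) (hw₂ : w₂.Prime)
    (hG₁ : w₁ ∣ Nat.card Q) (hG₂ : w₂ ∣ Nat.card Q)
    (key : ∀ ψ : Q →* ℂˣ, (∃ a, ψ a ≠ 1) →
      EvenExcl29.ev ψ X = ((N0 : ℤ) : integralClosure ℤ ℂ) ∨
      EvenExcl29.ev ψ X = -((N0 : ℤ) : integralClosure ℤ ℂ))
    (hk₁ : (w₁ : ℤ) ∣ aug X - N0) (hk₂ : (w₂ : ℤ) ∣ aug X + N0)
    (hn₁ : ¬ (w₁ : ℤ) ∣ 2 * N0) (hn₂ : ¬ (w₂ : ℤ) ∣ 2 * N0) : False := by
  classical
  have hne : w₁ ≠ w₂ := by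
    rintro rfl
    apply hn₁
    have := dvd_sub hk₂ hk₁
    have e : aug X + N0 - (aug X - N0) = 2 * N0 := by ring
    rwa [e] at this
  have hcop : Nat.Coprime w₁ w₂ := (Nat.coprime_primes hw₁ hw₂).mpr hne
  obtain ⟨χ₁, hχ₁1, hp₁⟩ := EvenExcl29.exists_chr (G := Q) hw₁ hG₁
  obtain ⟨χ₂, hχ₂1, hp₂⟩ := EvenExcl29.exists_chr (G := Q) hw₂ hG₂
  let χ₃ : Q →* ℂˣ := χ₁ * χ₂
  have hχ₃ : ∀ g, χ₃ g = χ₁ g * χ₂ g := fun g => rfl
  have hχ₃1 : ∃ a, χ₃ a ≠ 1 := by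
    by_contra hcon
    push Not at hcon
    obtain ⟨a, ha⟩ := hχ₁1
    apply ha
    have h1 : χ₁ a * χ₂ a = 1 := by rw [← hχ₃]; exact hcon a
    have h2 : χ₁ a ^ w₂ = 1 := by
      have h3 : (χ₁ a * χ₂ a) ^ w₂ = 1 := by rw [h1, one_pow]
      rwa [mul_pow, hp₂, mul_one] at h3
    have h3 : orderOf (χ₁ a) ∣ Nat.gcd w₁ w₂ :=
      Nat.dvd_gcd (orderOf_dvd_of_pow_eq_one (hp₁ a)) (orderOf_dvd_of_pow_eq_one h2)
    rw [hcop] at h3
    exact orderOf_eq_one_iff.mp (Nat.dvd_one.mp h3)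
  obtain ⟨P₁, hP₁, hwP₁⟩ := EvenExcl29.exists_ideal hw₁
  obtain ⟨P₂, hP₂, hwP₂⟩ := EvenExcl29.exists_ideal hw₂
  have e₁ := EvenExcl29.ev_sub_aug_mem hw₁ P₁ hwP₁ hp₁ X
  have e₂ := EvenExcl29.ev_sub_aug_mem hw₂ P₂ hwP₂ hp₂ X
  have e₃ := EvenExcl29.ev_sub_mem hw₁ P₁ hwP₁ hp₁ hχ₃ X
  have e₄ := EvenExcl29.ev_sub_mem hw₂ P₂ hwP₂ hp₂ (fun g => (hχ₃ g).trans (mul_comm _ _)) X
  have f₁ := EvenExcl29.intCast_mem_iff hw₁ P₁ hwP₁
  have f₂ := EvenExcl29.intCast_mem_iff hw₂ P₂ hwP₂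
  have g₁ : EvenExcl29.ev χ₁ X = ((N0 : ℤ) : integralClosure ℤ ℂ) := by
    rcases key χ₁ hχ₁1 with h' | h'
    · exact h'
    · exfalso
      rw [h'] at e₁
      have : ((-(N0 : ℤ) - aug X : ℤ) : integralClosure ℤ ℂ) ∈ P₁ := by push_cast; exact e₁
      rw [f₁] at this
      apply hn₁
      have h3 := dvd_add this hk₁
      have e : -N0 - aug X + (aug X - N0) = -(2 * N0) := by ring
      rw [e] at h3
      exact (dvd_neg).mp h3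
  have g₂ : EvenExcl29.ev χ₂ X = -((N0 : ℤ) : integralClosure ℤ ℂ) := by
    rcases key χ₂ hχ₂1 with h' | h'
    · exfalso
      rw [h'] at e₂
      have : (((N0 : ℤ) - aug X : ℤ) : integralClosure ℤ ℂ) ∈ P₂ := by push_cast; exact e₂
      rw [f₂] at this
      apply hn₂
      have h3 := dvd_add this hk₂
      have e : N0 - aug X + (aug X + N0) = 2 * N0 := by ring
      rwa [e] at h3
    · exact h'
  rw [g₂] at e₃
  rw [g₁] at e₄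
  rcases key χ₃ hχ₃1 with h' | h'
  · rw [h'] at e₃
    have : ((2 * N0 : ℤ) : integralClosure ℤ ℂ) ∈ P₁ := by
      have e : ((2 * N0 : ℤ) : integralClosure ℤ ℂ) =
        ((N0 : ℤ) : integralClosure ℤ ℂ) - -((N0 : ℤ) : integralClosure ℤ ℂ) := by
        push_cast; ring
      rw [e]; exact e₃
    rw [f₁] at this
    exact hn₁ this
  · rw [h'] at e₄
    have : ((-(2 * N0) : ℤ) : integralClosure ℤ ℂ) ∈ P₂ := by
      have e : ((-(2 * N0) : ℤ) : integralClosure ℤ ℂ) =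
        -((N0 : ℤ) : integralClosure ℤ ℂ) - ((N0 : ℤ) : integralClosure ℤ ℂ) := by
        push_cast; ring
      rw [e]; exact e₄
    rw [f₂] at this
    exact hn₂ ((dvd_neg).mp this)

end Pool.Agent.Lib.MP_79499b_co.DZ
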