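import Pool.Agent.Lib.MP_79499b_co.General
import Pool.Agent.Lib.MP_79499b_co.DZ.Defs

/-!
# DZ A3: the quotient element `Z`, and from `Z` back to a multiplier

Both statements are pieces of the proof of `multiplier_gen` in General.lean.

`exists_Z`: `X X^{(-1)} = N + λ u`, `N = n1 g`, `n1 ≠ 0`, `t` coprime to `|G|`,
`n1 ∣ S := X^{(t)} X^{(-1)} - λ u`. Then `S = n1 Z` with `Z Z^{(-1)} = g^2` and `aug Z = g`.
Proof: in `multiplier_gen` this is everything up to `haugT` (there `P = n1`, `M = g`, `T = Z`):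
`S S^{(-1)} = N^2` from `hD`, `X^{(t)} X^{(-t)} = N + λ u` and `k^2 = N + λ v`; cancel `n1^2`
(`intCast_mul_cancel`). `aug S = k^2 - λ v = N`, cancel `n1`.

`mult_of`: if `S = N h` (`h` = the group ring element `single h 1`), `N ≠ 0`, then `X^{(t)} = h X`.
Proof: last lines of `multiplier_gen` (h8):
`X^{(t)} (X^{(-1)} X) = (N h + λ u) X`, the left side is `X^{(t)} (N + λ u) = N X^{(t)} + λ k u`, and
`λ u X = λ k u`; cancel `N`.
-/

set_option autoImplicit false

namespace Pool.Agent.Lib.MP_79499b_co.DZ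

open Finset MonoidAlgebra

variable {G : Type} [CommGroup G] [Fintype G]

theorem exists_Z (X : MonoidAlgebra ℤ G) {N lam : ℤ}
    (hD : X * iv X = (N : MonoidAlgebra ℤ G) + (lam : MonoidAlgebra ℤ G) * el univ)
    {n1 g : ℤ} (hn1 : n1 ≠ 0) (hNg : N = n1 * g) {t : ℕ} (ht : (Nat.card G).Coprime t)
    (hdvd : ((n1 : ℤ) : MonoidAlgebra ℤ G) ∣
      pw t X * iv X - (lam : MonoidAlgebra ℤ G) * el univ) :
    ∃ Z : MonoidAlgebra ℤ G,
      pw t X * iv X - (lam : MonoidAlgebra ℤ G) * el univ = (n1 : MonoidAlgebra ℤ G) * Z ∧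
      Z * iv Z = ((g ^ 2 : ℤ) : MonoidAlgebra ℤ G) ∧ aug Z = g := by
  classical
  obtain ⟨T, hT⟩ := hdvd
  set u : MonoidAlgebra ℤ G := el univ with hu
  set v : ℤ := (Fintype.card G : ℤ) with hv
  set k : ℤ := aug X with hk
  have huu : u * u = (v : MonoidAlgebra ℤ G) * u := by
    rw [hu, mul_el_univ, aug_el]; simp [hv]
  have hDu : X * u = (k : MonoidAlgebra ℤ G) * u := by rw [hu, mul_el_univ]
  have hiDu : iv X * u = (k : MonoidAlgebra ℤ G) * u := by
    rw [hu, mul_el_univ, aug_iv]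
  have hpDu : pw t X * u = (k : MonoidAlgebra ℤ G) * u := by
    rw [hu, mul_el_univ, aug_pw]
  have hipDu : iv (pw t X) * u = (k : MonoidAlgebra ℤ G) * u := by
    rw [hu, mul_el_univ, aug_iv, aug_pw]
  have hkk : k ^ 2 = N + lam * v := by
    have := congrArg aug hD
    rw [map_mul, aug_iv, map_add, map_mul, map_intCast, map_intCast, aug_el] at this
    simp only [← hk, hv, card_univ] at this ⊢
    simpa [sq] using this
  have hkk' : (k : MonoidAlgebra ℤ G) ^ 2 = N + lam * v := by exact_mod_cast congrArg _ hkk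
  have hDt : pw t X * iv (pw t X)
      = (N : MonoidAlgebra ℤ G) + (lam : MonoidAlgebra ℤ G) * u := by
    rw [← pw_iv, ← map_mul, hD, map_add, map_mul, map_intCast, map_intCast, hu, pw_el_univ ht]
  set S := pw t X * iv X - (lam : MonoidAlgebra ℤ G) * u with hS
  have hivS : iv S = iv (pw t X) * X - (lam : MonoidAlgebra ℤ G) * u := by
    rw [hS, map_sub, map_mul, map_mul, iv_iv, map_intCast, hu, iv_el_univ]
  have hSS : S * iv S = (N : MonoidAlgebra ℤ G) ^ 2 := by
    rw [hivS, hS]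
    linear_combination (X * iv X) * hDt
      + ((N : MonoidAlgebra ℤ G) + (lam : MonoidAlgebra ℤ G) * u) * hD
      - (lam : MonoidAlgebra ℤ G) * iv X * hpDu
      - (lam : MonoidAlgebra ℤ G) * (k : MonoidAlgebra ℤ G) * hiDu
      - (lam : MonoidAlgebra ℤ G) * X * hipDu
      - (lam : MonoidAlgebra ℤ G) * (k : MonoidAlgebra ℤ G) * hDu
      + 2 * (lam : MonoidAlgebra ℤ G) ^ 2 * huu
      - 2 * (lam : MonoidAlgebra ℤ G) * u * hkk'
  refine ⟨T, hT, ?_, ?_⟩
  · have h1 : ((n1 ^ 2 : ℤ) : MonoidAlgebra ℤ G) * (T * iv T)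
        = ((n1 ^ 2 : ℤ) : MonoidAlgebra ℤ G) * ((g ^ 2 : ℤ) : MonoidAlgebra ℤ G) := by
      have h2 : S * iv S = ((n1 ^ 2 : ℤ) : MonoidAlgebra ℤ G) * (T * iv T) := by
        rw [hT, map_mul, map_intCast]; push_cast; ring
      rw [← h2, hSS, hNg]; push_cast; ring
    exact intCast_mul_cancel (pow_ne_zero 2 hn1) h1
  · have h1 : aug S = n1 * aug T := by rw [hT, map_mul, map_intCast]; simp
    have h2 : aug S = N := by
      rw [hS, map_sub, map_mul, map_mul, aug_pw, aug_iv, map_intCast, hu, aug_el, ← hk]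
      have : ((univ : Finset G).card : ℤ) = v := by simp [hv]
      rw [this]
      simp only [Int.cast_id]
      linear_combination hkk
    have h3 : n1 * aug T = n1 * g := by rw [← h1, h2, hNg]
    exact mul_left_cancel₀ hn1 h3

theorem mult_of (X : MonoidAlgebra ℤ G) {N lam : ℤ}
    (hD : X * iv X = (N : MonoidAlgebra ℤ G) + (lam : MonoidAlgebra ℤ G) * el univ)
    (hN : N ≠ 0) {t : ℕ} {h : G}
    (hS : pw t X * iv X - (lam : MonoidAlgebra ℤ G) * el univ
      = (N : MonoidAlgebra ℤ G) * single h 1) :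
    pw t X = single h 1 * X := by
  set u : MonoidAlgebra ℤ G := el univ with hu
  set k : ℤ := aug X with hk
  have hDu : X * u = (k : MonoidAlgebra ℤ G) * u := by rw [hu, mul_el_univ]
  have hpDu : pw t X * u = (k : MonoidAlgebra ℤ G) * u := by
    rw [hu, mul_el_univ, aug_pw]
  have h8 : (N : MonoidAlgebra ℤ G) * pw t X
      = (N : MonoidAlgebra ℤ G) * (single h 1 * X) := by
    have h9 : pw t X * iv X
        = (N : MonoidAlgebra ℤ G) * single h 1 + (lam : MonoidAlgebra ℤ G) * u := by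
      rw [← hS]; ring
    linear_combination X * h9 - pw t X * hD
      - (lam : MonoidAlgebra ℤ G) * hpDu + (lam : MonoidAlgebra ℤ G) * hDu
  exact intCast_mul_cancel hN h8

end Pool.Agent.Lib.MP_79499b_co.DZ
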