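import Pool.Agent.Lib.MP_79499b_co.General
import Pool.Agent.Lib.MP_79499b_co.DZ.Defs

/-!
# DZ A4: elements `Z` with `Z Z^{(-1)} = g^2`, `g` a power of a tiny prime, are trivial

`z_one`: `Z Z^{(-1)} = 1`, `aug Z = 1` implies `Z = single h 1`.
Proof: the coefficient at `1` (`coeff_mul_iv`): `∑ z_x^2 = 1 = ∑ z_x` (`aug_eq_sum`), so
`∑ z_x (z_x - 1) = 0` with nonnegative terms, all `z_x ∈ {0, 1}`, `trivial_of_nonneg` with `M = 1`
(this is at the end of `multiplier_gen` in General.lean, `hM1`).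

`exists_fix`: if `X^{(t)} = h X` and `t - 1` is coprime to `|G|`, `1 ≤ t`, some translate `a X` is fixed:
`(a X)^{(t)} = a^t h X`, choose `a` with `a^(t-1) = h⁻¹` (`powCoprime` is bijective), then
`a^t h = a^(t-1) a h = a`.

`pw_pow_fix`: `X^{(t)} = X` implies `X^{(t^j)} = X` (induction, `pw_pw`; `pw 1` is the identity, `pw_eq_self`).

`z_trivial`: `p` prime, `p` and `p - 1` coprime to `|G|`, `g = p^e`, `Z Z^{(-1)} = g^2`, `aug Z = g`, and for
`x ≠ 1` and `1 ≤ i ≤ g^2` we have `x^(p^i) ≠ x`. Then `Z = g h` for some `h : G`.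
Proof. `Z Z^{(-1)} = N + 0 u` with `N = p^(2e)`: `dvd_twist_gen` (with `j = 1`, `lam = 0`, exponent `2 e`) gives
`Z^{(p)} Z^{(-1)} = p^(2e) F`. Then `F F^{(-1)} = 1` (multiply: `p^(4e) F F^{(-1)} =
Z^{(p)} Z^{(-1)} Z^{(-p)} Z = (Z Z^{(-1)}) (Z Z^{(-1)})^{(p)} = p^(4e)`, cancel) and `aug F = 1`
(`aug: g^2 = p^(2e) aug F`). So `F = h` by `z_one` and `Z^{(p)} Z^{(-1)} Z = g^2 h Z`, i.e.
`Z^{(p)} = h Z` after cancelling `g^2`. By `exists_fix` some translate `Z' = a Z` has `Z'^{(p)} = Z'`,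
hence `Z'^{(p^i)} = Z'` for all `i`. The power map `x ↦ x^p` is a bijection of `G`, so the coefficients satisfy
`z'(x^(p^i)) = z'(x)`. Let `x ≠ 1` with `z'(x) ≠ 0`. The elements `x^(p^i)`, `0 ≤ i ≤ g^2`, are
`g^2 + 1` distinct elements (if `x^(p^i) = x^(p^j)`, `i < j`, then `y = x^(p^i) ≠ 1` has
`y^(p^(j-i)) = y`), so `∑ z'^2 ≥ g^2 + 1`, but `∑ z'^2 = g^2`
(`coeff_mul_iv` at `1`; `Z' Z'^{(-1)} = Z Z^{(-1)}`). So `Z' = z'(1) · 1`, `z'(1) = aug Z' = aug Z = g`, and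
`Z = g a⁻¹`.
-/

set_option autoImplicit false

namespace Pool.Agent.Lib.MP_79499b_co.DZ

open Finset MonoidAlgebra

variable {G : Type} [CommGroup G] [Fintype G]

theorem z_one (Z : MonoidAlgebra ℤ G) (hZ : Z * iv Z = 1) (ha : aug Z = 1) :
    ∃ h : G, Z = single h 1 := by
  classical
  have h1 : (Z * iv Z).coeff 1 = 1 := by
    rw [hZ, MonoidAlgebra.one_def, coeff_single, Finsupp.single_apply, if_pos rfl]
  have h3 := h1
  rw [coeff_mul_iv] at h3
  simp only [one_mul] at h3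
  have h2 : ∑ x, Z.coeff x * (Z.coeff x - 1) = 0 := by
    simp_rw [mul_sub, mul_one]
    rw [Finset.sum_sub_distrib, ← aug_eq_sum, ha, h3]
    norm_num
  have h4 : ∀ x : ℤ, 0 ≤ x * (x - 1) := by
    intro x
    rcases le_or_gt x 0 with h | h
    · nlinarith
    · have : 1 ≤ x := h
      nlinarith
  have h5 : ∀ g, 0 ≤ Z.coeff g := by
    intro g
    have h5 := (Finset.sum_eq_zero_iff_of_nonneg (fun i _ => h4 (Z.coeff i))).mp h2 g (mem_univ g)
    rcases mul_eq_zero.mp h5 with h | h <;> omega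
  exact trivial_of_nonneg one_pos h5 ha (by rw [h1]; norm_num)

theorem exists_fix (X : MonoidAlgebra ℤ G) {t : ℕ} (ht1 : 1 ≤ t)
    (ht : (Nat.card G).Coprime (t - 1)) {h : G} (hX : pw t X = single h 1 * X) :
    ∃ a : G, pw t (single a 1 * X) = single a 1 * X := by
  obtain ⟨a, ha⟩ : ∃ a : G, a ^ (t - 1) = h⁻¹ :=
    ⟨(powCoprime ht).symm h⁻¹, (powCoprime ht).apply_symm_apply h⁻¹⟩
  refine ⟨a, ?_⟩
  have h1 : a ^ t * h = a := by
    have h2 : a ^ t = a ^ (t - 1) * a := by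
      rw [← pow_succ]
      congr 1
      omega
    rw [h2, ha]
    rw [mul_comm h⁻¹ a, mul_assoc, inv_mul_cancel, mul_one]
  rw [map_mul, pw_single, hX, ← mul_assoc, single_mul_single, h1, one_mul]

omit [Fintype G] in
theorem pw_pow_fix {X : MonoidAlgebra ℤ G} {t : ℕ} (h : pw t X = X) (j : ℕ) :
    pw (t ^ j) X = X := by
  induction j with
  | zero =>
    rw [pow_zero]
    exact pw_eq_self (fun g => pow_one g) X
  | succ j ih =>
    rw [pow_succ, ← pw_pw, h, ih]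

private theorem A4_coeff (X : MonoidAlgebra ℤ G) {t : ℕ} (ht : (Nat.card G).Coprime t) (x : G) :
    (pw t X).coeff (x ^ t) = X.coeff x := by
  classical
  rw [pw_eq_pr, coeff_mapDomain]
  rw [Finset.sum_eq_single x]
  · exact if_pos rfl
  · intro y _ hy
    rw [if_neg]
    intro h
    exact hy ((powCoprime ht).injective h)
  · intro h
    exact absurd (mem_univ x) h

theorem z_trivial (Z : MonoidAlgebra ℤ G) {p e : ℕ} (hp : p.Prime) (hG : (Nat.card G).Coprime p)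
    (hG' : (Nat.card G).Coprime (p - 1))
    (hZ : Z * iv Z = (((((p : ℤ) ^ e) ^ 2 : ℤ)) : MonoidAlgebra ℤ G)) (ha : aug Z = (p : ℤ) ^ e)
    (horb : ∀ x : G, x ≠ 1 → ∀ i : ℕ, 1 ≤ i → i ≤ (p ^ e) ^ 2 → x ^ (p ^ i) ≠ x) :
    ∃ h : G, Z = (((p : ℤ) ^ e : ℤ) : MonoidAlgebra ℤ G) * single h 1 := by
  classical
  obtain ⟨N, hN⟩ : ∃ N : ℤ, N = ((p : ℤ) ^ e) ^ 2 := ⟨_, rfl⟩
  have hp0 : (0 : ℤ) < p := by exact_mod_cast hp.pos
  have hN0 : N ≠ 0 := by rw [hN]; positivity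
  rw [← hN] at hZ
  have hD : Z * iv Z = (N : MonoidAlgebra ℤ G) + ((0 : ℤ) : MonoidAlgebra ℤ G) * el univ := by
    rw [hZ, Int.cast_zero, zero_mul, add_zero]
  have hNe : N = (p : ℤ) ^ (2 * e) := by rw [hN, ← pow_mul, mul_comm]
  obtain ⟨F, hF⟩ := dvd_twist_gen Z hD hp hG (e := 2 * e) (by rw [hNe]) 1
  rw [Int.cast_zero, zero_mul, sub_zero, pow_one, ← hNe] at hF
  have hivF : iv (pw p Z) * Z = (N : MonoidAlgebra ℤ G) * iv F := by
    have h1 := congrArg iv hF
    rw [map_mul, map_mul, iv_iv, map_intCast] at h1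
    exact h1
  have hpp : pw p Z * iv (pw p Z) = (N : MonoidAlgebra ℤ G) := by
    rw [← pw_iv, ← map_mul, hZ, map_intCast]
  have hFF : F * iv F = 1 := by
    have h1 : ((N ^ 2 : ℤ) : MonoidAlgebra ℤ G) * (F * iv F) = ((N ^ 2 : ℤ) : MonoidAlgebra ℤ G) * 1 := by
      push_cast
      calc (N : MonoidAlgebra ℤ G) ^ 2 * (F * iv F) = ((N : MonoidAlgebra ℤ G) * F) * ((N : MonoidAlgebra ℤ G) * iv F) := by ring
        _ = (pw p Z * iv Z) * (iv (pw p Z) * Z) := by rw [hF, hivF]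
        _ = (Z * iv Z) * (pw p Z * iv (pw p Z)) := by ring
        _ = (N : MonoidAlgebra ℤ G) ^ 2 * 1 := by rw [hZ, hpp]; ring
    exact intCast_mul_cancel (pow_ne_zero 2 hN0) h1
  have haF : aug F = 1 := by
    have h1 := congrArg aug hF
    rw [map_mul, aug_pw, aug_iv, map_mul, map_intCast, ha] at h1
    have h2 : N * aug F = N * 1 := by
      rw [mul_one]
      simp only [Int.cast_id] at h1
      rw [← h1, hN]
      ring
    exact mul_left_cancel₀ hN0 h2
  obtain ⟨h, hh⟩ := z_one F hFF haF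
  have hpZ : pw p Z = single h 1 * Z := by
    refine intCast_mul_cancel hN0 ?_
    calc (N : MonoidAlgebra ℤ G) * pw p Z = (Z * iv Z) * pw p Z := by rw [hZ]
      _ = (pw p Z * iv Z) * Z := by ring
      _ = (N : MonoidAlgebra ℤ G) * (single h 1 * Z) := by rw [hF, hh, mul_assoc]
  obtain ⟨a, hfix⟩ := exists_fix Z hp.one_le hG' hpZ
  obtain ⟨Z', hZ'⟩ : ∃ Z' : MonoidAlgebra ℤ G, Z' = single a 1 * Z := ⟨_, rfl⟩
  rw [← hZ'] at hfix
  have hZZ' : Z' * iv Z' = (N : MonoidAlgebra ℤ G) := by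
    rw [hZ', map_mul, iv_single]
    calc single a 1 * Z * (single a⁻¹ 1 * iv Z) = (single a 1 * single a⁻¹ 1) * (Z * iv Z) := by ring
      _ = (N : MonoidAlgebra ℤ G) := by
        rw [hZ, single_mul_single, mul_inv_cancel, one_mul, ← MonoidAlgebra.one_def, one_mul]
  have hsq : ∑ x, Z'.coeff x * Z'.coeff x = N := by
    have h1 : (Z' * iv Z').coeff 1 = N := by
      rw [hZZ', MonoidAlgebra.intCast_def]; simp
    rw [coeff_mul_iv] at h1
    simpa only [one_mul] using h1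
  have hco : ∀ (x : G) (i : ℕ), Z'.coeff (x ^ (p ^ i)) = Z'.coeff x := by
    intro x i
    have h1 := A4_coeff Z' (Nat.Coprime.pow_right i hG) x
    rw [pw_pow_fix hfix i] at h1
    exact h1
  have hzero : ∀ x : G, x ≠ 1 → Z'.coeff x = 0 := by
    intro x hx
    by_contra hne
    have hinj : Set.InjOn (fun i : ℕ => x ^ (p ^ i)) (range ((p ^ e) ^ 2 + 1) : Finset ℕ) := by
      have key : ∀ i j : ℕ, i < j → j ≤ (p ^ e) ^ 2 → x ^ (p ^ i) ≠ x ^ (p ^ j) := by
        intro i j hij hj heq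
        have hy1 : x ^ (p ^ i) ≠ 1 := by
          intro h1
          apply hx
          apply (powCoprime (Nat.Coprime.pow_right i hG)).injective
          show x ^ (p ^ i) = 1 ^ (p ^ i)
          rw [h1, one_pow]
        refine horb _ hy1 (j - i) (by omega) (by omega) ?_
        rw [← pow_mul, ← pow_add, Nat.add_sub_cancel' hij.le]
        exact heq.symm
      intro i hi j hj hij
      rw [Finset.mem_coe, Finset.mem_range] at hi hj
      rcases lt_trichotomy i j with h1 | h1 | h1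
      · exact absurd hij (key i j h1 (by omega))
      · exact h1
      · exact absurd hij.symm (key j i h1 (by omega))
    have h1 : ∑ y ∈ (range ((p ^ e) ^ 2 + 1)).image (fun i : ℕ => x ^ (p ^ i)), Z'.coeff y * Z'.coeff y ≤
        ∑ y, Z'.coeff y * Z'.coeff y :=
      Finset.sum_le_sum_of_subset_of_nonneg (subset_univ _) fun y _ _ => mul_self_nonneg _
    rw [Finset.sum_image hinj, hsq] at h1
    have h2 : ∀ i ∈ range ((p ^ e) ^ 2 + 1), (1 : ℤ) ≤ Z'.coeff (x ^ (p ^ i)) * Z'.coeff (x ^ (p ^ i)) := by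
      intro i _
      rw [hco]
      have h3 : 0 < Z'.coeff x * Z'.coeff x := mul_self_pos.mpr hne
      omega
    have h3 := Finset.sum_le_sum h2
    rw [Finset.sum_const, card_range, nsmul_eq_mul, mul_one] at h3
    have h4 : (((p ^ e) ^ 2 + 1 : ℕ) : ℤ) = N + 1 := by rw [hN]; push_cast; ring
    rw [h4] at h3
    linarith
  have hZ1 : Z' = single 1 (Z'.coeff 1) := by
    conv_lhs => rw [eq_sum_single Z']
    rw [Finset.sum_eq_single (1 : G)]
    · intro x _ hx
      rw [hzero x hx, single_zero]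
    · intro h1
      exact absurd (mem_univ _) h1
  have haug' : Z'.coeff 1 = (p : ℤ) ^ e := by
    have h1 : aug Z' = (p : ℤ) ^ e := by
      rw [hZ', map_mul, aug_single, one_mul, ha]
    rw [hZ1, aug_single] at h1
    exact h1
  refine ⟨a⁻¹, ?_⟩
  have h1 : Z = single a⁻¹ 1 * Z' := by
    rw [hZ', ← mul_assoc, single_mul_single, inv_mul_cancel, one_mul, ← MonoidAlgebra.one_def, one_mul]
  have h2 : Z = single a⁻¹ ((p : ℤ) ^ e) := by
    conv_lhs => rw [h1, hZ1, haug']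
    rw [single_mul_single, mul_one, one_mul]
  rw [← zsmul_eq_mul]
  conv_lhs => rw [h2]
  simp

end Pool.Agent.Lib.MP_79499b_co.DZ
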