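import Pool.Agent.Lib.MP_79499b_co.DZ.Defs

/-!
# DZ A5: numbers

`selfconj_pow`: `w_i = c_i r_i + 1` different primes, `r_i` odd, `1 < r_i`, `c_1`, `c_2` have the same 2-adic
valuation, `p` a nonresidue modulo both. Then `w1 w2 ∣ p^j + 1` for some `j`.
Proof. `w_i > 2` is odd. `w_i - 1 = 2^a m_i` with `a = v_2(c_i) ≥ 1` and `m_i` odd (`m_i = c_i/2^a r_i`). Euler's
criterion (`ZMod.euler_criterion`, `ZMod.pow_div_two_eq_neg_one_or_one`): `p^((w_i-1)/2) = -1`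
modulo `w_i`, `(w_i - 1)/2 = 2^(a-1) m_i`. Put `j = 2^(a-1) m_1 m_2`: `p^j = (-1)^(m_2) = -1` modulo
`w_1`, `p^j = (-1)^(m_1) = -1` modulo `w_2`. So `w_i ∣ p^j + 1` and `w_1`, `w_2` are coprime.

`exists_t0`: `w_i = c_i r_i + 1` different primes, `1 < r_i`, `r_1`, `r_2`, `c_1 c_2` pairwise coprime as in
`Shape`. There is `t0` with `t0`, `t0 - 1` coprime to `w1 w2`, whose powers are, modulo `w1 w2`, all `t` with
`t^(r1 r2) ≡ 1`, and which is itself a power modulo `w1 w2` of each `p` with `NP w1 r1 p`, `NP w2 r2 p`.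
Proof. Let `g_i` be a generator of the cyclic group of units modulo `w_i` (order `c_i r_i`), `t0 ≡ g_i^(c_i)`
modulo `w_i` (`Nat.chineseRemainder`; take `t0 > 1`, e.g. add `w1 w2`). The order of `t0` modulo
`w_i` is `r_i > 1`, so `t0 ≢ 0, 1` modulo `w_i`.
(1) Let `t^(r1 r2) ≡ 1`. Modulo `w_i`, `t = g_i^a` with `c_i r_i ∣ a r1 r2`, so `c_i ∣ a r_(3-i)`, `c_i ∣ a`
(`r_(3-i)` is coprime to `c_i`), so `t ≡ t0^(j_i)` modulo `w_i`; choose `j ≡ j_i` modulo `r_i`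
(`i = 1, 2`, `r_1`, `r_2` coprime), then `t ≡ t0^j` modulo both.
(2) Let `p` satisfy `NP`. Some prime `l` divides `r_i`, so `p ≢ 0` modulo `w_i` (otherwise `0^l = p`). So
`p = g_i^(a_i)` modulo `w_i` and `a_i` is coprime to `r_i` (if a prime `l` divides both,
`p = (g_i^(a_i/l))^l`). Choose `y` with `a_1 c_2 y ≡ 1` modulo `r_1`, `a_2 c_1 y ≡ 1` modulo `r_2`
(possible: `a_i c_(3-i)` is coprime to `r_i`, and the Chinese remainder theorem). With `j = c_1 c_2 y`: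
`p^j = g_i^(a_i c_1 c_2 y)` and `a_i c_1 c_2 y ≡ c_i` modulo `c_i r_i`, so `p^j ≡ t0` modulo both.
-/

set_option autoImplicit false

namespace Pool.Agent.Lib.MP_79499b_co.DZ

private theorem A5_euler {w p c r a : ℕ} (hw : w.Prime) (e : w = c * r + 1) (o : Odd r) (one : 1 < r)
    (ha : c.factorization 2 = a) (h : NR w p) :
    1 ≤ a ∧ ∃ m : ℕ, Odd m ∧ w / 2 = 2 ^ (a - 1) * m ∧ (p : ZMod w) ^ (w / 2) = -1 := by
  haveI := Fact.mk hw
  have hc0 : c ≠ 0 := by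
    rintro rfl
    rw [zero_mul, zero_add] at e
    exact hw.one_lt.ne' e
  have hw2 : w ≠ 2 := by
    have h1 : 1 * 2 ≤ c * r := Nat.mul_le_mul (Nat.one_le_iff_ne_zero.mpr hc0) one
    omega
  have hodd : w % 2 = 1 := (hw.eq_two_or_odd).resolve_left hw2
  have hcev : Even c := by
    by_contra hcon
    have h1 : Odd (c * r) := (Nat.not_even_iff_odd.mp hcon).mul o
    obtain ⟨k, hk⟩ := h1
    omega
  have ha1 : 1 ≤ a := by
    rw [← ha]
    exact (Nat.prime_two.dvd_iff_one_le_factorization hc0).mp hcev.two_dvd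
  refine ⟨ha1, c / 2 ^ a * r, ?_, ?_, ?_⟩
  · refine Odd.mul ?_ o
    have h1 := Nat.not_dvd_ordCompl Nat.prime_two hc0
    rw [ha] at h1
    rw [← Nat.not_even_iff_odd]
    intro h2
    exact h1 h2.two_dvd
  · have h1 : 2 ^ a * (c / 2 ^ a) = c := by
      rw [← ha]
      exact Nat.ordProj_mul_ordCompl_eq_self c 2
    have h2 : 2 ^ a = 2 * 2 ^ (a - 1) := by
      rw [← pow_succ']
      congr 1
      omega
    have h3 : w = 2 * (2 ^ (a - 1) * (c / 2 ^ a * r)) + 1 := by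
      calc w = 2 ^ a * (c / 2 ^ a) * r + 1 := by rw [h1]; exact e
        _ = 2 * 2 ^ (a - 1) * (c / 2 ^ a) * r + 1 := by rw [← h2]
        _ = _ := by ring
    omega
  · have hp0 : (p : ZMod w) ≠ 0 := by
      intro h0
      apply h
      rw [h0]
      exact ⟨0, by simp⟩
    rcases ZMod.pow_div_two_eq_neg_one_or_one w hp0 with h1 | h1
    · exact absurd ((ZMod.euler_criterion w hp0).mpr h1) h
    · exact h1

theorem selfconj_pow {c1 c2 w1 w2 r1 r2 p : ℕ} (hw1 : w1.Prime) (hw2 : w2.Prime) (hne : w1 ≠ w2)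
    (e1 : w1 = c1 * r1 + 1) (e2 : w2 = c2 * r2 + 1) (o1 : Odd r1) (o2 : Odd r2)
    (one1 : 1 < r1) (one2 : 1 < r2) (hc : c1.factorization 2 = c2.factorization 2)
    (h1 : NR w1 p) (h2 : NR w2 p) : ∃ j : ℕ, w1 * w2 ∣ p ^ j + 1 := by
  obtain ⟨ha, m1, hm1, hd1, hp1⟩ := A5_euler hw1 e1 o1 one1 hc h1
  obtain ⟨_, m2, hm2, hd2, hp2⟩ := A5_euler hw2 e2 o2 one2 rfl h2
  refine ⟨2 ^ (c2.factorization 2 - 1) * m1 * m2, ?_⟩
  refine Nat.Coprime.mul_dvd_of_dvd_of_dvd ((Nat.coprime_primes hw1 hw2).mpr hne) ?_ ?_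
  · rw [← ZMod.natCast_eq_zero_iff]
    push_cast
    rw [← hd1, pow_mul, hp1, hm2.neg_one_pow, neg_add_cancel]
  · rw [← ZMod.natCast_eq_zero_iff]
    push_cast
    rw [mul_right_comm, ← hd2, pow_mul, hp2, hm1.neg_one_pow, neg_add_cancel]

private theorem A5_gen {w c r : ℕ} (hw : w.Prime) (e : w = c * r + 1) :
    ∃ g : (ZMod w)ˣ, orderOf g = c * r ∧ ∀ t : ZMod w, t ≠ 0 → ∃ k : ℕ, t = (g : ZMod w) ^ k := by
  haveI := Fact.mk hw
  obtain ⟨g, hg⟩ := IsCyclic.exists_generator (α := (ZMod w)ˣ)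
  refine ⟨g, ?_, ?_⟩
  · rw [orderOf_eq_card_of_forall_mem_zpowers hg, Nat.card_eq_fintype_card,
      ZMod.card_units_eq_totient, Nat.totient_prime hw]
    omega
  · intro t ht
    obtain ⟨k, hk⟩ := mem_powers_iff_mem_zpowers.mpr (hg (Units.mk0 t ht))
    refine ⟨k, ?_⟩
    have h1 := congrArg Units.val hk
    simp only [Units.val_pow_eq_pow_val, Units.val_mk0] at h1
    exact h1.symm

private theorem A5_pow {w : ℕ} (g : (ZMod w)ˣ) (a b : ℕ) :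
    (g : ZMod w) ^ a = (g : ZMod w) ^ b ↔ a ≡ b [MOD orderOf g] := by
  rw [← pow_eq_pow_iff_modEq, ← Units.val_pow_eq_pow_val, ← Units.val_pow_eq_pow_val, Units.val_inj]

private theorem A5_root {w c r R t : ℕ} (hw : w.Prime) (g : (ZMod w)ˣ) (ho : orderOf g = c * r)
    (hg : ∀ t : ZMod w, t ≠ 0 → ∃ k : ℕ, t = (g : ZMod w) ^ k) (hr : 1 < r) (hR : 1 < R)
    (hcop : R.Coprime c) (ht : (t : ZMod w) ^ (r * R) = 1) :
    ∃ b : ℕ, (t : ZMod w) = (g : ZMod w) ^ (c * b) := by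
  haveI := Fact.mk hw
  have ht0 : (t : ZMod w) ≠ 0 := by
    intro h0
    rw [h0, zero_pow (by positivity)] at ht
    exact zero_ne_one ht
  obtain ⟨k, hk⟩ := hg _ ht0
  have h1 : (g : ZMod w) ^ (k * (r * R)) = (g : ZMod w) ^ 0 := by
    rw [pow_mul, ← hk, ht, pow_zero]
  rw [A5_pow, ho, Nat.modEq_zero_iff_dvd] at h1
  have h2 : c * r ∣ (k * R) * r := by
    have : (k * R) * r = k * (r * R) := by ring
    rw [this]
    exact h1
  have h3 : c ∣ k * R := Nat.dvd_of_mul_dvd_mul_right (by omega) h2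
  obtain ⟨b, hb⟩ := hcop.symm.dvd_of_dvd_mul_right h3
  exact ⟨b, by rw [hk, hb]⟩

private theorem A5_np {w r p : ℕ} (g : (ZMod w)ˣ) (hr : 1 < r)
    (hg : ∀ t : ZMod w, t ≠ 0 → ∃ k : ℕ, t = (g : ZMod w) ^ k) (h : NP w r p) :
    ∃ a : ℕ, (p : ZMod w) = (g : ZMod w) ^ a ∧ a.Coprime r := by
  have hp0 : (p : ZMod w) ≠ 0 := by
    intro h0
    obtain ⟨l, hl, hlr⟩ := Nat.exists_prime_and_dvd hr.ne'
    exact h l hl hlr ⟨0, by rw [h0, zero_pow hl.ne_zero]⟩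
  obtain ⟨a, ha⟩ := hg _ hp0
  refine ⟨a, ha, ?_⟩
  rw [Nat.coprime_iff_gcd_eq_one]
  by_contra hcon
  obtain ⟨l, hl, hlg⟩ := Nat.exists_prime_and_dvd hcon
  have h1 : l ∣ a := hlg.trans (Nat.gcd_dvd_left _ _)
  have h2 : l ∣ r := hlg.trans (Nat.gcd_dvd_right _ _)
  obtain ⟨b, hb⟩ := h1
  exact h l hl h2 ⟨(g : ZMod w) ^ b, by rw [ha, hb, ← pow_mul, mul_comm b l]⟩

private theorem A5_ne {w c r t : ℕ} (hw : w.Prime) (e : w = c * r + 1) (g : (ZMod w)ˣ)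
    (ho : orderOf g = c * r) (hr : 1 < r) (ht : 1 < t) (h : (t : ZMod w) = (g : ZMod w) ^ c) :
    w.Coprime t ∧ w.Coprime (t - 1) := by
  haveI := Fact.mk hw
  have hc0 : c ≠ 0 := by
    rintro rfl
    rw [zero_mul, zero_add] at e
    exact hw.one_lt.ne' e
  constructor
  · rw [hw.coprime_iff_not_dvd, ← ZMod.natCast_eq_zero_iff, h]
    exact pow_ne_zero _ g.ne_zero
  · rw [hw.coprime_iff_not_dvd, ← ZMod.natCast_eq_zero_iff, Nat.cast_sub ht.le, h, Nat.cast_one,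
      sub_eq_zero]
    intro h1
    have h2 : (g : ZMod w) ^ c = (g : ZMod w) ^ 0 := by rw [h1, pow_zero]
    rw [A5_pow, ho, Nat.modEq_zero_iff_dvd] at h2
    have h3 := Nat.le_of_dvd (Nat.pos_of_ne_zero hc0) h2
    have h4 : c * 2 ≤ c * r := Nat.mul_le_mul_left c hr
    omega

theorem exists_t0 {c1 c2 w1 w2 r1 r2 : ℕ} (hw1 : w1.Prime) (hw2 : w2.Prime) (hne : w1 ≠ w2)
    (e1 : w1 = c1 * r1 + 1) (e2 : w2 = c2 * r2 + 1)
    (one1 : 1 < r1) (one2 : 1 < r2) (cop1 : r1.Coprime (c1 * c2)) (cop2 : r2.Coprime (c1 * c2))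
    (cop : r1.Coprime r2) :
    ∃ t0 : ℕ, 1 < t0 ∧ (w1 * w2).Coprime t0 ∧ (w1 * w2).Coprime (t0 - 1) ∧
      (∀ t : ℕ, t ^ (r1 * r2) ≡ 1 [MOD w1 * w2] → ∃ j : ℕ, t ≡ t0 ^ j [MOD w1 * w2]) ∧
      (∀ p : ℕ, NP w1 r1 p → NP w2 r2 p → ∃ j : ℕ, t0 ≡ p ^ j [MOD w1 * w2]) := by
  have hcop : w1.Coprime w2 := (Nat.coprime_primes hw1 hw2).mpr hne
  haveI := Fact.mk hw1
  haveI := Fact.mk hw2
  obtain ⟨g1, ho1, hg1⟩ := A5_gen hw1 e1
  obtain ⟨g2, ho2, hg2⟩ := A5_gen hw2 e2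
  obtain ⟨s, hs1, hs2⟩ := Nat.chineseRemainder hcop ((g1 : ZMod w1) ^ c1).val ((g2 : ZMod w2) ^ c2).val
  have hW : 4 ≤ w1 * w2 := Nat.mul_le_mul hw1.two_le hw2.two_le
  obtain ⟨t0, ht0⟩ : ∃ t0 : ℕ, t0 = s + w1 * w2 := ⟨_, rfl⟩
  have h1t : 1 < t0 := by omega
  have hz1 : (t0 : ZMod w1) = (g1 : ZMod w1) ^ c1 := by
    rw [ht0]
    push_cast
    rw [ZMod.natCast_self, zero_mul, add_zero, (ZMod.natCast_eq_natCast_iff _ _ _).mpr hs1,
      ZMod.natCast_val, ZMod.cast_id', id]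
  have hz2 : (t0 : ZMod w2) = (g2 : ZMod w2) ^ c2 := by
    rw [ht0]
    push_cast
    rw [ZMod.natCast_self, mul_zero, add_zero, (ZMod.natCast_eq_natCast_iff _ _ _).mpr hs2,
      ZMod.natCast_val, ZMod.cast_id', id]
  have hn1 := A5_ne hw1 e1 g1 ho1 one1 h1t hz1
  have hn2 := A5_ne hw2 e2 g2 ho2 one2 h1t hz2
  refine ⟨t0, h1t, Nat.Coprime.mul_left hn1.1 hn2.1, Nat.Coprime.mul_left hn1.2 hn2.2, ?_, ?_⟩
  · intro t ht
    have hm := (Nat.modEq_and_modEq_iff_modEq_mul hcop).mpr ht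
    have ht1 : (t : ZMod w1) ^ (r1 * r2) = 1 := by
      have := (ZMod.natCast_eq_natCast_iff _ _ _).mpr hm.1
      push_cast at this
      exact this
    have ht2 : (t : ZMod w2) ^ (r2 * r1) = 1 := by
      have := (ZMod.natCast_eq_natCast_iff _ _ _).mpr hm.2
      push_cast at this
      rw [mul_comm]
      exact this
    obtain ⟨b1, hb1⟩ := A5_root hw1 g1 ho1 hg1 one1 one2 (Nat.Coprime.coprime_mul_right_right cop2) ht1
    obtain ⟨b2, hb2⟩ := A5_root hw2 g2 ho2 hg2 one2 one1 (Nat.Coprime.coprime_mul_left_right cop1) ht2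
    obtain ⟨j, hj1, hj2⟩ := Nat.chineseRemainder cop b1 b2
    refine ⟨j, (Nat.modEq_and_modEq_iff_modEq_mul hcop).mp ⟨?_, ?_⟩⟩
    · rw [← ZMod.natCast_eq_natCast_iff]
      push_cast
      rw [hz1, hb1, ← pow_mul, A5_pow, ho1]
      exact (hj1.mul_left' c1).symm
    · rw [← ZMod.natCast_eq_natCast_iff]
      push_cast
      rw [hz2, hb2, ← pow_mul, A5_pow, ho2]
      exact (hj2.mul_left' c2).symm
  · intro p hp1 hp2
    obtain ⟨a1, ha1, hc1⟩ := A5_np g1 one1 hg1 hp1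
    obtain ⟨a2, ha2, hc2⟩ := A5_np g2 one2 hg2 hp2
    have k1 : (a1 * c2).Coprime r1 :=
      Nat.Coprime.mul_left hc1 (Nat.Coprime.coprime_mul_left_right cop1).symm
    have k2 : (a2 * c1).Coprime r2 :=
      Nat.Coprime.mul_left hc2 (Nat.Coprime.coprime_mul_right_right cop2).symm
    obtain ⟨y1, -, hy1⟩ := Nat.exists_mul_mod_eq_one_of_coprime k1 one1
    obtain ⟨y2, -, hy2⟩ := Nat.exists_mul_mod_eq_one_of_coprime k2 one2
    obtain ⟨y, hz, hz'⟩ := Nat.chineseRemainder cop y1 y2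
    have m1 : a1 * c2 * y ≡ 1 [MOD r1] := by
      refine (hz.mul_left (a1 * c2)).trans ?_
      rw [Nat.ModEq, hy1, Nat.mod_eq_of_lt one1]
    have m2 : a2 * c1 * y ≡ 1 [MOD r2] := by
      refine (hz'.mul_left (a2 * c1)).trans ?_
      rw [Nat.ModEq, hy2, Nat.mod_eq_of_lt one2]
    refine ⟨c1 * c2 * y, (Nat.modEq_and_modEq_iff_modEq_mul hcop).mp ⟨?_, ?_⟩⟩
    · rw [← ZMod.natCast_eq_natCast_iff]
      push_cast
      rw [hz1, ha1, ← pow_mul, A5_pow, ho1]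
      have h3 := (m1.mul_left' c1).symm
      rw [mul_one] at h3
      have h4 : a1 * (c1 * c2 * y) = c1 * (a1 * c2 * y) := by ring
      rw [h4]
      exact h3
    · rw [← ZMod.natCast_eq_natCast_iff]
      push_cast
      rw [hz2, ha2, ← pow_mul, A5_pow, ho2]
      have h3 := (m2.mul_left' c2).symm
      rw [mul_one] at h3
      have h4 : a2 * (c1 * c2 * y) = c2 * (a2 * c1 * y) := by ring
      rw [h4]
      exact h3

end Pool.Agent.Lib.MP_79499b_co.DZ
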