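import Pool.Agent.Lib.MP_79499b_co.DZ.A2
import Pool.Agent.Lib.MP_79499b_co.DZ.A3
import Pool.Agent.Lib.MP_79499b_co.DZ.A4
import Pool.Agent.Lib.MP_79499b_co.DZ.A5

/-!
# DZ A9: the multipliers fix a translate

`exists_split`: `n^(s-1) = b p0^e` with `p0^e ≤ B^(s-1) + 1` and all primes dividing `b` of type
(a) (`NR` twice) or (b) (`NP` twice). Proof: let `v = n.factorization p0`. If `p0^v ≤ B`, take
`b = (n / p0^v)^(s-1)` (`Nat.ordProj_mul_ordCompl_eq_self`), `e = v (s-1)`, `p0^e = (p0^v)^(s-1) ≤ B^(s-1)`; a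
prime `r ∣ b` divides `n / p0^v`, so `r ∣ n` and `r ≠ p0` (`Nat.not_dvd_ordCompl`), so the third case of
`Split` is impossible. Otherwise take `b = n^(s-1)`, `e = 0`; again the third case is impossible for `r ∣ n`.

`exists_inv`: for `|Q| = w1 w2`, `X X^{(-1)} = (n^(s-1))^2 + λ u` there is `a : Q` such that `X' = a X` has
`X'^{(t)} = X'` for all `t` with `t^(r1 r2) ≡ 1` modulo `w1 w2`. Here `p0^i < w_i` for all
`i ≤ (B^(s-1)+1)^4` (hypothesis `hbig`: `p0^((B^(s-1)+1)^4) < w_1, w_2`).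
Proof. `W = w1 w2 = |Q|`, so `x^W = 1` and `x^a` depends on `a` modulo `W` only. `w_i ∤ n`
(`w1 ∣ n^s + 1`, `w2 ∣ 1 + n (...)`), so `W` is coprime to `n` and to each divisor of `n^(s-1)`.
Take `t0` from `exists_t0` (A5), `b`, `e` from `exists_split`. For a prime `r ∣ b`: type (b): `t0 ≡ r^j`
modulo `W`, so `x^t0 = x^(r^j)`; type (a): `W ∣ r^j + 1` (`selfconj_pow`), so `x^(r^j) = x⁻¹`. `N = (n^(s-1))^2 =
b^2 g` with `g = (p0^e)^2 = p0^(2e)`. `dvd_twist_all` (A2) and `exists_Z` (A3) give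
`X^{(t0)} X^{(-1)} - λ u = b^2 Z`, `Z Z^{(-1)} = g^2`, `aug Z = g`. `z_trivial` (A4) with exponent `2e`:
`W` is coprime to `p0` and `p0 - 1` (`0 < p0 - 1 < p0 < w_i`, `w_i` prime); if `x ≠ 1` and `x^(p0^i) = x`
with `1 ≤ i ≤ (p0^(2e))^2 = (p0^e)^4 ≤ (B^(s-1)+1)^4`, then `x^(p0^i - 1) = 1`, `orderOf x` divides `W` and
`p0^i - 1`, which are coprime because `0 < p0^i - 1 < w_i`; so `x = 1`. Hence `Z = g h`,
`X^{(t0)} X^{(-1)} - λ u = N h`, `mult_of` (A3): `X^{(t0)} = h X`; `exists_fix` (A4) gives `a`.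
For `t` with `t^(r1 r2) ≡ 1`: `t ≡ t0^j` modulo `W`, so `X'^{(t)} = X'^{(t0^j)}` (`pw_congr`) `= X'` (`pw_pow_fix`).
-/

set_option autoImplicit false

namespace Pool.Agent.Lib.MP_79499b_co.DZ

open Finset MonoidAlgebra

theorem exists_split {p0 B w1 w2 r1 r2 n : ℕ} (s : ℕ) (hp0 : p0.Prime) (hn : n ≠ 0)
    (h : Split p0 B w1 w2 r1 r2 n) :
    ∃ b e : ℕ, n ^ (s - 1) = b * p0 ^ e ∧ p0 ^ e ≤ B ^ (s - 1) + 1 ∧
      ∀ r : ℕ, r.Prime → r ∣ b → (NR w1 r ∧ NR w2 r) ∨ (NP w1 r1 r ∧ NP w2 r2 r) := by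
  by_cases hB : p0 ^ n.factorization p0 ≤ B
  · refine ⟨(n / p0 ^ n.factorization p0) ^ (s - 1), n.factorization p0 * (s - 1), ?_, ?_, ?_⟩
    · rw [pow_mul, ← mul_pow, mul_comm, Nat.ordProj_mul_ordCompl_eq_self]
    · rw [pow_mul]
      exact (Nat.pow_le_pow_left hB _).trans (Nat.le_succ _)
    · intro r hr hrb
      have h1 : r ∣ n / p0 ^ n.factorization p0 := hr.dvd_of_dvd_pow hrb
      have h2 : r ∣ n := h1.trans (Nat.ordCompl_dvd n p0)
      rcases h r hr h2 with h3 | h3 | h3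
      · exact Or.inl h3
      · exact Or.inr h3
      · rw [h3.1] at h1
        exact absurd h1 (Nat.not_dvd_ordCompl hp0 hn)
  · refine ⟨n ^ (s - 1), 0, by rw [pow_zero, mul_one], ?_, ?_⟩
    · rw [pow_zero]
      exact Nat.le_add_left _ _
    · intro r hr hrb
      have h2 : r ∣ n := hr.dvd_of_dvd_pow hrb
      rcases h r hr h2 with h3 | h3 | h3
      · exact Or.inl h3
      · exact Or.inr h3
      · exact absurd h3.2 hB

private theorem A9_cop {w m : ℕ} (hw : w.Prime) (h0 : 0 < m) (h : m < w) : w.Coprime m := by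
  rw [hw.coprime_iff_not_dvd]
  intro h1
  exact absurd (Nat.le_of_dvd h0 h1) (not_le.mpr h)

private theorem A9_pow {Q : Type} [CommGroup Q] [Fintype Q] {W s t : ℕ} (hQ : Nat.card Q = W)
    (h : s ≡ t [MOD W]) (x : Q) : x ^ s = x ^ t := by
  rw [pow_eq_pow_iff_modEq]
  refine h.of_dvd ?_
  rw [← hQ]
  exact orderOf_dvd_natCard x

theorem exists_inv {s c1 c2 p0 B w1 w2 r1 r2 n : ℕ} (hs : 2 ≤ s) (hp0 : p0.Prime)
    (hc : c1.factorization 2 = c2.factorization 2)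
    (hbig1 : p0 ^ ((B ^ (s - 1) + 1) ^ 4) < w1) (hbig2 : p0 ^ ((B ^ (s - 1) + 1) ^ 4) < w2)
    (hS : Shape s c1 c2 w1 w2 r1 r2 n) (hP : Split p0 B w1 w2 r1 r2 n)
    {Q : Type} [CommGroup Q] [Fintype Q] (hQ : Nat.card Q = w1 * w2)
    (X : MonoidAlgebra ℤ Q) {lam : ℤ}
    (hX : X * iv X = (((((n : ℤ) ^ (s - 1)) ^ 2 : ℤ)) : MonoidAlgebra ℤ Q)
      + (lam : MonoidAlgebra ℤ Q) * el univ) :
    ∃ a : Q, ∀ t : ℕ, t ^ (r1 * r2) ≡ 1 [MOD w1 * w2] →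
      pw t (single a 1 * X) = single a 1 * X := by
  have hn : n ≠ 0 := by
    rintro rfl
    have h1 := hS.dvd1
    rw [zero_pow (by omega), zero_add] at h1
    exact hS.prime1.one_lt.ne' (Nat.dvd_one.mp h1)
  have hw1n : w1.Coprime n := by
    rw [hS.prime1.coprime_iff_not_dvd]
    intro h1
    have h2 : w1 ∣ n ^ s := dvd_pow h1 (by omega)
    have h3 : w1 ∣ 1 := (Nat.dvd_add_right h2).mp hS.dvd1
    exact hS.prime1.one_lt.ne' (Nat.dvd_one.mp h3)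
  have hw2n : w2.Coprime n := by
    rw [hS.prime2.coprime_iff_not_dvd]
    intro h1
    have h2 := hS.dvd2
    obtain ⟨m, rfl⟩ : ∃ m, s = m + 1 := ⟨s - 1, by omega⟩
    rw [Finset.sum_range_succ'] at h2
    have h3 : w2 ∣ ∑ i ∈ range m, n ^ (i + 1) :=
      Finset.dvd_sum fun i _ => dvd_pow h1 (by omega)
    have h4 : w2 ∣ 1 := by
      have := (Nat.dvd_add_right h3).mp h2
      rwa [pow_zero] at this
    exact hS.prime2.one_lt.ne' (Nat.dvd_one.mp h4)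
  have hWn : (w1 * w2).Coprime n := Nat.Coprime.mul_left hw1n hw2n
  obtain ⟨b, e, hbe, hle, hcl⟩ := exists_split s hp0 hn hP
  obtain ⟨t0, ht01, hc0, hc1, hall, hnp⟩ := exists_t0 hS.prime1 hS.prime2 hS.ne hS.eq1 hS.eq2
    hS.one1 hS.one2 hS.cop1 hS.cop2 hS.cop
  have hWb : (w1 * w2).Coprime b := by
    have h1 : (w1 * w2).Coprime (n ^ (s - 1)) := hWn.pow_right _
    rw [hbe] at h1
    exact Nat.Coprime.coprime_mul_right_right h1
  have hb0 : b ≠ 0 := by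
    rintro rfl
    rw [zero_mul] at hbe
    exact hn (pow_eq_zero_iff (by omega) |>.mp hbe)
  have hN : (((n : ℤ) ^ (s - 1)) ^ 2) = ((b ^ 2 : ℕ) : ℤ) * ((p0 : ℤ) ^ (2 * e)) := by
    have h1 : ((n : ℤ) ^ (s - 1)) = (b : ℤ) * (p0 : ℤ) ^ e := by exact_mod_cast hbe
    rw [h1]
    push_cast
    ring
  have hm : ∀ r : ℕ, r.Prime → r ∣ b →
      (∃ i : ℕ, ∀ x : Q, x ^ t0 = x ^ r ^ i) ∨ (∃ j : ℕ, ∀ x : Q, x ^ r ^ j = x⁻¹) := by
    intro r hr hrb
    rcases hcl r hr hrb with h1 | h1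
    · right
      obtain ⟨j, hj⟩ := selfconj_pow hS.prime1 hS.prime2 hS.ne hS.eq1 hS.eq2 hS.odd1 hS.odd2
        hS.one1 hS.one2 hc h1.1 h1.2
      refine ⟨j, fun x => ?_⟩
      rw [eq_inv_iff_mul_eq_one, ← pow_succ]
      have h2 : r ^ j + 1 ≡ 0 [MOD w1 * w2] := (Nat.modEq_zero_iff_dvd).mpr hj
      rw [A9_pow hQ h2 x, pow_zero]
    · left
      obtain ⟨j, hj⟩ := hnp r h1.1 h1.2
      exact ⟨j, fun x => A9_pow hQ hj x⟩
  have hct : (Nat.card Q).Coprime t0 := by rw [hQ]; exact hc0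
  have hdvd := dvd_twist_all X hX (b := b) (by rw [hN]; exact dvd_mul_right _ _)
    (by rw [hQ]; exact hWb) hct hm
  have hb2 : ((b ^ 2 : ℕ) : ℤ) ≠ 0 := by
    have : b ^ 2 ≠ 0 := pow_ne_zero 2 hb0
    exact_mod_cast this
  obtain ⟨Z, hZ1, hZ2, hZ3⟩ := exists_Z X hX hb2 hN hct hdvd
  -- the tiny prime
  have hp2 : 2 ≤ p0 := hp0.two_le
  have hexp : 1 ≤ (B ^ (s - 1) + 1) ^ 4 := Nat.one_le_pow _ _ (Nat.succ_pos _)
  have hpw : p0 ≤ p0 ^ ((B ^ (s - 1) + 1) ^ 4) := Nat.le_self_pow (by omega) p0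
  have hcp : (Nat.card Q).Coprime p0 := by
    rw [hQ]
    exact Nat.Coprime.mul_left (A9_cop hS.prime1 hp0.pos (by omega)) (A9_cop hS.prime2 hp0.pos (by omega))
  have hcp' : (Nat.card Q).Coprime (p0 - 1) := by
    rw [hQ]
    exact Nat.Coprime.mul_left (A9_cop hS.prime1 (by omega) (by omega))
      (A9_cop hS.prime2 (by omega) (by omega))
  obtain ⟨h, hh⟩ := z_trivial Z hp0 hcp hcp' (e := 2 * e) hZ2 hZ3 (by
    intro x hx i hi1 hi2 heq
    apply hx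
    have hile : i ≤ (B ^ (s - 1) + 1) ^ 4 := by
      refine hi2.trans ?_
      have h1 : (p0 ^ (2 * e)) ^ 2 = (p0 ^ e) ^ 4 := by ring
      rw [h1]
      exact Nat.pow_le_pow_left hle 4
    have hpi : p0 ^ i ≤ p0 ^ ((B ^ (s - 1) + 1) ^ 4) := Nat.pow_le_pow_right hp0.pos hile
    have hpi2 : 2 ≤ p0 ^ i := by
      calc 2 ≤ p0 := hp2
        _ ≤ p0 ^ i := Nat.le_self_pow (by omega) p0
    have h1 : x ^ (p0 ^ i - 1) = 1 := by
      have h2 : x ^ (p0 ^ i - 1) * x = 1 * x := by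
        rw [← pow_succ, Nat.sub_add_cancel (by omega), one_mul]
        exact heq
      exact mul_right_cancel h2
    have h2 : orderOf x ∣ p0 ^ i - 1 := orderOf_dvd_of_pow_eq_one h1
    have h3 : orderOf x ∣ w1 * w2 := by
      rw [← hQ]
      exact orderOf_dvd_natCard x
    have h4 : (w1 * w2).Coprime (p0 ^ i - 1) :=
      Nat.Coprime.mul_left (A9_cop hS.prime1 (by omega) (by omega))
        (A9_cop hS.prime2 (by omega) (by omega))
    have h5 : orderOf x = 1 := Nat.eq_one_of_dvd_coprimes h4 h3 h2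
    exact orderOf_eq_one_iff.mp h5)
  have hSN : pw t0 X * iv X - (lam : MonoidAlgebra ℤ Q) * el univ =
      (((((n : ℤ) ^ (s - 1)) ^ 2 : ℤ)) : MonoidAlgebra ℤ Q) * single h 1 := by
    rw [hZ1, hh, ← mul_assoc, ← Int.cast_mul, ← hN]
  have hN0 : (((n : ℤ) ^ (s - 1)) ^ 2) ≠ 0 := by
    have : (n : ℤ) ≠ 0 := by exact_mod_cast hn
    positivity
  have hmult := mult_of X hX hN0 hSN
  obtain ⟨a, ha⟩ := exists_fix X (by omega) (by rw [hQ]; exact hc1) hmult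
  refine ⟨a, fun t ht => ?_⟩
  obtain ⟨j, hj⟩ := hall t ht
  rw [pw_congr (fun x => A9_pow hQ hj x)]
  exact pw_pow_fix ha j

end Pool.Agent.Lib.MP_79499b_co.DZ
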