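import Pool.Agent.Lib.MP_79499b_co.DZ.A6
import Pool.Agent.Lib.MP_79499b_co.DZ.A7
import Pool.Agent.Lib.MP_79499b_co.DZ.A8
import Pool.Agent.Lib.MP_79499b_co.DZ.A9

/-!
# DZ A10: exclusion of abelian difference sets

Claim (`excl`): for `s ≥ 2`, `c1`, `c2` with the same 2-adic valuation, `p0` prime, `B`, there is `W0` such that
`Shape`, `Split`, `ND` and `w_i ≥ W0` exclude abelian difference sets with Singer parameters `(n, 2 s)`.
Proof. `W0 = p0^((B^(s-1)+1)^4) + 1`. `n ≥ 2`: `w1 > 2` (`w1 = c1 r1 + 1`, `r1 > 1`, `w1` prime, so `c1 ≥ 1`,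
`w1 ≥ 3`) divides `n^s + 1`, so `n ≠ 0, 1`. `exists_quot` (A6) gives `Q`, `X`, `lam`; `exists_inv` (A9) gives `a`;
`X' = single a 1 * X` has `X' X'^{(-1)} = X X^{(-1)}`, `aug X' = aug X`. `ev_eq` (A7) with `W = w1 w2`,
`r = r1 r2`, `e0 = s - 1` gives `χ(X') = ± n^(s-1)` for all nontrivial `χ`; `sign_contra` (A8) with `N0 = n^(s-1)`:
`w_i ∤ 2 n^(s-1)` since `w_i` is odd and `w_i ∤ n` (`w1 ∣ n^s + 1`; `w2 ∣ ∑ i ∈ range s, n^i = 1 + n (...)`).
-/

set_option autoImplicit false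

namespace Pool.Agent.Lib.MP_79499b_co.DZ

open Finset MonoidAlgebra

theorem excl (s c1 c2 p0 B : ℕ) (hs : 2 ≤ s) (hp0 : p0.Prime)
    (hc : c1.factorization 2 = c2.factorization 2) :
    ∃ W0 : ℕ, ∀ w1 w2 r1 r2 n : ℕ, W0 ≤ w1 → W0 ≤ w2 →
      Shape s c1 c2 w1 w2 r1 r2 n → Split p0 B w1 w2 r1 r2 n →
      ND (CyclotomicField (w1 * w2) ℚ) (s - 1) (r1 * r2) n → ¬ EO.AbOrder n (2 * s) := by
  refine ⟨p0 ^ ((B ^ (s - 1) + 1) ^ 4) + 1, ?_⟩
  intro w1 w2 r1 r2 n hW1 hW2 hSh hSp hND hAb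
  have hw1 := hSh.prime1
  have hw2 := hSh.prime2
  have hp1 : 1 < p0 ^ ((B ^ (s - 1) + 1) ^ 4) := by
    apply Nat.one_lt_pow _ hp0.one_lt
    positivity
  have h21 : 2 < w1 := by omega
  have h22 : 2 < w2 := by omega
  have hn2 : 2 ≤ n := by
    have hd := hSh.dvd1
    by_contra hcon
    have : n = 0 ∨ n = 1 := by omega
    rcases this with rfl | rfl
    · rw [zero_pow (by omega), zero_add] at hd
      have := Nat.le_of_dvd one_pos hd
      omega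
    · rw [one_pow] at hd
      have := Nat.le_of_dvd two_pos hd
      omega
  have hn1 : ¬ w1 ∣ n := by
    intro h
    have h1 : w1 ∣ n ^ s := dvd_pow h (by omega)
    have h2 : w1 ∣ 1 := (Nat.dvd_add_right h1).mp hSh.dvd1
    exact hw1.one_lt.ne' (Nat.dvd_one.mp h2)
  have hn2' : ¬ w2 ∣ n := by
    intro h
    obtain ⟨r, rfl⟩ : ∃ r, s = r + 1 := ⟨s - 1, by omega⟩
    have h3 := hSh.dvd2
    rw [Finset.sum_range_succ', pow_zero] at h3
    have h1 : w2 ∣ ∑ i ∈ range r, n ^ (i + 1) :=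
      Finset.dvd_sum fun i _ => dvd_pow h (by omega)
    have h2 : w2 ∣ 1 := (Nat.dvd_add_right h1).mp h3
    exact hw2.one_lt.ne' (Nat.dvd_one.mp h2)
  have hkey : ∀ w : ℕ, w.Prime → 2 < w → ¬ w ∣ n → ¬ (w : ℤ) ∣ 2 * (n : ℤ) ^ (s - 1) := by
    intro w hw h2 hn h
    rcases (Nat.prime_iff_prime_int.mp hw).dvd_or_dvd h with h | h
    · have h3 : w ∣ 2 := by exact_mod_cast h
      have := Nat.le_of_dvd two_pos h3
      omega
    · have h3 : (w : ℤ) ∣ (n : ℤ) := (Nat.prime_iff_prime_int.mp hw).dvd_of_dvd_pow h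
      exact hn (by exact_mod_cast h3)
  obtain ⟨Q, _, _, X, lam, hQ, hX, hk1, hk2⟩ :=
    exists_quot hn2 hs hw1 hw2 hSh.ne hSh.dvd1 hSh.dvd2 hAb
  obtain ⟨a, ha⟩ := exists_inv hs hp0 hc (by omega) (by omega) hSh hSp hQ X hX
  set X' : MonoidAlgebra ℤ Q := single a 1 * X with hX'def
  have haug : aug X' = aug X := by
    rw [hX'def, map_mul, aug_single, one_mul]
  have hX' : X' * iv X' = (((((n : ℤ) ^ (s - 1)) ^ 2 : ℤ)) : MonoidAlgebra ℤ Q)
      + (lam : MonoidAlgebra ℤ Q) * el univ := by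
    rw [← hX, hX'def, map_mul, iv_single]
    have h1 : (single a (1 : ℤ) : MonoidAlgebra ℤ Q) * single a⁻¹ 1 = 1 := by
      rw [MonoidAlgebra.single_mul_single, mul_inv_cancel, mul_one]
      rfl
    calc single a 1 * X * (single a⁻¹ 1 * iv X)
        = (single a (1 : ℤ) * single a⁻¹ 1) * (X * iv X) := by ring
      _ = X * iv X := by rw [h1, one_mul]
  have hWpos : 0 < w1 * w2 := Nat.mul_pos hw1.pos hw2.pos
  refine sign_contra X' (N0 := (n : ℤ) ^ (s - 1)) hw1 hw2 (by rw [hQ]; exact dvd_mul_right _ _)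
    (by rw [hQ]; exact dvd_mul_left _ _) (fun ψ hψ => ?_) (by rw [haug]; exact hk1)
    (by rw [haug]; exact hk2) (hkey w1 hw1 h21 hn1) (hkey w2 hw2 h22 hn2')
  exact ev_eq hWpos hQ X' hX' ha hND ψ hψ

end Pool.Agent.Lib.MP_79499b_co.DZ
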