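import Pool.Agent.Lib.MP_79499b_co.DZ.A1

/-!
# DZ A2: all primes together

Claim (`dvd_twist_all`): `X X^{(-1)} = N + λ u`, `b^2 ∣ N`, `b`, `t` coprime to `|G|`, and for every prime
`r ∣ b` the power map `x ↦ x^t` is `x ↦ x^(r^i)` for some `i`, or `x^(r^j) = x⁻¹` for some `j`. Then
`b^2 ∣ X^{(t)} X^{(-1)} - λ u`.

Proof (as `dvd_twist_comp` in General.lean). Coefficientwise (`intCast_dvd_iff`), then prime power by prime
power: `Int.natCast_dvd`, `Nat.dvd_iff_prime_pow_dvd_dvd`. Let `r^k ∣ b^2`, `r` prime, `k > 0`; then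
`r ∣ b`. In the first case `dvd_twist_gen` with `e = k` (`r^k ∣ b^2 ∣ N`) and `pw_congr`. In the second
case put `e = (k + 1) / 2`: `r^e ∣ b` (compare valuations: `2 v_r(b) = v_r(b^2) ≥ k`, e.g. by
`Nat.factorization`; or `Nat.pow_dvd_pow_iff`-style: `r^k ∣ b^2` implies `r^((k+1)/2) ∣ b`), so
`r^(2e) ∣ b^2 ∣ N`; `dvd_selfconj` (A1) gives divisibility by `r^(2e)`, which `r^k` divides.
-/

set_option autoImplicit false

namespace Pool.Agent.Lib.MP_79499b_co.DZ

open Finset MonoidAlgebra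

variable {G : Type} [CommGroup G] [Fintype G]

theorem dvd_twist_all (X : MonoidAlgebra ℤ G) {N lam : ℤ}
    (hD : X * iv X = (N : MonoidAlgebra ℤ G) + (lam : MonoidAlgebra ℤ G) * el univ)
    {b : ℕ} (hb : ((b ^ 2 : ℕ) : ℤ) ∣ N) (hG : (Nat.card G).Coprime b)
    {t : ℕ} (ht : (Nat.card G).Coprime t)
    (hm : ∀ r : ℕ, r.Prime → r ∣ b →
      (∃ i : ℕ, ∀ x : G, x ^ t = x ^ r ^ i) ∨ (∃ j : ℕ, ∀ x : G, x ^ r ^ j = x⁻¹)) :
    (((b ^ 2 : ℕ) : ℤ) : MonoidAlgebra ℤ G) ∣
      pw t X * iv X - (lam : MonoidAlgebra ℤ G) * el univ := by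
  rw [intCast_dvd_iff]
  intro g
  rw [Int.natCast_dvd, Nat.dvd_iff_prime_pow_dvd_dvd]
  intro r k hr hrk
  rcases Nat.eq_zero_or_pos k with hk | hk
  · subst hk; simp
  · have hrb : r ∣ b := hr.dvd_of_dvd_pow ((dvd_pow_self r hk.ne').trans hrk)
    have hGr : (Nat.card G).Coprime r := hG.coprime_dvd_right hrb
    rcases hm r hr hrb with ⟨i, hi⟩ | ⟨j, hj⟩
    · have h1 := dvd_twist_gen X hD hr hGr (e := k)
        (by
          have : ((r ^ k : ℕ) : ℤ) ∣ N := (Int.natCast_dvd_natCast.mpr hrk).trans hb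
          simpa using this) i
      rw [← pw_congr hi, intCast_dvd_iff] at h1
      have h2 := h1 g
      rw [← Int.natCast_dvd]
      simpa using h2
    · rcases Nat.eq_zero_or_pos b with hb0 | hb0
      · -- `b = 0` forces `|G| = 1`
        subst hb0
        have hG1 : Nat.card G = 1 := by simpa using hG
        have hN0 : N = 0 := by simpa using hb
        have : Subsingleton G := (Nat.card_eq_one_iff_unique.mp hG1).1
        have hpw : pw t X = X := pw_eq_self (fun x => Subsingleton.elim _ _) X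
        rw [hpw, hD, hN0]
        simp
      · have hrb2 : r ^ ((k + 1) / 2) ∣ b := by
          rw [hr.pow_dvd_iff_le_factorization hb0.ne']
          have h1 := (hr.pow_dvd_iff_le_factorization (pow_ne_zero 2 hb0.ne')).mp hrk
          rw [Nat.factorization_pow] at h1
          simp only [Finsupp.smul_apply, smul_eq_mul] at h1
          omega
        have he : (r : ℤ) ^ (2 * ((k + 1) / 2)) ∣ N := by
          have h1 : r ^ (2 * ((k + 1) / 2)) ∣ b ^ 2 := by
            rw [mul_comm, pow_mul]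
            exact pow_dvd_pow_of_dvd hrb2 2
          have : ((r ^ (2 * ((k + 1) / 2)) : ℕ) : ℤ) ∣ N :=
            (Int.natCast_dvd_natCast.mpr h1).trans hb
          simpa using this
        have h1 := dvd_selfconj X hD hr hGr hj he ht
        rw [intCast_dvd_iff] at h1
        have h2 := h1 g
        rw [← Int.natCast_dvd]
        have h3 : ((r ^ k : ℕ) : ℤ) ∣ (r : ℤ) ^ (2 * ((k + 1) / 2)) := by
          push_cast
          exact pow_dvd_pow _ (by omega)
        exact h3.trans h2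

end Pool.Agent.Lib.MP_79499b_co.DZ
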