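import Pool.Agent.Lib.MP_79499b_co.General
import Pool.Agent.Lib.MP_79499b_co.DZ.Defs

/-!
# DZ A6: the image of the difference set in a quotient of order `w1 w2`

Claim (`exists_quot`). Let `G`, `D` be as in `EO.AbOrder n (2 s)`, `2 ≤ n`, `2 ≤ s`, `w1 ≠ w2` primes,
`w1 ∣ n^s + 1`, `w2 ∣ A := ∑ i ∈ range s, n^i`.
Sizes: `v = |G|`, `v (n - 1) = n^(2s) - 1 = (n^s + 1) (n^s - 1) = (n^s + 1) A (n - 1)` (`Nat.geomSum_eq`,
`geom_sum_mul`), so `v = (n^s + 1) A` and `w1 w2 ∣ v`. Likewise `k = |D| = ∑ i ∈ range (2s-1), n^i`,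
`v = k + n^(2s-1)`, and the number of representations of each `g ≠ 1` is the same number
`lam0 = ∑ i ∈ range (2s-2), n^i`, `k = lam0 + n^(2s-2)`.
`exists_subgroup_card_eq` (TwoPrime.lean) gives a subgroup `H` of order `v / (w1 w2)`; `Q = G ⧸ H` has order
`w1 w2` (`Subgroup.card_eq_card_quotient_mul_card_subgroup`). `X = im (QuotientGroup.mk' H) D`.
`im_mul_iv` (General.lean) gives `X X^{(-1)} = (k - lam0) + lam0 |ker| u`, `k - lam0 = n^(2s-2) =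
(n^(s-1))^2`. `aug X = k` (`aug_im`).
Modulo `w_i`: `w_i ∣ v`, so `k ≡ -n^(2s-1) = -n^s n^(s-1)`. `n^s ≡ -1` modulo `w1`, so
`k ≡ n^(s-1)` modulo `w1`. `n^s ≡ 1` modulo `w2` (`w2 ∣ A (n-1) = n^s - 1`), so `k ≡ -n^(s-1)`
modulo `w2`.
(`Q : Type` needs a `Fintype` instance: `Fintype.ofFinite`; there is a similar proof in Quot37.lean.)
-/

set_option autoImplicit false

namespace Pool.Agent.Lib.MP_79499b_co.DZ

open Finset MonoidAlgebra

theorem exists_quot {n s w1 w2 : ℕ} (hn : 2 ≤ n) (hs : 2 ≤ s) (hw1 : w1.Prime) (hw2 : w2.Prime)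
    (hne : w1 ≠ w2) (d1 : w1 ∣ n ^ s + 1) (d2 : w2 ∣ ∑ i ∈ range s, n ^ i)
    (h : EO.AbOrder n (2 * s)) :
    ∃ (Q : Type) (_ : CommGroup Q) (_ : Fintype Q) (X : MonoidAlgebra ℤ Q) (lam : ℤ),
      Nat.card Q = w1 * w2 ∧
      X * iv X = (((((n : ℤ) ^ (s - 1)) ^ 2 : ℤ)) : MonoidAlgebra ℤ Q)
        + (lam : MonoidAlgebra ℤ Q) * el univ ∧
      (w1 : ℤ) ∣ aug X - (n : ℤ) ^ (s - 1) ∧ (w2 : ℤ) ∣ aug X + (n : ℤ) ^ (s - 1) := by
  obtain ⟨G, _, _, _, D, hG, hD, hlam⟩ := h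
  obtain ⟨q, rfl⟩ : ∃ q, n = q + 1 := ⟨n - 1, by omega⟩
  obtain ⟨r, rfl⟩ : ∃ r, s = r + 1 := ⟨s - 1, by omega⟩
  have hq : 0 < q := by omega
  rw [Nat.add_sub_cancel] at hG hD
  have gs : ∀ a, (∑ i ∈ range a, (q + 1) ^ i) * q + 1 = (q + 1) ^ a := fun a =>
    geom_sum_mul_add q a
  set S : ℕ → ℕ := fun a => ∑ i ∈ range a, (q + 1) ^ i with hS
  have gs' : ∀ a, S a * q + 1 = (q + 1) ^ a := gs
  have hG' : Fintype.card G = S (2 * (r + 1)) := by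
    have h1 := gs' (2 * (r + 1))
    exact Nat.eq_of_mul_eq_mul_right hq (by omega)
  have hD' : D.card = S (2 * r + 1) := by
    have h1 := gs' (2 * r + 1)
    have h2 : 2 * (r + 1) - 1 = 2 * r + 1 := by omega
    rw [h2] at hD
    exact Nat.eq_of_mul_eq_mul_right hq (by omega)
  have hlam' : ∀ g : G, g ≠ 1 →
      ((D ×ˢ D).filter (fun p : G × G => p.1 * p.2⁻¹ = g)).card = S (2 * r) := by
    intro g hg
    have h1 := gs' (2 * r)
    have h2 : 2 * (r + 1) - 2 = 2 * r := by omega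
    have h3 := hlam g hg
    rw [h2, Nat.add_sub_cancel] at h3
    exact Nat.eq_of_mul_eq_mul_right hq (by omega)
  have hfac : S (2 * (r + 1)) = ((q + 1) ^ (r + 1) + 1) * S (r + 1) := by
    have h1 := gs' (2 * (r + 1))
    have h2 := gs' (r + 1)
    have h3 : (q + 1) ^ (2 * (r + 1)) = (q + 1) ^ (r + 1) * (q + 1) ^ (r + 1) := by
      rw [two_mul, pow_add]
    apply Nat.eq_of_mul_eq_mul_right hq
    have h4 : S (2 * (r + 1)) * q + 1 = (S (r + 1) * q + 1) * (S (r + 1) * q + 1) := by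
      rw [h1, h3, ← h2]
    have h5 : ((q + 1) ^ (r + 1) + 1) * S (r + 1) * q = (S (r + 1) * q + 2) * (S (r + 1) * q) := by
      rw [← h2]; ring
    rw [h5]
    have h6 : (S (r + 1) * q + 1) * (S (r + 1) * q + 1)
        = (S (r + 1) * q + 2) * (S (r + 1) * q) + 1 := by ring
    omega
  have hdvd : w1 * w2 ∣ Nat.card G := by
    rw [Nat.card_eq_fintype_card, hG', hfac]
    exact mul_dvd_mul d1 d2
  have hWpos : 0 < w1 * w2 := Nat.mul_pos hw1.pos hw2.pos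
  obtain ⟨e, he⟩ := hdvd
  obtain ⟨H, hH⟩ := exists_subgroup_card_eq e G ⟨w1 * w2, by rw [he, mul_comm]⟩
  have hepos : 0 < e := by
    rw [← hH]; exact Nat.card_pos
  have hQ : Nat.card (G ⧸ H) = w1 * w2 := by
    have h1 := Subgroup.card_eq_card_quotient_mul_card_subgroup H
    rw [hH, he] at h1
    exact (Nat.eq_of_mul_eq_mul_right hepos h1).symm
  have inst : Fintype (G ⧸ H) := Fintype.ofFinite _
  have hsurj : Function.Surjective (QuotientGroup.mk' H) := QuotientGroup.mk'_surjective H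
  have hmul := im_mul_iv (QuotientGroup.mk' H) hsurj D (lam := (S (2 * r) : ℤ)) (by
    intro g hg
    exact_mod_cast hlam' g hg)
  have haug := aug_im (QuotientGroup.mk' H) D
  have hS1 : S (2 * r + 1) = S (2 * r) + (q + 1) ^ (2 * r) := Finset.sum_range_succ _ _
  have hS2 : S (2 * (r + 1)) = S (2 * r + 1) + (q + 1) ^ (2 * r + 1) := Finset.sum_range_succ _ _
  have hv1 : (w1 : ℤ) ∣ (S (2 * (r + 1)) : ℤ) := by
    rw [hfac]
    exact_mod_cast Dvd.dvd.mul_right d1 _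
  have hv2 : (w2 : ℤ) ∣ (S (2 * (r + 1)) : ℤ) := by
    rw [hfac]
    exact_mod_cast Dvd.dvd.mul_left d2 _
  have hk : (D.card : ℤ) = (S (2 * (r + 1)) : ℤ) - ((q : ℤ) + 1) ^ (2 * r + 1) := by
    rw [hD', hS2]; push_cast; ring
  have hpow : ((q : ℤ) + 1) ^ (2 * r + 1) = ((q : ℤ) + 1) ^ r * ((q : ℤ) + 1) ^ (r + 1) := by
    rw [← pow_add]; congr 1; omega
  refine ⟨G ⧸ H, inferInstance, inst, im (QuotientGroup.mk' H) D,
    (S (2 * r) : ℤ) * (Nat.card (QuotientGroup.mk' H).ker : ℤ), hQ, ?_, ?_, ?_⟩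
  · rw [hmul]
    congr 2
    rw [hD', hS1, Nat.add_sub_cancel]
    push_cast
    ring
  · rw [haug, hk, hpow, Nat.add_sub_cancel]
    push_cast
    have h1 : (w1 : ℤ) ∣ ((q : ℤ) + 1) ^ (r + 1) + 1 := by exact_mod_cast d1
    have h2 : (S (2 * (r + 1)) : ℤ) - ((q : ℤ) + 1) ^ r * ((q : ℤ) + 1) ^ (r + 1)
        - ((q : ℤ) + 1) ^ r
        = (S (2 * (r + 1)) : ℤ) - ((q : ℤ) + 1) ^ r * (((q : ℤ) + 1) ^ (r + 1) + 1) := by ring
    rw [h2]
    exact dvd_sub hv1 (Dvd.dvd.mul_left h1 _)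
  · rw [haug, hk, hpow, Nat.add_sub_cancel]
    push_cast
    have h1 : (w2 : ℤ) ∣ ((q : ℤ) + 1) ^ (r + 1) - 1 := by
      have h3 := gs' (r + 1)
      have h4 : ((q : ℤ) + 1) ^ (r + 1) - 1 = (S (r + 1) : ℤ) * q := by
        have : ((S (r + 1) : ℤ)) * q + 1 = ((q : ℤ) + 1) ^ (r + 1) := by exact_mod_cast h3
        linarith
      rw [h4]
      exact Dvd.dvd.mul_right (by exact_mod_cast d2) _
    have h2 : (S (2 * (r + 1)) : ℤ) - ((q : ℤ) + 1) ^ r * ((q : ℤ) + 1) ^ (r + 1)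
        + ((q : ℤ) + 1) ^ r
        = (S (2 * (r + 1)) : ℤ) - ((q : ℤ) + 1) ^ r * (((q : ℤ) + 1) ^ (r + 1) - 1) := by ring
    rw [h2]
    exact dvd_sub hv2 (Dvd.dvd.mul_left h1 _)

end Pool.Agent.Lib.MP_79499b_co.DZ
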