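import Mathlib

/-!
# Bonferroni inequalities (module CBonf)

PROOF. Interchange sums: both sides are sums over `n ∈ A` with weight `a n ≥ 0`, so it is enough to
treat one `n`. Let `k = #{i ∈ P : E i n}`. The subsets `T ⊆ P` with `E i n` for all `i ∈ T` are the
subsets of this set, so the claim is
`|[k = 0] - ∑_{j ≤ R} (-1)^j choose k j| ≤ choose k (R+1)`.
For `k = 0` the left side is `0`. For `k ≥ 1` one has
`∑_{j ≤ R} (-1)^j choose k j = (-1)^R choose (k-1) R` (`Int.alternating_sum_range_choose_of_ne`-type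
identity, easy induction on `R` with Pascal) and `choose (k-1) R ≤ choose k (R+1)`.
-/

set_option autoImplicit false

open Finset
open scoped Classical

namespace Pool.Agent.Lib.MP_79499b_co.DZ

private theorem cbonf_num (k R : ℕ) :
    |(if k = 0 then (1 : ℝ) else 0) - ∑ j ∈ range (R + 1), (-1 : ℝ) ^ j * (k.choose j : ℝ)| ≤
      (k.choose (R + 1) : ℝ) := by
  rcases k with _ | m
  · have h : ∑ j ∈ range (R + 1), (-1 : ℝ) ^ j * ((0 : ℕ).choose j : ℝ) = 1 := by
      rw [Finset.sum_range_succ']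
      simp
    rw [h]
    simp
  · have h := @Int.alternating_sum_range_choose_eq_choose m R
    have h2 : ∑ j ∈ range (R + 1), (-1 : ℝ) ^ j * ((m + 1).choose j : ℝ)
        = (-1 : ℝ) ^ R * (m.choose R : ℝ) := by
      exact_mod_cast h
    rw [h2]
    have h3 : m.choose R ≤ (m + 1).choose (R + 1) := by
      rw [Nat.choose_succ_succ]
      omega
    have h4 : (m.choose R : ℝ) ≤ ((m + 1).choose (R + 1) : ℝ) := by exact_mod_cast h3
    simpa [abs_mul, abs_pow] using h4

private theorem cbonf_sum {ι : Type*} (K : Finset ι) (R : ℕ) :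
    ∑ T ∈ K.powerset.filter (fun T => T.card ≤ R), (-1 : ℝ) ^ T.card =
      ∑ j ∈ range (R + 1), (-1 : ℝ) ^ j * (K.card.choose j : ℝ) := by
  have h : K.powerset.filter (fun T => T.card ≤ R) =
      (range (R + 1)).biUnion (fun j => K.powersetCard j) := by
    ext T
    simp only [mem_filter, mem_powerset, mem_biUnion, mem_range, mem_powersetCard]
    constructor
    · rintro ⟨h1, h2⟩
      exact ⟨T.card, by omega, h1, rfl⟩
    · rintro ⟨j, hj, h1, h2⟩
      exact ⟨h1, by omega⟩
  rw [h, sum_biUnion]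
  · refine sum_congr rfl (fun j _ => ?_)
    rw [sum_congr rfl (g := fun _ => (-1 : ℝ) ^ j)
      (fun T hT => by rw [(mem_powersetCard.1 hT).2])]
    rw [sum_const, card_powersetCard, nsmul_eq_mul, mul_comm]
  · intro i _ j _ hij
    rw [Function.onFun, disjoint_left]
    intro T hT hT'
    exact hij ((mem_powersetCard.1 hT).2.symm.trans (mem_powersetCard.1 hT').2)

/-- Bonferroni: the truncated inclusion-exclusion sum differs from the exact value by at most the
next term. -/
theorem bonf {α ι : Type*} (A : Finset α) (a : α → ℝ) (ha : ∀ n ∈ A, 0 ≤ a n)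
    (P : Finset ι) (E : ι → α → Prop) (R : ℕ) :
    |∑ n ∈ A.filter (fun n => ∀ i ∈ P, ¬ E i n), a n -
      ∑ T ∈ P.powerset.filter (fun T => T.card ≤ R),
        (-1 : ℝ) ^ T.card * ∑ n ∈ A.filter (fun n => ∀ i ∈ T, E i n), a n| ≤
      ∑ T ∈ P.powersetCard (R + 1), ∑ n ∈ A.filter (fun n => ∀ i ∈ T, E i n), a n := by
  have key : ∀ n : α,
      |(if (∀ i ∈ P, ¬ E i n) then (1 : ℝ) else 0) -
        ∑ T ∈ P.powerset.filter (fun T => T.card ≤ R),
          (-1 : ℝ) ^ T.card * (if (∀ i ∈ T, E i n) then (1 : ℝ) else 0)| ≤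
      ∑ T ∈ P.powersetCard (R + 1), (if (∀ i ∈ T, E i n) then (1 : ℝ) else 0) := by
    intro n
    have hK : ∀ T : Finset ι, (T ⊆ P ∧ ∀ i ∈ T, E i n) ↔ T ⊆ P.filter (fun i => E i n) := by
      intro T
      constructor
      · rintro ⟨h1, h2⟩ i hi
        exact mem_filter.2 ⟨h1 hi, h2 i hi⟩
      · intro h
        exact ⟨fun i hi => (mem_filter.1 (h hi)).1, fun i hi => (mem_filter.1 (h hi)).2⟩
    have h1 : (∀ i ∈ P, ¬ E i n) ↔ (P.filter (fun i => E i n)).card = 0 := by
      rw [card_eq_zero, filter_eq_empty_iff]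
    have h2 : ∑ T ∈ P.powerset.filter (fun T => T.card ≤ R),
          (-1 : ℝ) ^ T.card * (if (∀ i ∈ T, E i n) then (1 : ℝ) else 0) =
        ∑ T ∈ (P.filter (fun i => E i n)).powerset.filter (fun T => T.card ≤ R),
          (-1 : ℝ) ^ T.card := by
      rw [sum_filter, sum_filter]
      have h3 : (P.filter (fun i => E i n)).powerset =
          P.powerset.filter (fun T => ∀ i ∈ T, E i n) := by
        ext T
        rw [mem_powerset, mem_filter, mem_powerset]
        exact (hK T).symm
      rw [h3, sum_filter]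
      refine sum_congr rfl (fun T _ => ?_)
      by_cases h4 : T.card ≤ R <;> by_cases h5 : (∀ i ∈ T, E i n) <;> simp [h4, h5]
    have h6 : ∑ T ∈ P.powersetCard (R + 1), (if (∀ i ∈ T, E i n) then (1 : ℝ) else 0) =
        ((P.filter (fun i => E i n)).card.choose (R + 1) : ℝ) := by
      rw [← sum_filter, sum_const, nsmul_eq_mul, mul_one, ← card_powersetCard]
      congr 2
      ext T
      rw [mem_filter, mem_powersetCard, mem_powersetCard]
      constructor
      · rintro ⟨⟨h7, h8⟩, h9⟩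
        exact ⟨(hK T).1 ⟨h7, h9⟩, h8⟩
      · rintro ⟨h7, h8⟩
        exact ⟨⟨((hK T).2 h7).1, h8⟩, ((hK T).2 h7).2⟩
    rw [h2, h6, cbonf_sum]
    have h10 := cbonf_num (P.filter (fun i => E i n)).card R
    by_cases h11 : (∀ i ∈ P, ¬ E i n)
    · rw [if_pos h11]
      rw [if_pos (h1.1 h11)] at h10
      exact h10
    · rw [if_neg h11]
      rw [if_neg (fun h => h11 (h1.2 h))] at h10
      exact h10
  have e1 : ∑ n ∈ A.filter (fun n => ∀ i ∈ P, ¬ E i n), a n -
      ∑ T ∈ P.powerset.filter (fun T => T.card ≤ R),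
        (-1 : ℝ) ^ T.card * ∑ n ∈ A.filter (fun n => ∀ i ∈ T, E i n), a n =
      ∑ n ∈ A, a n * ((if (∀ i ∈ P, ¬ E i n) then (1 : ℝ) else 0) -
        ∑ T ∈ P.powerset.filter (fun T => T.card ≤ R),
          (-1 : ℝ) ^ T.card * (if (∀ i ∈ T, E i n) then (1 : ℝ) else 0)) := by
    simp only [mul_sub, sum_sub_distrib, mul_sum]
    congr 1
    · rw [sum_filter]
      refine sum_congr rfl (fun n _ => ?_)
      split_ifs <;> simp
    · rw [sum_comm]
      refine sum_congr rfl (fun T _ => ?_)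
      rw [sum_filter]
      refine sum_congr rfl (fun n _ => ?_)
      split_ifs <;> ring
  have e2 : ∑ T ∈ P.powersetCard (R + 1), ∑ n ∈ A.filter (fun n => ∀ i ∈ T, E i n), a n =
      ∑ n ∈ A, a n * ∑ T ∈ P.powersetCard (R + 1), (if (∀ i ∈ T, E i n) then (1 : ℝ) else 0) := by
    simp only [mul_sum]
    rw [sum_comm]
    refine sum_congr rfl (fun T _ => ?_)
    rw [sum_filter]
    refine sum_congr rfl (fun n _ => ?_)
    split_ifs <;> simp
  rw [e1, e2]
  refine (abs_sum_le_sum_abs _ _).trans (sum_le_sum (fun n hn => ?_))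
  rw [abs_mul, abs_of_nonneg (ha n hn)]
  exact mul_le_mul_of_nonneg_left (key n) (ha n hn)

end Pool.Agent.Lib.MP_79499b_co.DZ
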