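import Pool.Agent.Lib.MP_79499b_co.DZ.CBonf

/-!
# Brun's pure sieve, abstract form (module CBrun)

PROOF. Write `S_T = ∑_{n ∈ A, E i n ∀ i ∈ T} a n`, `g_T = ∏_{i ∈ T} g i`, `e = ∑_{|T| = R+1} g_T`.
By `bonf` the sifted sum differs from `∑_{|T| ≤ R} (-1)^|T| S_T` by at most
`∑_{|T| = R+1} S_T ≤ A0 e + ∑_{|T| = R+1} r`. Replacing `S_T` by `A0 g_T` for `|T| ≤ R` costs
`∑_{|T| ≤ R} r`. Finally `|∏_{i ∈ P} (1 - g i) - ∑_{|T| ≤ R} (-1)^|T| g_T| ≤ e`: this is `bonf` again
for the finite probability space of subsets of `P` (`α = Finset ι`, `A = P.powerset`,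
`a U = ∏_{i ∈ U} g i * ∏_{i ∈ P \ U} (1 - g i) ≥ 0`, `E i U : i ∈ U`; the sum of `a U` over `U ⊇ T`
is `g_T` and `a ∅ = ∏ (1 - g i)`; `Finset.prod_add`), or a direct induction on `P`.
Now `e ≤ G^(R+1)/(R+1)!`, `G = ∑ g i`: `(R+1)! e` is the sum of `∏ g (f k)` over the injective
`f : Fin (R+1) → P`, and `G^(R+1)` the sum over all `f`; or induction: `(k+1) e_{k+1} ≤ G e_k`. The
number of `T ⊆ P` with `|T| ≤ R + 1` is at most `(|P| + 1)^(R+1)`. Total: `2 A0 e + (|P|+1)^(R+1) r`.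
`pow_div_fact`: `k! ≥ (k/e)^k` (Mathlib `Nat.factorial_lt`/`exp` series: `k^k/k! ≤ exp k`), so
`G^k/k! ≤ (e G/k)^k ≤ exp(-k)` as `e^2 G ≤ 8 G ≤ k`.
-/

set_option autoImplicit false

open Finset
open scoped Classical

namespace Pool.Agent.Lib.MP_79499b_co.DZ

private theorem cbrun_super {ι : Type*} (P T : Finset ι) (hT : T ⊆ P) (g : ι → ℝ)
    (inst : DecidablePred (fun U : Finset ι => ∀ i ∈ T, i ∈ U)) :
    ∑ U ∈ @Finset.filter (Finset ι) (fun U => ∀ i ∈ T, i ∈ U) inst P.powerset,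
      (∏ i ∈ U, g i) * ∏ i ∈ P \ U, (1 - g i) = ∏ i ∈ T, g i := by
  have h := Finset.prod_add g (fun i => if i ∈ T then 0 else 1 - g i) P
  have h1 : ∏ i ∈ P, (g i + if i ∈ T then 0 else 1 - g i) = ∏ i ∈ T, g i := by
    rw [← Finset.prod_sdiff hT]
    have h2 : ∏ i ∈ P \ T, (g i + if i ∈ T then 0 else 1 - g i) = 1 := by
      refine prod_eq_one (fun i hi => ?_)
      rw [if_neg (mem_sdiff.1 hi).2]
      ring
    rw [h2, one_mul]
    refine prod_congr rfl (fun i hi => ?_)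
    rw [if_pos hi, add_zero]
  rw [h1] at h
  rw [h, sum_filter]
  refine sum_congr rfl (fun U hU => ?_)
  split_ifs with h3
  · congr 1
    refine prod_congr rfl (fun i hi => ?_)
    have h4 : i ∉ T := fun h5 => (mem_sdiff.1 hi).2 (h3 i h5)
    rw [if_neg h4]
  · push Not at h3
    obtain ⟨i, hi, hiU⟩ := h3
    have h4 : ∏ i ∈ P \ U, (if i ∈ T then 0 else 1 - g i) = 0 := by
      refine prod_eq_zero (mem_sdiff.2 ⟨hT hi, hiU⟩) ?_
      rw [if_pos hi]
    rw [h4, mul_zero]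

private theorem cbrun_prob {ι : Type*} (P : Finset ι) (R : ℕ) (g : ι → ℝ)
    (hg0 : ∀ i ∈ P, 0 ≤ g i) (hg1 : ∀ i ∈ P, g i ≤ 1) :
    |∏ i ∈ P, (1 - g i) - ∑ T ∈ P.powerset.filter (fun T => T.card ≤ R),
      (-1 : ℝ) ^ T.card * ∏ i ∈ T, g i| ≤ ∑ T ∈ P.powersetCard (R + 1), ∏ i ∈ T, g i := by
  have h := bonf P.powerset (fun U => (∏ i ∈ U, g i) * ∏ i ∈ P \ U, (1 - g i))
    (fun U hU => mul_nonneg
      (prod_nonneg (fun i hi => hg0 i (mem_powerset.1 hU hi)))
      (prod_nonneg (fun i hi => sub_nonneg.2 (hg1 i (mem_sdiff.1 hi).1))))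
    P (fun i U => i ∈ U) R
  have h1 : ∀ inst : DecidablePred (fun U : Finset ι => ∀ i ∈ P, ¬ i ∈ U),
      @Finset.filter (Finset ι) (fun U => ∀ i ∈ P, ¬ i ∈ U) inst P.powerset = {∅} := by
    intro inst
    ext U
    rw [mem_filter, mem_powerset, mem_singleton]
    constructor
    · rintro ⟨h2, h3⟩
      rw [eq_empty_iff_forall_notMem]
      exact fun i hi => h3 i (h2 hi) hi
    · rintro rfl
      exact ⟨empty_subset _, fun i _ => notMem_empty i⟩
  rw [h1, sum_singleton, prod_empty, one_mul, sdiff_empty] at h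
  rw [sum_congr (s₁ := P.powerset.filter (fun T => T.card ≤ R))
      (g := fun T => (-1 : ℝ) ^ T.card * ∏ i ∈ T, g i) rfl (fun T hT => by
      rw [cbrun_super P T (mem_powerset.1 (mem_filter.1 hT).1) g]),
    sum_congr (s₁ := P.powersetCard (R + 1)) (g := fun T => ∏ i ∈ T, g i) rfl (fun T hT => by
      rw [cbrun_super P T (mem_powersetCard.1 hT).1 g])] at h
  exact h

private theorem cbrun_bern (G t : ℝ) (hG : 0 ≤ G) (ht : 0 ≤ t) (k : ℕ) :
    G ^ (k + 1) + (k + 1) * t * G ^ k ≤ (G + t) ^ (k + 1) := by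
  induction k with
  | zero => simp
  | succ m ih =>
    have h1 : (G + t) ^ (m + 1 + 1) = (G + t) * (G + t) ^ (m + 1) := by ring
    have h2 : (G + t) * (G ^ (m + 1) + (m + 1) * t * G ^ m) ≤ (G + t) * (G + t) ^ (m + 1) :=
      mul_le_mul_of_nonneg_left ih (add_nonneg hG ht)
    have h3 : (G + t) * (G ^ (m + 1) + (m + 1) * t * G ^ m) =
        G ^ (m + 1 + 1) + ((m : ℝ) + 1 + 1) * t * G ^ (m + 1) + (m + 1) * t ^ 2 * G ^ m := by ring
    have h4 : 0 ≤ ((m : ℝ) + 1) * t ^ 2 * G ^ m := by positivity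
    push_cast
    rw [h1]
    linarith

private theorem cbrun_esymm {ι : Type*} (g : ι → ℝ) (P : Finset ι) (hg0 : ∀ i ∈ P, 0 ≤ g i) :
    ∀ k : ℕ, ∑ T ∈ P.powersetCard k, ∏ i ∈ T, g i ≤ (∑ i ∈ P, g i) ^ k / k.factorial := by
  induction P using Finset.induction_on with
  | empty =>
    intro k
    rcases k with _ | k
    · simp
    · have h : (∅ : Finset ι).powersetCard (k + 1) = ∅ := by
        rw [powersetCard_eq_empty]
        simp
      rw [h, sum_empty]
      positivity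
  | insert x P hx ih =>
    intro k
    have hP : ∀ i ∈ P, 0 ≤ g i := fun i hi => hg0 i (mem_insert_of_mem hi)
    have hx0 : 0 ≤ g x := hg0 x (mem_insert_self x P)
    have ih' := ih hP
    have hG : 0 ≤ ∑ i ∈ P, g i := sum_nonneg hP
    rcases k with _ | k
    · simp
    · rw [powersetCard_succ_insert hx, sum_union, sum_image]
      · have h1 : ∑ T ∈ P.powersetCard k, ∏ i ∈ insert x T, g i =
            g x * ∑ T ∈ P.powersetCard k, ∏ i ∈ T, g i := by
          rw [mul_sum]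
          refine sum_congr rfl (fun T hT => ?_)
          rw [prod_insert (fun h => hx ((mem_powersetCard.1 hT).1 h))]
        rw [h1, sum_insert hx]
        have h2 := ih' (k + 1)
        have h3 := mul_le_mul_of_nonneg_left (ih' k) hx0
        have h4 := cbrun_bern (∑ i ∈ P, g i) (g x) hG hx0 k
        have hf : (0 : ℝ) < ((k + 1).factorial : ℝ) := by positivity
        have hf' : (0 : ℝ) < (k.factorial : ℝ) := by positivity
        have h5 : g x * ((∑ i ∈ P, g i) ^ k / (k.factorial : ℝ)) =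
            ((k + 1) * g x * (∑ i ∈ P, g i) ^ k) / ((k + 1).factorial : ℝ) := by
          rw [Nat.factorial_succ]
          push_cast
          field_simp
        rw [h5] at h3
        have h6 : (∑ i ∈ P, g i) ^ (k + 1) / ((k + 1).factorial : ℝ) +
            ((k + 1) * g x * (∑ i ∈ P, g i) ^ k) / ((k + 1).factorial : ℝ) ≤
            (g x + ∑ i ∈ P, g i) ^ (k + 1) / ((k + 1).factorial : ℝ) := by
          rw [← add_div]
          apply div_le_div_of_nonneg_right _ hf.le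
          rw [add_comm (g x)]
          exact h4
        linarith
      · intro S hS T hT hST
        have hS' : x ∉ S := fun h => hx ((mem_powersetCard.1 hS).1 h)
        have hT' : x ∉ T := fun h => hx ((mem_powersetCard.1 hT).1 h)
        rw [← erase_insert hS', ← erase_insert hT']
        exact congrArg (fun U => U.erase x) hST
      · rw [disjoint_left]
        intro T hT hT'
        obtain ⟨U, _, rfl⟩ := mem_image.1 hT'
        exact hx ((mem_powersetCard.1 hT).1 (mem_insert_self x U))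

private theorem cbrun_count {ι : Type*} (P : Finset ι) (R : ℕ) :
    (((P.powerset.filter (fun T => T.card ≤ R)).card : ℕ) : ℝ) ≤ ((P.card : ℝ) + 1) ^ R := by
  have h : P.powerset.filter (fun T => T.card ≤ R) =
      (range (R + 1)).biUnion (fun j => P.powersetCard j) := by
    ext T
    simp only [mem_filter, mem_powerset, mem_biUnion, mem_range, mem_powersetCard]
    constructor
    · rintro ⟨h1, h2⟩
      exact ⟨T.card, by omega, h1, rfl⟩
    · rintro ⟨j, hj, h1, h2⟩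
      exact ⟨h1, by omega⟩
  have h1 : (P.powerset.filter (fun T => T.card ≤ R)).card ≤
      ∑ j ∈ range (R + 1), P.card.choose j := by
    rw [h]
    refine card_biUnion_le.trans (le_of_eq ?_)
    exact sum_congr rfl (fun j _ => card_powersetCard j P)
  have h2 : ∑ j ∈ range (R + 1), P.card.choose j ≤ (P.card + 1) ^ R := by
    rw [add_pow]
    refine sum_le_sum (fun j hj => ?_)
    have h3 : P.card.choose j ≤ P.card ^ j := Nat.choose_le_pow _ _
    have h4 : 1 ≤ R.choose j := Nat.choose_pos (by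
      have := mem_range.1 hj
      omega)
    rw [one_pow, mul_one]
    calc P.card.choose j ≤ P.card ^ j * 1 := by rw [mul_one]; exact h3
      _ ≤ P.card ^ j * R.choose j := Nat.mul_le_mul_left _ h4
  exact_mod_cast h1.trans h2

/-- Brun's pure sieve -/
theorem brun {α ι : Type*} (A : Finset α) (a : α → ℝ) (ha : ∀ n ∈ A, 0 ≤ a n)
    (P : Finset ι) (E : ι → α → Prop) (R : ℕ) (A0 : ℝ) (hA0 : 0 ≤ A0) (g : ι → ℝ)
    (hg0 : ∀ i ∈ P, 0 ≤ g i) (hg1 : ∀ i ∈ P, g i ≤ 1) (r : ℝ) (hr : 0 ≤ r)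
    (h : ∀ T ⊆ P, T.card ≤ R + 1 →
      |∑ n ∈ A.filter (fun n => ∀ i ∈ T, E i n), a n - A0 * ∏ i ∈ T, g i| ≤ r) :
    |∑ n ∈ A.filter (fun n => ∀ i ∈ P, ¬ E i n), a n - A0 * ∏ i ∈ P, (1 - g i)| ≤
      2 * A0 * ((∑ i ∈ P, g i) ^ (R + 1) / (R + 1).factorial) +
        ((P.card : ℝ) + 1) ^ (R + 1) * r := by
  have h1 := bonf A a ha P E R
  have h2 := cbrun_prob P R g hg0 hg1
  have h3 := cbrun_esymm g P hg0 (R + 1)
  have h4 := cbrun_count P (R + 1)
  -- replacing `S_T` by `A0 g_T`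
  have h5 : |∑ T ∈ P.powerset.filter (fun T => T.card ≤ R),
        (-1 : ℝ) ^ T.card * ∑ n ∈ A.filter (fun n => ∀ i ∈ T, E i n), a n -
      A0 * ∑ T ∈ P.powerset.filter (fun T => T.card ≤ R), (-1 : ℝ) ^ T.card * ∏ i ∈ T, g i| ≤
      ((P.powerset.filter (fun T => T.card ≤ R)).card : ℝ) * r := by
    rw [mul_sum, ← sum_sub_distrib]
    refine (abs_sum_le_sum_abs _ _).trans ?_
    rw [← nsmul_eq_mul, ← sum_const]
    refine sum_le_sum (fun T hT => ?_)
    have hT1 := mem_powerset.1 (mem_filter.1 hT).1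
    have hT2 := (mem_filter.1 hT).2
    have h6 := h T hT1 (by omega)
    have h7 : (-1 : ℝ) ^ T.card * ∑ n ∈ A.filter (fun n => ∀ i ∈ T, E i n), a n -
        A0 * ((-1 : ℝ) ^ T.card * ∏ i ∈ T, g i) =
        (-1 : ℝ) ^ T.card * (∑ n ∈ A.filter (fun n => ∀ i ∈ T, E i n), a n -
          A0 * ∏ i ∈ T, g i) := by ring
    rw [h7, abs_mul, abs_pow, abs_neg, abs_one, one_pow, one_mul]
    exact h6
  have h6 : ∑ T ∈ P.powersetCard (R + 1), ∑ n ∈ A.filter (fun n => ∀ i ∈ T, E i n), a n ≤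
      A0 * ∑ T ∈ P.powersetCard (R + 1), ∏ i ∈ T, g i +
        ((P.powersetCard (R + 1)).card : ℝ) * r := by
    rw [mul_sum, ← nsmul_eq_mul, ← sum_const, ← sum_add_distrib]
    refine sum_le_sum (fun T hT => ?_)
    have hT1 := (mem_powersetCard.1 hT).1
    have hT2 := (mem_powersetCard.1 hT).2
    have h6 := (abs_le.1 (h T hT1 (by omega))).2
    linarith
  have h7 : ((P.powerset.filter (fun T => T.card ≤ R + 1)).card : ℝ) =
      ((P.powerset.filter (fun T => T.card ≤ R)).card : ℝ) +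
        ((P.powersetCard (R + 1)).card : ℝ) := by
    have h8 : P.powerset.filter (fun T => T.card ≤ R + 1) =
        P.powerset.filter (fun T => T.card ≤ R) ∪ P.powersetCard (R + 1) := by
      ext T
      rw [mem_union, mem_filter, mem_filter, mem_powerset, mem_powersetCard]
      constructor
      · rintro ⟨h9, h10⟩
        rcases Nat.lt_or_ge T.card (R + 1) with h11 | h11
        · exact Or.inl ⟨h9, by omega⟩
        · exact Or.inr ⟨h9, by omega⟩
      · rintro (⟨h9, h10⟩ | ⟨h9, h10⟩)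
        · exact ⟨h9, by omega⟩
        · exact ⟨h9, by omega⟩
    have h9 : Disjoint (P.powerset.filter (fun T => T.card ≤ R)) (P.powersetCard (R + 1)) := by
      rw [disjoint_left]
      intro T hT hT'
      have := (mem_filter.1 hT).2
      have := (mem_powersetCard.1 hT').2
      omega
    rw [h8, card_union_of_disjoint h9]
    push_cast
    ring
  have h8 : A0 * ∑ T ∈ P.powersetCard (R + 1), ∏ i ∈ T, g i ≤
      A0 * ((∑ i ∈ P, g i) ^ (R + 1) / (R + 1).factorial) := mul_le_mul_of_nonneg_left h3 hA0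
  have h9 : |A0 * ∑ T ∈ P.powerset.filter (fun T => T.card ≤ R),
      (-1 : ℝ) ^ T.card * ∏ i ∈ T, g i - A0 * ∏ i ∈ P, (1 - g i)| ≤
      A0 * ∑ T ∈ P.powersetCard (R + 1), ∏ i ∈ T, g i := by
    rw [← mul_sub, abs_mul, abs_of_nonneg hA0, abs_sub_comm]
    exact mul_le_mul_of_nonneg_left h2 hA0
  have h10 : (((P.powerset.filter (fun T => T.card ≤ R + 1)).card : ℕ) : ℝ) * r ≤
      ((P.card : ℝ) + 1) ^ (R + 1) * r := mul_le_mul_of_nonneg_right h4 hr
  rw [h7, add_mul] at h10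
  have h1' := abs_le.1 h1
  have h5' := abs_le.1 h5
  have h9' := abs_le.1 h9
  rw [abs_le]
  constructor
  · linarith [h1'.1, h5'.1, h9'.1]
  · linarith [h1'.2, h5'.2, h9'.2]

/-- the truncation error: `G^k / k! ≤ exp(-k)` if `k ≥ 8 G` -/
theorem pow_div_fact (G : ℝ) (hG : 0 ≤ G) (k : ℕ) (hk : 8 * G ≤ k) :
    G ^ k / k.factorial ≤ Real.exp (-(k : ℝ)) := by
  have h1 : (k : ℝ) ^ k / k.factorial ≤ Real.exp k :=
    Real.pow_div_factorial_le_exp (k : ℝ) (Nat.cast_nonneg k) k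
  have hf : (0 : ℝ) < (k.factorial : ℝ) := by positivity
  have h2 : G ^ k ≤ ((k : ℝ) / 8) ^ k := pow_le_pow_left₀ hG (by linarith) k
  have h3 : Real.exp 1 ^ 2 ≤ 8 := by
    have := Real.exp_one_lt_d9
    have h0 : 0 < Real.exp 1 := Real.exp_pos 1
    nlinarith
  have h4 : Real.exp (k : ℝ) * (1 / 8) ^ k ≤ Real.exp (-(k : ℝ)) := by
    have h5 : Real.exp (k : ℝ) = Real.exp 1 ^ k := by
      rw [← Real.exp_nat_mul, mul_one]
    rw [Real.exp_neg, h5, ← mul_pow, ← inv_pow]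
    apply pow_le_pow_left₀ (by positivity)
    have h0 : 0 < Real.exp 1 := Real.exp_pos 1
    rw [le_inv_comm₀ (by positivity) h0, ← one_div, le_div_iff₀ (by positivity)]
    nlinarith
  calc G ^ k / k.factorial ≤ ((k : ℝ) / 8) ^ k / k.factorial :=
        div_le_div_of_nonneg_right h2 hf.le
    _ = ((k : ℝ) ^ k / k.factorial) * (1 / 8) ^ k := by
        rw [div_pow, one_div, inv_pow]
        ring
    _ ≤ Real.exp (k : ℝ) * (1 / 8) ^ k := mul_le_mul_of_nonneg_right h1 (by positivity)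
    _ ≤ Real.exp (-(k : ℝ)) := h4

end Pool.Agent.Lib.MP_79499b_co.DZ
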