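import Pool.Agent.Lib.MP_79499b_co.DZ.CDefs

/-!
# Periodic conditions and the Chinese remainder theorem (module CCrt)

PROOFS. `crt_card`: the map `n ↦ (n % q1, n % q2)` is a bijection from `range (q1 q2)` onto
`range q1 × range q2` (`Nat.chineseRemainder`), and it respects the conditions since they are
periodic. `crt_per`: clear, `n % (q1 q2) % q1 = n % q1` (`Nat.mod_mul_right_mod` etc.).
`Rt_per`: `Rt τ w n` depends on `(n : ZMod w)` only (`ZMod.natCast_mod`).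
`Rt_card`: the residues `t ∈ range w` correspond to the elements of `ZMod w`; those with
`orderOf t = e` (`e ≥ 1`, so `t ≠ 0` is a unit) are the units of order `e`; the unit group is cyclic of
order `w - 1` and `e ∣ c ∣ w - 1`: `IsCyclic.card_orderOf_eq_totient` gives `φ(e)`.
-/

set_option autoImplicit false

open Finset
open scoped Classical

namespace Pool.Agent.Lib.MP_79499b_co.DZ

theorem crt_per {q1 q2 : ℕ} {Q1 Q2 : ℕ → Prop} (h1 : Per q1 Q1) (h2 : Per q2 Q2) :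
    Per (q1 * q2) (fun n => Q1 n ∧ Q2 n) := by
  intro n
  show (Q1 n ∧ Q2 n) ↔ (Q1 (n % (q1 * q2)) ∧ Q2 (n % (q1 * q2)))
  rw [h1 n, h2 n, h1 (n % (q1 * q2)), h2 (n % (q1 * q2)), Nat.mod_mul_right_mod,
    Nat.mod_mul_left_mod]

private theorem mem_nc {q : ℕ} {Q : ℕ → Prop} {n : ℕ} :
    n ∈ @Finset.filter ℕ Q (fun a => Classical.propDecidable (Q a)) (range q) ↔ n < q ∧ Q n := by
  rw [@Finset.mem_filter _ _ _ _ _, mem_range]

theorem crt_card {q1 q2 : ℕ} (hc : q1.Coprime q2) (hq1 : 0 < q1) (hq2 : 0 < q2)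
    {Q1 Q2 : ℕ → Prop} (h1 : Per q1 Q1) (h2 : Per q2 Q2) :
    nc (q1 * q2) (fun n => Q1 n ∧ Q2 n) = nc q1 Q1 * nc q2 Q2 := by
  unfold nc
  rw [← Finset.card_product]
  apply Finset.card_bij (fun n _ => (n % q1, n % q2))
  · intro n hn
    replace hn := mem_nc.1 hn
    exact mem_product.2 ⟨mem_nc.2 ⟨Nat.mod_lt _ hq1, (h1 n).1 hn.2.1⟩,
      mem_nc.2 ⟨Nat.mod_lt _ hq2, (h2 n).1 hn.2.2⟩⟩
  · intro a ha b hb hab
    replace ha := mem_nc.1 ha
    replace hb := mem_nc.1 hb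
    rw [Prod.mk.injEq] at hab
    have h3 : a ≡ b [MOD q1 * q2] := 
      (Nat.modEq_and_modEq_iff_modEq_mul hc).1 ⟨hab.1, hab.2⟩
    exact Nat.ModEq.eq_of_lt_of_lt h3 ha.1 hb.1
  · rintro ⟨r, s⟩ hrs
    obtain ⟨hr, hr2⟩ := mem_nc.1 (mem_product.1 hrs).1
    obtain ⟨hs, hs2⟩ := mem_nc.1 (mem_product.1 hrs).2
    dsimp only at hr hr2 hs hs2
    have h3 := (Nat.chineseRemainder hc r s).2
    have e1 : (Nat.chineseRemainder hc r s : ℕ) % q1 = r := by
      have := h3.1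
      rw [Nat.ModEq, Nat.mod_eq_of_lt hr] at this
      exact this
    have e2 : (Nat.chineseRemainder hc r s : ℕ) % q2 = s := by
      have := h3.2
      rw [Nat.ModEq, Nat.mod_eq_of_lt hs] at this
      exact this
    refine ⟨(Nat.chineseRemainder hc r s : ℕ) % (q1 * q2), ?_, ?_⟩
    · refine mem_nc.2 ⟨Nat.mod_lt _ (Nat.mul_pos hq1 hq2), ?_, ?_⟩
      · rw [h1, Nat.mod_mul_right_mod, e1]; exact hr2
      · rw [h2, Nat.mod_mul_left_mod, e2]; exact hs2
    · rw [Nat.mod_mul_right_mod, Nat.mod_mul_left_mod, e1, e2]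

theorem Rt_per (τ : WT) (w : ℕ) : Per w (fun n => Rt τ w n) := by
  intro n
  show Rt τ w n ↔ Rt τ w (n % w)
  unfold Rt
  rw [ZMod.natCast_mod]

theorem Rt_card (τ : WT) (w : ℕ) (hw : w.Prime) (hh : w ≡ τ.h [MOD τ.M]) :
    nc w (fun n => Rt τ w n) = τ.e.totient := by
  have : Fact w.Prime := ⟨hw⟩
  have : NeZero w := ⟨hw.ne_zero⟩
  have hdvd : τ.e ∣ Fintype.card (ZMod w)ˣ := by
    rw [ZMod.card_units]
    exact τ.hec.trans (τ.shape w hw hh).1
  rw [← IsCyclic.card_orderOf_eq_totient (α := (ZMod w)ˣ) hdvd]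
  unfold nc
  symm
  apply Finset.card_bij (fun (u : (ZMod w)ˣ) _ => (u : ZMod w).val)
  · intro u hu
    replace hu := (Finset.mem_filter.1 hu).2
    refine mem_nc.2 ⟨ZMod.val_lt _, ?_⟩
    show orderOf (((u : ZMod w).val : ℕ) : ZMod w) = τ.e
    rw [ZMod.natCast_val, ZMod.cast_id', id, orderOf_units]
    exact hu
  · intro a _ b _ hab
    exact Units.ext (ZMod.val_injective w hab)
  · intro n hn
    replace hn := mem_nc.1 hn
    have hn2 : orderOf (n : ZMod w) = τ.e := hn.2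
    have h0 : (n : ZMod w) ^ τ.e = 1 := by rw [← hn2, pow_orderOf_eq_one]
    have hu : IsUnit (n : ZMod w) := IsUnit.of_pow_eq_one h0 (by have := τ.he; omega)
    obtain ⟨u, hu⟩ := hu
    refine ⟨u, ?_, ?_⟩
    · rw [mem_filter]
      refine ⟨mem_univ _, ?_⟩
      rw [← orderOf_units, hu]
      exact hn2
    · rw [hu, ZMod.val_natCast, Nat.mod_eq_of_lt hn.1]

end Pool.Agent.Lib.MP_79499b_co.DZ
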