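import Pool.Agent.Lib.MP_79499b_co.DZ.CDefs
import Pool.Agent.Lib.MP_79499b_co.Q38Transfer

/-!
# Mertens type bounds (module CProd)

PROOFS. All from `Pool.Agent.Lib.MP_79499b_co.Q38.mertens_two` (`fsum (fun _ => 1) w` is the sum of `1/p`,
`p < w`): `|∑_{p < w} 1/p - log log w| ≤ C0` for `w ≥ 3`.
`sum_up`: `1/(l-1) ≤ 1/l + 2/l^2` and `∑ 2/l^2` converges.
`prod_low`: `log (1-t) ≥ -t - t^2` for `0 ≤ t ≤ 1/2` (`t = 2/(l-1) ≤ 1/2` for `l ≥ 5`), so the
logarithm of the product is `≥ -2 ∑_{l ≤ y} 1/(l-1) - ∑ 4/(l-1)^2 ≥ -2 log log y - C`.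
`V_low`: `log V ≥ -∑_{p ≤ Z0} 1/p - C ≥ -log log Z0 - C`, `log Z0 ≤ 100 LL x`.
`sumZ`: `log log Z0 x = log (100 LL x + o(1)) = LLL x + O(1)` (`Z0 x ≥ (log x)^100 / 2`).
-/

set_option autoImplicit false

open Finset
open scoped Classical

namespace Pool.Agent.Lib.MP_79499b_co.DZ

private theorem fsum_one (y : ℕ) : Q38.fsum (fun _ => 1) y =
    ∑ p ∈ (range y).filter Nat.Prime, 1 / (p : ℝ) := rfl

/-- the sum of the reciprocals of the primes `≤ y` -/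
private theorem psum_le {C : ℝ} (hC : ∀ x : ℕ, 3 ≤ x →
    |Q38.fsum (fun _ => 1) x - Real.log (Real.log x)| ≤ C) (y : ℕ) (hy : 3 ≤ y) :
    ∑ l ∈ (Icc 2 y).filter Nat.Prime, 1 / (l : ℝ) ≤ Real.log (Real.log y) + C + 1 := by
  have h1 := (abs_le.1 (hC y hy)).2
  rw [fsum_one] at h1
  have h2 : (Icc 2 y).filter Nat.Prime ⊆ insert y ((range y).filter Nat.Prime) := by
    intro l hl
    rw [mem_filter, mem_Icc] at hl
    rw [mem_insert, mem_filter, mem_range]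
    rcases eq_or_lt_of_le hl.1.2 with h | h
    · exact Or.inl h
    · exact Or.inr ⟨h, hl.2⟩
  have h3 : ∑ l ∈ (Icc 2 y).filter Nat.Prime, 1 / (l : ℝ) ≤
      ∑ l ∈ insert y ((range y).filter Nat.Prime), 1 / (l : ℝ) :=
    sum_le_sum_of_subset_of_nonneg h2 fun _ _ _ => by positivity
  have h4 : y ∉ (range y).filter Nat.Prime := by simp
  rw [sum_insert h4] at h3
  have h5 : 1 / (y : ℝ) ≤ 1 := by
    rw [div_le_one (by positivity)]
    exact_mod_cast (by omega : 1 ≤ y)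
  linarith

private theorem tele (y : ℕ) (hy : 2 ≤ y) :
    ∑ l ∈ Icc 2 y, (1 / ((l : ℝ) - 1) - 1 / (l : ℝ)) = 1 - 1 / (y : ℝ) := by
  induction y, hy using Nat.le_induction with
  | base => norm_num
  | succ n hn ih =>
    rw [sum_Icc_succ_top (by omega), ih]
    push_cast
    ring

theorem sum_up : ∃ C : ℝ, 0 < C ∧ ∀ y : ℕ, 3 ≤ y →
    ∑ l ∈ (Icc 2 y).filter Nat.Prime, 1 / ((l : ℝ) - 1) ≤ Real.log (Real.log y) + C := by
  obtain ⟨C, hC0, hC⟩ := Q38.mertens_two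
  refine ⟨C + 2, by linarith, fun y hy => ?_⟩
  have h1 := psum_le hC y hy
  have h2 : ∑ l ∈ (Icc 2 y).filter Nat.Prime, (1 / ((l : ℝ) - 1) - 1 / (l : ℝ)) ≤
      ∑ l ∈ Icc 2 y, (1 / ((l : ℝ) - 1) - 1 / (l : ℝ)) := by
    refine sum_le_sum_of_subset_of_nonneg (filter_subset _ _) fun l hl _ => ?_
    rw [mem_Icc] at hl
    have h3 : (2 : ℝ) ≤ l := by exact_mod_cast hl.1
    have h4 : 1 / (l : ℝ) ≤ 1 / ((l : ℝ) - 1) :=
      one_div_le_one_div_of_le (by linarith) (by linarith)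
    linarith
  rw [tele y (by omega), sum_sub_distrib] at h2
  have h3 : (0 : ℝ) ≤ 1 / (y : ℝ) := by positivity
  linarith

private theorem log_one_sub {t : ℝ} (h0 : 0 ≤ t) (h1 : t ≤ 1 / 2) :
    -t - 2 * t ^ 2 ≤ Real.log (1 - t) := by
  have h2 : 0 < 1 - t := by linarith
  have h3 := Real.one_sub_inv_le_log_of_pos h2
  refine le_trans ?_ h3
  have h4 : 1 - (1 - t)⁻¹ = -(t / (1 - t)) := by field_simp; ring
  rw [h4]
  have h5 : t / (1 - t) ≤ t + 2 * t ^ 2 := by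
    rw [div_le_iff₀ h2]
    nlinarith [mul_nonneg h0 h0, mul_nonneg (mul_nonneg h0 h0) (by linarith : (0:ℝ) ≤ 1 - 2 * t)]
  linarith

private theorem tele2 (y : ℕ) (hy : 5 ≤ y) :
    ∑ l ∈ Icc 5 y, (1 / ((l : ℝ) - 2) - 1 / ((l : ℝ) - 1)) = 1 / 3 - 1 / ((y : ℝ) - 1) := by
  induction y, hy using Nat.le_induction with
  | base => norm_num
  | succ n hn ih =>
    rw [sum_Icc_succ_top (by omega), ih]
    push_cast
    have h1 : (5 : ℝ) ≤ n := by exact_mod_cast hn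
    ring

theorem prod_low : ∃ c : ℝ, 0 < c ∧ ∀ y : ℕ, 3 ≤ y →
    c / Real.log y ^ 2 ≤ ∏ l ∈ (Icc 5 y).filter Nat.Prime, (1 - 2 / ((l : ℝ) - 1)) := by
  obtain ⟨C, hC0, hC⟩ := sum_up
  refine ⟨Real.exp (-(2 * C) - 8 / 3), Real.exp_pos _, fun y hy => ?_⟩
  have hlog : 0 < Real.log y := Real.log_pos (by exact_mod_cast (by omega : 1 < y))
  have h1 := hC y hy
  have ht : ∀ l ∈ (Icc 5 y).filter Nat.Prime, (0 : ℝ) ≤ 2 / ((l : ℝ) - 1) ∧
      2 / ((l : ℝ) - 1) ≤ 1 / 2 ∧ (5 : ℝ) ≤ l := by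
    intro l hl
    rw [mem_filter, mem_Icc] at hl
    have h3 : (5 : ℝ) ≤ l := by exact_mod_cast hl.1.1
    refine ⟨by apply div_nonneg <;> linarith, ?_, h3⟩
    rw [div_le_div_iff₀ (by linarith) (by norm_num)]
    linarith
  have hpos : ∀ l ∈ (Icc 5 y).filter Nat.Prime, 0 < 1 - 2 / ((l : ℝ) - 1) := by
    intro l hl
    have := (ht l hl).2.1
    linarith
  have h2 : ∑ l ∈ (Icc 5 y).filter Nat.Prime, (2 / ((l : ℝ) - 1)) ≤
      2 * (Real.log (Real.log y) + C) := by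
    have h3 : ∑ l ∈ (Icc 5 y).filter Nat.Prime, (2 / ((l : ℝ) - 1)) =
        2 * ∑ l ∈ (Icc 5 y).filter Nat.Prime, (1 / ((l : ℝ) - 1)) := by
      rw [mul_sum]
      exact sum_congr rfl fun l _ => by ring
    rw [h3]
    refine mul_le_mul_of_nonneg_left (le_trans ?_ h1) (by norm_num)
    refine sum_le_sum_of_subset_of_nonneg ?_ fun l hl _ => ?_
    · intro l hl
      rw [mem_filter, mem_Icc] at hl ⊢
      exact ⟨⟨by omega, hl.1.2⟩, hl.2⟩
    · rw [mem_filter, mem_Icc] at hl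
      have h4 : (2 : ℝ) ≤ l := by exact_mod_cast hl.1.1
      apply div_nonneg <;> linarith
  have h5 : ∑ l ∈ (Icc 5 y).filter Nat.Prime, 2 * (2 / ((l : ℝ) - 1)) ^ 2 ≤ 8 / 3 := by
    have h6 : ∑ l ∈ (Icc 5 y).filter Nat.Prime, 2 * (2 / ((l : ℝ) - 1)) ^ 2 ≤
        ∑ l ∈ (Icc 5 y).filter Nat.Prime, 8 * (1 / ((l : ℝ) - 2) - 1 / ((l : ℝ) - 1)) := by
      refine sum_le_sum fun l hl => ?_
      have h7 := (ht l hl).2.2
      have h8 : 0 < (l : ℝ) - 1 := by linarith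
      have h9 : 0 < (l : ℝ) - 2 := by linarith
      have h10 : 1 / ((l : ℝ) - 2) - 1 / ((l : ℝ) - 1) = 1 / (((l : ℝ) - 2) * ((l : ℝ) - 1)) := by
        field_simp; ring
      have h11 : 2 * (2 / ((l : ℝ) - 1)) ^ 2 = 8 * (1 / (((l : ℝ) - 1) * ((l : ℝ) - 1))) := by
        field_simp; ring
      rw [h10, h11]
      refine mul_le_mul_of_nonneg_left (one_div_le_one_div_of_le (mul_pos h9 h8) ?_) (by norm_num)
      exact mul_le_mul_of_nonneg_right (by linarith) h8.le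
    refine h6.trans ?_
    rcases lt_or_ge y 5 with h7 | h7
    · have h8 : (Icc 5 y).filter Nat.Prime = ∅ := by
        rw [Icc_eq_empty (by omega), filter_empty]
      rw [h8, sum_empty]; norm_num
    · have h8 : ∑ l ∈ (Icc 5 y).filter Nat.Prime, 8 * (1 / ((l : ℝ) - 2) - 1 / ((l : ℝ) - 1)) ≤
          ∑ l ∈ Icc 5 y, 8 * (1 / ((l : ℝ) - 2) - 1 / ((l : ℝ) - 1)) := by
        refine sum_le_sum_of_subset_of_nonneg (filter_subset _ _) fun l hl _ => ?_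
        rw [mem_Icc] at hl
        have h9 : (5 : ℝ) ≤ l := by exact_mod_cast hl.1
        have h10 : 1 / ((l : ℝ) - 1) ≤ 1 / ((l : ℝ) - 2) :=
          one_div_le_one_div_of_le (by linarith) (by linarith)
        linarith
      rw [← mul_sum, ← mul_sum, tele2 y h7] at h8
      have h9 : (5 : ℝ) ≤ y := by exact_mod_cast h7
      have h10 : (0 : ℝ) ≤ 1 / ((y : ℝ) - 1) := by apply div_nonneg <;> linarith
      rw [← mul_sum]
      linarith
  have h12 : Real.exp (∑ l ∈ (Icc 5 y).filter Nat.Prime, Real.log (1 - 2 / ((l : ℝ) - 1))) =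
      ∏ l ∈ (Icc 5 y).filter Nat.Prime, (1 - 2 / ((l : ℝ) - 1)) := by
    rw [Real.exp_sum]
    exact prod_congr rfl fun l hl => Real.exp_log (hpos l hl)
  rw [← h12]
  have h13 : Real.exp (-(2 * C) - 8 / 3) / Real.log y ^ 2 =
      Real.exp (-(2 * (Real.log (Real.log y) + C)) - 8 / 3) := by
    have h14 : -(2 * (Real.log (Real.log y) + C)) - 8 / 3 =
        (-(2 * C) - 8 / 3) - (Real.log (Real.log y) + Real.log (Real.log y)) := by ring
    rw [h14, Real.exp_sub (-(2 * C) - 8 / 3), Real.exp_add, Real.exp_log hlog, sq]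
  rw [h13]
  refine Real.exp_le_exp.2 ?_
  have h15 : ∑ l ∈ (Icc 5 y).filter Nat.Prime, (-(2 / ((l : ℝ) - 1)) -
      2 * (2 / ((l : ℝ) - 1)) ^ 2) ≤
      ∑ l ∈ (Icc 5 y).filter Nat.Prime, Real.log (1 - 2 / ((l : ℝ) - 1)) :=
    sum_le_sum fun l hl => log_one_sub (ht l hl).1 (ht l hl).2.1
  rw [sum_sub_distrib, sum_neg_distrib] at h15
  linarith

private theorem fac {p : ℕ} (hp : p.Prime) : (0 : ℝ) < 1 - 1 / (p : ℝ) ∧
    1 - 1 / (p : ℝ) ≤ 1 := by
  have h1 : (2 : ℝ) ≤ p := by exact_mod_cast hp.two_le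
  have h2 : 1 / (p : ℝ) ≤ 1 / 2 := one_div_le_one_div_of_le (by norm_num) h1
  have h3 : (0 : ℝ) ≤ 1 / (p : ℝ) := by positivity
  constructor <;> linarith

theorem V_pos (x : ℕ) : 0 < V x ∧ V x ≤ 1 := by
  unfold V
  constructor
  · exact prod_pos fun p hp => (fac (mem_filter.1 hp).2).1
  · exact prod_le_one (fun p hp => (fac (mem_filter.1 hp).2).1.le)
      fun p hp => (fac (mem_filter.1 hp).2).2

/-- bounds for `Z0` -/
private theorem Z0_ev : ∀ᶠ x : ℕ in Filter.atTop, 3 ≤ Z0 x ∧ 0 < LL x ∧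
    Real.log (Z0 x) ≤ 100 * LL x ∧ 100 * LL x ≤ Real.log ((Z0 x + 1 : ℕ) : ℝ) ∧
    Real.log ((Z0 x + 1 : ℕ) : ℝ) ≤ 101 * LL x := by
  filter_upwards [log_tend.eventually_ge_atTop 3, LL_tend.eventually_ge_atTop 1] with x h1 h2
  have h0 : 0 < Real.log x := by linarith
  have h3 : (3 : ℝ) ≤ Real.log x ^ 100 :=
    h1.trans (le_self_pow₀ (by linarith) (by norm_num))
  have h4 : 3 ≤ Z0 x := by
    unfold Z0
    exact Nat.le_floor (by exact_mod_cast h3)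
  have h5 : Real.log (Real.log x ^ 100) = 100 * LL x := by
    rw [Real.log_pow]; unfold LL; norm_num
  have h6 : (Z0 x : ℝ) ≤ Real.log x ^ 100 := Nat.floor_le (by positivity)
  have h7 : Real.log x ^ 100 < ((Z0 x + 1 : ℕ) : ℝ) := by
    push_cast
    exact Nat.lt_floor_add_one _
  have h8 : (0 : ℝ) < Z0 x := by exact_mod_cast (by omega : 0 < Z0 x)
  refine ⟨h4, by linarith, ?_, ?_, ?_⟩
  · rw [← h5]; exact Real.log_le_log h8 h6
  · rw [← h5]; exact Real.log_le_log (by positivity) h7.le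
  · have h9 : ((Z0 x + 1 : ℕ) : ℝ) ≤ 2 * Real.log x ^ 100 := by push_cast; linarith
    have h10 : Real.log ((Z0 x + 1 : ℕ) : ℝ) ≤ Real.log (2 * Real.log x ^ 100) :=
      Real.log_le_log (by positivity) h9
    rw [Real.log_mul (by norm_num) (by positivity), h5] at h10
    have h11 : Real.log 2 ≤ 1 := by
      have := Real.log_two_lt_d9
      linarith
    linarith

theorem V_low : ∃ c : ℝ, 0 < c ∧ ∃ x0 : ℕ, ∀ x : ℕ, x0 ≤ x → c / LL x ≤ V x := by
  obtain ⟨C, hC0, hC⟩ := sum_up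
  refine ⟨Real.exp (-C) / 100, by positivity, ?_⟩
  obtain ⟨x0, h⟩ := Filter.eventually_atTop.1 Z0_ev
  refine ⟨x0, fun x hx => ?_⟩
  obtain ⟨h3, hL, hlog, _, _⟩ := h x hx
  have h1 := hC (Z0 x) h3
  have hZ : 0 < Real.log (Z0 x) := Real.log_pos (by exact_mod_cast (by omega : 1 < Z0 x))
  have hset : (Icc 1 (Z0 x)).filter Nat.Prime = (Icc 2 (Z0 x)).filter Nat.Prime := by
    ext p
    rw [mem_filter, mem_filter, mem_Icc, mem_Icc]
    constructor
    · rintro ⟨⟨_, h5⟩, h6⟩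
      exact ⟨⟨h6.two_le, h5⟩, h6⟩
    · rintro ⟨⟨_, h5⟩, h6⟩
      exact ⟨⟨h6.one_lt.le, h5⟩, h6⟩
  have h4 : Real.exp (∑ p ∈ (Icc 2 (Z0 x)).filter Nat.Prime, Real.log (1 - 1 / (p : ℝ))) =
      V x := by
    unfold V
    rw [hset, Real.exp_sum]
    exact prod_congr rfl fun l hl => Real.exp_log (fac (mem_filter.1 hl).2).1
  rw [← h4]
  have h5 : -(Real.log (Real.log (Z0 x)) + C) ≤
      ∑ p ∈ (Icc 2 (Z0 x)).filter Nat.Prime, Real.log (1 - 1 / (p : ℝ)) := by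
    have h6 : ∑ p ∈ (Icc 2 (Z0 x)).filter Nat.Prime, -(1 / ((p : ℝ) - 1)) ≤
        ∑ p ∈ (Icc 2 (Z0 x)).filter Nat.Prime, Real.log (1 - 1 / (p : ℝ)) := by
      refine sum_le_sum fun p hp => ?_
      have hp' := (mem_filter.1 hp).2
      have h7 : (2 : ℝ) ≤ p := by exact_mod_cast hp'.two_le
      have h8 := Real.one_sub_inv_le_log_of_pos (fac hp').1
      refine le_trans (le_of_eq ?_) h8
      have h9 : (p : ℝ) ≠ 0 := by linarith
      have h10 : (p : ℝ) - 1 ≠ 0 := by linarith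
      have h11 : 1 - 1 / (p : ℝ) = ((p : ℝ) - 1) / p := by field_simp
      rw [h11, inv_div]
      field_simp
      ring
    rw [sum_neg_distrib] at h6
    linarith
  refine le_trans ?_ (Real.exp_le_exp.2 h5)
  have h12 : Real.exp (-(Real.log (Real.log (Z0 x)) + C)) =
      Real.exp (-C) / Real.log (Z0 x) := by
    have h13 : -(Real.log (Real.log (Z0 x)) + C) = -C - Real.log (Real.log (Z0 x)) := by ring
    rw [h13, Real.exp_sub, Real.exp_log hZ]
  rw [h12, div_div]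
  exact div_le_div_of_nonneg_left (Real.exp_pos _).le hZ hlog

theorem sumZ : ∃ C : ℝ, 0 < C ∧ ∃ x0 : ℕ, ∀ x : ℕ, x0 ≤ x →
    |∑ p ∈ (Icc 1 (Z0 x)).filter Nat.Prime, 1 / (p : ℝ) - LLL x| ≤ C := by
  obtain ⟨C, hC0, hC⟩ := Q38.mertens_two
  have hl101 : 0 < Real.log 101 := Real.log_pos (by norm_num)
  have hl100 : 0 < Real.log 100 := Real.log_pos (by norm_num)
  refine ⟨C + Real.log 101, by linarith, ?_⟩
  obtain ⟨x0, h⟩ := Filter.eventually_atTop.1 Z0_ev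
  refine ⟨x0, fun x hx => ?_⟩
  obtain ⟨h3, hL, _, hlo, hhi⟩ := h x hx
  have h1 := abs_le.1 (hC (Z0 x + 1) (by omega))
  rw [fsum_one] at h1
  have hset : (Icc 1 (Z0 x)).filter Nat.Prime = (range (Z0 x + 1)).filter Nat.Prime := by
    ext p
    rw [mem_filter, mem_filter, mem_Icc, mem_range]
    constructor
    · rintro ⟨⟨_, h5⟩, h6⟩
      exact ⟨by omega, h6⟩
    · rintro ⟨h5, h6⟩
      exact ⟨⟨h6.one_lt.le, by omega⟩, h6⟩
  rw [hset]
  have h4 : Real.log 100 + LLL x ≤ Real.log (Real.log ((Z0 x + 1 : ℕ) : ℝ)) := by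
    unfold LLL
    rw [← Real.log_mul (by norm_num) hL.ne']
    exact Real.log_le_log (by positivity) hlo
  have h5 : Real.log (Real.log ((Z0 x + 1 : ℕ) : ℝ)) ≤ Real.log 101 + LLL x := by
    unfold LLL
    rw [← Real.log_mul (by norm_num) hL.ne']
    exact Real.log_le_log (lt_of_lt_of_le (by positivity) hlo) hhi
  rw [abs_le]
  constructor <;> linarith [h1.1, h1.2]

end Pool.Agent.Lib.MP_79499b_co.DZ
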