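import Pool.Agent.Lib.MP_79499b_co.DZ.CBrun
import Pool.Agent.Lib.MP_79499b_co.DZ.CProd
import Pool.Agent.Lib.MP_79499b_co.DZ.CCrt

/-!
# Integers with given small part in residue classes (module CCls)

PROOF of `ns_class`. Write `n = d t`, `1 ≤ t`, `d t < x`; the conditions are `d t ≡ c [MOD q]` and
`p ∤ t` for all primes `p ≤ Z0 x`. Apply `brun` with `A = {t ∈ Icc 1 ((x-1)/d) : d t ≡ c [MOD q]}`,
`a = 1`, `P` = primes `≤ Z0 x`, `E p t : p ∣ t`, `A0 = x / (d q)`, `g p = 1/p`, `r = 2`: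
for a set `T` of primes `≤ Z0 x`, `d ∏ T` is coprime to `q` (all prime factors of `q` are `> Z0 x`), so
`∏ T ∣ t` and `d t ≡ c [MOD q]` is one residue class for `t` modulo `q ∏ T`, and the number of
`1 ≤ t ≤ (x-1)/d` in one class modulo `Q` is `x / (d Q) + θ`, `|θ| ≤ 2`.
Choose `R + 1 = k` with `8 (LLL x + C) ≤ k ≤ 9 LLL x + 10 C`, where `G = ∑ 1/p ≤ LLL x + C` (`sumZ`).
Then `G^k/k! ≤ exp (-k) ≤ exp (-8 LLL x) = (LL x)^(-8)` (`pow_div_fact`) and
`2 A0 (LL x)^(-8) ≤ (1/2) (LL x)^(-2) A0 V x` since `V x ≥ c / LL x` (`V_low`) and `x` is large.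
The error `(|P| + 1)^k 2 ≤ 2 ((log x)^100 + 1)^k ≤ exp ((200 LL x) k) ≤ x^(1/8)` (as `LL x * k =
O(LL x * LLL x) = o(log x)`) is at most `(1/2) (LL x)^(-2) A0 V x`, because
`A0 = x/(d q) ≥ x^(1/4) / (log x)^C`.
PROOF of `ns_pred`: sum `ns_class` over the `k` classes `c ∈ range q` with `Q c`.
-/

set_option autoImplicit false

open Finset
open scoped Classical

namespace Pool.Agent.Lib.MP_79499b_co.DZ

private lemma CCls_count (N r v : ℕ) (hr : 0 < r) :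
    |(((Icc 1 N).filter (fun t => t ≡ v [MOD r])).card : ℝ) - (N : ℝ) / r| ≤ 1 := by
  have h1 : (Icc 1 N) = Ioc 0 N := by
    ext t
    rw [mem_Icc, mem_Ioc]
    omega
  rw [h1]
  have h2 := Nat.Ioc_filter_modEq_card 0 N hr v
  have h3 : (((⌊((0 : ℕ) - (v : ℚ)) / (r : ℚ)⌋ : ℤ)) : ℚ) ≤ (⌊((N : ℕ) - (v : ℚ)) / (r : ℚ)⌋ : ℤ) := by
    have : (⌊((0 : ℕ) - (v : ℚ)) / (r : ℚ)⌋ : ℤ) ≤ (⌊((N : ℕ) - (v : ℚ)) / (r : ℚ)⌋ : ℤ) := by
      apply Int.floor_le_floor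
      gcongr
      exact Nat.zero_le N
    exact_mod_cast this
  have h3' : (⌊((0 : ℕ) - (v : ℚ)) / (r : ℚ)⌋ : ℤ) ≤ (⌊((N : ℕ) - (v : ℚ)) / (r : ℚ)⌋ : ℤ) := by
    exact_mod_cast h3
  rw [max_eq_left (by omega)] at h2
  have e1 := Int.floor_le (((N : ℕ) - (v : ℚ)) / (r : ℚ))
  have e2 := Int.lt_floor_add_one (((N : ℕ) - (v : ℚ)) / (r : ℚ))
  have e3 := Int.floor_le (((0 : ℕ) - (v : ℚ)) / (r : ℚ))
  have e4 := Int.lt_floor_add_one (((0 : ℕ) - (v : ℚ)) / (r : ℚ))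
  have e5 : ((((Ioc 0 N).filter (fun t => t ≡ v [MOD r])).card : ℕ) : ℚ) =
      (⌊((N : ℕ) - (v : ℚ)) / (r : ℚ)⌋ : ℤ) - (⌊((0 : ℕ) - (v : ℚ)) / (r : ℚ)⌋ : ℤ) := by
    have := congrArg (fun z : ℤ => (z : ℚ)) h2
    simp only [Int.cast_natCast, Int.cast_sub] at this
    convert this using 1
  have hr' : (0 : ℚ) < r := by exact_mod_cast hr
  have e6 : ((N : ℕ) - (v : ℚ)) / (r : ℚ) - ((0 : ℕ) - (v : ℚ)) / (r : ℚ) = (N : ℚ) / r := by
    rw [← sub_div]
    congr 1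
    push_cast
    ring
  have e7 : |((((Ioc 0 N).filter (fun t => t ≡ v [MOD r])).card : ℕ) : ℚ) - (N : ℚ) / r| ≤ 1 := by
    rw [abs_le, e5, ← e6]
    constructor <;> linarith
  have e8 : ((|((((Ioc 0 N).filter (fun t => t ≡ v [MOD r])).card : ℕ) : ℚ) - (N : ℚ) / r| : ℚ) : ℝ) ≤
      ((1 : ℚ) : ℝ) := Rat.cast_le.mpr e7
  simpa only [Rat.cast_abs, Rat.cast_sub, Rat.cast_div, Rat.cast_natCast, Rat.cast_one] using e8

private lemma CCls_bij (x d q c : ℕ) (hd : 1 ≤ d) (hx : 1 ≤ x) (E : ℕ → ℕ → Prop)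
    (hE : ∀ p t, E p t ↔ p ∣ t) :
    cnt x (fun n => NS x d n ∧ n ≡ c [MOD q]) =
      ∑ _t ∈ ((Icc 1 ((x - 1) / d)).filter (fun t => d * t ≡ c [MOD q])).filter
        (fun t => ∀ p ∈ (Icc 1 (Z0 x)).filter Nat.Prime, ¬ E p t), (1 : ℝ) := by
  simp only [hE]
  rw [sum_const, nsmul_eq_mul, mul_one]
  unfold cnt
  rw [Nat.cast_inj]
  refine card_nbij' (fun n => n / d) (fun t => d * t) ?_ ?_ ?_ ?_
  · intro n hn
    simp only [coe_filter, mem_range, Set.mem_ofPred_eq, mem_filter, mem_Icc] at hn ⊢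
    obtain ⟨hn, ⟨hn0, ⟨t, rfl⟩, hp⟩, hc⟩ := hn
    rw [Nat.mul_div_cancel_left t (by omega)] at hp ⊢
    refine ⟨⟨⟨?_, ?_⟩, hc⟩, ?_⟩
    · rcases Nat.eq_zero_or_pos t with h | h
      · rw [h, mul_zero] at hn0
        exact absurd rfl hn0
      · exact h
    · rw [Nat.le_div_iff_mul_le (by omega), mul_comm]
      omega
    · intro p hp'
      exact hp p hp'.2 hp'.1.2
  · intro t ht
    simp only [coe_filter, mem_range, Set.mem_ofPred_eq, mem_filter, mem_Icc] at ht ⊢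
    obtain ⟨⟨⟨h1, h2⟩, hc⟩, hp⟩ := ht
    rw [Nat.le_div_iff_mul_le (by omega), mul_comm] at h2
    refine ⟨by omega, ⟨?_, ⟨t, rfl⟩, ?_⟩, hc⟩
    · exact Nat.mul_ne_zero (by omega) (by omega)
    · intro p hp1 hp2
      rw [Nat.mul_div_cancel_left t (by omega)]
      exact hp p ⟨⟨hp1.one_lt.le, hp2⟩, hp1⟩
  · intro n hn
    simp only [coe_filter, mem_range, Set.mem_ofPred_eq] at hn
    exact Nat.mul_div_cancel' hn.2.1.2.1
  · intro t _
    exact Nat.mul_div_cancel_left t (by omega)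

private lemma CCls_class (d q c m : ℕ) (hdq : d.Coprime q) (hmq : m.Coprime q) :
    ∃ v : ℕ, ∀ t : ℕ, (d * t ≡ c [MOD q] ∧ m ∣ t) ↔ t ≡ v [MOD m * q] := by
  obtain ⟨d', hd'⟩ : ∃ d' : ℕ, d * d' ≡ 1 [MOD q] := by
    rcases Nat.lt_or_ge 1 q with h | h
    · obtain ⟨e, _, he⟩ := Nat.exists_mul_mod_eq_one_of_coprime hdq h
      refine ⟨e, ?_⟩
      rw [Nat.ModEq, he, Nat.mod_eq_of_lt h]
    · interval_cases q
      · refine ⟨1, ?_⟩
        have : d = 1 := by simpa using hdq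
        rw [this]
      · exact ⟨1, Nat.modEq_one⟩
  have hv := (Nat.chineseRemainder hmq 0 (d' * c)).2
  refine ⟨(Nat.chineseRemainder hmq 0 (d' * c) : ℕ), fun t => ?_⟩
  rw [← Nat.modEq_and_modEq_iff_modEq_mul hmq]
  have h1 : d * t ≡ c [MOD q] ↔ t ≡ d' * c [MOD q] := by
    constructor
    · intro h
      have h2 : d' * (d * t) ≡ d' * c [MOD q] := Nat.ModEq.mul_left _ h
      refine Nat.ModEq.trans ?_ h2
      have h3 : d * d' * t ≡ 1 * t [MOD q] := Nat.ModEq.mul_right _ hd'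
      rw [one_mul] at h3
      rw [show d' * (d * t) = d * d' * t by ring]
      exact h3.symm
    · intro h
      have h2 : d * t ≡ d * (d' * c) [MOD q] := Nat.ModEq.mul_left _ h
      refine h2.trans ?_
      have h3 : d * d' * c ≡ 1 * c [MOD q] := Nat.ModEq.mul_right _ hd'
      rw [one_mul] at h3
      rw [show d * (d' * c) = d * d' * c by ring]
      exact h3
  have h2 : m ∣ t ↔ t ≡ 0 [MOD m] := (Nat.modEq_zero_iff_dvd).symm
  rw [h1, h2]
  constructor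
  · rintro ⟨a, b⟩
    exact ⟨b.trans hv.1.symm, a.trans hv.2.symm⟩
  · rintro ⟨a, b⟩
    exact ⟨b.trans hv.2, a.trans hv.1⟩

private lemma CCls_prod (T : Finset ℕ) (hT : ∀ p ∈ T, p.Prime) (t : ℕ) :
    (∀ p ∈ T, p ∣ t) ↔ (∏ p ∈ T, p) ∣ t := by
  constructor
  · intro h
    exact Finset.prod_primes_dvd t (fun p hp => (hT p hp).prime) h
  · intro h p hp
    exact (Finset.dvd_prod_of_mem _ hp).trans h

private lemma CCls_local (x d q c : ℕ) (hd : 1 ≤ d) (hx : 1 ≤ x) (hq : 1 ≤ q)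
    (hdp : ∀ p : ℕ, p.Prime → p ∣ d → p ≤ Z0 x) (hqp : ∀ p : ℕ, p.Prime → p ∣ q → Z0 x < p)
    (T : Finset ℕ) (hT : T ⊆ (Icc 1 (Z0 x)).filter Nat.Prime) (E : ℕ → ℕ → Prop)
    (hE : ∀ p t, E p t ↔ p ∣ t) :
    |∑ _t ∈ ((Icc 1 ((x - 1) / d)).filter (fun t => d * t ≡ c [MOD q])).filter
        (fun t => ∀ p ∈ T, E p t), (1 : ℝ) - (x : ℝ) / (d * q) * ∏ p ∈ T, (1 / (p : ℝ))| ≤ 2 := by
  have hTp : ∀ p ∈ T, p.Prime := fun p hp => (mem_filter.mp (hT hp)).2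
  have hTz : ∀ p ∈ T, p ≤ Z0 x := fun p hp => (mem_Icc.mp (mem_filter.mp (hT hp)).1).2
  have hdq : d.Coprime q := by
    refine Nat.coprime_of_dvd ?_
    intro p hp h1 h2
    exact absurd (hdp p hp h1) (not_le.mpr (hqp p hp h2))
  have hmq : (∏ p ∈ T, p).Coprime q := by
    refine Nat.Coprime.prod_left ?_
    intro p hp
    rw [(hTp p hp).coprime_iff_not_dvd]
    intro h
    exact absurd (hTz p hp) (not_le.mpr (hqp p (hTp p hp) h))
  obtain ⟨v, hv⟩ := CCls_class d q c _ hdq hmq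
  have hm : 0 < ∏ p ∈ T, p := prod_pos fun p hp => (hTp p hp).pos
  have hset : ((Icc 1 ((x - 1) / d)).filter (fun t => d * t ≡ c [MOD q])).filter
        (fun t => ∀ p ∈ T, E p t) =
      (Icc 1 ((x - 1) / d)).filter (fun t => t ≡ v [MOD (∏ p ∈ T, p) * q]) := by
    ext t
    rw [mem_filter, mem_filter, mem_filter, ← hv t, ← CCls_prod T hTp t, and_assoc]
    simp only [hE]
  rw [hset, sum_const, nsmul_eq_mul, mul_one]
  have h1 := CCls_count ((x - 1) / d) ((∏ p ∈ T, p) * q) v (Nat.mul_pos hm (by omega))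
  have hd' : (1 : ℝ) ≤ d := by exact_mod_cast hd
  have hq' : (1 : ℝ) ≤ q := by exact_mod_cast hq
  have hm' : (1 : ℝ) ≤ ((∏ p ∈ T, p : ℕ) : ℝ) := by exact_mod_cast hm
  have h2 : (((x - 1) / d : ℕ) : ℝ) ≤ (x : ℝ) / d := by
    refine (Nat.cast_div_le).trans ?_
    have : ((x - 1 : ℕ) : ℝ) ≤ x := by exact_mod_cast Nat.sub_le x 1
    gcongr
  have h3 : (x : ℝ) / d - 1 ≤ (((x - 1) / d : ℕ) : ℝ) := by
    have h4 : x ≤ d * ((x - 1) / d) + d := by
      have h5 := Nat.div_add_mod (x - 1) d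
      have h6 := Nat.mod_lt (x - 1) (show 0 < d by omega)
      omega
    have h5 : (x : ℝ) ≤ d * (((x - 1) / d : ℕ) : ℝ) + d := by exact_mod_cast h4
    rw [sub_le_iff_le_add, div_le_iff₀ (by linarith)]
    linarith
  have h4 : (x : ℝ) / (d * q) * ∏ p ∈ T, (1 / (p : ℝ)) =
      (x : ℝ) / d / (((∏ p ∈ T, p) * q : ℕ) : ℝ) := by
    rw [prod_div_distrib, prod_const_one]
    push_cast
    field_simp
  rw [h4]
  have hM : (1 : ℝ) ≤ (((∏ p ∈ T, p) * q : ℕ) : ℝ) := by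
    rw [Nat.cast_mul]
    exact one_le_mul_of_one_le_of_one_le hm' hq'
  set M : ℝ := (((∏ p ∈ T, p) * q : ℕ) : ℝ) with hMdef
  have h5 : |(((x - 1) / d : ℕ) : ℝ) / M - (x : ℝ) / d / M| ≤ 1 := by
    rw [← sub_div, abs_div, abs_of_pos (show (0 : ℝ) < M by linarith), div_le_one (by linarith)]
    refine le_trans ?_ hM
    rw [abs_le]
    constructor <;> linarith
  have := abs_sub_le (((Icc 1 ((x - 1) / d)).filter (fun t => t ≡ v [MOD (∏ p ∈ T, p) * q])).card : ℝ)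
    ((((x - 1) / d : ℕ) : ℝ) / M) ((x : ℝ) / d / M)
  linarith

private lemma CCls_ev (C : ℕ) (C1 c : ℝ) (hC1 : 0 < C1) (hc : 0 < c) :
    ∀ᶠ L : ℝ in Filter.atTop, 2 ≤ L ∧ 1 ≤ Real.log L ∧ 4 ≤ c * Real.log L ^ 5 ∧
      101 * ((8 * (Real.log (Real.log L) + C1) + 1) * Real.log L) ≤ L / 16 ∧
      C * Real.log L ≤ L / 16 ∧ 4 * Real.log L ^ 3 ≤ c * Real.exp (L / 16) := by
  have hlog := Real.tendsto_log_atTop
  have h1 : ∀ᶠ L : ℝ in Filter.atTop, 1 ≤ Real.log L := hlog.eventually_ge_atTop 1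
  have h2 : ∀ᶠ L : ℝ in Filter.atTop, 4 / c ≤ Real.log L := hlog.eventually_ge_atTop _
  have h3 : ∀ᶠ L : ℝ in Filter.atTop, ‖Real.log L ^ 2‖ ≤ (1 / (16 * 101 * (8 * (1 + C1) + 1))) * ‖(id L : ℝ)‖ :=
    (Real.isLittleO_pow_log_id_atTop (n := 2)).bound (by positivity)
  have h4 : ∀ᶠ L : ℝ in Filter.atTop, ‖Real.log L ^ 1‖ ≤ (1 / (16 * ((C : ℝ) + 1))) * ‖(id L : ℝ)‖ :=
    (Real.isLittleO_pow_log_id_atTop (n := 1)).bound (by positivity)
  have h5 : ∀ᶠ L : ℝ in Filter.atTop, ‖Real.log L ^ 3‖ ≤ (c / 64) * ‖(id L : ℝ)‖ :=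
    (Real.isLittleO_pow_log_id_atTop (n := 3)).bound (by positivity)
  filter_upwards [Filter.eventually_ge_atTop 2, h1, h2, h3, h4, h5] with L hL e1 e2 e3 e4 e5
  have hl0 : 0 < Real.log L := by linarith
  have hL0 : 0 < L := by linarith
  simp only [id, Real.norm_eq_abs, abs_of_pos hL0, pow_one] at e3 e4 e5
  rw [abs_of_pos (by positivity)] at e3 e4 e5
  refine ⟨hL, e1, ?_, ?_, ?_, ?_⟩
  · have : 4 ≤ c * Real.log L := by
      rw [div_le_iff₀ hc] at e2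
      linarith
    have h6 : Real.log L ≤ Real.log L ^ 5 := by
      calc Real.log L = Real.log L ^ 1 := (pow_one _).symm
        _ ≤ Real.log L ^ 5 := pow_le_pow_right₀ e1 (by norm_num)
    nlinarith
  · have h6 : Real.log (Real.log L) ≤ Real.log L := by
      have := Real.log_le_sub_one_of_pos hl0
      linarith
    have h7 : (8 * (Real.log (Real.log L) + C1) + 1) ≤ (8 * (1 + C1) + 1) * Real.log L := by
      nlinarith
    calc 101 * ((8 * (Real.log (Real.log L) + C1) + 1) * Real.log L) ≤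
          101 * (((8 * (1 + C1) + 1) * Real.log L) * Real.log L) := by gcongr
      _ = 101 * (8 * (1 + C1) + 1) * Real.log L ^ 2 := by ring
      _ ≤ 101 * (8 * (1 + C1) + 1) * (1 / (16 * 101 * (8 * (1 + C1) + 1)) * L) := by gcongr
      _ = L / 16 := by field_simp
  · calc (C : ℝ) * Real.log L ≤ ((C : ℝ) + 1) * (1 / (16 * ((C : ℝ) + 1)) * L) := by
          gcongr
          linarith
      _ = L / 16 := by field_simp
  · have h6 : L / 16 ≤ Real.exp (L / 16) := by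
      have := Real.add_one_le_exp (L / 16)
      linarith
    calc 4 * Real.log L ^ 3 ≤ 4 * (c / 64 * L) := by gcongr
      _ = c * (L / 16) := by ring
      _ ≤ c * Real.exp (L / 16) := by gcongr

private lemma CCls_fin (L C1 c : ℝ) (C : ℕ) (hC1 : 0 < C1) (hc : 0 < c) (h2 : 2 ≤ L)
    (h1 : 1 ≤ Real.log L) (h3 : 4 ≤ c * Real.log L ^ 5)
    (h4 : 101 * ((8 * (Real.log (Real.log L) + C1) + 1) * Real.log L) ≤ L / 16)
    (h5 : C * Real.log L ≤ L / 16) (h6 : 4 * Real.log L ^ 3 ≤ c * Real.exp (L / 16))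
    (d q V N E : ℝ) (k : ℕ) (hd : 1 ≤ d) (hq : 1 ≤ q) (hdL : d ≤ L ^ C)
    (hqL : q ≤ Real.exp (3 / 4 * L)) (hV : c / Real.log L ≤ V)
    (hk1 : 8 * (Real.log (Real.log L) + C1) ≤ k)
    (hk2 : (k : ℝ) ≤ 8 * (Real.log (Real.log L) + C1) + 1)
    (hN0 : 0 ≤ N) (hN : N ≤ L ^ 100) (hE : E ≤ Real.exp (-(k : ℝ))) :
    2 * (Real.exp L / (d * q)) * E + (N + 1) ^ k * 2 ≤
      1 / Real.log L ^ 2 * (Real.exp L / (d * q) * V) := by
  have hl0 : 0 < Real.log L := by linarith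
  have hL0 : 0 < L := by linarith
  have hA0 : 0 < Real.exp L / (d * q) := by positivity
  set A0 := Real.exp L / (d * q) with hA0def
  set l := Real.log L with hl
  have e1 : 2 * A0 * E ≤ 1 / 2 * (1 / l ^ 2 * (A0 * V)) := by
    have f1 : E ≤ 1 / l ^ 8 := by
      refine hE.trans ?_
      have : Real.exp (-(k : ℝ)) ≤ Real.exp (-(((8 : ℕ) : ℝ) * Real.log l)) := by
        apply Real.exp_le_exp.mpr
        push_cast
        linarith
      refine this.trans (le_of_eq ?_)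
      rw [Real.exp_neg, Real.exp_nat_mul, Real.exp_log hl0, one_div]
    calc 2 * A0 * E ≤ 2 * A0 * (1 / l ^ 8) := by gcongr
      _ = 1 / 2 * (1 / l ^ 2 * (A0 * (4 / l ^ 5 / l))) := by
          field_simp
          ring
      _ ≤ 1 / 2 * (1 / l ^ 2 * (A0 * (c / l))) := by
          gcongr
          rw [div_le_iff₀ (by positivity)]
          exact h3
      _ ≤ 1 / 2 * (1 / l ^ 2 * (A0 * V)) := by gcongr
  have e2 : (N + 1) ^ k * 2 ≤ 1 / 2 * (1 / l ^ 2 * (A0 * V)) := by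
    have f1 : (N + 1) ^ k ≤ Real.exp (L / 16) := by
      have g1 : N + 1 ≤ L ^ 101 := by
        have : (1 : ℝ) ≤ L ^ 100 := one_le_pow₀ (by linarith)
        have : L ^ 101 = L * L ^ 100 := by ring
        nlinarith
      have g2 : L ^ 101 = Real.exp (101 * l) := by
        have := Real.exp_nat_mul l 101
        rw [hl, Real.exp_log hL0, ← hl] at this
        rw [← this]
        norm_num
      calc (N + 1) ^ k ≤ (Real.exp (101 * l)) ^ k := by
            rw [← g2]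
            gcongr
        _ = Real.exp (k * (101 * l)) := (Real.exp_nat_mul _ _).symm
        _ ≤ Real.exp (L / 16) := by
            apply Real.exp_le_exp.mpr
            refine le_trans ?_ h4
            calc (k : ℝ) * (101 * l) ≤ (8 * (Real.log l + C1) + 1) * (101 * l) := by gcongr
              _ = 101 * ((8 * (Real.log l + C1) + 1) * l) := by ring
    have f2 : Real.exp (3 * (L / 16)) ≤ A0 := by
      rw [hA0def, le_div_iff₀ (by positivity)]
      have g1 : d ≤ Real.exp (L / 16) := by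
        refine hdL.trans ?_
        have : L ^ C = Real.exp (C * l) := by
          rw [Real.exp_nat_mul, hl, Real.exp_log hL0]
        rw [this]
        exact Real.exp_le_exp.mpr h5
      calc Real.exp (3 * (L / 16)) * (d * q) ≤
            Real.exp (3 * (L / 16)) * (Real.exp (L / 16) * Real.exp (3 / 4 * L)) := by gcongr
        _ = Real.exp L := by
            rw [← Real.exp_add, ← Real.exp_add]
            congr 1
            ring
    have f3 : (1 : ℝ) ≤ Real.exp (L / 16) := Real.one_le_exp (by positivity)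
    have f4 : 4 * l ^ 3 * Real.exp (L / 16) ≤ A0 * c := by
      calc 4 * l ^ 3 * Real.exp (L / 16) ≤ c * Real.exp (L / 16) * Real.exp (L / 16) := by gcongr
        _ = (Real.exp (L / 16) * Real.exp (L / 16) * 1) * c := by ring
        _ ≤ (Real.exp (L / 16) * Real.exp (L / 16) * Real.exp (L / 16)) * c := by gcongr
        _ = Real.exp (3 * (L / 16)) * c := by
            rw [← Real.exp_add, ← Real.exp_add]
            congr 2
            ring
        _ ≤ A0 * c := by gcongr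
    calc (N + 1) ^ k * 2 ≤ Real.exp (L / 16) * 2 := by gcongr
      _ = 1 / 2 * (1 / l ^ 2 * (4 * l ^ 3 * Real.exp (L / 16) / l)) := by
          field_simp
          ring
      _ ≤ 1 / 2 * (1 / l ^ 2 * (A0 * c / l)) := by gcongr
      _ = 1 / 2 * (1 / l ^ 2 * (A0 * (c / l))) := by ring
      _ ≤ 1 / 2 * (1 / l ^ 2 * (A0 * V)) := by gcongr
  linarith

theorem ns_class (C : ℕ) : ∃ x0 : ℕ, ∀ x : ℕ, x0 ≤ x → ∀ d : ℕ, 1 ≤ d →
    (∀ p : ℕ, p.Prime → p ∣ d → p ≤ Z0 x) → (d : ℝ) ≤ Real.log x ^ C → ∀ q c : ℕ, 1 ≤ q →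
    (q : ℝ) ≤ (x : ℝ) ^ (3 / 4 : ℝ) → (∀ p : ℕ, p.Prime → p ∣ q → Z0 x < p) →
    |cnt x (fun n => NS x d n ∧ n ≡ c [MOD q]) - (x : ℝ) / (d * q) * V x| ≤
      1 / LL x ^ 2 * ((x : ℝ) / (d * q) * V x) := by
  obtain ⟨C1, hC1, x1, hx1⟩ := sumZ
  obtain ⟨c, hc, x2, hx2⟩ := V_low
  obtain ⟨x3, hx3⟩ := Filter.eventually_atTop.mp (log_tend.eventually (CCls_ev C C1 c hC1 hc))
  refine ⟨max (max x1 x2) (max x3 3), fun x hx d hd hdp hdL q a hq hqx hqp => ?_⟩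
  have hx1' := hx1 x ((le_max_left _ _).trans ((le_max_left _ _).trans hx))
  have hx2' := hx2 x ((le_max_right _ _).trans ((le_max_left _ _).trans hx))
  obtain ⟨h2, h1, h3, h4, h5, h6⟩ := hx3 x ((le_max_left _ _).trans ((le_max_right _ _).trans hx))
  have hx3' : 3 ≤ x := (le_max_right _ _).trans ((le_max_right _ _).trans hx)
  have hx0 : (0 : ℝ) < x := by exact_mod_cast (show 0 < x by omega)
  have hexp : Real.exp (Real.log x) = x := Real.exp_log hx0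
  have hG := (abs_le.mp hx1').2
  have hG0 : 0 ≤ ∑ p ∈ (Icc 1 (Z0 x)).filter Nat.Prime, 1 / (p : ℝ) :=
    sum_nonneg fun _ _ => by positivity
  have hLLL0 : 0 ≤ Real.log (Real.log (Real.log x)) := Real.log_nonneg h1
  set B : ℝ := 8 * (Real.log (Real.log (Real.log x)) + C1) with hB
  have hB0 : 0 < B := by positivity
  obtain ⟨R, hR⟩ : ∃ R : ℕ, ⌈B⌉₊ = R + 1 := by
    have : 0 < ⌈B⌉₊ := Nat.ceil_pos.mpr hB0
    exact ⟨⌈B⌉₊ - 1, by omega⟩
  have hk1 : B ≤ ((R + 1 : ℕ) : ℝ) := by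
    rw [← hR]
    exact Nat.le_ceil B
  have hk2 : ((R + 1 : ℕ) : ℝ) ≤ B + 1 := by
    rw [← hR]
    exact (Nat.ceil_lt_add_one hB0.le).le
  obtain ⟨E, hE⟩ : ∃ E : ℕ → ℕ → Prop, ∀ p t, E p t ↔ p ∣ t :=
    ⟨fun p t => p ∣ t, fun _ _ => Iff.rfl⟩
  have hb := brun ((Icc 1 ((x - 1) / d)).filter (fun t => d * t ≡ a [MOD q])) (fun _ => (1 : ℝ))
    (fun _ _ => zero_le_one) ((Icc 1 (Z0 x)).filter Nat.Prime) E R
    ((x : ℝ) / (d * q)) (by positivity) (fun p => 1 / (p : ℝ)) (fun _ _ => by positivity)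
    (fun p hp => by
      have h : 1 ≤ p := (mem_filter.mp hp).2.one_lt.le
      have h' : (1 : ℝ) ≤ p := by exact_mod_cast h
      rw [div_le_one (by linarith)]
      exact h') 2 (by norm_num)
    (fun T hT _ => CCls_local x d q a hd (by omega) hq hdp hqp T hT E hE)
  refine le_trans (le_of_eq ?_) (hb.trans ?_)
  · rw [CCls_bij x d q a hd (by omega) E hE]
    congr 2
    exact sum_congr (by ext t; simp only [mem_filter]) (fun _ _ => rfl)
  have hE := pow_div_fact (∑ p ∈ (Icc 1 (Z0 x)).filter Nat.Prime, 1 / (p : ℝ)) hG0 (R + 1) (by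
    refine le_trans ?_ hk1
    rw [hB]
    have : LLL x = Real.log (Real.log (Real.log x)) := rfl
    rw [this] at hG
    linarith)
  have hN : ((((Icc 1 (Z0 x)).filter Nat.Prime).card : ℕ) : ℝ) ≤ Real.log x ^ 100 := by
    have e1 : ((Icc 1 (Z0 x)).filter Nat.Prime).card ≤ Z0 x := by
      refine (card_filter_le _ _).trans ?_
      simp
    have e2 : ((Z0 x : ℕ) : ℝ) ≤ Real.log x ^ 100 := Nat.floor_le (by positivity)
    exact (Nat.cast_le.mpr e1).trans e2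
  have hfin := CCls_fin (Real.log x) C1 c C hC1 hc h2 h1 h3 h4 h5 h6 d q (V x)
    ((((Icc 1 (Z0 x)).filter Nat.Prime).card : ℕ) : ℝ) _ (R + 1) (by exact_mod_cast hd)
    (by exact_mod_cast hq) hdL (by
      refine hqx.trans (le_of_eq ?_)
      rw [Real.rpow_def_of_pos hx0, mul_comm]) hx2' hk1 hk2 (Nat.cast_nonneg _) hN hE
  rw [hexp] at hfin
  exact hfin

private lemma CCls_sum_aux (x q : ℕ) (hq : 1 ≤ q) (S Q : ℕ → Prop) (hQ : Per q Q) (A : Finset ℕ)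
    (B : ℕ → Finset ℕ) (hA : ∀ n, n ∈ A ↔ n < x ∧ S n ∧ Q n)
    (hB : ∀ c n, n ∈ B c ↔ n < x ∧ S n ∧ n ≡ c [MOD q]) :
    A.card = ∑ c ∈ (range q).filter (fun n => Q n), (B c).card := by
  have h : A = ((range q).filter (fun n => Q n)).biUnion B := by
    ext n
    rw [hA, mem_biUnion]
    constructor
    · rintro ⟨h1, h2, h3⟩
      refine ⟨n % q, ?_, ?_⟩
      · rw [mem_filter, mem_range]
        exact ⟨Nat.mod_lt _ (by omega), (hQ n).mp h3⟩
      · rw [hB]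
        exact ⟨h1, h2, (Nat.mod_modEq n q).symm⟩
    · rintro ⟨c, h12, h34⟩
      rw [mem_filter, mem_range] at h12
      rw [hB] at h34
      obtain ⟨h1, h2⟩ := h12
      obtain ⟨h3, h4, h5⟩ := h34
      refine ⟨h3, h4, ?_⟩
      rw [Nat.ModEq, Nat.mod_eq_of_lt h1] at h5
      rw [hQ n, h5]
      exact h2
  rw [h, card_biUnion]
  intro a ha b hb hab
  rw [mem_coe, mem_filter, mem_range] at ha hb
  rw [Function.onFun, disjoint_left]
  intro n h1 h2
  rw [hB] at h1 h2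
  have h3 := h1.2.2
  have h4 := h2.2.2
  rw [Nat.ModEq, Nat.mod_eq_of_lt ha.1] at h3
  rw [Nat.ModEq, Nat.mod_eq_of_lt hb.1] at h4
  exact hab (h3.symm.trans h4)

private lemma CCls_sum (x q : ℕ) (hq : 1 ≤ q) (S Q : ℕ → Prop) (hQ : Per q Q) :
    cnt x (fun n => S n ∧ Q n) =
      ∑ c ∈ (range q).filter (fun n => Q n), cnt x (fun n => S n ∧ n ≡ c [MOD q]) := by
  unfold cnt
  rw [← Nat.cast_sum, Nat.cast_inj]
  exact CCls_sum_aux x q hq S Q hQ _ _ (fun n => by simp only [mem_filter, mem_range])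
    (fun c n => by simp only [mem_filter, mem_range])

theorem ns_pred (C : ℕ) : ∃ x0 : ℕ, ∀ x : ℕ, x0 ≤ x → ∀ d : ℕ, DOK C x d →
    ∀ q : ℕ, 1 ≤ q → (q : ℝ) ≤ (x : ℝ) ^ (3 / 4 : ℝ) →
    (∀ p : ℕ, p.Prime → p ∣ q → Z0 x < p) → ∀ Q : ℕ → Prop, Per q Q →
    |cnt x (fun n => NS x d n ∧ Q n) - (x : ℝ) / d * V x * (nc q Q / q)| ≤
      1 / LL x ^ 2 * ((x : ℝ) / d * V x * (nc q Q / q)) := by
  obtain ⟨x0, hx0⟩ := ns_class C
  refine ⟨x0, fun x hx d hd q hq hqx hqp Q hQ => ?_⟩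
  rw [CCls_sum x q hq (NS x d) Q hQ]
  have hq' : (0 : ℝ) < q := by exact_mod_cast (show 0 < q by omega)
  have hd' : (0 : ℝ) < d := by exact_mod_cast (show 0 < d from hd.1)
  have h1 : (x : ℝ) / d * V x * (nc q Q / q) =
      ∑ c ∈ (range q).filter (fun n => Q n), (x : ℝ) / (d * q) * V x := by
    rw [sum_const, nsmul_eq_mul]
    unfold nc
    field_simp
  rw [h1, ← sum_sub_distrib, mul_sum]
  refine (abs_sum_le_sum_abs _ _).trans (sum_le_sum fun c _ => ?_)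
  exact hx0 x hx d hd.1 hd.2.1 hd.2.2.1 q c hq hqx hqp

end Pool.Agent.Lib.MP_79499b_co.DZ
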