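import Pool.Agent.Lib.MP_79499b_co.DZ.LD

/-!
# DZ, part (C): definitions of the frame

`LLL x = log log log x`. A `WT` is a type of auxiliary primes: `w ≡ h [MOD M]`; then `c ∣ w - 1`,
`(w - 1)/c` is prime to `M`, and the condition on `n` is `orderOf (n : ZMod w) = e`.
`NS x d n`: the part of `n` composed of primes `≤ Z0 x` is `d`. `DOK C x d`: `d` is a typical such part.
`WS τ x d`: the primes `w` of the range of type `τ` such that all `p ∣ d`, `p ∤ M`, are nonresidues mod `w`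
and `w - 1` has no prime factor `≤ yy x` outside `M`.
-/

set_option autoImplicit false

open Finset
open scoped Classical

namespace Pool.Agent.Lib.MP_79499b_co.DZ

/-- `log log log x` -/
noncomputable def LLL (x : ℕ) : ℝ := Real.log (LL x)

/-- the density of the integers without prime factors `≤ Z0 x` -/
noncomputable def V (x : ℕ) : ℝ := ∏ p ∈ (Icc 1 (Z0 x)).filter Nat.Prime, (1 - 1 / (p : ℝ))

/-- A type of auxiliary primes. -/
structure WT where
  (M h c e : ℕ)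
  hM : 4 ∣ M
  hM0 : 0 < M
  hh : h.Coprime M
  h3 : 3 ∣ M ∨ h % 4 = 1
  hc : 0 < c
  hcM : ∀ l : ℕ, l.Prime → l ∣ c → l ∣ M
  shape : ∀ w : ℕ, w.Prime → w ≡ h [MOD M] →
    c ∣ w - 1 ∧ ∀ l : ℕ, l.Prime → l ∣ M → ¬ c * l ∣ w - 1
  he : 2 ≤ e
  hec : e ∣ c

/-- the condition on `n` for the prime `w` of type `τ` -/
def Rt (τ : WT) (w n : ℕ) : Prop := orderOf (n : ZMod w) = τ.e

/-- the part of `n` composed of primes `≤ Z0 x` is `d` -/
def NS (x d n : ℕ) : Prop := n ≠ 0 ∧ d ∣ n ∧ ∀ p : ℕ, p.Prime → p ≤ Z0 x → ¬ p ∣ n / d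

/-- `d` is a typical small part (composed of primes `≤ Z0 x`, at most `(log x)^C`, with at most
`(6/5) log log log x` prime factors) -/
def DOK (C x d : ℕ) : Prop :=
  1 ≤ d ∧ (∀ p : ℕ, p.Prime → p ∣ d → p ≤ Z0 x) ∧ (d : ℝ) ≤ Real.log x ^ C ∧
    (d.primeFactors.card : ℝ) ≤ 6 / 5 * LLL x

/-- the admissible primes `w` for the small part `d` -/
noncomputable def WS (τ : WT) (x d : ℕ) : Finset ℕ :=
  (RR x).filter (fun w => w ≡ τ.h [MOD τ.M] ∧
    (∀ p : ℕ, p.Prime → p ∣ d → ¬ p ∣ τ.M → ¬ IsSquare (p : ZMod w)) ∧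
    ∀ l : ℕ, l.Prime → l ≤ yy x → ¬ l ∣ τ.M → ¬ l ∣ w - 1)

/-- expected number of admissible `w` with `Rt τ w n` -/
noncomputable def mu (τ : WT) (x d : ℕ) : ℝ := ∑ w ∈ WS τ x d, (τ.e.totient : ℝ) / w

/-- `Q` is periodic with period `q` -/
def Per (q : ℕ) (Q : ℕ → Prop) : Prop := ∀ n : ℕ, Q n ↔ Q (n % q)

/-- number of classes modulo `q` satisfying `Q` -/
noncomputable def nc (q : ℕ) (Q : ℕ → Prop) : ℕ := ((range q).filter (fun n => Q n)).card

end Pool.Agent.Lib.MP_79499b_co.DZ
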