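import Pool.Agent.Lib.MP_79499b_co.DZ.CDefs

/-!
# Classes modulo `p` for which `p` is a nonresidue (module CLoc)

PROOF. Let `p` be an odd prime, `u` coprime to `p`, `w` an odd prime, `w ≡ u [MOD p]`,
`w ≡ h [MOD 4]`; then `w ≠ p`. Quadratic reciprocity (`legendreSym.quadratic_reciprocity'` or
`ZMod.exists_sq_eq_prime_iff_of_mod_four_eq_one / _three`): `p` is a square mod `w` iff
(if `p % 4 = 1` or `h % 4 = 1`) `u` is a square mod `p`, (if `p % 4 = 3` and `h % 4 = 3`) `u` is not a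
square mod `p`. So `GG h p` contains all nonsquares `u` mod `p` in the first case, all squares
`u ≠ 0, 1` in the second case. There are `(p-1)/2` nonsquares and `(p-1)/2` nonzero squares
(`FiniteField`/`ZMod`: `legendreSym` sums to zero, or `x ↦ x^2` is 2 to 1), and `1` is a square.
-/

set_option autoImplicit false

open Finset
open scoped Classical

namespace Pool.Agent.Lib.MP_79499b_co.DZ


/-- classes `u ≠ 1` mod `p` such that `p` is a nonresidue modulo all primes `w ≡ u [MOD p]`,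
`w ≡ h [MOD 4]` -/
noncomputable def GG (h p : ℕ) : Finset ℕ :=
  (range p).filter (fun u => u.Coprime p ∧ u ≠ 1 ∧
    ∀ w : ℕ, w.Prime → w ≡ u [MOD p] → w ≡ h [MOD 4] → ¬ IsSquare ((p : ℕ) : ZMod w))

private theorem CLoc_sum (p : ℕ) [Fact p.Prime] (f : ZMod p → ℤ) :
    ∑ u ∈ range p, f ((u : ℕ) : ZMod p) = ∑ a : ZMod p, f a := by
  haveI : NeZero p := ⟨(Fact.out : p.Prime).ne_zero⟩
  refine Finset.sum_bij' (fun u _ => ((u : ℕ) : ZMod p)) (fun a _ => a.val) (fun _ _ => mem_univ _)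
    (fun a _ => mem_range.mpr a.val_lt) ?_ ?_ (fun _ _ => rfl)
  · intro u hu
    exact ZMod.val_natCast_of_lt (mem_range.mp hu)
  · intro a _
    rw [ZMod.natCast_val, ZMod.cast_id', id]

private theorem CLoc_card (p : ℕ) (S : Finset ℕ) (hS : S ⊆ range p) :
    (S.card : ℤ) = ∑ u ∈ range p, if u ∈ S then (1 : ℤ) else 0 := by
  rw [Finset.sum_ite_mem, Finset.inter_eq_right.mpr hS]
  simp

private theorem CLoc_countN (p : ℕ) (hp : p.Prime) (hp2 : p ≠ 2) (S : Finset ℕ)
    (hS : ∀ u, u ∈ S ↔ u ∈ range p ∧ ¬ IsSquare ((u : ℕ) : ZMod p)) : 2 * S.card + 1 = p := by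
  haveI := Fact.mk hp
  have hchar : ringChar (ZMod p) ≠ 2 := by rwa [ZMod.ringChar_zmod_n]
  have h0 : ∑ u ∈ range p, quadraticChar (ZMod p) ((u : ℕ) : ZMod p) = 0 := by
    rw [CLoc_sum p (fun a => quadraticChar (ZMod p) a)]
    exact quadraticChar_sum_zero hchar
  have h1 : ∑ u ∈ range p, (if ((u : ℕ) : ZMod p) = 0 then (1 : ℤ) else 0) = 1 := by
    rw [CLoc_sum p (fun a => if a = 0 then (1 : ℤ) else 0)]
    simp
  have hc : ∑ _u ∈ range p, (1 : ℤ) = p := by simp
  have h2 : ∑ u ∈ range p, (1 - quadraticChar (ZMod p) ((u : ℕ) : ZMod p) -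
      (if ((u : ℕ) : ZMod p) = 0 then (1 : ℤ) else 0)) = 2 * (S.card : ℤ) := by
    rw [CLoc_card p S (fun u hu => ((hS u).mp hu).1), mul_sum]
    refine sum_congr rfl fun u hu => ?_
    by_cases hz : ((u : ℕ) : ZMod p) = 0
    · have hn : u ∉ S := fun h => ((hS u).mp h).2 (by rw [hz]; exact ⟨0, by simp⟩)
      rw [if_neg hn, hz]
      simp
    · by_cases hs : IsSquare ((u : ℕ) : ZMod p)
      · have hn : u ∉ S := fun h => ((hS u).mp h).2 hs
        rw [(quadraticChar_one_iff_isSquare hz).mpr hs, if_neg hn, if_neg hz]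
        norm_num
      · have hn : u ∈ S := (hS u).mpr ⟨hu, hs⟩
        rw [quadraticChar_neg_one_iff_not_isSquare.mpr hs, if_pos hn, if_neg hz]
        norm_num
  rw [sum_sub_distrib, sum_sub_distrib, h0, h1, hc] at h2
  omega

private theorem CLoc_countS (p : ℕ) (hp : p.Prime) (hp2 : p ≠ 2) (S : Finset ℕ)
    (hS : ∀ u, u ∈ S ↔ u ∈ range p ∧ ((u : ℕ) : ZMod p) ≠ 0 ∧ IsSquare ((u : ℕ) : ZMod p)) :
    2 * S.card + 1 = p := by
  haveI := Fact.mk hp
  have hchar : ringChar (ZMod p) ≠ 2 := by rwa [ZMod.ringChar_zmod_n]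
  have h0 : ∑ u ∈ range p, quadraticChar (ZMod p) ((u : ℕ) : ZMod p) = 0 := by
    rw [CLoc_sum p (fun a => quadraticChar (ZMod p) a)]
    exact quadraticChar_sum_zero hchar
  have h1 : ∑ u ∈ range p, (if ((u : ℕ) : ZMod p) = 0 then (1 : ℤ) else 0) = 1 := by
    rw [CLoc_sum p (fun a => if a = 0 then (1 : ℤ) else 0)]
    simp
  have hc : ∑ _u ∈ range p, (1 : ℤ) = p := by simp
  have h2 : ∑ u ∈ range p, (1 + quadraticChar (ZMod p) ((u : ℕ) : ZMod p) -
      (if ((u : ℕ) : ZMod p) = 0 then (1 : ℤ) else 0)) = 2 * (S.card : ℤ) := by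
    rw [CLoc_card p S (fun u hu => ((hS u).mp hu).1), mul_sum]
    refine sum_congr rfl fun u hu => ?_
    by_cases hz : ((u : ℕ) : ZMod p) = 0
    · have hn : u ∉ S := fun h => ((hS u).mp h).2.1 hz
      rw [if_neg hn, hz]
      simp
    · by_cases hs : IsSquare ((u : ℕ) : ZMod p)
      · have hn : u ∈ S := (hS u).mpr ⟨hu, hz, hs⟩
        rw [(quadraticChar_one_iff_isSquare hz).mpr hs, if_pos hn, if_neg hz]
        norm_num
      · have hn : u ∉ S := fun h => hs ((hS u).mp h).2.2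
        rw [quadraticChar_neg_one_iff_not_isSquare.mpr hs, if_neg hn, if_neg hz]
        norm_num
  rw [sum_sub_distrib, sum_add_distrib, h0, h1, hc] at h2
  omega

/-- first case: the nonsquares are good classes -/
private theorem CLoc_caseA (h p : ℕ) (hh : h % 2 = 1) (hp : p.Prime) (hp2 : p ≠ 2)
    (hA : p % 4 = 1 ∨ h % 4 = 1) : p ≤ 2 * (GG h p).card + 1 := by
  obtain ⟨S, hS⟩ : ∃ S : Finset ℕ, ∀ u, u ∈ S ↔ u ∈ range p ∧ ¬ IsSquare ((u : ℕ) : ZMod p) :=
    ⟨(range p).filter (fun u => ¬ IsSquare ((u : ℕ) : ZMod p)), fun u => mem_filter⟩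
  haveI := Fact.mk hp
  have hsub : S ⊆ GG h p := by
    intro u hu
    rw [hS] at hu
    unfold GG
    rw [mem_filter]
    have hu0 : ((u : ℕ) : ZMod p) ≠ 0 := by
      intro h0
      apply hu.2
      rw [h0]
      exact ⟨0, by simp⟩
    refine ⟨hu.1, ?_, ?_, ?_⟩
    · rw [Nat.coprime_comm, hp.coprime_iff_not_dvd, ← ZMod.natCast_eq_zero_iff]
      exact hu0
    · rintro rfl
      apply hu.2
      rw [Nat.cast_one]
      exact ⟨1, by simp⟩
    · intro w hw hwu hwh hsq
      haveI := Fact.mk hw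
      have hcast : ((w : ℕ) : ZMod p) = ((u : ℕ) : ZMod p) := (ZMod.natCast_eq_natCast_iff _ _ _).mpr hwu
      have hw2 : w ≠ 2 := by
        rintro rfl
        have : 2 % 4 = h % 4 := hwh
        omega
      apply hu.2
      rw [← hcast]
      rcases hA with h1 | h1
      · exact (ZMod.exists_sq_eq_prime_iff_of_mod_four_eq_one h1 hw2).mpr hsq
      · have h2 : w % 4 = 1 := by
          have : w % 4 = h % 4 := hwh
          omega
        exact (ZMod.exists_sq_eq_prime_iff_of_mod_four_eq_one h2 hp2).mp hsq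
  have h1 := card_le_card hsub
  have h2 := CLoc_countN p hp hp2 S hS
  omega

theorem GG_card (h p : ℕ) (hh : h % 2 = 1) (hp : p.Prime) (hp2 : p ≠ 2) :
    p ≤ 2 * (GG h p).card + 3 := by
  obtain ⟨S, hS⟩ : ∃ S : Finset ℕ, ∀ u, u ∈ S ↔ u ∈ range p ∧ ((u : ℕ) : ZMod p) ≠ 0 ∧
      IsSquare ((u : ℕ) : ZMod p) :=
    ⟨(range p).filter (fun u => ((u : ℕ) : ZMod p) ≠ 0 ∧ IsSquare ((u : ℕ) : ZMod p)),
      fun u => mem_filter⟩
  haveI := Fact.mk hp
  by_cases hA : p % 4 = 1 ∨ h % 4 = 1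
  · exact (CLoc_caseA h p hh hp hp2 hA).trans (by omega)
  · have hp4 : p % 4 = 3 := by
      have h1 := hp.eq_two_or_odd
      omega
    have hh4 : h % 4 = 3 := by omega
    have hsub : S.erase 1 ⊆ GG h p := by
      intro u hu
      rw [mem_erase, hS] at hu
      unfold GG
      rw [mem_filter]
      refine ⟨hu.2.1, ?_, hu.1, ?_⟩
      · rw [Nat.coprime_comm, hp.coprime_iff_not_dvd, ← ZMod.natCast_eq_zero_iff]
        exact hu.2.2.1
      · intro w hw hwu hwh hsq
        haveI := Fact.mk hw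
        have hcast : ((w : ℕ) : ZMod p) = ((u : ℕ) : ZMod p) := (ZMod.natCast_eq_natCast_iff _ _ _).mpr hwu
        have hw4 : w % 4 = 3 := by
          have : w % 4 = h % 4 := hwh
          omega
        have hpw : p ≠ w := by
          rintro rfl
          rw [ZMod.natCast_self] at hcast
          exact hu.2.2.1 hcast.symm
        have h1 := (ZMod.exists_sq_eq_prime_iff_of_mod_four_eq_three hp4 hw4 hpw).mp
          (by rw [hcast]; exact hu.2.2.2)
        exact h1 hsq
    have h1 := card_le_card hsub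
    have h2 := CLoc_countS p hp hp2 S hS
    have h3 := pred_card_le_card_erase (s := S) (a := 1)
    omega

theorem GG_three (h : ℕ) (hh : h % 4 = 1) : 1 ≤ (GG h 3).card := by
  have h1 := CLoc_caseA h 3 (by omega) Nat.prime_three (by norm_num) (Or.inr hh)
  omega

end Pool.Agent.Lib.MP_79499b_co.DZ
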