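import Pool.Agent.Lib.MP_79499b_co.DZ.LM
import Pool.Agent.Lib.MP_79499b_co.DZ.CDefs

/-!
# Sums over `w` with prescribed classes (module CSum)

PROOF. Apply `mert_ap C (K + C)` (LM) to every class. The primes `w` under consideration are those in
one of `∏_{p ∈ P} |G p|` residue classes modulo `q = M ∏ P ∏ T ≤ (log x)^C` (Chinese remainder theorem:
`h` mod `M`, `u_p ∈ G p` mod `p`, `1` mod `l`), all coprime to `q`. Formally: induction on `P` for the
statement with arbitrary `M`, `h`: adding `p` to `P` replaces `(M, h)` by `(M p, h')`, `h' ≡ h [MOD M]`,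
`h' ≡ u_p [MOD p]`, one for each `u_p ∈ G p`, after `T` has been absorbed into `M` in the same way
(`Nat.chineseRemainder`). Each class contributes `(1/20) LL x/φ(q)` with an error
`≤ (log x)^(-(K+C))`, and `φ(q) = φ(M) ∏ (p-1) ∏ (l-1)`; the number of classes is
`≤ ∏ p ≤ (log x)^C`.
-/

set_option autoImplicit false

open Finset
open scoped Classical

namespace Pool.Agent.Lib.MP_79499b_co.DZ

/-- induction over the primes with prescribed sets of classes -/
theorem class_sum_aux (x : ℕ) (A δ Y : ℝ) (hY : ∀ Q b : ℕ, 1 ≤ Q → (Q : ℝ) ≤ Y → b.Coprime Q →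
      |∑ w ∈ (RR x).filter (fun w => w ≡ b [MOD Q]), 1 / (w : ℝ) - A / Q.totient| ≤ δ)
    (G : ℕ → Finset ℕ) (P : Finset ℕ) :
    ∀ M h : ℕ, 0 < M → h.Coprime M → (∀ p ∈ P, p.Prime ∧ ¬ p ∣ M) →
    (∀ p ∈ P, ∀ u ∈ G p, u < p ∧ u.Coprime p) →
    (M : ℝ) * (∏ p ∈ P, (p : ℝ)) ≤ Y →
    |∑ w ∈ (RR x).filter (fun w => w ≡ h [MOD M] ∧ ∀ p ∈ P, w % p ∈ G p), 1 / (w : ℝ) -
      (∏ p ∈ P, ((G p).card : ℝ) / ((p : ℝ) - 1)) * (A / M.totient)| ≤
      (∏ p ∈ P, ((G p).card : ℝ)) * δ := by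
  induction P using Finset.induction_on with
  | empty =>
    intro M h hM hh _ _ hMY
    have h1 := hY M h hM (by simpa using hMY) hh
    simpa using h1
  | insert p P hpP ih =>
    intro M h hM hh hP hG hMY
    have hp : p.Prime := (hP p (mem_insert_self p P)).1
    have hpM : ¬ p ∣ M := (hP p (mem_insert_self p P)).2
    have hcop : M.Coprime p := ((Nat.Prime.coprime_iff_not_dvd hp).mpr hpM).symm
    have hp1 : (1 : ℝ) < p := by exact_mod_cast hp.one_lt
    have hmaps : ∀ w ∈ (RR x).filter (fun w => w ≡ h [MOD M] ∧ ∀ q ∈ insert p P, w % q ∈ G q),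
        w % p ∈ G p := by
      intro w hw
      rw [mem_filter] at hw
      exact hw.2.2 p (mem_insert_self p P)
    have hfib := Finset.sum_fiberwise_of_maps_to hmaps (fun w => 1 / (w : ℝ))
    have hset : ∀ u ∈ G p,
        ((RR x).filter (fun w => w ≡ h [MOD M] ∧ ∀ q ∈ insert p P, w % q ∈ G q)).filter
          (fun w => w % p = u) =
        (RR x).filter (fun w => w ≡ (Nat.chineseRemainder hcop h u : ℕ) [MOD M * p] ∧
          ∀ q ∈ P, w % q ∈ G q) := by
      intro u hu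
      have hup : u < p := (hG p (mem_insert_self p P) u hu).1
      have hc1 := (Nat.chineseRemainder hcop h u).2.1
      have hc2 := (Nat.chineseRemainder hcop h u).2.2
      ext w
      simp only [mem_filter]
      constructor
      · rintro ⟨⟨hw, hwh, hwP⟩, hwu⟩
        refine ⟨hw, ?_, fun q hq => hwP q (mem_insert_of_mem hq)⟩
        refine (Nat.modEq_and_modEq_iff_modEq_mul hcop).mp ⟨hwh.trans hc1.symm, ?_⟩
        have h2 : w ≡ u [MOD p] := by
          unfold Nat.ModEq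
          rw [hwu, Nat.mod_eq_of_lt hup]
        exact h2.trans hc2.symm
      · rintro ⟨hw, hwh, hwP⟩
        obtain ⟨h3, h4⟩ := (Nat.modEq_and_modEq_iff_modEq_mul hcop).mpr hwh
        have h5 : w % p = u := by
          have h6 : w ≡ u [MOD p] := h4.trans hc2
          unfold Nat.ModEq at h6
          rw [h6, Nat.mod_eq_of_lt hup]
        refine ⟨⟨hw, h3.trans hc1, ?_⟩, h5⟩
        intro q hq
        rcases mem_insert.mp hq with rfl | hq
        · rw [h5]; exact hu
        · exact hwP q hq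
    rw [← hfib]
    have hsum : ∑ u ∈ G p, ∑ w ∈ ((RR x).filter (fun w => w ≡ h [MOD M] ∧
          ∀ q ∈ insert p P, w % q ∈ G q)).filter (fun w => w % p = u), 1 / (w : ℝ)
        = ∑ u ∈ G p, ∑ w ∈ (RR x).filter (fun w =>
            w ≡ (Nat.chineseRemainder hcop h u : ℕ) [MOD M * p] ∧ ∀ q ∈ P, w % q ∈ G q),
            1 / (w : ℝ) :=
      Finset.sum_congr rfl fun u hu => by rw [hset u hu]
    rw [hsum]
    have htot : (((M * p).totient : ℕ) : ℝ) = M.totient * ((p : ℝ) - 1) := by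
      rw [Nat.totient_mul hcop, Nat.totient_prime hp]
      push_cast [hp.one_le]
      ring
    have hMt : (0 : ℝ) < M.totient := by exact_mod_cast Nat.totient_pos.2 hM
    have hmain : (∏ q ∈ insert p P, ((G q).card : ℝ) / ((q : ℝ) - 1)) * (A / M.totient)
        = ∑ u ∈ G p, (∏ q ∈ P, ((G q).card : ℝ) / ((q : ℝ) - 1)) * (A / (M * p).totient) := by
      rw [Finset.prod_insert hpP, Finset.sum_const, nsmul_eq_mul, htot]
      have hd : (p : ℝ) - 1 ≠ 0 := by linarith
      have alg : ∀ k d a b c : ℝ, d ≠ 0 → c ≠ 0 → k / d * a * (b / c) = k * (a * (b / (c * d))) := by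
        intro k d a b c hd hc
        field_simp
      exact alg _ _ _ _ _ hd hMt.ne'
    rw [hmain, ← Finset.sum_sub_distrib]
    refine (Finset.abs_sum_le_sum_abs _ _).trans ?_
    have hterm : ∀ u ∈ G p, |∑ w ∈ (RR x).filter (fun w =>
            w ≡ (Nat.chineseRemainder hcop h u : ℕ) [MOD M * p] ∧ ∀ q ∈ P, w % q ∈ G q),
            1 / (w : ℝ) - (∏ q ∈ P, ((G q).card : ℝ) / ((q : ℝ) - 1)) * (A / (M * p).totient)|
        ≤ (∏ q ∈ P, ((G q).card : ℝ)) * δ := by
      intro u hu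
      have hu' := hG p (mem_insert_self p P) u hu
      have hc1 := (Nat.chineseRemainder hcop h u).2.1
      have hc2 := (Nat.chineseRemainder hcop h u).2.2
      apply ih (M * p) (Nat.chineseRemainder hcop h u : ℕ) (Nat.mul_pos hM hp.pos)
      · refine Nat.Coprime.mul_right ?_ ?_
        · rw [Nat.coprime_iff_gcd_eq_one, hc1.gcd_eq]
          exact hh
        · rw [Nat.coprime_iff_gcd_eq_one, hc2.gcd_eq]
          exact hu'.2
      · intro q hq
        have h1 := hP q (mem_insert_of_mem hq)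
        refine ⟨h1.1, fun h2 => ?_⟩
        rcases (Nat.Prime.dvd_mul h1.1).mp h2 with h3 | h3
        · exact h1.2 h3
        · rw [Nat.prime_dvd_prime_iff_eq h1.1 hp] at h3
          exact hpP (h3 ▸ hq)
      · intro q hq v hv
        exact hG q (mem_insert_of_mem hq) v hv
      · rw [Finset.prod_insert hpP] at hMY
        push_cast
        rw [mul_assoc]
        exact hMY
    refine (Finset.sum_le_sum hterm).trans (le_of_eq ?_)
    rw [Finset.sum_const, nsmul_eq_mul, Finset.prod_insert hpP, mul_assoc]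

theorem class_sum (C K : ℕ) : ∃ x0 : ℕ, ∀ x : ℕ, x0 ≤ x → ∀ M h : ℕ, 0 < M → h.Coprime M →
    ∀ (P T : Finset ℕ) (G : ℕ → Finset ℕ), (∀ p ∈ P, p.Prime ∧ ¬ p ∣ M) →
    (∀ l ∈ T, l.Prime ∧ ¬ l ∣ M ∧ l ∉ P) → (∀ p ∈ P, ∀ u ∈ G p, u < p ∧ u.Coprime p) →
    (M : ℝ) * (∏ p ∈ P, (p : ℝ)) * (∏ l ∈ T, (l : ℝ)) ≤ Real.log x ^ C →
    |∑ w ∈ (RR x).filter (fun w => w ≡ h [MOD M] ∧ (∀ p ∈ P, w % p ∈ G p) ∧
        ∀ l ∈ T, w ≡ 1 [MOD l]), 1 / (w : ℝ) -
      (∏ p ∈ P, ((G p).card : ℝ) / ((p : ℝ) - 1)) * (∏ l ∈ T, 1 / ((l : ℝ) - 1)) *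
        (1 / 20 * LL x / M.totient)| ≤ (Real.log x ^ K)⁻¹ := by
  obtain ⟨x0, hx0⟩ := mert_ap C (K + C)
  obtain ⟨x1, hx1⟩ := (log_tend.eventually_ge_atTop 1).exists_forall_of_atTop
  refine ⟨max x0 x1, ?_⟩
  intro x hx M h hM hh P T G hP hT hG hMY
  have hlog : 1 ≤ Real.log (x : ℝ) := hx1 x ((le_max_right _ _).trans hx)
  have hlog0 : 0 < Real.log (x : ℝ) := by linarith
  have hmert := hx0 x ((le_max_left _ _).trans hx)
  set G' : ℕ → Finset ℕ := fun p => if p ∈ P then G p else {1} with hG'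
  have hdisj : Disjoint P T := by
    rw [Finset.disjoint_left]
    intro p hp hpT
    exact (hT p hpT).2.2 hp
  have hGP : ∀ p ∈ P, G' p = G p := fun p hp => by simp only [hG', if_pos hp]
  have hGT : ∀ p ∈ T, G' p = {1} := fun p hp => by simp only [hG', if_neg (hT p hp).2.2]
  have key := class_sum_aux x (1 / 20 * LL x) ((Real.log x ^ (K + C))⁻¹) (Real.log x ^ C)
    hmert G' (P ∪ T) M h hM hh ?_ ?_ ?_
  · have hfil : (RR x).filter (fun w => w ≡ h [MOD M] ∧ ∀ p ∈ P ∪ T, w % p ∈ G' p)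
        = (RR x).filter (fun w => w ≡ h [MOD M] ∧ (∀ p ∈ P, w % p ∈ G p) ∧
            ∀ l ∈ T, w ≡ 1 [MOD l]) := by
      refine Finset.filter_congr fun w _ => ?_
      constructor
      · rintro ⟨h1, h2⟩
        refine ⟨h1, fun p hp => ?_, fun l hl => ?_⟩
        · rw [← hGP p hp]
          exact h2 p (mem_union_left _ hp)
        · have h3 := h2 l (mem_union_right _ hl)
          rw [hGT l hl, mem_singleton] at h3
          unfold Nat.ModEq
          rw [h3, Nat.mod_eq_of_lt (hT l hl).1.one_lt]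
      · rintro ⟨h1, h2, h3⟩
        refine ⟨h1, fun p hp => ?_⟩
        rcases mem_union.mp hp with hp | hp
        · rw [hGP p hp]
          exact h2 p hp
        · rw [hGT p hp, mem_singleton]
          have h4 := h3 p hp
          unfold Nat.ModEq at h4
          rw [h4, Nat.mod_eq_of_lt (hT p hp).1.one_lt]
    have hprod1 : ∏ p ∈ P ∪ T, ((G' p).card : ℝ) / ((p : ℝ) - 1)
        = (∏ p ∈ P, ((G p).card : ℝ) / ((p : ℝ) - 1)) * ∏ l ∈ T, 1 / ((l : ℝ) - 1) := by
      rw [Finset.prod_union hdisj]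
      congr 1
      · exact Finset.prod_congr rfl fun p hp => by rw [hGP p hp]
      · exact Finset.prod_congr rfl fun p hp => by rw [hGT p hp, card_singleton, Nat.cast_one]
    have hprod2 : ∏ p ∈ P ∪ T, ((G' p).card : ℝ) = ∏ p ∈ P, ((G p).card : ℝ) := by
      rw [Finset.prod_union hdisj]
      have h1 : ∏ l ∈ T, ((G' l).card : ℝ) = 1 :=
        Finset.prod_eq_one fun p hp => by rw [hGT p hp, card_singleton, Nat.cast_one]
      rw [h1, mul_one]
      exact Finset.prod_congr rfl fun p hp => by rw [hGP p hp]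
    rw [hfil, hprod1, hprod2] at key
    refine key.trans ?_
    have hcard : ∏ p ∈ P, ((G p).card : ℝ) ≤ ∏ p ∈ P, (p : ℝ) := by
      refine Finset.prod_le_prod (fun _ _ => Nat.cast_nonneg _) fun p hp => ?_
      have h1 : G p ⊆ range p := fun u hu => mem_range.mpr (hG p hp u hu).1
      have h2 := Finset.card_le_card h1
      rw [card_range] at h2
      exact_mod_cast h2
    have hPprod : (∏ p ∈ P, (p : ℝ)) ≤ Real.log x ^ C := by
      refine le_trans ?_ hMY
      have h1 : (1 : ℝ) ≤ M := by exact_mod_cast hM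
      have h2 : (1 : ℝ) ≤ ∏ l ∈ T, (l : ℝ) := by
        have h5 : (∏ l ∈ T, (l : ℝ)) = ((∏ l ∈ T, l : ℕ) : ℝ) := by push_cast; rfl
        rw [h5]
        exact_mod_cast Finset.prod_pos fun l hl => (hT l hl).1.pos
      have h3 : (0 : ℝ) ≤ ∏ p ∈ P, (p : ℝ) := Finset.prod_nonneg fun _ _ => Nat.cast_nonneg _
      calc (∏ p ∈ P, (p : ℝ)) = 1 * (∏ p ∈ P, (p : ℝ)) * 1 := by ring
        _ ≤ (M : ℝ) * (∏ p ∈ P, (p : ℝ)) * (∏ l ∈ T, (l : ℝ)) := by
            apply mul_le_mul _ h2 zero_le_one (by positivity)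
            exact mul_le_mul_of_nonneg_right h1 h3
    have hlogK : 0 < Real.log (x : ℝ) ^ K := by positivity
    have hlogC : 0 < Real.log (x : ℝ) ^ C := by positivity
    calc (∏ p ∈ P, ((G p).card : ℝ)) * (Real.log x ^ (K + C))⁻¹
        ≤ Real.log x ^ C * (Real.log x ^ (K + C))⁻¹ :=
          mul_le_mul_of_nonneg_right (hcard.trans hPprod) (by positivity)
      _ = (Real.log x ^ K)⁻¹ := by
          rw [pow_add, mul_inv]
          field_simp
  · intro p hp
    rcases mem_union.mp hp with hp | hp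
    · exact hP p hp
    · exact ⟨(hT p hp).1, (hT p hp).2.1⟩
  · intro p hp u hu
    rcases mem_union.mp hp with hp | hp
    · rw [hGP p hp] at hu
      exact hG p hp u hu
    · rw [hGT p hp, mem_singleton] at hu
      subst hu
      exact ⟨(hT p hp).1.one_lt, Nat.coprime_one_left p⟩
  · rw [Finset.prod_union hdisj, ← mul_assoc]
    exact hMY

end Pool.Agent.Lib.MP_79499b_co.DZ
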