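import Pool.Agent.Lib.MP_79499b_co.DZ.CBrun
import Pool.Agent.Lib.MP_79499b_co.DZ.CProd
import Pool.Agent.Lib.MP_79499b_co.DZ.CLoc
import Pool.Agent.Lib.MP_79499b_co.DZ.CSum

/-!
# Many admissible primes `w` (module CWLow)

PROOF. Let `M = τ.M` (`4 ∣ M`), `h = τ.h` (odd), `P` = the primes `p ∣ d` with `p ∤ M` (all odd),
`G p = GG h p`, `L` = the primes `l ≤ yy x` with `l ∤ M`, `l ∉ P`. Every prime `w ∈ RR x`,
`w ≡ h [MOD M]` with `w % p ∈ G p` for `p ∈ P` and `w ≢ 1 [MOD l]` for `l ∈ L` belongs to `WS τ x d`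
(`p` is a nonresidue by the definition of `GG`, and `w ≢ 1 [MOD p]` for `p ∈ P` since `1 ∉ GG h p`;
`l ∣ w - 1 ↔ w ≡ 1 [MOD l]`). Apply `brun` with `A` = the primes `w ∈ RR x`, `w ≡ h [MOD M]`,
`w % p ∈ G p`, weights `1/w`, index set `L`, `E l w : w ≡ 1 [MOD l]`, `g l = 1/(l-1)`,
`A0 = (∏_{p∈P} |G p|/(p-1)) (1/20) LL x/φ(M)`.
`R + 1 = k` with `8 (log log yy x + C1) ≤ k ≤ 9 log log yy x + 10 C1`, `G = ∑_{l ≤ yy} 1/(l-1) ≤
log log yy + C1` (`sum_up`). `r = (log x)^(-2)` by `class_sum (C+2) 2`: `M ∏P ∏T ≤ M (log x)^C (yy x)^k ≤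
(log x)^(C+2)` and also `(#L + 1)^k ≤ (yy x + 1)^k ≤ log x` for large `x` (`k log (yy x + 1) =
O(LLL x * log LLL x)`), so the second error term of `brun` is `≤ 1/log x`.
MAIN TERM. `A0 ∏_{l ∈ L} (1 - 1/(l-1)) = (LL/(20 φ(M))) ∏_{p ∈ P} (|G p|/(p-1)) ∏_{l∈L} (1 - 1/(l-1))`.
For `p ∈ P`, `p ≥ 5`: `|G p|/(p-1) ≥ (1/2)(1 - 2/(p-1))` (`GG_card`); `p = 3 ∈ P` means `3 ∤ M`, so
`h % 4 = 1` and `|G 3| ≥ 1 = (p-1)/2` (`GG_three`). For `l = 3 ∈ L`: `1 - 1/(l-1) = 1/2`. So the main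
term is `≥ (LL/(20 φ(M))) (1/2) 2^(-|P|) ∏_{5 ≤ l ≤ yy} (1 - 2/(l-1)) ∏_{p ∈ P, p > yy} (1 - 2/(p-1))
≥ c LL x 2^(-|P|) / (log yy x)^2` (`prod_low`; the last product is `≥ 1 - ∑ 2/(p-1) ≥ 1 - 4 |P|/yy
≥ 1/2`). `|P| ≤ (6/5) LLL x`: `2^(-|P|) ≥ exp (-(6/5) (log 2) LLL x) = (LL x)^(-0.832)`;
`log yy ≤ 8 LLL x`. The truncation error `2 A0 exp (-k)` is at most half of the main term, because
`exp (-k) ≤ (log yy)^(-8)` while `∏_{l ∈ L} (1 - 1/(l-1)) ≥ c/(log yy)^2`. So the sum is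
`≥ c LL^(0.16)/(LLL)^2 - 1/log x ≥ LL^(1/10)` for large `x`.
-/

set_option autoImplicit false

open Finset
open scoped Classical

namespace Pool.Agent.Lib.MP_79499b_co.DZ

/-- the comparison factor of a prime -/
private noncomputable def cwF (l : ℕ) : ℝ := if l < 5 then 1 / 2 else 1 - 2 / ((l : ℝ) - 1)

private theorem cwF_low (l : ℕ) : 1 / 2 ≤ cwF l := by
  unfold cwF
  split_ifs with h
  · exact le_refl _
  · have h5 : (5 : ℝ) ≤ l := by exact_mod_cast (not_lt.mp h)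
    have h2 : 2 / ((l : ℝ) - 1) ≤ 1 / 2 := by
      rw [div_le_div_iff₀ (by linarith) (by norm_num)]
      linarith
    linarith

private theorem cwF_pos (l : ℕ) : 0 < cwF l := lt_of_lt_of_le (by norm_num) (cwF_low l)

private theorem cwF_le (l : ℕ) : cwF l ≤ 1 := by
  unfold cwF
  split_ifs with h
  · norm_num
  · have h5 : (5 : ℝ) ≤ l := by exact_mod_cast (not_lt.mp h)
    have : 0 ≤ 2 / ((l : ℝ) - 1) := div_nonneg (by norm_num) (by linarith)
    linarith

private theorem cwprod_sub {s t : Finset ℕ} (h : s ⊆ t) :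
    ∏ l ∈ t, cwF l ≤ ∏ l ∈ s, cwF l := by
  rw [← prod_sdiff h]
  have h1 : ∏ l ∈ t \ s, cwF l ≤ 1 :=
    prod_le_one (fun l _ => (cwF_pos l).le) (fun l _ => cwF_le l)
  have h2 : 0 < ∏ l ∈ s, cwF l := prod_pos fun l _ => cwF_pos l
  calc _ ≤ 1 * ∏ l ∈ s, cwF l := mul_le_mul_of_nonneg_right h1 h2.le
    _ = _ := one_mul _

/-- the primes `p ∣ d` outside `M` -/
private noncomputable def cwP (τ : WT) (d : ℕ) : Finset ℕ :=
  d.primeFactors.filter (fun p => ¬ p ∣ τ.M)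

/-- the sieving primes -/
private noncomputable def cwL (τ : WT) (x d : ℕ) : Finset ℕ :=
  ((Icc 2 (yy x)).filter Nat.Prime).filter (fun l => ¬ l ∣ τ.M ∧ l ∉ cwP τ d)

private theorem mem_cwP {τ : WT} {d p : ℕ} (hd : 1 ≤ d) :
    p ∈ cwP τ d ↔ p.Prime ∧ p ∣ d ∧ ¬ p ∣ τ.M := by
  unfold cwP
  rw [mem_filter, Nat.mem_primeFactors]
  constructor
  · rintro ⟨⟨a, b, c⟩, e⟩
    exact ⟨a, b, e⟩
  · rintro ⟨a, b, c⟩
    exact ⟨⟨a, b, by omega⟩, c⟩

private theorem two_dvd (τ : WT) : 2 ∣ τ.M := dvd_trans (by norm_num) τ.hM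

private theorem h_odd (τ : WT) : τ.h % 2 = 1 := by
  have h := τ.hh
  have h2 : ¬ 2 ∣ τ.h := by
    intro hd
    have : 2 ∣ Nat.gcd τ.h τ.M := Nat.dvd_gcd hd (two_dvd τ)
    rw [Nat.Coprime] at h
    rw [h] at this
    omega
  omega

private theorem cwP_three {τ : WT} {d p : ℕ} (hd : 1 ≤ d) (hp : p ∈ cwP τ d) : p.Prime ∧ 3 ≤ p := by
  rw [mem_cwP hd] at hp
  refine ⟨hp.1, ?_⟩
  have h2 := hp.1.two_le
  rcases Nat.lt_or_ge p 3 with h | h
  · have : p = 2 := by omega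
    subst this
    exact absurd (two_dvd τ) hp.2.2
  · exact h

private theorem cwL_three {τ : WT} {x d l : ℕ} (hl : l ∈ cwL τ x d) : l.Prime ∧ 3 ≤ l := by
  unfold cwL at hl
  rw [mem_filter, mem_filter, mem_Icc] at hl
  refine ⟨hl.1.2, ?_⟩
  have h2 := hl.1.2.two_le
  rcases Nat.lt_or_ge l 3 with h | h
  · have : l = 2 := by omega
    subst this
    exact absurd (two_dvd τ) hl.2.1
  · exact h

/-- the sifted set consists of admissible primes -/
private theorem cw_sub (τ : WT) (x d : ℕ) (hd : 1 ≤ d) :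
    ((RR x).filter (fun w => w ≡ τ.h [MOD τ.M] ∧ ∀ p ∈ cwP τ d, w % p ∈ GG τ.h p)).filter
      (fun w => ∀ l ∈ cwL τ x d, ¬ w ≡ 1 [MOD l]) ⊆ WS τ x d := by
  intro w hw
  rw [mem_filter, mem_filter] at hw
  obtain ⟨⟨hwR, hwM, hwP⟩, hwL⟩ := hw
  have hwp : w.Prime := (mem_RR.mp hwR).1
  unfold WS
  rw [mem_filter]
  refine ⟨hwR, hwM, ?_, ?_⟩
  · intro p hp hpd hpM
    have hpP : p ∈ cwP τ d := (mem_cwP hd).mpr ⟨hp, hpd, hpM⟩
    have hG := hwP p hpP
    unfold GG at hG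
    rw [mem_filter] at hG
    exact hG.2.2.2 w hwp (Nat.mod_modEq w p).symm (hwM.of_dvd τ.hM)
  · intro l hl hly hlM hdv
    by_cases hlP : l ∈ cwP τ d
    · have hG := hwP l hlP
      unfold GG at hG
      rw [mem_filter] at hG
      apply hG.2.2.1
      have h1 : 1 ≡ w [MOD l] := (Nat.modEq_iff_dvd' hwp.one_lt.le).mpr hdv
      have h2 : w % l = 1 % l := h1.symm
      rw [h2, Nat.mod_eq_of_lt hl.one_lt]
    · have hlL : l ∈ cwL τ x d := by
        unfold cwL
        rw [mem_filter, mem_filter, mem_Icc]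
        exact ⟨⟨⟨hl.two_le, hly⟩, hl⟩, hlM, hlP⟩
      apply hwL l hlL
      exact ((Nat.modEq_iff_dvd' hwp.one_lt.le).mpr hdv).symm

/-- one factor of `P` -/
private theorem cw_facP (τ : WT) {d p : ℕ} (hd : 1 ≤ d) (hp : p ∈ cwP τ d) :
    1 / 2 * cwF p ≤ ((GG τ.h p).card : ℝ) / ((p : ℝ) - 1) := by
  obtain ⟨hpp, hp3⟩ := cwP_three hd hp
  rw [mem_cwP hd] at hp
  have hp3' : (3 : ℝ) ≤ p := by exact_mod_cast hp3
  have hp1 : (0 : ℝ) < (p : ℝ) - 1 := by linarith
  rcases Nat.lt_or_ge p 5 with h | h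
  · have hp' : p = 3 := by
      interval_cases p
      · rfl
      · exact absurd hpp (by norm_num)
    have h3 : τ.h % 4 = 1 := by
      rcases τ.h3 with h3 | h3
      · rw [hp'] at hp
        exact absurd h3 hp.2.2
      · exact h3
    have hc := GG_three τ.h h3
    rw [hp']
    have hc' : (1 : ℝ) ≤ ((GG τ.h 3).card : ℝ) := by exact_mod_cast hc
    rw [le_div_iff₀ (by norm_num)]
    have : cwF 3 = 1 / 2 := by unfold cwF; norm_num
    rw [this]
    norm_num
    linarith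
  · have hc := GG_card τ.h p (h_odd τ) hpp (by omega)
    have hc' : (p : ℝ) ≤ 2 * ((GG τ.h p).card : ℝ) + 3 := by exact_mod_cast hc
    have hF : cwF p = 1 - 2 / ((p : ℝ) - 1) := by
      unfold cwF
      rw [if_neg (by omega)]
    rw [hF, le_div_iff₀ hp1]
    have : (1 / 2 * (1 - 2 / ((p : ℝ) - 1))) * ((p : ℝ) - 1) = 1 / 2 * (((p : ℝ) - 1) - 2) := by
      field_simp
    rw [this]
    linarith

/-- one factor of `L` -/
private theorem cw_facL {τ : WT} {x d l : ℕ} (hl : l ∈ cwL τ x d) :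
    cwF l ≤ 1 - 1 / ((l : ℝ) - 1) := by
  obtain ⟨hll, hl3⟩ := cwL_three hl
  have hl3' : (3 : ℝ) ≤ l := by exact_mod_cast hl3
  unfold cwF
  split_ifs with h
  · have : 1 / ((l : ℝ) - 1) ≤ 1 / 2 := by
      rw [div_le_div_iff₀ (by linarith) (by norm_num)]
      linarith
    linarith
  · have : 1 / ((l : ℝ) - 1) ≤ 2 / ((l : ℝ) - 1) := by
      apply div_le_div_of_nonneg_right (by norm_num) (by linarith)
    linarith

/-- the product over `P ∪ L` -/
private theorem cw_prod (τ : WT) {c : ℝ} (x d : ℕ) (hd : 1 ≤ d)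
    (hc : c / Real.log (yy x) ^ 2 ≤ ∏ l ∈ (Icc 5 (yy x)).filter Nat.Prime, (1 - 2 / ((l : ℝ) - 1)))
    (hc0 : 0 < c)
    (hcard : 4 * ((cwP τ d).card : ℝ) ≤ yy x) (hy : 5 ≤ yy x) :
    (1 / 2) ^ (cwP τ d).card * (1 / 4 * (c / Real.log (yy x) ^ 2)) ≤
      (∏ p ∈ cwP τ d, ((GG τ.h p).card : ℝ) / ((p : ℝ) - 1)) *
        ∏ l ∈ cwL τ x d, (1 - 1 / ((l : ℝ) - 1)) := by
  have hdis : Disjoint (cwP τ d) (cwL τ x d) := by
    rw [Finset.disjoint_left]
    intro a ha hb
    unfold cwL at hb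
    rw [mem_filter] at hb
    exact hb.2.2 ha
  have h1 : (1 / 2) ^ (cwP τ d).card * ∏ p ∈ cwP τ d, cwF p ≤
      ∏ p ∈ cwP τ d, ((GG τ.h p).card : ℝ) / ((p : ℝ) - 1) := by
    rw [← prod_const, ← prod_mul_distrib]
    apply prod_le_prod
    · intro p _
      exact mul_nonneg (by norm_num) (cwF_pos p).le
    · intro p hp
      exact cw_facP τ hd hp
  have h2 : ∏ l ∈ cwL τ x d, cwF l ≤ ∏ l ∈ cwL τ x d, (1 - 1 / ((l : ℝ) - 1)) :=
    prod_le_prod (fun l _ => (cwF_pos l).le) (fun l hl => cw_facL hl)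
  -- the superset
  set Pb := (cwP τ d).filter (fun p => yy x < p) with hPb
  have hsub : cwP τ d ∪ cwL τ x d ⊆ ({3} ∪ (Icc 5 (yy x)).filter Nat.Prime) ∪ Pb := by
    intro a ha
    have ha' : a.Prime ∧ 3 ≤ a := by
      rcases mem_union.mp ha with h | h
      · exact cwP_three hd h
      · exact cwL_three h
    have hcase : a = 3 ∨ 5 ≤ a := by
      rcases Nat.lt_or_ge a 5 with h | h
      · left
        have h3 := ha'.2
        have hpr := ha'.1
        interval_cases a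
        · rfl
        · exact absurd hpr (by norm_num)
      · exact Or.inr h
    rw [mem_union, mem_union, mem_singleton, mem_filter, mem_Icc]
    rcases hcase with h3 | h5
    · exact Or.inl (Or.inl h3)
    · rcases Nat.lt_or_ge (yy x) a with hya | hya
      · right
        rw [hPb, mem_filter]
        refine ⟨?_, hya⟩
        rcases mem_union.mp ha with h | h
        · exact h
        · exfalso
          unfold cwL at h
          rw [mem_filter, mem_filter, mem_Icc] at h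
          omega
      · exact Or.inl (Or.inr ⟨⟨h5, hya⟩, ha'.1⟩)
  have h3 := cwprod_sub hsub
  rw [prod_union hdis] at h3
  have hdis2 : Disjoint ({3} ∪ (Icc 5 (yy x)).filter Nat.Prime) Pb := by
    rw [Finset.disjoint_left]
    intro a ha hb
    rw [hPb, mem_filter] at hb
    rw [mem_union, mem_singleton, mem_filter, mem_Icc] at ha
    rcases ha with ha | ha
    · omega
    · omega
  have hdis3 : Disjoint ({3} : Finset ℕ) ((Icc 5 (yy x)).filter Nat.Prime) := by
    rw [Finset.disjoint_left]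
    intro a ha hb
    rw [mem_singleton] at ha
    rw [mem_filter, mem_Icc] at hb
    omega
  rw [prod_union hdis2, prod_union hdis3, prod_singleton] at h3
  have hF3 : cwF 3 = 1 / 2 := by unfold cwF; norm_num
  have hmid : ∏ l ∈ (Icc 5 (yy x)).filter Nat.Prime, cwF l =
      ∏ l ∈ (Icc 5 (yy x)).filter Nat.Prime, (1 - 2 / ((l : ℝ) - 1)) := by
    apply prod_congr rfl
    intro l hl
    rw [mem_filter, mem_Icc] at hl
    unfold cwF
    rw [if_neg (by omega)]
  have hbig : 1 / 2 ≤ ∏ p ∈ Pb, cwF p := by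
    have hyy : (5 : ℝ) ≤ (yy x : ℝ) := by exact_mod_cast hy
    have h4 : ∏ p ∈ Pb, (1 - 2 / (yy x : ℝ)) ≤ ∏ p ∈ Pb, cwF p := by
      apply prod_le_prod
      · intro p _
        have : 2 / (yy x : ℝ) ≤ 1 := by
          rw [div_le_one (by linarith)]
          linarith
        linarith
      · intro p hp
        rw [hPb, mem_filter] at hp
        unfold cwF
        rw [if_neg (by omega)]
        have hp1 : (yy x : ℝ) + 1 ≤ p := by exact_mod_cast hp.2
        have : 2 / ((p : ℝ) - 1) ≤ 2 / (yy x : ℝ) := by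
          apply div_le_div_of_nonneg_left (by norm_num) (by linarith) (by linarith)
        linarith
    rw [prod_const] at h4
    have h5 := one_add_mul_le_pow (a := -(2 / (yy x : ℝ))) (by
      have : 2 / (yy x : ℝ) ≤ 1 := by
        rw [div_le_one (by linarith)]
        linarith
      linarith) Pb.card
    have h6 : (Pb.card : ℝ) ≤ (cwP τ d).card := by
      exact_mod_cast card_le_card (filter_subset _ _)
    have h7 : (Pb.card : ℝ) * (2 / (yy x : ℝ)) ≤ 1 / 2 := by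
      rw [mul_div_assoc', div_le_iff₀ (by linarith)]
      linarith
    have h8 : (1 + -(2 / (yy x : ℝ))) = 1 - 2 / (yy x : ℝ) := by ring
    rw [h8] at h5
    have h9 : (Pb.card : ℝ) * -(2 / (yy x : ℝ)) = -((Pb.card : ℝ) * (2 / (yy x : ℝ))) := by ring
    rw [h9] at h5
    linarith
  rw [hF3, hmid] at h3
  have hM0 : 0 < c / Real.log (yy x) ^ 2 := by
    have hyy : (5 : ℝ) ≤ (yy x : ℝ) := by exact_mod_cast hy
    have : 0 < Real.log (yy x) := Real.log_pos (by linarith)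
    positivity
  have h10 : 1 / 4 * (c / Real.log (yy x) ^ 2) ≤ (∏ p ∈ cwP τ d, cwF p) * ∏ l ∈ cwL τ x d, cwF l := by
    refine le_trans ?_ h3
    have hm : c / Real.log (yy x) ^ 2 * (1 / 2) ≤
        (∏ l ∈ (Icc 5 (yy x)).filter Nat.Prime, (1 - 2 / ((l : ℝ) - 1))) * ∏ p ∈ Pb, cwF p :=
      mul_le_mul hc hbig (by norm_num) (le_trans hM0.le hc)
    calc 1 / 4 * (c / Real.log (yy x) ^ 2) = 1 / 2 * (c / Real.log (yy x) ^ 2 * (1 / 2)) := by ring
      _ ≤ 1 / 2 * ((∏ l ∈ (Icc 5 (yy x)).filter Nat.Prime, (1 - 2 / ((l : ℝ) - 1))) *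
          ∏ p ∈ Pb, cwF p) := by
        apply mul_le_mul_of_nonneg_left hm (by norm_num)
      _ = _ := by ring
  calc (1 / 2) ^ (cwP τ d).card * (1 / 4 * (c / Real.log (yy x) ^ 2))
      ≤ (1 / 2) ^ (cwP τ d).card * ((∏ p ∈ cwP τ d, cwF p) * ∏ l ∈ cwL τ x d, cwF l) := by
        apply mul_le_mul_of_nonneg_left h10 (by positivity)
    _ = ((1 / 2) ^ (cwP τ d).card * ∏ p ∈ cwP τ d, cwF p) * ∏ l ∈ cwL τ x d, cwF l := by ring
    _ ≤ _ := by
        apply mul_le_mul h1 h2 (prod_nonneg fun l _ => (cwF_pos l).le)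
        apply prod_nonneg
        intro p hp
        have := (cwP_three hd hp).2
        have h3' : (3 : ℝ) ≤ p := by exact_mod_cast this
        apply div_nonneg (by positivity) (by linarith)

/-- the product over `L` alone -/
private theorem cw_prodL (τ : WT) {c : ℝ} (x d : ℕ)
    (hc : c / Real.log (yy x) ^ 2 ≤ ∏ l ∈ (Icc 5 (yy x)).filter Nat.Prime, (1 - 2 / ((l : ℝ) - 1))) :
    1 / 2 * (c / Real.log (yy x) ^ 2) ≤ ∏ l ∈ cwL τ x d, (1 - 1 / ((l : ℝ) - 1)) := by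
  have h2 : ∏ l ∈ cwL τ x d, cwF l ≤ ∏ l ∈ cwL τ x d, (1 - 1 / ((l : ℝ) - 1)) :=
    prod_le_prod (fun l _ => (cwF_pos l).le) (fun l hl => cw_facL hl)
  have hsub : cwL τ x d ⊆ {3} ∪ (Icc 5 (yy x)).filter Nat.Prime := by
    intro a ha
    have ha' := cwL_three ha
    have hcase : a = 3 ∨ 5 ≤ a := by
      rcases Nat.lt_or_ge a 5 with h | h
      · left
        have h3 := ha'.2
        have hpr := ha'.1
        interval_cases a
        · rfl
        · exact absurd hpr (by norm_num)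
      · exact Or.inr h
    unfold cwL at ha
    rw [mem_filter, mem_filter, mem_Icc] at ha
    rw [mem_union, mem_singleton, mem_filter, mem_Icc]
    rcases hcase with h3 | h5
    · exact Or.inl h3
    · exact Or.inr ⟨⟨h5, ha.1.1.2⟩, ha'.1⟩
  have h3 := cwprod_sub hsub
  have hdis3 : Disjoint ({3} : Finset ℕ) ((Icc 5 (yy x)).filter Nat.Prime) := by
    rw [Finset.disjoint_left]
    intro a ha hb
    rw [mem_singleton] at ha
    rw [mem_filter, mem_Icc] at hb
    omega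
  rw [prod_union hdis3, prod_singleton] at h3
  have hF3 : cwF 3 = 1 / 2 := by unfold cwF; norm_num
  have hmid : ∏ l ∈ (Icc 5 (yy x)).filter Nat.Prime, cwF l =
      ∏ l ∈ (Icc 5 (yy x)).filter Nat.Prime, (1 - 2 / ((l : ℝ) - 1)) := by
    apply prod_congr rfl
    intro l hl
    rw [mem_filter, mem_Icc] at hl
    unfold cwF
    rw [if_neg (by omega)]
  rw [hF3, hmid] at h3
  linarith

/-- the truncation level -/
private noncomputable def cwk (C1 : ℝ) (x : ℕ) : ℕ :=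
  ⌈8 * (Real.log (Real.log (yy x)) + C1)⌉₊ + 1

private theorem cw_ev (C1 c φ : ℝ) : ∃ T : ℝ, ∀ t : ℝ, T ≤ t →
    3 ≤ t ∧ 1 ≤ Real.log t ∧ 8 / c ≤ Real.log t ∧
    9 * Real.log t * (64 * Real.log t + 8 * C1 + 2) ≤ t ∧
    (2 * 160 * 64 * φ / c) * Real.log t ^ 2 ≤ t ^ (6 / 100 : ℝ) := by
  have hl : Filter.Tendsto Real.log Filter.atTop Filter.atTop := Real.tendsto_log_atTop
  have e1 : ∀ᶠ t : ℝ in Filter.atTop, 3 ≤ t := Filter.eventually_ge_atTop 3
  have e2 : ∀ᶠ t : ℝ in Filter.atTop, 1 ≤ Real.log t := hl.eventually_ge_atTop 1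
  have e3 : ∀ᶠ t : ℝ in Filter.atTop, 8 / c ≤ Real.log t := hl.eventually_ge_atTop _
  have e4 : ∀ᶠ t : ℝ in Filter.atTop, |8 * C1 + 2| ≤ Real.log t := hl.eventually_ge_atTop _
  have e5 : ∀ᶠ t : ℝ in Filter.atTop, ‖Real.log t‖ ≤ 1 * ‖t ^ (1 / 100 : ℝ)‖ :=
    (isLittleO_log_rpow_atTop (by norm_num : (0 : ℝ) < 1 / 100)).bound (by norm_num)
  have e6 : ∀ᶠ t : ℝ in Filter.atTop, 585 ≤ t ^ (1 / 100 : ℝ) :=
    (tendsto_rpow_atTop (by norm_num : (0 : ℝ) < 1 / 100)).eventually_ge_atTop _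
  have e7 : ∀ᶠ t : ℝ in Filter.atTop, 2 * 160 * 64 * φ / c ≤ t ^ (1 / 100 : ℝ) :=
    (tendsto_rpow_atTop (by norm_num : (0 : ℝ) < 1 / 100)).eventually_ge_atTop _
  have e := (e1.and (e2.and (e3.and (e4.and (e5.and (e6.and e7))))))
  obtain ⟨T, hT⟩ := Filter.eventually_atTop.mp e
  refine ⟨T, fun t ht => ?_⟩
  obtain ⟨h1, h2, h3, h4, h5, h6, h7⟩ := hT t ht
  have ht0 : 0 < t := by linarith
  set s := t ^ (1 / 100 : ℝ) with hs
  have hs0 : 0 < s := Real.rpow_pos_of_pos ht0 _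
  have hs1 : 1 ≤ s := by linarith
  have h5' : Real.log t ≤ s := by
    rw [Real.norm_of_nonneg (by linarith), Real.norm_of_nonneg hs0.le] at h5
    linarith
  have hpow : s ^ 100 = t := by
    rw [hs, ← Real.rpow_natCast, ← Real.rpow_mul ht0.le]
    norm_num
  have hpow6 : t ^ (6 / 100 : ℝ) = s ^ 6 := by
    rw [hs, ← Real.rpow_natCast, ← Real.rpow_mul ht0.le]
    norm_num
  refine ⟨h1, h2, h3, ?_, ?_⟩
  · have hL0 : 0 ≤ Real.log t := by linarith
    have h8 : 64 * Real.log t + 8 * C1 + 2 ≤ 65 * Real.log t := by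
      have := le_abs_self (8 * C1 + 2)
      linarith
    calc 9 * Real.log t * (64 * Real.log t + 8 * C1 + 2)
        ≤ 9 * Real.log t * (65 * Real.log t) := by
          apply mul_le_mul_of_nonneg_left h8 (by linarith)
      _ = 585 * (Real.log t * Real.log t) := by ring
      _ ≤ s * (s * s) := by
          apply mul_le_mul h6 (mul_le_mul h5' h5' hL0 hs0.le) (by positivity) hs0.le
      _ = s ^ 3 := by ring
      _ ≤ s ^ 100 := pow_le_pow_right₀ hs1 (by norm_num)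
      _ = t := hpow
  · rw [hpow6]
    have hL0 : 0 ≤ Real.log t := by linarith
    calc (2 * 160 * 64 * φ / c) * Real.log t ^ 2 ≤ s * s ^ 2 := by
          apply mul_le_mul h7 (pow_le_pow_left₀ hL0 h5' 2) (by positivity) hs0.le
      _ = s ^ 3 := by ring
      _ ≤ s ^ 6 := pow_le_pow_right₀ hs1 (by norm_num)

private theorem cw_num (C1 c φ M : ℝ) (hC1 : 0 < C1) (hc : 0 < c) (hφ : 0 < φ) :
    ∃ x0 : ℕ, ∀ x : ℕ, x0 ≤ x → 5 ≤ yy x ∧ 1 < Real.log x ∧ M ≤ Real.log x ∧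
      4 * (6 / 5 * LLL x) ≤ yy x ∧
      ((yy x : ℝ) + 1) ^ (cwk C1 x) ≤ Real.log x ∧
      8 * (Real.log (Real.log (yy x)) + C1) ≤ cwk C1 x ∧
      2 * Real.exp (-(cwk C1 x : ℝ)) ≤ 1 / 2 * (1 / 2 * (c / Real.log (yy x) ^ 2)) ∧
      ∀ n : ℕ, (n : ℝ) ≤ 6 / 5 * LLL x →
        LL x ^ (1 / 10 : ℝ) + (Real.log x)⁻¹ ≤
          1 / 2 * ((1 / 20 * LL x / φ) * ((1 / 2) ^ n * (1 / 4 * (c / Real.log (yy x) ^ 2)))) := by
  obtain ⟨T, hT⟩ := cw_ev C1 c φ
  have f1 : ∀ᶠ x : ℕ in Filter.atTop, T ≤ LL x := LL_tend.eventually_ge_atTop T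
  have f2 : ∀ᶠ x : ℕ in Filter.atTop, M ≤ Real.log (x : ℝ) := log_tend.eventually_ge_atTop M
  have f3 : ∀ᶠ x : ℕ in Filter.atTop, 2 ≤ Real.log (x : ℝ) := log_tend.eventually_ge_atTop 2
  obtain ⟨x0, hx0⟩ := Filter.eventually_atTop.mp (f1.and (f2.and f3))
  refine ⟨x0, fun x hx => ?_⟩
  obtain ⟨g1, g2, g3⟩ := hx0 x hx
  obtain ⟨h1, h2, h3, h4, h5⟩ := hT (LL x) g1
  set t := LL x with ht
  have ht0 : 0 < t := by linarith
  have hlx : Real.log x = Real.exp t := by
    rw [ht]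
    unfold LL
    rw [Real.exp_log (by linarith)]
  have hyle : (yy x : ℝ) ≤ t ^ 8 := by
    unfold yy
    exact Nat.floor_le (by positivity)
  have hylt : t ^ 8 < (yy x : ℝ) + 1 := by
    unfold yy
    exact Nat.lt_floor_add_one _
  have ht7 : t ^ 7 ≤ yy x := by
    have h7 : (1 : ℝ) ≤ t ^ 7 := one_le_pow₀ (by linarith)
    have : t ^ 8 = t * t ^ 7 := by ring
    nlinarith
  have hyt : t ≤ yy x := by
    refine le_trans ?_ ht7
    calc t = t ^ 1 := (pow_one t).symm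
      _ ≤ t ^ 7 := pow_le_pow_right₀ (by linarith) (by norm_num)
  have hy5 : (5 : ℝ) ≤ yy x := by
    refine le_trans ?_ ht7
    have : (3 : ℝ) ^ 7 ≤ t ^ 7 := pow_le_pow_left₀ (by norm_num) h1 7
    norm_num at this
    linarith
  have hy0 : (0 : ℝ) < yy x := by linarith
  have hlogy_up : Real.log (yy x) ≤ 8 * Real.log t := by
    have := Real.log_le_log hy0 hyle
    rw [Real.log_pow] at this
    exact_mod_cast this
  have hlogy_low : Real.log t ≤ Real.log (yy x) := Real.log_le_log ht0 hyt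
  have hlogy1 : 1 ≤ Real.log (yy x) := le_trans h2 hlogy_low
  have hlogy0 : 0 < Real.log (yy x) := by linarith
  have hlog1 : Real.log ((yy x : ℝ) + 1) ≤ 9 * Real.log t := by
    have hle : (yy x : ℝ) + 1 ≤ t ^ 9 := by
      have h8 : (1 : ℝ) ≤ t ^ 8 := one_le_pow₀ (by linarith)
      have : t ^ 9 = t * t ^ 8 := by ring
      nlinarith
    have := Real.log_le_log (by linarith) hle
    rw [Real.log_pow] at this
    exact_mod_cast this
  have hll0 : 0 ≤ Real.log (Real.log (yy x)) := Real.log_nonneg hlogy1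
  have hk_up : (cwk C1 x : ℝ) ≤ 64 * Real.log t + 8 * C1 + 2 := by
    unfold cwk
    have hnn : 0 ≤ 8 * (Real.log (Real.log (yy x)) + C1) := by linarith
    have := (Nat.ceil_lt_add_one hnn).le
    push_cast
    have h9 : Real.log (Real.log (yy x)) ≤ Real.log (yy x) := by
      have := Real.log_le_sub_one_of_pos hlogy0
      linarith
    linarith
  have hk_low : 8 * (Real.log (Real.log (yy x)) + C1) ≤ cwk C1 x := by
    unfold cwk
    have := Nat.le_ceil (8 * (Real.log (Real.log (yy x)) + C1))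
    push_cast
    linarith
  have hLLL : LLL x = Real.log t := by
    unfold LLL
    rw [← ht]
  refine ⟨by exact_mod_cast hy5, by linarith, g2, ?_, ?_, hk_low, ?_, ?_⟩
  · rw [hLLL]
    have h9 : Real.log t ≤ t := by
      have := Real.log_le_sub_one_of_pos ht0
      linarith
    have h10 : 6 * t ≤ t ^ 7 := by
      have : (3 : ℝ) ^ 6 ≤ t ^ 6 := pow_le_pow_left₀ (by norm_num) h1 6
      have h11 : t ^ 7 = t * t ^ 6 := by ring
      norm_num at this
      nlinarith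
    linarith
  · rw [hlx]
    have hpos : (0 : ℝ) < (yy x : ℝ) + 1 := by linarith
    have : ((yy x : ℝ) + 1) ^ (cwk C1 x) = Real.exp ((cwk C1 x : ℝ) * Real.log ((yy x : ℝ) + 1)) := by
      rw [Real.exp_nat_mul, Real.exp_log hpos]
    rw [this]
    apply Real.exp_le_exp.mpr
    have hk0 : (0 : ℝ) ≤ (cwk C1 x : ℝ) := Nat.cast_nonneg _
    calc (cwk C1 x : ℝ) * Real.log ((yy x : ℝ) + 1) ≤ (64 * Real.log t + 8 * C1 + 2) * (9 * Real.log t) := by
          apply mul_le_mul hk_up hlog1 (Real.log_nonneg (by linarith)) (by linarith)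
      _ = 9 * Real.log t * (64 * Real.log t + 8 * C1 + 2) := by ring
      _ ≤ t := h4
  · have h6 : Real.exp (-(cwk C1 x : ℝ)) ≤ 1 / Real.log (yy x) ^ 8 := by
      have : Real.exp (-(cwk C1 x : ℝ)) ≤ Real.exp (-(8 * Real.log (Real.log (yy x)))) := by
        apply Real.exp_le_exp.mpr
        linarith
      refine le_trans this ?_
      rw [Real.exp_neg, show (8 : ℝ) * Real.log (Real.log (yy x)) = ((8 : ℕ) : ℝ) * Real.log (Real.log (yy x)) by norm_num,
        Real.exp_nat_mul, Real.exp_log hlogy0, one_div]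
    have h7 : 8 / c ≤ Real.log (yy x) ^ 6 := by
      calc 8 / c ≤ Real.log t := h3
        _ ≤ Real.log (yy x) := hlogy_low
        _ = Real.log (yy x) ^ 1 := (pow_one _).symm
        _ ≤ Real.log (yy x) ^ 6 := pow_le_pow_right₀ hlogy1 (by norm_num)
    have h8 : 8 ≤ c * Real.log (yy x) ^ 6 := by
      rw [div_le_iff₀ hc] at h7
      linarith
    have h9 : 2 * (1 / Real.log (yy x) ^ 8) ≤ 1 / 2 * (1 / 2 * (c / Real.log (yy x) ^ 2)) := by
      have hz : Real.log (yy x) ^ 8 = Real.log (yy x) ^ 2 * Real.log (yy x) ^ 6 := by ring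
      have hq2 : 0 < Real.log (yy x) ^ 2 := by positivity
      have hq6 : 0 < Real.log (yy x) ^ 6 := by positivity
      rw [hz, mul_one_div, div_le_iff₀ (by positivity)]
      have : 1 / 2 * (1 / 2 * (c / Real.log (yy x) ^ 2)) * (Real.log (yy x) ^ 2 * Real.log (yy x) ^ 6) =
          1 / 4 * (c * Real.log (yy x) ^ 6) := by
        field_simp
        ring
      rw [this]
      linarith
    linarith
  · intro n hn
    rw [hLLL] at hn
    have hlog2 : Real.log 2 < 0.6931471808 := Real.log_two_lt_d9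
    have hlog2p : 0 < Real.log 2 := Real.log_pos (by norm_num)
    have hpow : t ^ (-(84 / 100) : ℝ) ≤ (1 / 2 : ℝ) ^ n := by
      have e1 : (1 / 2 : ℝ) ^ n = Real.exp (-((n : ℝ) * Real.log 2)) := by
        rw [Real.exp_neg, Real.exp_nat_mul, Real.exp_log (by norm_num), one_div, inv_pow]
      rw [e1, Real.rpow_def_of_pos ht0]
      apply Real.exp_le_exp.mpr
      have : (n : ℝ) * Real.log 2 ≤ (6 / 5 * Real.log t) * 0.6931471808 := by
        apply mul_le_mul hn hlog2.le hlog2p.le (by linarith)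
      nlinarith
    have hlowM : 1 / 4 * (c / (8 * Real.log t) ^ 2) ≤ 1 / 4 * (c / Real.log (yy x) ^ 2) := by
      apply mul_le_mul_of_nonneg_left _ (by norm_num)
      apply div_le_div_of_nonneg_left hc.le (by positivity)
      exact pow_le_pow_left₀ hlogy0.le hlogy_up 2
    have hinv : (Real.log x)⁻¹ ≤ t ^ (1 / 10 : ℝ) := by
      have a1 : (1 : ℝ) ≤ t ^ (1 / 10 : ℝ) := Real.one_le_rpow (by linarith) (by norm_num)
      have a2 : (Real.log x)⁻¹ ≤ 1 := inv_le_one_of_one_le₀ (by linarith)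
      linarith
    have hmain : 2 * t ^ (1 / 10 : ℝ) ≤
        1 / 2 * ((1 / 20 * t / φ) * (t ^ (-(84 / 100) : ℝ) * (1 / 4 * (c / (8 * Real.log t) ^ 2)))) := by
      have hLt : 0 < Real.log t := by linarith
      have b1 : t * t ^ (-(84 / 100) : ℝ) = t ^ (1 / 10 : ℝ) * t ^ (6 / 100 : ℝ) := by
        rw [← Real.rpow_add ht0]
        nth_rewrite 1 [← Real.rpow_one t]
        rw [← Real.rpow_add ht0]
        norm_num
      have b2 : 1 / 2 * ((1 / 20 * t / φ) * (t ^ (-(84 / 100) : ℝ) * (1 / 4 * (c / (8 * Real.log t) ^ 2)))) =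
          (t * t ^ (-(84 / 100) : ℝ)) * (c / (160 * 64 * φ * Real.log t ^ 2)) := by
        field_simp
        ring
      rw [b2, b1]
      have b3 : 2 ≤ t ^ (6 / 100 : ℝ) * (c / (160 * 64 * φ * Real.log t ^ 2)) := by
        have : 2 = (2 * 160 * 64 * φ / c) * Real.log t ^ 2 * (c / (160 * 64 * φ * Real.log t ^ 2)) := by
          field_simp
        rw [this]
        apply mul_le_mul_of_nonneg_right h5 (by positivity)
      have b4 : 0 < t ^ (1 / 10 : ℝ) := Real.rpow_pos_of_pos ht0 _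
      nlinarith
    have hcomp : 1 / 2 * ((1 / 20 * t / φ) * (t ^ (-(84 / 100) : ℝ) * (1 / 4 * (c / (8 * Real.log t) ^ 2)))) ≤
        1 / 2 * ((1 / 20 * t / φ) * ((1 / 2) ^ n * (1 / 4 * (c / Real.log (yy x) ^ 2)))) := by
      have hLt : 0 < Real.log t := by linarith
      apply mul_le_mul_of_nonneg_left _ (by norm_num)
      apply mul_le_mul_of_nonneg_left _ (by positivity)
      apply mul_le_mul hpow hlowM (by positivity) (by positivity)
    linarith

theorem ws_low (τ : WT) (C : ℕ) : ∃ x0 : ℕ, ∀ x : ℕ, x0 ≤ x → ∀ d : ℕ, DOK C x d →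
    LL x ^ (1 / 10 : ℝ) ≤ ∑ w ∈ WS τ x d, 1 / (w : ℝ) := by
  obtain ⟨C1, hC1, hsum⟩ := sum_up
  obtain ⟨c, hc0, hprod⟩ := prod_low
  obtain ⟨x1, hcls⟩ := class_sum (C + 2) 2
  have hφ : (0 : ℝ) < (τ.M.totient : ℝ) := by exact_mod_cast Nat.totient_pos.mpr τ.hM0
  obtain ⟨x2, hnum⟩ := cw_num C1 c τ.M.totient τ.M hC1 hc0 hφ
  refine ⟨max x1 x2, fun x hx d hd => ?_⟩
  obtain ⟨n1, n2, n3, n4, n5, n6, n7, n8⟩ := hnum x (le_trans (le_max_right _ _) hx)
  have hx1 : x1 ≤ x := le_trans (le_max_left _ _) hx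
  obtain ⟨hd1, hdZ, hdC, hdcard⟩ := hd
  have hLLp : 0 < LL x := Real.log_pos n2
  -- the sieve
  set k := cwk C1 x with hk
  have hk1 : 1 ≤ k := by rw [hk]; unfold cwk; omega
  set P := cwP τ d with hP
  set L := cwL τ x d with hL
  set A := (RR x).filter (fun w => w ≡ τ.h [MOD τ.M] ∧ ∀ p ∈ P, w % p ∈ GG τ.h p) with hA
  set A0 := (∏ p ∈ P, ((GG τ.h p).card : ℝ) / ((p : ℝ) - 1)) * (1 / 20 * LL x / τ.M.totient) with hA0
  have hPp : ∀ p ∈ P, p.Prime ∧ ¬ p ∣ τ.M := fun p hp =>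
    ⟨((mem_cwP hd1).mp hp).1, ((mem_cwP hd1).mp hp).2.2⟩
  have hLp : ∀ l ∈ L, l.Prime ∧ ¬ l ∣ τ.M ∧ l ∉ P := by
    intro l hl
    rw [hL] at hl
    unfold cwL at hl
    rw [mem_filter, mem_filter] at hl
    exact ⟨hl.1.2, hl.2.1, hl.2.2⟩
  have hA0nn : 0 ≤ A0 := by
    rw [hA0]
    apply mul_nonneg
    · apply prod_nonneg
      intro p hp
      have := (cwP_three hd1 hp).2
      have h3' : (3 : ℝ) ≤ p := by exact_mod_cast this
      apply div_nonneg (by positivity) (by linarith)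
    · positivity
  have hprodP : (∏ p ∈ P, (p : ℝ)) ≤ Real.log x ^ C := by
    have h1 : ∏ p ∈ P, p ∣ d := by
      refine dvd_trans (Finset.prod_dvd_prod_of_subset P d.primeFactors _ (filter_subset _ _)) ?_
      exact Nat.prod_primeFactors_dvd d
    have h2 : ∏ p ∈ P, p ≤ d := Nat.le_of_dvd (by omega) h1
    have h3 : (∏ p ∈ P, (p : ℝ)) ≤ d := by
      have : ((∏ p ∈ P, p : ℕ) : ℝ) ≤ (d : ℝ) := by exact_mod_cast h2
      simpa using this
    exact le_trans h3 hdC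
  have hcardL : L.card ≤ yy x := by
    rw [hL]
    unfold cwL
    calc _ ≤ ((Icc 2 (yy x)).filter Nat.Prime).card := card_le_card (filter_subset _ _)
      _ ≤ (Icc 2 (yy x)).card := card_le_card (filter_subset _ _)
      _ ≤ yy x := by rw [Nat.card_Icc]; omega
  have hlogpos : 0 < Real.log x := by linarith
  obtain ⟨E, hE⟩ : ∃ E : ℕ → ℕ → Prop, ∀ l w, E l w ↔ w ≡ 1 [MOD l] := ⟨_, fun _ _ => Iff.rfl⟩
  have hbr := brun A (fun w : ℕ => 1 / (w : ℝ)) (fun n _ => by positivity) L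
    E (k - 1) A0 hA0nn (fun l : ℕ => 1 / ((l : ℝ) - 1))
    (by
      intro l hl
      have h3' : (3 : ℝ) ≤ l := by exact_mod_cast (cwL_three hl).2
      apply div_nonneg (by norm_num) (by linarith))
    (by
      intro l hl
      have h3' : (3 : ℝ) ≤ l := by exact_mod_cast (cwL_three hl).2
      rw [div_le_one (by linarith)]
      linarith)
    ((Real.log x ^ 2)⁻¹) (by positivity)
    (by
      intro T hT hTc
      have hTk : T.card ≤ k := by omega
      have hprodT : (∏ l ∈ T, (l : ℝ)) ≤ Real.log x := by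
        calc (∏ l ∈ T, (l : ℝ)) ≤ ∏ l ∈ T, ((yy x : ℝ) + 1) := by
              apply prod_le_prod (fun l _ => Nat.cast_nonneg _)
              intro l hl
              have hlL := hT hl
              rw [hL] at hlL
              unfold cwL at hlL
              rw [mem_filter, mem_filter, mem_Icc] at hlL
              have : (l : ℝ) ≤ yy x := by exact_mod_cast hlL.1.1.2
              linarith
          _ = ((yy x : ℝ) + 1) ^ T.card := by rw [prod_const]
          _ ≤ ((yy x : ℝ) + 1) ^ k := by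
              apply pow_le_pow_right₀ _ hTk
              have : (0 : ℝ) ≤ yy x := Nat.cast_nonneg _
              linarith
          _ ≤ Real.log x := n5
      have hq : (τ.M : ℝ) * (∏ p ∈ P, (p : ℝ)) * (∏ l ∈ T, (l : ℝ)) ≤ Real.log x ^ (C + 2) := by
        calc (τ.M : ℝ) * (∏ p ∈ P, (p : ℝ)) * (∏ l ∈ T, (l : ℝ))
            ≤ Real.log x * Real.log x ^ C * Real.log x := by
              apply mul_le_mul _ hprodT (prod_nonneg fun l _ => Nat.cast_nonneg _) (by positivity)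
              apply mul_le_mul n3 hprodP (prod_nonneg fun l _ => Nat.cast_nonneg _) (by positivity)
          _ = Real.log x ^ (C + 2) := by ring
      have := hcls x hx1 τ.M τ.h τ.hM0 τ.hh P T (GG τ.h) hPp
        (fun l hl => hLp l (hT hl)) (by
          intro p hp u hu
          unfold GG at hu
          rw [mem_filter, mem_range] at hu
          exact ⟨hu.1, hu.2.1⟩) hq
      have he : A.filter (fun w => ∀ l ∈ T, E l w) =
          (RR x).filter (fun w => w ≡ τ.h [MOD τ.M] ∧ (∀ p ∈ P, w % p ∈ GG τ.h p) ∧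
            ∀ l ∈ T, w ≡ 1 [MOD l]) := by
        rw [hA, filter_filter]
        apply filter_congr
        intro w _
        simp only [hE]
        tauto
      rw [he]
      have hA0e : A0 * ∏ i ∈ T, 1 / ((i : ℝ) - 1) =
          (∏ p ∈ P, ((GG τ.h p).card : ℝ) / ((p : ℝ) - 1)) * (∏ l ∈ T, 1 / ((l : ℝ) - 1)) *
          (1 / 20 * LL x / τ.M.totient) := by
        rw [hA0]
        ring
      rw [hA0e]
      exact this)
  have hk' : k - 1 + 1 = k := by omega
  rw [hk'] at hbr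
  -- the sum of g
  have hG : ∑ l ∈ L, 1 / ((l : ℝ) - 1) ≤ Real.log (Real.log (yy x)) + C1 := by
    refine le_trans ?_ (hsum (yy x) (by omega))
    apply sum_le_sum_of_subset_of_nonneg
    · rw [hL]
      unfold cwL
      exact filter_subset _ _
    · intro l hl _
      rw [mem_filter, mem_Icc] at hl
      have : (2 : ℝ) ≤ l := by exact_mod_cast hl.1.1
      apply div_nonneg (by norm_num) (by linarith)
  have hG0 : 0 ≤ ∑ l ∈ L, 1 / ((l : ℝ) - 1) := by
    apply sum_nonneg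
    intro l hl
    have h3' : (3 : ℝ) ≤ l := by exact_mod_cast (cwL_three hl).2
    apply div_nonneg (by norm_num) (by linarith)
  have hfac := pow_div_fact _ hG0 k (by linarith)
  have herr2 : ((L.card : ℝ) + 1) ^ k * (Real.log x ^ 2)⁻¹ ≤ (Real.log x)⁻¹ := by
    have h1 : ((L.card : ℝ) + 1) ^ k ≤ Real.log x := by
      refine le_trans ?_ n5
      apply pow_le_pow_left₀ (by positivity)
      have : (L.card : ℝ) ≤ yy x := by exact_mod_cast hcardL
      linarith
    calc ((L.card : ℝ) + 1) ^ k * (Real.log x ^ 2)⁻¹ ≤ Real.log x * (Real.log x ^ 2)⁻¹ := by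
          apply mul_le_mul_of_nonneg_right h1 (by positivity)
      _ = (Real.log x)⁻¹ := by
          field_simp
  have hsub : ∑ n ∈ A.filter (fun n => ∀ i ∈ L, ¬ E i n), 1 / (n : ℝ) ≤
      ∑ w ∈ WS τ x d, 1 / (w : ℝ) := by
    apply sum_le_sum_of_subset_of_nonneg
    · refine subset_trans ?_ (cw_sub τ x d hd1)
      intro w hw
      rw [mem_filter] at hw ⊢
      refine ⟨hw.1, fun l hl => ?_⟩
      rw [← hE]
      exact hw.2 l hl
    · intro w _ _
      positivity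
  have hlow := (abs_le.mp hbr).1
  have hcard4 : 4 * (P.card : ℝ) ≤ yy x := by
    have h1 : (P.card : ℝ) ≤ 6 / 5 * LLL x := by
      refine le_trans ?_ hdcard
      exact_mod_cast card_le_card (filter_subset _ _)
    linarith
  have hpr := cw_prod τ x d hd1 (hprod (yy x) (by omega)) hc0 hcard4 n1
  have hprL := cw_prodL τ x d (hprod (yy x) (by omega))
  have hPn : (P.card : ℝ) ≤ 6 / 5 * LLL x := by
    refine le_trans ?_ hdcard
    exact_mod_cast card_le_card (filter_subset _ _)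
  have hfin := n8 P.card hPn
  -- truncation error at most half of the main term
  have htr : 2 * A0 * ((∑ l ∈ L, 1 / ((l : ℝ) - 1)) ^ k / k.factorial) ≤
      1 / 2 * (A0 * ∏ l ∈ L, (1 - 1 / ((l : ℝ) - 1))) := by
    calc 2 * A0 * ((∑ l ∈ L, 1 / ((l : ℝ) - 1)) ^ k / k.factorial)
        ≤ 2 * A0 * Real.exp (-(k : ℝ)) := by
          apply mul_le_mul_of_nonneg_left hfac (by linarith)
      _ = A0 * (2 * Real.exp (-(k : ℝ))) := by ring
      _ ≤ A0 * (1 / 2 * (1 / 2 * (c / Real.log (yy x) ^ 2))) := by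
          apply mul_le_mul_of_nonneg_left n7 hA0nn
      _ ≤ A0 * (1 / 2 * ∏ l ∈ L, (1 - 1 / ((l : ℝ) - 1))) := by
          apply mul_le_mul_of_nonneg_left _ hA0nn
          apply mul_le_mul_of_nonneg_left hprL (by norm_num)
      _ = _ := by ring
  have hmainlow : (1 / 20 * LL x / τ.M.totient) * ((1 / 2) ^ P.card * (1 / 4 * (c / Real.log (yy x) ^ 2))) ≤
      A0 * ∏ l ∈ L, (1 - 1 / ((l : ℝ) - 1)) := by
    calc _ ≤ (1 / 20 * LL x / τ.M.totient) *
          ((∏ p ∈ P, ((GG τ.h p).card : ℝ) / ((p : ℝ) - 1)) * ∏ l ∈ L, (1 - 1 / ((l : ℝ) - 1))) := by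
          apply mul_le_mul_of_nonneg_left hpr (by positivity)
      _ = _ := by rw [hA0]; ring
  linarith

theorem mu_low (τ : WT) (C : ℕ) : ∃ x0 : ℕ, ∀ x : ℕ, x0 ≤ x → ∀ d : ℕ, DOK C x d →
    LL x ^ (1 / 10 : ℝ) ≤ mu τ x d := by
  obtain ⟨x0, h⟩ := ws_low τ C
  refine ⟨x0, fun x hx d hd => le_trans (h x hx d hd) ?_⟩
  unfold mu
  apply sum_le_sum
  intro w _
  apply div_le_div_of_nonneg_right _ (Nat.cast_nonneg _)
  have : 0 < τ.e.totient := Nat.totient_pos.mpr (by have := τ.he; omega)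
  exact_mod_cast this

end Pool.Agent.Lib.MP_79499b_co.DZ
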