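import Pool.Agent.Lib.MP_79499b_co.DZ.CTK
import Pool.Agent.Lib.MP_79499b_co.DZ.CCls
import Pool.Agent.Lib.MP_79499b_co.DZ.CWLow

/-!
# Fixed small part: an admissible `w` (module CFix)

PROOF. Apply `tka` with `N` = the `n < x` with `NS x d n`, `P = WS τ x d`, `E w n : Rt τ w n`,
`g w = φ(e)/w`, `N0 = (x/d) V x`, `δ = 1/(LL x)^2`. Hypotheses by `ns_pred` with `q = 1` (`Q = True`,
`nc = 1`), `q = w` (`Rt_per`, `Rt_card`: `nc w (Rt τ w) = φ(e)`), `q = w w'` (`crt_per`, `crt_card`,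
`nc = φ(e)^2`); `w w' ≤ (X2 x)^2 ≤ x^(3/4)`, all prime factors of `q` are `> X1 x ≥ Z0 x`. The `n`
without `w ∈ WS τ x d`, `Rt τ w n`, have count `0 ≤ mu/2`, so their number is at most
`N0 (8/mu + 16/(LL x)^2) ≤ ε N0`, since `mu τ x d ≥ (LL x)^(1/10)` (`mu_low`).
-/

set_option autoImplicit false

open Finset
open scoped Classical

namespace Pool.Agent.Lib.MP_79499b_co.DZ

private theorem cfix_num1 : ∀ᶠ L : ℝ in Filter.atTop,
    L ^ (100 : ℕ) ≤ Real.exp (L ^ (2 / 5 : ℝ)) := by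
  have ht : Filter.Tendsto (fun L : ℝ => L ^ (2 / 5 : ℝ)) Filter.atTop Filter.atTop :=
    tendsto_rpow_atTop (by norm_num)
  have h0 := (ht.eventually ((Real.tendsto_exp_div_pow_atTop 250).eventually_ge_atTop 1))
  filter_upwards [Filter.eventually_gt_atTop 0, h0] with L hL h0
  have hs : 0 < L ^ (2 / 5 : ℝ) := Real.rpow_pos_of_pos hL _
  rw [le_div_iff₀ (by positivity), one_mul, ← Real.rpow_natCast, ← Real.rpow_mul hL.le] at h0
  have h1 : (2 / 5 : ℝ) * ((250 : ℕ) : ℝ) = ((100 : ℕ) : ℝ) := by norm_num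
  rw [h1, Real.rpow_natCast] at h0
  exact h0

private theorem cfix_num2 : ∀ᶠ L : ℝ in Filter.atTop,
    2 * L ^ (9 / 20 : ℝ) ≤ 3 / 4 * L := by
  filter_upwards [Filter.eventually_ge_atTop 16] with L hL
  have hL0 : 0 < L := by linarith
  have h1 : L ^ (9 / 20 : ℝ) ≤ L ^ (1 / 2 : ℝ) :=
    Real.rpow_le_rpow_of_exponent_le (by linarith) (by norm_num)
  rw [← Real.sqrt_eq_rpow] at h1
  have h2 : √L ≤ L / 4 := by
    rw [Real.sqrt_le_left (by linarith)]
    nlinarith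
  linarith

private theorem cfix_num3 (ε : ℝ) (hε : 0 < ε) : ∀ᶠ t : ℝ in Filter.atTop,
    8 / t ^ (1 / 10 : ℝ) + 16 * (1 / t ^ 2) ≤ ε := by
  have h1 : Filter.Tendsto (fun t : ℝ => 8 / t ^ (1 / 10 : ℝ)) Filter.atTop (nhds 0) :=
    Filter.Tendsto.div_atTop tendsto_const_nhds (tendsto_rpow_atTop (by norm_num))
  have h2 : Filter.Tendsto (fun t : ℝ => 16 * (1 / t ^ 2)) Filter.atTop (nhds 0) := by
    have h3 : Filter.Tendsto (fun t : ℝ => 1 / t ^ 2) Filter.atTop (nhds 0) :=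
      Filter.Tendsto.div_atTop tendsto_const_nhds (Filter.tendsto_pow_atTop (by norm_num))
    simpa using h3.const_mul 16
  have h4 := h1.add h2
  rw [add_zero] at h4
  exact (h4.eventually_lt_const hε).mono (fun t ht => ht.le)

theorem fix_low (τ : WT) (C : ℕ) (ε : ℝ) (hε : 0 < ε) : ∃ x0 : ℕ, ∀ x : ℕ, x0 ≤ x →
    ∀ d : ℕ, DOK C x d →
    cnt x (fun n => NS x d n ∧ ¬ ∃ w ∈ WS τ x d, Rt τ w n) ≤ ε * ((x : ℝ) / d * V x) := by
  obtain ⟨x1, hx1⟩ := ns_pred C
  obtain ⟨x2, hx2⟩ := mu_low τ C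
  have hev := (log_tend.eventually (cfix_num1.and cfix_num2)).and
    ((LL_tend.eventually ((cfix_num3 ε hε).and (Filter.eventually_ge_atTop 1))).and
      (((log_tend.eventually_ge_atTop 1)).and
        ((Filter.eventually_ge_atTop x1).and (Filter.eventually_ge_atTop x2))))
  obtain ⟨x0, hx0⟩ := Filter.eventually_atTop.1 hev
  refine ⟨max x0 1, fun x hx d hd => ?_⟩
  obtain ⟨⟨hn1, hn2⟩, ⟨hn3, hLL1⟩, hL1, hxx1, hxx2⟩ := hx0 x ((le_max_left _ _).trans hx)
  have hxpos : 0 < x := lt_of_lt_of_le Nat.one_pos ((le_max_right _ _).trans hx)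
  have hx0' : (0 : ℝ) < (x : ℝ) := by exact_mod_cast hxpos
  have hns := hx1 x hxx1 d hd
  have hmu := hx2 x hxx2 d hd
  have hLL0 : 0 < LL x := by linarith
  -- numerical facts
  have hZX : (Z0 x : ℝ) ≤ X1 x := by
    unfold Z0 X1
    exact (Nat.floor_le (by positivity)).trans hn1
  have hX2 : X2 x * X2 x ≤ (x : ℝ) ^ (3 / 4 : ℝ) := by
    unfold X2
    rw [← Real.exp_add, Real.rpow_def_of_pos hx0']
    refine Real.exp_le_exp.2 ?_
    linarith
  have hX21 : 1 ≤ X2 x := by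
    unfold X2
    rw [Real.one_le_exp_iff]
    positivity
  have hWS : ∀ w ∈ WS τ x d, Rg x w ∧ w ≡ τ.h [MOD τ.M] := by
    intro w hw
    unfold WS at hw
    obtain ⟨h1, h2, _⟩ := mem_filter.1 hw
    exact ⟨mem_RR.1 h1, h2⟩
  have hN0 : 0 ≤ (x : ℝ) / d * V x := mul_nonneg (by positivity) (V_pos x).1.le
  -- cardinalities
  have hcard : ∀ (Q : ℕ → Prop) (inst : DecidablePred Q), cnt x (fun n => NS x d n ∧ Q n) =
      ((@Finset.filter ℕ Q inst ((range x).filter (fun n => NS x d n))).card : ℝ) := by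
    intro Q inst
    unfold Pool.Agent.Lib.MP_79499b_co.EO.cnt
    refine congrArg (fun s : Finset ℕ => (s.card : ℝ)) ?_
    ext n
    simp only [mem_filter]
    tauto
  have hmu0 : 0 < mu τ x d := lt_of_lt_of_le (Real.rpow_pos_of_pos hLL0 _) hmu
  have hδ0 : 0 ≤ 1 / LL x ^ 2 := by positivity
  have hδ1 : 1 / LL x ^ 2 ≤ 1 := by
    rw [div_le_one (by positivity)]
    exact one_le_pow₀ hLL1
  have hprime : ∀ w ∈ WS τ x d, ∀ p : ℕ, p.Prime → p ∣ w → Z0 x < p := by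
    intro w hw p hp hpw
    have h1 := (hWS w hw).1
    have h2 : p = w := (Nat.prime_dvd_prime_iff_eq hp h1.1).1 hpw
    have h3 : (Z0 x : ℝ) < (w : ℝ) := lt_of_le_of_lt hZX h1.2.1
    rw [h2]
    exact_mod_cast h3
  have h0 : |((((range x).filter (fun n => NS x d n))).card : ℝ) - (x : ℝ) / d * V x| ≤
      1 / LL x ^ 2 * ((x : ℝ) / d * V x) := by
    have h1 := hns 1 le_rfl (by
      have := hX2
      push_cast
      nlinarith) (fun p hp hp1 => by
        exact absurd (Nat.dvd_one.1 hp1) hp.ne_one) (fun _ => True) (fun n => Iff.rfl)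
    have h2 : nc 1 (fun _ => True) = 1 := by
      unfold nc
      rw [filter_true, card_range]
    rw [h2] at h1
    have h3 : cnt x (fun n => NS x d n ∧ True) =
        ((((range x).filter (fun n => NS x d n))).card : ℝ) := by
      rw [hcard (fun _ => True) (fun _ => instDecidableTrue), filter_true]
    rw [h3] at h1
    simpa using h1
  have h1 : ∀ w ∈ WS τ x d,
      |(((((range x).filter (fun n => NS x d n))).filter (fun n => Rt τ w n)).card : ℝ) -
        (x : ℝ) / d * V x * ((τ.e.totient : ℝ) / w)| ≤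
      1 / LL x ^ 2 * ((x : ℝ) / d * V x * ((τ.e.totient : ℝ) / w)) := by
    intro w hw
    have hw1 := hWS w hw
    have hwx : (w : ℝ) ≤ (x : ℝ) ^ (3 / 4 : ℝ) := by
      have h3 := hw1.1.2.2
      nlinarith
    have h4 := hns w hw1.1.1.one_lt.le hwx (hprime w hw) (fun n => Rt τ w n) (Rt_per τ w)
    rw [Rt_card τ w hw1.1.1 hw1.2] at h4
    rw [← hcard (fun n => Rt τ w n)]
    exact h4
  have h2 : ∀ w ∈ WS τ x d, ∀ w' ∈ WS τ x d, w ≠ w' →
      |(((((range x).filter (fun n => NS x d n))).filter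
          (fun n => Rt τ w n ∧ Rt τ w' n)).card : ℝ) -
        (x : ℝ) / d * V x * ((τ.e.totient : ℝ) / w * ((τ.e.totient : ℝ) / w'))| ≤
      1 / LL x ^ 2 * ((x : ℝ) / d * V x * ((τ.e.totient : ℝ) / w * ((τ.e.totient : ℝ) / w'))) := by
    intro w hw w' hw' hne
    have hw1 := hWS w hw
    have hw2 := hWS w' hw'
    have hwx : ((w * w' : ℕ) : ℝ) ≤ (x : ℝ) ^ (3 / 4 : ℝ) := by
      push_cast
      refine le_trans ?_ hX2
      exact mul_le_mul hw1.1.2.2 hw2.1.2.2 (Nat.cast_nonneg _) (by linarith)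
    have hcop : w.Coprime w' := (Nat.coprime_primes hw1.1.1 hw2.1.1).2 hne
    have h4 := hns (w * w') (Nat.mul_pos hw1.1.1.pos hw2.1.1.pos) hwx (fun p hp hpd => by
      rcases (Nat.Prime.dvd_mul hp).1 hpd with h5 | h5
      · exact hprime w hw p hp h5
      · exact hprime w' hw' p hp h5) (fun n => Rt τ w n ∧ Rt τ w' n)
      (crt_per (Rt_per τ w) (Rt_per τ w'))
    rw [crt_card hcop hw1.1.1.pos hw2.1.1.pos (Rt_per τ w) (Rt_per τ w'),
      Rt_card τ w hw1.1.1 hw1.2, Rt_card τ w' hw2.1.1 hw2.2] at h4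
    have h5 : (((τ.e.totient * τ.e.totient : ℕ) : ℝ) / ((w * w' : ℕ) : ℝ)) =
        (τ.e.totient : ℝ) / w * ((τ.e.totient : ℝ) / w') := by
      push_cast
      rw [div_mul_div_comm]
    rw [h5] at h4
    rw [← hcard (fun n => Rt τ w n ∧ Rt τ w' n)]
    exact h4
  have hmain := tka ((range x).filter (fun n => NS x d n)) (WS τ x d) (fun w n => Rt τ w n)
    (fun w => (τ.e.totient : ℝ) / w) ((x : ℝ) / d * V x) (1 / LL x ^ 2) hN0 hδ0 hδ1
    (fun w _ => by positivity) h0 h1 h2 hmu0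
  have hmu' : ∑ w ∈ WS τ x d, (τ.e.totient : ℝ) / w = mu τ x d := rfl
  rw [hmu'] at hmain
  have hle : cnt x (fun n => NS x d n ∧ ¬ ∃ w ∈ WS τ x d, Rt τ w n) ≤
      ((((range x).filter (fun n => NS x d n)).filter (fun n =>
        (((WS τ x d).filter (fun w => Rt τ w n)).card : ℝ) ≤ mu τ x d / 2)).card : ℝ) := by
    rw [hcard (fun n => ¬ ∃ w ∈ WS τ x d, Rt τ w n) (fun _ => instDecidableNot)]
    refine Nat.cast_le.2 (card_le_card ?_)
    intro n hn
    obtain ⟨hn1, hn2⟩ := mem_filter.1 hn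
    refine mem_filter.2 ⟨hn1, ?_⟩
    have h3 : (WS τ x d).filter (fun w => Rt τ w n) = ∅ := by
      rw [filter_eq_empty_iff]
      exact fun w hw h4 => hn2 ⟨w, hw, h4⟩
    rw [h3, card_empty, Nat.cast_zero]
    linarith
  refine hle.trans (hmain.trans ?_)
  rw [mul_comm ε]
  refine mul_le_mul_of_nonneg_left ?_ hN0
  refine le_trans (add_le_add_left ?_ _) hn3
  exact div_le_div_of_nonneg_left (by norm_num) (Real.rpow_pos_of_pos hLL0 _) hmu

end Pool.Agent.Lib.MP_79499b_co.DZ
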