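import Pool.Agent.Lib.MP_79499b_co.DZ.CPart
import Pool.Agent.Lib.Sieve.Mertens

/-!
# The small part is small (module CSmA)

PROOF of `small_size`. `log (sp x n) = ∑_{p^j ∣ n, p ≤ Z0 x, j ≥ 1} log p`. Summing over `1 ≤ n < x`:
`∑ log (sp x n) ≤ x ∑_{p ≤ Z0} log p/(p-1) ≤ x (log Z0 + C') ≤ x (100 LL x + C')`
(`Pool.Agent.Lib.Sieve.Mertens`, theorem `sum_log_div_le`: `∑_{p ≤ n} log p/p ≤ log n + log 4`, and
`∑ log p/(p(p-1))` converges). Hence the number of `n < x`, `n ≠ 0`, with `log (sp x n) > C LL x` is at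
most `x (100 LL x + C')/(C LL x) ≤ 101 x/C ≤ ε x` for `C ≥ 101/ε` and large `x`.
PROOF of `p0_power`. `p0^v > B`, `p0^v ∣ n`: with `k` minimal such that `p0^k > B`, the number of
`1 ≤ n < x` divisible by `p0^k` is at most `x/p0^k ≤ x/B ≤ ε x` if `B ≥ 1/ε`.
-/

set_option autoImplicit false

open Finset
open scoped Classical

namespace Pool.Agent.Lib.MP_79499b_co.DZ

/-- the logarithm of the small part -/
theorem small_size_log (x n : ℕ) :
    Real.log (sp x n : ℝ) ≤
      ∑ p ∈ (Icc 1 (Z0 x)).filter Nat.Prime, (n.factorization p : ℝ) * Real.log p := by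
  unfold sp
  push_cast
  rw [Real.log_prod]
  · calc ∑ p ∈ n.primeFactors.filter (fun p => p ≤ Z0 x), Real.log ((p : ℝ) ^ n.factorization p)
        = ∑ p ∈ n.primeFactors.filter (fun p => p ≤ Z0 x),
            (n.factorization p : ℝ) * Real.log p := by
          refine sum_congr rfl fun p _ => ?_
          rw [Real.log_pow]
      _ ≤ _ := by
          refine sum_le_sum_of_subset_of_nonneg ?_ ?_
          · intro p hp
            rw [mem_filter, Nat.mem_primeFactors] at hp
            rw [mem_filter, mem_Icc]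
            exact ⟨⟨hp.1.1.one_lt.le, hp.2⟩, hp.1.1⟩
          · intro p hp _
            have := Real.log_natCast_nonneg p
            positivity
  · intro p hp
    rw [mem_filter, Nat.mem_primeFactors] at hp
    have : (p : ℝ) ≠ 0 := by exact_mod_cast hp.1.1.ne_zero
    positivity

/-- the sum of the `p`-adic valuations (Legendre) -/
theorem small_size_fact (x p : ℕ) (hp : p.Prime) :
    (p - 1) * ∑ n ∈ (range x).filter (fun n => n ≠ 0), n.factorization p ≤ x := by
  rcases x with _ | y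
  · simp
  · have h1 : ∑ n ∈ (range (y + 1)).filter (fun n => n ≠ 0), n.factorization p
        = (y.factorial).factorization p := by
      rw [← prod_range_add_one_eq_factorial, Nat.factorization_prod (fun i _ => Nat.succ_ne_zero i)]
      rw [Finsupp.finsetSum_apply]
      have h2 : (range (y + 1)).filter (fun n => n ≠ 0) = (range y).image (fun i => i + 1) := by
        ext n
        rw [mem_filter, mem_range, mem_image]
        constructor
        · rintro ⟨h, h'⟩
          exact ⟨n - 1, by rw [mem_range]; omega, by omega⟩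
        · rintro ⟨i, hi, rfl⟩
          rw [mem_range] at hi
          exact ⟨by omega, by omega⟩
      rw [h2, sum_image (fun a _ b _ hab => by simpa using hab)]
    rw [h1]
    have : Fact p.Prime := ⟨hp⟩
    have h3 := sub_one_mul_padicValNat_factorial (p := p) y
    rw [Nat.factorization_def _ hp, h3]
    omega

theorem small_size (ε : ℝ) (hε : 0 < ε) : ∃ C : ℕ, ∃ x0 : ℕ, ∀ x : ℕ, x0 ≤ x →
    cnt x (fun n => n ≠ 0 ∧ Real.log x ^ C < (sp x n : ℝ)) ≤ ε * x := by
  obtain ⟨C, hC⟩ := exists_nat_gt (202 / ε)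
  have hC0 : (0 : ℝ) < C := lt_trans (by positivity) hC
  have h1 : ∀ᶠ x : ℕ in Filter.atTop, max 1 (Real.log 4) ≤ LL x :=
    LL_tend.eventually_ge_atTop _
  have h2 : ∀ᶠ x : ℕ in Filter.atTop, (1 : ℝ) ≤ Real.log x := log_tend.eventually_ge_atTop _
  obtain ⟨x0, hx0⟩ := Filter.eventually_atTop.mp (h1.and h2)
  refine ⟨C, x0, fun x hx => ?_⟩
  obtain ⟨a1, a2⟩ := hx0 x hx
  have hL1 : 1 ≤ LL x := le_trans (le_max_left _ _) a1
  have hL4 : Real.log 4 ≤ LL x := le_trans (le_max_right _ _) a1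
  have hZ1 : 1 ≤ Z0 x := by
    unfold Z0
    refine Nat.le_floor ?_
    push_cast
    exact one_le_pow₀ a2
  have hZlog : Real.log (Z0 x) ≤ 100 * LL x := by
    have h3 : (Z0 x : ℝ) ≤ Real.log x ^ 100 := Nat.floor_le (by positivity)
    calc Real.log (Z0 x) ≤ Real.log (Real.log x ^ 100) :=
          Real.log_le_log (by exact_mod_cast hZ1) h3
      _ = 100 * LL x := by
          rw [Real.log_pow]
          norm_num [LL]
  set B := (range x).filter (fun n => n ≠ 0 ∧ Real.log x ^ C < (sp x n : ℝ)) with hB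
  -- each bad n has a large logarithm
  have h4 : ∀ n ∈ B, (C : ℝ) * LL x ≤
      ∑ p ∈ (Icc 1 (Z0 x)).filter Nat.Prime, (n.factorization p : ℝ) * Real.log p := by
    intro n hn
    rw [hB, mem_filter] at hn
    refine le_trans ?_ (small_size_log x n)
    have h5 : Real.log (Real.log x ^ C) ≤ Real.log (sp x n) :=
      Real.log_le_log (by positivity) hn.2.2.le
    rw [Real.log_pow] at h5
    exact h5
  have h5 : (B.card : ℝ) * (C * LL x) ≤ ∑ n ∈ (range x).filter (fun n => n ≠ 0),
      ∑ p ∈ (Icc 1 (Z0 x)).filter Nat.Prime, (n.factorization p : ℝ) * Real.log p := by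
    calc (B.card : ℝ) * (C * LL x) = ∑ _n ∈ B, (C * LL x) := by
          rw [sum_const, nsmul_eq_mul]
      _ ≤ ∑ n ∈ B, ∑ p ∈ (Icc 1 (Z0 x)).filter Nat.Prime,
            (n.factorization p : ℝ) * Real.log p := sum_le_sum h4
      _ ≤ _ := by
          refine sum_le_sum_of_subset_of_nonneg ?_ ?_
          · intro n hn
            rw [hB, mem_filter] at hn
            rw [mem_filter]
            exact ⟨hn.1, hn.2.1⟩
          · intro n _ _
            refine sum_nonneg fun p _ => ?_
            have := Real.log_natCast_nonneg p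
            positivity
  rw [sum_comm] at h5
  have h6 : ∀ p ∈ (Icc 1 (Z0 x)).filter Nat.Prime,
      ∑ n ∈ (range x).filter (fun n => n ≠ 0), (n.factorization p : ℝ) * Real.log p ≤
        2 * x * (Real.log p / p) := by
    intro p hp
    rw [mem_filter] at hp
    have hp2 : (2 : ℝ) ≤ p := by exact_mod_cast hp.2.two_le
    have hlog := Real.log_natCast_nonneg p
    rw [← sum_mul]
    have h7 : ((p : ℝ) - 1) * ∑ n ∈ (range x).filter (fun n => n ≠ 0), (n.factorization p : ℝ)
        ≤ x := by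
      have h8 := small_size_fact x p hp.2
      have h9 : (((p - 1) * ∑ n ∈ (range x).filter (fun n => n ≠ 0), n.factorization p : ℕ) : ℝ)
          ≤ (x : ℝ) := by exact_mod_cast h8
      rw [Nat.cast_mul, Nat.cast_sub hp.2.one_lt.le, Nat.cast_sum, Nat.cast_one] at h9
      exact h9
    set S := ∑ n ∈ (range x).filter (fun n => n ≠ 0), (n.factorization p : ℝ) with hS
    have hS0 : 0 ≤ S := sum_nonneg fun n _ => Nat.cast_nonneg _
    have h10 : S * p ≤ 2 * x := by nlinarith
    have h11 : S ≤ 2 * x / p := by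
      rw [le_div_iff₀ (by linarith)]
      exact h10
    calc S * Real.log p ≤ 2 * x / p * Real.log p := mul_le_mul_of_nonneg_right h11 hlog
      _ = 2 * x * (Real.log p / p) := by ring
  have h7 : (B.card : ℝ) * (C * LL x) ≤ 2 * x * (101 * LL x) := by
    calc (B.card : ℝ) * (C * LL x)
        ≤ ∑ p ∈ (Icc 1 (Z0 x)).filter Nat.Prime, 2 * x * (Real.log p / p) :=
          le_trans h5 (sum_le_sum h6)
      _ = 2 * x * ∑ p ∈ (Icc 1 (Z0 x)).filter Nat.Prime, Real.log p / p := by rw [mul_sum]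
      _ ≤ 2 * x * (Real.log (Z0 x) + Real.log 4) :=
          mul_le_mul_of_nonneg_left (Pool.Agent.Lib.Sieve.sum_log_div_le _ hZ1) (by positivity)
      _ ≤ 2 * x * (101 * LL x) := by
          refine mul_le_mul_of_nonneg_left ?_ (by positivity)
          linarith
  have h8 : cnt x (fun n => n ≠ 0 ∧ Real.log x ^ C < (sp x n : ℝ)) = (B.card : ℝ) := by
    unfold cnt
    exact congrArg (fun t : Finset ℕ => (t.card : ℝ)) (by ext n; simp only [mem_filter, hB])
  rw [h8]
  have h9 : (B.card : ℝ) * C ≤ 202 * x := by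
    have hLpos : 0 < LL x := by linarith
    have : (B.card : ℝ) * C * LL x ≤ 202 * x * LL x := by nlinarith
    exact le_of_mul_le_mul_right this hLpos
  have h10 : 202 < ε * C := by
    rw [div_lt_iff₀ hε] at hC
    linarith
  have hx0' : (0 : ℝ) ≤ x := Nat.cast_nonneg _
  have h11 : (B.card : ℝ) * C ≤ ε * x * C := by nlinarith
  exact le_of_mul_le_mul_right h11 hC0

theorem p0_power (p0 : ℕ) (hp0 : p0.Prime) (ε : ℝ) (hε : 0 < ε) : ∃ B : ℕ, ∀ x : ℕ,
    cnt x (fun n => n ≠ 0 ∧ B < p0 ^ n.factorization p0) ≤ ε * x := by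
  obtain ⟨k, hk⟩ := exists_nat_gt (1 / ε)
  have hk2 : (k : ℝ) ≤ (p0 : ℝ) ^ k := by
    have h := (Nat.lt_pow_self hp0.one_lt (n := k)).le
    exact_mod_cast h
  have hM : (0 : ℝ) < (p0 : ℝ) ^ k := by
    have : (0 : ℝ) < p0 := by exact_mod_cast hp0.pos
    positivity
  refine ⟨p0 ^ k, fun x => ?_⟩
  have h1 : cnt x (fun n => n ≠ 0 ∧ p0 ^ k < p0 ^ n.factorization p0) ≤ ((x / p0 ^ k : ℕ) : ℝ) := by
    unfold cnt
    rw [← Nat.Ioc_filter_dvd_card_eq_div x (p0 ^ k)]
    refine Nat.cast_le.mpr (card_le_card ?_)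
    intro n hn
    simp only [mem_filter, mem_range] at hn
    rw [mem_filter, mem_Ioc]
    refine ⟨⟨Nat.pos_of_ne_zero hn.2.1, hn.1.le⟩, ?_⟩
    have h2 : k < n.factorization p0 := (Nat.pow_lt_pow_iff_right hp0.one_lt).mp hn.2.2
    exact (pow_dvd_pow p0 h2.le).trans (Nat.ordProj_dvd n p0)
  have h2 : ((x / p0 ^ k : ℕ) : ℝ) ≤ (x : ℝ) / ((p0 ^ k : ℕ) : ℝ) := Nat.cast_div_le
  rw [Nat.cast_pow] at h2
  refine le_trans h1 (le_trans h2 ?_)
  rw [div_le_iff₀ hM]
  have h3 : 1 < ε * (p0 : ℝ) ^ k := by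
    rw [div_lt_iff₀ hε] at hk
    nlinarith
  have hx0' : (0 : ℝ) ≤ x := Nat.cast_nonneg _
  nlinarith

end Pool.Agent.Lib.MP_79499b_co.DZ
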