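import Pool.Agent.Lib.MP_79499b_co.DZ.CPart

/-!
# The number of small prime factors (module CSmB)

PROOF (Turan). The primes dividing `sp x n` are the primes `p ≤ Z0 x` dividing `n`. Let `K n` be
their number, `μ = ∑_{p ≤ Z0 x} 1/p = LLL x + O(1)` (`sumZ`). `∑_{n < x} (K n - μ)^2`: with
`#{n < x : p ∣ n} = x/p + O(1)`, `#{n < x : p p' ∣ n} = x/(p p') + O(1)` this is
`≤ x μ + O((Z0 x + 1)^2 (1 + μ)) ≤ 2 x μ` for large `x` (`Z0 x ≤ (log x)^100`). If
`K n > (6/5) LLL x` then `K n - μ ≥ LLL x/10` for large `x`, so the number of such `n` is at most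
`200 x μ/(LLL x)^2 ≤ 400 x/LLL x ≤ ε x`.
-/

set_option autoImplicit false

open Finset
open scoped Classical

namespace Pool.Agent.Lib.MP_79499b_co.DZ

/-- counting multiples -/
theorem small_omega_cnt (x d : ℕ) (hx : 1 ≤ x) (hd : 1 ≤ d) :
    (x : ℝ) / d ≤ (((range x).filter (fun n => d ∣ n)).card : ℝ) ∧
      (((range x).filter (fun n => d ∣ n)).card : ℝ) ≤ (x : ℝ) / d + 1 := by
  obtain ⟨y, rfl⟩ : ∃ y, x = y + 1 := ⟨x - 1, by omega⟩
  have h1 : (range (y + 1)).filter (fun n => d ∣ n) =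
      insert 0 ((range (y + 1)).filter (fun n => n ≠ 0 ∧ d ∣ n)) := by
    ext n
    simp only [mem_filter, mem_range, mem_insert]
    constructor
    · rintro ⟨h, h'⟩
      by_cases hn : n = 0
      · exact Or.inl hn
      · exact Or.inr ⟨h, hn, h'⟩
    · rintro (rfl | ⟨h, _, h'⟩)
      · exact ⟨Nat.succ_pos _, dvd_zero _⟩
      · exact ⟨h, h'⟩
  have h2 : ((range (y + 1)).filter (fun n => n ≠ 0 ∧ d ∣ n)).card = y / d := by
    have h3 := Nat.card_multiples' y d
    rw [← h3]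
  have h3 : ((range (y + 1)).filter (fun n => d ∣ n)).card = y / d + 1 := by
    rw [h1, card_insert_of_notMem (by simp), h2]
  rw [h3]
  have hd0 : (0 : ℝ) < d := by exact_mod_cast hd
  push_cast
  constructor
  · rw [div_le_iff₀ hd0]
    have h4 : y + 1 ≤ (y / d + 1) * d := by
      have := Nat.div_add_mod y d
      have := Nat.mod_lt y hd
      nlinarith
    exact_mod_cast h4
  · have h4 : ((y / d : ℕ) : ℝ) ≤ (y : ℝ) / d := Nat.cast_div_le
    have h5 : (y : ℝ) / d ≤ ((y : ℝ) + 1) / d := by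
      gcongr
      linarith
    linarith

/-- Turan's variance bound -/
theorem small_omega_var (x : ℕ) (hx : 1 ≤ x) (P : Finset ℕ) (hP : ∀ p ∈ P, p.Prime) :
    ∑ n ∈ range x, (∑ p ∈ P, (if p ∣ n then (1 : ℝ) else 0) - ∑ p ∈ P, 1 / (p : ℝ)) ^ 2 ≤
      x * ∑ p ∈ P, 1 / (p : ℝ) + (P.card : ℝ) ^ 2 := by
  set μ := ∑ p ∈ P, 1 / (p : ℝ) with hμ
  have hμ0 : 0 ≤ μ := sum_nonneg fun p _ => by positivity
  have hc : ∀ d : ℕ, ∑ n ∈ range x, (if d ∣ n then (1 : ℝ) else 0) =
      (((range x).filter (fun n => d ∣ n)).card : ℝ) := by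
    intro d
    rw [card_filter]
    push_cast
    rfl
  have h1 : x * μ ≤ ∑ n ∈ range x, ∑ p ∈ P, (if p ∣ n then (1 : ℝ) else 0) := by
    rw [sum_comm, hμ, mul_sum]
    refine sum_le_sum fun p hp => ?_
    rw [hc]
    have := (small_omega_cnt x p hx (hP p hp).one_lt.le).1
    rw [mul_one_div]
    exact this
  have h2 : ∑ n ∈ range x, (∑ p ∈ P, (if p ∣ n then (1 : ℝ) else 0)) ^ 2 ≤
      x * μ ^ 2 + (P.card : ℝ) ^ 2 + x * μ := by
    have h3 : ∀ n : ℕ, (∑ p ∈ P, (if p ∣ n then (1 : ℝ) else 0)) ^ 2 =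
        ∑ p ∈ P, ∑ q ∈ P, (if p ∣ n then (1 : ℝ) else 0) * (if q ∣ n then (1 : ℝ) else 0) := by
      intro n
      rw [sq, sum_mul_sum]
    rw [sum_congr rfl fun n _ => h3 n, sum_comm]
    rw [sum_congr rfl fun p _ => sum_comm]
    have h4 : ∀ p ∈ P, ∀ q ∈ P, ∑ n ∈ range x,
        (if p ∣ n then (1 : ℝ) else 0) * (if q ∣ n then (1 : ℝ) else 0) ≤
        x * (1 / (p : ℝ) * (1 / (q : ℝ))) + 1 + (if p = q then x * (1 / (p : ℝ)) else 0) := by
      intro p hp q hq
      have hp0 : (0 : ℝ) < p := by exact_mod_cast (hP p hp).pos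
      have hq0 : (0 : ℝ) < q := by exact_mod_cast (hP q hq).pos
      by_cases hpq : p = q
      · subst hpq
        rw [if_pos rfl]
        have h5 : ∀ n : ℕ, (if p ∣ n then (1 : ℝ) else 0) * (if p ∣ n then (1 : ℝ) else 0) =
            if p ∣ n then (1 : ℝ) else 0 := by
          intro n
          split_ifs <;> simp
        rw [sum_congr rfl fun n _ => h5 n, hc]
        have h6 := (small_omega_cnt x p hx (hP p hp).one_lt.le).2
        have h7 : 0 ≤ (x : ℝ) * (1 / (p : ℝ) * (1 / (p : ℝ))) := by positivity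
        have h8 : (x : ℝ) * (1 / (p : ℝ)) = x / p := mul_one_div _ _
        linarith
      · rw [if_neg hpq]
        have hcop : Nat.Coprime p q := (Nat.coprime_primes (hP p hp) (hP q hq)).mpr hpq
        have h5 : ∀ n : ℕ, (if p ∣ n then (1 : ℝ) else 0) * (if q ∣ n then (1 : ℝ) else 0) =
            if p * q ∣ n then (1 : ℝ) else 0 := by
          intro n
          by_cases ha : p ∣ n
          · by_cases hb : q ∣ n
            · rw [if_pos ha, if_pos hb, if_pos (hcop.mul_dvd_of_dvd_of_dvd ha hb)]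
              norm_num
            · rw [if_pos ha, if_neg hb, if_neg fun hh => hb ((dvd_mul_left q p).trans hh)]
              norm_num
          · rw [if_neg ha, if_neg fun hh => ha ((dvd_mul_right p q).trans hh)]
            norm_num
        rw [sum_congr rfl fun n _ => h5 n, hc]
        have h6 := (small_omega_cnt x (p * q) hx
          (Nat.mul_pos (hP p hp).pos (hP q hq).pos)).2
        rw [Nat.cast_mul] at h6
        have h7 : (x : ℝ) / (p * q) = x * (1 / (p : ℝ) * (1 / (q : ℝ))) := by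
          field_simp
        linarith
    calc ∑ p ∈ P, ∑ q ∈ P, ∑ n ∈ range x,
          (if p ∣ n then (1 : ℝ) else 0) * (if q ∣ n then (1 : ℝ) else 0)
        ≤ ∑ p ∈ P, ∑ q ∈ P, (x * (1 / (p : ℝ) * (1 / (q : ℝ))) + 1 +
            (if p = q then x * (1 / (p : ℝ)) else 0)) :=
          sum_le_sum fun p hp => sum_le_sum fun q hq => h4 p hp q hq
      _ = x * μ ^ 2 + (P.card : ℝ) ^ 2 + x * μ := by
          simp only [sum_add_distrib]
          congr 1
          · congr 1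
            · rw [hμ, sq, sum_mul_sum, mul_sum]
              refine sum_congr rfl fun p _ => ?_
              rw [mul_sum]
            · simp [sq]
          · rw [hμ, mul_sum]
            refine sum_congr rfl fun p hp => ?_
            rw [sum_ite_eq, if_pos hp]
  have h5 : ∀ n : ℕ, (∑ p ∈ P, (if p ∣ n then (1 : ℝ) else 0) - μ) ^ 2 =
      (∑ p ∈ P, (if p ∣ n then (1 : ℝ) else 0)) ^ 2
        - 2 * μ * (∑ p ∈ P, (if p ∣ n then (1 : ℝ) else 0)) + μ ^ 2 := by
    intro n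
    ring
  rw [sum_congr rfl fun n _ => h5 n, sum_add_distrib, sum_sub_distrib, ← mul_sum]
  simp only [sum_const, card_range, nsmul_eq_mul]
  have h6 : 2 * μ * (x * μ) ≤
      2 * μ * ∑ n ∈ range x, ∑ p ∈ P, (if p ∣ n then (1 : ℝ) else 0) :=
    mul_le_mul_of_nonneg_left h1 (by positivity)
  nlinarith

theorem small_omega (ε : ℝ) (hε : 0 < ε) : ∃ x0 : ℕ, ∀ x : ℕ, x0 ≤ x →
    cnt x (fun n => n ≠ 0 ∧ 6 / 5 * LLL x < ((sp x n).primeFactors.card : ℝ)) ≤ ε * x := by
  obtain ⟨C, hC, x1, hx1⟩ := sumZ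
  have hLLL : Filter.Tendsto LLL Filter.atTop Filter.atTop :=
    Real.tendsto_log_atTop.comp LL_tend
  have e1 : ∀ᶠ x : ℕ in Filter.atTop, 10 * C + 1 + 200 / ε ≤ LLL x :=
    hLLL.eventually_ge_atTop _
  have e2 : ∀ᶠ x : ℕ in Filter.atTop, Real.log (x : ℝ) ^ 200 ≤ x := by
    have h := (Real.isLittleO_pow_log_id_atTop (n := 200)).bound (zero_lt_one' ℝ)
    have h' := tendsto_natCast_atTop_atTop.eventually h
    filter_upwards [h', log_tend.eventually_ge_atTop 0] with x hx hx0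
    simp only [id, Real.norm_eq_abs, one_mul] at hx
    rwa [abs_of_nonneg (by positivity), abs_of_nonneg (Nat.cast_nonneg x)] at hx
  have e3 : ∀ᶠ x : ℕ in Filter.atTop, (1 : ℝ) ≤ Real.log x := log_tend.eventually_ge_atTop _
  obtain ⟨x0, hx0⟩ := Filter.eventually_atTop.mp ((e1.and e2).and
    (e3.and (Filter.eventually_ge_atTop (max 1 x1))))
  refine ⟨x0, fun x hx => ?_⟩
  obtain ⟨⟨a1, a2⟩, a3, a4⟩ := hx0 x hx
  have hx1' : 1 ≤ x := le_trans (le_max_left _ _) a4
  have hμ := hx1 x (le_trans (le_max_right _ _) a4)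
  set P := (Icc 1 (Z0 x)).filter Nat.Prime with hP
  set μ := ∑ p ∈ P, 1 / (p : ℝ) with hμd
  rw [abs_le] at hμ
  have hPp : ∀ p ∈ P, p.Prime := fun p hp => (mem_filter.mp hp).2
  have hvar := small_omega_var x hx1' P hPp
  rw [← hμd] at hvar
  have hPcard : (P.card : ℝ) ^ 2 ≤ x := by
    have h1 : P.card ≤ Z0 x := by
      calc P.card ≤ (Icc 1 (Z0 x)).card := card_filter_le _ _
        _ = Z0 x := by simp
    have h2 : (Z0 x : ℝ) ≤ Real.log x ^ 100 := Nat.floor_le (by positivity)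
    have h3 : (P.card : ℝ) ≤ Real.log x ^ 100 := le_trans (by exact_mod_cast h1) h2
    calc (P.card : ℝ) ^ 2 ≤ (Real.log x ^ 100) ^ 2 := by gcongr
      _ = Real.log x ^ 200 := by ring
      _ ≤ x := a2
  have hxr : (0 : ℝ) < x := by exact_mod_cast hx1'
  have hε2 : 0 < 200 / ε := by positivity
  set L := LLL x with hL
  have hLpos : 0 < L := by linarith
  set B := (range x).filter
    (fun n => n ≠ 0 ∧ 6 / 5 * L < ((sp x n).primeFactors.card : ℝ)) with hB
  have h4 : ∀ n ∈ B, (L / 10) ^ 2 ≤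
      (∑ p ∈ P, (if p ∣ n then (1 : ℝ) else 0) - μ) ^ 2 := by
    intro n hn
    rw [hB, mem_filter] at hn
    have h5 : ((sp x n).primeFactors.card : ℝ) ≤ ∑ p ∈ P, (if p ∣ n then (1 : ℝ) else 0) := by
      have h6 : (sp x n).primeFactors ⊆ P.filter (fun p => p ∣ n) := by
        intro p hp
        rw [Nat.mem_primeFactors] at hp
        have h7 := sp_prime x n p hp.1 hp.2.1
        rw [mem_filter, hP, mem_filter, mem_Icc]
        exact ⟨⟨⟨hp.1.one_lt.le, h7.1⟩, hp.1⟩, h7.2⟩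
      have h7 := card_le_card h6
      have h8 : ∑ p ∈ P, (if p ∣ n then (1 : ℝ) else 0) =
          ((P.filter (fun p => p ∣ n)).card : ℝ) := by
        rw [card_filter]
        push_cast
        rfl
      rw [h8]
      exact_mod_cast h7
    have h6 : L / 10 ≤ ∑ p ∈ P, (if p ∣ n then (1 : ℝ) else 0) - μ := by
      have := hn.2.2
      linarith [hμ.2]
    have h7 : 0 ≤ L / 10 := by positivity
    gcongr
  have h5 : (B.card : ℝ) * (L / 10) ^ 2 ≤ x * μ + (P.card : ℝ) ^ 2 := by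
    calc (B.card : ℝ) * (L / 10) ^ 2 = ∑ _n ∈ B, (L / 10) ^ 2 := by
          rw [sum_const, nsmul_eq_mul]
      _ ≤ ∑ n ∈ B, (∑ p ∈ P, (if p ∣ n then (1 : ℝ) else 0) - μ) ^ 2 := sum_le_sum h4
      _ ≤ ∑ n ∈ range x, (∑ p ∈ P, (if p ∣ n then (1 : ℝ) else 0) - μ) ^ 2 :=
          sum_le_sum_of_subset_of_nonneg (filter_subset _ _) fun _ _ _ => sq_nonneg _
      _ ≤ _ := hvar
  have h6 : (B.card : ℝ) * (L / 10) ^ 2 ≤ 2 * L * x := by
    have : μ + 1 ≤ 2 * L := by linarith [hμ.2]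
    nlinarith
  have h7 : cnt x (fun n => n ≠ 0 ∧ 6 / 5 * LLL x < ((sp x n).primeFactors.card : ℝ))
      = (B.card : ℝ) := by
    unfold cnt
    exact congrArg (fun t : Finset ℕ => (t.card : ℝ)) (by ext n; simp only [mem_filter, hB, hL])
  rw [h7]
  have h8 : (B.card : ℝ) * L ≤ 200 * x := by
    have h9 : ((B.card : ℝ) * L) * L ≤ (200 * x) * L := by nlinarith
    exact le_of_mul_le_mul_right h9 hLpos
  have h9 : 200 ≤ ε * L := by
    have : 200 / ε ≤ L := by linarith
    rw [div_le_iff₀ hε] at this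
    linarith
  have h10 : (B.card : ℝ) * L ≤ ε * x * L := by nlinarith
  exact le_of_mul_le_mul_right h10 hLpos

end Pool.Agent.Lib.MP_79499b_co.DZ
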