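import Pool.Agent.Lib.MP_79499b_co.DZ.LDef

/-!
# DZ LC: classes of `m`-th roots of unity

PROOF. `(ρ : ZMod w)^m = 1` has at most `m` solutions (`card_nthRoots` / `Polynomial.card_roots`, `ZMod w` is
a field); modulo `w1 w2`, resp. `p w` with `p ∣ n`, use the injection `ρ ↦ (ρ % w1, ρ % w2)`, resp.
`ρ ↦ ρ % w` (`p ∣ ρ`), by the Chinese remainder theorem. The counts follow from `cnt_period`.
-/

set_option autoImplicit false

namespace Pool.Agent.Lib.MP_79499b_co.DZ

open Finset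
open scoped Classical

theorem card_root {m w : ℕ} (hm : 1 ≤ m) (hw : w.Prime) :
    ((range w).filter (fun n : ℕ => (n : ZMod w) ^ m = 1)).card ≤ m := by
  have : Fact w.Prime := ⟨hw⟩
  have h1 : ((range w).filter (fun n : ℕ => (n : ZMod w) ^ m = 1)).card ≤
      (Polynomial.nthRoots m (1 : ZMod w)).toFinset.card := by
    refine card_le_card_of_injOn (fun n : ℕ => (n : ZMod w)) ?_ ?_
    · intro n hn
      rw [mem_coe, mem_filter] at hn
      rw [mem_coe, Multiset.mem_toFinset, Polynomial.mem_nthRoots (by omega)]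
      exact hn.2
    · intro a ha b hb hab
      rw [mem_coe, mem_filter, mem_range] at ha hb
      have h2 := (ZMod.natCast_eq_natCast_iff' a b w).1 hab
      rwa [Nat.mod_eq_of_lt ha.1, Nat.mod_eq_of_lt hb.1] at h2
  exact h1.trans ((Multiset.toFinset_card_le _).trans (Polynomial.card_nthRoots m 1))

theorem natCast_mod_pow (w m n W : ℕ) (h : w ∣ W) :
    ((n % W : ℕ) : ZMod w) ^ m = 1 ↔ (n : ZMod w) ^ m = 1 := by
  have : ((n % W : ℕ) : ZMod w) = (n : ZMod w) := by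
    rw [ZMod.natCast_eq_natCast_iff]
    exact (Nat.mod_modEq n W).of_dvd h
  rw [this]

theorem card_root2 {m w1 w2 : ℕ} (hm : 1 ≤ m) (hw1 : w1.Prime) (hw2 : w2.Prime) (h : w1 ≠ w2) :
    ((range (w1 * w2)).filter (fun n : ℕ => (n : ZMod w1) ^ m = 1 ∧ (n : ZMod w2) ^ m = 1)).card ≤
      m ^ 2 := by
  have hcop : w1.Coprime w2 := (Nat.coprime_primes hw1 hw2).2 h
  have h1 : ((range (w1 * w2)).filter (fun n : ℕ => (n : ZMod w1) ^ m = 1 ∧
      (n : ZMod w2) ^ m = 1)).card ≤ (((range w1).filter (fun n : ℕ => (n : ZMod w1) ^ m = 1)) ×ˢ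
        ((range w2).filter (fun n : ℕ => (n : ZMod w2) ^ m = 1))).card := by
    refine card_le_card_of_injOn (fun n : ℕ => (n % w1, n % w2)) ?_ ?_
    · intro n hn
      rw [mem_coe, mem_filter] at hn
      rw [mem_coe, mem_product, mem_filter, mem_filter, mem_range, mem_range]
      refine ⟨⟨Nat.mod_lt _ hw1.pos, ?_⟩, ⟨Nat.mod_lt _ hw2.pos, ?_⟩⟩
      · exact (natCast_mod_pow w1 m n w1 dvd_rfl).2 hn.2.1
      · exact (natCast_mod_pow w2 m n w2 dvd_rfl).2 hn.2.2
    · intro a ha b hb hab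
      rw [mem_coe, mem_filter, mem_range] at ha hb
      simp only [Prod.mk.injEq] at hab
      have h2 : a ≡ b [MOD w1 * w2] := (Nat.modEq_and_modEq_iff_modEq_mul hcop).1 ⟨hab.1, hab.2⟩
      exact Nat.ModEq.eq_of_lt_of_lt h2 ha.1 hb.1
  rw [card_product] at h1
  refine h1.trans ?_
  rw [sq]
  exact Nat.mul_le_mul (card_root hm hw1) (card_root hm hw2)

theorem cnt_root {m w : ℕ} (hm : 1 ≤ m) (hw : w.Prime) (x : ℕ) :
    cnt x (fun n => (n : ZMod w) ^ m = 1) ≤ m * (x / w + 1) := by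
  refine (cnt_period hw.pos x _ fun n hn => (natCast_mod_pow w m n w dvd_rfl).2 hn).trans ?_
  refine mul_le_mul_of_nonneg_right ?_ (by positivity)
  exact_mod_cast card_root hm hw

theorem cnt_root_dvd {m w p : ℕ} (hm : 1 ≤ m) (hw : w.Prime) (hp : p.Prime) (h : p ≠ w) (x : ℕ) :
    cnt x (fun n => p ∣ n ∧ (n : ZMod w) ^ m = 1) ≤ m * (x / (p * w) + 1) := by
  have hcop : p.Coprime w := (Nat.coprime_primes hp hw).2 h
  refine (cnt_period (Nat.mul_pos hp.pos hw.pos) x _ fun n hn =>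
    ⟨(Nat.dvd_mod_iff (dvd_mul_right p w)).2 hn.1,
      (natCast_mod_pow w m n (p * w) (dvd_mul_left w p)).2 hn.2⟩).trans ?_
  · push_cast
    refine mul_le_mul_of_nonneg_right ?_ (by positivity)
    have h1 : ((range (p * w)).filter (fun n : ℕ => p ∣ n ∧ (n : ZMod w) ^ m = 1)).card ≤
        ((range w).filter (fun n : ℕ => (n : ZMod w) ^ m = 1)).card := by
      refine card_le_card_of_injOn (fun n : ℕ => n % w) ?_ ?_
      · intro n hn
        rw [mem_coe, mem_filter] at hn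
        rw [mem_coe, mem_filter, mem_range]
        exact ⟨Nat.mod_lt _ hw.pos, (natCast_mod_pow w m n w dvd_rfl).2 hn.2.2⟩
      · intro a ha b hb hab
        rw [mem_coe, mem_filter, mem_range] at ha hb
        have h3 : a ≡ b [MOD p] := by
          rw [Nat.ModEq, Nat.mod_eq_zero_of_dvd ha.2.1, Nat.mod_eq_zero_of_dvd hb.2.1]
        have h2 : a ≡ b [MOD p * w] := (Nat.modEq_and_modEq_iff_modEq_mul hcop).1 ⟨h3, hab⟩
        exact Nat.ModEq.eq_of_lt_of_lt h2 ha.1 hb.1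
    exact_mod_cast h1.trans (card_root hm hw)

theorem cnt_root2 {m w1 w2 : ℕ} (hm : 1 ≤ m) (hw1 : w1.Prime) (hw2 : w2.Prime) (h : w1 ≠ w2)
    (x : ℕ) : cnt x (fun n => (n : ZMod w1) ^ m = 1 ∧ (n : ZMod w2) ^ m = 1) ≤
      m ^ 2 * (x / (w1 * w2) + 1) := by
  refine (cnt_period (Nat.mul_pos hw1.pos hw2.pos) x _ fun n hn =>
    ⟨(natCast_mod_pow w1 m n (w1 * w2) (dvd_mul_right w1 w2)).2 hn.1,
      (natCast_mod_pow w2 m n (w1 * w2) (dvd_mul_left w2 w1)).2 hn.2⟩).trans ?_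
  · push_cast
    refine mul_le_mul_of_nonneg_right ?_ (by positivity)
    exact_mod_cast card_root2 hm hw1 hw2 h

end Pool.Agent.Lib.MP_79499b_co.DZ
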