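import Pool.Agent.Lib.MP_79499b_co.DZ.LDef

/-!
# DZ LSz: sizes for large `x`

PROOFS. `X2_small`: `log (X2 x) = (log x)^(9/20)` and `(log x)^(9/20) / log x → 0`. `LL_small`: `LL x^k / log x → 0`.
-/

set_option autoImplicit false

namespace Pool.Agent.Lib.MP_79499b_co.DZ

open Finset Filter
open scoped Classical

/-- powers of `log x` with exponent `a < b` -/
theorem rpow_small {a b : ℝ} (hab : a < b) {δ : ℝ} (hδ : 0 < δ) : ∀ᶠ x : ℕ in atTop,
    Real.log (x : ℝ) ^ a ≤ δ * Real.log (x : ℝ) ^ b := by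
  have h1 : Tendsto (fun x : ℕ => Real.log (x : ℝ) ^ (b - a)) atTop atTop :=
    (tendsto_rpow_atTop (by linarith)).comp log_tend
  filter_upwards [h1.eventually_ge_atTop δ⁻¹, log_tend.eventually_ge_atTop 1] with x hx hx1
  have h2 : Real.log (x : ℝ) ^ b = Real.log (x : ℝ) ^ a * Real.log (x : ℝ) ^ (b - a) := by
    rw [← Real.rpow_add (by linarith)]
    congr 1
    ring
  have h3 : 0 < Real.log (x : ℝ) ^ a := Real.rpow_pos_of_pos (by linarith) _
  rw [h2]
  calc Real.log (x : ℝ) ^ a = δ * (Real.log (x : ℝ) ^ a * δ⁻¹) := by field_simp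
    _ ≤ _ := mul_le_mul_of_nonneg_left (mul_le_mul_of_nonneg_left hx h3.le) hδ.le

theorem X2_small (k : ℕ) {δ : ℝ} (hδ : 0 < δ) : ∀ᶠ x : ℕ in atTop, X2 x ^ k ≤ (x : ℝ) ^ δ := by
  have hδ' : 0 < δ / (k + 1) := by positivity
  filter_upwards [rpow_small (a := 9 / 20) (b := 1) (by norm_num) hδ',
    log_tend.eventually_ge_atTop 1, eventually_gt_atTop 0] with x hx h1 h0
  have hx0 : (0 : ℝ) < x := by exact_mod_cast h0
  unfold X2
  rw [← Real.exp_nat_mul, Real.rpow_def_of_pos hx0]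
  apply Real.exp_le_exp.2
  rw [Real.rpow_one] at hx
  have h2 : (k : ℝ) * Real.log (x : ℝ) ^ (9 / 20 : ℝ) ≤ k * (δ / (k + 1) * Real.log x) :=
    mul_le_mul_of_nonneg_left hx (Nat.cast_nonneg k)
  have h3 : (k : ℝ) * (δ / (k + 1) * Real.log x) ≤ Real.log x * δ := by
    have h4 : (k : ℝ) / (k + 1) ≤ 1 := by
      rw [div_le_one (by positivity)]
      linarith
    calc (k : ℝ) * (δ / (k + 1) * Real.log x) = (k : ℝ) / (k + 1) * (Real.log x * δ) := by ring
      _ ≤ 1 * (Real.log x * δ) := mul_le_mul_of_nonneg_right h4 (by positivity)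
      _ = _ := one_mul _
  linarith

theorem LL_small (k : ℕ) {δ : ℝ} (hδ : 0 < δ) : ∀ᶠ x : ℕ in atTop, LL x ^ k ≤ δ * Real.log x := by
  have h1 := (Real.tendsto_exp_div_pow_atTop k).comp LL_tend
  filter_upwards [h1.eventually_ge_atTop δ⁻¹, LL_tend.eventually_ge_atTop 1,
    log_tend.eventually_ge_atTop 1] with x hx h2 h3
  simp only [Function.comp] at hx
  have h4 : Real.exp (LL x) = Real.log x := by
    unfold LL
    rw [Real.exp_log (by linarith)]
  rw [h4, le_div_iff₀ (by positivity)] at hx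
  calc LL x ^ k = δ * (δ⁻¹ * LL x ^ k) := by field_simp
    _ ≤ _ := mul_le_mul_of_nonneg_left hx hδ.le

end Pool.Agent.Lib.MP_79499b_co.DZ
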