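import Pool.Agent.Lib.MP_79499b_co.DZ.LMe
import Pool.Agent.Lib.MP_79499b_co.DZ.LSz

/-!
# DZ LV: prime factors `l > yy` of `w - 1`

PROOF. `LV_one`: exchange the sums: `∑_{l > yy} (1/l) UL x l` over primes `l ≤ X2`; by `UL_le` the `l ≤ (log x)^2`
contribute at most `LL x ∑_{l > yy} 1/l^2 ≤ 2 LL x / yy ≤ 4 LL x^(-7)`, by `UL_triv` the others at most
`log x ∑_{l > (log x)^2} 1/l^2 ≤ 2/log x`. `LV_two` is the sum over pairs with a common `l`:
`∑_{l > yy} (UL x l)^2` with the same split: `LL x^2 · 2/yy` and `(log x)^2 ∑_{l > (log x)^2} 1/l^2 ≤ 2`, too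
large, so for the large `l` use `UL x l ≤ log x/l` once more only for `l > (log x)^4`, and `mert_ap` up to
`(log x)^4` (state `UL_le4` like `UL_le` with exponent 4 here): `(log x)^2 ∑_{l > (log x)^4} 1/l^2 ≤ 2 (log x)^(-2)`.
-/

set_option autoImplicit false

namespace Pool.Agent.Lib.MP_79499b_co.DZ

open Finset Filter
open scoped Classical

theorem LV_tail (N : ℕ) (A : ℝ) (hA : 1 ≤ A) :
    ∑ l ∈ (Icc 1 N).filter (fun l : ℕ => A < l), 1 / (l : ℝ) ^ 2 ≤ 2 / A := by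
  have hA0 : 0 < A := by linarith
  have h0 : ⌊A⌋₊ ≠ 0 := by
    have : 1 ≤ ⌊A⌋₊ := Nat.le_floor (by exact_mod_cast hA)
    omega
  have h1 : A / 2 ≤ (⌊A⌋₊ : ℝ) := by
    have h2 := Nat.lt_floor_add_one A
    have h3 : (1 : ℝ) ≤ (⌊A⌋₊ : ℝ) := by exact_mod_cast Nat.pos_of_ne_zero h0
    linarith
  have h2 : ((⌊A⌋₊ : ℝ))⁻¹ ≤ 2 / A := by
    rw [inv_eq_one_div, div_le_div_iff₀ (by linarith) hA0]
    linarith
  rcases le_or_gt ⌊A⌋₊ N with hN | hN
  · have h3 := sum_Ioc_inv_sq_le_sub (α := ℝ) h0 hN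
    have h4 : ∑ l ∈ (Icc 1 N).filter (fun l : ℕ => A < l), 1 / (l : ℝ) ^ 2 ≤
        ∑ i ∈ Ioc ⌊A⌋₊ N, ((i : ℝ) ^ 2)⁻¹ := by
      refine (sum_le_sum_of_subset_of_nonneg (t := Ioc ⌊A⌋₊ N) ?_ fun _ _ _ => by positivity).trans
        (le_of_eq (sum_congr rfl fun _ _ => one_div _))
      intro l hl
      rw [mem_filter, mem_Icc] at hl
      rw [mem_Ioc]
      exact ⟨(Nat.floor_lt hA0.le).2 hl.2, hl.1.2⟩
    have h5 : (0 : ℝ) ≤ (N : ℝ)⁻¹ := by positivity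
    linarith
  · rw [filter_eq_empty_iff.2, sum_empty]
    · positivity
    · intro l hl hlt
      rw [mem_Icc] at hl
      have h3 := (Nat.floor_lt hA0.le).2 hlt
      omega

/-- the common form of the two sums -/
theorem LV_split (x : ℕ) (f : ℕ → ℝ) (D E B : ℝ) (hL : 1 ≤ LL x ^ 8) (hB : 1 ≤ B) (hD : 0 ≤ D)
    (hE : 0 ≤ E) (h1 : ∀ l : ℕ, l.Prime → (l : ℝ) ≤ B → f l ≤ D / (l : ℝ) ^ 2)
    (h2 : ∀ l : ℕ, l.Prime → f l ≤ E / (l : ℝ) ^ 2) :
    ∑ l ∈ (Ioc (yy x) ⌊X2 x⌋₊).filter Nat.Prime, f l ≤ D * (2 / LL x ^ 8) + E * (2 / B) := by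
  have h3 := LV_tail ⌊X2 x⌋₊ (LL x ^ 8) hL
  have h4 := LV_tail ⌊X2 x⌋₊ B hB
  have hsub : (Ioc (yy x) ⌊X2 x⌋₊).filter Nat.Prime ⊆
      (Icc 1 ⌊X2 x⌋₊).filter (fun l : ℕ => LL x ^ 8 < l) := by
    intro l hl
    rw [mem_filter, mem_Ioc] at hl
    rw [mem_filter, mem_Icc]
    exact ⟨⟨hl.2.one_lt.le, hl.1.2⟩, Nat.lt_of_floor_lt hl.1.1⟩
  have hsub2 : ((Ioc (yy x) ⌊X2 x⌋₊).filter Nat.Prime).filter (fun l : ℕ => B < l) ⊆
      (Icc 1 ⌊X2 x⌋₊).filter (fun l : ℕ => B < l) := by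
    intro l hl
    rw [mem_filter, mem_filter, mem_Ioc] at hl
    rw [mem_filter, mem_Icc]
    exact ⟨⟨hl.1.2.one_lt.le, hl.1.1.2⟩, hl.2⟩
  calc ∑ l ∈ (Ioc (yy x) ⌊X2 x⌋₊).filter Nat.Prime, f l
      ≤ ∑ l ∈ (Ioc (yy x) ⌊X2 x⌋₊).filter Nat.Prime,
        (D * (1 / (l : ℝ) ^ 2) + if B < (l : ℝ) then E * (1 / (l : ℝ) ^ 2) else 0) := by
        refine sum_le_sum fun l hl => ?_
        have hp := (mem_filter.1 hl).2
        split_ifs with h
        · have := h2 l hp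
          have h5 : 0 ≤ D * (1 / (l : ℝ) ^ 2) := by positivity
          have h6 : E * (1 / (l : ℝ) ^ 2) = E / (l : ℝ) ^ 2 := by ring
          linarith
        · have := h1 l hp (not_lt.1 h)
          have h6 : D * (1 / (l : ℝ) ^ 2) = D / (l : ℝ) ^ 2 := by ring
          linarith
    _ = D * ∑ l ∈ (Ioc (yy x) ⌊X2 x⌋₊).filter Nat.Prime, (1 / (l : ℝ) ^ 2) +
        E * ∑ l ∈ ((Ioc (yy x) ⌊X2 x⌋₊).filter Nat.Prime).filter (fun l : ℕ => B < l),
          (1 / (l : ℝ) ^ 2) := by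
        rw [sum_add_distrib, mul_sum, mul_sum, ← sum_filter]
    _ ≤ _ := by
        refine add_le_add (mul_le_mul_of_nonneg_left ?_ hD) (mul_le_mul_of_nonneg_left ?_ hE)
        · exact (sum_le_sum_of_subset_of_nonneg hsub fun _ _ _ => by positivity).trans h3
        · exact (sum_le_sum_of_subset_of_nonneg hsub2 fun _ _ _ => by positivity).trans h4

theorem LV_one : ∀ᶠ x : ℕ in atTop,
    ∑ w ∈ RR x, (1 / (w : ℝ)) * ∑ l ∈ (w - 1).primeFactors.filter (fun l => yy x < l), 1 / (l : ℝ) ≤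
      (LL x ^ 4)⁻¹ := by
  filter_upwards [UL_le, UL_triv, LL_small 4 (δ := 1 / 4) (by norm_num), LL_tend.eventually_ge_atTop 2,
    log_tend.eventually_ge_atTop 1] with x h1 h2 h3 h4 h5
  have hL8 : 1 ≤ LL x ^ 8 := one_le_pow₀ (by linarith)
  have hB : 1 ≤ Real.log (x : ℝ) ^ 2 := one_le_pow₀ h5
  have h6 := LV_split x (fun l => 1 / (l : ℝ) * UL x l) (LL x) (Real.log x) (Real.log (x : ℝ) ^ 2)
    hL8 hB (by linarith) (by linarith) ?_ ?_
  · have h7 : ∑ w ∈ RR x, (1 / (w : ℝ)) *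
        ∑ l ∈ (w - 1).primeFactors.filter (fun l => yy x < l), 1 / (l : ℝ) ≤
        ∑ l ∈ (Ioc (yy x) ⌊X2 x⌋₊).filter Nat.Prime, 1 / (l : ℝ) * UL x l := by
      have h8 : ∀ w ∈ RR x, (1 / (w : ℝ)) *
          ∑ l ∈ (w - 1).primeFactors.filter (fun l => yy x < l), 1 / (l : ℝ) ≤
          ∑ l ∈ (Ioc (yy x) ⌊X2 x⌋₊).filter Nat.Prime,
            (if l ∣ w - 1 then 1 / (l : ℝ) * (1 / (w : ℝ)) else 0) := by
        intro w hw
        rw [mem_RR] at hw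
        rw [mul_sum, ← sum_filter]
        refine (sum_le_sum_of_subset_of_nonneg (t := ((Ioc (yy x) ⌊X2 x⌋₊).filter Nat.Prime).filter
          (fun l => l ∣ w - 1)) ?_ fun _ _ _ => by positivity).trans
          (le_of_eq (sum_congr rfl fun _ _ => mul_comm _ _))
        intro l hl
        rw [mem_filter, Nat.mem_primeFactors] at hl
        have hw1 := hw.1.one_lt
        have hle : l ≤ w - 1 := Nat.le_of_dvd (by omega) hl.1.2.1
        have hwf : w ≤ ⌊X2 x⌋₊ := Nat.le_floor hw.2.2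
        rw [mem_filter, mem_filter, mem_Ioc]
        exact ⟨⟨⟨hl.2, by omega⟩, hl.1.1⟩, hl.1.2.1⟩
      refine (sum_le_sum h8).trans (le_of_eq ?_)
      rw [sum_comm]
      refine sum_congr rfl fun l _ => ?_
      unfold UL
      rw [mul_sum, ← sum_filter]
    refine h7.trans (h6.trans ?_)
    have hL0 : 0 < LL x := by linarith
    have hl0 : 0 < Real.log (x : ℝ) := by linarith
    have h9 : LL x * (2 / LL x ^ 8) ≤ 1 / 2 * (LL x ^ 4)⁻¹ := by
      have h10 : LL x * (2 / LL x ^ 8) = 2 / LL x ^ 3 * (LL x ^ 4)⁻¹ := by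
        field_simp
      rw [h10]
      refine mul_le_mul_of_nonneg_right ?_ (by positivity)
      rw [div_le_iff₀ (by positivity)]
      have : (2 : ℝ) ^ 3 ≤ LL x ^ 3 := pow_le_pow_left₀ (by norm_num) h4 3
      linarith
    have h11 : Real.log (x : ℝ) * (2 / Real.log (x : ℝ) ^ 2) ≤ 1 / 2 * (LL x ^ 4)⁻¹ := by
      have h12 : Real.log (x : ℝ) * (2 / Real.log (x : ℝ) ^ 2) = 2 / Real.log (x : ℝ) := by
        field_simp
      rw [h12, div_le_iff₀ hl0]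
      have h13 : 1 / 2 * (LL x ^ 4)⁻¹ * Real.log (x : ℝ) ≥ 1 / 2 * (LL x ^ 4)⁻¹ * (4 * LL x ^ 4) :=
        mul_le_mul_of_nonneg_left (by linarith) (by positivity)
      have h14 : 1 / 2 * (LL x ^ 4)⁻¹ * (4 * LL x ^ 4) = 2 := by
        field_simp
        norm_num
      linarith
    linarith
  · intro l hl hlB
    have hl0 : (0 : ℝ) < l := by exact_mod_cast hl.pos
    calc 1 / (l : ℝ) * UL x l ≤ 1 / (l : ℝ) * (LL x / l) :=
          mul_le_mul_of_nonneg_left (h1 l hl hlB) (by positivity)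
      _ = _ := by
          field_simp
  · intro l hl
    have hl0 : (0 : ℝ) < l := by exact_mod_cast hl.pos
    calc 1 / (l : ℝ) * UL x l ≤ 1 / (l : ℝ) * (Real.log x / l) :=
          mul_le_mul_of_nonneg_left (h2 l hl.one_lt.le) (by positivity)
      _ = _ := by
          field_simp

theorem LV_two : ∀ᶠ x : ℕ in atTop,
    ∑ l ∈ (Ioc (yy x) ⌊X2 x⌋₊).filter Nat.Prime, UL x l ^ 2 ≤ (LL x ^ 4)⁻¹ := by
  filter_upwards [UL_le4, UL_triv, LL_small 4 (δ := 1 / 4) (by norm_num), LL_tend.eventually_ge_atTop 2,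
    log_tend.eventually_ge_atTop 1] with x h1 h2 h3 h4 h5
  have hL8 : 1 ≤ LL x ^ 8 := one_le_pow₀ (by linarith)
  have hB : 1 ≤ Real.log (x : ℝ) ^ 4 := one_le_pow₀ h5
  have h6 := LV_split x (fun l => UL x l ^ 2) (LL x ^ 2) (Real.log x ^ 2) (Real.log (x : ℝ) ^ 4)
    hL8 hB (by positivity) (by positivity) ?_ ?_
  · refine h6.trans ?_
    have hL0 : 0 < LL x := by linarith
    have hl0 : 0 < Real.log (x : ℝ) := by linarith
    have h9 : LL x ^ 2 * (2 / LL x ^ 8) ≤ 1 / 2 * (LL x ^ 4)⁻¹ := by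
      have h10 : LL x ^ 2 * (2 / LL x ^ 8) = 2 / LL x ^ 2 * (LL x ^ 4)⁻¹ := by
        field_simp
      rw [h10]
      refine mul_le_mul_of_nonneg_right ?_ (by positivity)
      rw [div_le_iff₀ (by positivity)]
      have : (2 : ℝ) ^ 2 ≤ LL x ^ 2 := pow_le_pow_left₀ (by norm_num) h4 2
      linarith
    have h11 : Real.log (x : ℝ) ^ 2 * (2 / Real.log (x : ℝ) ^ 4) ≤ 1 / 2 * (LL x ^ 4)⁻¹ := by
      have h12 : Real.log (x : ℝ) ^ 2 * (2 / Real.log (x : ℝ) ^ 4) = 2 / Real.log (x : ℝ) ^ 2 := by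
        field_simp
      rw [h12, div_le_iff₀ (by positivity)]
      have h15 : Real.log (x : ℝ) ≤ Real.log (x : ℝ) ^ 2 := by nlinarith
      have h13 : 1 / 2 * (LL x ^ 4)⁻¹ * Real.log (x : ℝ) ^ 2 ≥ 1 / 2 * (LL x ^ 4)⁻¹ * (4 * LL x ^ 4) :=
        mul_le_mul_of_nonneg_left (by linarith) (by positivity)
      have h14 : 1 / 2 * (LL x ^ 4)⁻¹ * (4 * LL x ^ 4) = 2 := by
        field_simp
        norm_num
      linarith
    linarith
  · intro l hl hlB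
    have hl0 : (0 : ℝ) < l := by exact_mod_cast hl.pos
    have := pow_le_pow_left₀ (UL_nonneg x l) (h1 l hl.two_le hlB hl) 2
    rwa [div_pow] at this
  · intro l hl
    have hl0 : (0 : ℝ) < l := by exact_mod_cast hl.pos
    have := pow_le_pow_left₀ (UL_nonneg x l) (h2 l hl.one_lt.le) 2
    rwa [div_pow] at this

end Pool.Agent.Lib.MP_79499b_co.DZ
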