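import Pool.Agent.Lib.MP_79499b_co.DZ.LMe

/-!
# DZ LT: `l`-th powers among the primes `p > Z0`

PROOF. Let `w` be prime, `l ∣ w - 1` prime, no primitive character mod `w` with `|SP (2^i) χ| ≥ τ` for the
blocks of `DI (Z0 x) x`. Take `χ0` of order `l` mod `w` (`MulChar.exists_mulChar_orderOf`). If
`(p : ZMod w) = y^l ≠ 0` then `χ0 p = (χ0 y)^l = 1`; for every `p`, `∑_{k < l} χ0^k(p)` is `l`, `0` or (for
`w ∣ p`) `0`, a nonnegative real. So `l T_i ≤ Re ∑_{k<l} SP (2^i) (χ0^k) ≤ R_i + (l-1) τ`, where `T_i`, `R_i` are the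
sums of `1/p` over the block, restricted to `l`-th powers resp. all; for `0 < k < l` the character `χ0^k ≠ 1`
is primitive because `w` is prime. Sum over the blocks (every prime `Z0 < p ≤ x` lies in the block
`i = log2 (p - 1)`, the blocks are disjoint subsets of `[1, 2x]`): `TT ≤ (1/l) ∑_{p ≤ 2x} 1/p + (log2 x + 1) τ
≤ 2 LL x / l + 2 (log x)^(-3)` by `primes_sum_le`.
-/

set_option autoImplicit false

namespace Pool.Agent.Lib.MP_79499b_co.DZ

open Finset Filter
open scoped Classical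

theorem prim_of_prime {w : ℕ} (hw : w.Prime) (χ : DirichletCharacter ℂ w) (hχ : χ ≠ 1) :
    χ.IsPrimitive := by
  unfold DirichletCharacter.IsPrimitive
  rcases (Nat.dvd_prime hw).1 χ.conductor_dvd_level with h | h
  · exfalso
    haveI : NeZero w := ⟨hw.ne_zero⟩
    exact hχ ((DirichletCharacter.eq_one_iff_conductor_eq_one).2 h)
  · exact h

/-- the sum over the powers of a character of order `l` -/
theorem geom_char {w l : ℕ} (hl : l ≠ 0) (χ : DirichletCharacter ℂ w) (hχ : χ ^ l = 1) (a : ZMod w) :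
    (χ a = 1 → ∑ k ∈ range l, (χ ^ k) a = (l : ℂ)) ∧
    (χ a ≠ 1 → ∑ k ∈ range l, (χ ^ k) a = 0) := by
  by_cases ha : IsUnit a
  · have h0 : ∀ k, (χ ^ k) a = χ a ^ k := by
      intro k
      rcases Nat.eq_zero_or_pos k with rfl | hk
      · rw [pow_zero, pow_zero, MulChar.one_apply ha]
      · exact MulChar.pow_apply' χ hk.ne' a
    have h1 : χ a ^ l = 1 := by
      rw [← h0, hχ, MulChar.one_apply ha]
    constructor
    · intro h
      simp [h0, h]
    · intro h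
      simp only [h0]
      rw [geom_sum_eq h, h1]
      simp
  · have h0 : ∀ k, (χ ^ k) a = 0 := fun k => MulChar.map_nonunit _ ha
    constructor
    · intro h
      rw [MulChar.map_nonunit _ ha] at h
      exact absurd h zero_ne_one
    · intro _
      simp [h0]

theorem LT_block {w l : ℕ} (hw : w.Prime) (hl : l.Prime) (hlw : l ∣ w - 1) (P : ℕ) {τ : ℝ}
    (hτ : 0 < τ) (hb : ¬ Bd P τ w) :
    ∑ p ∈ (Bl P).filter (fun p : ℕ => (p : ZMod w) ≠ 0 ∧ ∃ y : ZMod w, y ^ l = (p : ZMod w)),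
      1 / (p : ℝ) ≤ (1 / (l : ℝ)) * ∑ p ∈ Bl P, 1 / (p : ℝ) + τ := by
  haveI : Fact w.Prime := ⟨hw⟩
  haveI : NeZero w := ⟨hw.ne_zero⟩
  have hl0 : (0 : ℝ) < l := by exact_mod_cast hl.pos
  obtain ⟨χ, hχ⟩ : ∃ χ : MulChar (ZMod w) ℂ, orderOf χ = l := by
    have hζ : IsPrimitiveRoot (Complex.exp (2 * Real.pi * Complex.I / l)) l :=
      Complex.isPrimitiveRoot_exp l hl.ne_zero
    exact MulChar.exists_mulChar_orderOf (ZMod w) (by rw [ZMod.card]; exact hlw) hζ
  have hχl : χ ^ l = 1 := by rw [← hχ]; exact pow_orderOf_eq_one χ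
  -- the key inequality
  have h1 : (l : ℝ) * ∑ p ∈ (Bl P).filter (fun p : ℕ => (p : ZMod w) ≠ 0 ∧
      ∃ y : ZMod w, y ^ l = (p : ZMod w)), 1 / (p : ℝ) ≤
      (∑ k ∈ range l, SP P (χ ^ k : DirichletCharacter ℂ w)).re := by
    unfold SP
    rw [sum_comm, Complex.re_sum, mul_sum, sum_filter]
    refine sum_le_sum fun p hp => ?_
    have hp0 : (0 : ℝ) < p := by exact_mod_cast (mem_Bl.1 hp).2.pos
    rw [← sum_div]
    obtain ⟨h2, h3⟩ := geom_char hl.ne_zero χ hχl (p : ZMod w)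
    split_ifs with hc
    · obtain ⟨hc1, y, hy⟩ := hc
      have h4 : χ (p : ZMod w) = 1 := by
        have hy0 : IsUnit y := by
          rw [isUnit_iff_ne_zero]
          rintro rfl
          rw [zero_pow hl.ne_zero] at hy
          exact hc1 hy.symm
        rw [← hy, map_pow, ← MulChar.pow_apply' χ hl.ne_zero, hχl, MulChar.one_apply hy0]
      rw [h2 h4]
      have : ((l : ℂ) / (p : ℂ)).re = (l : ℝ) / p := by
        rw [show (l : ℂ) / (p : ℂ) = (((l : ℝ) / (p : ℝ) : ℝ) : ℂ) by push_cast; rfl, Complex.ofReal_re]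
      rw [this]
      exact le_of_eq (by ring)
    · by_cases h4 : χ (p : ZMod w) = 1
      · rw [h2 h4]
        have : ((l : ℂ) / (p : ℂ)).re = (l : ℝ) / p := by
          rw [show (l : ℂ) / (p : ℂ) = (((l : ℝ) / (p : ℝ) : ℝ) : ℂ) by push_cast; rfl,
            Complex.ofReal_re]
        rw [this]
        positivity
      · rw [h3 h4]
        simp
  have h2 : (∑ k ∈ range l, SP P (χ ^ k : DirichletCharacter ℂ w)).re ≤
      ∑ p ∈ Bl P, 1 / (p : ℝ) + l * τ := by
    rw [Complex.re_sum]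
    have h3 : ∀ k ∈ range l, (SP P (χ ^ k : DirichletCharacter ℂ w)).re ≤
        (if k = 0 then ∑ p ∈ Bl P, 1 / (p : ℝ) else 0) + τ := by
      intro k hk
      rw [mem_range] at hk
      split_ifs with hk0
      · subst hk0
        have h4 : (SP P (χ ^ 0 : DirichletCharacter ℂ w)).re ≤ ∑ p ∈ Bl P, 1 / (p : ℝ) := by
          unfold SP
          rw [Complex.re_sum]
          refine sum_le_sum fun p hp => ?_
          refine (Complex.re_le_norm _).trans ?_
          rw [norm_div, Complex.norm_natCast]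
          exact div_le_div_of_nonneg_right (DirichletCharacter.norm_le_one _ _) (Nat.cast_nonneg _)
        linarith
      · have hne : (χ ^ k : DirichletCharacter ℂ w) ≠ 1 := by
          intro h
          have := orderOf_dvd_of_pow_eq_one h
          rw [hχ] at this
          exact absurd (Nat.le_of_dvd (Nat.pos_of_ne_zero hk0) this) (by omega)
        have h5 : ¬ τ ≤ ‖SP P (χ ^ k : DirichletCharacter ℂ w)‖ := fun h =>
          hb ⟨_, prim_of_prime hw _ hne, h⟩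
        push Not at h5
        have := Complex.re_le_norm (SP P (χ ^ k : DirichletCharacter ℂ w))
        linarith
    refine (sum_le_sum h3).trans ?_
    rw [sum_add_distrib, sum_ite_eq' (range l) 0 (fun _ => ∑ p ∈ Bl P, 1 / (p : ℝ)),
      if_pos (mem_range.2 hl.pos), sum_const, card_range, nsmul_eq_mul]
  have h3 := h1.trans h2
  have h4 : ∑ p ∈ (Bl P).filter (fun p : ℕ => (p : ZMod w) ≠ 0 ∧
      ∃ y : ZMod w, y ^ l = (p : ZMod w)), 1 / (p : ℝ) ≤
      (∑ p ∈ Bl P, 1 / (p : ℝ) + l * τ) / l := by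
    rw [le_div_iff₀ hl0, mul_comm]
    exact h3
  have h5 : (∑ p ∈ Bl P, 1 / (p : ℝ) + l * τ) / l = (1 / (l : ℝ)) * ∑ p ∈ Bl P, 1 / (p : ℝ) + τ := by
    field_simp
  rw [h5] at h4
  refine le_trans (le_of_eq (sum_congr ?_ fun _ _ => rfl)) h4
  ext p
  simp only [mem_filter]

/-- the block of a prime -/
theorem mem_block {p : ℕ} (hp : p.Prime) : p ∈ Bl (2 ^ (Nat.log 2 (p - 1))) := by
  have h2 := hp.two_le
  rw [mem_Bl]
  have h3 := Nat.pow_log_le_self 2 (show p - 1 ≠ 0 by omega)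
  have h4 := Nat.lt_pow_succ_log_self (b := 2) (by norm_num) (p - 1)
  refine ⟨⟨by omega, ?_⟩, hp⟩
  rw [pow_succ] at h4
  omega

theorem mem_DI {a x i : ℕ} (hx : x ≠ 0) : i ∈ DI a x ↔ 2 ^ i ≤ x ∧ a < 2 ^ (i + 1) := by
  unfold DI
  rw [mem_filter, mem_range, Nat.lt_succ_iff, Nat.le_log_iff_pow_le (by norm_num) hx]

theorem Bl_disj : Set.PairwiseDisjoint (Set.univ : Set ℕ) (fun i => Bl (2 ^ i)) := by
  intro i _ j _ hij
  rw [Function.onFun, Finset.disjoint_left]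
  intro p hp hq
  rw [mem_Bl] at hp hq
  apply hij
  by_contra hne
  rcases lt_or_gt_of_ne hne with h | h
  · have : 2 * 2 ^ i ≤ 2 ^ j := by
      rw [← pow_succ']
      exact Nat.pow_le_pow_right (by norm_num) h
    omega
  · have : 2 * 2 ^ j ≤ 2 ^ i := by
      rw [← pow_succ']
      exact Nat.pow_le_pow_right (by norm_num) h
    omega

/-- the primes `Z0 < p ≤ x` are in the blocks -/
theorem sum_le_blocks {a x : ℕ} (hx : x ≠ 0) (Q : ℕ → Prop) :
    ∑ p ∈ (Ioc a x).filter (fun p => p.Prime ∧ Q p), 1 / (p : ℝ) ≤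
      ∑ i ∈ DI a x, ∑ p ∈ (Bl (2 ^ i)).filter Q, 1 / (p : ℝ) := by
  rw [← sum_biUnion]
  · refine sum_le_sum_of_subset_of_nonneg ?_ fun _ _ _ => by positivity
    intro p hp
    rw [mem_filter, mem_Ioc] at hp
    obtain ⟨⟨hp1, hp2⟩, hp3, hp4⟩ := hp
    rw [mem_biUnion]
    have h1 := mem_block hp3
    refine ⟨Nat.log 2 (p - 1), ?_, mem_filter.2 ⟨h1, hp4⟩⟩
    rw [mem_Bl] at h1
    rw [mem_DI hx, pow_succ, mul_comm]
    omega
  · intro i _ j _ hij
    exact (Bl_disj (Set.mem_univ i) (Set.mem_univ j) hij).mono (filter_subset _ _) (filter_subset _ _)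

theorem blocks_le {a x : ℕ} (hx : x ≠ 0) :
    ∑ i ∈ DI a x, ∑ p ∈ Bl (2 ^ i), 1 / (p : ℝ) ≤
      ∑ p ∈ (Icc 1 (2 * x)).filter Nat.Prime, 1 / (p : ℝ) := by
  rw [← sum_biUnion]
  · refine sum_le_sum_of_subset_of_nonneg ?_ fun _ _ _ => by positivity
    intro p hp
    rw [mem_biUnion] at hp
    obtain ⟨i, hi, hp⟩ := hp
    rw [mem_Bl] at hp
    rw [mem_DI hx] at hi
    rw [mem_filter, mem_Icc]
    exact ⟨⟨hp.2.one_lt.le, by omega⟩, hp.2⟩
  · intro i _ j _ hij
    exact Bl_disj (Set.mem_univ i) (Set.mem_univ j) hij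

theorem DI_card_le {a x : ℕ} (hx : 2 ≤ x) : ((DI a x).card : ℝ) ≤ 3 * Real.log x := by
  have h1 : (DI a x).card ≤ Nat.log 2 x + 1 := by
    refine (card_filter_le _ _).trans ?_
    rw [card_range]
  have h2 : (Nat.log 2 x : ℝ) ≤ Real.log x / Real.log 2 := by
    rw [le_div_iff₀ (Real.log_pos (by norm_num)), ← Real.log_pow]
    refine Real.log_le_log (by positivity) ?_
    exact_mod_cast Nat.pow_log_le_self 2 (by omega)
  have hl2 : Real.log 2 ≤ Real.log x := Real.log_le_log (by norm_num) (by exact_mod_cast hx)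
  have h3 : Real.log x / Real.log 2 ≤ 3 / 2 * Real.log x := by
    rw [div_le_iff₀ (Real.log_pos (by norm_num))]
    have := Real.log_two_gt_d9
    nlinarith
  have h4 : (1 : ℝ) ≤ 3 / 2 * Real.log x := by
    have := Real.log_two_gt_d9
    linarith
  calc ((DI a x).card : ℝ) ≤ ((Nat.log 2 x + 1 : ℕ) : ℝ) := by exact_mod_cast h1
    _ = (Nat.log 2 x : ℝ) + 1 := by push_cast; ring
    _ ≤ 3 * Real.log x := by linarith

theorem TT_le : ∀ᶠ x : ℕ in atTop, ∀ w ∈ RR x, w ∉ BW x → ∀ l : ℕ, l.Prime → l ∣ w - 1 →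
    TT x w l ≤ 2 * LL x / l + (Real.log x ^ 2)⁻¹ := by
  filter_upwards [primes_sum_le, log_tend.eventually_ge_atTop 3, eventually_ge_atTop 2]
    with x h1 h2 hx2
  intro w hw hwb l hl hlw
  have hx0 : x ≠ 0 := by omega
  have hl0 : (0 : ℝ) < l := by exact_mod_cast hl.pos
  have hlx : 0 < Real.log (x : ℝ) := by linarith
  have hτ : 0 < tau x := by unfold tau; positivity
  have hnb : ∀ i ∈ DI (Z0 x) x, ¬ Bd (2 ^ i) (tau x) w := by
    intro i hi hb
    apply hwb
    unfold BW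
    exact mem_filter.2 ⟨hw, i, hi, hb⟩
  unfold TT
  refine le_trans (le_of_eq (sum_congr ?_ fun _ _ => rfl)) ((sum_le_blocks (a := Z0 x) hx0
    (fun p : ℕ => (p : ZMod w) ≠ 0 ∧ ∃ y : ZMod w, y ^ l = (p : ZMod w))).trans ?_)
  · ext p
    simp only [mem_filter]
  have h3 : ∑ i ∈ DI (Z0 x) x, ∑ p ∈ (Bl (2 ^ i)).filter (fun p : ℕ => (p : ZMod w) ≠ 0 ∧
      ∃ y : ZMod w, y ^ l = (p : ZMod w)), 1 / (p : ℝ) ≤
      ∑ i ∈ DI (Z0 x) x, ((1 / (l : ℝ)) * ∑ p ∈ Bl (2 ^ i), 1 / (p : ℝ) + tau x) :=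
    sum_le_sum fun i hi => LT_block (mem_RR.1 hw).1 hl hlw _ hτ (hnb i hi)
  refine le_trans (le_of_eq (sum_congr rfl fun i _ => sum_congr ?_ fun _ _ => rfl)) (h3.trans ?_)
  · ext p
    simp only [mem_filter]
  rw [sum_add_distrib, ← mul_sum, sum_const, nsmul_eq_mul]
  have h4 := blocks_le (a := Z0 x) hx0
  have h5 := DI_card_le (a := Z0 x) hx2
  have h6 : (1 / (l : ℝ)) * ∑ i ∈ DI (Z0 x) x, ∑ p ∈ Bl (2 ^ i), 1 / (p : ℝ) ≤
      (1 / (l : ℝ)) * (2 * LL x) := mul_le_mul_of_nonneg_left (h4.trans h1) (by positivity)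
  have h7 : ((DI (Z0 x) x).card : ℝ) * tau x ≤ (Real.log x ^ 2)⁻¹ := by
    refine (mul_le_mul_of_nonneg_right h5 hτ.le).trans ?_
    unfold tau
    rw [← div_eq_mul_inv, div_le_iff₀ (by positivity)]
    have : (Real.log x ^ 2)⁻¹ * Real.log x ^ 4 = Real.log x ^ 2 := by
      field_simp
    rw [this]
    nlinarith
  have h8 : (1 / (l : ℝ)) * (2 * LL x) = 2 * LL x / l := by ring
  linarith

end Pool.Agent.Lib.MP_79499b_co.DZ
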