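import Pool.Agent.Lib.MP_79499b_co.DZ.LS
import Pool.Agent.Lib.MP_79499b_co.DZ.LT
import Pool.Agent.Lib.MP_79499b_co.DZ.LSz

/-!
# DZ LW: the bad primes are sparse

PROOF. Fix `i ∈ DI (Z0 x) x` and `k` with `X1 x < 2^(k+1)`, `2^k ≤ X2 x`. Apply `few` with `P = 2^i`,
`Q = 2^(k+1)`, `j = (2k+2)/i + 1` (so `i j ≥ 2k+2`). As `2^(i+1) > Z0 ≥ (log x)^100 - 1`, `i ≥ 100 LL x`, and
`k + 1 ≥ (log x)^(2/5)` is much larger than `LL x`; `2 j (log x)^8 ≤ (log x)^9`; so the number of bad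
`w ≤ 2^(k+1)` is at most `12 (2 j (log x)^8)^j ≤ exp((k+1)/3)`.
Each `w ∈ RR x` lies in `(2^k, 2^(k+1)]` for `k = log2 (w-1)`, `1/w ≤ 2^(-k)`. Hence the sum is at most
`#i #k 2 X1^(-1/3) ≤ 12 (log x)^2 X1^(-1/3) ≤ (log x)^(-1)`.
-/

set_option autoImplicit false

namespace Pool.Agent.Lib.MP_79499b_co.DZ

open Finset Filter
open scoped Classical

/-- the count of bad conductors up to `2^(k+1)` -/
theorem LW_count : ∀ᶠ x : ℕ in atTop, ∀ i ∈ DI (Z0 x) x, ∀ k : ℕ, X1 x < 2 ^ (k + 1) →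
    (2 : ℝ) ^ k ≤ X2 x →
    (((Icc 1 (2 ^ (k + 1))).filter (fun q => Bd (2 ^ i) (tau x) q)).card : ℝ) ≤
      Real.exp ((k + 1) / 3) := by
  filter_upwards [rpow_small (a := 9 / 20) (b := 1) (by norm_num) (show (0 : ℝ) < 1 / 20 by norm_num),
    log_tend.eventually_ge_atTop 100, LL_tend.eventually_ge_atTop 1,
    LL_small 3 (show (0 : ℝ) < 1 / 10 ^ 9 by norm_num), eventually_ge_atTop 2] with x h1 hlog hLL hLL3 hx2
  intro i hi k hk1 hk2
  have hlx : 0 < Real.log (x : ℝ) := by linarith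
  set L := Real.log (x : ℝ) with hL
  rw [mem_DI (by omega)] at hi
  have hl2 := Real.log_two_gt_d9
  have hl2' := Real.log_two_lt_d9
  have hexpLL : Real.exp (LL x) = L := by unfold LL; rw [Real.exp_log hlx]
  -- i is large
  have hi1 : 100 * LL x + 10 ≤ i := by
    have h2 : L ^ 100 < 2 ^ (i + 1) := by
      have h3 : Z0 x + 1 ≤ 2 ^ (i + 1) := hi.2
      have h4 : L ^ 100 < (Z0 x : ℝ) + 1 := Nat.lt_floor_add_one _
      have h5 : ((Z0 x + 1 : ℕ) : ℝ) ≤ 2 ^ (i + 1) := by exact_mod_cast h3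
      push_cast at h5
      linarith
    have h3 := Real.log_lt_log (by positivity) h2
    rw [Real.log_pow, Real.log_pow] at h3
    push_cast at h3
    have h4 : (100 : ℝ) * LL x < (i + 1) * Real.log 2 := h3
    have h5 : ((i : ℝ) + 1) * Real.log 2 ≤ ((i : ℝ) + 1) * (7 / 10) :=
      mul_le_mul_of_nonneg_left (by linarith) (by positivity)
    linarith
  -- k is large
  have hk3 : L ^ (2 / 5 : ℝ) ≤ k + 1 := by
    have h2 := Real.log_lt_log (Real.exp_pos _) hk1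
    rw [Real.log_exp, Real.log_pow] at h2
    push_cast at h2
    have h5 : ((k : ℝ) + 1) * Real.log 2 ≤ ((k : ℝ) + 1) * 1 :=
      mul_le_mul_of_nonneg_left (by linarith) (by positivity)
    linarith
  have hk4 : 1000 * LL x ≤ k + 1 := by
    refine le_trans ?_ hk3
    have h2 : (1000 * LL x) ^ 3 ≤ L := by
      rw [mul_pow]
      have h3 : LL x ^ 3 ≤ 1 / 10 ^ 9 * L := hLL3
      linarith
    have h3 : 1000 * LL x ≤ L ^ (1 / 3 : ℝ) := by
      have h4 := Real.rpow_le_rpow (by positivity) h2 (show (0 : ℝ) ≤ 1 / 3 by norm_num)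
      rwa [← Real.rpow_natCast, ← Real.rpow_mul (by positivity), show ((3 : ℕ) : ℝ) * (1 / 3) = 1 by norm_num,
        Real.rpow_one] at h4
    exact h3.trans (Real.rpow_le_rpow_of_exponent_le (by linarith) (by norm_num))
  have hk5 : (k : ℝ) ≤ 3 / 2 * L ^ (9 / 20 : ℝ) := by
    have h2 := Real.log_le_log (by positivity) hk2
    unfold X2 at h2
    rw [Real.log_exp, Real.log_pow] at h2
    have h3 : (0 : ℝ) ≤ k := Nat.cast_nonneg k
    nlinarith
  have hi0 : 0 < i := by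
    have : (0 : ℝ) < i := by linarith
    exact_mod_cast this
  set j := (2 * k + 2) / i + 1 with hj
  have hij : 2 * k + 2 ≤ i * j := by
    have := Nat.lt_mul_div_succ (2 * k + 2) hi0
    rw [hj]
    exact this.le
  have hτ : 0 < tau x := by unfold tau; positivity
  have hfew := few (2 ^ i) (2 ^ (k + 1)) j Nat.one_le_two_pow (Nat.le_add_left 1 _) (by
    rw [← pow_mul, ← pow_mul]
    exact Nat.pow_le_pow_right (by norm_num) (by linarith)) (tau x) hτ
  refine hfew.trans ?_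
  have hj1 : (j : ℝ) ≤ (2 * k + 2) / i + 1 := by
    rw [hj]
    push_cast
    have := @Nat.cast_div_le ℝ _ _ _ (2 * k + 2) i
    push_cast at this
    linarith
  have hjk : (j : ℝ) ≤ 2 * k + 3 := by
    have h2 : ((2 : ℝ) * k + 2) / i ≤ 2 * k + 2 := by
      apply div_le_self (by positivity)
      exact_mod_cast hi0
    linarith
  have hj2 : 2 * (j : ℝ) ≤ L := by
    rw [Real.rpow_one] at h1
    linarith
  have hjfac : (j.factorial : ℝ) ≤ (j : ℝ) ^ j := by exact_mod_cast Nat.factorial_le_pow j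
  have h2 : 12 * 2 ^ j * (j.factorial : ℝ) / tau x ^ (2 * j) ≤ 12 * (L ^ 9) ^ j := by
    unfold tau
    rw [inv_pow, div_inv_eq_mul, ← pow_mul]
    have h3 : (12 : ℝ) * 2 ^ j * (j.factorial : ℝ) * L ^ (4 * (2 * j)) ≤
        12 * 2 ^ j * (j : ℝ) ^ j * L ^ (4 * (2 * j)) := by
      apply mul_le_mul_of_nonneg_right _ (by positivity)
      exact mul_le_mul_of_nonneg_left hjfac (by positivity)
    refine h3.trans ?_
    have h4 : (12 : ℝ) * 2 ^ j * (j : ℝ) ^ j * L ^ (4 * (2 * j)) = 12 * ((2 * (j : ℝ)) * L ^ 8) ^ j := by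
      rw [mul_pow, mul_pow, ← pow_mul]
      ring_nf
    rw [h4]
    apply mul_le_mul_of_nonneg_left _ (by norm_num)
    apply pow_le_pow_left₀ (by positivity)
    calc 2 * (j : ℝ) * L ^ 8 ≤ L * L ^ 8 := mul_le_mul_of_nonneg_right hj2 (by positivity)
      _ = L ^ 9 := by ring
  refine h2.trans ?_
  have h5 : (L ^ 9) ^ j = Real.exp (9 * j * LL x) := by
    rw [← pow_mul, ← hexpLL, ← Real.exp_nat_mul]
    push_cast
    ring_nf
  have h6 : (12 : ℝ) ≤ Real.exp 3 := by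
    have := Real.exp_one_gt_d9
    calc (12 : ℝ) ≤ 2.7 ^ 3 := by norm_num
      _ ≤ Real.exp 1 ^ 3 := pow_le_pow_left₀ (by norm_num) (by linarith) 3
      _ = Real.exp 3 := by rw [← Real.exp_nat_mul]; norm_num
  rw [h5]
  calc 12 * Real.exp (9 * j * LL x) ≤ Real.exp 3 * Real.exp (9 * j * LL x) :=
        mul_le_mul_of_nonneg_right h6 (Real.exp_pos _).le
    _ = Real.exp (3 + 9 * j * LL x) := (Real.exp_add _ _).symm
    _ ≤ Real.exp ((k + 1) / 3) := by
        apply Real.exp_le_exp.2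
        have h7 : (j : ℝ) * LL x ≤ (2 * k + 2) / 100 + LL x := by
          have h8 : ((2 : ℝ) * k + 2) / i * LL x ≤ (2 * k + 2) / 100 := by
            rw [div_mul_eq_mul_div, div_le_div_iff₀ (by exact_mod_cast hi0) (by norm_num)]
            have h9 : (0 : ℝ) ≤ 2 * k + 2 := by positivity
            calc ((2 : ℝ) * k + 2) * LL x * 100 = (2 * k + 2) * (100 * LL x) := by ring
              _ ≤ (2 * k + 2) * i := mul_le_mul_of_nonneg_left (by linarith) h9
          have h10 : (j : ℝ) * LL x ≤ ((2 * k + 2) / i + 1) * LL x :=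
            mul_le_mul_of_nonneg_right hj1 (by linarith)
          linarith
        linarith

theorem BW_sum : ∀ᶠ x : ℕ in atTop, ∑ w ∈ BW x, 1 / (w : ℝ) ≤ (Real.log x)⁻¹ := by
  filter_upwards [LW_count, log_tend.eventually_ge_atTop 100, eventually_ge_atTop 2,
    X1_pow 9 1728, X1_le_X2, X1_pow 0 8,
    rpow_small (a := 9 / 20) (b := 1) (by norm_num) (show (0 : ℝ) < 1 / 20 by norm_num)]
    with x hcount hlog hx2 hX19 hX12 hX1 hsm
  rw [Real.rpow_one] at hsm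
  have hlx : 0 < Real.log (x : ℝ) := by linarith
  set L := Real.log (x : ℝ) with hL
  have hX18 : 8 ≤ X1 x := by simpa using hX1
  set K := Nat.log 2 ⌊X2 x⌋₊ with hK
  set KK := (range (K + 1)).filter (fun k => X1 x < 2 ^ (k + 1)) with hKK
  have hf : ⌊X2 x⌋₊ ≠ 0 := by
    have : 1 ≤ ⌊X2 x⌋₊ := Nat.le_floor (by push_cast; linarith)
    omega
  have hpowK : ∀ k ∈ KK, (2 : ℝ) ^ k ≤ X2 x := by
    intro k hk
    rw [hKK, mem_filter, mem_range] at hk
    have h1 : 2 ^ k ≤ ⌊X2 x⌋₊ := (Nat.pow_le_pow_right (by norm_num) (by omega)).trans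
      (Nat.pow_log_le_self 2 hf)
    have h2 : ((2 ^ k : ℕ) : ℝ) ≤ X2 x := (by exact_mod_cast h1 : ((2 ^ k : ℕ) : ℝ) ≤ ⌊X2 x⌋₊).trans
      (Nat.floor_le (Real.exp_pos _).le)
    exact_mod_cast h2
  have hcardK : (KK.card : ℝ) ≤ L := by
    have h1 : KK.card ≤ K + 1 := by
      refine (card_filter_le _ _).trans ?_
      rw [card_range]
    have h2 : (K : ℝ) * Real.log 2 ≤ L ^ (9 / 20 : ℝ) := by
      have h3 : (2 : ℝ) ^ K ≤ X2 x := by
        have h4 : ((2 ^ K : ℕ) : ℝ) ≤ X2 x := (by exact_mod_cast Nat.pow_log_le_self 2 hf :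
          ((2 ^ K : ℕ) : ℝ) ≤ ⌊X2 x⌋₊).trans (Nat.floor_le (Real.exp_pos _).le)
        exact_mod_cast h4
      have h5 := Real.log_le_log (by positivity) h3
      unfold X2 at h5
      rwa [Real.log_exp, Real.log_pow] at h5
    have h3 : (KK.card : ℝ) ≤ K + 1 := by exact_mod_cast h1
    have hl2 := Real.log_two_gt_d9
    have h4 : (0 : ℝ) ≤ K := Nat.cast_nonneg K
    nlinarith
  -- the pointwise bound
  have h1 : ∀ w ∈ BW x, 1 / (w : ℝ) ≤ ∑ i ∈ DI (Z0 x) x, ∑ k ∈ KK,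
      (if Bd (2 ^ i) (tau x) w ∧ w ≤ 2 ^ (k + 1) then ((2 : ℝ) ^ k)⁻¹ else 0) := by
    intro w hw
    unfold BW at hw
    rw [mem_filter, mem_RR] at hw
    obtain ⟨⟨hwp, hw1, hw2⟩, i, hi, hb⟩ := hw
    have hw2' := hwp.two_le
    set k := Nat.log 2 (w - 1) with hk
    have h3 := Nat.pow_log_le_self 2 (show w - 1 ≠ 0 by omega)
    have h4 := Nat.lt_pow_succ_log_self (b := 2) (by norm_num) (w - 1)
    rw [← hk] at h3 h4
    have hwk : w ≤ 2 ^ (k + 1) := by
      have : w - 1 < 2 ^ (k + 1) := h4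
      omega
    have hkK : k ∈ KK := by
      rw [hKK, mem_filter, mem_range]
      constructor
      · refine Nat.lt_succ_of_le (Nat.log_mono_right ?_)
        have : w ≤ ⌊X2 x⌋₊ := Nat.le_floor hw2
        omega
      · refine hw1.trans_le ?_
        exact_mod_cast hwk
    have h5 : (if Bd (2 ^ i) (tau x) w ∧ w ≤ 2 ^ (k + 1) then ((2 : ℝ) ^ k)⁻¹ else 0) ≤
        ∑ k ∈ KK, (if Bd (2 ^ i) (tau x) w ∧ w ≤ 2 ^ (k + 1) then ((2 : ℝ) ^ k)⁻¹ else 0) :=
      single_le_sum (f := fun k => if Bd (2 ^ i) (tau x) w ∧ w ≤ 2 ^ (k + 1) then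
        ((2 : ℝ) ^ k)⁻¹ else 0) (fun k _ => by positivity) hkK
    have h6 : ∑ k ∈ KK, (if Bd (2 ^ i) (tau x) w ∧ w ≤ 2 ^ (k + 1) then ((2 : ℝ) ^ k)⁻¹ else 0) ≤
        ∑ i ∈ DI (Z0 x) x, ∑ k ∈ KK,
          (if Bd (2 ^ i) (tau x) w ∧ w ≤ 2 ^ (k + 1) then ((2 : ℝ) ^ k)⁻¹ else 0) :=
      single_le_sum (f := fun i => ∑ k ∈ KK, (if Bd (2 ^ i) (tau x) w ∧ w ≤ 2 ^ (k + 1) then
        ((2 : ℝ) ^ k)⁻¹ else 0)) (fun i _ => sum_nonneg fun k _ => by positivity) hi
    refine le_trans ?_ (h5.trans h6)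
    rw [if_pos ⟨hb, hwk⟩, one_div]
    apply inv_anti₀ (by positivity)
    have : 2 ^ k ≤ w := by omega
    exact_mod_cast this
  refine (sum_le_sum h1).trans ?_
  rw [sum_comm]
  have h2 : ∀ i ∈ DI (Z0 x) x, ∑ w ∈ BW x, ∑ k ∈ KK,
      (if Bd (2 ^ i) (tau x) w ∧ w ≤ 2 ^ (k + 1) then ((2 : ℝ) ^ k)⁻¹ else 0) ≤
      L * (2 * Real.exp (-(L ^ (2 / 5 : ℝ)) / 3)) := by
    intro i hi
    rw [sum_comm]
    have h3 : ∀ k ∈ KK, ∑ w ∈ BW x,
        (if Bd (2 ^ i) (tau x) w ∧ w ≤ 2 ^ (k + 1) then ((2 : ℝ) ^ k)⁻¹ else 0) ≤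
        2 * Real.exp (-(L ^ (2 / 5 : ℝ)) / 3) := by
      intro k hk
      have hkm := hpowK k hk
      rw [hKK, mem_filter, mem_range] at hk
      have h4 := hcount i hi k hk.2 hkm
      have h5 : ∑ w ∈ BW x,
          (if Bd (2 ^ i) (tau x) w ∧ w ≤ 2 ^ (k + 1) then ((2 : ℝ) ^ k)⁻¹ else 0) ≤
          (((Icc 1 (2 ^ (k + 1))).filter (fun q => Bd (2 ^ i) (tau x) q)).card : ℝ) *
            ((2 : ℝ) ^ k)⁻¹ := by
        rw [← sum_filter, sum_const, nsmul_eq_mul]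
        refine mul_le_mul_of_nonneg_right ?_ (by positivity)
        refine Nat.cast_le.mpr (card_le_card ?_)
        intro w hw
        rw [mem_filter] at hw
        unfold BW at hw
        rw [mem_filter, mem_RR] at hw
        rw [mem_filter, mem_Icc]
        exact ⟨⟨hw.1.1.1.one_lt.le, hw.2.2⟩, hw.2.1⟩
      refine h5.trans ((mul_le_mul_of_nonneg_right h4 (by positivity)).trans ?_)
      have hk3 : L ^ (2 / 5 : ℝ) ≤ k + 1 := by
        have h2 := Real.log_lt_log (Real.exp_pos _) hk.2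
        rw [Real.log_exp, Real.log_pow] at h2
        push_cast at h2
        have hl2' := Real.log_two_lt_d9
        have h5 : ((k : ℝ) + 1) * Real.log 2 ≤ ((k : ℝ) + 1) * 1 :=
          mul_le_mul_of_nonneg_left (by linarith) (by positivity)
        linarith
      have h6 : ((2 : ℝ) ^ k)⁻¹ = 2 * Real.exp (-((k + 1) * Real.log 2)) := by
        rw [Real.exp_neg, mul_comm ((k : ℝ) + 1), ← Real.rpow_def_of_pos (by norm_num)]
        have : (2 : ℝ) ^ ((k : ℝ) + 1) = 2 ^ k * 2 := by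
          rw [Real.rpow_add (by norm_num), Real.rpow_natCast, Real.rpow_one]
        rw [this]
        field_simp
      rw [h6]
      calc Real.exp ((k + 1) / 3) * (2 * Real.exp (-((k + 1) * Real.log 2))) =
          2 * (Real.exp ((k + 1) / 3) * Real.exp (-((k + 1) * Real.log 2))) := by ring
        _ = 2 * Real.exp ((k + 1) / 3 + -((k + 1) * Real.log 2)) := by rw [Real.exp_add]
        _ ≤ 2 * Real.exp (-(L ^ (2 / 5 : ℝ)) / 3) := by
            refine mul_le_mul_of_nonneg_left (Real.exp_le_exp.2 ?_) (by norm_num)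
            have hl2 := Real.log_two_gt_d9
            have h7 : (0 : ℝ) ≤ (k : ℝ) + 1 := by positivity
            have h8 : ((k : ℝ) + 1) * (2 / 3) ≤ (k + 1) * Real.log 2 :=
              mul_le_mul_of_nonneg_left (by linarith) h7
            linarith
    refine (sum_le_sum h3).trans ?_
    rw [sum_const, nsmul_eq_mul]
    exact mul_le_mul_of_nonneg_right hcardK (by positivity)
  refine (sum_le_sum h2).trans ?_
  rw [sum_const, nsmul_eq_mul]
  have h3 := DI_card_le (a := Z0 x) hx2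
  have h4 : Real.exp (-(L ^ (2 / 5 : ℝ)) / 3) ≤ (12 * L ^ 3)⁻¹ := by
    have h5 : Real.exp (-(L ^ (2 / 5 : ℝ)) / 3) ^ 3 = (X1 x)⁻¹ := by
      rw [← Real.exp_nat_mul]
      unfold X1
      rw [← Real.exp_neg]
      congr 1
      push_cast
      ring
    have h6 : Real.exp (-(L ^ (2 / 5 : ℝ)) / 3) ^ 3 ≤ ((12 * L ^ 3)⁻¹) ^ 3 := by
      rw [h5, inv_pow]
      apply inv_anti₀ (by positivity)
      calc (12 * L ^ 3) ^ 3 = 1728 * L ^ 9 := by ring
        _ ≤ X1 x := hX19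
    exact le_of_pow_le_pow_left₀ (by norm_num) (by positivity) h6
  calc ((DI (Z0 x) x).card : ℝ) * (L * (2 * Real.exp (-(L ^ (2 / 5 : ℝ)) / 3))) ≤
      3 * L * (L * (2 * (12 * L ^ 3)⁻¹)) := by
        apply mul_le_mul h3 _ (by positivity) (by positivity)
        exact mul_le_mul_of_nonneg_left (mul_le_mul_of_nonneg_left h4 (by norm_num)) (by positivity)
    _ = 1 / 2 * L⁻¹ := by field_simp; norm_num
    _ ≤ L⁻¹ := by
        have : 0 < L⁻¹ := by positivity
        linarith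

end Pool.Agent.Lib.MP_79499b_co.DZ
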