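import Pool.Agent.Lib.MP_79499b_co.DZ.LSz

/-!
# DZ LX: integers with a huge prime factor

PROOF. `n = p b` with `b < X2^2` (`n < x`, `x < p X2^2`), so the count is at most
`1 + ∑_{1 ≤ b ≤ X2^2} π(x/b)`; `Chebyshev.pi_le_log4_mul_div` (or any bound `π(t) ≤ C t / log t`) with
`x/b ≥ √x`: `≤ 1 + C' (x/log x) ∑_{b ≤ X2^2} 1/b ≤ 1 + C'' x (1 + 2 (log x)^(9/20))/log x ≤ ε x`.
(`n = 0` is the summand 1.)
-/

set_option autoImplicit false

namespace Pool.Agent.Lib.MP_79499b_co.DZ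

open Finset Filter
open scoped Classical

/-- Chebyshev for `x/b`, `b ≤ √x` -/
theorem LX_pi : ∀ᶠ x : ℕ in atTop, ∀ b : ℕ, 1 ≤ b → (b : ℝ) ≤ (x : ℝ) ^ (1 / 2 : ℝ) →
    (Nat.primeCounting (x / b) : ℝ) ≤ 7 * ((x : ℝ) / b) / Real.log x := by
  have h1 := (isLittleO_log_rpow_atTop (show (0 : ℝ) < 1 / 4 by norm_num)).bound (one_pos)
  have h1' := tendsto_natCast_atTop_atTop.eventually h1
  filter_upwards [h1', eventually_ge_atTop 3] with x hx hx3 b hb hb2
  have hx0 : (0 : ℝ) < x := by exact_mod_cast (by omega : 0 < x)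
  have hx1 : (1 : ℝ) < x := by exact_mod_cast (by omega : 1 < x)
  have hl : 0 < Real.log (x : ℝ) := Real.log_pos hx1
  have hb0 : (0 : ℝ) < b := by exact_mod_cast (by omega : 0 < b)
  rw [Real.norm_of_nonneg hl.le, Real.norm_of_nonneg (by positivity), one_mul] at hx
  set t : ℝ := (x : ℝ) / b with ht
  have hsq : (x : ℝ) ^ (1 / 2 : ℝ) * (x : ℝ) ^ (1 / 2 : ℝ) = x := by
    rw [← Real.rpow_add hx0]
    norm_num
  have hs0 : 0 < (x : ℝ) ^ (1 / 2 : ℝ) := by positivity
  have ht1 : (x : ℝ) ^ (1 / 2 : ℝ) ≤ t := by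
    rw [ht, le_div_iff₀ hb0]
    nlinarith
  have hs1 : 1 < (x : ℝ) ^ (1 / 2 : ℝ) := Real.one_lt_rpow hx1 (by norm_num)
  have ht0 : 1 < t := lt_of_lt_of_le hs1 ht1
  have h2 := Chebyshev.pi_le_log4_mul_div ht0
  have h3 : ⌊t⌋₊ = x / b := by
    rw [ht, Nat.floor_div_natCast, Nat.floor_natCast]
  rw [h3] at h2
  refine h2.trans ?_
  have h4 : (1 / 4 : ℝ) * Real.log x ≤ Real.log (√t) := by
    rw [Real.log_sqrt (by linarith)]
    have h5 := Real.log_le_log hs0 ht1
    rw [Real.log_rpow hx0] at h5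
    linarith
  have h6 : (x : ℝ) ^ (1 / 4 : ℝ) ≤ √t := by
    have h7 := Real.sqrt_le_sqrt ht1
    rw [Real.sqrt_eq_rpow ((x : ℝ) ^ (1 / 2 : ℝ)), ← Real.rpow_mul hx0.le] at h7
    norm_num at h7
    norm_num
    exact h7
  have h8 : √t ≤ t / Real.log x := by
    rw [le_div_iff₀ hl]
    calc √t * Real.log x ≤ √t * √t :=
          mul_le_mul_of_nonneg_left (hx.trans h6) (Real.sqrt_nonneg t)
      _ = t := Real.mul_self_sqrt (by linarith)
  have h9 : Real.log 4 * t / Real.log (√t) ≤ 6 * t / Real.log x := by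
    have h10 : Real.log 4 ≤ 1.4 := by
      have : Real.log 4 = 2 * Real.log 2 := by
        rw [show (4 : ℝ) = 2 ^ 2 by norm_num, Real.log_pow]
        norm_num
      rw [this]
      linarith [Real.log_two_lt_d9]
    calc Real.log 4 * t / Real.log (√t) ≤ 1.4 * t / ((1 / 4 : ℝ) * Real.log x) := by
          apply div_le_div₀ (by positivity) _ (by positivity) h4
          exact mul_le_mul_of_nonneg_right h10 (by linarith)
      _ = 5.6 * t / Real.log x := by
          field_simp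
          norm_num
      _ ≤ _ := by
          apply div_le_div_of_nonneg_right _ hl.le
          nlinarith
  calc Real.log 4 * t / Real.log (√t) + √t ≤ 6 * t / Real.log x + t / Real.log x := add_le_add h9 h8
    _ = 7 * t / Real.log x := by ring

theorem LX_count (x B : ℕ) :
    cnt x (fun n => n ≠ 0 ∧ ∃ p : ℕ, p.Prime ∧ p ∣ n ∧ n / p ≤ B) ≤
      ∑ b ∈ Icc 1 B, (Nat.primeCounting (x / b) : ℝ) := by
  have h1 : cnt x (fun n => n ≠ 0 ∧ ∃ p : ℕ, p.Prime ∧ p ∣ n ∧ n / p ≤ B) ≤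
      cnt x (fun n => ∃ b ∈ Icc 1 B, ∃ p : ℕ, p.Prime ∧ n = p * b) := by
    refine cnt_mono fun n _ h => ?_
    obtain ⟨h0, p, hp, hd, hB⟩ := h
    refine ⟨n / p, ?_, p, hp, (Nat.mul_div_cancel' hd).symm⟩
    rw [mem_Icc]
    exact ⟨Nat.div_pos (Nat.le_of_dvd (by omega) hd) hp.pos, hB⟩
  refine h1.trans ((cnt_exists x (Icc 1 B) (fun b n => ∃ p : ℕ, p.Prime ∧ n = p * b)).trans ?_)
  refine sum_le_sum fun b hb => ?_
  rw [mem_Icc] at hb
  unfold EO.cnt
  rw [Nat.primeCounting, Nat.primeCounting', Nat.count_eq_card_filter_range]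
  refine Nat.cast_le.mpr ?_
  refine (card_le_card ?_).trans (card_image_le (f := fun p => p * b))
  intro n hn
  rw [mem_filter, mem_range] at hn
  obtain ⟨hnx, p, hp, rfl⟩ := hn
  rw [mem_image]
  refine ⟨p, ?_, rfl⟩
  rw [mem_filter, mem_range]
  refine ⟨?_, hp⟩
  exact Nat.lt_succ_of_le ((Nat.le_div_iff_mul_le (by omega)).2 hnx.le)

private theorem LX_zero (x : ℕ) (P : ℕ → Prop) (h : ∀ n, P n → n = 0) : cnt x P ≤ 1 := by
  unfold EO.cnt
  refine (Nat.cast_le.mpr (card_le_card (t := {0}) ?_)).trans (by simp)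
  intro n hn
  rw [mem_filter] at hn
  simp [h n hn.2]

theorem huge (ε : ℝ) (hε : 0 < ε) : ∀ᶠ x : ℕ in atTop,
    cnt x (fun n => ∃ p : ℕ, p.Prime ∧ p ∣ n ∧ (x : ℝ) < p * X2 x ^ 2) ≤ ε * x := by
  have hδ : 0 < ε / 56 := by positivity
  filter_upwards [LX_pi, X2_small 2 (δ := 1 / 2) (by norm_num),
    rpow_small (a := 9 / 20) (b := 1) (by norm_num) hδ, log_tend.eventually_ge_atTop (max 1 (56 / ε)),
    tendsto_natCast_atTop_atTop.eventually_ge_atTop (2 / ε), eventually_ge_atTop 1]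
    with x hpi hX2 hsmall hlog hxε hx1
  have hx0 : (0 : ℝ) < x := by exact_mod_cast (by omega : 0 < x)
  have hl1 : 1 ≤ Real.log (x : ℝ) := (le_max_left _ _).trans hlog
  have hl2 : 56 / ε ≤ Real.log (x : ℝ) := (le_max_right _ _).trans hlog
  have hl0 : 0 < Real.log (x : ℝ) := by linarith
  have hXpos : 0 < X2 x := Real.exp_pos _
  set B := ⌊X2 x ^ 2⌋₊ with hB
  have hBle : (B : ℝ) ≤ X2 x ^ 2 := Nat.floor_le (by positivity)
  have hX1 : 1 ≤ X2 x := Real.one_le_exp (by positivity)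
  have hB1 : 1 ≤ B := Nat.le_floor (by push_cast; nlinarith)
  have h1 : cnt x (fun n => ∃ p : ℕ, p.Prime ∧ p ∣ n ∧ (x : ℝ) < p * X2 x ^ 2) ≤
      cnt x (fun n => n = 0 ∨ (n ≠ 0 ∧ ∃ p : ℕ, p.Prime ∧ p ∣ n ∧ n / p ≤ B)) := by
    refine cnt_mono fun n hn h => ?_
    by_cases h0 : n = 0
    · exact Or.inl h0
    · refine Or.inr ⟨h0, ?_⟩
      obtain ⟨p, hp, hd, hlt⟩ := h
      refine ⟨p, hp, hd, Nat.le_floor ?_⟩
      have hp0 : (0 : ℝ) < p := by exact_mod_cast hp.pos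
      have h2 : ((n / p : ℕ) : ℝ) * p = n := by
        rw [← Nat.cast_mul, Nat.div_mul_cancel hd]
      have h3 : (n : ℝ) < x := by exact_mod_cast hn
      by_contra hcon
      push Not at hcon
      nlinarith
  have h3 : ∑ b ∈ Icc 1 B, (Nat.primeCounting (x / b) : ℝ) ≤
      7 * x / Real.log x * (1 + Real.log B) := by
    calc ∑ b ∈ Icc 1 B, (Nat.primeCounting (x / b) : ℝ) ≤
          ∑ b ∈ Icc 1 B, 7 * x / Real.log x * ((b : ℝ)⁻¹) := by
          refine sum_le_sum fun b hb => ?_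
          rw [mem_Icc] at hb
          have hb' : (b : ℝ) ≤ (x : ℝ) ^ (1 / 2 : ℝ) := by
            refine le_trans ?_ hX2
            exact le_trans (by exact_mod_cast hb.2) hBle
          refine (hpi b hb.1 hb').trans (le_of_eq ?_)
          field_simp
      _ = 7 * x / Real.log x * ∑ b ∈ Icc 1 B, ((b : ℝ)⁻¹) := by rw [mul_sum]
      _ ≤ _ := by
          refine mul_le_mul_of_nonneg_left ?_ (by positivity)
          have h4 := harmonic_le_one_add_log B
          rw [harmonic_eq_sum_Icc] at h4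
          push_cast at h4
          exact h4
  have h5 : Real.log B ≤ 2 * Real.log (x : ℝ) ^ (9 / 20 : ℝ) := by
    have h6 : Real.log B ≤ Real.log (X2 x ^ 2) :=
      Real.log_le_log (by exact_mod_cast hB1) hBle
    rw [Real.log_pow] at h6
    unfold X2 at h6
    rw [Real.log_exp] at h6
    push_cast at h6
    exact h6
  rw [Real.rpow_one] at hsmall
  have h7 : 7 * x / Real.log x * (1 + Real.log B) ≤ ε / 2 * x := by
    have h8 : 1 + Real.log B ≤ ε / 14 * Real.log x := by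
      have h9 : (1 : ℝ) ≤ ε / 56 * Real.log x := by
        have := mul_le_mul_of_nonneg_left hl2 hδ.le
        refine le_trans (le_of_eq ?_) this
        field_simp
      linarith
    calc 7 * x / Real.log x * (1 + Real.log B) ≤ 7 * x / Real.log x * (ε / 14 * Real.log x) :=
          mul_le_mul_of_nonneg_left h8 (by positivity)
      _ = _ := by
          field_simp
          norm_num
  have h10 : 1 ≤ ε / 2 * x := by
    have := mul_le_mul_of_nonneg_left hxε (show 0 ≤ ε / 2 by positivity)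
    refine le_trans (le_of_eq ?_) this
    field_simp
  have h2 := LX_zero x (fun n => n = 0) (fun n h => h)
  have h11 := cnt_or x (fun n => n = 0) (fun n => n ≠ 0 ∧ ∃ p : ℕ, p.Prime ∧ p ∣ n ∧ n / p ≤ B)
  have h12 := LX_count x B
  linarith

end Pool.Agent.Lib.MP_79499b_co.DZ
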