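import Pool.Agent.Lib.MP_79499b_co.DZ.LT
import Pool.Agent.Lib.MP_79499b_co.DZ.LW
import Pool.Agent.Lib.MP_79499b_co.DZ.LV
import Pool.Agent.Lib.MP_79499b_co.DZ.LX
import Pool.Agent.Lib.MP_79499b_co.DZ.LC

/-!
# DZ L1: the primes `p > Z0` dividing `n` are no `l`-th powers

PROOF. The event implies one of: (a) `huge`; (b) `(n : ZMod w)^m = 1` for some `w ∈ BW x`: `cnt_root` and `BW_sum`
give `≤ 2 m x / log x`; (c) `w ∈ RR x`, not in `BW x`, `l ∣ w - 1` prime, `l > yy x`, `p ∣ n`, `Z0 < p ≤ x / X2^2` an `l`-th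
power mod `w`, `p ≠ 0` mod `w` (since `n^m = 1`): `cnt_root_dvd` and `p w ≤ x` give at most
`∑_w ∑_l ∑_p 2 m x/(p w) = 2 m x ∑_w (1/w) ∑_l TT x w l ≤ 2 m x (2 LL x ∑_w (1/w) ∑_l 1/l + ∑_w (1/w) ω(w-1) (log x)^(-2))`,
by `LV_one` and `ω(w-1) ≤ log2 w ≤ 2 (log x)^(9/20)`, `RR_sum_le`, this is `≤ 2 m x (2 LL^(-3) + 2 LL (log x)^(-1))`.
-/

set_option autoImplicit false

namespace Pool.Agent.Lib.MP_79499b_co.DZ

open Finset Filter
open scoped Classical

/-- the number of prime factors of `w - 1` -/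
theorem omega_le : ∀ᶠ x : ℕ in atTop, ∀ w ∈ RR x, ((w - 1).primeFactors.card : ℝ) ≤ Real.log x := by
  filter_upwards [X2_small 1 (show (0 : ℝ) < 1 / 4 by norm_num), eventually_ge_atTop 2] with x hX2 hx2
  intro w hw
  rw [mem_RR] at hw
  have hx0 : (0 : ℝ) < x := by exact_mod_cast (by omega : 0 < x)
  have hlx : 0 ≤ Real.log (x : ℝ) := Real.log_natCast_nonneg x
  have hw1 := hw.1.one_lt
  have h8 : 2 ^ (w - 1).primeFactors.card ≤ w := by
    calc 2 ^ (w - 1).primeFactors.card = ∏ _p ∈ (w - 1).primeFactors, 2 := by rw [prod_const]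
      _ ≤ ∏ p ∈ (w - 1).primeFactors, p :=
          prod_le_prod' fun p hp => (Nat.prime_of_mem_primeFactors hp).two_le
      _ ≤ w - 1 := Nat.le_of_dvd (by omega) (Nat.prod_primeFactors_dvd _)
      _ ≤ w := Nat.sub_le _ _
  have h9 : (w : ℝ) ≤ (x : ℝ) ^ (1 / 4 : ℝ) := by
    rw [pow_one] at hX2
    exact hw.2.2.trans hX2
  have h10 : (2 : ℝ) ^ (w - 1).primeFactors.card ≤ (x : ℝ) ^ (1 / 4 : ℝ) :=
    (by exact_mod_cast h8 : (2 : ℝ) ^ (w - 1).primeFactors.card ≤ w).trans h9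
  have h11 := Real.log_le_log (by positivity) h10
  rw [Real.log_pow, Real.log_rpow hx0] at h11
  have h12 := Real.log_two_gt_d9
  have h13 : (0 : ℝ) ≤ (w - 1).primeFactors.card := Nat.cast_nonneg _
  nlinarith

/-- the primes of the sum `TT` -/
noncomputable def PT (x w l : ℕ) : Finset ℕ :=
  (Ioc (Z0 x) x).filter (fun p : ℕ => p.Prime ∧ (p : ZMod w) ≠ 0 ∧ ∃ y : ZMod w, y ^ l = (p : ZMod w))

theorem TT_eq (x w l : ℕ) : TT x w l = ∑ p ∈ PT x w l, 1 / (p : ℝ) := rfl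

/-- the good primes of the range -/
noncomputable def RG (x : ℕ) : Finset ℕ := (RR x).filter (fun w => w ∉ BW x)

theorem mem_RG {x w : ℕ} : w ∈ RG x ↔ w ∈ RR x ∧ w ∉ BW x := by
  unfold RG
  rw [mem_filter]

theorem RG_sub (x : ℕ) : RG x ⊆ RR x := filter_subset _ _

/-- part (c) -/
theorem L1_c (m : ℕ) (hm : 1 ≤ m) : ∀ᶠ x : ℕ in atTop,
    cnt x (fun n => ∃ w ∈ RG x, ∃ l ∈ (w - 1).primeFactors.filter (fun l => yy x < l),
      ∃ p ∈ PT x w l, (p : ℝ) * X2 x ^ 2 ≤ x ∧ p ∣ n ∧ (n : ZMod w) ^ m = 1) ≤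
      2 * m * x * (3 / LL x) := by
  filter_upwards [TT_le, LV_one, omega_le, RR_sum_le, LL_tend.eventually_ge_atTop 1,
    log_tend.eventually_ge_atTop 100, LL_small 3 (show (0 : ℝ) < 1 by norm_num),
    X1_pow 0 8, X1_le_X2] with x hTT hLV hom hRR hLL hlog hLL3 hX1 hX12
  have hX18 : 8 ≤ X1 x := by simpa using hX1
  have hlx : 0 < Real.log (x : ℝ) := by linarith
  refine (cnt_exists x _ _).trans ?_
  have h1 : ∀ w ∈ RG x, cnt x (fun n => ∃ l ∈ (w - 1).primeFactors.filter (fun l => yy x < l),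
      ∃ p ∈ PT x w l, (p : ℝ) * X2 x ^ 2 ≤ x ∧ p ∣ n ∧ (n : ZMod w) ^ m = 1) ≤
      2 * m * x * (2 * LL x * ((1 / (w : ℝ)) * ∑ l ∈ (w - 1).primeFactors.filter
        (fun l => yy x < l), 1 / (l : ℝ)) + (1 / (w : ℝ)) * (Real.log x)⁻¹) := by
    intro w hw
    rw [mem_RG] at hw
    have hwR := mem_RR.1 hw.1
    have hw0 := Rg_ne_zero hwR
    refine (cnt_exists x _ _).trans ?_
    have h2 : ∀ l ∈ (w - 1).primeFactors.filter (fun l => yy x < l),
        cnt x (fun n => ∃ p ∈ PT x w l, (p : ℝ) * X2 x ^ 2 ≤ x ∧ p ∣ n ∧ (n : ZMod w) ^ m = 1) ≤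
        2 * m * x * (1 / (w : ℝ)) * (2 * LL x / l + (Real.log x ^ 2)⁻¹) := by
      intro l hl
      rw [mem_filter] at hl
      have hlp := Nat.prime_of_mem_primeFactors hl.1
      have hld := Nat.dvd_of_mem_primeFactors hl.1
      refine (cnt_exists x _ _).trans ?_
      have h3 : ∀ p ∈ PT x w l, cnt x (fun n => (p : ℝ) * X2 x ^ 2 ≤ x ∧ p ∣ n ∧
          (n : ZMod w) ^ m = 1) ≤ 2 * m * x * (1 / (w : ℝ)) * (1 / (p : ℝ)) := by
        intro p hp
        unfold PT at hp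
        rw [mem_filter, mem_Ioc] at hp
        obtain ⟨⟨hp1, hp2⟩, hpp, hpw, _⟩ := hp
        have hp0 : (0 : ℝ) < p := by exact_mod_cast hpp.pos
        by_cases hc : (p : ℝ) * X2 x ^ 2 ≤ x
        · have h4 : cnt x (fun n => (p : ℝ) * X2 x ^ 2 ≤ x ∧ p ∣ n ∧ (n : ZMod w) ^ m = 1) ≤
              cnt x (fun n => p ∣ n ∧ (n : ZMod w) ^ m = 1) := cnt_mono fun n _ h => h.2
          have hne : p ≠ w := by
            rintro rfl
            exact hpw (ZMod.natCast_self p)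
          refine h4.trans ((cnt_root_dvd hm hwR.1 hpp hne x).trans ?_)
          have h5 : (p : ℝ) * w ≤ x := by
            refine le_trans ?_ hc
            refine mul_le_mul_of_nonneg_left (hwR.2.2.trans ?_) hp0.le
            have : 1 ≤ X2 x := by linarith
            calc X2 x = X2 x ^ 1 := (pow_one _).symm
              _ ≤ X2 x ^ 2 := pow_le_pow_right₀ this (by norm_num)
          have h6 : (1 : ℝ) ≤ x / (p * w) := by
            rw [le_div_iff₀ (by positivity)]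
            linarith
          calc (m : ℝ) * (x / (p * w) + 1) ≤ m * (2 * (x / (p * w))) :=
                mul_le_mul_of_nonneg_left (by linarith) (Nat.cast_nonneg _)
            _ = 2 * m * x * (1 / w) * (1 / p) := by field_simp
        · have h4 : cnt x (fun n => (p : ℝ) * X2 x ^ 2 ≤ x ∧ p ∣ n ∧ (n : ZMod w) ^ m = 1) ≤
              cnt x (fun _ => False) := cnt_mono fun n _ h => hc h.1
          rw [cnt_false] at h4
          exact h4.trans (by positivity)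
      refine (sum_le_sum h3).trans ?_
      rw [← mul_sum, ← TT_eq]
      exact mul_le_mul_of_nonneg_left (hTT w hw.1 hw.2 l hlp hld) (by positivity)
    refine (sum_le_sum h2).trans ?_
    rw [← mul_sum, sum_add_distrib, sum_const, nsmul_eq_mul]
    have h3 : ∑ l ∈ (w - 1).primeFactors.filter (fun l => yy x < l), 2 * LL x / (l : ℝ) =
        2 * LL x * ∑ l ∈ (w - 1).primeFactors.filter (fun l => yy x < l), 1 / (l : ℝ) := by
      rw [mul_sum]
      exact sum_congr rfl fun l _ => by ring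
    have h4 : (((w - 1).primeFactors.filter (fun l => yy x < l)).card : ℝ) * (Real.log x ^ 2)⁻¹ ≤
        (Real.log x)⁻¹ := by
      have h5 : (((w - 1).primeFactors.filter (fun l => yy x < l)).card : ℝ) ≤ Real.log x :=
        (Nat.cast_le.mpr (card_filter_le _ _)).trans (hom w hw.1)
      calc _ ≤ Real.log x * (Real.log x ^ 2)⁻¹ := mul_le_mul_of_nonneg_right h5 (by positivity)
        _ = (Real.log x)⁻¹ := by field_simp
    rw [h3]
    have h6 : (0 : ℝ) ≤ 2 * m * x * (1 / (w : ℝ)) := by positivity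
    refine (mul_le_mul_of_nonneg_left (add_le_add le_rfl h4) h6).trans (le_of_eq ?_)
    ring
  refine (sum_le_sum h1).trans ?_
  rw [← mul_sum]
  refine mul_le_mul_of_nonneg_left ?_ (by positivity)
  rw [sum_add_distrib, ← mul_sum, ← sum_mul]
  have h2 : ∑ w ∈ RG x, (1 / (w : ℝ)) * ∑ l ∈ (w - 1).primeFactors.filter
      (fun l => yy x < l), 1 / (l : ℝ) ≤ (LL x ^ 4)⁻¹ := by
    refine le_trans (sum_le_sum_of_subset_of_nonneg (RG_sub x) fun w _ _ => ?_) hLV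
    exact mul_nonneg (by positivity) (sum_nonneg fun _ _ => by positivity)
  have h3 : ∑ w ∈ RG x, 1 / (w : ℝ) ≤ LL x :=
    le_trans (sum_le_sum_of_subset_of_nonneg (RG_sub x) fun w _ _ => by positivity) hRR
  have h4 : 2 * LL x * (LL x ^ 4)⁻¹ ≤ 2 / LL x := by
    rw [← div_eq_mul_inv, div_le_div_iff₀ (by positivity) (by linarith)]
    have h5 : (1 : ℝ) ≤ LL x ^ 2 := one_le_pow₀ hLL
    have h6 : LL x ^ 4 = LL x ^ 2 * LL x ^ 2 := by ring
    nlinarith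
  have h5 : LL x * (Real.log x)⁻¹ ≤ 1 / LL x := by
    rw [← div_eq_mul_inv, div_le_div_iff₀ hlx (by linarith)]
    have h6 : LL x ^ 2 ≤ LL x ^ 3 := pow_le_pow_right₀ hLL (by norm_num)
    nlinarith
  have h6 : (0 : ℝ) ≤ 2 * LL x := by linarith
  calc 2 * LL x * (∑ w ∈ RG x, (1 / (w : ℝ)) * (∑ l ∈ (w - 1).primeFactors.filter
      (fun l => yy x < l), 1 / (l : ℝ))) + (∑ w ∈ RG x, 1 / (w : ℝ)) * (Real.log x)⁻¹ ≤
      2 * LL x * (LL x ^ 4)⁻¹ + LL x * (Real.log x)⁻¹ :=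
        add_le_add (mul_le_mul_of_nonneg_left h2 h6) (mul_le_mul_of_nonneg_right h3 (by positivity))
    _ ≤ 2 / LL x + 1 / LL x := add_le_add h4 h5
    _ = 3 / LL x := by ring

/-- part (b) -/
theorem L1_b (m : ℕ) (hm : 1 ≤ m) : ∀ᶠ x : ℕ in atTop,
    cnt x (fun n => ∃ w ∈ BW x, (n : ZMod w) ^ m = 1) ≤ 2 * m * x * (Real.log x)⁻¹ := by
  filter_upwards [BW_sum, X2_small 1 (show (0 : ℝ) < 1 by norm_num)] with x hB hX2
  refine (cnt_exists x _ _).trans ?_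
  have h1 : ∀ w ∈ BW x, cnt x (fun n => (n : ZMod w) ^ m = 1) ≤ 2 * m * x * (1 / (w : ℝ)) := by
    intro w hw
    unfold BW at hw
    have hwR := mem_RR.1 (mem_filter.1 hw).1
    have hw0 := Rg_ne_zero hwR
    refine (cnt_root hm hwR.1 x).trans ?_
    rw [pow_one, Real.rpow_one] at hX2
    have h6 : (1 : ℝ) ≤ x / w := by
      rw [le_div_iff₀ hw0]
      linarith [hwR.2.2]
    calc (m : ℝ) * (x / w + 1) ≤ m * (2 * (x / w)) :=
          mul_le_mul_of_nonneg_left (by linarith) (Nat.cast_nonneg _)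
      _ = 2 * m * x * (1 / w) := by ring
  refine (sum_le_sum h1).trans ?_
  rw [← mul_sum]
  exact mul_le_mul_of_nonneg_left hB (by positivity)

theorem L1 (m : ℕ) (hm : 1 ≤ m) (ε : ℝ) (hε : 0 < ε) : ∃ x₀ : ℕ, ∀ x ≥ x₀,
    cnt x (fun n => ∃ w p l : ℕ, Rg x w ∧ (n : ZMod w) ^ m = 1 ∧ p.Prime ∧ p ∣ n ∧ Z0 x < p ∧
      l.Prime ∧ yy x < l ∧ l ∣ w - 1 ∧ ∃ y : ZMod w, y ^ l = (p : ZMod w)) ≤ ε * x := by
  rw [← Filter.eventually_atTop]
  filter_upwards [L1_c m hm, L1_b m hm, huge (ε / 4) (by positivity),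
    LL_tend.eventually_ge_atTop (24 * m / ε), LL_tend.eventually_ge_atTop 1,
    log_tend.eventually_ge_atTop (8 * m / ε), log_tend.eventually_ge_atTop 1,
    X1_pow 0 8, X1_le_X2] with x hc hb hh hLL hLL1 hlog hlog1 hX1 hX12
  have hX18 : 8 ≤ X1 x := by simpa using hX1
  have hx : (0 : ℝ) ≤ x := Nat.cast_nonneg x
  have h1 : cnt x (fun n => ∃ w p l : ℕ, Rg x w ∧ (n : ZMod w) ^ m = 1 ∧ p.Prime ∧ p ∣ n ∧ Z0 x < p ∧
      l.Prime ∧ yy x < l ∧ l ∣ w - 1 ∧ ∃ y : ZMod w, y ^ l = (p : ZMod w)) ≤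
      cnt x (fun n => (∃ p : ℕ, p.Prime ∧ p ∣ n ∧ (x : ℝ) < p * X2 x ^ 2) ∨
        ((∃ w ∈ BW x, (n : ZMod w) ^ m = 1) ∨
        (∃ w ∈ RG x, ∃ l ∈ (w - 1).primeFactors.filter (fun l => yy x < l),
      ∃ p ∈ PT x w l, (p : ℝ) * X2 x ^ 2 ≤ x ∧ p ∣ n ∧ (n : ZMod w) ^ m = 1))) := by
    refine cnt_mono fun n hn h => ?_
    obtain ⟨w, p, l, hw, hnm, hp, hpn, hZ, hl, hyl, hlw, y, hy⟩ := h
    by_cases h2 : (x : ℝ) < p * X2 x ^ 2
    · exact Or.inl ⟨p, hp, hpn, h2⟩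
    right
    by_cases h3 : w ∈ BW x
    · exact Or.inl ⟨w, h3, hnm⟩
    right
    push Not at h2
    have hw1 := hw.1.one_lt
    refine ⟨w, mem_RG.2 ⟨mem_RR.2 hw, h3⟩, l, mem_filter.2 ⟨Nat.mem_primeFactors.2
      ⟨hl, hlw, by omega⟩, hyl⟩, p, ?_, h2, hpn, hnm⟩
    unfold PT
    rw [mem_filter, mem_Ioc]
    refine ⟨⟨hZ, ?_⟩, hp, ?_, y, hy⟩
    · have h4 : (1 : ℝ) ≤ X2 x ^ 2 := one_le_pow₀ (by linarith)
      have h5 : (p : ℝ) ≤ x := by
        have hp0 : (0 : ℝ) ≤ p := Nat.cast_nonneg p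
        nlinarith
      exact_mod_cast h5
    · intro h4
      have h5 : (w : ℕ) ∣ p := (ZMod.natCast_eq_zero_iff _ _).1 h4
      have h6 : (n : ZMod w) = 0 := (ZMod.natCast_eq_zero_iff _ _).2 (h5.trans hpn)
      rw [h6, zero_pow (by omega)] at hnm
      have : Fact w.Prime := ⟨hw.1⟩
      exact zero_ne_one hnm
  refine h1.trans ((cnt_or x _ _).trans ?_)
  refine (add_le_add hh ((cnt_or x _ _).trans (add_le_add hb hc))).trans ?_
  have h2 : 2 * (m : ℝ) * x * (Real.log x)⁻¹ ≤ ε / 4 * x := by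
    rw [← div_eq_mul_inv, div_le_iff₀ (by linarith)]
    rw [div_le_iff₀ hε] at hlog
    nlinarith
  have h3 : 2 * (m : ℝ) * x * (3 / LL x) ≤ ε / 4 * x := by
    rw [mul_div_assoc', div_le_iff₀ (by linarith)]
    rw [div_le_iff₀ hε] at hLL
    nlinarith
  nlinarith

end Pool.Agent.Lib.MP_79499b_co.DZ
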