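import Pool.Agent.Lib.MP_79499b_co.DZ.LC
import Pool.Agent.Lib.MP_79499b_co.DZ.LSz

/-!
# DZ L4: exceptional pairs

PROOF. `cnt_exists` over `S` and `cnt_root2`: at most `∑_S m^2 (x/(w1 w2) + 1) ≤ 2 m^2 x ∑_S 1/(w1 w2)`
(`w1 w2 ≤ X2^2 ≤ x`), which is at most `2 m^2 x / LL x ≤ ε x`.
-/

set_option autoImplicit false

namespace Pool.Agent.Lib.MP_79499b_co.DZ

open Finset Filter
open scoped Classical

/-- general form: the pairs in `S` cost `2 m^2 x ∑_S 1/(w1 w2)` -/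
theorem pairs_le (m : ℕ) (hm : 1 ≤ m) : ∀ᶠ x : ℕ in atTop, ∀ S : Finset (ℕ × ℕ),
    cnt x (fun n => ∃ w ∈ S, Rg x w.1 ∧ Rg x w.2 ∧ w.1 ≠ w.2 ∧ (n : ZMod w.1) ^ m = 1 ∧
      (n : ZMod w.2) ^ m = 1) ≤ 2 * m ^ 2 * x * ∑ w ∈ S, 1 / ((w.1 : ℝ) * w.2) := by
  filter_upwards [X2_small 2 one_pos] with x hx
  intro S
  rw [Real.rpow_one] at hx
  refine (cnt_exists x S _).trans ?_
  rw [mul_sum]
  refine sum_le_sum fun w _ => ?_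
  by_cases h : Rg x w.1 ∧ Rg x w.2 ∧ w.1 ≠ w.2
  · obtain ⟨h1, h2, h3⟩ := h
    have h4 : cnt x (fun n => Rg x w.1 ∧ Rg x w.2 ∧ w.1 ≠ w.2 ∧ (n : ZMod w.1) ^ m = 1 ∧
        (n : ZMod w.2) ^ m = 1) ≤ cnt x (fun n => (n : ZMod w.1) ^ m = 1 ∧ (n : ZMod w.2) ^ m = 1) :=
      cnt_mono fun n _ h => h.2.2.2
    refine h4.trans ((cnt_root2 hm h1.1 h2.1 h3 x).trans ?_)
    have hw1 := Rg_ne_zero h1
    have hw2 := Rg_ne_zero h2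
    have h5 : (w.1 : ℝ) * w.2 ≤ x := by
      refine le_trans ?_ hx
      rw [sq]
      exact mul_le_mul h1.2.2 h2.2.2 hw2.le (Real.exp_pos _).le
    have h6 : (1 : ℝ) ≤ x / (w.1 * w.2) := by
      rw [le_div_iff₀ (by positivity)]
      linarith
    calc (m : ℝ) ^ 2 * (x / (w.1 * w.2) + 1) ≤ m ^ 2 * (2 * (x / (w.1 * w.2))) :=
          mul_le_mul_of_nonneg_left (by linarith) (by positivity)
      _ = 2 * m ^ 2 * x * (1 / (w.1 * w.2)) := by ring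
  · have h4 : cnt x (fun n => Rg x w.1 ∧ Rg x w.2 ∧ w.1 ≠ w.2 ∧ (n : ZMod w.1) ^ m = 1 ∧
        (n : ZMod w.2) ^ m = 1) ≤ cnt x (fun _ => False) :=
      cnt_mono fun n _ h' => h ⟨h'.1, h'.2.1, h'.2.2.1⟩
    rw [cnt_false] at h4
    refine h4.trans (by positivity)

theorem L4 (m : ℕ) (hm : 1 ≤ m) (ε : ℝ) (hε : 0 < ε) : ∃ x₀ : ℕ, ∀ x ≥ x₀, ∀ S : Finset (ℕ × ℕ),
    ∑ w ∈ S, 1 / ((w.1 : ℝ) * w.2) ≤ 1 / LL x →
    cnt x (fun n => ∃ w ∈ S, Rg x w.1 ∧ Rg x w.2 ∧ w.1 ≠ w.2 ∧ (n : ZMod w.1) ^ m = 1 ∧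
      (n : ZMod w.2) ^ m = 1) ≤ ε * x := by
  rw [← Filter.eventually_atTop]
  filter_upwards [pairs_le m hm, LL_tend.eventually_ge_atTop (2 * m ^ 2 / ε),
    LL_tend.eventually_ge_atTop 1] with x h1 h2 h3
  intro S hS
  refine (h1 S).trans ?_
  have h4 : 2 * (m : ℝ) ^ 2 * x * ∑ w ∈ S, 1 / ((w.1 : ℝ) * w.2) ≤ 2 * m ^ 2 * x * (1 / LL x) :=
    mul_le_mul_of_nonneg_left hS (by positivity)
  refine h4.trans ?_
  rw [div_le_iff₀ hε] at h2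
  rw [mul_one_div, div_le_iff₀ (by linarith)]
  have hx : (0 : ℝ) ≤ x := Nat.cast_nonneg x
  nlinarith

end Pool.Agent.Lib.MP_79499b_co.DZ
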