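import Pool.Agent.Lib.MP_79499b_co.DZ.LV
import Pool.Agent.Lib.MP_79499b_co.DZ.L4

/-!
# DZ L2: `w1 - 1` and `w2 - 1` have no common prime factor `> yy`

PROOF. Apply `pairs_le` to the set `S` of the pairs of distinct primes of the range with a common prime factor
`l > yy` of `w1 - 1`, `w2 - 1`: `∑_S 1/(w1 w2) ≤ ∑_{yy < l ≤ X2} UL x l^2 ≤ LL^(-4)` (`LV_two`).
-/

set_option autoImplicit false

namespace Pool.Agent.Lib.MP_79499b_co.DZ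

open Finset Filter
open scoped Classical

theorem L2 (m : ℕ) (hm : 1 ≤ m) (ε : ℝ) (hε : 0 < ε) : ∃ x₀ : ℕ, ∀ x ≥ x₀,
    cnt x (fun n => ∃ w1 w2 l : ℕ, Rg x w1 ∧ Rg x w2 ∧ w1 ≠ w2 ∧ (n : ZMod w1) ^ m = 1 ∧
      (n : ZMod w2) ^ m = 1 ∧ l.Prime ∧ yy x < l ∧ l ∣ w1 - 1 ∧ l ∣ w2 - 1) ≤ ε * x := by
  rw [← Filter.eventually_atTop]
  filter_upwards [pairs_le m hm, LV_two, LL_tend.eventually_ge_atTop (2 * m ^ 2 / ε),
    LL_tend.eventually_ge_atTop 1] with x h1 h2 h3 h4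
  set S := (RR x ×ˢ RR x).filter (fun w : ℕ × ℕ => ∃ l : ℕ, l.Prime ∧ yy x < l ∧ l ∣ w.1 - 1 ∧
    l ∣ w.2 - 1) with hS
  have h5 : cnt x (fun n => ∃ w1 w2 l : ℕ, Rg x w1 ∧ Rg x w2 ∧ w1 ≠ w2 ∧ (n : ZMod w1) ^ m = 1 ∧
      (n : ZMod w2) ^ m = 1 ∧ l.Prime ∧ yy x < l ∧ l ∣ w1 - 1 ∧ l ∣ w2 - 1) ≤
      cnt x (fun n => ∃ w ∈ S, Rg x w.1 ∧ Rg x w.2 ∧ w.1 ≠ w.2 ∧ (n : ZMod w.1) ^ m = 1 ∧
      (n : ZMod w.2) ^ m = 1) := by
    refine cnt_mono fun n _ h => ?_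
    obtain ⟨w1, w2, l, a1, a2, a3, a4, a5, a6, a7, a8, a9⟩ := h
    refine ⟨(w1, w2), ?_, a1, a2, a3, a4, a5⟩
    rw [hS, mem_filter, mem_product]
    exact ⟨⟨mem_RR.2 a1, mem_RR.2 a2⟩, l, a6, a7, a8, a9⟩
  refine h5.trans ((h1 S).trans ?_)
  have h6 : ∑ w ∈ S, 1 / ((w.1 : ℝ) * w.2) ≤
      ∑ l ∈ (Ioc (yy x) ⌊X2 x⌋₊).filter Nat.Prime, UL x l ^ 2 := by
    have h7 : ∀ w ∈ S, 1 / ((w.1 : ℝ) * w.2) ≤ ∑ l ∈ (Ioc (yy x) ⌊X2 x⌋₊).filter Nat.Prime,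
        (if l ∣ w.1 - 1 ∧ l ∣ w.2 - 1 then 1 / ((w.1 : ℝ) * w.2) else 0) := by
      intro w hw
      rw [hS, mem_filter, mem_product, mem_RR, mem_RR] at hw
      obtain ⟨⟨hw1, hw2⟩, l, b1, b2, b3, b4⟩ := hw
      have hl : l ∈ (Ioc (yy x) ⌊X2 x⌋₊).filter Nat.Prime := by
        rw [mem_filter, mem_Ioc]
        refine ⟨⟨b2, ?_⟩, b1⟩
        have h8 : l ≤ w.1 - 1 := Nat.le_of_dvd (by have := hw1.1.one_lt; omega) b3
        have h9 : w.1 ≤ ⌊X2 x⌋₊ := Nat.le_floor hw1.2.2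
        omega
      have h10 := single_le_sum (f := fun l => if l ∣ w.1 - 1 ∧ l ∣ w.2 - 1 then
        1 / ((w.1 : ℝ) * w.2) else 0) (fun l _ => by positivity) hl
      simp only [if_pos (And.intro b3 b4)] at h10
      exact h10
    refine (sum_le_sum h7).trans ?_
    rw [sum_comm]
    refine sum_le_sum fun l _ => ?_
    rw [← sum_filter]
    unfold UL
    rw [sq, sum_mul_sum, ← sum_product']
    refine le_trans (sum_le_sum_of_subset_of_nonneg (t := (RR x).filter (fun w => l ∣ w - 1) ×ˢ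
      (RR x).filter (fun w => l ∣ w - 1)) ?_ fun _ _ _ => by positivity) (le_of_eq ?_)
    · intro w hw
      rw [mem_filter, hS, mem_filter, mem_product] at hw
      rw [mem_product, mem_filter, mem_filter]
      exact ⟨⟨hw.1.1.1, hw.2.1⟩, ⟨hw.1.1.2, hw.2.2⟩⟩
    · refine sum_congr rfl fun w _ => ?_
      rw [one_div_mul_one_div]
  have h7 : (LL x ^ 4)⁻¹ ≤ 1 / LL x := by
    rw [inv_eq_one_div]
    apply one_div_le_one_div_of_le (by linarith)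
    calc LL x = LL x ^ 1 := (pow_one _).symm
      _ ≤ LL x ^ 4 := pow_le_pow_right₀ h4 (by norm_num)
  have h8 : 2 * (m : ℝ) ^ 2 * x * ∑ w ∈ S, 1 / ((w.1 : ℝ) * w.2) ≤ 2 * m ^ 2 * x * (1 / LL x) :=
    mul_le_mul_of_nonneg_left (h6.trans (h2.trans h7)) (by positivity)
  refine h8.trans ?_
  rw [div_le_iff₀ hε] at h3
  rw [mul_one_div, div_le_iff₀ (by linarith)]
  have hx : (0 : ℝ) ≤ x := Nat.cast_nonneg x
  nlinarith

end Pool.Agent.Lib.MP_79499b_co.DZ
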