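import Pool.Agent.Lib.MP_79499b_co.DZ.LD
import Pool.Agent.Lib.BV.Defs

/-!
# DZ LDef: definitions of part L (the large primes)

`Bl P`: the primes of `(P, 2P]`. `SP P χ = ∑_{p ∈ Bl P} χ p / p`. `Bd P τ q`: some primitive character
mod `q` has `|SP P χ| ≥ τ`. `tau x = (log x)^(-4)`. `DI a x`: the `i` with `a < 2^(i+1)`, `2^i ≤ x`.
`TT x w l`: the sum of `1/p` over the primes `Z0 < p ≤ x` which are `l`-th powers mod `w`. `BW x`: the
primes `w` of the range with a bad block `(2^i, 2^(i+1)]`, `i ∈ DI (Z0 x) x`. `zz x = ⌊exp (log x)^(9/10)⌋`.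
`JJ x`: the `i` with `X2^8 ≤ 2^i ≤ zz x`. `BQ x`: the bad conductors up to `X2^2` for the blocks of `JJ x`.
`SE x`: the pairs `(w1,w2)` of the range with `w1`, `w2` or `w1 w2` in `BQ x`. `UU x w1 w2`: the primes of
the blocks of `JJ x` which are nonresidues mod `w1` and mod `w2`. `UL x l`: the sum of `1/w` over the primes
`w` of the range with `l ∣ w - 1`.
-/

set_option autoImplicit false

namespace Pool.Agent.Lib.MP_79499b_co.DZ

open Finset
open scoped Classical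

/-- the primes of `(P, 2P]` -/
def Bl (P : ℕ) : Finset ℕ := (Ioc P (2 * P)).filter Nat.Prime

/-- the sum of `χ p / p` over the block -/
noncomputable def SP (P : ℕ) {q : ℕ} (χ : DirichletCharacter ℂ q) : ℂ :=
  ∑ p ∈ Bl P, χ (p : ZMod q) / p

/-- some primitive character mod `q` has a large sum over the block -/
def Bd (P : ℕ) (τ : ℝ) (q : ℕ) : Prop :=
  ∃ χ : DirichletCharacter ℂ q, χ.IsPrimitive ∧ τ ≤ ‖SP P χ‖

/-- the threshold -/
noncomputable def tau (x : ℕ) : ℝ := (Real.log x ^ 4)⁻¹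

/-- the block indices -/
def DI (a x : ℕ) : Finset ℕ := (range (Nat.log 2 x + 1)).filter (fun i => a < 2 ^ (i + 1))

/-- the sum of `1/p` over the primes `Z0 < p ≤ x` which are `l`-th powers mod `w` -/
noncomputable def TT (x w l : ℕ) : ℝ :=
  ∑ p ∈ (Ioc (Z0 x) x).filter (fun p : ℕ => p.Prime ∧ (p : ZMod w) ≠ 0 ∧
    ∃ y : ZMod w, y ^ l = (p : ZMod w)), 1 / (p : ℝ)

/-- the bad primes of the range -/
noncomputable def BW (x : ℕ) : Finset ℕ :=
  (RR x).filter (fun w => ∃ i ∈ DI (Z0 x) x, Bd (2 ^ i) (tau x) w)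

/-- the upper end of the sieving range -/
noncomputable def zz (x : ℕ) : ℕ := ⌊Real.exp (Real.log x ^ (9 / 10 : ℝ))⌋₊

/-- the block indices of the sieving range -/
noncomputable def JJ (x : ℕ) : Finset ℕ :=
  (range (Nat.log 2 (zz x) + 1)).filter (fun i => X2 x ^ 8 ≤ 2 ^ i)

/-- the bad conductors -/
noncomputable def BQ (x : ℕ) : Finset ℕ :=
  (Icc 1 ⌊X2 x ^ 2⌋₊).filter (fun q => ∃ i ∈ JJ x, Bd (2 ^ i) (tau x) q)

/-- the exceptional pairs -/
noncomputable def SE (x : ℕ) : Finset (ℕ × ℕ) :=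
  (RR x ×ˢ RR x).filter (fun w : ℕ × ℕ => w.1 ≠ w.2 ∧ (w.1 ∈ BQ x ∨ w.2 ∈ BQ x ∨ w.1 * w.2 ∈ BQ x))

/-- the sieving primes of a pair -/
noncomputable def UU (x w1 w2 : ℕ) : Finset ℕ :=
  (JJ x).biUnion (fun i => (Bl (2 ^ i)).filter
    (fun p : ℕ => ¬ IsSquare (p : ZMod w1) ∧ ¬ IsSquare (p : ZMod w2)))

/-- the sum of `1/w` over the primes `w` of the range with `l ∣ w - 1` -/
noncomputable def UL (x l : ℕ) : ℝ := ∑ w ∈ (RR x).filter (fun w => l ∣ w - 1), 1 / (w : ℝ)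

theorem mem_Bl {P p : ℕ} : p ∈ Bl P ↔ (P < p ∧ p ≤ 2 * P) ∧ p.Prime := by
  unfold Bl
  rw [mem_filter, mem_Ioc]

theorem UL_nonneg (x l : ℕ) : 0 ≤ UL x l := sum_nonneg fun _ _ => by positivity

theorem Rg_ne_zero {x w : ℕ} (h : Rg x w) : (0 : ℝ) < w := by exact_mod_cast h.1.pos

end Pool.Agent.Lib.MP_79499b_co.DZ
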