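import Pool.Agent.Lib.MP_79499b_co.DZ.LM
import Pool.Agent.Lib.MP_79499b_co.DZ.LDef
import Pool.Agent.Lib.MP_79499b_co.Q38Transfer

/-!
# DZ LMe: Mertens bounds

PROOFS. `RR_sum_le`: `∑_{w ∈ RR x} 1/w ≤ LL x` from `mert_ap 0 1` with `Q = 1` (`1/20 LL x + 1 ≤ LL x`).
`primes_sum_le`: `Q38.mertens_two` at `2 x + 1`, `log log (2x+1) ≤ LL x + 1`. `JJ_sum`: `Q38.mertens_two`
at `zz x + 1` and at `⌊2 X2^8⌋ + 1`: `log log zz = 9/10 LL + O(1)`, `log log (2 X2^8) = 9/20 LL + O(1)`, so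
the difference is at least `9/20 LL - C ≥ 21/50 LL`; a prime `p` with `2 X2^8 < p ≤ zz` lies in the block of
`i = log2 (p-1)`, with `X2^8 ≤ 2^i ≤ zz`. `UL_le`: `l = 1` trivial; `mert_ap 2 3` with `Q = l`, `b = 1`:
`1/20 LL/(l-1) + (log x)^(-3) ≤ LL/l` for `2 ≤ l ≤ (log x)^2`. `UL_triv`: `w = 1 + k l`,
`∑_{1 ≤ k ≤ X2/l} 1/(k l) ≤ (1 + log X2)/l ≤ log x / l`.
-/

set_option autoImplicit false

namespace Pool.Agent.Lib.MP_79499b_co.DZ

open Finset Filter
open scoped Classical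

theorem LL_le_log {x : ℕ} (h : 0 < Real.log x) : LL x ≤ Real.log x := by
  unfold LL
  have := Real.log_le_sub_one_of_pos h
  linarith

theorem RR_sum_le : ∀ᶠ x : ℕ in atTop, ∑ w ∈ RR x, 1 / (w : ℝ) ≤ LL x := by
  obtain ⟨x₀, h⟩ := mert_ap 0 0
  filter_upwards [eventually_ge_atTop x₀, LL_tend.eventually_ge_atTop 2] with x hx hL
  have h1 := h x hx 1 0 le_rfl (by simp) (by simp)
  have h2 : (RR x).filter (fun w => w ≡ 0 [MOD 1]) = RR x :=
    filter_true_of_mem fun w _ => Nat.modEq_one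
  rw [h2] at h1
  have h3 := (abs_le.1 h1).2
  simp only [Nat.totient_one, Nat.cast_one, div_one, pow_zero, inv_one] at h3
  simp only [one_div] at h3 ⊢
  linarith

theorem primes_sum_le : ∀ᶠ x : ℕ in atTop,
    ∑ p ∈ (Icc 1 (2 * x)).filter Nat.Prime, 1 / (p : ℝ) ≤ 2 * LL x := by
  obtain ⟨C, hC, h⟩ := Q38.mertens_two
  filter_upwards [eventually_ge_atTop 3, LL_tend.eventually_ge_atTop (C + 1),
    log_tend.eventually_ge_atTop 3] with x hx hL hlog
  have h1 := (abs_le.1 (h (2 * x + 1) (by omega))).2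
  have h2 : Q38.fsum (fun _ => 1) (2 * x + 1) = ∑ p ∈ (Icc 1 (2 * x)).filter Nat.Prime, 1 / (p : ℝ) := by
    unfold Q38.fsum
    refine sum_congr ?_ fun _ _ => rfl
    ext p
    simp only [mem_filter, mem_range, mem_Icc]
    constructor
    · rintro ⟨h3, h4⟩
      exact ⟨⟨h4.one_lt.le, by omega⟩, h4⟩
    · rintro ⟨h3, h4⟩
      exact ⟨by omega, h4⟩
  rw [h2] at h1
  have hx0 : (3 : ℝ) ≤ x := by exact_mod_cast hx
  have h3 : Real.log ((2 * x + 1 : ℕ) : ℝ) ≤ Real.log x + Real.log x := by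
    rw [← Real.log_mul (by linarith) (by linarith)]
    refine Real.log_le_log (by positivity) ?_
    push_cast
    nlinarith
  have h4 : Real.log (Real.log ((2 * x + 1 : ℕ) : ℝ)) ≤ LL x + 1 := by
    unfold LL
    have h5 : (1 : ℝ) = Real.log (Real.exp 1) := by rw [Real.log_exp]
    rw [h5, ← Real.log_mul (by linarith) (Real.exp_pos 1).ne']
    refine Real.log_le_log ?_ ?_
    · refine Real.log_pos ?_
      push_cast
      linarith
    · have := Real.add_one_le_exp (1 : ℝ)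
      nlinarith
  linarith

theorem JJ_sum : ∀ᶠ x : ℕ in atTop, 21 / 50 * LL x ≤ ∑ i ∈ JJ x, ∑ p ∈ Bl (2 ^ i), 1 / (p : ℝ) := by
  obtain ⟨C, hC, h⟩ := Q38.mertens_two
  filter_upwards [LL_tend.eventually_ge_atTop (100 * (C + 3)), log_tend.eventually_ge_atTop 8,
    X1_le_X2, X1_pow 0 8, LL_tend.eventually_ge_atTop 1] with x hL hlog hX12 hX1 hL1
  have hlx : 0 < Real.log (x : ℝ) := by linarith
  set A := ⌊2 * X2 x ^ 8⌋₊ with hA
  have hX2 : 8 ≤ X2 x := by simp at hX1; linarith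
  have hX2p : (0 : ℝ) < X2 x ^ 8 := by positivity
  have hX28 : (8 : ℝ) ≤ X2 x ^ 8 := by
    calc (8 : ℝ) ≤ X2 x := hX2
      _ = X2 x ^ 1 := (pow_one _).symm
      _ ≤ X2 x ^ 8 := pow_le_pow_right₀ (by linarith) (by norm_num)
  have hA3 : 3 ≤ A := Nat.le_floor (by push_cast; linarith)
  have hAle : (A : ℝ) ≤ 2 * X2 x ^ 8 := Nat.floor_le (by positivity)
  -- log log A
  have hlogX2 : Real.log (X2 x) = Real.log x ^ (9 / 20 : ℝ) := by unfold X2; rw [Real.log_exp]
  have hp : (1 : ℝ) ≤ Real.log x ^ (9 / 20 : ℝ) := Real.one_le_rpow (by linarith) (by norm_num)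
  have hA1 : Real.log (Real.log ((A + 1 : ℕ) : ℝ)) ≤ 9 / 20 * LL x + 3 := by
    have h1 : Real.log ((A + 1 : ℕ) : ℝ) ≤ 9 * Real.log x ^ (9 / 20 : ℝ) := by
      rw [← hlogX2]
      have h2 : (9 : ℝ) * Real.log (X2 x) = Real.log (X2 x ^ 9) := by
        rw [Real.log_pow]; norm_num
      rw [h2]
      refine Real.log_le_log (by positivity) ?_
      push_cast
      have : X2 x ^ 9 = X2 x ^ 8 * X2 x := pow_succ _ _
      nlinarith
    have h3 : (0 : ℝ) < Real.log ((A + 1 : ℕ) : ℝ) := by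
      refine Real.log_pos ?_
      push_cast
      have : (3 : ℝ) ≤ A := by exact_mod_cast hA3
      linarith
    refine (Real.log_le_log h3 h1).trans ?_
    rw [Real.log_mul (by norm_num) (by positivity), Real.log_rpow hlx]
    have h4 : Real.log 9 ≤ 3 := by
      rw [Real.log_le_iff_le_exp (by norm_num)]
      have := Real.exp_one_gt_d9
      calc (9 : ℝ) ≤ 2.7 ^ 3 := by norm_num
        _ ≤ Real.exp 1 ^ 3 := pow_le_pow_left₀ (by norm_num) (by linarith) 3
        _ = Real.exp 3 := by rw [← Real.exp_nat_mul]; norm_num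
    unfold LL
    linarith
  -- log log zz
  have hzz0 : Real.exp (Real.log x ^ (9 / 10 : ℝ)) ≤ (zz x : ℝ) + 1 := by
    unfold zz
    exact (Nat.lt_floor_add_one _).le
  have hzz1 : 9 / 10 * LL x ≤ Real.log (Real.log ((zz x + 1 : ℕ) : ℝ)) := by
    have h1 : Real.log x ^ (9 / 10 : ℝ) ≤ Real.log ((zz x + 1 : ℕ) : ℝ) := by
      rw [Real.le_log_iff_exp_le (by positivity)]
      push_cast
      exact hzz0
    have h2 := Real.log_le_log (by positivity) h1
    rw [Real.log_rpow hlx] at h2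
    exact h2
  have hzzA : A ≤ zz x := by
    by_contra hc
    push Not at hc
    have h1 : ((zz x + 1 : ℕ) : ℝ) ≤ ((A + 1 : ℕ) : ℝ) := by exact_mod_cast (by omega : zz x + 1 ≤ A + 1)
    have h3 : (1 : ℝ) < Real.exp (Real.log x ^ (9 / 10 : ℝ)) := by
      rw [← Real.exp_zero]
      exact Real.exp_lt_exp.2 (by positivity)
    have h2 := Real.log_le_log (Real.log_pos (by push_cast; linarith)) (Real.log_le_log (by positivity) h1)
    linarith
  have h5 := (abs_le.1 (h (A + 1) (by omega))).2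
  have h6 := (abs_le.1 (h (zz x + 1) (by omega))).1
  -- difference of the sums
  have h7 : Q38.fsum (fun _ => 1) (zz x + 1) - Q38.fsum (fun _ => 1) (A + 1) =
      ∑ p ∈ (Ioc A (zz x)).filter Nat.Prime, 1 / (p : ℝ) := by
    unfold Q38.fsum
    have h8 : (range (zz x + 1)).filter Nat.Prime = (range (A + 1)).filter Nat.Prime ∪
        (Ioc A (zz x)).filter Nat.Prime := by
      ext p
      simp only [mem_filter, mem_range, mem_union, mem_Ioc]
      constructor
      · rintro ⟨h9, h10⟩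
        by_cases hp : p < A + 1
        · exact Or.inl ⟨hp, h10⟩
        · exact Or.inr ⟨⟨by omega, by omega⟩, h10⟩
      · rintro (⟨h9, h10⟩ | ⟨h9, h10⟩)
        · exact ⟨by omega, h10⟩
        · exact ⟨by omega, h10⟩
    rw [h8, sum_union]
    · ring
    · rw [Finset.disjoint_left]
      intro p hp hq
      simp only [mem_filter, mem_range, mem_Ioc] at hp hq
      omega
  have h8 : ∑ p ∈ (Ioc A (zz x)).filter Nat.Prime, 1 / (p : ℝ) ≤
      ∑ i ∈ JJ x, ∑ p ∈ Bl (2 ^ i), 1 / (p : ℝ) := by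
    rw [← sum_biUnion]
    · refine sum_le_sum_of_subset_of_nonneg ?_ fun _ _ _ => by positivity
      intro p hp
      rw [mem_filter, mem_Ioc] at hp
      obtain ⟨⟨hp1, hp2⟩, hp3⟩ := hp
      have h2' := hp3.two_le
      have h3 := Nat.pow_log_le_self 2 (show p - 1 ≠ 0 by omega)
      have h4 := Nat.lt_pow_succ_log_self (b := 2) (by norm_num) (p - 1)
      rw [mem_biUnion]
      refine ⟨Nat.log 2 (p - 1), ?_, ?_⟩
      · unfold JJ
        rw [mem_filter, mem_range]
        constructor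
        · exact Nat.lt_succ_of_le (Nat.log_mono_right (by omega))
        · have h9 : 2 * X2 x ^ 8 < p := (Nat.floor_lt (by positivity)).1 hp1
          have h10 : p ≤ 2 ^ (Nat.log 2 (p - 1) + 1) := by omega
          have h11 : (p : ℝ) ≤ 2 ^ (Nat.log 2 (p - 1) + 1) := by exact_mod_cast h10
          rw [pow_succ] at h11
          linarith
      · rw [mem_Bl]
        rw [pow_succ] at h4
        exact ⟨⟨by omega, by omega⟩, hp3⟩
    · intro i _ j _ hij
      rw [Function.onFun, Finset.disjoint_left]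
      intro p hp hq
      rw [mem_Bl] at hp hq
      apply hij
      by_contra hne
      rcases lt_or_gt_of_ne hne with h | h
      · have : 2 * 2 ^ i ≤ 2 ^ j := by
          rw [← pow_succ']
          exact Nat.pow_le_pow_right (by norm_num) h
        omega
      · have : 2 * 2 ^ j ≤ 2 ^ i := by
          rw [← pow_succ']
          exact Nat.pow_le_pow_right (by norm_num) h
        omega
  linarith

theorem UL_le4 : ∀ᶠ x : ℕ in atTop, ∀ l : ℕ, 2 ≤ l → (l : ℝ) ≤ Real.log x ^ 4 →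
    l.Prime → UL x l ≤ LL x / l := by
  obtain ⟨x₀, h⟩ := mert_ap 4 5
  filter_upwards [eventually_ge_atTop x₀, LL_tend.eventually_ge_atTop 2,
    log_tend.eventually_ge_atTop 2] with x hx hL hlog
  intro l hl2 hl4 hl
  have hl0 : (2 : ℝ) ≤ l := by exact_mod_cast hl2
  have h1 := (abs_le.1 (h x hx l 1 (by omega) hl4 (by simp))).2
  have h2 : UL x l ≤ ∑ w ∈ (RR x).filter (fun w => w ≡ 1 [MOD l]), 1 / (w : ℝ) := by
    unfold UL
    refine le_of_eq (sum_congr ?_ fun _ _ => rfl)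
    ext w
    simp only [mem_filter]
    constructor
    · rintro ⟨h3, h4⟩
      refine ⟨h3, ?_⟩
      exact ((Nat.modEq_iff_dvd' (mem_RR.1 h3).1.one_lt.le).2 h4).symm
    · rintro ⟨h3, h4⟩
      exact ⟨h3, (Nat.modEq_iff_dvd' (mem_RR.1 h3).1.one_lt.le).1 h4.symm⟩
  refine h2.trans ?_
  rw [Nat.totient_prime hl, Nat.cast_sub (by omega)] at h1
  push_cast at h1
  have h5 : 1 / 20 * LL x / ((l : ℝ) - 1) ≤ 1 / 10 * LL x / l := by
    rw [div_le_div_iff₀ (by linarith) (by linarith)]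
    nlinarith
  have h6 : (Real.log x ^ 5)⁻¹ ≤ 1 / 2 * LL x / l := by
    rw [inv_eq_one_div, div_le_div_iff₀ (by positivity) (by linarith)]
    have h7 : (1 : ℝ) ≤ Real.log x ^ 4 := one_le_pow₀ (by linarith)
    have h8 : Real.log x ^ 4 ≤ Real.log x ^ 5 := pow_le_pow_right₀ (by linarith) (by norm_num)
    have h10 : (0 : ℝ) < Real.log x ^ 5 := by positivity
    have h11 : 1 * Real.log x ^ 5 ≤ 1 / 2 * LL x * Real.log x ^ 5 :=
      mul_le_mul_of_nonneg_right (by linarith) h10.le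
    linarith
  have h9 : 1 / 10 * LL x / l + 1 / 2 * LL x / l ≤ LL x / l := by
    rw [← add_div]
    exact div_le_div_of_nonneg_right (by linarith) (by linarith)
  linarith

theorem UL_le : ∀ᶠ x : ℕ in atTop, ∀ l : ℕ, l.Prime → (l : ℝ) ≤ Real.log x ^ 2 → UL x l ≤ LL x / l := by
  filter_upwards [UL_le4, log_tend.eventually_ge_atTop 1] with x h hlog
  intro l hl h2
  exact h l hl.two_le (h2.trans (pow_le_pow_right₀ hlog (by norm_num))) hl

theorem harm_le (N : ℕ) : ∑ k ∈ Icc 1 N, 1 / (k : ℝ) ≤ 1 + Real.log N := by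
  have h := harmonic_le_one_add_log N
  rw [harmonic_eq_sum_Icc] at h
  push_cast at h
  simpa [one_div] using h

theorem UL_triv : ∀ᶠ x : ℕ in atTop, ∀ l : ℕ, 1 ≤ l → UL x l ≤ Real.log x / l := by
  have h0 : Tendsto (fun x : ℕ => Real.log (x : ℝ) ^ (1 / 20 : ℝ)) atTop atTop :=
    (tendsto_rpow_atTop (by norm_num)).comp log_tend
  filter_upwards [X1_pow 0 8, X1_le_X2, h0.eventually_ge_atTop 2, log_tend.eventually_ge_atTop 4]
    with x hX1 hX12 hpow hlog
  intro l hl
  have hl0 : (0 : ℝ) < l := by exact_mod_cast hl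
  have hX2 : 8 ≤ X2 x := by simp at hX1; linarith
  have hf : 1 ≤ ⌊X2 x⌋₊ := Nat.le_floor (by push_cast; linarith)
  have h1 : UL x l ≤ ∑ k ∈ Icc 1 ⌊X2 x⌋₊, 1 / (l : ℝ) * (1 / (k : ℝ)) := by
    unfold UL
    have h2 : ∀ w ∈ (RR x).filter (fun w => l ∣ w - 1), 1 / (w : ℝ) ≤
        1 / (l : ℝ) * (1 / (((w - 1) / l : ℕ) : ℝ)) := by
      intro w hw
      rw [mem_filter, mem_RR] at hw
      obtain ⟨k, hk⟩ := hw.2
      have hw1 := hw.1.1.one_lt
      rw [hk, Nat.mul_div_cancel_left k (by omega), one_div_mul_one_div]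
      have hk0 : 0 < k := Nat.pos_of_ne_zero (by rintro rfl; omega)
      refine one_div_le_one_div_of_le (by positivity) ?_
      have : l * k ≤ w := by omega
      exact_mod_cast this
    refine (sum_le_sum h2).trans ?_
    rw [← sum_image (f := fun k : ℕ => 1 / (l : ℝ) * (1 / (k : ℝ)))
      (g := fun w : ℕ => (w - 1) / l)]
    · refine sum_le_sum_of_subset_of_nonneg ?_ fun _ _ _ => by positivity
      intro k hk
      rw [mem_image] at hk
      obtain ⟨w, hw, rfl⟩ := hk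
      rw [mem_filter, mem_RR] at hw
      have hw1 := hw.1.1.one_lt
      rw [mem_Icc]
      constructor
      · exact Nat.div_pos (Nat.le_of_dvd (by omega) hw.2) hl
      · refine (Nat.div_le_self _ _).trans ?_
        have : w ≤ ⌊X2 x⌋₊ := Nat.le_floor hw.1.2.2
        omega
    · intro a ha b hb hab
      rw [mem_coe, mem_filter, mem_RR] at ha hb
      obtain ⟨u, hu⟩ := ha.2
      obtain ⟨v, hv⟩ := hb.2
      simp only [hu, hv, Nat.mul_div_cancel_left _ (show 0 < l by omega)] at hab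
      have ha1 := ha.1.1.one_lt
      have hb1 := hb.1.1.one_lt
      subst hab
      omega
  refine h1.trans ?_
  rw [← mul_sum]
  have h3 := harm_le ⌊X2 x⌋₊
  have h4 : Real.log (⌊X2 x⌋₊ : ℝ) ≤ Real.log x ^ (9 / 20 : ℝ) := by
    have h5 : Real.log (X2 x) = Real.log x ^ (9 / 20 : ℝ) := by unfold X2; rw [Real.log_exp]
    rw [← h5]
    exact Real.log_le_log (by exact_mod_cast hf) (Nat.floor_le (by linarith))
  have h6 : Real.log x ^ (9 / 20 : ℝ) ≤ Real.log x / 2 := by
    have h7 : Real.log (x : ℝ) = Real.log x ^ (11 / 20 : ℝ) * Real.log x ^ (9 / 20 : ℝ) := by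
      rw [← Real.rpow_add (by linarith)]
      norm_num
    have h8 : Real.log x ^ (1 / 20 : ℝ) ≤ Real.log x ^ (11 / 20 : ℝ) :=
      Real.rpow_le_rpow_of_exponent_le (by linarith) (by norm_num)
    have h9 : (0 : ℝ) < Real.log x ^ (9 / 20 : ℝ) := Real.rpow_pos_of_pos (by linarith) _
    nlinarith
  calc 1 / (l : ℝ) * ∑ k ∈ Icc 1 ⌊X2 x⌋₊, 1 / (k : ℝ) ≤ 1 / (l : ℝ) * Real.log x :=
        mul_le_mul_of_nonneg_left (by linarith) (by positivity)
    _ = _ := by ring

end Pool.Agent.Lib.MP_79499b_co.DZ
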