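import Pool.Agent.Lib.MP_79499b_co.DZ.LC
import Pool.Agent.Lib.MP_79499b_co.DZ.LSz
import Pool.Agent.Lib.MP_79499b_co.DZ.LMe
import Pool.Agent.Lib.MP_79499b_co.Q38Brun

/-!
# DZ LR: the sieve in a residue class

PROOF. For a class `ρ` mod `W = w1 w2` write `n = ρ + W n'`, `n' < x/W + 1`, and apply `Q38.brun` with `M = 1`,
`U = UU x w1 w2`, `q u = u`, `P u n' ↔ u ∣ ρ + W n'` (exactly one class, `u > X2^8` is coprime to `W`), `G = ∑_U 1/u`,
`LL/10 ≤ G ≤ 2 LL` (`primes_sum_le`, `U ⊆ [1, 2 zz] ⊆ [1, 2x]`), `D = 2 zz`, `r` even, `20 LL ≤ r ≤ 20 LL + 2`: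
`(x/W + 1)(e^(-G) + e^(8G)/8^(r+1)) + 3 (2 zz)^r ≤ 5 (x/W) e^(-LL/10)`, because `e^(16 LL) 8^(-20 LL) ≤ e^(-LL)`,
`3 (2 zz)^r ≤ x^(1/2)` and `W ≤ X2^2 ≤ x^(1/4)`, `e^(LL/10) ≤ x^(1/4)`. At most `m^2` classes (`card_root2`).
-/

set_option autoImplicit false

namespace Pool.Agent.Lib.MP_79499b_co.DZ

open Finset Filter
open scoped Classical

theorem one_class {W u ρ : ℕ} (hu : u.Prime) (hW : W.Coprime u) :
    ((range u).filter (fun n => u ∣ ρ + W * n)).card = 1 := by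
  have : NeZero u := ⟨hu.ne_zero⟩
  rw [card_eq_one]
  refine ⟨(-(ρ : ZMod u) * (W : ZMod u)⁻¹).val, ?_⟩
  ext a
  rw [mem_filter, mem_range, mem_singleton]
  have hinv : (W : ZMod u) * (W : ZMod u)⁻¹ = 1 := ZMod.coe_mul_inv_eq_one W hW
  constructor
  · rintro ⟨ha, hd⟩
    have h1 : ((ρ + W * a : ℕ) : ZMod u) = 0 := (ZMod.natCast_eq_zero_iff _ _).2 hd
    push_cast at h1
    have h2 : (a : ZMod u) = -(ρ : ZMod u) * (W : ZMod u)⁻¹ := by
      calc (a : ZMod u) = (W * (W : ZMod u)⁻¹) * a := by rw [hinv, one_mul]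
        _ = (W * a) * (W : ZMod u)⁻¹ := by ring
        _ = -(ρ : ZMod u) * (W : ZMod u)⁻¹ := by
            have : (W : ZMod u) * a = -(ρ : ZMod u) := by linear_combination h1
            rw [this]
    rw [← h2, ZMod.val_natCast, Nat.mod_eq_of_lt ha]
  · rintro rfl
    refine ⟨ZMod.val_lt _, ?_⟩
    rw [← ZMod.natCast_eq_zero_iff]
    push_cast
    rw [ZMod.natCast_zmod_val]
    linear_combination (-(ρ : ZMod u)) * hinv

/-- Brun's sieve for `ρ + W n` -/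
theorem brun_cnt {W ρ : ℕ} (U : Finset ℕ) (hU : ∀ u ∈ U, u.Prime) (hcop : ∀ u ∈ U, W.Coprime u)
    {r : ℕ} (hr : Even r) (y : ℕ) {D : ℝ} (hD1 : 1 ≤ D) (hD : (U.card : ℝ) ≤ D) :
    cnt y (fun n => ∀ u ∈ U, ¬ u ∣ ρ + W * n) ≤
      y * (Real.exp (-∑ u ∈ U, 1 / (u : ℝ)) + Real.exp (8 * ∑ u ∈ U, 1 / (u : ℝ)) / 8 ^ (r + 1)) +
        3 * D ^ r := by
  have hc1 : ∀ u ∈ U, ((@Finset.filter ℕ (fun n => u ∣ ρ + W * n)
      (fun a => Classical.propDecidable _) (range u)).card : ℝ) = 1 := by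
    intro u hu
    have h := one_class (W := W) (ρ := ρ) (hU u hu) (hcop u hu)
    have h2 : (@Finset.filter ℕ (fun n => u ∣ ρ + W * n)
      (fun a => Classical.propDecidable _) (range u)).card = 1 := by
      convert h
    rw [h2, Nat.cast_one]
  have hb := Q38.brun (M := 1) one_pos (P := fun u n => u ∣ ρ + W * n) (q := fun u => u) U
    (fun u hu => (hU u hu).pos) (fun u _ => by simp)
    (fun u hu v hv huv => (Nat.coprime_primes (hU u hu) (hU v hv)).2 huv)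
    (fun u _ n => by
      have : (ρ + W * (n % u)) ≡ (ρ + W * n) [MOD u] :=
        (Nat.ModEq.refl ρ).add ((Nat.ModEq.refl W).mul (Nat.mod_modEq n u))
      exact this.dvd_iff dvd_rfl) hr y (G := ∑ u ∈ U, 1 / (u : ℝ)) (D := D)
    (sum_congr rfl fun u hu => by rw [hc1 u hu]) hD1
    (by
      rw [sum_congr rfl hc1, sum_const, nsmul_eq_mul, mul_one]
      exact hD)
  rw [Nat.cast_one, div_one] at hb
  refine le_trans (le_of_eq ?_) hb
  unfold EO.cnt
  congr 2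
  ext n
  simp

theorem cnt_inj {x y : ℕ} {P Q : ℕ → Prop} (f : ℕ → ℕ) (h1 : ∀ n, n < x → P n → f n < y ∧ Q (f n))
    (h2 : ∀ a b, a < x → b < x → P a → P b → f a = f b → a = b) : cnt x P ≤ cnt y Q := by
  unfold EO.cnt
  refine Nat.cast_le.mpr (card_le_card_of_injOn f ?_ ?_)
  · intro n hn
    have hn' := mem_filter.1 (mem_coe.1 hn)
    obtain ⟨h3, h4⟩ := h1 n (mem_range.1 hn'.1) hn'.2
    exact mem_coe.2 (mem_filter.2 ⟨mem_range.2 h3, h4⟩)
  · intro a ha b hb hab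
    have ha' := mem_filter.1 (mem_coe.1 ha)
    have hb' := mem_filter.1 (mem_coe.1 hb)
    exact h2 a b (mem_range.1 ha'.1) (mem_range.1 hb'.1) ha'.2 hb'.2 hab

theorem cnt_class {W : ℕ} (_hW : 0 < W) (x ρ : ℕ) (U : Finset ℕ) :
    cnt x (fun n => n % W = ρ ∧ ∀ p ∈ U, ¬ p ∣ n) ≤
      cnt (x / W + 1) (fun n => ∀ u ∈ U, ¬ u ∣ ρ + W * n) := by
  refine cnt_inj (fun n => n / W) ?_ ?_
  · intro n hn hn'
    refine ⟨Nat.lt_succ_of_le (Nat.div_le_div_right hn.le), ?_⟩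
    intro u hu
    have h2 : ρ + W * (n / W) = n := by
      rw [← hn'.1]
      exact Nat.mod_add_div n W
    rw [h2]
    exact hn'.2 u hu
  · intro a b _ _ ha hb hab
    rw [← Nat.mod_add_div a W, ← Nat.mod_add_div b W, ha.1, hb.1, hab]

/-- the primes of `UU` -/
theorem mem_UU {x w1 w2 p : ℕ} (h : p ∈ UU x w1 w2) : p.Prime ∧ X2 x ^ 8 < p ∧
    ¬ IsSquare (p : ZMod w1) ∧ ¬ IsSquare (p : ZMod w2) ∧ p ≤ 2 * zz x := by
  unfold UU at h
  rw [mem_biUnion] at h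
  obtain ⟨i, hi, hp⟩ := h
  rw [mem_filter, mem_Bl] at hp
  unfold JJ at hi
  rw [mem_filter, mem_range] at hi
  have hzz : zz x ≠ 0 := by
    unfold zz
    have : 1 ≤ ⌊Real.exp (Real.log x ^ (9 / 10 : ℝ))⌋₊ := by
      refine Nat.le_floor ?_
      rw [Nat.cast_one]
      refine Real.one_le_exp ?_
      exact Real.rpow_nonneg (Real.log_natCast_nonneg x) _
    omega
  refine ⟨hp.1.2, ?_, hp.2.1, hp.2.2, ?_⟩
  · have h1 : ((2 ^ i : ℕ) : ℝ) < p := by exact_mod_cast hp.1.1.1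
    push_cast at h1
    linarith [hi.2]
  · have h2 : 2 ^ i ≤ zz x := (Nat.pow_le_pow_right (by norm_num) (by omega)).trans
      (Nat.pow_log_le_self 2 hzz)
    omega

theorem zz_le : ∀ᶠ x : ℕ in atTop, zz x ≤ x ∧
    ∀ r : ℝ, 0 ≤ r → r ≤ 20 * LL x + 2 → 3 * Real.exp (r * (1 + Real.log x ^ (9 / 10 : ℝ))) ≤
      (x : ℝ) ^ (1 / 2 : ℝ) := by
  filter_upwards [rpow_small (a := 9 / 10) (b := 1) (by norm_num) (show (0 : ℝ) < 1 by norm_num),
    rpow_small (a := 19 / 20) (b := 1) (by norm_num) (show (0 : ℝ) < 1 / 400 by norm_num),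
    LL_small 20 one_pos, LL_tend.eventually_ge_atTop 2, log_tend.eventually_ge_atTop 100,
    eventually_gt_atTop 0] with x h1 h2 h3 h4 h5 h0
  have hx0 : (0 : ℝ) < x := by exact_mod_cast h0
  set L := Real.log (x : ℝ) with hL
  rw [Real.rpow_one] at h1 h2
  constructor
  · unfold zz
    refine Nat.floor_le_of_le ?_
    calc Real.exp (L ^ (9 / 10 : ℝ)) ≤ Real.exp L := Real.exp_le_exp.2 (by linarith)
      _ = x := Real.exp_log hx0
  · intro r hr0 hr
    rw [Real.rpow_def_of_pos hx0]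
    have h6 : (3 : ℝ) ≤ Real.exp 2 := by
      have := Real.add_one_le_exp (2 : ℝ)
      linarith
    have h7 : LL x ≤ L ^ (1 / 20 : ℝ) := by
      have h8 := Real.rpow_le_rpow (by positivity) h3 (show (0 : ℝ) ≤ 1 / 20 by norm_num)
      rwa [← Real.rpow_natCast, ← Real.rpow_mul (by linarith),
        show ((20 : ℕ) : ℝ) * (1 / 20) = 1 by norm_num, Real.rpow_one, one_mul] at h8
    have h9 : (1 : ℝ) ≤ L ^ (9 / 10 : ℝ) := Real.one_le_rpow (by linarith) (by norm_num)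
    have h10 : r * (1 + L ^ (9 / 10 : ℝ)) ≤ 44 * L ^ (19 / 20 : ℝ) := by
      have h11 : r ≤ 22 * L ^ (1 / 20 : ℝ) := by linarith
      calc r * (1 + L ^ (9 / 10 : ℝ)) ≤ (22 * L ^ (1 / 20 : ℝ)) * (2 * L ^ (9 / 10 : ℝ)) := by
            apply mul_le_mul h11 (by linarith) (by positivity)
            have : (0 : ℝ) ≤ L ^ (1 / 20 : ℝ) := Real.rpow_nonneg (by linarith) _
            linarith
        _ = 44 * (L ^ (1 / 20 : ℝ) * L ^ (9 / 10 : ℝ)) := by ring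
        _ = 44 * L ^ (19 / 20 : ℝ) := by
            rw [← Real.rpow_add (by linarith)]
            norm_num
    calc 3 * Real.exp (r * (1 + L ^ (9 / 10 : ℝ))) ≤
        Real.exp 2 * Real.exp (r * (1 + L ^ (9 / 10 : ℝ))) :=
          mul_le_mul_of_nonneg_right h6 (Real.exp_pos _).le
      _ = Real.exp (2 + r * (1 + L ^ (9 / 10 : ℝ))) := (Real.exp_add _ _).symm
      _ ≤ Real.exp (L * (1 / 2)) := by
          apply Real.exp_le_exp.2
          linarith

theorem sieve_pair (m : ℕ) (hm : 1 ≤ m) : ∀ᶠ x : ℕ in atTop, ∀ w1 w2 : ℕ, Rg x w1 → Rg x w2 →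
    w1 ≠ w2 → LL x / 10 ≤ ∑ p ∈ UU x w1 w2, 1 / (p : ℝ) →
    cnt x (fun n => (n : ZMod w1) ^ m = 1 ∧ (n : ZMod w2) ^ m = 1 ∧ ∀ p ∈ UU x w1 w2, ¬ p ∣ n) ≤
      5 * m ^ 2 * (x / (w1 * w2)) * Real.exp (-(LL x / 10)) := by
  filter_upwards [zz_le, X2_small 2 (show (0 : ℝ) < 1 / 4 by norm_num), primes_sum_le,
    LL_tend.eventually_ge_atTop 1, log_tend.eventually_ge_atTop 100, eventually_gt_atTop 1,
    X1_pow 0 8, X1_le_X2] with x hzz hX2 hps hLL hlog hx1 hX1 hX12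
  intro w1 w2 hw1 hw2 hne hG
  have hX18 : 8 ≤ X1 x := by simpa using hX1
  have hx0 : (0 : ℝ) < x := by exact_mod_cast (by omega : 0 < x)
  have hw10 := Rg_ne_zero hw1
  have hw20 := Rg_ne_zero hw2
  set W := w1 * w2 with hW
  have hWpos : 0 < W := Nat.mul_pos hw1.1.pos hw2.1.pos
  have hW0 : (0 : ℝ) < W := by exact_mod_cast hWpos
  have hWX : (W : ℝ) ≤ (x : ℝ) ^ (1 / 4 : ℝ) := by
    refine le_trans ?_ hX2
    rw [hW, sq]
    push_cast
    exact mul_le_mul hw1.2.2 hw2.2.2 hw20.le (Real.exp_pos _).le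
  have hxq : (x : ℝ) ^ (1 / 4 : ℝ) ≤ x := by
    conv_rhs => rw [← Real.rpow_one (x : ℝ)]
    exact Real.rpow_le_rpow_of_exponent_le (by exact_mod_cast hx1.le) (by norm_num)
  -- the classes
  set R := (range W).filter (fun n : ℕ => (n : ZMod w1) ^ m = 1 ∧ (n : ZMod w2) ^ m = 1) with hR
  have hRcard : (R.card : ℝ) ≤ m ^ 2 := by
    have h := card_root2 hm hw1.1 hw2.1 hne
    have h' : R.card ≤ m ^ 2 := h
    exact (Nat.cast_le.mpr h').trans (by push_cast; exact le_rfl)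
  set U := UU x w1 w2 with hU
  set G := ∑ p ∈ U, 1 / (p : ℝ) with hGdef
  have hG2 : G ≤ 2 * LL x := by
    refine le_trans (sum_le_sum_of_subset_of_nonneg ?_ fun _ _ _ => by positivity) hps
    intro p hp
    obtain ⟨h1, _, _, _, h5⟩ := mem_UU hp
    rw [mem_filter, mem_Icc]
    exact ⟨⟨h1.one_lt.le, h5.trans (by omega)⟩, h1⟩
  obtain ⟨r0, hr0, hr1, hr2⟩ : ∃ r : ℕ, Even r ∧ 20 * LL x ≤ r ∧ (r : ℝ) ≤ 20 * LL x + 2 := by
    refine ⟨2 * ⌈10 * LL x⌉₊, even_two_mul _, ?_, ?_⟩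
    · push_cast
      have := Nat.le_ceil (10 * LL x)
      linarith
    · push_cast
      have := (Nat.ceil_lt_add_one (show 0 ≤ 10 * LL x by linarith)).le
      linarith
  have hcop : ∀ u ∈ U, W.Coprime u := by
    intro u hu
    obtain ⟨h1, h2, _, _, _⟩ := mem_UU hu
    have h3 : ∀ w : ℕ, Rg x w → w.Coprime u := by
      intro w hw
      rw [Nat.coprime_primes hw.1 h1]
      rintro rfl
      have h4 : X2 x ≤ X2 x ^ 8 := by
        calc X2 x = X2 x ^ 1 := (pow_one _).symm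
          _ ≤ X2 x ^ 8 := pow_le_pow_right₀ (by linarith) (by norm_num)
      linarith [hw.2.2]
    exact Nat.Coprime.mul_left (h3 w1 hw1) (h3 w2 hw2)
  -- one class
  have hone : ∀ ρ ∈ R, cnt x (fun n => n % W = ρ ∧ ∀ p ∈ U, ¬ p ∣ n) ≤
      5 * (x / W) * Real.exp (-(LL x / 10)) := by
    intro ρ hρ
    have h2 : (U.card : ℝ) ≤ 2 * (zz x : ℝ) + 1 := by
      have h3 : U ⊆ range (2 * zz x + 1) := by
        intro p hp
        rw [mem_range]
        have := (mem_UU hp).2.2.2.2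
        omega
      have h4 := card_le_card h3
      rw [card_range] at h4
      have h5 : ((U.card : ℕ) : ℝ) ≤ ((2 * zz x + 1 : ℕ) : ℝ) := by exact_mod_cast h4
      push_cast at h5
      exact h5
    have hb := brun_cnt (W := W) (ρ := ρ) U (fun u hu => (mem_UU hu).1) hcop hr0 (x / W + 1)
      (D := 2 * (zz x : ℝ) + 1) (by
        have : (0 : ℝ) ≤ zz x := Nat.cast_nonneg _
        linarith) h2
    rw [← hGdef] at hb
    have h1 : cnt x (fun n => n % W = ρ ∧ ∀ p ∈ U, ¬ p ∣ n) ≤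
        cnt (x / W + 1) (fun n => ∀ u ∈ U, ¬ u ∣ ρ + W * n) := cnt_class hWpos x ρ U
    refine h1.trans (hb.trans ?_)
    -- numerics
    have hxW : ((x / W + 1 : ℕ) : ℝ) ≤ 2 * (x / W) := by
      push_cast
      have h2 := @Nat.cast_div_le ℝ _ _ _ x W
      have h3 : (1 : ℝ) ≤ x / W := by
        rw [le_div_iff₀ hW0]
        linarith
      linarith
    have hE1 : Real.exp (-G) ≤ Real.exp (-(LL x / 10)) := Real.exp_le_exp.2 (by linarith)
    have hE2 : Real.exp (8 * G) / 8 ^ (r0 + 1) ≤ Real.exp (-(LL x / 10)) := by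
      have h2 : Real.exp (20 * LL x) ≤ 8 ^ (r0 + 1) := by
        calc Real.exp (20 * LL x) ≤ Real.exp (r0 + 1 : ℕ) := Real.exp_le_exp.2 (by push_cast; linarith)
          _ = Real.exp 1 ^ (r0 + 1) := by rw [← Real.exp_nat_mul, mul_one]
          _ ≤ 8 ^ (r0 + 1) := pow_le_pow_left₀ (Real.exp_pos _).le
              (by linarith [Real.exp_one_lt_d9]) _
      rw [div_le_iff₀ (by positivity)]
      calc Real.exp (8 * G) ≤ Real.exp (-(LL x / 10) + 20 * LL x) := Real.exp_le_exp.2 (by linarith)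
        _ = Real.exp (-(LL x / 10)) * Real.exp (20 * LL x) := Real.exp_add _ _
        _ ≤ _ := mul_le_mul_of_nonneg_left h2 (Real.exp_pos _).le
    have hE3 : 3 * (2 * (zz x : ℝ) + 1) ^ r0 ≤ (x : ℝ) ^ (1 / 2 : ℝ) := by
      refine le_trans ?_ (hzz.2 r0 (Nat.cast_nonneg _) hr2)
      refine mul_le_mul_of_nonneg_left ?_ (by norm_num)
      have h2 : 2 * (zz x : ℝ) + 1 ≤ Real.exp (1 + 1 * Real.log x ^ (9 / 10 : ℝ)) := by
        rw [one_mul, Real.exp_add]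
        have h3 : (zz x : ℝ) ≤ Real.exp (Real.log x ^ (9 / 10 : ℝ)) := Nat.floor_le (Real.exp_pos _).le
        have h4 := Real.exp_one_gt_d9
        have h5 : (2 : ℝ) ≤ Real.exp (Real.log x ^ (9 / 10 : ℝ)) := by
          have h6 : (1 : ℝ) ≤ Real.log x ^ (9 / 10 : ℝ) := Real.one_le_rpow (by linarith) (by norm_num)
          have h7 := Real.add_one_le_exp (Real.log x ^ (9 / 10 : ℝ))
          linarith
        nlinarith
      calc (2 * (zz x : ℝ) + 1) ^ r0 ≤ (Real.exp (1 + 1 * Real.log x ^ (9 / 10 : ℝ))) ^ r0 :=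
            pow_le_pow_left₀ (by positivity) h2 _
        _ = _ := by rw [← Real.exp_nat_mul, one_mul]
    have hE4 : (x : ℝ) ^ (1 / 2 : ℝ) ≤ x / W * Real.exp (-(LL x / 10)) := by
      have h2 : Real.exp (LL x / 10) ≤ (x : ℝ) ^ (1 / 4 : ℝ) := by
        rw [Real.rpow_def_of_pos hx0]
        apply Real.exp_le_exp.2
        have := LL_le_log (x := x) (by linarith)
        linarith
      rw [Real.exp_neg, div_mul_eq_mul_div, le_div_iff₀ hW0]
      rw [← div_eq_mul_inv, le_div_iff₀ (Real.exp_pos _)]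
      calc (x : ℝ) ^ (1 / 2 : ℝ) * W * Real.exp (LL x / 10) ≤
          (x : ℝ) ^ (1 / 2 : ℝ) * (x : ℝ) ^ (1 / 4 : ℝ) * (x : ℝ) ^ (1 / 4 : ℝ) := by
            apply mul_le_mul _ h2 (Real.exp_pos _).le (by positivity)
            exact mul_le_mul_of_nonneg_left hWX (by positivity)
        _ = x := by
            rw [← Real.rpow_add hx0, ← Real.rpow_add hx0]
            norm_num
    have hp : (0 : ℝ) ≤ x / W := by positivity
    have he := Real.exp_pos (-(LL x / 10))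
    have hmain : ((x / W + 1 : ℕ) : ℝ) * (Real.exp (-G) + Real.exp (8 * G) / 8 ^ (r0 + 1)) ≤
        2 * (x / W) * (2 * Real.exp (-(LL x / 10))) := by
      apply mul_le_mul hxW (by linarith) (by positivity) (by positivity)
    calc ((x / W + 1 : ℕ) : ℝ) * (Real.exp (-G) + Real.exp (8 * G) / 8 ^ (r0 + 1)) +
        3 * (2 * (zz x : ℝ) + 1) ^ r0 ≤ 2 * (x / W) * (2 * Real.exp (-(LL x / 10))) +
          x / W * Real.exp (-(LL x / 10)) := add_le_add hmain (hE3.trans hE4)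
      _ = 5 * (x / W) * Real.exp (-(LL x / 10)) := by ring
  have h1 : cnt x (fun n => (n : ZMod w1) ^ m = 1 ∧ (n : ZMod w2) ^ m = 1 ∧ ∀ p ∈ U, ¬ p ∣ n) ≤
      cnt x (fun n => ∃ ρ ∈ R, n % W = ρ ∧ ∀ p ∈ U, ¬ p ∣ n) := by
    refine cnt_mono fun n _ h => ?_
    refine ⟨n % W, ?_, rfl, h.2.2⟩
    rw [hR, mem_filter, mem_range]
    exact ⟨Nat.mod_lt _ hWpos, (natCast_mod_pow w1 m n W (dvd_mul_right w1 w2)).2 h.1,
      (natCast_mod_pow w2 m n W (dvd_mul_left w2 w1)).2 h.2.1⟩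
  refine h1.trans ((cnt_exists x R _).trans ((sum_le_sum hone).trans ?_))
  rw [sum_const, nsmul_eq_mul]
  have h2 : (W : ℝ) = w1 * w2 := by rw [hW]; push_cast; ring
  rw [← h2]
  calc (R.card : ℝ) * (5 * (x / W) * Real.exp (-(LL x / 10))) ≤
      m ^ 2 * (5 * (x / W) * Real.exp (-(LL x / 10))) := mul_le_mul_of_nonneg_right hRcard (by positivity)
    _ = _ := by ring

end Pool.Agent.Lib.MP_79499b_co.DZ
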