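import Pool.Agent.Lib.MP_79499b_co.DZ.LT
import Mathlib.NumberTheory.LegendreSymbol.QuadraticChar.Basic

/-!
# DZ LU: many common nonresidues

PROOF. `w1 ≠ w2` odd primes of the range, `χ1`, `χ2` their quadratic characters (`DirichletCharacter ℂ w_i`, the
quadratic character with values mapped to `ℂ`), nontrivial, hence primitive (prime modulus); `χ1 χ2` mod
`w1 w2` (`DirichletCharacter.changeLevel` of both) is primitive: if it factors through a proper divisor `d` of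
`w1 w2`, then through `w1` or `w2`, say `w1`; take `a = 1 mod w1`, `a` a nonresidue mod `w2`: the value is
`-1`, contradiction. For a prime `p > X2` (so `p ≠ w_i`): `1_{p nonresidue mod both} = (1-χ1 p)(1-χ2 p)/4`. So for
a pair outside `SE x` (`w1`, `w2`, `w1 w2` are `≤ X2^2` and not in `BQ x`) and every `i ∈ JJ x`,
`∑_{p ∈ Bl (2^i), nonres. mod both} 1/p ≥ (R_i - 3 τ)/4`. Sum over the disjoint blocks: `JJ_sum` gives
`≥ (21/50 LL x - 3 (log x)(log x)^(-4))/4 ≥ LL x / 10`.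
-/

set_option autoImplicit false

namespace Pool.Agent.Lib.MP_79499b_co.DZ

open Finset Filter
open scoped Classical

/-- the quadratic character with complex values -/
noncomputable def LUq (w : ℕ) [Fact w.Prime] : DirichletCharacter ℂ w :=
  (quadraticChar (ZMod w)).ringHomComp (Int.castRingHom ℂ)

theorem LUq_sq {w : ℕ} [Fact w.Prime] {a : ZMod w} (ha : a ≠ 0) (h : IsSquare a) : LUq w a = 1 := by
  unfold LUq
  rw [MulChar.ringHomComp_apply, (quadraticChar_one_iff_isSquare ha).2 h]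
  simp

theorem LUq_nsq {w : ℕ} [Fact w.Prime] {a : ZMod w} (h : ¬ IsSquare a) : LUq w a = -1 := by
  unfold LUq
  rw [MulChar.ringHomComp_apply, quadraticChar_neg_one_iff_not_isSquare.2 h]
  simp

theorem LU_nsq {w : ℕ} [Fact w.Prime] (h2 : w ≠ 2) : ∃ a : ZMod w, ¬ IsSquare a := by
  apply FiniteField.exists_nonsquare
  rw [ZMod.ringChar_zmod_n]
  exact h2

theorem LUq_prim {w : ℕ} [hw : Fact w.Prime] (h2 : w ≠ 2) : (LUq w).IsPrimitive := by
  apply prim_of_prime hw.out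
  intro h
  obtain ⟨a, ha⟩ := LU_nsq (w := w) h2
  have h3 := LUq_nsq ha
  have h4 : IsUnit a := by
    rw [isUnit_iff_ne_zero]
    rintro rfl
    exact ha (IsSquare.zero)
  rw [h, MulChar.one_apply h4] at h3
  norm_num at h3

theorem LU_change {d n : ℕ} (h : d ∣ n) (χ : DirichletCharacter ℂ d) {a : ℕ} (ha : a.Coprime n) :
    DirichletCharacter.changeLevel h χ (a : ZMod n) = χ (a : ZMod d) := by
  have h1 := DirichletCharacter.changeLevel_eq_cast_of_dvd χ h (ZMod.unitOfCoprime a ha)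
  rw [ZMod.coe_unitOfCoprime, ZMod.cast_natCast h] at h1
  exact h1

/-- the product of the two quadratic characters -/
noncomputable def LUp (w1 w2 : ℕ) [Fact w1.Prime] [Fact w2.Prime] : DirichletCharacter ℂ (w1 * w2) :=
  DirichletCharacter.changeLevel (Dvd.intro w2 rfl) (LUq w1) *
    DirichletCharacter.changeLevel (Dvd.intro_left w1 rfl) (LUq w2)

theorem LUp_apply {w1 w2 : ℕ} [Fact w1.Prime] [Fact w2.Prime] {a : ℕ} (ha : a.Coprime (w1 * w2)) :
    LUp w1 w2 (a : ZMod (w1 * w2)) = LUq w1 (a : ZMod w1) * LUq w2 (a : ZMod w2) := by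
  unfold LUp
  rw [MulChar.mul_apply, LU_change _ _ ha, LU_change _ _ ha]

/-- a number which is 1 modulo the first and a nonresidue modulo the second prime -/
theorem LU_crt {u v : ℕ} [hu : Fact u.Prime] [hv : Fact v.Prime] (huv : u ≠ v) (h2 : v ≠ 2) :
    ∃ a : ℕ, a.Coprime (u * v) ∧ a ≡ 1 [MOD u] ∧ ¬ IsSquare (a : ZMod v) := by
  obtain ⟨b, hb⟩ := LU_nsq (w := v) h2
  have hco : u.Coprime v := (Nat.coprime_primes hu.out hv.out).2 huv
  obtain ⟨a, ha1, ha2⟩ := Nat.chineseRemainder hco 1 b.val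
  have h3 : (a : ZMod v) = b := by
    rw [(ZMod.natCast_eq_natCast_iff a b.val v).2 ha2, ZMod.natCast_zmod_val]
  refine ⟨a, ?_, ha1, ?_⟩
  · rw [Nat.coprime_mul_iff_right]
    constructor
    · rw [Nat.Coprime, ha1.gcd_eq, Nat.gcd_one_left]
    · rw [Nat.coprime_comm, hv.out.coprime_iff_not_dvd]
      intro hd
      have h4 : (a : ZMod v) = 0 := (ZMod.natCast_eq_zero_iff a v).2 hd
      rw [← h3, h4] at hb
      exact hb IsSquare.zero
  · rw [h3]
    exact hb

theorem LUp_prim {w1 w2 : ℕ} [hw1 : Fact w1.Prime] [hw2 : Fact w2.Prime] (hne : w1 ≠ w2)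
    (h1 : w1 ≠ 2) (h2 : w2 ≠ 2) : (LUp w1 w2).IsPrimitive := by
  unfold DirichletCharacter.IsPrimitive
  obtain ⟨hd, χ0, hχ⟩ := (LUp w1 w2).factorsThrough_conductor
  set d := (LUp w1 w2).conductor with hdef
  by_contra hcon
  -- d divides w1 or w2
  have hor : d ∣ w1 ∨ d ∣ w2 := by
    obtain ⟨d1, d2, hd1, hd2, hdd⟩ := (Nat.dvd_mul).1 hd
    rcases (Nat.dvd_prime hw1.out).1 hd1 with h | h
    · right
      rw [← hdd, h, one_mul]
      exact hd2
    · rcases (Nat.dvd_prime hw2.out).1 hd2 with h' | h'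
      · left
        rw [← hdd, h', mul_one]
        exact hd1
      · exfalso
        apply hcon
        rw [← hdd, h, h']
  have key : ∀ a : ℕ, a.Coprime (w1 * w2) → a ≡ 1 [MOD d] → LUp w1 w2 (a : ZMod (w1 * w2)) = 1 := by
    intro a ha had
    rw [hχ, LU_change _ _ ha, (ZMod.natCast_eq_natCast_iff a 1 d).2 had, Nat.cast_one, map_one]
  rcases hor with h | h
  · obtain ⟨a, ha, ha1, ha2⟩ := LU_crt hne h2
    have h3 := key a ha (ha1.of_dvd h)
    rw [LUp_apply ha, LUq_nsq ha2, (ZMod.natCast_eq_natCast_iff a 1 w1).2 ha1, Nat.cast_one,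
      map_one] at h3
    norm_num at h3
  · obtain ⟨a, ha, ha1, ha2⟩ := LU_crt hne.symm h1
    rw [mul_comm] at ha
    have h3 := key a ha (ha1.of_dvd h)
    rw [LUp_apply ha, LUq_nsq ha2, (ZMod.natCast_eq_natCast_iff a 1 w2).2 ha1, Nat.cast_one,
      map_one] at h3
    norm_num at h3

theorem LU_block {w1 w2 : ℕ} (hw1 : w1.Prime) (hw2 : w2.Prime) (hne : w1 ≠ w2)
    (h12 : w1 ≠ 2) (h22 : w2 ≠ 2) (P : ℕ) (τ : ℝ) (hP : ∀ p ∈ Bl P, p ≠ w1 ∧ p ≠ w2)
    (hb1 : ¬ Bd P τ w1) (hb2 : ¬ Bd P τ w2) (hb : ¬ Bd P τ (w1 * w2)) :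
    (∑ p ∈ Bl P, 1 / (p : ℝ) - 3 * τ) / 4 ≤
      ∑ p ∈ (Bl P).filter (fun p : ℕ => ¬ IsSquare (p : ZMod w1) ∧ ¬ IsSquare (p : ZMod w2)),
        1 / (p : ℝ) := by
  rw [sum_filter]
  obtain ⟨S, hS⟩ : ∃ S : ℝ, S = ∑ p ∈ Bl P, if ¬ IsSquare (p : ZMod w1) ∧ ¬ IsSquare (p : ZMod w2)
    then 1 / (p : ℝ) else 0 := ⟨_, rfl⟩
  rw [← hS]
  have : Fact w1.Prime := ⟨hw1⟩
  have : Fact w2.Prime := ⟨hw2⟩
  have e1 : (SP P (LUq w1)).re ≤ τ := by
    by_contra hc
    push Not at hc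
    exact hb1 ⟨_, LUq_prim h12, hc.le.trans (Complex.re_le_norm _)⟩
  have e2 : (SP P (LUq w2)).re ≤ τ := by
    by_contra hc
    push Not at hc
    exact hb2 ⟨_, LUq_prim h22, hc.le.trans (Complex.re_le_norm _)⟩
  have e3 : -τ ≤ (SP P (LUp w1 w2)).re := by
    by_contra hc
    push Not at hc
    refine hb ⟨_, LUp_prim hne h12 h22, ?_⟩
    have := Complex.abs_re_le_norm (SP P (LUp w1 w2))
    have h := (abs_le.1 this).1
    linarith
  have key : ∑ p ∈ Bl P, 1 / (p : ℝ) - (SP P (LUq w1)).re - (SP P (LUq w2)).re +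
      (SP P (LUp w1 w2)).re = 4 * S := by
    unfold SP
    rw [Complex.re_sum, Complex.re_sum, Complex.re_sum, ← sum_sub_distrib, ← sum_sub_distrib,
      ← sum_add_distrib, hS, mul_sum]
    refine sum_congr rfl fun p hp => ?_
    obtain ⟨hp1, hp2⟩ := hP p hp
    have hpp := (mem_Bl.1 hp).2
    have hc1 : p.Coprime w1 := (Nat.coprime_primes hpp hw1).2 hp1
    have hc2 : p.Coprime w2 := (Nat.coprime_primes hpp hw2).2 hp2
    have hc : p.Coprime (w1 * w2) := Nat.Coprime.mul_right hc1 hc2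
    have z1 : (p : ZMod w1) ≠ 0 := by
      rw [Ne, ZMod.natCast_eq_zero_iff]
      intro h
      exact hp1 ((Nat.prime_dvd_prime_iff_eq hw1 hpp).1 h).symm
    have z2 : (p : ZMod w2) ≠ 0 := by
      rw [Ne, ZMod.natCast_eq_zero_iff]
      intro h
      exact hp2 ((Nat.prime_dvd_prime_iff_eq hw2 hpp).1 h).symm
    have hre : ∀ c : ℝ, ((c : ℂ) / (p : ℂ)).re = c / p := by
      intro c
      rw [show (c : ℂ) / (p : ℂ) = ((c / (p : ℝ) : ℝ) : ℂ) by push_cast; rfl, Complex.ofReal_re]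
    rw [LUp_apply hc]
    by_cases s1 : IsSquare (p : ZMod w1)
    · rw [LUq_sq z1 s1]
      by_cases s2 : IsSquare (p : ZMod w2)
      · rw [LUq_sq z2 s2]
        have := hre 1
        push_cast at this
        rw [if_neg (fun h => h.1 s1), mul_one, this]
        ring
      · rw [LUq_nsq s2]
        have h1 := hre 1
        have h2 := hre (-1)
        push_cast at h1 h2
        rw [if_neg (fun h => h.1 s1), one_mul, h1, h2]
        ring
    · rw [LUq_nsq s1]
      by_cases s2 : IsSquare (p : ZMod w2)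
      · rw [LUq_sq z2 s2]
        have h1 := hre 1
        have h2 := hre (-1)
        push_cast at h1 h2
        rw [if_neg (fun h => h.2 s2), mul_one, h1, h2]
        ring
      · rw [LUq_nsq s2]
        have h1 := hre 1
        have h2 := hre (-1)
        push_cast at h1 h2
        rw [if_pos ⟨s1, s2⟩, show ((-1 : ℂ) * -1) = 1 by norm_num, h1, h2]
        ring
  linarith

theorem UU_sum : ∀ᶠ x : ℕ in atTop, ∀ w1 w2 : ℕ, Rg x w1 → Rg x w2 → w1 ≠ w2 →
    (w1, w2) ∉ SE x → LL x / 10 ≤ ∑ p ∈ UU x w1 w2, 1 / (p : ℝ) := by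
  have h0 : Tendsto (fun x : ℕ => Real.log (x : ℝ) ^ (9 / 10 : ℝ)) atTop atTop :=
    (tendsto_rpow_atTop (by norm_num)).comp log_tend
  filter_upwards [JJ_sum, X1_pow 0 8, X1_le_X2, LL_tend.eventually_ge_atTop 900,
    log_tend.eventually_ge_atTop 1, h0.eventually_ge_atTop 2] with x hJ hX1 hX12 hL hlog hpow
  intro w1 w2 hw1 hw2 hne hSE
  have hX1' : 8 ≤ X1 x := by simpa using hX1
  have hX2' : 8 ≤ X2 x := by linarith
  have hl0 : 0 < Real.log (x : ℝ) := by linarith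
  have g1 : w1 ≠ 2 := by
    rintro rfl
    have := hw1.2.1
    push_cast at this
    linarith
  have g2 : w2 ≠ 2 := by
    rintro rfl
    have := hw2.2.1
    push_cast at this
    linarith
  have hnot : ¬ (w1 ∈ BQ x ∨ w2 ∈ BQ x ∨ w1 * w2 ∈ BQ x) := by
    intro h
    apply hSE
    unfold SE
    rw [mem_filter, mem_product]
    exact ⟨⟨mem_RR.2 hw1, mem_RR.2 hw2⟩, hne, h⟩
  push Not at hnot
  have hb : ∀ q : ℕ, 1 ≤ q → (q : ℝ) ≤ X2 x ^ 2 → q ∉ BQ x → ∀ i ∈ JJ x, ¬ Bd (2 ^ i) (tau x) q := by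
    intro q hq hq2 hqB i hi hB
    apply hqB
    unfold BQ
    rw [mem_filter, mem_Icc]
    exact ⟨⟨hq, Nat.le_floor hq2⟩, i, hi, hB⟩
  have hX22 : X2 x ≤ X2 x ^ 2 := by nlinarith
  have b1 := hb w1 hw1.1.one_lt.le (hw1.2.2.trans hX22) hnot.1
  have b2 := hb w2 hw2.1.one_lt.le (hw2.2.2.trans hX22) hnot.2.1
  have b3 := hb (w1 * w2) (Nat.mul_pos hw1.1.pos hw2.1.pos) (by
    push_cast
    rw [pow_two]
    exact mul_le_mul hw1.2.2 hw2.2.2 (by positivity) (by linarith)) hnot.2.2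
  have hblk : ∀ i ∈ JJ x, (∑ p ∈ Bl (2 ^ i), 1 / (p : ℝ) - 3 * tau x) / 4 ≤
      ∑ p ∈ (Bl (2 ^ i)).filter (fun p : ℕ => ¬ IsSquare (p : ZMod w1) ∧ ¬ IsSquare (p : ZMod w2)),
        1 / (p : ℝ) := by
    intro i hi
    refine LU_block hw1.1 hw2.1 hne g1 g2 (2 ^ i) (tau x) ?_ (b1 i hi) (b2 i hi) (b3 i hi)
    intro p hp
    have h1 : X2 x < p := by
      have h2 := (mem_filter.1 hi).2
      have h3 : ((2 ^ i : ℕ) : ℝ) < p := by exact_mod_cast (mem_Bl.1 hp).1.1
      push_cast at h3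
      have h4 : X2 x ≤ X2 x ^ 8 := le_self_pow₀ (by linarith) (by norm_num)
      linarith
    constructor
    · rintro rfl
      exact absurd hw1.2.2 (not_le.2 h1)
    · rintro rfl
      exact absurd hw2.2.2 (not_le.2 h1)
  have hU : ∑ p ∈ UU x w1 w2, 1 / (p : ℝ) = ∑ i ∈ JJ x,
      ∑ p ∈ (Bl (2 ^ i)).filter (fun p : ℕ => ¬ IsSquare (p : ZMod w1) ∧ ¬ IsSquare (p : ZMod w2)),
        1 / (p : ℝ) := by
    unfold UU
    rw [sum_biUnion]
    intro i _ j _ hij
    exact (Bl_disj (Set.mem_univ i) (Set.mem_univ j) hij).mono (filter_subset _ _) (filter_subset _ _)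
  rw [hU]
  refine le_trans ?_ (sum_le_sum hblk)
  rw [← sum_div, sum_sub_distrib, sum_const, nsmul_eq_mul]
  -- the number of blocks
  have hz2 : 2 ≤ zz x := by
    unfold zz
    refine Nat.le_floor ?_
    push_cast
    have := Real.add_one_le_exp (Real.log (x : ℝ) ^ (9 / 10 : ℝ))
    linarith
  have hcard : ((JJ x).card : ℝ) ≤ 3 * Real.log x := by
    have h1 : JJ x ⊆ DI 0 (zz x) := by
      intro i hi
      unfold JJ at hi
      unfold DI
      rw [mem_filter] at hi ⊢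
      exact ⟨hi.1, by positivity⟩
    have h2 := DI_card_le (a := 0) hz2
    have h3 : ((JJ x).card : ℝ) ≤ ((DI 0 (zz x)).card : ℝ) := by exact_mod_cast card_le_card h1
    have h4 : Real.log (zz x : ℝ) ≤ Real.log x ^ (9 / 10 : ℝ) := by
      have h5 : (zz x : ℝ) ≤ Real.exp (Real.log x ^ (9 / 10 : ℝ)) := Nat.floor_le (Real.exp_pos _).le
      have h6 := Real.log_le_log (by exact_mod_cast (by omega : 0 < zz x)) h5
      rwa [Real.log_exp] at h6
    have h7 : Real.log (x : ℝ) ^ (9 / 10 : ℝ) ≤ Real.log x := by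
      have := Real.rpow_le_rpow_of_exponent_le hlog (show (9 / 10 : ℝ) ≤ 1 by norm_num)
      rwa [Real.rpow_one] at this
    linarith
  have hτ : ((JJ x).card : ℝ) * (3 * tau x) ≤ 9 := by
    have h1 : 0 < tau x := by unfold tau; positivity
    have h2 : ((JJ x).card : ℝ) * (3 * tau x) ≤ 3 * Real.log x * (3 * tau x) :=
      mul_le_mul_of_nonneg_right hcard (by positivity)
    refine h2.trans ?_
    unfold tau
    have h3 : 3 * Real.log (x : ℝ) * (3 * (Real.log (x : ℝ) ^ 4)⁻¹) = 9 * (Real.log (x : ℝ) ^ 3)⁻¹ := by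
      field_simp
      norm_num
    rw [h3]
    have h4 : (Real.log (x : ℝ) ^ 3)⁻¹ ≤ 1 := inv_le_one_of_one_le₀ (one_le_pow₀ hlog)
    linarith
  linarith

end Pool.Agent.Lib.MP_79499b_co.DZ
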