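import Pool.Agent.Lib.MP_79499b_co.DZ.LQ
import Pool.Agent.Lib.MP_79499b_co.DZ.LU
import Pool.Agent.Lib.MP_79499b_co.DZ.LR
import Pool.Agent.Lib.MP_79499b_co.DZ.L4

/-!
# DZ L3: a large prime factor which is a nonresidue mod both primes

PROOF. Pairs in `SE x`: `L4` with `SE_sum`. Other pairs: `UU_sum`, `sieve_pair` and `∑_{w1,w2} 1/(w1 w2) ≤ LL^2`
(`RR_sum_le`): at most `5 m^2 x LL^2 exp(-LL/10) ≤ ε/2 x`. The primes of `UU x w1 w2` are `> X2^8` and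
nonresidues mod both.
-/

set_option autoImplicit false

namespace Pool.Agent.Lib.MP_79499b_co.DZ

open Finset Filter
open scoped Classical

theorem L3 (m : ℕ) (hm : 1 ≤ m) (ε : ℝ) (hε : 0 < ε) : ∃ x₀ : ℕ, ∀ x ≥ x₀,
    cnt x (fun n => ∃ w1 w2 : ℕ, Rg x w1 ∧ Rg x w2 ∧ w1 ≠ w2 ∧ (n : ZMod w1) ^ m = 1 ∧
      (n : ZMod w2) ^ m = 1 ∧ ¬ ∃ p : ℕ, p.Prime ∧ p ∣ n ∧ X2 x ^ 8 < p ∧
        ¬ IsSquare (p : ZMod w1) ∧ ¬ IsSquare (p : ZMod w2)) ≤ ε * x := by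
  obtain ⟨x₁, h4⟩ := L4 m hm (ε / 2) (by positivity)
  have hexp : ∀ᶠ x : ℕ in atTop,
      500 * (m : ℝ) ^ 2 * ((LL x / 10) ^ 2 * Real.exp (-(LL x / 10))) ≤ ε / 2 := by
    have h0 := (Real.tendsto_pow_mul_exp_neg_atTop_nhds_zero 2).comp
      (LL_tend.atTop_div_const (by norm_num : (0 : ℝ) < 10))
    have h1 := h0.const_mul (500 * (m : ℝ) ^ 2)
    rw [mul_zero] at h1
    exact (h1.eventually (gt_mem_nhds (show (0 : ℝ) < ε / 2 by positivity))).mono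
      fun x hx => le_of_lt hx
  have hall := ((SE_sum.and UU_sum).and (sieve_pair m hm)).and
    ((RR_sum_le.and hexp).and (LL_tend.eventually_ge_atTop 0))
  obtain ⟨x₂, h⟩ := eventually_atTop.1 hall
  refine ⟨max x₁ x₂, fun x hx => ?_⟩
  obtain ⟨⟨⟨hSE, hUU⟩, hsv⟩, ⟨hRR, hex⟩, hL0⟩ := h x (le_trans (le_max_right _ _) hx)
  have hA := h4 x (le_trans (le_max_left _ _) hx) (SE x) hSE
  set E := ((RR x) ×ˢ (RR x)).filter (fun w : ℕ × ℕ => w.1 ≠ w.2 ∧ w ∉ SE x) with hE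
  have hB : cnt x (fun n => ∃ w ∈ E, (n : ZMod w.1) ^ m = 1 ∧ (n : ZMod w.2) ^ m = 1 ∧
      ∀ p ∈ UU x w.1 w.2, ¬ p ∣ n) ≤ ε / 2 * x := by
    refine (cnt_exists x E (fun w n => (n : ZMod w.1) ^ m = 1 ∧ (n : ZMod w.2) ^ m = 1 ∧
      ∀ p ∈ UU x w.1 w.2, ¬ p ∣ n)).trans ?_
    have h1 : ∀ w ∈ E, cnt x (fun n => (n : ZMod w.1) ^ m = 1 ∧ (n : ZMod w.2) ^ m = 1 ∧
        ∀ p ∈ UU x w.1 w.2, ¬ p ∣ n) ≤
        (5 * m ^ 2 * x * Real.exp (-(LL x / 10))) * (1 / (w.1 : ℝ) * (1 / (w.2 : ℝ))) := by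
      intro w hw
      rw [hE, mem_filter, mem_product] at hw
      obtain ⟨⟨hw1, hw2⟩, hne, hnot⟩ := hw
      have h2 := hUU w.1 w.2 (mem_RR.1 hw1) (mem_RR.1 hw2) hne hnot
      refine (hsv w.1 w.2 (mem_RR.1 hw1) (mem_RR.1 hw2) hne h2).trans (le_of_eq ?_)
      have h5 := Rg_ne_zero (mem_RR.1 hw1)
      have h6 := Rg_ne_zero (mem_RR.1 hw2)
      field_simp
    refine (sum_le_sum h1).trans ?_
    rw [← mul_sum]
    have h2 : ∑ w ∈ E, (1 / (w.1 : ℝ) * (1 / (w.2 : ℝ))) ≤ LL x * LL x := by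
      have h3 : ∑ w ∈ E, (1 / (w.1 : ℝ) * (1 / (w.2 : ℝ))) ≤
          ∑ w ∈ (RR x) ×ˢ (RR x), (1 / (w.1 : ℝ) * (1 / (w.2 : ℝ))) :=
        sum_le_sum_of_subset_of_nonneg (filter_subset _ _) fun _ _ _ => by positivity
      refine h3.trans ?_
      have h9 : ∑ w ∈ (RR x) ×ˢ (RR x), (1 / (w.1 : ℝ) * (1 / (w.2 : ℝ))) =
          (∑ a ∈ RR x, 1 / (a : ℝ)) * (∑ b ∈ RR x, 1 / (b : ℝ)) := by
        rw [sum_mul_sum, sum_product]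
      rw [h9]
      exact mul_le_mul hRR hRR (sum_nonneg fun _ _ => by positivity) hL0
    have h7 : (0 : ℝ) ≤ 5 * m ^ 2 * x * Real.exp (-(LL x / 10)) := by positivity
    refine (mul_le_mul_of_nonneg_left h2 h7).trans ?_
    have h8 := mul_le_mul_of_nonneg_right hex (Nat.cast_nonneg (α := ℝ) x)
    refine le_trans (le_of_eq ?_) h8
    ring
  have hsub : cnt x (fun n => ∃ w1 w2 : ℕ, Rg x w1 ∧ Rg x w2 ∧ w1 ≠ w2 ∧ (n : ZMod w1) ^ m = 1 ∧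
      (n : ZMod w2) ^ m = 1 ∧ ¬ ∃ p : ℕ, p.Prime ∧ p ∣ n ∧ X2 x ^ 8 < p ∧
        ¬ IsSquare (p : ZMod w1) ∧ ¬ IsSquare (p : ZMod w2)) ≤
      cnt x (fun n => (∃ w ∈ SE x, Rg x w.1 ∧ Rg x w.2 ∧ w.1 ≠ w.2 ∧ (n : ZMod w.1) ^ m = 1 ∧
        (n : ZMod w.2) ^ m = 1) ∨ (∃ w ∈ E, (n : ZMod w.1) ^ m = 1 ∧ (n : ZMod w.2) ^ m = 1 ∧
        ∀ p ∈ UU x w.1 w.2, ¬ p ∣ n)) := by
    refine cnt_mono fun n _ hn => ?_
    obtain ⟨w1, w2, hr1, hr2, hne, hn1, hn2, hno⟩ := hn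
    by_cases hS : (w1, w2) ∈ SE x
    · exact Or.inl ⟨(w1, w2), hS, hr1, hr2, hne, hn1, hn2⟩
    · refine Or.inr ⟨(w1, w2), ?_, hn1, hn2, ?_⟩
      · rw [hE, mem_filter, mem_product]
        exact ⟨⟨mem_RR.2 hr1, mem_RR.2 hr2⟩, hne, hS⟩
      · intro p hp hpn
        unfold UU at hp
        rw [mem_biUnion] at hp
        obtain ⟨i, hi, hp⟩ := hp
        rw [mem_filter, mem_Bl] at hp
        obtain ⟨⟨⟨hp1, _⟩, hpp⟩, hs1, hs2⟩ := hp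
        unfold JJ at hi
        rw [mem_filter] at hi
        refine hno ⟨p, hpp, hpn, lt_of_le_of_lt hi.2 ?_, hs1, hs2⟩
        exact_mod_cast hp1
  refine hsub.trans ((cnt_or x _ _).trans ?_)
  linarith

end Pool.Agent.Lib.MP_79499b_co.DZ
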