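import Pool.Agent.Lib.MP_79499b_co.DZ.Defs

/-!
# DZ Z: what parts C and N deliver, as propositions

`PairThm s`: with fixed `c1`, `c2`, `p0`, for every `ε` and suitable `B`, all but `ε x` of the `n < x` have a pair
of primes in the range outside a given sparse set of pairs with `Shape`, `Split`, `Large`.

`NThm s`: for all `c1`, `c2` there is a sparse set of pairs such that for all but `ε x` of the `n < x` all pairs outside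
it for which `w1 w2` divides `q^t + 1` for a large prime factor `q` of `n` satisfy `ND`.
-/

set_option autoImplicit false

namespace Pool.Agent.Lib.MP_79499b_co.DZ

open Finset

/-- part C -/
def PairThm (s : ℕ) : Prop :=
  ∃ c1 c2 p0 : ℕ, 0 < c1 ∧ 0 < c2 ∧ p0.Prime ∧ c1.factorization 2 = c2.factorization 2 ∧
    ∀ ε : ℝ, 0 < ε → ∃ B x0 : ℕ, ∀ x : ℕ, x0 ≤ x → ∀ S : Finset (ℕ × ℕ),
      ∑ q ∈ S, 1 / ((q.1 : ℝ) * q.2) ≤ 1 / LL x →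
      cnt x (fun n => ¬ ∃ w1 w2 r1 r2 : ℕ, Rg x w1 ∧ Rg x w2 ∧ (w1, w2) ∉ S ∧
        Shape s c1 c2 w1 w2 r1 r2 n ∧ Split p0 B w1 w2 r1 r2 n ∧ Large x w1 w2 n) ≤ ε * x

/-- the pair `w1, w2` of primes and the number `n` are in the situation of part N, without `ND` -/
def Fails (s c1 c2 x : ℕ) (S : Finset (ℕ × ℕ)) (n : ℕ) : Prop :=
  ∃ w1 w2 r1 r2 q t : ℕ, Rg x w1 ∧ Rg x w2 ∧ w1 ≠ w2 ∧ w1 = c1 * r1 + 1 ∧ w2 = c2 * r2 + 1 ∧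
    r1.Coprime (c1 * c2) ∧ r2.Coprime (c1 * c2) ∧ r1.Coprime r2 ∧ Odd r1 ∧ Odd r2 ∧
    (w1, w2) ∉ S ∧ w1 ∣ n ^ s + 1 ∧ w2 ∣ ∑ i ∈ range s, n ^ i ∧
    q.Prime ∧ q ∣ n ∧ X2 x ^ 8 < (q : ℝ) ∧ w1 * w2 ∣ q ^ t + 1 ∧
    ¬ ND (CyclotomicField (w1 * w2) ℚ) (s - 1) (r1 * r2) n

/-- part N -/
def NThm (s : ℕ) : Prop :=
  ∀ c1 c2 : ℕ, 0 < c1 → 0 < c2 → ∃ S : ℕ → Finset (ℕ × ℕ),
    (∃ x0 : ℕ, ∀ x : ℕ, x0 ≤ x → ∑ q ∈ S x, 1 / ((q.1 : ℝ) * q.2) ≤ 1 / LL x) ∧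
    ∀ ε : ℝ, 0 < ε → ∃ x0 : ℕ, ∀ x : ℕ, x0 ≤ x → cnt x (Fails s c1 c2 x (S x)) ≤ ε * x

end Pool.Agent.Lib.MP_79499b_co.DZ
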