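import Pool.Agent.Lib.MP_79499b_co.DZ.CSet
import Pool.Agent.Lib.MP_79499b_co.DZ.ZDefs
import Pool.Agent.Lib.MP_79499b_co.DZ.CSmA
import Pool.Agent.Lib.MP_79499b_co.DZ.CSmB
import Pool.Agent.Lib.MP_79499b_co.DZ.CFix
import Pool.Agent.Lib.MP_79499b_co.DZ.L1
import Pool.Agent.Lib.MP_79499b_co.DZ.L2
import Pool.Agent.Lib.MP_79499b_co.DZ.L3

/-!
# Almost all `n` have a good pair (module CMain)

PROOF. Take `τ1, τ2, p0` from `setup s`, `c1 = τ1.c`, `c2 = τ2.c`. Let `ε' = ε/20`; `C` from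
`small_size ε'`, `B` from `p0_power p0 ε'`. Let `x` be large and let `n < x`, `n ≠ 0`, be outside the
following exceptional sets, each of size `≤ ε' x`: (E1) `log x ^ C < sp x n`; (E2)
`(6/5) LLL x < ω(sp x n)` (`small_omega`); so `d = sp x n` satisfies `DOK C x d` and `NS x d n`; (E3), (E4):
for `τ = τ1, τ2`: `NS x d n` and no `w ∈ WS τ x d` with `Rt τ w n` (`fix_low`; by `cnt_exists` the sum over
the `d` with `DOK C x d`, `d ≤ x`, of `ε' (x/d) V x` is `≤ ε' x` by `sum_NS`); (E5) `L1 (2 s) ε'`; (E6)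
`L2 (2 s) ε'`; (E7) `L3 (2 s) ε'`; (E8) `L4 (2 s) ε'` for the given `S`; (E9) `p0_power`. The element
`n = 0` adds `1 ≤ ε' x`.
Outside: take `w1 ∈ WS τ1 x d`, `w2 ∈ WS τ2 x d` with `Rt τ1 w1 n`, `Rt τ2 w2 n`; `w1 ≠ w2` since
`τ1.e ≠ τ2.e`; `n^(2s) = 1` mod both (`setup`). `ri = (wi - 1)/ci`. `Shape`: `wi = ci ri + 1` (`shape`);
`ri` is prime to `M` (`shape`), hence to `c1 c2` (`hcM`, `τ1.M = τ2.M`) and odd; `ri > 1` because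
`wi > X1 x` is large; `r1, r2` coprime by (E6): a common prime factor `l` does not divide `M`, hence
`l > yy x` (definition of `WS`), and divides `w1 - 1`, `w2 - 1`. Divisibilities by `setup`. `Split`: let
`p ∣ n` be prime. If `p ∣ M`: `p = p0` and `p0^v ≤ B` (E9), or both `NR` (`setup`). If `p ∤ M`, `p ≤ Z0 x`:
`p ∣ sp x n = d` (`dvd_sp`) and both `NR` by the definition of `WS`. If `p > Z0 x`: `NP wi ri p`: let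
`l ∣ ri` be prime, so `l > yy x`, `l ∣ wi - 1`; `y^l = p` in `ZMod wi` would contradict (E5). `Large` is (E7).
`(w1, w2) ∉ S` is (E8).
-/

set_option autoImplicit false

open Finset
open scoped Classical

namespace Pool.Agent.Lib.MP_79499b_co.DZ

theorem CMain_fix (τ : WT) (C : ℕ) (ε : ℝ) (hε : 0 < ε) : ∃ x0 : ℕ, ∀ x : ℕ, x0 ≤ x →
    cnt x (fun n => ∃ d : ℕ, DOK C x d ∧ d ≤ x ∧ NS x d n ∧ ¬ ∃ w ∈ WS τ x d, Rt τ w n) ≤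
      ε * x := by
  obtain ⟨x0, h0⟩ := fix_low τ C ε hε
  refine ⟨x0, fun x hx => ?_⟩
  set D := (Icc 1 x).filter (fun d => DOK C x d) with hD
  calc cnt x (fun n => ∃ d : ℕ, DOK C x d ∧ d ≤ x ∧ NS x d n ∧ ¬ ∃ w ∈ WS τ x d, Rt τ w n)
      ≤ cnt x (fun n => ∃ d ∈ D, NS x d n ∧ ¬ ∃ w ∈ WS τ x d, Rt τ w n) := by
        refine cnt_mono fun n _ h => ?_
        obtain ⟨d, hd, hdx, h⟩ := h
        exact ⟨d, mem_filter.2 ⟨mem_Icc.2 ⟨hd.1, hdx⟩, hd⟩, h⟩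
    _ ≤ ∑ d ∈ D, cnt x (fun n => NS x d n ∧ ¬ ∃ w ∈ WS τ x d, Rt τ w n) := cnt_exists x D _
    _ ≤ ∑ d ∈ D, ε * ((x : ℝ) / d * V x) :=
        sum_le_sum fun d hd => h0 x hx d (mem_filter.1 hd).2
    _ ≤ ∑ d ∈ (Icc 1 x).filter (fun d => ∀ p : ℕ, p.Prime → p ∣ d → p ≤ Z0 x),
          ε * ((x : ℝ) / d * V x) := by
        refine sum_le_sum_of_subset_of_nonneg ?_ ?_
        · intro d hd
          rw [hD, mem_filter] at hd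
          exact mem_filter.2 ⟨hd.1, hd.2.2.1⟩
        · intro d _ _
          have := (V_pos x).1
          positivity
    _ = ε * ∑ d ∈ (Icc 1 x).filter (fun d => ∀ p : ℕ, p.Prime → p ∣ d → p ≤ Z0 x),
          ((x : ℝ) / d * V x) := by rw [mul_sum]
    _ ≤ ε * x := mul_le_mul_of_nonneg_left (sum_NS x) hε.le

theorem CMain_r (τ : WT) (w : ℕ) (hw : w.Prime) (hh : w ≡ τ.h [MOD τ.M]) :
    w = τ.c * ((w - 1) / τ.c) + 1 ∧ (w - 1) / τ.c ∣ w - 1 ∧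
      ∀ l : ℕ, l.Prime → l ∣ (w - 1) / τ.c → ¬ l ∣ τ.M := by
  obtain ⟨h1, h2⟩ := τ.shape w hw hh
  have h3 : τ.c * ((w - 1) / τ.c) = w - 1 := Nat.mul_div_cancel' h1
  have h4 := hw.one_lt
  refine ⟨by omega, ⟨τ.c, by rw [mul_comm]; exact h3.symm⟩, fun l hl hlr hlM => h2 l hl hlM ?_⟩
  rw [← h3]
  exact Nat.mul_dvd_mul_left _ hlr

theorem CMain_X1 (c : ℕ) : ∃ x0 : ℕ, ∀ x : ℕ, x0 ≤ x → (c : ℝ) ≤ X1 x := by
  have h : Filter.Tendsto (fun x : ℕ => X1 x) Filter.atTop Filter.atTop := by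
    unfold X1
    exact Real.tendsto_exp_atTop.comp ((tendsto_rpow_atTop (by norm_num)).comp log_tend)
  exact Filter.eventually_atTop.1 (h.eventually_ge_atTop (c : ℝ))

theorem CMain_zero (x : ℕ) : cnt x (fun n => n = 0) ≤ 1 := by
  unfold EO.cnt
  rw [show (1 : ℝ) = (((({0} : Finset ℕ)).card : ℕ) : ℝ) by simp]
  refine Nat.cast_le.mpr (card_le_card ?_)
  intro a ha
  simp only [mem_filter] at ha
  rw [mem_singleton]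
  exact ha.2

/-- what holds outside the exceptional sets -/
theorem CMain_key (s : ℕ) (τ1 τ2 : WT) (p0 : ℕ) (hM : τ1.M = τ2.M)
    (he : τ1.e ≠ τ2.e)
    (hnr1 : ∀ p w : ℕ, p.Prime → p ∣ τ1.M → p ≠ p0 → w.Prime → w ≡ τ1.h [MOD τ1.M] → NR w p)
    (hnr2 : ∀ p w : ℕ, p.Prime → p ∣ τ2.M → p ≠ p0 → w.Prime → w ≡ τ2.h [MOD τ2.M] → NR w p)
    (hd1 : ∀ w n : ℕ, w.Prime → Rt τ1 w n → w ∣ n ^ s + 1 ∧ (n : ZMod w) ^ (2 * s) = 1)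
    (hd2 : ∀ w n : ℕ, w.Prime → Rt τ2 w n → w ∣ ∑ i ∈ range s, n ^ i ∧ (n : ZMod w) ^ (2 * s) = 1)
    (C B x : ℕ) (S : Finset (ℕ × ℕ)) (hX : ((τ1.c + τ2.c + 2 : ℕ) : ℝ) ≤ X1 x) (n : ℕ) (hn : n < x)
    (hn0 : n ≠ 0) (e1 : (sp x n : ℝ) ≤ Real.log x ^ C)
    (e2 : ((sp x n).primeFactors.card : ℝ) ≤ 6 / 5 * LLL x)
    (e3 : ¬ ∃ d : ℕ, DOK C x d ∧ d ≤ x ∧ NS x d n ∧ ¬ ∃ w ∈ WS τ1 x d, Rt τ1 w n)
    (e4 : ¬ ∃ d : ℕ, DOK C x d ∧ d ≤ x ∧ NS x d n ∧ ¬ ∃ w ∈ WS τ2 x d, Rt τ2 w n)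
    (e5 : ¬ ∃ w p l : ℕ, Rg x w ∧ (n : ZMod w) ^ (2 * s) = 1 ∧ p.Prime ∧ p ∣ n ∧ Z0 x < p ∧
      l.Prime ∧ yy x < l ∧ l ∣ w - 1 ∧ ∃ y : ZMod w, y ^ l = (p : ZMod w))
    (e6 : ¬ ∃ w1 w2 l : ℕ, Rg x w1 ∧ Rg x w2 ∧ w1 ≠ w2 ∧ (n : ZMod w1) ^ (2 * s) = 1 ∧
      (n : ZMod w2) ^ (2 * s) = 1 ∧ l.Prime ∧ yy x < l ∧ l ∣ w1 - 1 ∧ l ∣ w2 - 1)
    (e7 : ¬ ∃ w1 w2 : ℕ, Rg x w1 ∧ Rg x w2 ∧ w1 ≠ w2 ∧ (n : ZMod w1) ^ (2 * s) = 1 ∧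
      (n : ZMod w2) ^ (2 * s) = 1 ∧ ¬ ∃ p : ℕ, p.Prime ∧ p ∣ n ∧ X2 x ^ 8 < p ∧
        ¬ IsSquare (p : ZMod w1) ∧ ¬ IsSquare (p : ZMod w2))
    (e8 : ¬ ∃ w ∈ S, Rg x w.1 ∧ Rg x w.2 ∧ w.1 ≠ w.2 ∧ (n : ZMod w.1) ^ (2 * s) = 1 ∧
      (n : ZMod w.2) ^ (2 * s) = 1)
    (e9 : p0 ^ n.factorization p0 ≤ B) :
    ∃ w1 w2 r1 r2 : ℕ, Rg x w1 ∧ Rg x w2 ∧ (w1, w2) ∉ S ∧
      Shape s τ1.c τ2.c w1 w2 r1 r2 n ∧ Split p0 B w1 w2 r1 r2 n ∧ Large x w1 w2 n := by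
  have hdok : DOK C x (sp x n) := ⟨sp_pos x n, fun p hp h => (sp_prime x n p hp h).1, e1, e2⟩
  have hle : sp x n ≤ x := (Nat.le_of_dvd (Nat.pos_of_ne_zero hn0) (sp_dvd x n hn0)).trans hn.le
  have hns := sp_NS x n hn0
  obtain ⟨w1, hw1, hr1⟩ : ∃ w ∈ WS τ1 x (sp x n), Rt τ1 w n := by
    by_contra h
    exact e3 ⟨_, hdok, hle, hns, h⟩
  obtain ⟨w2, hw2, hr2⟩ : ∃ w ∈ WS τ2 x (sp x n), Rt τ2 w n := by
    by_contra h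
    exact e4 ⟨_, hdok, hle, hns, h⟩
  unfold WS at hw1 hw2
  obtain ⟨hR1, hm1, hq1, hl1⟩ := mem_filter.1 hw1
  obtain ⟨hR2, hm2, hq2, hl2⟩ := mem_filter.1 hw2
  have hg1 : Rg x w1 := mem_RR.1 hR1
  have hg2 : Rg x w2 := mem_RR.1 hR2
  have hne : w1 ≠ w2 := by
    rintro rfl
    exact he (hr1.symm.trans hr2)
  obtain ⟨hdv1, hpw1⟩ := hd1 w1 n hg1.1 hr1
  obtain ⟨hdv2, hpw2⟩ := hd2 w2 n hg2.1 hr2
  obtain ⟨hs1, hs1', hs1''⟩ := CMain_r τ1 w1 hg1.1 hm1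
  obtain ⟨hs2, hs2', hs2''⟩ := CMain_r τ2 w2 hg2.1 hm2
  set r1 := (w1 - 1) / τ1.c with hr1def
  set r2 := (w2 - 1) / τ2.c with hr2def
  have hyl1 : ∀ l : ℕ, l.Prime → l ∣ r1 → yy x < l := fun l hl h => by
    by_contra hlt
    exact hl1 l hl (not_lt.1 hlt) (hs1'' l hl h) (h.trans hs1')
  have hyl2 : ∀ l : ℕ, l.Prime → l ∣ r2 → yy x < l := fun l hl h => by
    by_contra hlt
    exact hl2 l hl (not_lt.1 hlt) (hs2'' l hl h) (h.trans hs2')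
  have h2M1 : 2 ∣ τ1.M := (by norm_num : 2 ∣ 4).trans τ1.hM
  have h2M2 : 2 ∣ τ2.M := (by norm_num : 2 ∣ 4).trans τ2.hM
  have hb1 : τ1.c + τ2.c + 2 < w1 := by
    have := hX.trans_lt hg1.2.1
    exact_mod_cast this
  have hb2 : τ1.c + τ2.c + 2 < w2 := by
    have := hX.trans_lt hg2.2.1
    exact_mod_cast this
  refine ⟨w1, w2, r1, r2, hg1, hg2, ?_, ?_, ?_, ?_⟩
  · intro hS
    exact e8 ⟨(w1, w2), hS, hg1, hg2, hne, hpw1, hpw2⟩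
  · refine ⟨hg1.1, hg2.1, hne, hs1, hs2, ?_, ?_, ?_, ?_, ?_, ?_, ?_, hdv1, hdv2⟩
    · rw [← Nat.not_even_iff_odd]
      intro h
      exact hs1'' 2 Nat.prime_two h.two_dvd h2M1
    · rw [← Nat.not_even_iff_odd]
      intro h
      exact hs2'' 2 Nat.prime_two h.two_dvd h2M2
    · by_contra h
      have h0 : τ1.c * r1 ≤ τ1.c * 1 := Nat.mul_le_mul_left _ (not_lt.1 h)
      rw [mul_one] at h0
      omega
    · by_contra h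
      have h0 : τ2.c * r2 ≤ τ2.c * 1 := Nat.mul_le_mul_left _ (not_lt.1 h)
      rw [mul_one] at h0
      omega
    · refine Nat.coprime_of_dvd fun l hl h1 h2 => ?_
      rcases (Nat.Prime.dvd_mul hl).1 h2 with h | h
      · exact hs1'' l hl h1 (τ1.hcM l hl h)
      · exact hs1'' l hl h1 (hM ▸ τ2.hcM l hl h)
    · refine Nat.coprime_of_dvd fun l hl h1 h2 => ?_
      rcases (Nat.Prime.dvd_mul hl).1 h2 with h | h
      · exact hs2'' l hl h1 (hM ▸ τ1.hcM l hl h)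
      · exact hs2'' l hl h1 (τ2.hcM l hl h)
    · refine Nat.coprime_of_dvd fun l hl h1 h2 => ?_
      exact e6 ⟨w1, w2, l, hg1, hg2, hne, hpw1, hpw2, hl, hyl1 l hl h1, h1.trans hs1',
        h2.trans hs2'⟩
  · intro p hp hpn
    by_cases hpM : p ∣ τ1.M
    · by_cases hp0 : p = p0
      · exact Or.inr (Or.inr ⟨hp0, e9⟩)
      · exact Or.inl ⟨hnr1 p w1 hp hpM hp0 hg1.1 hm1, hnr2 p w2 hp (hM ▸ hpM) hp0 hg2.1 hm2⟩
    · by_cases hpZ : p ≤ Z0 x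
      · have hd := dvd_sp x n p hn0 hp hpZ hpn
        exact Or.inl ⟨hq1 p hp hd hpM, hq2 p hp hd (hM ▸ hpM)⟩
      · refine Or.inr (Or.inl ⟨?_, ?_⟩)
        · intro l hl hlr hy
          exact e5 ⟨w1, p, l, hg1, hpw1, hp, hpn, not_le.1 hpZ, hl, hyl1 l hl hlr,
            hlr.trans hs1', hy⟩
        · intro l hl hlr hy
          exact e5 ⟨w2, p, l, hg2, hpw2, hp, hpn, not_le.1 hpZ, hl, hyl2 l hl hlr,
            hlr.trans hs2', hy⟩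
  · by_contra h
    exact e7 ⟨w1, w2, hg1, hg2, hne, hpw1, hpw2, h⟩

theorem pair_thm (s : ℕ) (hs : 2 ≤ s) : PairThm s := by
  obtain ⟨τ1, τ2, p0, hM, he, hf, hp0, hnr1, hnr2, hd1, hd2⟩ := setup s hs
  refine ⟨τ1.c, τ2.c, p0, τ1.hc, τ2.hc, hp0, hf, fun ε hε => ?_⟩
  have hδ : 0 < ε / 20 := by positivity
  have hm : 1 ≤ 2 * s := by omega
  obtain ⟨C, x1, h1⟩ := small_size (ε / 20) hδ
  obtain ⟨x2, h2⟩ := small_omega (ε / 20) hδ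
  obtain ⟨B, hB⟩ := p0_power p0 hp0 (ε / 20) hδ
  obtain ⟨x3, h3⟩ := CMain_fix τ1 C (ε / 20) hδ
  obtain ⟨x4, h4⟩ := CMain_fix τ2 C (ε / 20) hδ
  obtain ⟨x5, h5⟩ := L1 (2 * s) hm (ε / 20) hδ
  obtain ⟨x6, h6⟩ := L2 (2 * s) hm (ε / 20) hδ
  obtain ⟨x7, h7⟩ := L3 (2 * s) hm (ε / 20) hδ
  obtain ⟨x8, h8⟩ := L4 (2 * s) hm (ε / 20) hδ
  obtain ⟨x9, h9⟩ := CMain_X1 (τ1.c + τ2.c + 2)
  refine ⟨B, x1 + x2 + x3 + x4 + x5 + x6 + x7 + x8 + x9 + ⌈20 / ε⌉₊, fun x hx S hS => ?_⟩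
  have hxε : 1 ≤ ε / 20 * x := by
    have h := Nat.le_ceil (20 / ε)
    have h' : ((⌈20 / ε⌉₊ : ℕ) : ℝ) ≤ x := by exact_mod_cast (by omega : ⌈20 / ε⌉₊ ≤ x)
    have h'' : 20 / ε ≤ x := h.trans h'
    rw [div_le_iff₀ hε] at h''
    linarith
  have k1 := h1 x (by omega)
  have k2 := h2 x (by omega)
  have k3 := h3 x (by omega)
  have k4 := h4 x (by omega)
  have k5 := h5 x (by omega)
  have k6 := h6 x (by omega)
  have k7 := h7 x (by omega)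
  have k8 := h8 x (by omega) S hS
  have k9 := h9 x (by omega)
  have k10 := hB x
  have k0 := CMain_zero x
  have hmono : cnt x (fun n => ¬ ∃ w1 w2 r1 r2 : ℕ, Rg x w1 ∧ Rg x w2 ∧ (w1, w2) ∉ S ∧
      Shape s τ1.c τ2.c w1 w2 r1 r2 n ∧ Split p0 B w1 w2 r1 r2 n ∧ Large x w1 w2 n) ≤
      cnt x (fun n => n = 0 ∨ (n ≠ 0 ∧ Real.log x ^ C < (sp x n : ℝ)) ∨
        (n ≠ 0 ∧ 6 / 5 * LLL x < ((sp x n).primeFactors.card : ℝ)) ∨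
        (n ≠ 0 ∧ B < p0 ^ n.factorization p0) ∨
        (∃ d : ℕ, DOK C x d ∧ d ≤ x ∧ NS x d n ∧ ¬ ∃ w ∈ WS τ1 x d, Rt τ1 w n) ∨
        (∃ d : ℕ, DOK C x d ∧ d ≤ x ∧ NS x d n ∧ ¬ ∃ w ∈ WS τ2 x d, Rt τ2 w n) ∨
        (∃ w p l : ℕ, Rg x w ∧ (n : ZMod w) ^ (2 * s) = 1 ∧ p.Prime ∧ p ∣ n ∧ Z0 x < p ∧
          l.Prime ∧ yy x < l ∧ l ∣ w - 1 ∧ ∃ y : ZMod w, y ^ l = (p : ZMod w)) ∨
        (∃ w1 w2 l : ℕ, Rg x w1 ∧ Rg x w2 ∧ w1 ≠ w2 ∧ (n : ZMod w1) ^ (2 * s) = 1 ∧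
          (n : ZMod w2) ^ (2 * s) = 1 ∧ l.Prime ∧ yy x < l ∧ l ∣ w1 - 1 ∧ l ∣ w2 - 1) ∨
        (∃ w1 w2 : ℕ, Rg x w1 ∧ Rg x w2 ∧ w1 ≠ w2 ∧ (n : ZMod w1) ^ (2 * s) = 1 ∧
          (n : ZMod w2) ^ (2 * s) = 1 ∧ ¬ ∃ p : ℕ, p.Prime ∧ p ∣ n ∧ X2 x ^ 8 < p ∧
            ¬ IsSquare (p : ZMod w1) ∧ ¬ IsSquare (p : ZMod w2)) ∨
        (∃ w ∈ S, Rg x w.1 ∧ Rg x w.2 ∧ w.1 ≠ w.2 ∧ (n : ZMod w.1) ^ (2 * s) = 1 ∧
          (n : ZMod w.2) ^ (2 * s) = 1)) := by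
    refine cnt_mono fun n hn h => ?_
    by_contra hc
    simp only [not_or] at hc
    obtain ⟨c0, c1, c2, c3, c4, c5, c6, c7, c8, c9⟩ := hc
    refine h (CMain_key s τ1 τ2 p0 hM he hnr1 hnr2 hd1 hd2 C B x S k9 n hn c0 ?_ ?_ c4 c5 c6
      c7 c8 c9 ?_)
    · by_contra hh
      exact c1 ⟨c0, not_le.1 hh⟩
    · by_contra hh
      exact c2 ⟨c0, not_le.1 hh⟩
    · by_contra hh
      exact c3 ⟨c0, not_le.1 hh⟩
  refine hmono.trans ?_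
  refine (cnt_or x _ _).trans ?_
  refine (add_le_add k0 (cnt_or x _ _)).trans ?_
  refine (add_le_add le_rfl (add_le_add k1 (cnt_or x _ _))).trans ?_
  refine (add_le_add le_rfl (add_le_add le_rfl (add_le_add k2 (cnt_or x _ _)))).trans ?_
  refine (add_le_add le_rfl (add_le_add le_rfl (add_le_add le_rfl
    (add_le_add k10 (cnt_or x _ _))))).trans ?_
  refine (add_le_add le_rfl (add_le_add le_rfl (add_le_add le_rfl (add_le_add le_rfl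
    (add_le_add k3 (cnt_or x _ _)))))).trans ?_
  refine (add_le_add le_rfl (add_le_add le_rfl (add_le_add le_rfl (add_le_add le_rfl
    (add_le_add le_rfl (add_le_add k4 (cnt_or x _ _))))))).trans ?_
  refine (add_le_add le_rfl (add_le_add le_rfl (add_le_add le_rfl (add_le_add le_rfl
    (add_le_add le_rfl (add_le_add le_rfl (add_le_add k5 (cnt_or x _ _)))))))).trans ?_
  refine (add_le_add le_rfl (add_le_add le_rfl (add_le_add le_rfl (add_le_add le_rfl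
    (add_le_add le_rfl (add_le_add le_rfl (add_le_add le_rfl
      (add_le_add k6 (cnt_or x _ _))))))))).trans ?_
  refine (add_le_add le_rfl (add_le_add le_rfl (add_le_add le_rfl (add_le_add le_rfl
    (add_le_add le_rfl (add_le_add le_rfl (add_le_add le_rfl
      (add_le_add le_rfl (add_le_add k7 k8))))))))).trans ?_
  linarith

end Pool.Agent.Lib.MP_79499b_co.DZ
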