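import Pool.Agent.Lib.MP_79499b_co.DZ.CProd

/-!
# The small part of an integer (module CPart)

`sp x n` is the part of `n` composed of the primes `≤ Z0 x`.
PROOFS. `sp_dvd`, `sp_prime`, `dvd_sp`, `sp_NS`: from the factorization of `n`: `n / sp x n` is the product
of the prime powers of `n` with `p > Z0 x`. `sp_unique`: if `NS x d n` and all primes of `d` are
`≤ Z0 x` then `v_p(d) = v_p(n)` for `p ≤ Z0 x` (as `p ∤ n/d`) and `v_p(d) = 0` for `p > Z0 x`.
`sum_NS`: `∑_{1 ≤ d ≤ x, all primes ≤ Z0 x} 1/d ≤ ∏_{p ≤ Z0 x} (1 - 1/p)⁻¹ = (V x)⁻¹`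
(`EulerProduct.prod_primesBelow_tsum_eq_tsum_smoothNumbers` / `..._geometric_...`, or the finite version
by induction).
-/

set_option autoImplicit false

open Finset
open scoped Classical

namespace Pool.Agent.Lib.MP_79499b_co.DZ

/-- the part of `n` composed of primes `≤ Z0 x` -/
noncomputable def sp (x n : ℕ) : ℕ :=
  ∏ p ∈ n.primeFactors.filter (fun p => p ≤ Z0 x), p ^ n.factorization p

theorem sp_pos (x n : ℕ) : 1 ≤ sp x n := by
  unfold sp
  refine Nat.one_le_iff_ne_zero.2 (prod_ne_zero_iff.2 fun p hp => ?_)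
  rw [mem_filter] at hp
  exact pow_ne_zero _ (Nat.prime_of_mem_primeFactors hp.1).ne_zero

theorem sp_dvd (x n : ℕ) (hn : n ≠ 0) : sp x n ∣ n := by
  have h1 : ∏ p ∈ n.primeFactors, p ^ n.factorization p = n :=
    Nat.prod_factorization_pow_eq_self hn
  unfold sp
  conv_rhs => rw [← h1]
  exact prod_dvd_prod_of_subset _ _ _ (filter_subset _ _)

theorem sp_prime (x n p : ℕ) (hp : p.Prime) (h : p ∣ sp x n) : p ≤ Z0 x ∧ p ∣ n := by
  unfold sp at h
  obtain ⟨q, hq, hpq⟩ := (Prime.dvd_finset_prod_iff hp.prime _).1 h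
  rw [mem_filter] at hq
  have h1 : p = q := (Nat.prime_dvd_prime_iff_eq hp (Nat.prime_of_mem_primeFactors hq.1)).1
    (hp.dvd_of_dvd_pow hpq)
  rw [h1]
  exact ⟨hq.2, Nat.dvd_of_mem_primeFactors hq.1⟩

private theorem pow_dvd_sp (x n p : ℕ) (hn : n ≠ 0) (hp : p.Prime) (h : p ≤ Z0 x) (h2 : p ∣ n) :
    p ^ n.factorization p ∣ sp x n := by
  unfold sp
  refine dvd_prod_of_mem (fun p => p ^ n.factorization p) ?_
  rw [mem_filter, Nat.mem_primeFactors]
  exact ⟨⟨hp, h2, hn⟩, h⟩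

theorem dvd_sp (x n p : ℕ) (hn : n ≠ 0) (hp : p.Prime) (h : p ≤ Z0 x) (h2 : p ∣ n) :
    p ∣ sp x n := by
  refine dvd_trans ?_ (pow_dvd_sp x n p hn hp h h2)
  exact dvd_pow_self p (hp.factorization_pos_of_dvd hn h2).ne'

theorem sp_NS (x n : ℕ) (hn : n ≠ 0) : NS x (sp x n) n := by
  refine ⟨hn, sp_dvd x n hn, fun p hp hpZ hd => ?_⟩
  have h1 : p * sp x n ∣ n := by
    obtain ⟨k, hk⟩ := hd
    refine ⟨k, ?_⟩
    rw [mul_comm p, mul_assoc, ← hk]
    exact (Nat.mul_div_cancel' (sp_dvd x n hn)).symm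
  have h2 : p ∣ n := (dvd_mul_right _ _).trans h1
  have h3 : p ^ (n.factorization p + 1) ∣ n := by
    rw [pow_succ, mul_comm]
    exact (mul_dvd_mul_left p (pow_dvd_sp x n p hn hp hpZ h2)).trans h1
  exact Nat.pow_succ_factorization_not_dvd hn hp h3

theorem sp_unique (x n d : ℕ) (hd : ∀ p : ℕ, p.Prime → p ∣ d → p ≤ Z0 x) (hn : NS x d n) :
    d = sp x n := by
  have h1 := sp_NS x n hn.1
  obtain ⟨hn0, hdn, hdp⟩ := hn
  have e1 : d * (n / d) = n := Nat.mul_div_cancel' hdn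
  have e2 : sp x n * (n / sp x n) = n := Nat.mul_div_cancel' h1.2.1
  apply Nat.dvd_antisymm
  · have hc : d.Coprime (n / sp x n) := by
      refine Nat.Coprime.symm (Nat.coprime_of_dvd fun p hp h2 h3 => ?_)
      exact h1.2.2 p hp (hd p hp h3) h2
    refine hc.dvd_of_dvd_mul_right ?_
    rw [e2]; exact hdn
  · have hc : (sp x n).Coprime (n / d) := by
      refine Nat.Coprime.symm (Nat.coprime_of_dvd fun p hp h2 h3 => ?_)
      exact hdp p hp (sp_prime x n p hp h3).1 h2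
    refine hc.dvd_of_dvd_mul_right ?_
    rw [e1]; exact h1.2.1

theorem sum_NS (x : ℕ) :
    ∑ d ∈ (Icc 1 x).filter (fun d => ∀ p : ℕ, p.Prime → p ∣ d → p ≤ Z0 x),
      (x : ℝ) / d * V x ≤ x := by
  let f : ℕ →* ℝ :=
    { toFun := fun n => (n : ℝ)⁻¹
      map_one' := by simp
      map_mul' := fun a b => by push_cast; rw [mul_inv] }
  have hf : ∀ n : ℕ, f n = (n : ℝ)⁻¹ := fun _ => rfl
  have hf1 : ∀ {p : ℕ}, p.Prime → ‖f p‖ < 1 := by
    intro p hp
    rw [hf, norm_inv, Real.norm_natCast]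
    exact inv_lt_one_of_one_lt₀ (by exact_mod_cast hp.one_lt)
  have h1 := (EulerProduct.summable_and_hasSum_smoothNumbers_prod_primesBelow_geometric
    (f := f) hf1 (Z0 x + 1)).2
  have h1' : HasSum (Set.indicator (Nat.smoothNumbers (Z0 x + 1)) (fun m : ℕ => f m))
      (∏ p ∈ (Z0 x + 1).primesBelow, (1 - f p)⁻¹) :=
    (hasSum_subtype_iff_indicator (f := fun m : ℕ => f m)).1 h1
  set S := (Icc 1 x).filter (fun d => ∀ p : ℕ, p.Prime → p ∣ d → p ≤ Z0 x) with hS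
  have h2 : ∑ d ∈ S, (d : ℝ)⁻¹ ≤ ∏ p ∈ (Z0 x + 1).primesBelow, (1 - f p)⁻¹ := by
    refine le_trans (le_of_eq ?_) (sum_le_hasSum S (fun i _ => Set.indicator_nonneg
      (fun m _ => by rw [hf]; positivity) i) h1')
    refine sum_congr rfl fun d hd => ?_
    rw [hS, mem_filter, mem_Icc] at hd
    rw [Set.indicator_of_mem, hf]
    rw [Nat.mem_smoothNumbers]
    refine ⟨by omega, fun p hp => ?_⟩
    have h3 := Nat.prime_of_mem_primeFactorsList hp
    have h4 := hd.2 p h3 (Nat.dvd_of_mem_primeFactorsList hp)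
    omega
  have h3 : ∏ p ∈ (Z0 x + 1).primesBelow, (1 - f p)⁻¹ = (V x)⁻¹ := by
    unfold V
    rw [← prod_inv_distrib]
    have h4 : (Z0 x + 1).primesBelow = (Icc 1 (Z0 x)).filter Nat.Prime := by
      ext p
      rw [Nat.mem_primesBelow, mem_filter, mem_Icc]
      constructor
      · rintro ⟨h5, h6⟩
        exact ⟨⟨h6.one_lt.le, by omega⟩, h6⟩
      · rintro ⟨⟨_, h5⟩, h6⟩
        exact ⟨by omega, h6⟩
    rw [h4]
    refine prod_congr rfl fun p _ => ?_
    rw [hf, one_div]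
  rw [h3] at h2
  have hV := (V_pos x).1
  have h5 : ∑ d ∈ S, (x : ℝ) / d * V x = x * (V x * ∑ d ∈ S, (d : ℝ)⁻¹) := by
    rw [mul_sum, mul_sum]
    refine sum_congr rfl fun d _ => ?_
    rw [div_eq_mul_inv]; ring
  rw [h5]
  have h6 : V x * ∑ d ∈ S, (d : ℝ)⁻¹ ≤ 1 := by
    refine (mul_le_mul_of_nonneg_left h2 hV.le).trans (le_of_eq ?_)
    exact mul_inv_cancel₀ hV.ne'
  calc (x : ℝ) * (V x * ∑ d ∈ S, (d : ℝ)⁻¹) ≤ x * 1 :=
        mul_le_mul_of_nonneg_left h6 (Nat.cast_nonneg _)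
    _ = x := mul_one _

end Pool.Agent.Lib.MP_79499b_co.DZ
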