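import Pool.Agent.Lib.MP_79499b_co.DZ.CDefs
import Pool.Agent.Lib.MP_79499b_co.DZ.Defs

/-!
# The two types of auxiliary primes (module CSet)

PROOF. Let `a = v_2(2 s) ≥ 1`.
CASE `a ≥ 2` (`s` even). `M = 2^(a+1)`, `h1 = h2 = 1 + 2^a`, `c1 = c2 = 2^a`, `e1 = 2^a`, `e2 = 2`, `p0 = 2`.
If `a = 2` and `e1 = 4`; always `e1 ≥ 4 > e2`. `h % 4 = 1`. `w ≡ 1 + 2^a [MOD 2^(a+1)]`: `2^a ∣ w - 1`,
`2^(a+1) ∤ w - 1`. The only prime `p ∣ M` is `2 = p0`. If `orderOf n = 2^a` in `ZMod w`: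
`n^(2^(a-1)) = -1` (its square is `1` and it is not `1`), `s = 2^(a-1) s'`, `s'` odd, so `n^s = -1`. If
`orderOf n = 2`: `n ≠ 1`, `n^s = 1`, so `(n - 1) ∑_{i<s} n^i = 0` gives the second divisibility.
CASE `a = 1` (`s` odd, `s ≥ 3`). Let `l` be a prime factor of `s` (odd). If `l = 3`: `M = 72`,
`h1 = h2 = 67` (`67 ≡ 3 [MOD 8]`, `≡ 4 [MOD 9]`), `c1 = c2 = 6`, `e1 = 2`, `e2 = 3`, `p0 = 3`. If `l ≥ 5`:
`M = 72 l^2`, `h1 ≡ 67 [MOD 72]`, `h1 ≡ 2 [MOD l^2]`, `c1 = 6`, `e1 = 2`; `h2 ≡ 67 [MOD 72]`,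
`h2 ≡ 1 + l [MOD l^2]`, `c2 = 6 l`, `e2 = l`, `p0 = l` (Chinese remainder theorem). `shape`: `w ≡ 3 [MOD 8]`
gives `2 ∣ w - 1`, `4 ∤ w - 1`; `w ≡ 4 [MOD 9]`: `3 ∣ w - 1`, `9 ∤ w - 1`; `w ≡ 1 + l [MOD l^2]`: `l ∣ w - 1`,
`l^2 ∤ w - 1`; `w ≡ 2 [MOD l]`: `l ∤ w - 1`. The primes `p ∣ M`, `p ≠ p0`, are `2` (a nonresidue for
`w ≡ 3 [MOD 8]`: `ZMod.exists_sq_eq_two_iff`) and `3` (if `l ≠ 3`; a nonresidue for `w ≡ 3 [MOD 4]`,
`w ≡ 1 [MOD 3]` by quadratic reciprocity: `w` is a square mod `3`). `orderOf n = 2`: `n = -1`, `n^s = -1`.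
`orderOf n = l`: `n ≠ 1`, `n^s = 1`. The 2-adic valuations of `c1`, `c2` are equal in all cases.
-/

set_option autoImplicit false

open Finset
open scoped Classical

namespace Pool.Agent.Lib.MP_79499b_co.DZ

theorem CSet_d1 (w n s a s' : ℕ) (hw : w.Prime) (ha : 1 ≤ a) (hs : s = 2 ^ (a - 1) * s')
    (hodd : Odd s') (h : orderOf (n : ZMod w) = 2 ^ a) :
    w ∣ n ^ s + 1 ∧ (n : ZMod w) ^ (2 * s) = 1 := by
  haveI := Fact.mk hw
  have h2 : ((n : ZMod w) ^ 2 ^ (a - 1)) ^ 2 = 1 := by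
    rw [← pow_mul, ← pow_succ, Nat.sub_add_cancel ha, ← h]
    exact pow_orderOf_eq_one _
  have h3 : (n : ZMod w) ^ 2 ^ (a - 1) ≠ 1 := by
    intro h3
    have h4 := orderOf_dvd_of_pow_eq_one h3
    rw [h] at h4
    have h5 := Nat.le_of_dvd (by positivity) h4
    have h6 : 2 ^ (a - 1) < 2 ^ a := Nat.pow_lt_pow_right (by norm_num) (by omega)
    omega
  have h4 : (n : ZMod w) ^ 2 ^ (a - 1) = -1 := by
    rcases sq_eq_one_iff.mp h2 with h5 | h5
    · exact absurd h5 h3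
    · exact h5
  have h5 : (n : ZMod w) ^ s = -1 := by
    rw [hs, pow_mul, h4, hodd.neg_one_pow]
  constructor
  · rw [← ZMod.natCast_eq_zero_iff]
    push_cast
    rw [h5]
    ring
  · rw [mul_comm, pow_mul, h5]
    ring

theorem CSet_d2 (w n s e : ℕ) (hw : w.Prime) (he : 2 ≤ e) (hes : e ∣ s)
    (h : orderOf (n : ZMod w) = e) :
    w ∣ ∑ i ∈ range s, n ^ i ∧ (n : ZMod w) ^ (2 * s) = 1 := by
  haveI := Fact.mk hw
  have h1 : (n : ZMod w) ^ s = 1 := by
    rw [← orderOf_dvd_iff_pow_eq_one, h]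
    exact hes
  have h2 : (n : ZMod w) ≠ 1 := by
    intro h2
    rw [h2, orderOf_one] at h
    omega
  constructor
  · rw [← ZMod.natCast_eq_zero_iff]
    push_cast
    have h3 := geom_sum_mul (n : ZMod w) s
    rw [h1, sub_self] at h3
    rcases mul_eq_zero.1 h3 with h4 | h4
    · exact h4
    · exact absurd (sub_eq_zero.1 h4) h2
  · rw [mul_comm, pow_mul, h1, one_pow]

theorem CSet_four (a : ℕ) (ha : 2 ≤ a) : 4 ∣ 2 ^ a := by
  have : (4 : ℕ) = 2 ^ 2 := by norm_num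
  rw [this]
  exact pow_dvd_pow 2 ha

/-- type for `a ≥ 2` -/
def wtA (a e : ℕ) (ha : 2 ≤ a) (he : 2 ≤ e) (hec : e ∣ 2 ^ a) : WT where
  M := 2 ^ (a + 1)
  h := 1 + 2 ^ a
  c := 2 ^ a
  e := e
  hM := CSet_four _ (by omega)
  hM0 := by positivity
  hh := by
    refine Nat.Coprime.pow_right _ ?_
    rw [Nat.coprime_comm, Nat.prime_two.coprime_iff_not_dvd]
    have := CSet_four a ha
    omega
  h3 := by
    right
    have := CSet_four a ha
    omega
  hc := by positivity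
  hcM := fun l _ hlc => hlc.trans (pow_dvd_pow 2 (by omega))
  shape := by
    intro w hw hmod
    have hpos : 0 < 2 ^ a := by positivity
    have h1 : w % 2 ^ (a + 1) = 1 + 2 ^ a := by
      have h2 : (1 + 2 ^ a) % 2 ^ (a + 1) = 1 + 2 ^ a := by
        refine Nat.mod_eq_of_lt ?_
        have := CSet_four a ha
        have := Nat.le_of_dvd hpos this
        rw [pow_succ]
        omega
      rw [← h2]
      exact hmod
    have h2 := Nat.div_add_mod w (2 ^ (a + 1))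
    rw [h1, pow_succ] at h2
    have h3 : w - 1 = 2 ^ a * (2 * (w / (2 ^ a * 2)) + 1) := by
      have : 2 ^ a * (2 * (w / (2 ^ a * 2)) + 1) = 2 ^ a * 2 * (w / (2 ^ a * 2)) + 2 ^ a := by ring
      omega
    refine ⟨⟨_, h3⟩, fun l hl hlM hdvd => ?_⟩
    have h4 : l = 2 := (Nat.prime_dvd_prime_iff_eq hl Nat.prime_two).1 (hl.dvd_of_dvd_pow hlM)
    subst h4
    rw [h3] at hdvd
    have h5 := Nat.dvd_of_mul_dvd_mul_left hpos hdvd
    omega
  he := he
  hec := hec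

/-- type for odd `s` divisible by `3` -/
def wtB (e : ℕ) (he : 2 ≤ e) (hec : e ∣ 6) : WT where
  M := 72
  h := 67
  c := 6
  e := e
  hM := by norm_num
  hM0 := by norm_num
  hh := by norm_num
  h3 := by norm_num
  hc := by norm_num
  hcM := fun l _ hlc => hlc.trans (by norm_num)
  shape := by
    intro w hw hmod
    have h1 : w % 72 = 67 := hmod
    refine ⟨by omega, fun l hl hlM hdvd => ?_⟩
    have h2 : l ∣ 2 ∨ l ∣ 3 := by
      have h3 : l ∣ 2 ^ 3 * 3 ^ 2 := by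
        norm_num
        exact hlM
      rcases (Nat.Prime.dvd_mul hl).1 h3 with h4 | h4
      · exact Or.inl (hl.dvd_of_dvd_pow h4)
      · exact Or.inr (hl.dvd_of_dvd_pow h4)
    rcases h2 with h2 | h2
    · rw [(Nat.prime_dvd_prime_iff_eq hl Nat.prime_two).1 h2] at hdvd
      omega
    · rw [(Nat.prime_dvd_prime_iff_eq hl Nat.prime_three).1 h2] at hdvd
      omega
  he := he
  hec := hec

theorem CSet_cop (l : ℕ) (hl : l.Prime) (h5 : 5 ≤ l) : Nat.Coprime 72 (l ^ 2) := by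
  refine Nat.Coprime.pow_right _ ?_
  rw [Nat.coprime_comm, hl.coprime_iff_not_dvd]
  intro h
  have h3 : l ∣ 2 ^ 3 * 3 ^ 2 := by
    norm_num
    exact h
  rcases (Nat.Prime.dvd_mul hl).1 h3 with h4 | h4
  · have := Nat.le_of_dvd (by norm_num) (hl.dvd_of_dvd_pow h4)
    omega
  · have := Nat.le_of_dvd (by norm_num) (hl.dvd_of_dvd_pow h4)
    omega

/-- the residue class modulo `72 l^2` -/
def cr (l b : ℕ) (hl : l.Prime) (h5 : 5 ≤ l) : ℕ :=
  (Nat.chineseRemainder (CSet_cop l hl h5) 67 b : ℕ)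

theorem cr_spec (l b : ℕ) (hl : l.Prime) (h5 : 5 ≤ l) :
    cr l b hl h5 ≡ 67 [MOD 72] ∧ cr l b hl h5 ≡ b [MOD l ^ 2] :=
  (Nat.chineseRemainder (CSet_cop l hl h5) 67 b).2

theorem CSet_spec (l b w : ℕ) (hl : l.Prime) (h5 : 5 ≤ l)
    (h : w ≡ cr l b hl h5 [MOD 72 * l ^ 2]) : w % 72 = 67 ∧ w ≡ b [MOD l ^ 2] := by
  obtain ⟨h1, h2⟩ := cr_spec l b hl h5
  refine ⟨?_, ?_⟩
  · exact (h.of_mul_right (l ^ 2)).trans h1
  · exact (h.of_mul_left 72).trans h2

theorem CSet_hh (l b : ℕ) (hl : l.Prime) (h5 : 5 ≤ l) (hb : b.Coprime l) :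
    Nat.Coprime (cr l b hl h5) (72 * l ^ 2) := by
  obtain ⟨h1, h2⟩ := cr_spec l b hl h5
  refine Nat.Coprime.mul_right ?_ ?_
  · have h3 := h1.gcd_eq
    unfold Nat.Coprime
    rw [h3]
    norm_num
  · have h3 := h2.gcd_eq
    unfold Nat.Coprime
    rw [h3]
    exact Nat.Coprime.pow_right _ hb

theorem CSet_primes (l q : ℕ) (hl : l.Prime) (hq : q.Prime) (h : q ∣ 72 * l ^ 2) :
    q = 2 ∨ q = 3 ∨ q = l := by
  have h3 : q ∣ 2 ^ 3 * 3 ^ 2 * l ^ 2 := by
    norm_num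
    exact h
  rcases (Nat.Prime.dvd_mul hq).1 h3 with h4 | h4
  · rcases (Nat.Prime.dvd_mul hq).1 h4 with h4 | h4
    · exact Or.inl ((Nat.prime_dvd_prime_iff_eq hq Nat.prime_two).1 (hq.dvd_of_dvd_pow h4))
    · exact Or.inr (Or.inl ((Nat.prime_dvd_prime_iff_eq hq Nat.prime_three).1
        (hq.dvd_of_dvd_pow h4)))
  · exact Or.inr (Or.inr ((Nat.prime_dvd_prime_iff_eq hq hl).1 (hq.dvd_of_dvd_pow h4)))

/-- first type for odd `s` with a prime factor `l ≥ 5` -/
def wtC (l : ℕ) (hl : l.Prime) (h5 : 5 ≤ l) : WT where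
  M := 72 * l ^ 2
  h := cr l 2 hl h5
  c := 6
  e := 2
  hM := Dvd.dvd.mul_right (by norm_num) _
  hM0 := by
    have := hl.pos
    positivity
  hh := CSet_hh l 2 hl h5 (by
    rw [Nat.prime_two.coprime_iff_not_dvd]
    intro h
    have := (Nat.prime_dvd_prime_iff_eq Nat.prime_two hl).1 h
    omega)
  h3 := Or.inl (Dvd.dvd.mul_right (by norm_num) _)
  hc := by norm_num
  hcM := fun q _ hqc => hqc.trans (Dvd.dvd.mul_right (by norm_num) _)
  shape := by
    intro w hw hmod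
    obtain ⟨h1, h2⟩ := CSet_spec l 2 w hl h5 hmod
    refine ⟨by omega, fun q hq hqM hdvd => ?_⟩
    rcases CSet_primes l q hl hq hqM with h3 | h3 | h3
    · rw [h3] at hdvd
      omega
    · rw [h3] at hdvd
      omega
    · rw [h3] at hdvd
      have h4 : l ∣ w - 1 := (Dvd.intro_left 6 rfl).trans hdvd
      have h6 : w ≡ 2 [MOD l] := h2.of_dvd (dvd_pow_self l (by norm_num))
      have h7 : 1 ≡ w [MOD l] := (Nat.modEq_iff_dvd' hw.one_lt.le).2 h4
      have h8 := (Nat.modEq_iff_dvd' (by norm_num : 1 ≤ 2)).1 (h7.trans h6)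
      have h9 := Nat.le_of_dvd (by norm_num) h8
      omega
  he := le_rfl
  hec := by norm_num

/-- second type for odd `s` with a prime factor `l ≥ 5` -/
def wtD (l : ℕ) (hl : l.Prime) (h5 : 5 ≤ l) : WT where
  M := 72 * l ^ 2
  h := cr l (1 + l) hl h5
  c := 6 * l
  e := l
  hM := Dvd.dvd.mul_right (by norm_num) _
  hM0 := by
    have := hl.pos
    positivity
  hh := CSet_hh l (1 + l) hl h5 (by
    rw [Nat.coprime_comm, hl.coprime_iff_not_dvd]
    intro h
    have := Nat.le_of_dvd (by norm_num) ((Nat.dvd_add_left (dvd_refl l)).1 h)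
    omega)
  h3 := Or.inl (Dvd.dvd.mul_right (by norm_num) _)
  hc := by omega
  hcM := fun q _ hqc => hqc.trans (by
    rw [pow_two, ← mul_assoc]
    exact Dvd.dvd.mul_right (Nat.mul_dvd_mul_right (by norm_num) l) l)
  shape := by
    intro w hw hmod
    obtain ⟨h1, h2⟩ := CSet_spec l (1 + l) w hl h5 hmod
    have h6 : w ≡ 1 + l [MOD l] := h2.of_dvd (dvd_pow_self l (by norm_num))
    have h7 : w ≡ 1 [MOD l] := h6.trans (by
      unfold Nat.ModEq
      rw [Nat.add_mod_right])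
    have h8 : l ∣ w - 1 := (Nat.modEq_iff_dvd' hw.one_lt.le).1 h7.symm
    have h9 : Nat.Coprime 6 l := by
      refine Nat.Coprime.coprime_dvd_left (by norm_num : 6 ∣ 72) ?_
      exact (CSet_cop l hl h5).coprime_dvd_right (dvd_pow_self l (by norm_num))
    refine ⟨Nat.Coprime.mul_dvd_of_dvd_of_dvd h9 (by omega) h8, fun q hq hqM hdvd => ?_⟩
    rcases CSet_primes l q hl hq hqM with h3 | h3 | h3
    · rw [h3] at hdvd
      have h4 : 12 ∣ w - 1 := by
        refine Dvd.dvd.trans ?_ hdvd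
        exact ⟨l, by ring⟩
      omega
    · rw [h3] at hdvd
      have h4 : 18 ∣ w - 1 := by
        refine Dvd.dvd.trans ?_ hdvd
        exact ⟨l, by ring⟩
      omega
    · rw [h3] at hdvd
      have h4 : l ^ 2 ∣ w - 1 := by
        refine Dvd.dvd.trans ?_ hdvd
        exact ⟨6, by ring⟩
      have h10 : 1 ≡ w [MOD l ^ 2] := (Nat.modEq_iff_dvd' hw.one_lt.le).2 h4
      have h11 := (Nat.modEq_iff_dvd' (by omega : 1 ≤ 1 + l)).1 (h10.trans h2)
      rw [Nat.add_sub_cancel_left] at h11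
      have h12 := Nat.le_of_dvd hl.pos h11
      nlinarith
  he := by omega
  hec := Dvd.intro_left 6 rfl

theorem CSet_two (w : ℕ) (hw : w.Prime) (h : w % 72 = 67) : NR w 2 := by
  haveI := Fact.mk hw
  intro h2
  have h3 : w ≠ 2 := by
    rintro rfl
    omega
  have h4 := (ZMod.exists_sq_eq_two_iff h3).1 (by exact_mod_cast h2)
  omega

theorem CSet_three (w : ℕ) (hw : w.Prime) (h : w % 72 = 67) : NR w 3 := by
  haveI := Fact.mk hw
  haveI : Fact (Nat.Prime 3) := ⟨Nat.prime_three⟩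
  intro h2
  have h3 : w ≠ 3 := by
    rintro rfl
    omega
  have h4 := (ZMod.exists_sq_eq_prime_iff_of_mod_four_eq_three (p := w) (q := 3) (by omega)
    (by norm_num) h3).1 h2
  refine h4 ?_
  have h5 : (w : ZMod 3) = 1 := by
    have h6 : ((w : ℕ) : ZMod 3) = ((1 : ℕ) : ZMod 3) := by
      rw [ZMod.natCast_eq_natCast_iff]
      unfold Nat.ModEq
      omega
    rw [h6]
    norm_num
  rw [h5]
  exact IsSquare.one

theorem setup (s : ℕ) (hs : 2 ≤ s) : ∃ (τ1 τ2 : WT) (p0 : ℕ), τ1.M = τ2.M ∧ τ1.e ≠ τ2.e ∧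
    τ1.c.factorization 2 = τ2.c.factorization 2 ∧ p0.Prime ∧
    (∀ p w : ℕ, p.Prime → p ∣ τ1.M → p ≠ p0 → w.Prime → w ≡ τ1.h [MOD τ1.M] → NR w p) ∧
    (∀ p w : ℕ, p.Prime → p ∣ τ2.M → p ≠ p0 → w.Prime → w ≡ τ2.h [MOD τ2.M] → NR w p) ∧
    (∀ w n : ℕ, w.Prime → Rt τ1 w n → w ∣ n ^ s + 1 ∧ (n : ZMod w) ^ (2 * s) = 1) ∧
    (∀ w n : ℕ, w.Prime → Rt τ2 w n → w ∣ ∑ i ∈ range s, n ^ i ∧ (n : ZMod w) ^ (2 * s) = 1) := by
  obtain ⟨k, s', hodd, hks⟩ := Nat.exists_eq_two_pow_mul_odd (show s ≠ 0 by omega)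
  rcases Nat.eq_zero_or_pos k with hk | hk
  · -- `s` odd
    subst hk
    rw [pow_zero, one_mul] at hks
    subst hks
    obtain ⟨l, hl, hls⟩ := Nat.exists_prime_and_dvd (show s ≠ 1 by omega)
    have hl2 : l ≠ 2 := by
      rintro rfl
      exact (Nat.not_even_iff_odd.2 hodd) (even_iff_two_dvd.2 hls)
    by_cases hl3 : l = 3
    · subst hl3
      refine ⟨wtB 2 le_rfl (by norm_num), wtB 3 (by norm_num) (by norm_num), 3, rfl,
        by simp [wtB], rfl, Nat.prime_three, ?_, ?_, ?_, ?_⟩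
      · intro p w hp hpM hp0 hw hmod
        have h1 : w % 72 = 67 := hmod
        have h2 : p ∣ 2 ^ 3 * 3 ^ 2 := by
          norm_num
          exact hpM
        rcases (Nat.Prime.dvd_mul hp).1 h2 with h4 | h4
        · rw [(Nat.prime_dvd_prime_iff_eq hp Nat.prime_two).1 (hp.dvd_of_dvd_pow h4)]
          exact CSet_two w hw h1
        · exact absurd ((Nat.prime_dvd_prime_iff_eq hp Nat.prime_three).1
            (hp.dvd_of_dvd_pow h4)) hp0
      · intro p w hp hpM hp0 hw hmod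
        have h1 : w % 72 = 67 := hmod
        have h2 : p ∣ 2 ^ 3 * 3 ^ 2 := by
          norm_num
          exact hpM
        rcases (Nat.Prime.dvd_mul hp).1 h2 with h4 | h4
        · rw [(Nat.prime_dvd_prime_iff_eq hp Nat.prime_two).1 (hp.dvd_of_dvd_pow h4)]
          exact CSet_two w hw h1
        · exact absurd ((Nat.prime_dvd_prime_iff_eq hp Nat.prime_three).1
            (hp.dvd_of_dvd_pow h4)) hp0
      · intro w n hw h
        exact CSet_d1 w n s 1 s hw le_rfl (by simp) hodd h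
      · intro w n hw h
        exact CSet_d2 w n s 3 hw (by norm_num) hls h
    · have h5 : 5 ≤ l := by
        have h2 := hl.two_le
        by_contra hlt
        have : l = 4 := by omega
        rw [this] at hl
        exact absurd hl (by norm_num)
      refine ⟨wtC l hl h5, wtD l hl h5, l, rfl, fun h => hl2 h.symm, ?_, hl, ?_, ?_, ?_, ?_⟩
      · show (6 : ℕ).factorization 2 = (6 * l).factorization 2
        rw [Nat.factorization_mul (by norm_num) hl.ne_zero, Finsupp.add_apply,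
          hl.factorization, Finsupp.single_apply, if_neg hl2, add_zero]
      · intro p w hp hpM hp0 hw hmod
        obtain ⟨h1, _⟩ := CSet_spec l 2 w hl h5 hmod
        rcases CSet_primes l p hl hp hpM with h3 | h3 | h3
        · rw [h3]
          exact CSet_two w hw h1
        · rw [h3]
          exact CSet_three w hw h1
        · exact absurd h3 hp0
      · intro p w hp hpM hp0 hw hmod
        obtain ⟨h1, _⟩ := CSet_spec l (1 + l) w hl h5 hmod
        rcases CSet_primes l p hl hp hpM with h3 | h3 | h3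
        · rw [h3]
          exact CSet_two w hw h1
        · rw [h3]
          exact CSet_three w hw h1
        · exact absurd h3 hp0
      · intro w n hw h
        exact CSet_d1 w n s 1 s hw le_rfl (by simp) hodd h
      · intro w n hw h
        exact CSet_d2 w n s l hw hl.two_le hls h
  · -- `s` even
    have ha : 2 ≤ k + 1 := by omega
    refine ⟨wtA (k + 1) (2 ^ (k + 1)) ha ?_ (dvd_refl _), wtA (k + 1) 2 ha le_rfl
      (dvd_pow_self 2 (by omega)), 2, rfl, ?_, rfl, Nat.prime_two, ?_, ?_, ?_, ?_⟩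
    · exact Nat.le_of_dvd (by positivity) (dvd_pow_self 2 (by omega))
    · show 2 ^ (k + 1) ≠ 2
      have := Nat.le_of_dvd (by positivity) (CSet_four (k + 1) ha)
      omega
    · intro p w hp hpM hp0 _ _
      exact absurd ((Nat.prime_dvd_prime_iff_eq hp Nat.prime_two).1 (hp.dvd_of_dvd_pow hpM)) hp0
    · intro p w hp hpM hp0 _ _
      exact absurd ((Nat.prime_dvd_prime_iff_eq hp Nat.prime_two).1 (hp.dvd_of_dvd_pow hpM)) hp0
    · intro w n hw h
      exact CSet_d1 w n s (k + 1) s' hw (by omega) (by simpa using hks) hodd h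
    · intro w n hw h
      refine CSet_d2 w n s 2 hw le_rfl ?_ h
      rw [hks]
      exact Dvd.dvd.mul_right (dvd_pow_self 2 (by omega)) _

end Pool.Agent.Lib.MP_79499b_co.DZ
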