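import Mathlib

/-!
# Second moment inequality of Turan, abstract form (module CTK)

PROOF. Let `K n = #{i ∈ P : E i n}`, `μ = ∑ g i`. Then `∑_{n ∈ N} (K n - μ)^2
= ∑ K^2 - 2 μ ∑ K + μ^2 |N|`. `∑ K = ∑_i |N ∩ E_i| ≥ (1-δ) N0 μ`, `|N| ≤ (1+δ) N0`,
`∑ K^2 = ∑_i |N ∩ E_i| + ∑_{i ≠ j} |N ∩ E_i ∩ E_j| ≤ (1+δ) N0 (μ + μ^2)`
(`∑_{i≠j} g i g j ≤ μ^2`). The total is at most `N0 ((1+δ) μ + 4 δ μ^2)`. Every `n` with
`K n ≤ μ/2` contributes at least `μ^2/4`, hence the number of those `n` is at most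
`N0 (4 (1+δ)/μ + 16 δ) ≤ N0 (8/μ + 16 δ)`.
-/

set_option autoImplicit false

open Finset
open scoped Classical

namespace Pool.Agent.Lib.MP_79499b_co.DZ


/-- Turan's second moment inequality -/
theorem tka {α ι : Type*} (N : Finset α) (P : Finset ι) (E : ι → α → Prop) (g : ι → ℝ)
    (N0 δ : ℝ) (hN0 : 0 ≤ N0) (hδ0 : 0 ≤ δ) (hδ1 : δ ≤ 1) (hg : ∀ i ∈ P, 0 ≤ g i)
    (h0 : |(N.card : ℝ) - N0| ≤ δ * N0)
    (h1 : ∀ i ∈ P, |((N.filter (fun n => E i n)).card : ℝ) - N0 * g i| ≤ δ * (N0 * g i))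
    (h2 : ∀ i ∈ P, ∀ j ∈ P, i ≠ j →
      |((N.filter (fun n => E i n ∧ E j n)).card : ℝ) - N0 * (g i * g j)| ≤
        δ * (N0 * (g i * g j)))
    (hμ : 0 < ∑ i ∈ P, g i) :
    ((N.filter (fun n => ((P.filter (fun i => E i n)).card : ℝ) ≤ (∑ i ∈ P, g i) / 2)).card : ℝ) ≤
      N0 * (8 / (∑ i ∈ P, g i) + 16 * δ) := by
  set μ : ℝ := ∑ i ∈ P, g i with hμdef
  have hK : ∀ n : α, ((P.filter (fun i => E i n)).card : ℝ) =
      ∑ i ∈ P, (if E i n then (1 : ℝ) else 0) := by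
    intro n
    rw [Finset.card_filter]
    push_cast
    rfl
  have hN : ∀ i : ι, ∑ n ∈ N, (if E i n then (1 : ℝ) else 0) =
      ((N.filter (fun n => E i n)).card : ℝ) := by
    intro i
    rw [Finset.card_filter]
    push_cast
    rfl
  have hN2 : ∀ i j : ι, ∑ n ∈ N, (if E i n then (1 : ℝ) else 0) * (if E j n then (1 : ℝ) else 0) =
      ((N.filter (fun n => E i n ∧ E j n)).card : ℝ) := by
    intro i j
    rw [Finset.card_filter]
    push_cast
    refine Finset.sum_congr rfl fun n _ => ?_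
    by_cases h1 : E i n <;> by_cases h2 : E j n <;> simp [h1, h2]
  have hS1 : ∑ n ∈ N, ((P.filter (fun i => E i n)).card : ℝ) =
      ∑ i ∈ P, ((N.filter (fun n => E i n)).card : ℝ) := by
    simp_rw [hK]
    rw [Finset.sum_comm]
    exact Finset.sum_congr rfl fun i _ => hN i
  have hS2 : ∑ n ∈ N, ((P.filter (fun i => E i n)).card : ℝ) ^ 2 =
      ∑ i ∈ P, ∑ j ∈ P, ((N.filter (fun n => E i n ∧ E j n)).card : ℝ) := by
    have h3 : ∀ n : α, ((P.filter (fun i => E i n)).card : ℝ) ^ 2 =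
        ∑ i ∈ P, ∑ j ∈ P, (if E i n then (1 : ℝ) else 0) * (if E j n then (1 : ℝ) else 0) := by
      intro n
      rw [hK, sq, Finset.sum_mul_sum]
    simp_rw [h3]
    rw [Finset.sum_comm]
    refine Finset.sum_congr rfl fun i _ => ?_
    rw [Finset.sum_comm]
    exact Finset.sum_congr rfl fun j _ => hN2 i j
  have hB1 : (1 - δ) * N0 * μ ≤ ∑ n ∈ N, ((P.filter (fun i => E i n)).card : ℝ) := by
    rw [hS1, hμdef, Finset.mul_sum]
    refine Finset.sum_le_sum fun i hi => ?_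
    have := (abs_le.1 (h1 i hi)).1
    linarith
  have hB2 : ∑ n ∈ N, ((P.filter (fun i => E i n)).card : ℝ) ^ 2 ≤
      (1 + δ) * N0 * (μ ^ 2 + μ) := by
    rw [hS2]
    have h4 : ∀ i ∈ P, ∀ j ∈ P, ((N.filter (fun n => E i n ∧ E j n)).card : ℝ) ≤
        (1 + δ) * N0 * (g i * g j + if i = j then g i else 0) := by
      intro i hi j hj
      by_cases hij : i = j
      · subst hij
        have h5 : (N.filter (fun n => E i n ∧ E i n)) = N.filter (fun n => E i n) := by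
          refine Finset.filter_congr fun n _ => ?_
          exact and_self_iff
        rw [h5, if_pos rfl]
        have h6 := (abs_le.1 (h1 i hi)).2
        have h7 : 0 ≤ (1 + δ) * N0 * (g i * g i) :=
          mul_nonneg (mul_nonneg (by linarith) hN0) (mul_self_nonneg _)
        nlinarith
      · rw [if_neg hij]
        have h6 := (abs_le.1 (h2 i hi j hj hij)).2
        linarith
    calc ∑ i ∈ P, ∑ j ∈ P, ((N.filter (fun n => E i n ∧ E j n)).card : ℝ)
        ≤ ∑ i ∈ P, ∑ j ∈ P, (1 + δ) * N0 * (g i * g j + if i = j then g i else 0) :=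
          Finset.sum_le_sum fun i hi => Finset.sum_le_sum fun j hj => h4 i hi j hj
      _ = (1 + δ) * N0 * (∑ i ∈ P, ∑ j ∈ P, (g i * g j + if i = j then g i else 0)) := by
          rw [Finset.mul_sum]
          refine Finset.sum_congr rfl fun i _ => ?_
          rw [Finset.mul_sum]
      _ = (1 + δ) * N0 * (μ ^ 2 + μ) := by
          congr 1
          simp_rw [Finset.sum_add_distrib]
          rw [sq, hμdef, Finset.sum_mul_sum]
          congr 1
          refine Finset.sum_congr rfl fun i hi => ?_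
          rw [Finset.sum_ite_eq, if_pos hi]
  have hB3 : (N.card : ℝ) ≤ (1 + δ) * N0 := by
    have := (abs_le.1 h0).2
    linarith
  set F := N.filter (fun n => ((P.filter (fun i => E i n)).card : ℝ) ≤ μ / 2) with hF
  have hV : ∑ n ∈ N, (((P.filter (fun i => E i n)).card : ℝ) - μ) ^ 2 ≤
      N0 * ((1 + δ) * μ + 4 * δ * μ ^ 2) := by
    have h8 : ∑ n ∈ N, (((P.filter (fun i => E i n)).card : ℝ) - μ) ^ 2 =
        ∑ n ∈ N, ((P.filter (fun i => E i n)).card : ℝ) ^ 2 -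
          2 * μ * ∑ n ∈ N, ((P.filter (fun i => E i n)).card : ℝ) + N.card * μ ^ 2 := by
      rw [Finset.mul_sum, ← Finset.sum_sub_distrib, ← nsmul_eq_mul, ← Finset.sum_const,
        ← Finset.sum_add_distrib]
      refine Finset.sum_congr rfl fun n _ => ?_
      ring
    rw [h8]
    have h9 : 2 * μ * ((1 - δ) * N0 * μ) ≤
        2 * μ * ∑ n ∈ N, ((P.filter (fun i => E i n)).card : ℝ) :=
      mul_le_mul_of_nonneg_left hB1 (by linarith)
    have h10 : (N.card : ℝ) * μ ^ 2 ≤ (1 + δ) * N0 * μ ^ 2 :=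
      mul_le_mul_of_nonneg_right hB3 (sq_nonneg _)
    nlinarith
  have hL : (F.card : ℝ) * (μ ^ 2 / 4) ≤
      ∑ n ∈ N, (((P.filter (fun i => E i n)).card : ℝ) - μ) ^ 2 := by
    calc (F.card : ℝ) * (μ ^ 2 / 4) = ∑ n ∈ F, μ ^ 2 / 4 := by
          rw [Finset.sum_const, nsmul_eq_mul]
      _ ≤ ∑ n ∈ F, (((P.filter (fun i => E i n)).card : ℝ) - μ) ^ 2 := by
          refine Finset.sum_le_sum fun n hn => ?_
          have h11 := (Finset.mem_filter.1 hn).2
          nlinarith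
      _ ≤ _ := Finset.sum_le_sum_of_subset_of_nonneg (Finset.filter_subset _ _)
          (fun _ _ _ => sq_nonneg _)
  have hfin : (F.card : ℝ) * (μ ^ 2 / 4) ≤ N0 * ((1 + δ) * μ + 4 * δ * μ ^ 2) := hL.trans hV
  have h12 : N0 * ((1 + δ) * μ + 4 * δ * μ ^ 2) ≤ (N0 * (8 / μ + 16 * δ)) * (μ ^ 2 / 4) := by
    have h13 : (N0 * (8 / μ + 16 * δ)) * (μ ^ 2 / 4) = N0 * (2 * μ + 4 * δ * μ ^ 2) := by
      field_simp
      ring
    rw [h13]
    refine mul_le_mul_of_nonneg_left ?_ hN0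
    nlinarith
  exact le_of_mul_le_mul_right (hfin.trans h12) (by positivity)

end Pool.Agent.Lib.MP_79499b_co.DZ
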