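import Pool.Agent.Lib.MP_79499b_co.DZ.LD
import Pool.Agent.Lib.SW.SWFinal

/-!
# DZ LM: sums of `1/w` over the primes of the range in residue classes

PROOF of `mert_ap`. `SW.theta_ap` with exponent `k = 5 (C + K + 2)` and partial summation with
`f n = 1/(n log n)`: if `|B n| ≤ δ n` for the partial sums `B` of `b` then
`|∑_{N1 < n ≤ N2} b n f n| ≤ δ (2 N1 f N1 + ∑ f)`, and `∑_{N1 < n ≤ N2} f n` differs from
`log log N2 - log log N1` by at most `1/N1`.
-/

set_option autoImplicit false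

namespace Pool.Agent.Lib.MP_79499b_co.DZ

open Finset Filter

/-- partial summation -/
theorem LM_abel (b f : ℕ → ℝ) (N1 N2 : ℕ) (h : N1 ≤ N2) :
    ∑ n ∈ Ioc N1 N2, b n * f n = (∑ n ∈ Icc 1 N2, b n) * f N2 - (∑ n ∈ Icc 1 N1, b n) * f N1 +
      ∑ n ∈ Ico N1 N2, (∑ i ∈ Icc 1 n, b i) * (f n - f (n + 1)) := by
  induction N2, h using Nat.le_induction with
  | base => simp
  | succ n hn ih =>
    rw [Finset.sum_Ioc_succ_top (by omega), ih, Finset.sum_Ico_succ_top hn,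
      Finset.sum_Icc_succ_top (by omega)]
    ring

theorem LM_bound (b f : ℕ → ℝ) (N1 N2 : ℕ) (h : N1 ≤ N2) (δ : ℝ)
    (hB : ∀ n, N1 ≤ n → n ≤ N2 → |∑ i ∈ Icc 1 n, b i| ≤ δ * n)
    (hf0 : ∀ n, N1 ≤ n → 0 ≤ f n) (hf : ∀ n, N1 ≤ n → f (n + 1) ≤ f n) :
    |∑ n ∈ Ioc N1 N2, b n * f n| ≤ δ * (2 * (N1 * f N1) + ∑ n ∈ Ioc N1 N2, f n) := by
  have h1 := LM_abel b f N1 N2 h
  have h2 := LM_abel (fun _ => 1) f N1 N2 h
  simp only [one_mul, Finset.sum_const, Nat.card_Icc, Nat.add_sub_cancel, nsmul_eq_mul, mul_one] at h2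
  have h3 : |∑ n ∈ Ico N1 N2, (∑ i ∈ Icc 1 n, b i) * (f n - f (n + 1))| ≤
      δ * ∑ n ∈ Ico N1 N2, (n : ℝ) * (f n - f (n + 1)) := by
    refine (abs_sum_le_sum_abs _ _).trans ?_
    rw [mul_sum]
    refine sum_le_sum fun n hn => ?_
    rw [mem_Ico] at hn
    have h4 := hf n hn.1
    rw [abs_mul, abs_of_nonneg (show 0 ≤ f n - f (n + 1) by linarith), ← mul_assoc]
    exact mul_le_mul_of_nonneg_right (hB n hn.1 hn.2.le) (by linarith)
  have h5 : |(∑ n ∈ Icc 1 N2, b n) * f N2| ≤ δ * (N2 * f N2) := by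
    rw [abs_mul, abs_of_nonneg (hf0 N2 h), ← mul_assoc]
    exact mul_le_mul_of_nonneg_right (hB N2 h le_rfl) (hf0 N2 h)
  have h6 : |(∑ n ∈ Icc 1 N1, b n) * f N1| ≤ δ * (N1 * f N1) := by
    rw [abs_mul, abs_of_nonneg (hf0 N1 le_rfl), ← mul_assoc]
    exact mul_le_mul_of_nonneg_right (hB N1 le_rfl h) (hf0 N1 le_rfl)
  rw [h1]
  have h7 : ∑ n ∈ Ico N1 N2, (n : ℝ) * (f n - f (n + 1)) =
      ∑ n ∈ Ioc N1 N2, f n - N2 * f N2 + N1 * f N1 := by linarith
  rw [h7] at h3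
  have h8 := abs_le.1 h3
  have h9 := abs_le.1 h5
  have h10 := abs_le.1 h6
  rw [abs_le]
  constructor <;> nlinarith [h8.1, h8.2, h9.1, h9.2, h10.1, h10.2]

/-- `1/(n log n)` -/
noncomputable def LMf (n : ℕ) : ℝ := 1 / (n * Real.log n)

theorem LM_up {n : ℕ} (hn : 2 ≤ n) :
    Real.log (Real.log (n + 1 : ℕ)) - Real.log (Real.log n) ≤ LMf n := by
  have hn0 : (0 : ℝ) < n := by exact_mod_cast (by omega : 0 < n)
  have h1 : 0 < Real.log n := Real.log_pos (by exact_mod_cast (by omega : 1 < n))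
  have h2 : Real.log ((n : ℝ) + 1) ≤ Real.log n + 1 / n := by
    have h3 : Real.log ((n : ℝ) + 1) - Real.log n = Real.log (1 + 1 / n) := by
      rw [← Real.log_div (by positivity) hn0.ne']
      congr 1
      field_simp
    have h4 := Real.log_le_sub_one_of_pos (show (0 : ℝ) < 1 + 1 / n by positivity)
    linarith
  have h5 : 0 < Real.log ((n : ℝ) + 1) := Real.log_pos (by linarith)
  push_cast
  rw [← Real.log_div h5.ne' h1.ne']
  have h6 := Real.log_le_sub_one_of_pos (show 0 < Real.log ((n : ℝ) + 1) / Real.log n by positivity)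
  refine h6.trans ?_
  unfold LMf
  have h7 : Real.log ((n : ℝ) + 1) / Real.log n ≤ (Real.log n + 1 / n) / Real.log n :=
    div_le_div_of_nonneg_right h2 h1.le
  have h8 : (Real.log n + 1 / n) / Real.log n = 1 + 1 / (n * Real.log n) := by field_simp
  linarith

theorem LM_lo {n : ℕ} (hn : 2 ≤ n) :
    LMf (n + 1) ≤ Real.log (Real.log (n + 1 : ℕ)) - Real.log (Real.log n) := by
  have hn0 : (0 : ℝ) < n := by exact_mod_cast (by omega : 0 < n)
  have h1 : 0 < Real.log n := Real.log_pos (by exact_mod_cast (by omega : 1 < n))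
  have h5 : 0 < Real.log ((n : ℝ) + 1) := Real.log_pos (by linarith)
  have h2 : Real.log n ≤ Real.log ((n : ℝ) + 1) - 1 / (n + 1) := by
    have h3 : Real.log n - Real.log ((n : ℝ) + 1) = Real.log (1 - 1 / (n + 1)) := by
      rw [← Real.log_div hn0.ne' (by positivity)]
      congr 1
      field_simp
      ring
    have h4 := Real.log_le_sub_one_of_pos (show (0 : ℝ) < 1 - 1 / (n + 1) by
      rw [sub_pos, div_lt_one (by positivity)]
      linarith)
    linarith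
  have h6 := Real.log_le_sub_one_of_pos (show 0 < Real.log n / Real.log ((n : ℝ) + 1) by positivity)
  rw [Real.log_div h1.ne' h5.ne'] at h6
  have h7 : Real.log n / Real.log ((n : ℝ) + 1) ≤
      (Real.log ((n : ℝ) + 1) - 1 / (n + 1)) / Real.log ((n : ℝ) + 1) :=
    div_le_div_of_nonneg_right h2 h5.le
  have h8 : (Real.log ((n : ℝ) + 1) - 1 / (n + 1)) / Real.log ((n : ℝ) + 1) =
      1 - 1 / ((n + 1) * Real.log ((n : ℝ) + 1)) := by field_simp
  unfold LMf
  push_cast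
  linarith

theorem LM_sum {N1 N2 : ℕ} (h1 : 2 ≤ N1) (h : N1 ≤ N2) :
    ∑ n ∈ Ioc N1 N2, LMf n ≤ Real.log (Real.log N2) - Real.log (Real.log N1) ∧
    Real.log (Real.log (N2 + 1 : ℕ)) - Real.log (Real.log (N1 + 1 : ℕ)) ≤ ∑ n ∈ Ioc N1 N2, LMf n := by
  induction N2, h using Nat.le_induction with
  | base => simp
  | succ n hn ih =>
    rw [Finset.sum_Ioc_succ_top (by omega)]
    have h2 := @LM_lo n (by omega)
    have h3 := @LM_up (n + 1) (by omega)
    constructor <;> linarith [ih.1, ih.2]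

theorem LMf_nonneg (n : ℕ) : 0 ≤ LMf n := by
  unfold LMf
  have := Real.log_natCast_nonneg n
  positivity

theorem LMf_anti {n : ℕ} (hn : 2 ≤ n) : LMf (n + 1) ≤ LMf n := by
  have := LM_lo hn
  have := LM_up hn
  linarith

/-- the main inequality, before the choice of the parameters -/
theorem LM_main (k : ℕ) : ∃ C₁ : ℝ, 0 < C₁ ∧ ∀ (N1 N2 Q b : ℕ), 2 ≤ N1 → N1 ≤ N2 → 1 ≤ Q →
    b.Coprime Q →
    |∑ w ∈ (Ioc N1 N2).filter (fun w => w.Prime ∧ w ≡ b [MOD Q]), 1 / (w : ℝ) -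
      (∑ n ∈ Ioc N1 N2, LMf n) / Q.totient| ≤
      C₁ * Q / Real.log N1 ^ k * (2 * (N1 * LMf N1) + ∑ n ∈ Ioc N1 N2, LMf n) := by
  obtain ⟨C₁, hC₁, hth⟩ := Pool.Agent.Lib.SW.theta_ap k 1 one_pos
  refine ⟨C₁, hC₁, ?_⟩
  intro N1 N2 Q b hN1 hN hQ hb
  set g : ℕ → ℝ := fun n => (if n.Prime ∧ n ≡ b [MOD Q] then Real.log n else 0) - 1 / Q.totient with hg
  have hlog1 : 0 < Real.log N1 := Real.log_pos (by exact_mod_cast (by omega : 1 < N1))
  have h1 := LM_bound g LMf N1 N2 hN (C₁ * Q / Real.log N1 ^ k) ?_ (fun n _ => LMf_nonneg n)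
    (fun n hn => LMf_anti (by omega))
  · refine le_trans (le_of_eq ?_) h1
    congr 1
    simp only [hg, sub_mul, Finset.sum_sub_distrib]
    congr 1
    · rw [sum_filter]
      refine sum_congr rfl fun n hn => ?_
      rw [mem_Ioc] at hn
      have h2 : 0 < Real.log n := Real.log_pos (by exact_mod_cast (by omega : 1 < n))
      have h3 : (0 : ℝ) < n := by exact_mod_cast (by omega : 0 < n)
      split_ifs
      · unfold LMf
        field_simp
      · simp
    · rw [← mul_sum]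
      ring
  · intro n hn _
    have h2 := hth Q b hQ hb (n : ℝ) (by exact_mod_cast (by omega : 2 ≤ n))
    rw [Nat.floor_natCast, Real.rpow_one] at h2
    have h3 : ∑ i ∈ Icc 1 n, g i = ∑ i ∈ (Icc 1 n).filter (fun i => i.Prime ∧ i ≡ b [MOD Q]),
        Real.log i - (n : ℝ) / Q.totient := by
      simp only [hg, Finset.sum_sub_distrib, sum_const, Nat.card_Icc, Nat.add_sub_cancel, nsmul_eq_mul]
      rw [sum_filter]
      ring
    rw [h3]
    refine h2.trans ?_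
    have h4 : Real.log N1 ≤ Real.log n := Real.log_le_log (by exact_mod_cast (by omega : 0 < N1))
      (by exact_mod_cast hn)
    have h5 : Real.log N1 ^ k ≤ Real.log n ^ k := pow_le_pow_left₀ hlog1.le h4 k
    calc C₁ * (Q : ℝ) * n / Real.log n ^ k ≤ C₁ * Q * n / Real.log N1 ^ k :=
          div_le_div_of_nonneg_left (by positivity) (by positivity) h5
      _ = C₁ * Q / Real.log N1 ^ k * n := by ring

theorem X1_pow (k : ℕ) (A : ℝ) : ∀ᶠ x : ℕ in atTop, A * Real.log x ^ k ≤ X1 x := by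
  have h1 : Tendsto (fun x : ℕ => Real.log (x : ℝ) ^ (2 / 5 : ℝ)) atTop atTop :=
    (tendsto_rpow_atTop (by norm_num)).comp log_tend
  have h2 := (Real.tendsto_exp_div_pow_atTop (3 * k)).comp h1
  filter_upwards [h2.eventually_ge_atTop |A|, h1.eventually_ge_atTop 1,
    log_tend.eventually_ge_atTop 1] with x hx hx1 hlog
  simp only [Function.comp] at hx
  unfold X1
  rw [le_div_iff₀ (by positivity)] at hx
  have h3 : Real.log (x : ℝ) ^ k ≤ (Real.log (x : ℝ) ^ (2 / 5 : ℝ)) ^ (3 * k) := by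
    rw [← Real.rpow_natCast (Real.log (x : ℝ)) k, ← Real.rpow_mul_natCast (by linarith)]
    refine Real.rpow_le_rpow_of_exponent_le hlog ?_
    push_cast
    nlinarith [(Nat.cast_nonneg k : (0 : ℝ) ≤ k)]
  calc A * Real.log x ^ k ≤ |A| * Real.log x ^ k :=
        mul_le_mul_of_nonneg_right (le_abs_self A) (by positivity)
    _ ≤ |A| * (Real.log (x : ℝ) ^ (2 / 5 : ℝ)) ^ (3 * k) :=
        mul_le_mul_of_nonneg_left h3 (abs_nonneg A)
    _ ≤ _ := hx

theorem X1_le_X2 : ∀ᶠ x : ℕ in atTop, X1 x ≤ X2 x := by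
  filter_upwards [log_tend.eventually_ge_atTop 1] with x hx
  unfold X1 X2
  exact Real.exp_le_exp.2 (Real.rpow_le_rpow_of_exponent_le hx (by norm_num))

/-- the sum of `LMf` over the range -/
theorem LM_LL : ∀ᶠ x : ℕ in atTop, 3 ≤ ⌊X1 x⌋₊ ∧ ⌊X1 x⌋₊ ≤ ⌊X2 x⌋₊ ∧
    |∑ n ∈ Ioc ⌊X1 x⌋₊ ⌊X2 x⌋₊, LMf n - 1 / 20 * LL x| ≤ 1 / ⌊X1 x⌋₊ := by
  filter_upwards [X1_pow 0 4, X1_le_X2, log_tend.eventually_ge_atTop 2] with x h1 h2 h3
  have h4 : 3 ≤ ⌊X1 x⌋₊ := Nat.le_floor (by push_cast; simp at h1; linarith)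
  have h5 : ⌊X1 x⌋₊ ≤ ⌊X2 x⌋₊ := Nat.floor_le_floor h2
  refine ⟨h4, h5, ?_⟩
  obtain ⟨h6, h7⟩ := @LM_sum ⌊X1 x⌋₊ ⌊X2 x⌋₊ (by omega) h5
  have h8 := @LM_up ⌊X1 x⌋₊ (by omega)
  have hlx : 0 < Real.log (x : ℝ) := by linarith
  have hX1 : Real.log (Real.log (X1 x)) = 2 / 5 * LL x := by
    unfold X1 LL
    rw [Real.log_exp, Real.log_rpow hlx]
  have hX2 : Real.log (Real.log (X2 x)) = 9 / 20 * LL x := by
    unfold X2 LL
    rw [Real.log_exp, Real.log_rpow hlx]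
  have hx1pos : 0 < X1 x := Real.exp_pos _
  have hx2pos : 0 < X2 x := Real.exp_pos _
  have h3' : (3 : ℝ) ≤ (⌊X1 x⌋₊ : ℝ) := by exact_mod_cast h4
  have h5' : (⌊X1 x⌋₊ : ℝ) ≤ (⌊X2 x⌋₊ : ℝ) := by exact_mod_cast h5
  have hf1 := Nat.floor_le hx1pos.le
  have hf2 := Nat.floor_le hx2pos.le
  have hg1 := Nat.lt_floor_add_one (X1 x)
  have hg2 := Nat.lt_floor_add_one (X2 x)
  have key : ∀ {u v : ℝ}, 3 ≤ u → u ≤ v → Real.log (Real.log u) ≤ Real.log (Real.log v) := by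
    intro u v hu huv
    exact Real.log_le_log (Real.log_pos (by linarith)) (Real.log_le_log (by linarith) huv)
  have h9 := key (by linarith : (3 : ℝ) ≤ X1 x) hg1.le
  have h10 := key (by linarith : (3 : ℝ) ≤ (⌊X2 x⌋₊ : ℝ)) hf2
  have h11 := key h3' hf1
  have h12 := key (by linarith : (3 : ℝ) ≤ X2 x) hg2.le
  push_cast at h7 h8
  have h13 : LMf ⌊X1 x⌋₊ ≤ 1 / ⌊X1 x⌋₊ := by
    unfold LMf
    have h14 : 1 ≤ Real.log (⌊X1 x⌋₊ : ℝ) := by
      rw [← Real.log_exp 1]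
      exact Real.log_le_log (Real.exp_pos 1) (by linarith [Real.exp_one_lt_d9])
    exact one_div_le_one_div_of_le (by linarith) (by nlinarith)
  rw [abs_le]
  constructor <;> linarith

/-- sums of `1/w` over the primes of the range in residue classes -/
theorem mert_ap (C K : ℕ) : ∃ x₀ : ℕ, ∀ x ≥ x₀, ∀ Q b : ℕ, 1 ≤ Q → (Q : ℝ) ≤ Real.log x ^ C →
    b.Coprime Q →
    |∑ w ∈ (RR x).filter (fun w => w ≡ b [MOD Q]), 1 / (w : ℝ) - 1 / 20 * LL x / Q.totient| ≤
      (Real.log x ^ K)⁻¹ := by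
  obtain ⟨C₁, hC₁, hmain⟩ := LM_main (5 * (C + K + 2))
  rw [← Filter.eventually_atTop]
  filter_upwards [LM_LL, X1_pow (K + 1) 4, log_tend.eventually_ge_atTop 8,
    log_tend.eventually_ge_atTop (C₁ * 2 ^ (5 * (C + K + 2)) * 4), LL_tend.eventually_ge_atTop 1,
    X1_pow 0 4] with x h1 h2 h3 h4 h5 hX14
  intro Q b hQ hQC hb
  obtain ⟨h6, h7, h8⟩ := h1
  set N1 := ⌊X1 x⌋₊ with hN1
  set N2 := ⌊X2 x⌋₊ with hN2
  have h9 := hmain N1 N2 Q b (by omega) h7 hQ hb
  have hset : (RR x).filter (fun w => w ≡ b [MOD Q]) =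
      (Ioc N1 N2).filter (fun w => w.Prime ∧ w ≡ b [MOD Q]) := by
    ext w
    simp only [mem_filter, mem_RR, Rg, mem_Ioc]
    constructor
    · rintro ⟨⟨hw, hw1, hw2⟩, hwb⟩
      exact ⟨⟨(Nat.floor_lt (Real.exp_pos _).le).2 hw1, Nat.le_floor hw2⟩, hw, hwb⟩
    · rintro ⟨⟨hw1, hw2⟩, hw, hwb⟩
      exact ⟨⟨hw, (Nat.floor_lt (Real.exp_pos _).le).1 hw1,
        (Nat.le_floor_iff (Real.exp_pos _).le).1 hw2⟩, hwb⟩
  rw [hset]
  set F := ∑ n ∈ Ioc N1 N2, LMf n with hF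
  have hl0 : 0 < Real.log (x : ℝ) := by linarith
  have hN10 : (3 : ℝ) ≤ (N1 : ℝ) := by exact_mod_cast h6
  have hfl : X1 x - 1 ≤ (N1 : ℝ) := by
    have := Nat.lt_floor_add_one (X1 x)
    linarith
  -- log N1
  have hlogN1 : 1 / 2 * Real.log x ^ (2 / 5 : ℝ) ≤ Real.log N1 := by
    have h10 : X1 x ≤ (N1 : ℝ) ^ 2 := by nlinarith
    have h11 := Real.log_le_log (Real.exp_pos _) h10
    rw [Real.log_pow, Real.log_exp] at h11
    push_cast at h11
    linarith
  have hlogN1pos : 1 ≤ Real.log (N1 : ℝ) := by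
    rw [← Real.log_exp 1]
    exact Real.log_le_log (Real.exp_pos 1) (by linarith [Real.exp_one_lt_d9])
  have hpow : (Real.log x) ^ (2 * (C + K + 2)) / 2 ^ (5 * (C + K + 2)) ≤
      Real.log N1 ^ (5 * (C + K + 2)) := by
    have h10 : (1 / 2 * Real.log x ^ (2 / 5 : ℝ)) ^ (5 * (C + K + 2)) ≤
        Real.log N1 ^ (5 * (C + K + 2)) := pow_le_pow_left₀ (by positivity) hlogN1 _
    refine le_trans (le_of_eq ?_) h10
    rw [mul_pow, ← Real.rpow_mul_natCast hl0.le]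
    rw [← Real.rpow_natCast (Real.log (x : ℝ)) (2 * (C + K + 2))]
    have : (2 / 5 : ℝ) * ((5 * (C + K + 2) : ℕ) : ℝ) = ((2 * (C + K + 2) : ℕ) : ℝ) := by
      push_cast
      ring
    rw [this]
    rw [div_eq_mul_inv, one_div, inv_pow]
    ring
  -- F ≤ log x
  have hF0 : 0 ≤ F := sum_nonneg fun n _ => LMf_nonneg n
  have h8' := abs_le.1 h8
  have hinv : (1 : ℝ) / N1 ≤ 1 := by
    rw [div_le_one (by linarith)]
    linarith
  have hLLlog : LL x ≤ Real.log x := by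
    unfold LL
    have := Real.log_le_sub_one_of_pos hl0
    linarith
  have hNf : (N1 : ℝ) * LMf N1 ≤ 1 := by
    unfold LMf
    have h12 : (N1 : ℝ) * (1 / (N1 * Real.log N1)) = 1 / Real.log N1 := by
      have : (N1 : ℝ) ≠ 0 := by linarith
      field_simp
    rw [h12, div_le_one (by linarith)]
    exact hlogN1pos
  have hsum : 2 * (N1 * LMf N1) + F ≤ Real.log x := by linarith
  -- first part of the error
  have hE1 : C₁ * Q / Real.log N1 ^ (5 * (C + K + 2)) * (2 * (N1 * LMf N1) + F) ≤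
      (Real.log x ^ K)⁻¹ / 4 := by
    have h13 : C₁ * Q / Real.log N1 ^ (5 * (C + K + 2)) ≤
        C₁ * Real.log x ^ C / ((Real.log x) ^ (2 * (C + K + 2)) / 2 ^ (5 * (C + K + 2))) := by
      apply div_le_div₀ (by positivity) (mul_le_mul_of_nonneg_left hQC hC₁.le) (by positivity) hpow
    have h14 : 0 ≤ 2 * (N1 * LMf N1) + F := by
      have := LMf_nonneg N1
      positivity
    refine (mul_le_mul h13 hsum h14 (by positivity)).trans ?_
    have h15 : C₁ * Real.log x ^ C / ((Real.log x) ^ (2 * (C + K + 2)) / 2 ^ (5 * (C + K + 2))) *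
        Real.log x = (C₁ * 2 ^ (5 * (C + K + 2)) * 4) * (1 / 4) * (Real.log x ^ (C + 1) /
          Real.log x ^ (2 * (C + K + 2))) := by
      rw [pow_succ]
      field_simp
    rw [h15]
    have h16 : Real.log x ^ (C + 1) / Real.log x ^ (2 * (C + K + 2)) ≤
        (Real.log x ^ K)⁻¹ * (Real.log x)⁻¹ := by
      rw [← mul_inv, ← pow_succ, div_le_iff₀ (by positivity)]
      have h17 : Real.log x ^ (2 * (C + K + 2)) = Real.log x ^ (K + 1) * Real.log x ^ (2 * C + K + 3) := by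
        rw [← pow_add]
        congr 1
        ring
      rw [h17, ← mul_assoc, inv_mul_cancel₀ (by positivity), one_mul]
      exact pow_le_pow_right₀ (by linarith) (by omega)
    have h18 : C₁ * 2 ^ (5 * (C + K + 2)) * 4 * (1 / 4) * (Real.log x ^ (C + 1) /
        Real.log x ^ (2 * (C + K + 2))) ≤ Real.log x * (1 / 4) *
        ((Real.log x ^ K)⁻¹ * (Real.log x)⁻¹) := by
      apply mul_le_mul _ h16 (by positivity) (by positivity)
      linarith
    refine h18.trans (le_of_eq ?_)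
    field_simp
  -- second part
  have hφ : (1 : ℝ) ≤ Q.totient := by exact_mod_cast Nat.totient_pos.2 (by omega)
  have hE2 : |F / Q.totient - 1 / 20 * LL x / Q.totient| ≤ (Real.log x ^ K)⁻¹ / 2 := by
    rw [← sub_div, abs_div, abs_of_pos (by linarith : (0 : ℝ) < Q.totient)]
    refine (div_le_self (abs_nonneg _) hφ).trans (h8.trans ?_)
    have h19 : 2 * Real.log x ^ K ≤ N1 := by
      have h20 : Real.log x ^ (K + 1) = Real.log x ^ K * Real.log x := pow_succ _ _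
      have h21 : 1 ≤ Real.log x ^ K := one_le_pow₀ (by linarith)
      rw [h20] at h2
      nlinarith
    have h22 : (1 : ℝ) / N1 ≤ 1 / (2 * Real.log x ^ K) :=
      one_div_le_one_div_of_le (by positivity) h19
    refine h22.trans (le_of_eq ?_)
    field_simp
  have hK0 : 0 < (Real.log x ^ K)⁻¹ := by positivity
  have h23 := abs_le.1 (h9.trans hE1)
  have h24 := abs_le.1 hE2
  rw [abs_le]
  constructor <;> linarith [h23.1, h23.2, h24.1, h24.2]

end Pool.Agent.Lib.MP_79499b_co.DZ
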