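import Pool.Agent.Lib.MP_79499b_co.DZ.LS
import Pool.Agent.Lib.MP_79499b_co.DZ.LMe
import Pool.Agent.Lib.MP_79499b_co.DZ.LSz
import Pool.Agent.Lib.MP_79499b_co.DZ.LT

/-!
# DZ LQ: the exceptional pairs are sparse

PROOF. `BQ_card`: `few` with `j = 1`, `P = 2^i`, `Q = ⌊X2^2⌋`, `Q^2 ≤ X2^4 ≤ X2^8 ≤ 2^i`: at most
`24/τ^2 = 24 (log x)^8` for each `i ∈ JJ x`, and `#JJ ≤ log2 (zz x) + 1 ≤ 3 log x`; so at most `72 (log x)^9 ≤ (log x)^10`.
`SE_sum`: pairs with `w1 ∈ BQ`: `∑_{w1 ∈ BQ} 1/w1 ∑_{w2} 1/w2 ≤ (log x)^10 / X1 · LL x` (`w1 > X1`), the same for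
`w2`; pairs with `w1 w2 = q ∈ BQ`: `(w1,w2) ↦ (q, w1)`, `w1 ∈ q.primeFactors`, at most `log2 q ≤ log x` values,
`1/(w1 w2) ≤ X1^(-2)`: `≤ (log x)^11/X1^2`. All are `≤ 1/(3 LL x)` by `X1_pow`.
-/

set_option autoImplicit false

namespace Pool.Agent.Lib.MP_79499b_co.DZ

open Finset Filter
open scoped Classical

theorem zz_small : ∀ᶠ x : ℕ in atTop, zz x ≤ x := by
  filter_upwards [rpow_small (a := 9 / 10) (b := 1) (by norm_num) (show (0 : ℝ) < 1 by norm_num),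
    eventually_gt_atTop 0] with x h1 h0
  have hx0 : (0 : ℝ) < x := by exact_mod_cast h0
  unfold zz
  refine Nat.floor_le_of_le ?_
  rw [Real.rpow_one, one_mul] at h1
  calc Real.exp (Real.log x ^ (9 / 10 : ℝ)) ≤ Real.exp (Real.log x) := Real.exp_le_exp.2 h1
    _ = x := Real.exp_log hx0

theorem BQ_card : ∀ᶠ x : ℕ in atTop, ((BQ x).card : ℝ) ≤ Real.log x ^ 10 := by
  filter_upwards [zz_small, log_tend.eventually_ge_atTop 100, eventually_ge_atTop 2,
    X1_pow 0 8, X1_le_X2] with x hzz hlog hx2 hX1 hX12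
  have hX18 : 8 ≤ X1 x := by simpa using hX1
  have hlx : 0 < Real.log (x : ℝ) := by linarith
  set L := Real.log (x : ℝ) with hL
  have hτ : 0 < tau x := by unfold tau; positivity
  have h1 : BQ x ⊆ (JJ x).biUnion (fun i => (Icc 1 ⌊X2 x ^ 2⌋₊).filter
      (fun q => Bd (2 ^ i) (tau x) q)) := by
    intro q hq
    unfold BQ at hq
    rw [mem_filter] at hq
    obtain ⟨h2, i, hi, hb⟩ := hq
    rw [mem_biUnion]
    exact ⟨i, hi, mem_filter.2 ⟨h2, hb⟩⟩
  have h2 : ((BQ x).card : ℝ) ≤ ∑ i ∈ JJ x, (((Icc 1 ⌊X2 x ^ 2⌋₊).filter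
      (fun q => Bd (2 ^ i) (tau x) q)).card : ℝ) := by
    have := (card_le_card h1).trans card_biUnion_le
    exact_mod_cast this
  have h3 : ∀ i ∈ JJ x, (((Icc 1 ⌊X2 x ^ 2⌋₊).filter
      (fun q => Bd (2 ^ i) (tau x) q)).card : ℝ) ≤ 24 * L ^ 8 := by
    intro i hi
    unfold JJ at hi
    rw [mem_filter, mem_range] at hi
    have hQ : ⌊X2 x ^ 2⌋₊ ^ 2 ≤ (2 ^ i) ^ 1 := by
      rw [pow_one]
      have h4 : (⌊X2 x ^ 2⌋₊ : ℝ) ≤ X2 x ^ 2 := Nat.floor_le (by positivity)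
      have h5 : ((⌊X2 x ^ 2⌋₊ ^ 2 : ℕ) : ℝ) ≤ ((2 ^ i : ℕ) : ℝ) := by
        push_cast
        calc (⌊X2 x ^ 2⌋₊ : ℝ) ^ 2 ≤ (X2 x ^ 2) ^ 2 := pow_le_pow_left₀ (Nat.cast_nonneg _) h4 2
          _ = X2 x ^ 4 := by ring
          _ ≤ X2 x ^ 8 := pow_le_pow_right₀ (by linarith) (by norm_num)
          _ ≤ 2 ^ i := hi.2
      exact_mod_cast h5
    have h6 := few (2 ^ i) ⌊X2 x ^ 2⌋₊ 1 Nat.one_le_two_pow le_rfl hQ (tau x) hτ
    refine h6.trans (le_of_eq ?_)
    unfold tau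
    rw [← hL]
    simp only [Nat.factorial_one, Nat.cast_one, pow_one, mul_one]
    rw [inv_pow, div_inv_eq_mul, ← pow_mul]
    norm_num
  have h4 : ((JJ x).card : ℝ) ≤ 3 * L := by
    refine le_trans ?_ (DI_card_le (a := 0) hx2)
    refine Nat.cast_le.mpr (card_le_card ?_)
    intro i hi
    unfold JJ at hi
    unfold DI
    rw [mem_filter, mem_range] at hi ⊢
    refine ⟨lt_of_lt_of_le hi.1 ?_, by positivity⟩
    have := Nat.log_mono_right (b := 2) hzz
    omega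
  calc ((BQ x).card : ℝ) ≤ ∑ i ∈ JJ x, 24 * L ^ 8 := h2.trans (sum_le_sum h3)
    _ = (JJ x).card * (24 * L ^ 8) := by rw [sum_const, nsmul_eq_mul]
    _ ≤ (3 * L) * (24 * L ^ 8) := mul_le_mul_of_nonneg_right h4 (by positivity)
    _ = 72 * L ^ 9 := by ring
    _ ≤ L * L ^ 9 := mul_le_mul_of_nonneg_right (by linarith) (by positivity)
    _ = L ^ 10 := by ring

theorem SE_sum : ∀ᶠ x : ℕ in atTop, ∑ w ∈ SE x, 1 / ((w.1 : ℝ) * w.2) ≤ 1 / LL x := by
  filter_upwards [BQ_card, RR_sum_le, log_tend.eventually_ge_atTop 100, LL_tend.eventually_ge_atTop 1,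
    X1_pow 12 3, X1_pow 0 8, X2_small 2 (show (0 : ℝ) < 1 / 4 by norm_num),
    eventually_ge_atTop 2] with x hBQ hRR hlog hLL hX1 hX18' hX2 hx2
  have hX18 : 8 ≤ X1 x := by simpa using hX18'
  have hlx : 0 < Real.log (x : ℝ) := by linarith
  have hLLlog := LL_le_log (x := x) hlx
  set L := Real.log (x : ℝ) with hL
  have hx0 : (0 : ℝ) < x := by exact_mod_cast (by omega : 0 < x)
  -- sum over w in RR and BQ
  have h1 : ∑ w ∈ (RR x).filter (fun w => w ∈ BQ x), 1 / (w : ℝ) ≤ L ^ 10 / X1 x := by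
    have h2 : ∀ w ∈ (RR x).filter (fun w => w ∈ BQ x), 1 / (w : ℝ) ≤ 1 / X1 x := by
      intro w hw
      rw [mem_filter, mem_RR] at hw
      exact one_div_le_one_div_of_le (by linarith) hw.1.2.1.le
    refine (sum_le_sum h2).trans ?_
    rw [sum_const, nsmul_eq_mul, mul_one_div]
    refine div_le_div_of_nonneg_right ?_ (by linarith)
    refine le_trans ?_ hBQ
    refine Nat.cast_le.mpr (card_le_card ?_)
    intro w hw
    exact (mem_filter.1 hw).2
  have h2 : ∑ w ∈ (RR x ×ˢ RR x).filter (fun w : ℕ × ℕ => w.1 ∈ BQ x), 1 / ((w.1 : ℝ) * w.2) ≤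
      L ^ 10 / X1 x * LL x := by
    have h3 : (RR x ×ˢ RR x).filter (fun w : ℕ × ℕ => w.1 ∈ BQ x) =
        ((RR x).filter (fun w => w ∈ BQ x)) ×ˢ (RR x) := by
      ext w
      simp only [mem_filter, mem_product]
      tauto
    rw [h3, sum_product]
    have h4 : ∀ a ∈ (RR x).filter (fun w => w ∈ BQ x), ∑ b ∈ RR x, 1 / ((a : ℝ) * b) ≤
        1 / (a : ℝ) * LL x := by
      intro a _
      have : ∑ b ∈ RR x, 1 / ((a : ℝ) * b) = 1 / (a : ℝ) * ∑ b ∈ RR x, 1 / (b : ℝ) := by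
        rw [mul_sum]
        exact sum_congr rfl fun b _ => by rw [one_div_mul_one_div]
      rw [this]
      exact mul_le_mul_of_nonneg_left hRR (by positivity)
    refine (sum_le_sum h4).trans ?_
    rw [← sum_mul]
    exact mul_le_mul_of_nonneg_right h1 (by linarith)
  have h3 : ∑ w ∈ (RR x ×ˢ RR x).filter (fun w : ℕ × ℕ => w.2 ∈ BQ x), 1 / ((w.1 : ℝ) * w.2) ≤
      L ^ 10 / X1 x * LL x := by
    have h3 : (RR x ×ˢ RR x).filter (fun w : ℕ × ℕ => w.2 ∈ BQ x) =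
        (RR x) ×ˢ ((RR x).filter (fun w => w ∈ BQ x)) := by
      ext w
      simp only [mem_filter, mem_product]
      tauto
    rw [h3, sum_product_right]
    have h4 : ∀ a ∈ (RR x).filter (fun w => w ∈ BQ x), ∑ b ∈ RR x, 1 / ((b : ℝ) * a) ≤
        1 / (a : ℝ) * LL x := by
      intro a _
      have : ∑ b ∈ RR x, 1 / ((b : ℝ) * a) = 1 / (a : ℝ) * ∑ b ∈ RR x, 1 / (b : ℝ) := by
        rw [mul_sum]
        exact sum_congr rfl fun b _ => by rw [one_div_mul_one_div, mul_comm]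
      rw [this]
      exact mul_le_mul_of_nonneg_left hRR (by positivity)
    refine (sum_le_sum h4).trans ?_
    rw [← sum_mul]
    exact mul_le_mul_of_nonneg_right h1 (by linarith)
  have h4 : ∑ w ∈ (RR x ×ˢ RR x).filter (fun w : ℕ × ℕ => w.1 * w.2 ∈ BQ x),
      1 / ((w.1 : ℝ) * w.2) ≤ L ^ 11 / X1 x := by
    have h5 : ∀ w ∈ (RR x ×ˢ RR x).filter (fun w : ℕ × ℕ => w.1 * w.2 ∈ BQ x),
        1 / ((w.1 : ℝ) * w.2) ≤ 1 / X1 x := by
      intro w hw
      rw [mem_filter, mem_product, mem_RR, mem_RR] at hw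
      refine one_div_le_one_div_of_le (by linarith) ?_
      have h6 := hw.1.1.2.1
      have h7 := hw.1.2.2.1
      nlinarith
    refine (sum_le_sum h5).trans ?_
    rw [sum_const, nsmul_eq_mul, mul_one_div]
    refine div_le_div_of_nonneg_right ?_ (by linarith)
    have h6 : ((RR x ×ˢ RR x).filter (fun w : ℕ × ℕ => w.1 * w.2 ∈ BQ x)).card ≤
        ∑ q ∈ BQ x, q.primeFactors.card := by
      have h7 : ((RR x ×ˢ RR x).filter (fun w : ℕ × ℕ => w.1 * w.2 ∈ BQ x)).card ≤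
          ((BQ x).sigma (fun q => q.primeFactors)).card := by
        refine card_le_card_of_injOn (fun w => ⟨w.1 * w.2, w.1⟩) ?_ ?_
        · intro w hw
          rw [mem_coe, mem_filter, mem_product, mem_RR, mem_RR] at hw
          rw [mem_coe, mem_sigma]
          refine ⟨hw.2, Nat.mem_primeFactors.2 ⟨hw.1.1.1, dvd_mul_right _ _, ?_⟩⟩
          exact mul_ne_zero hw.1.1.1.ne_zero hw.1.2.1.ne_zero
        · intro a ha b hb hab
          rw [mem_coe, mem_filter, mem_product, mem_RR, mem_RR] at ha hb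
          simp only [Sigma.mk.injEq, heq_eq_eq] at hab
          have h8 : a.2 = b.2 := by
            have h9 := hab.1
            rw [hab.2] at h9
            exact Nat.eq_of_mul_eq_mul_left hb.1.1.1.pos h9
          exact Prod.ext hab.2 h8
      rwa [card_sigma] at h7
    have h7 : ∀ q ∈ BQ x, (q.primeFactors.card : ℝ) ≤ L := by
      intro q hq
      unfold BQ at hq
      rw [mem_filter, mem_Icc] at hq
      have hq0 : q ≠ 0 := by omega
      have h8 : 2 ^ q.primeFactors.card ≤ q := by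
        calc 2 ^ q.primeFactors.card = ∏ _p ∈ q.primeFactors, 2 := by rw [prod_const]
          _ ≤ ∏ p ∈ q.primeFactors, p := prod_le_prod' fun p hp => (Nat.prime_of_mem_primeFactors hp).two_le
          _ ≤ q := Nat.le_of_dvd (Nat.pos_of_ne_zero hq0) (Nat.prod_primeFactors_dvd q)
      have h9 : (q : ℝ) ≤ (x : ℝ) ^ (1 / 4 : ℝ) :=
        ((by exact_mod_cast hq.1.2 : (q : ℝ) ≤ ⌊X2 x ^ 2⌋₊).trans (Nat.floor_le (by positivity))).trans hX2
      have h10 : (2 : ℝ) ^ q.primeFactors.card ≤ (x : ℝ) ^ (1 / 4 : ℝ) :=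
        (by exact_mod_cast h8 : (2 : ℝ) ^ q.primeFactors.card ≤ q).trans h9
      have h11 := Real.log_le_log (by positivity) h10
      rw [Real.log_pow, Real.log_rpow hx0] at h11
      have h12 := Real.log_two_gt_d9
      have h13 : (0 : ℝ) ≤ q.primeFactors.card := Nat.cast_nonneg _
      nlinarith
    calc (((RR x ×ˢ RR x).filter (fun w : ℕ × ℕ => w.1 * w.2 ∈ BQ x)).card : ℝ) ≤
        ∑ q ∈ BQ x, (q.primeFactors.card : ℝ) := by exact_mod_cast h6
      _ ≤ ∑ q ∈ BQ x, L := sum_le_sum h7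
      _ = (BQ x).card * L := by rw [sum_const, nsmul_eq_mul]
      _ ≤ L ^ 10 * L := mul_le_mul_of_nonneg_right hBQ hlx.le
      _ = L ^ 11 := by ring
  -- union
  have h5 : ∑ w ∈ SE x, 1 / ((w.1 : ℝ) * w.2) ≤
      ∑ w ∈ (RR x ×ˢ RR x).filter (fun w : ℕ × ℕ => w.1 ∈ BQ x), 1 / ((w.1 : ℝ) * w.2) +
      ∑ w ∈ (RR x ×ˢ RR x).filter (fun w : ℕ × ℕ => w.2 ∈ BQ x), 1 / ((w.1 : ℝ) * w.2) +
      ∑ w ∈ (RR x ×ˢ RR x).filter (fun w : ℕ × ℕ => w.1 * w.2 ∈ BQ x), 1 / ((w.1 : ℝ) * w.2) := by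
    unfold SE
    rw [sum_filter, sum_filter, sum_filter, sum_filter, ← sum_add_distrib, ← sum_add_distrib]
    refine sum_le_sum fun w _ => ?_
    have h6 : (0 : ℝ) ≤ 1 / ((w.1 : ℝ) * w.2) := by positivity
    by_cases ha : w.1 ∈ BQ x <;> by_cases hb : w.2 ∈ BQ x <;> by_cases hc : w.1 * w.2 ∈ BQ x <;>
      simp only [ha, hb, hc, if_true, if_false, or_true, or_false, true_or, false_or, and_true,
        and_false] <;> (try split_ifs) <;> linarith
  refine h5.trans ((add_le_add (add_le_add h2 h3) h4).trans ?_)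
  have h6 : (0 : ℝ) < X1 x := by linarith
  rw [le_div_iff₀ (by linarith), div_mul_eq_mul_div, ← add_div, ← add_div, div_mul_eq_mul_div,
    div_le_one h6]
  refine le_trans ?_ hX1
  have h7 : L ^ 10 * LL x ≤ L ^ 11 := by
    calc L ^ 10 * LL x ≤ L ^ 10 * L := mul_le_mul_of_nonneg_left hLLlog (by positivity)
      _ = L ^ 11 := by ring
  have h8 : (0 : ℝ) < L ^ 11 := by positivity
  calc (L ^ 10 * LL x + L ^ 10 * LL x + L ^ 11) * LL x ≤ (3 * L ^ 11) * L := by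
        apply mul_le_mul (by linarith) hLLlog (by linarith) (by positivity)
    _ = 3 * L ^ 12 := by ring

end Pool.Agent.Lib.MP_79499b_co.DZ
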