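import Pool.Agent.Lib.MP_79499b_co.DZ.LDef
import Pool.Agent.Lib.BV.LSM

/-!
# DZ LS: few conductors have a large block sum

PROOF. `rj P j n`: the number of ordered representations of `n` as product of `j` primes of `(P,2P]`.
(1) `rj P j n ≠ 0` gives `P^j ≤ n ≤ (2P)^j`, `n ≠ 0` and `n.primeFactorsList.length = j`; hence
`rj P j n ≤ j!` (at most `j` primes divide `n`, induction). (2) for `f (p k) = f p * f k` and `N ≥ (2P)^j`:
`∑_{n ∈ Icc 1 N} rj P j n f n = (∑_{p ∈ Bl P} f p)^j`. (3) with `a n = rj P j n / n`: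
`∑ |a n|^2 ≤ j!/P^j ∑ rj P j n / n = j!/P^j (∑ 1/p)^j ≤ j!/P^j` (`∑_{Bl P} 1/p ≤ 1`).
(4) the indicator is `≤ ‖SP P χ‖^(2j)/τ^(2j)`, `(SP P χ)^j = ∑ a n χ n`, and `BV.large_sieve_mul Q ((2P)^j) a`
(with `q/φ(q) ≥ 1`) gives `6 ((2P)^j + Q^2) (j!/P^j) / τ^(2j) ≤ 12 2^j j! / τ^(2j)`.
-/

set_option autoImplicit false

namespace Pool.Agent.Lib.MP_79499b_co.DZ

open Finset
open scoped Classical

/-- ordered representations as a product of `j` primes of the block -/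
def rj (P : ℕ) : ℕ → ℕ → ℕ
  | 0, n => if n = 1 then 1 else 0
  | (j + 1), n => ∑ p ∈ Bl P, if p ∣ n then rj P j (n / p) else 0

theorem rj_prop (P : ℕ) : ∀ (j n : ℕ), rj P j n ≠ 0 →
    P ^ j ≤ n ∧ n ≤ (2 * P) ^ j ∧ n ≠ 0 ∧ n.primeFactorsList.length = j := by
  intro j
  induction j with
  | zero =>
    intro n h
    have : n = 1 := by
      by_contra h1
      exact h (by simp [rj, h1])
    subst this
    simp
  | succ j ih =>
    intro n h
    have h1 : ∃ p ∈ Bl P, p ∣ n ∧ rj P j (n / p) ≠ 0 := by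
      by_contra h2
      push Not at h2
      apply h
      rw [rj]
      refine sum_eq_zero fun p hp => ?_
      split_ifs with h3
      · exact h2 p hp h3
      · rfl
    obtain ⟨p, hp, ⟨k, rfl⟩, h2⟩ := h1
    rw [mem_Bl] at hp
    rw [Nat.mul_div_cancel_left k hp.2.pos] at h2
    obtain ⟨h3, h4, h5, h6⟩ := ih k h2
    refine ⟨?_, ?_, mul_ne_zero hp.2.ne_zero h5, ?_⟩
    · rw [pow_succ, mul_comm]
      exact Nat.mul_le_mul hp.1.1.le h3
    · calc p * k ≤ (2 * P) * (2 * P) ^ j := Nat.mul_le_mul hp.1.2 h4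
        _ = (2 * P) ^ (j + 1) := (pow_succ' _ _).symm
    · rw [(Nat.perm_primeFactorsList_mul hp.2.ne_zero h5).length_eq, List.length_append, h6,
        Nat.primeFactorsList_prime hp.2]
      simp
      ring

theorem rj_le (P : ℕ) : ∀ (j n : ℕ), rj P j n ≤ j.factorial := by
  intro j
  induction j with
  | zero =>
    intro n
    simp only [rj, Nat.factorial_zero]
    split_ifs <;> omega
  | succ j ih =>
    intro n
    by_cases h0 : rj P (j + 1) n = 0
    · rw [h0]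
      exact Nat.zero_le _
    obtain ⟨_, _, h3, h4⟩ := rj_prop P (j + 1) n h0
    have h5 : rj P (j + 1) n ≤ ∑ p ∈ n.primeFactors, j.factorial := by
      rw [rj, ← sum_filter]
      have h6 : (Bl P).filter (fun p => p ∣ n) ⊆ n.primeFactors := by
        intro p hp
        rw [mem_filter, mem_Bl] at hp
        exact Nat.mem_primeFactors.2 ⟨hp.1.2, hp.2, h3⟩
      exact (sum_le_sum fun p _ => ih (n / p)).trans
        (sum_le_sum_of_subset_of_nonneg h6 fun _ _ _ => Nat.zero_le _)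
    refine h5.trans ?_
    rw [sum_const, smul_eq_mul, Nat.factorial_succ]
    refine Nat.mul_le_mul_right _ ?_
    rw [← h4]
    exact List.toFinset_card_le _

theorem rj_sum {R : Type} [CommRing R] (P : ℕ) (f : ℕ → R) (hf1 : f 1 = 1)
    (hf : ∀ p ∈ Bl P, ∀ k, f (p * k) = f p * f k) : ∀ (j N : ℕ), (2 * P) ^ j ≤ N →
    ∑ n ∈ Icc 1 N, (rj P j n : R) * f n = (∑ p ∈ Bl P, f p) ^ j := by
  intro j
  induction j with
  | zero =>
    intro N hN
    rw [pow_zero] at hN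
    rw [sum_eq_single 1]
    · simp [rj, hf1]
    · intro n _ hn
      simp [rj, hn]
    · intro h
      exact absurd (mem_Icc.2 ⟨le_rfl, hN⟩) h
  | succ j ih =>
    intro N hN
    have h1 : ∑ n ∈ Icc 1 N, (rj P (j + 1) n : R) * f n =
        ∑ p ∈ Bl P, ∑ n ∈ Icc 1 N, if p ∣ n then (rj P j (n / p) : R) * f n else 0 := by
      rw [sum_comm]
      refine sum_congr rfl fun n _ => ?_
      rw [rj]
      push_cast
      rw [sum_mul]
      refine sum_congr rfl fun p _ => ?_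
      split_ifs <;> simp
    rw [h1, pow_succ', sum_mul]
    refine sum_congr rfl fun p hp => ?_
    have hp' := mem_Bl.1 hp
    have hN' : (2 * P) ^ j ≤ N / p := by
      rw [Nat.le_div_iff_mul_le hp'.2.pos]
      calc (2 * P) ^ j * p ≤ (2 * P) ^ j * (2 * P) := Nat.mul_le_mul_left _ hp'.1.2
        _ = (2 * P) ^ (j + 1) := (pow_succ _ _).symm
        _ ≤ N := hN
    rw [← ih (N / p) hN', mul_sum, ← sum_filter]
    symm
    refine sum_bij (fun k _ => p * k) ?_ ?_ ?_ ?_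
    · intro k hk
      rw [mem_Icc] at hk
      rw [mem_filter, mem_Icc]
      have := (Nat.le_div_iff_mul_le hp'.2.pos).1 hk.2
      exact ⟨⟨Nat.mul_pos hp'.2.pos hk.1, by rwa [mul_comm]⟩, dvd_mul_right _ _⟩
    · intro a _ b _ hab
      exact Nat.eq_of_mul_eq_mul_left hp'.2.pos hab
    · intro n hn
      rw [mem_filter, mem_Icc] at hn
      obtain ⟨k, rfl⟩ := hn.2
      refine ⟨k, mem_Icc.2 ⟨?_, ?_⟩, rfl⟩
      · exact Nat.pos_of_ne_zero (by rintro rfl; simp at hn)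
      · rw [Nat.le_div_iff_mul_le hp'.2.pos, mul_comm]
        exact hn.1.2
    · intro k _
      rw [Nat.mul_div_cancel_left k hp'.2.pos, hf p hp]
      ring

theorem Bl_sum_le (P : ℕ) (hP : 1 ≤ P) : ∑ p ∈ Bl P, 1 / (p : ℝ) ≤ 1 := by
  have hP0 : (0 : ℝ) < P := by exact_mod_cast hP
  calc ∑ p ∈ Bl P, 1 / (p : ℝ) ≤ ∑ _p ∈ Bl P, 1 / (P : ℝ) := by
        refine sum_le_sum fun p hp => ?_
        have := (mem_Bl.1 hp).1.1
        exact one_div_le_one_div_of_le hP0 (by exact_mod_cast this.le)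
    _ = (Bl P).card * (1 / (P : ℝ)) := by rw [sum_const, nsmul_eq_mul]
    _ ≤ P * (1 / (P : ℝ)) := by
        refine mul_le_mul_of_nonneg_right ?_ (by positivity)
        have : (Bl P).card ≤ P := by
          refine (card_filter_le _ _).trans ?_
          rw [Nat.card_Ioc]
          omega
        exact_mod_cast this
    _ = 1 := by field_simp

/-- the coefficients -/
noncomputable def aj (P j n : ℕ) : ℂ := (rj P j n : ℂ) / n

theorem aj_sq (P j N : ℕ) (hP : 1 ≤ P) (hN : (2 * P) ^ j ≤ N) :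
    ∑ n ∈ Icc 1 N, ‖aj P j n‖ ^ 2 ≤ j.factorial / (P : ℝ) ^ j := by
  have hP0 : (0 : ℝ) < P := by exact_mod_cast hP
  have h1 : ∑ n ∈ Icc 1 N, (rj P j n : ℝ) * (1 / (n : ℝ)) = (∑ p ∈ Bl P, 1 / (p : ℝ)) ^ j := by
    refine rj_sum P (fun n => 1 / (n : ℝ)) (by simp) ?_ j N hN
    intro p _ k
    push_cast
    rw [one_div_mul_one_div]
  have h2 : (∑ p ∈ Bl P, 1 / (p : ℝ)) ^ j ≤ 1 :=
    pow_le_one₀ (sum_nonneg fun _ _ => by positivity) (Bl_sum_le P hP)
  calc ∑ n ∈ Icc 1 N, ‖aj P j n‖ ^ 2 ≤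
      ∑ n ∈ Icc 1 N, (j.factorial / (P : ℝ) ^ j) * ((rj P j n : ℝ) * (1 / (n : ℝ))) := by
        refine sum_le_sum fun n hn => ?_
        rw [mem_Icc] at hn
        have hn0 : (0 : ℝ) < n := by exact_mod_cast hn.1
        unfold aj
        rw [norm_div, Complex.norm_natCast, Complex.norm_natCast, div_pow]
        by_cases h0 : rj P j n = 0
        · rw [h0]
          simp
        obtain ⟨h3, _, _, _⟩ := rj_prop P j n h0
        have h4 : (rj P j n : ℝ) ≤ j.factorial := by exact_mod_cast rj_le P j n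
        have h5 : (P : ℝ) ^ j ≤ n := by exact_mod_cast h3
        have h6 : (0 : ℝ) ≤ rj P j n := Nat.cast_nonneg _
        rw [div_mul_eq_mul_div, mul_one_div, div_le_div_iff₀ (by positivity) (by positivity)]
        have h7 : (rj P j n : ℝ) ^ 2 * (P : ℝ) ^ j ≤ (j.factorial * rj P j n) * n := by
          rw [sq]
          exact mul_le_mul (mul_le_mul_of_nonneg_right h4 h6) h5 (by positivity) (by positivity)
        calc (rj P j n : ℝ) ^ 2 * (P : ℝ) ^ j ≤ (j.factorial * rj P j n) * n := h7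
          _ = (j.factorial : ℝ) * ((rj P j n : ℝ) / n) * n ^ 2 := by field_simp
    _ = (j.factorial / (P : ℝ) ^ j) * (∑ p ∈ Bl P, 1 / (p : ℝ)) ^ j := by
        rw [← mul_sum, h1]
    _ ≤ (j.factorial / (P : ℝ) ^ j) * 1 := mul_le_mul_of_nonneg_left h2 (by positivity)
    _ = _ := mul_one _

theorem aj_char (P j N : ℕ) (hN : (2 * P) ^ j ≤ N) {q : ℕ} (χ : DirichletCharacter ℂ q) :
    ∑ n ∈ Icc 1 N, aj P j n * χ (n : ZMod q) = (SP P χ) ^ j := by
  have h1 := rj_sum P (fun n => χ (n : ZMod q) / (n : ℂ)) (by simp) (by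
    intro p _ k
    push_cast
    rw [map_mul, mul_div_mul_comm]) j N hN
  unfold SP
  rw [← h1]
  refine sum_congr rfl fun n _ => ?_
  unfold aj
  ring

theorem few (P Q j : ℕ) (hP : 1 ≤ P) (hj : 1 ≤ j) (hQ : Q ^ 2 ≤ P ^ j) (τ : ℝ) (hτ : 0 < τ) :
    (((Icc 1 Q).filter (fun q => Bd P τ q)).card : ℝ) ≤ 12 * 2 ^ j * j.factorial / τ ^ (2 * j) := by
  have hP0 : (0 : ℝ) < P := by exact_mod_cast hP
  have h1 := Pool.Agent.Lib.BV.large_sieve_mul Q ((2 * P) ^ j) (aj P j)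
  have h2 := aj_sq P j _ hP le_rfl
  have h3 : (((Icc 1 Q).filter (fun q => Bd P τ q)).card : ℝ) * τ ^ (2 * j) ≤
      ∑ q ∈ Icc 1 Q, ((q : ℝ) / q.totient) * Pool.Agent.Lib.BV.PS q
        (fun χ => ‖∑ n ∈ Icc 1 ((2 * P) ^ j), aj P j n * χ (n : ZMod q)‖ ^ 2) := by
    rw [card_filter]
    push_cast
    rw [sum_mul]
    refine sum_le_sum fun q hq => ?_
    rw [mem_Icc] at hq
    have hφ0 : (0 : ℝ) < q.totient := by exact_mod_cast Nat.totient_pos.2 hq.1
    have hφ : (1 : ℝ) ≤ (q : ℝ) / q.totient := by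
      rw [le_div_iff₀ hφ0, one_mul]
      exact_mod_cast Nat.totient_le q
    have hPS0 : 0 ≤ Pool.Agent.Lib.BV.PS q
        (fun χ => ‖∑ n ∈ Icc 1 ((2 * P) ^ j), aj P j n * χ (n : ZMod q)‖ ^ 2) :=
      Pool.Agent.Lib.BV.PS_nonneg fun χ => by positivity
    split_ifs with hb
    · obtain ⟨χ, hχ, hτχ⟩ := hb
      have h4 : τ ^ (2 * j) ≤ ‖∑ n ∈ Icc 1 ((2 * P) ^ j), aj P j n * χ (n : ZMod q)‖ ^ 2 := by
        rw [aj_char P j _ le_rfl, norm_pow, ← pow_mul, mul_comm j 2]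
        exact pow_le_pow_left₀ hτ.le hτχ _
      have h5 : ‖∑ n ∈ Icc 1 ((2 * P) ^ j), aj P j n * χ (n : ZMod q)‖ ^ 2 ≤
          Pool.Agent.Lib.BV.PS q
        (fun χ => ‖∑ n ∈ Icc 1 ((2 * P) ^ j), aj P j n * χ (n : ZMod q)‖ ^ 2) := by
        unfold Pool.Agent.Lib.BV.PS
        exact single_le_sum (f := fun χ : DirichletCharacter ℂ q =>
          ‖∑ n ∈ Icc 1 ((2 * P) ^ j), aj P j n * χ (n : ZMod q)‖ ^ 2)
          (fun χ _ => by positivity) (mem_filter.2 ⟨mem_univ _, hχ⟩)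
      rw [one_mul]
      exact (h4.trans h5).trans (le_mul_of_one_le_left hPS0 hφ)
    · rw [zero_mul]
      positivity
  have h6 : (Q : ℝ) ^ 2 ≤ (P : ℝ) ^ j := by exact_mod_cast hQ
  rw [le_div_iff₀ (by positivity)]
  refine h3.trans (h1.trans ?_)
  have h7 : (0 : ℝ) ≤ 6 * (((2 * P) ^ j : ℕ) + (Q : ℝ) ^ 2) := by positivity
  refine (mul_le_mul_of_nonneg_left h2 h7).trans ?_
  push_cast
  have h8 : (6 : ℝ) * ((2 * P) ^ j + (Q : ℝ) ^ 2) ≤ 12 * 2 ^ j * P ^ j := by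
    rw [mul_pow]
    have h9 : (1 : ℝ) ≤ 2 ^ j := one_le_pow₀ (by norm_num)
    have h10 : (0 : ℝ) < (P : ℝ) ^ j := by positivity
    nlinarith
  calc (6 : ℝ) * ((2 * P) ^ j + (Q : ℝ) ^ 2) * (j.factorial / (P : ℝ) ^ j) ≤
      12 * 2 ^ j * P ^ j * (j.factorial / (P : ℝ) ^ j) :=
        mul_le_mul_of_nonneg_right h8 (by positivity)
    _ = 12 * 2 ^ j * j.factorial := by field_simp

end Pool.Agent.Lib.MP_79499b_co.DZ
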