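import Pool.Agent.Lib.MP_79499b_co.DZ.NBadD

/-!
# NBad: all bad primes

Proof. For `p ∈ R` choose a prime ideal `P_p` of `𝓞 K` containing `p` (`p` is not a unit in `𝓞 K`:
`Ideal.exists_le_maximal`) and let `D_p` be its stabilizer. `R` is the union of the fibres of `p ↦ D_p`; the
number of subgroups is at most the number of subsets of the Galois group, `2^i`
(`IsGalois.card_aut_eq_finrank`; `Fintype.card_set`, `SetLike.coe_injective`), and each fibre is bounded by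
`bad_D`.
-/

set_option autoImplicit false

open NumberField
open scoped Pointwise

namespace Pool.Agent.Lib.MP_79499b_co.DZ

theorem bad_all (K : Type) [Field K] [NumberField K] [IsGalois ℚ K]
    (hcomm : ∀ σ τ : K ≃ₐ[ℚ] K, σ * τ = τ * σ) (cc : K ≃ₐ[ℚ] K) (hcc : IsConjAut K cc)
    (B0 : ℝ) (hB0 : 0 ≤ B0) (hnib : HasNIB K B0) (g : ℝ) (hgap : GapAt K g)
    (e0 Q : ℕ) (hQg : (Q : ℝ) ^ (2 * (e0 * Module.finrank ℚ K)) ≤ g)
    (𝒬 : Finset ℕ) (hne : 𝒬.Nonempty)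
    (h𝒬 : ∀ q ∈ 𝒬, q.Prime ∧ q ≤ Q ∧ Q < 2 * q ∧ SplitIn K q)
    (T : ℕ) (hT1 : 1 ≤ T) (hT : (Module.finrank ℚ K * B0) ^ Module.finrank ℚ K ≤ T)
    (Y j : ℕ) (hj : 1 ≤ j) (hYj : (T * Q + 1) ^ Module.finrank ℚ K ≤ (2 * Y) ^ j)
    (a : ℕ) (ha : a ≠ 0) (R : Finset ℕ)
    (hR : ∀ p ∈ R, p.Prime ∧ p ≤ 2 * Y ∧ ¬ p ∣ a ∧ Unram K p ∧ BadP K e0 a p) :
    (R.card : ℝ) ≤ 2 ^ Module.finrank ℚ K *
      ((2 * e0 * Module.finrank ℚ K + 1) ^ Module.finrank ℚ K *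
      2 ^ (2 * e0 * Module.finrank ℚ K * a.primeFactorsList.length) *
      (j + 2 * j * Y * (2 * 4 ^ Module.finrank ℚ K * (1 + Real.log T) ^ Module.finrank ℚ K /
        𝒬.card) ^ ((1 : ℝ) / j))) := by
  classical
  -- a prime ideal over every prime
  have hex : ∀ p : ℕ, p.Prime → ∃ P : Ideal (𝓞 K), P.IsPrime ∧ (p : 𝓞 K) ∈ P := by
    intro p hp
    have h1 : ¬ IsUnit (p : 𝓞 K) := by
      intro hu
      have h2 : IsUnit ((Algebra.norm ℤ) (p : 𝓞 K)) := hu.map _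
      have h3 : (p : 𝓞 K) = algebraMap ℤ (𝓞 K) (p : ℤ) := by simp
      rw [h3, Algebra.norm_algebraMap, isUnit_pow_iff Module.finrank_pos.ne',
        Int.isUnit_iff_natAbs_eq, Int.natAbs_natCast] at h2
      exact hp.one_lt.ne' h2
    obtain ⟨P, hP, hle⟩ := Ideal.exists_le_maximal (Ideal.span {(p : 𝓞 K)})
      (fun h => h1 (Ideal.span_singleton_eq_top.1 h))
    exact ⟨P, hP.isPrime, hle (Ideal.mem_span_singleton_self _)⟩
  -- the stabilizer
  have hst : ∀ p : ℕ, ∃ D : Subgroup (K ≃ₐ[ℚ] K), p.Prime →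
      ∃ P : Ideal (𝓞 K), P.IsPrime ∧ (p : 𝓞 K) ∈ P ∧ ∀ τ : K ≃ₐ[ℚ] K, τ • P = P ↔ τ ∈ D := by
    intro p
    by_cases hp : p.Prime
    · obtain ⟨P, hP, hpP⟩ := hex p hp
      exact ⟨MulAction.stabilizer (K ≃ₐ[ℚ] K) P, fun _ => ⟨P, hP, hpP, fun τ => by
        rw [MulAction.mem_stabilizer_iff]⟩⟩
    · exact ⟨⊥, fun h => absurd h hp⟩
  choose D hD using hst
  set E : ℝ := (2 * e0 * Module.finrank ℚ K + 1) ^ Module.finrank ℚ K *
      2 ^ (2 * e0 * Module.finrank ℚ K * a.primeFactorsList.length) *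
      (j + 2 * j * Y * (2 * 4 ^ Module.finrank ℚ K * (1 + Real.log T) ^ Module.finrank ℚ K /
        𝒬.card) ^ ((1 : ℝ) / j)) with hE
  have hfib : ∀ D0 : Subgroup (K ≃ₐ[ℚ] K), (((R.filter (fun p => D p = D0)).card : ℕ) : ℝ) ≤ E := by
    intro D0
    refine bad_D K hcomm cc hcc B0 hB0 hnib g hgap e0 Q hQg 𝒬 hne h𝒬 T hT1 hT Y j hj hYj a ha D0
      (R.filter (fun p => D p = D0)) ?_
    intro p hp
    rw [Finset.mem_filter] at hp
    obtain ⟨h1, h2, h3, h4, h5⟩ := hR p hp.1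
    obtain ⟨P, hP, hpP, hτ⟩ := hD p h1
    exact ⟨h1, h2, h3, h4, h5, P, hP, hpP, fun τ => by rw [hτ τ, hp.2]⟩
  have hcard : R.card = ∑ D0 ∈ R.image D, (R.filter (fun p => D p = D0)).card :=
    Finset.card_eq_sum_card_image D R
  have hE0 : 0 ≤ E := le_trans (Nat.cast_nonneg _) (hfib ⊥)
  have hnum : (R.image D).card ≤ 2 ^ Module.finrank ℚ K := by
    have h1 : (R.image D).card ≤ Fintype.card (Set (K ≃ₐ[ℚ] K)) := by
      have h2 : ((R.image D).image (fun D0 : Subgroup (K ≃ₐ[ℚ] K) => (D0 : Set (K ≃ₐ[ℚ] K)))).card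
          ≤ Fintype.card (Set (K ≃ₐ[ℚ] K)) := Finset.card_le_univ _
      rwa [Finset.card_image_of_injective _ SetLike.coe_injective] at h2
    rw [Fintype.card_set, ← Nat.card_eq_fintype_card, IsGalois.card_aut_eq_finrank] at h1
    exact h1
  calc (R.card : ℝ) = ∑ D0 ∈ R.image D, (((R.filter (fun p => D p = D0)).card : ℕ) : ℝ) := by
        rw [hcard]
        push_cast
        rfl
    _ ≤ ∑ D0 ∈ R.image D, E := Finset.sum_le_sum fun D0 _ => hfib D0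
    _ = (R.image D).card * E := by rw [Finset.sum_const, nsmul_eq_mul]
    _ ≤ 2 ^ Module.finrank ℚ K * E := by
        refine mul_le_mul_of_nonneg_right ?_ hE0
        exact_mod_cast hnum

end Pool.Agent.Lib.MP_79499b_co.DZ
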