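import Pool.Agent.Lib.MP_79499b_co.DZ.NDef

/-!
# NPhi: the operators Phi and PhiE

`Phi v I = ∏_τ (τ I)^(v τ)` on ideals, `PhiE v x = ∏_τ (τ x)^(v τ)` on integers.

* `Phi_mul`, `Phi_prod`, `Phi_ne_bot`: immediate (`τ • (I * J) = τ • I * τ • J`, `smul_mul'` for the
  pointwise action, `Finset.prod_mul_distrib`; `τ • I ≠ ⊥` for `I ≠ ⊥`).
* `Phi_span`: `τ • span {x} = span {τ • x}` (`Ideal.pointwise_smul_def`, `Ideal.map_span`), and
  `Ideal.span_singleton_pow`, `Ideal.prod_span_singleton`.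
* `norm_PhiE`: for an embedding `φ` let `A(τ) = ‖φ (τ x)‖`. `cc` is complex conjugation in every embedding,
  so `A(cc τ) = ‖φ (cc (τ x))‖ = ‖conj (φ (τ x))‖ = A(τ)`, and
  `(∏ A(τ)^(v τ))^2 = ∏ A(τ)^(v τ) ∏ A(cc τ)^(v (cc τ)) = ∏ A(τ)^(v τ + v (cc τ)) = (∏ A(τ))^(2e)`
  (`Equiv.mulLeft`, `Fintype.prod_equiv`), and `∏ A(τ) = |φ(∏ τ x)| = |Norm x| = N((x))`
  (`Algebra.norm_eq_prod_automorphisms`, `Ideal.absNorm_span_singleton`). Take square roots
  (`pow_left_injective` on nonnegative reals).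
* `absNorm_smul`: `N(τ I) = N(I)` (`Ideal.absNorm` of the image under a ring automorphism: the quotients are
  isomorphic; there may be a Mathlib lemma).
* `prod_conj_eq`: for a prime ideal `P` with `N(P) = q` prime and trivial stabilizer the ideals `τ P` are
  different primes containing `q`, so their product divides `(q)` (`Finset.prod_dvd_of_coprime` or
  `Ideal.inf_eq_prod_of_coprime`-style), both have norm `q^i` (`i` = number of `τ` = `finrank`,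
  `IsGalois.card_aut_eq_finrank`; `Ideal.absNorm_span_singleton`, norm of a rational integer), so they are
  equal (`Ideal.eq_of_dvd_of_absNorm_eq`-style: `I = J K`, `N(K) = 1`, so `K = ⊤`, `Ideal.absNorm_eq_one_iff`).
* `Phi_conj`: `Phi v P * Phi (v ∘ (cc *)) P = ∏ (τ P)^(v τ + v (cc τ)) = (∏ τ P)^(2e) = (q)^(2e)`.
-/

set_option autoImplicit false

open NumberField
open scoped Pointwise

namespace Pool.Agent.Lib.MP_79499b_co.DZ

theorem NPhi_smul_mul {L : Type} [Field L] [NumberField L] (τ : L ≃ₐ[ℚ] L)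
    (I J : Ideal (𝓞 L)) : τ • (I * J) = (τ • I) * (τ • J) := by
  exact smul_mul' τ I J

theorem NPhi_smul_bot {L : Type} [Field L] [NumberField L] (τ : L ≃ₐ[ℚ] L)
    (I : Ideal (𝓞 L)) (hI : I ≠ ⊥) : τ • I ≠ ⊥ := by
  intro h
  apply hI
  have := congrArg (fun J => τ⁻¹ • J) h
  simpa using this

theorem NPhi_smul_span {L : Type} [Field L] [NumberField L] (τ : L ≃ₐ[ℚ] L)
    (x : 𝓞 L) : τ • Ideal.span {x} = Ideal.span {τ • x} := by
  rw [Ideal.pointwise_smul_def, Ideal.map_span, Set.image_singleton]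
  rfl

theorem Phi_mul {L : Type} [Field L] [NumberField L] (v : (L ≃ₐ[ℚ] L) → ℕ)
    (I J : Ideal (𝓞 L)) : Phi v (I * J) = Phi v I * Phi v J := by
  unfold Phi
  rw [← Finset.prod_mul_distrib]
  refine Finset.prod_congr rfl fun τ _ => ?_
  rw [NPhi_smul_mul, mul_pow]

theorem NPhi_one {L : Type} [Field L] [NumberField L] (v : (L ≃ₐ[ℚ] L) → ℕ) :
    Phi v (1 : Ideal (𝓞 L)) = 1 := by
  unfold Phi
  refine Finset.prod_eq_one fun τ _ => ?_
  have : τ • (1 : Ideal (𝓞 L)) = 1 := smul_one τ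
  rw [this, one_pow]

theorem Phi_prod {L : Type} [Field L] [NumberField L] (v : (L ≃ₐ[ℚ] L) → ℕ) {κ : Type}
    (S : Finset κ) (I : κ → Ideal (𝓞 L)) : Phi v (∏ k ∈ S, I k) = ∏ k ∈ S, Phi v (I k) := by
  classical
  induction S using Finset.induction_on with
  | empty => simpa using NPhi_one v
  | insert a S ha ih => rw [Finset.prod_insert ha, Finset.prod_insert ha, Phi_mul, ih]

theorem Phi_ne_bot {L : Type} [Field L] [NumberField L] (v : (L ≃ₐ[ℚ] L) → ℕ)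
    (I : Ideal (𝓞 L)) (hI : I ≠ ⊥) : Phi v I ≠ ⊥ := by
  unfold Phi
  have h : ∏ τ : L ≃ₐ[ℚ] L, (τ • I) ^ v τ ≠ 0 :=
    Finset.prod_ne_zero_iff.2 fun τ _ => pow_ne_zero _ (NPhi_smul_bot τ I hI)
  exact h

theorem PhiE_ne_zero {L : Type} [Field L] [NumberField L] (v : (L ≃ₐ[ℚ] L) → ℕ)
    (x : 𝓞 L) (hx : x ≠ 0) : PhiE v x ≠ 0 := by
  unfold PhiE
  refine Finset.prod_ne_zero_iff.2 fun τ _ => pow_ne_zero _ ?_
  intro h
  apply hx
  have := congrArg (fun y => τ⁻¹ • y) h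
  simpa using this

theorem Phi_span {L : Type} [Field L] [NumberField L] (v : (L ≃ₐ[ℚ] L) → ℕ)
    (x : 𝓞 L) : Phi v (Ideal.span {x}) = Ideal.span {PhiE v x} := by
  unfold Phi PhiE
  rw [← Ideal.prod_span_singleton]
  refine Finset.prod_congr rfl fun τ _ => ?_
  rw [NPhi_smul_span, Ideal.span_singleton_pow]

theorem absNorm_smul {L : Type} [Field L] [NumberField L] (τ : L ≃ₐ[ℚ] L) (I : Ideal (𝓞 L)) :
    Ideal.absNorm (τ • I) = Ideal.absNorm I := by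
  rw [Ideal.absNorm_apply, Ideal.absNorm_apply, Submodule.cardQuot_apply, Submodule.cardQuot_apply]
  refine (Nat.card_congr ?_).symm
  exact (Ideal.quotientEquiv I (τ • I) (MulSemiringAction.toRingEquiv (L ≃ₐ[ℚ] L) (𝓞 L) τ) (by
    rw [Ideal.pointwise_smul_def]
    rfl)).toEquiv

theorem norm_PhiE {L : Type} [Field L] [NumberField L] [IsGalois ℚ L] (cc : L ≃ₐ[ℚ] L)
    (hcc : IsConjAut L cc) (v : (L ≃ₐ[ℚ] L) → ℕ) (e : ℕ)
    (hv : ∀ τ, v τ + v (cc * τ) = 2 * e) (x : 𝓞 L) (φ : L →+* ℂ) :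
    ‖φ ((PhiE v x : 𝓞 L) : L)‖ = ((Ideal.absNorm (Ideal.span {x}) : ℕ) : ℝ) ^ e := by
  classical
  set A : (L ≃ₐ[ℚ] L) → ℝ := fun τ => ‖φ (τ (x : L))‖ with hA
  have hA0 : ∀ τ, 0 ≤ A τ := fun τ => norm_nonneg _
  have hAcc : ∀ τ, A (cc * τ) = A τ := by
    intro τ
    simp only [hA]
    rw [AlgEquiv.mul_apply, hcc φ, RCLike.norm_conj]
  have h1 : ‖φ ((PhiE v x : 𝓞 L) : L)‖ = ∏ τ, A τ ^ v τ := by
    unfold PhiE
    have h2 : ((∏ τ : L ≃ₐ[ℚ] L, (τ • x) ^ v τ : 𝓞 L) : L) =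
        ∏ τ : L ≃ₐ[ℚ] L, (τ (x : L)) ^ v τ := by
      push_cast
      rfl
    rw [h2, map_prod, norm_prod]
    refine Finset.prod_congr rfl fun τ _ => ?_
    rw [map_pow, norm_pow]
  have h2 : ∏ τ, A τ = ((Ideal.absNorm (Ideal.span {x}) : ℕ) : ℝ) := by
    rw [Ideal.absNorm_span_singleton]
    have h3 : φ (algebraMap ℚ L (Algebra.norm ℚ (x : L))) = ∏ τ : L ≃ₐ[ℚ] L, φ (τ (x : L)) := by
      rw [Algebra.norm_eq_prod_automorphisms, map_prod]
    have h4 : ∏ τ, A τ = ‖φ (algebraMap ℚ L (Algebra.norm ℚ (x : L)))‖ := by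
      rw [h3, norm_prod]
    rw [h4]
    have h5 : Algebra.norm ℚ (x : L) = ((Algebra.norm ℤ x : ℤ) : ℚ) :=
      (Algebra.coe_norm_int x).symm
    rw [h5]
    simp [Nat.cast_natAbs]
  have h3 : (∏ τ, A τ ^ v τ) ^ 2 = ((∏ τ, A τ) ^ e) ^ 2 := by
    have h4 : ∏ τ, A τ ^ v τ = ∏ τ, A τ ^ v (cc * τ) := by
      rw [← Equiv.prod_comp (Equiv.mulLeft cc) (fun τ => A τ ^ v τ)]
      refine Finset.prod_congr rfl fun τ _ => ?_
      simp only [Equiv.coe_mulLeft]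
      rw [hAcc]
    calc (∏ τ, A τ ^ v τ) ^ 2 = (∏ τ, A τ ^ v τ) * ∏ τ, A τ ^ v (cc * τ) := by
          rw [← h4, sq]
      _ = ∏ τ, A τ ^ (2 * e) := by
          rw [← Finset.prod_mul_distrib]
          refine Finset.prod_congr rfl fun τ _ => ?_
          rw [← pow_add, hv]
      _ = ((∏ τ, A τ) ^ e) ^ 2 := by
          rw [Finset.prod_pow, ← pow_mul]
          congr 1
          ring
  rw [h1, ← h2]
  exact (pow_left_inj₀ (Finset.prod_nonneg fun τ _ => pow_nonneg (hA0 τ) _)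
    (pow_nonneg (Finset.prod_nonneg fun τ _ => hA0 τ) _) two_ne_zero).1 h3

theorem NPhi_isPrime_smul {L : Type} [Field L] [NumberField L] (τ : L ≃ₐ[ℚ] L)
    (P : Ideal (𝓞 L)) (hP : P.IsPrime) : (τ • P).IsPrime := by
  haveI := hP
  rw [Ideal.pointwise_smul_def]
  exact Ideal.map_isPrime_of_equiv (MulSemiringAction.toRingEquiv (L ≃ₐ[ℚ] L) (𝓞 L) τ)

theorem prod_conj_eq {L : Type} [Field L] [NumberField L] [IsGalois ℚ L]
    (P : Ideal (𝓞 L)) (hP : P.IsPrime) (q : ℕ) (hq : q.Prime) (hPq : Ideal.absNorm P = q)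
    (hst : ∀ τ : L ≃ₐ[ℚ] L, τ • P = P → τ = 1) :
    ∏ τ : L ≃ₐ[ℚ] L, (τ • P) = Ideal.span {(q : 𝓞 L)} := by
  classical
  have hPb : P ≠ ⊥ := by
    rintro rfl
    rw [Ideal.absNorm_bot] at hPq
    exact hq.ne_zero hPq.symm
  have hqP : ∀ τ : L ≃ₐ[ℚ] L, (q : 𝓞 L) ∈ τ • P := by
    intro τ
    have h := Ideal.absNorm_mem (τ • P)
    rwa [absNorm_smul, hPq] at h
  have hdvd : ∏ τ : L ≃ₐ[ℚ] L, (τ • P) ∣ Ideal.span {(q : 𝓞 L)} := by
    refine Finset.prod_dvd_of_coprime ?_ ?_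
    · intro τ _ σ _ hne
      have h1 := NPhi_isPrime_smul τ P hP
      have h2 := NPhi_isPrime_smul σ P hP
      have m1 : (τ • P).IsMaximal := h1.isMaximal (NPhi_smul_bot τ P hPb)
      have m2 : (σ • P).IsMaximal := h2.isMaximal (NPhi_smul_bot σ P hPb)
      refine (Ideal.isCoprime_iff_sup_eq).2 (m1.coprime_of_ne m2 ?_)
      intro h
      apply hne
      have h3 : (σ⁻¹ * τ) • P = P := by
        rw [mul_smul, h, inv_smul_smul]
      have h4 := hst _ h3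
      rw [inv_mul_eq_one] at h4
      exact h4.symm
    · intro τ _
      rw [Ideal.dvd_span_singleton]
      exact hqP τ
  have hN1 : Ideal.absNorm (∏ τ : L ≃ₐ[ℚ] L, (τ • P)) = q ^ Module.finrank ℚ L := by
    rw [map_prod]
    simp only [absNorm_smul, hPq]
    rw [Finset.prod_const, Finset.card_univ, ← Nat.card_eq_fintype_card,
      IsGalois.card_aut_eq_finrank]
  have hN2 : Ideal.absNorm (Ideal.span {(q : 𝓞 L)}) = q ^ Module.finrank ℚ L := by
    rw [Ideal.absNorm_span_singleton]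
    have : (q : 𝓞 L) = algebraMap ℤ (𝓞 L) (q : ℤ) := by simp
    rw [this, Algebra.norm_algebraMap, Int.natAbs_pow, Int.natAbs_natCast, RingOfIntegers.rank]
  obtain ⟨K, hK⟩ := hdvd
  have hK1 : Ideal.absNorm K = 1 := by
    have h5 := congrArg Ideal.absNorm hK
    rw [map_mul, hN1, hN2] at h5
    have h6 : 0 < q ^ Module.finrank ℚ L := pow_pos hq.pos _
    exact (Nat.eq_of_mul_eq_mul_left h6 (by rw [mul_one]; exact h5)).symm
  rw [Ideal.absNorm_eq_one_iff] at hK1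
  rw [hK, hK1, Ideal.mul_top]

theorem Phi_conj {L : Type} [Field L] [NumberField L] [IsGalois ℚ L] (cc : L ≃ₐ[ℚ] L)
    (v : (L ≃ₐ[ℚ] L) → ℕ) (e : ℕ) (hv : ∀ τ, v τ + v (cc * τ) = 2 * e)
    (P : Ideal (𝓞 L)) (hP : P.IsPrime) (q : ℕ) (hq : q.Prime) (hPq : Ideal.absNorm P = q)
    (hst : ∀ τ : L ≃ₐ[ℚ] L, τ • P = P → τ = 1) :
    Phi v P * Phi (fun τ => v (cc * τ)) P = Ideal.span {(q : 𝓞 L)} ^ (2 * e) := by
  rw [← prod_conj_eq P hP q hq hPq hst]
  unfold Phi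
  rw [← Finset.prod_mul_distrib, ← Finset.prod_pow]
  refine Finset.prod_congr rfl fun τ _ => ?_
  rw [← pow_add, hv]

end Pool.Agent.Lib.MP_79499b_co.DZ
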