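import Pool.Agent.Lib.MP_79499b_co.DZ.NSpl
import Pool.Agent.Lib.MP_79499b_co.DZ.NPhi

/-!
# NDes: from a bad prime to a relation in the decomposition field

Setting: `P` prime ideal of `𝓞 K` over `p` with stabilizer exactly `D`; `L = fixedField D`, `𝔭 = P ∩ 𝓞 L`,
`e = e0 |D|`; `p` does not divide `a`, `p` unramified in `K`, `β ∈ 𝓞 K` with `|β| = (a p)^e0` everywhere and
`p^e0` does not divide `β`. `ccL` complex conjugation of `L`.

Proof. (1) `γ = ∏_{δ ∈ D} δ β` is fixed by `D`, so `γ ∈ 𝓞 L` (`lf_fix`), and in every embedding `φ` of `L`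
(extend to `K`) `|γ| = ∏_δ |δ β| = (a p)^(e0 |D|) = (a p)^e`. In particular `γ ≠ 0`.
(2) `γ (ccL γ) = (a p)^(2e)` (apply an embedding: `φ(ccL γ) = conj (φ γ)`, `z conj z = |z|^2`).
(3) By `split_descend` (stabilizer of `P` = `D`): `𝔭` is prime, `N(𝔭) = p`, the `τ 𝔭` are different for
different `τ`; every prime ideal of `𝓞 L` containing `p` is some `τ 𝔭` (`primes_transitive`, `lf_galois`).
`p ∉ (τ 𝔭)^2`: else `p ∈ 𝔭^2` (apply `τ⁻¹`), and the image of `𝔭^2` in `𝓞 K` is contained in `P^2`,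
contradicting `Unram K p`. So `τ 𝔭` has multiplicity exactly 1 in `(p)`, and 0 in `(a)` (`a ∉ τ 𝔭` since
`τ 𝔭 ∩ ℤ = (p)`).
(4) `v τ :=` multiplicity of `τ 𝔭` in `(γ)` (`Multiset.count` in `normalizedFactors`, or `emultiplicity`).
`v (ccL τ)` = multiplicity of `ccL τ 𝔭` in `(γ)` = multiplicity of `τ 𝔭` in `(ccL⁻¹ γ) = (ccL γ)` (`ccL² = 1`).
With (2) and (3): `v τ + v (ccL τ)` = multiplicity of `τ 𝔭` in `(a p)^(2e)` = `2e`.
(5) `Phi v 𝔭 = ∏ (τ 𝔭)^(v τ)` divides `(γ)` (pairwise coprime prime powers, each dividing),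
`(γ) = 𝔞 Phi v 𝔭`; no `τ 𝔭` divides `𝔞`, so `𝔞` is coprime to `(p)`. As `𝔞 ∣ (γ) ∣ (a)^(2e) (p)^(2e)`,
`𝔞 ∣ (a)^(2e)`.
(6) Not constant: suppose `v τ = e` for all `τ`. Let `P'` be any prime ideal of `𝓞 K` containing `p`,
`P' ∩ 𝓞 L = τ 𝔭` for some `τ`. Then `(τ 𝔭)^e` divides `(γ)`, so `P'^e` divides `γ 𝓞 K`. The stabilizer of `P'`
is `D` too (`P' = g P`, the group is commutative), so the multiplicity of `P'` in `δ β` is the same for all
`δ ∈ D`, hence `|D| mult_{P'}(β) = mult_{P'}(γ) ≥ e = e0 |D|` and `mult_{P'}(β) ≥ e0` (`|D| ≥ 1`). As `(p)` is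
the product of the different prime ideals containing `p` (unramified), `(p)^e0` divides `(β)`,
i.e. `p^e0 ∣ β`: contradiction.
-/

set_option autoImplicit false

open NumberField
open scoped Pointwise

namespace Pool.Agent.Lib.MP_79499b_co.DZ

section ndes

open Classical UniqueFactorizationMonoid

variable {R : Type} [CommRing R] [IsDedekindDomain R]

/-- multiplicity of `Q` in `I` -/
private noncomputable def nord (Q I : Ideal R) : ℕ := (normalizedFactors I).count Q

private theorem nord_mul (Q : Ideal R) {I J : Ideal R} (hI : I ≠ ⊥) (hJ : J ≠ ⊥) :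
    nord Q (I * J) = nord Q I + nord Q J := by
  unfold nord
  rw [normalizedFactors_mul hI hJ, Multiset.count_add]

private theorem nord_pow (Q I : Ideal R) (n : ℕ) : nord Q (I ^ n) = n * nord Q I := by
  unfold nord
  rw [normalizedFactors_pow, Multiset.count_nsmul]

private theorem nord_one (Q : Ideal R) : nord Q (1 : Ideal R) = 0 := by
  unfold nord
  rw [normalizedFactors_one]
  simp

private theorem nord_prod (Q : Ideal R) {κ : Type} (s : Finset κ) (I : κ → Ideal R)
    (hI : ∀ k ∈ s, I k ≠ ⊥) : nord Q (∏ k ∈ s, I k) = ∑ k ∈ s, nord Q (I k) := by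
  induction s using Finset.induction_on with
  | empty => rw [Finset.prod_empty, Finset.sum_empty, nord_one]
  | insert a s ha ih =>
    rw [Finset.prod_insert ha, Finset.sum_insert ha,
      nord_mul Q (hI a (Finset.mem_insert_self _ _)) (by
        rw [← Ideal.zero_eq_bot, Finset.prod_ne_zero_iff]
        exact fun k hk => hI k (Finset.mem_insert_of_mem hk)),
      ih fun k hk => hI k (Finset.mem_insert_of_mem hk)]

private theorem nord_pow_dvd {Q : Ideal R} (hQ : Q.IsPrime) (hQ0 : Q ≠ ⊥) {I : Ideal R}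
    (hI : I ≠ ⊥) (n : ℕ) : Q ^ n ∣ I ↔ n ≤ nord Q I := by
  have hQ' : Irreducible Q := (Ideal.prime_of_isPrime hQ0 hQ).irreducible
  rw [pow_dvd_iff_le_emultiplicity, emultiplicity_eq_count_normalizedFactors hQ' hI]
  simp [nord]

private theorem nord_self {Q : Ideal R} (hQ : Q.IsPrime) (hQ0 : Q ≠ ⊥) : nord Q Q = 1 := by
  have hQ' : Irreducible Q := (Ideal.prime_of_isPrime hQ0 hQ).irreducible
  unfold nord
  rw [normalizedFactors_irreducible hQ']
  simp

private theorem nord_of_ne {Q P : Ideal R} (hP : P.IsPrime) (hP0 : P ≠ ⊥)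
    (h : Q ≠ P) : nord Q P = 0 := by
  have hP' : Irreducible P := (Ideal.prime_of_isPrime hP0 hP).irreducible
  unfold nord
  rw [normalizedFactors_irreducible hP']
  simp [h]

private theorem nord_eq_zero_of_not_mem {Q : Ideal R} (hQ : Q.IsPrime) (hQ0 : Q ≠ ⊥) {x : R}
    (hx0 : x ≠ 0) (hx : x ∉ Q) : nord Q (Ideal.span {x}) = 0 := by
  by_contra h
  have h1 := (nord_pow_dvd hQ hQ0 (I := Ideal.span {x})
    (by rwa [Ne, Ideal.span_singleton_eq_bot]) 1).mpr (Nat.one_le_iff_ne_zero.mpr h)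
  rw [pow_one, Ideal.dvd_span_singleton] at h1
  exact hx h1

private theorem ndvd_of_nord {I J : Ideal R} (hI : I ≠ ⊥) (hJ : J ≠ ⊥)
    (h : ∀ Q : Ideal R, Q.IsPrime → Q ≠ ⊥ → nord Q I ≤ nord Q J) : I ∣ J := by
  rw [dvd_iff_normalizedFactors_le_normalizedFactors hI hJ, Multiset.le_iff_count]
  intro Q
  by_cases hQ : Q.IsPrime ∧ Q ≠ ⊥
  · exact h Q hQ.1 hQ.2
  · rw [Multiset.count_eq_zero_of_notMem]
    · exact Nat.zero_le _
    · intro hm
      have hp := prime_of_normalized_factor Q hm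
      exact hQ ⟨Ideal.isPrime_of_prime hp, hp.ne_zero⟩

variable {G : Type} [Group G] [MulSemiringAction G R]

omit [IsDedekindDomain R] in
private theorem nsmul_ne_bot (g : G) {I : Ideal R} (hI : I ≠ ⊥) : g • I ≠ ⊥ := by
  intro h
  apply hI
  have : g⁻¹ • (g • I) = g⁻¹ • (⊥ : Ideal R) := by rw [h]
  rwa [inv_smul_smul, Ideal.smul_bot] at this

omit [IsDedekindDomain R] in
private theorem nsmul_prime (g : G) {I : Ideal R} (hI : I.IsPrime) : (g • I).IsPrime := by
  rw [Ideal.pointwise_smul_eq_comap]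
  exact Ideal.comap_isPrime _ _

omit [IsDedekindDomain R] in
private theorem nsmul_pow (g : G) (I : Ideal R) (n : ℕ) : g • I ^ n = (g • I) ^ n :=
  smul_pow' g I n

private theorem nord_smul (g : G) {Q : Ideal R} (hQ : Q.IsPrime) (hQ0 : Q ≠ ⊥) {I : Ideal R}
    (hI : I ≠ ⊥) : nord (g • Q) (g • I) = nord Q I := by
  apply eq_of_forall_le_iff
  intro n
  rw [← nord_pow_dvd hQ hQ0 hI, ← nord_pow_dvd (nsmul_prime g hQ) (nsmul_ne_bot g hQ0)
    (nsmul_ne_bot g hI), Ideal.dvd_iff_le, Ideal.dvd_iff_le, ← nsmul_pow,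
    Ideal.pointwise_smul_le_pointwise_smul_iff]

omit [IsDedekindDomain R] in
private theorem nsmul_span (g : G) (x : R) : g • Ideal.span {x} = Ideal.span {g • x} := by
  rw [Ideal.smul_closure, Set.smul_set_singleton]

end ndes


theorem descend (K : Type) [Field K] [NumberField K] [IsGalois ℚ K]
    (hcomm : ∀ σ τ : K ≃ₐ[ℚ] K, σ * τ = τ * σ) (D : Subgroup (K ≃ₐ[ℚ] K))
    (P : Ideal (𝓞 K)) (hP : P.IsPrime) (p : ℕ) (hp : p.Prime) (hpP : (p : 𝓞 K) ∈ P)
    (hD : ∀ τ : K ≃ₐ[ℚ] K, τ • P = P ↔ τ ∈ D) (hun : Unram K p)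
    (e0 a : ℕ) (ha : a ≠ 0) (hpa : ¬ p ∣ a) (hbad : BadP K e0 a p)
    (ccL : (IntermediateField.fixedField D) ≃ₐ[ℚ] (IntermediateField.fixedField D))
    (hccL : IsConjAut (IntermediateField.fixedField D) ccL) :
    ∃ (v : ((IntermediateField.fixedField D) ≃ₐ[ℚ] (IntermediateField.fixedField D)) → ℕ)
      (γ : 𝓞 (IntermediateField.fixedField D)) (𝔞 : Ideal (𝓞 (IntermediateField.fixedField D))),
      (∀ τ, v τ + v (ccL * τ) = 2 * (e0 * Nat.card D)) ∧ (∃ τ, v τ ≠ e0 * Nat.card D) ∧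
      𝔞 ∣ Ideal.span {(a : 𝓞 (IntermediateField.fixedField D))} ^ (2 * (e0 * Nat.card D)) ∧
      𝔞 * Phi v (P.comap (algebraMap (𝓞 (IntermediateField.fixedField D)) (𝓞 K))) =
        Ideal.span {γ} ∧
      ∀ φ : (IntermediateField.fixedField D) →+* ℂ,
        ‖φ (γ : IntermediateField.fixedField D)‖ = ((a : ℝ) * p) ^ (e0 * Nat.card D) := by
  classical
  obtain ⟨β, hβ, hβd⟩ := hbad
  have hLgal : IsGalois ℚ (IntermediateField.fixedField D) := lf_galois K hcomm D
  have := hLgal
  have hap0 : (0 : ℝ) < ((a * p : ℕ) : ℝ) := by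
    exact_mod_cast Nat.mul_pos (Nat.pos_of_ne_zero ha) hp.pos
  obtain ⟨hpr, hNp, hst⟩ := split_descend K hcomm D P hP p hp hpP (fun τ h => (hD τ).mp h)
  set q : Ideal (𝓞 (IntermediateField.fixedField D)) := P.comap (algebraMap (𝓞 (IntermediateField.fixedField D)) (𝓞 K)) with hq
  have hq0 : q ≠ ⊥ := by
    intro h
    rw [h] at hNp
    rw [Ideal.absNorm_bot] at hNp
    exact hp.ne_zero hNp.symm
  have hprod := prod_conj_eq q hpr p hp hNp hst
  -- the element γ
  let _ : Fintype D := Fintype.ofFinite D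
  set g : 𝓞 K := ∏ δ : D, ((δ : K ≃ₐ[ℚ] K) • β) with hg
  have hgK : (g : K) = ∏ δ : D, (δ : K ≃ₐ[ℚ] K) (β : K) := by
    rw [hg]
    exact map_prod (algebraMap (𝓞 K) K) _ _
  have hβ0 : β ≠ 0 := by
    rintro rfl
    exact hβd (dvd_zero _)
  obtain ⟨γ, hγ⟩ : ∃ y : 𝓞 (IntermediateField.fixedField D), ((y : (IntermediateField.fixedField D)) : K) = (g : K) := by
    refine lf_fix K D g fun σ hσ => ?_
    rw [hgK, map_prod]
    refine Fintype.prod_equiv (Equiv.mulLeft (⟨σ, hσ⟩ : D)) _ _ fun δ => ?_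
    rfl
  have hγg : algebraMap (𝓞 (IntermediateField.fixedField D)) (𝓞 K) γ = g := by
    apply RingOfIntegers.ext
    exact hγ
  have hcardD : Nat.card D = Fintype.card D := Nat.card_eq_fintype_card
  have hnorm : ∀ φ : (IntermediateField.fixedField D) →+* ℂ, ‖φ (γ : (IntermediateField.fixedField D))‖ = ((a : ℝ) * p) ^ (e0 * Nat.card D) := by
    intro φ
    obtain ⟨ψ, hψ⟩ := lf_ext K (IntermediateField.fixedField D) φ
    have h1 : φ (γ : (IntermediateField.fixedField D)) = ∏ δ : D, ψ ((δ : K ≃ₐ[ℚ] K) (β : K)) := by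
      rw [← hψ, hγ, hgK, map_prod]
    rw [h1, norm_prod]
    have h2 : ∀ δ : D, ‖ψ ((δ : K ≃ₐ[ℚ] K) (β : K))‖ = ((a * p : ℕ) : ℝ) ^ e0 := fun δ =>
      hβ (ψ.comp ((δ : K ≃ₐ[ℚ] K) : K →+* K))
    rw [Finset.prod_congr rfl fun δ _ => h2 δ, Finset.prod_const, Finset.card_univ, ← hcardD,
      ← pow_mul]
    push_cast
    rfl
  set e : ℕ := e0 * Nat.card D with he
  have hγ0 : γ ≠ 0 := by
    rintro rfl
    obtain ⟨φ⟩ : Nonempty ((IntermediateField.fixedField D) →+* ℂ) := inferInstance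
    have h := hnorm φ
    have h0 : (0 : ℝ) < ((a : ℝ) * p) ^ e := by
      have := pow_pos hap0 e
      push_cast at this
      exact this
    simp at h
    rw [← h] at h0
    exact lt_irrefl _ h0
  have hspγ : Ideal.span {γ} ≠ ⊥ := by rwa [Ne, Ideal.span_singleton_eq_bot]
  -- the primes over `p`
  have hτp : ∀ τ : (IntermediateField.fixedField D) ≃ₐ[ℚ] (IntermediateField.fixedField D), (τ • q).IsPrime := fun τ => nsmul_prime τ hpr
  have hτ0 : ∀ τ : (IntermediateField.fixedField D) ≃ₐ[ℚ] (IntermediateField.fixedField D), τ • q ≠ ⊥ := fun τ => nsmul_ne_bot τ hq0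
  have hinj : ∀ τ σ : (IntermediateField.fixedField D) ≃ₐ[ℚ] (IntermediateField.fixedField D), τ • q = σ • q → τ = σ := by
    intro τ σ h
    have h1 : (σ⁻¹ * τ) • q = q := by rw [mul_smul, h, inv_smul_smul]
    exact (inv_mul_eq_one.mp (hst _ h1)).symm
  have hordτ : ∀ τ σ : (IntermediateField.fixedField D) ≃ₐ[ℚ] (IntermediateField.fixedField D), nord (τ • q) (σ • q) = if τ = σ then 1 else 0 := by
    intro τ σ
    split_ifs with h
    · rw [h]
      exact nord_self (hτp σ) (hτ0 σ)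
    · exact nord_of_ne (hτp σ) (hτ0 σ) fun h' => h (hinj _ _ h')
  have hordp : ∀ τ : (IntermediateField.fixedField D) ≃ₐ[ℚ] (IntermediateField.fixedField D), nord (τ • q) (Ideal.span {(p : 𝓞 (IntermediateField.fixedField D))}) = 1 := by
    intro τ
    rw [← hprod, nord_prod _ _ _ (fun σ _ => hτ0 σ)]
    simp [hordτ]
  have hordp' : ∀ Q : Ideal (𝓞 (IntermediateField.fixedField D)), (∀ τ : (IntermediateField.fixedField D) ≃ₐ[ℚ] (IntermediateField.fixedField D), Q ≠ τ • q) →
      nord Q (Ideal.span {(p : 𝓞 (IntermediateField.fixedField D))}) = 0 := by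
    intro Q hQ
    rw [← hprod, nord_prod _ _ _ (fun σ _ => hτ0 σ)]
    exact Finset.sum_eq_zero fun σ _ => nord_of_ne (hτp σ) (hτ0 σ) (hQ σ)
  have hp0 : (p : 𝓞 (IntermediateField.fixedField D)) ≠ 0 := by exact_mod_cast hp.ne_zero
  have ha0 : (a : 𝓞 (IntermediateField.fixedField D)) ≠ 0 := by exact_mod_cast ha
  have hspp : Ideal.span {(p : 𝓞 (IntermediateField.fixedField D))} ≠ ⊥ := by rwa [Ne, Ideal.span_singleton_eq_bot]
  have hspa : Ideal.span {(a : 𝓞 (IntermediateField.fixedField D))} ≠ ⊥ := by rwa [Ne, Ideal.span_singleton_eq_bot]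
  have hpmem : ∀ τ : (IntermediateField.fixedField D) ≃ₐ[ℚ] (IntermediateField.fixedField D), (p : 𝓞 (IntermediateField.fixedField D)) ∈ τ • q := by
    intro τ
    have h := (nord_pow_dvd (hτp τ) (hτ0 τ) hspp 1).mpr (hordp τ).ge
    rwa [pow_one, Ideal.dvd_span_singleton] at h
  have horda : ∀ τ : (IntermediateField.fixedField D) ≃ₐ[ℚ] (IntermediateField.fixedField D), nord (τ • q) (Ideal.span {(a : 𝓞 (IntermediateField.fixedField D))}) = 0 := by
    intro τ
    refine nord_eq_zero_of_not_mem (hτp τ) (hτ0 τ) ha0 fun h => ?_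
    have hc : IsCoprime (a : ℤ) (p : ℤ) := by
      rw [Nat.isCoprime_iff_coprime]
      exact ((Nat.Prime.coprime_iff_not_dvd hp).mpr hpa).symm
    obtain ⟨u, w, huw⟩ := hc
    have h1 := congrArg (Int.cast (R := 𝓞 (IntermediateField.fixedField D))) huw
    push_cast at h1
    apply (hτp τ).ne_top
    rw [Ideal.eq_top_iff_one, ← h1]
    exact Ideal.add_mem _ (Ideal.mul_mem_left _ _ h) (Ideal.mul_mem_left _ _ (hpmem τ))
  -- complex conjugation
  obtain ⟨φ₀⟩ : Nonempty ((IntermediateField.fixedField D) →+* ℂ) := inferInstance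
  have hcc2 : ccL * ccL = 1 := by
    apply AlgEquiv.ext
    intro x
    apply φ₀.injective
    change φ₀ (ccL (ccL x)) = φ₀ x
    rw [hccL, hccL, Complex.conj_conj]
  have hγcc : γ * (ccL • γ) = ((a * p : ℕ) : 𝓞 (IntermediateField.fixedField D)) ^ (2 * e) := by
    have hinj2 : Function.Injective (φ₀.comp (algebraMap (𝓞 (IntermediateField.fixedField D)) (IntermediateField.fixedField D))) :=
      φ₀.injective.comp (RingOfIntegers.coe_injective)
    apply hinj2
    have h1 : (φ₀.comp (algebraMap (𝓞 (IntermediateField.fixedField D)) (IntermediateField.fixedField D))) (ccL • γ) =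
        (starRingEnd ℂ) (φ₀ (γ : (IntermediateField.fixedField D))) := by
      rw [← hccL]
      rfl
    rw [map_mul, h1, map_pow, map_natCast]
    change φ₀ (γ : (IntermediateField.fixedField D)) * _ = _
    rw [Complex.mul_conj, Complex.normSq_eq_norm_sq, hnorm φ₀, ← pow_mul, mul_comm e 2]
    push_cast
    rfl
  set v : ((IntermediateField.fixedField D) ≃ₐ[ℚ] (IntermediateField.fixedField D)) → ℕ := fun τ => nord (τ • q) (Ideal.span {γ}) with hv
  have hspc : Ideal.span {ccL • γ} ≠ ⊥ := by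
    rw [← nsmul_span]
    exact nsmul_ne_bot _ hspγ
  have hsplit : Ideal.span {γ} * Ideal.span {ccL • γ} =
      Ideal.span {(a : 𝓞 (IntermediateField.fixedField D))} ^ (2 * e) * Ideal.span {(p : 𝓞 (IntermediateField.fixedField D))} ^ (2 * e) := by
    rw [Ideal.span_singleton_mul_span_singleton, hγcc, ← mul_pow,
      Ideal.span_singleton_mul_span_singleton, Ideal.span_singleton_pow]
    push_cast
    rfl
  have hsplit' : ∀ Q : Ideal (𝓞 (IntermediateField.fixedField D)), nord Q (Ideal.span {γ}) + nord Q (Ideal.span {ccL • γ}) =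
      2 * e * nord Q (Ideal.span {(a : 𝓞 (IntermediateField.fixedField D))}) + 2 * e * nord Q (Ideal.span {(p : 𝓞 (IntermediateField.fixedField D))}) := by
    intro Q
    rw [← nord_mul Q hspγ hspc, hsplit, nord_mul Q (pow_ne_zero _ hspa) (pow_ne_zero _ hspp),
      nord_pow, nord_pow]
  have hv2 : ∀ τ, v τ + v (ccL * τ) = 2 * e := by
    intro τ
    have h1 : v (ccL * τ) = nord (τ • q) (Ideal.span {ccL • γ}) := by
      rw [hv, ← nsmul_span]
      simp only
      rw [mul_smul, ← nord_smul ccL (hτp τ) (hτ0 τ) (nsmul_ne_bot ccL hspγ), ← mul_smul ccL ccL,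
        hcc2, one_smul]
    rw [h1]
    change nord (τ • q) (Ideal.span {γ}) + _ = _
    rw [hsplit', horda, hordp]
    ring
  have hPhi : ∀ Q : Ideal (𝓞 (IntermediateField.fixedField D)), nord Q (Phi v q) = ∑ τ : (IntermediateField.fixedField D) ≃ₐ[ℚ] (IntermediateField.fixedField D), v τ * nord Q (τ • q) := by
    intro Q
    unfold Phi
    rw [nord_prod _ _ _ (fun σ _ => pow_ne_zero _ (hτ0 σ))]
    exact Finset.sum_congr rfl fun τ _ => nord_pow _ _ _
  have hPhiτ : ∀ τ : (IntermediateField.fixedField D) ≃ₐ[ℚ] (IntermediateField.fixedField D), nord (τ • q) (Phi v q) = v τ := by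
    intro τ
    rw [hPhi]
    simp [hordτ]
  have hPhi0 : ∀ Q : Ideal (𝓞 (IntermediateField.fixedField D)), (∀ τ : (IntermediateField.fixedField D) ≃ₐ[ℚ] (IntermediateField.fixedField D), Q ≠ τ • q) → nord Q (Phi v q) = 0 := by
    intro Q hQ
    rw [hPhi]
    refine Finset.sum_eq_zero fun τ _ => ?_
    rw [nord_of_ne (hτp τ) (hτ0 τ) (hQ τ), mul_zero]
  have hPne := Phi_ne_bot v q hq0
  obtain ⟨𝔞, h𝔞⟩ : Phi v q ∣ Ideal.span {γ} := by
    apply ndvd_of_nord hPne hspγ
    intro Q hQ hQ0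
    by_cases h : ∃ τ : (IntermediateField.fixedField D) ≃ₐ[ℚ] (IntermediateField.fixedField D), Q = τ • q
    · obtain ⟨τ, rfl⟩ := h
      rw [hPhiτ]
    · push Not at h
      rw [hPhi0 Q h]
      exact Nat.zero_le _
  have h𝔞0 : 𝔞 ≠ ⊥ := by
    rintro rfl
    rw [← Ideal.zero_eq_bot, mul_zero] at h𝔞
    exact hspγ h𝔞
  refine ⟨v, γ, 𝔞, hv2, ?_, ?_, ?_, hnorm⟩
  · -- not constant
    by_contra hcon
    push Not at hcon
    apply hβd
    have hpK0 : (p : 𝓞 K) ≠ 0 := by exact_mod_cast hp.ne_zero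
    have hsppK : Ideal.span {(p : 𝓞 K)} ≠ ⊥ := by rwa [Ne, Ideal.span_singleton_eq_bot]
    have hspβ : Ideal.span {β} ≠ ⊥ := by rwa [Ne, Ideal.span_singleton_eq_bot]
    have hdv : Ideal.span {(p : 𝓞 K)} ^ e0 ∣ Ideal.span {β} := by
      apply ndvd_of_nord (pow_ne_zero _ hsppK) hspβ
      intro P' hP' hP'0
      rw [nord_pow]
      by_cases hpP' : (p : 𝓞 K) ∈ P'
      · have h1 : nord P' (Ideal.span {(p : 𝓞 K)}) ≤ 1 := by
          by_contra h
          rw [not_le] at h
          have h2 := (nord_pow_dvd hP' hP'0 hsppK 2).mpr h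
          rw [Ideal.dvd_span_singleton] at h2
          exact hun P' hP' hpP' h2
        have h2 : e0 ≤ nord P' (Ideal.span {β}) := by
          -- the prime below
          have hcm : (P'.comap (algebraMap (𝓞 (IntermediateField.fixedField D)) (𝓞 K))).IsPrime := Ideal.comap_isPrime _ _
          have hcp : ((p : ℕ) : 𝓞 (IntermediateField.fixedField D)) ∈ P'.comap (algebraMap (𝓞 (IntermediateField.fixedField D)) (𝓞 K)) := by
            rw [Ideal.mem_comap, map_natCast]
            exact hpP'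
          have hcq : ((p : ℕ) : 𝓞 (IntermediateField.fixedField D)) ∈ q := by
            have := hpmem 1
            rwa [one_smul] at this
          obtain ⟨τ, hτ⟩ := primes_transitive (IntermediateField.fixedField D) p hp q _ hpr hcm hcq hcp
          have h3 : (τ • q) ^ e ∣ Ideal.span {γ} :=
            (nord_pow_dvd (hτp τ) (hτ0 τ) hspγ e).mpr (hcon τ).ge
          rw [Ideal.dvd_span_singleton, hτ] at h3
          have h4 : g ∈ P' ^ e := by
            rw [← hγg]
            have h5 : algebraMap (𝓞 (IntermediateField.fixedField D)) (𝓞 K) γ ∈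
                (P'.comap (algebraMap (𝓞 (IntermediateField.fixedField D)) (𝓞 K)) ^ e).map (algebraMap (𝓞 (IntermediateField.fixedField D)) (𝓞 K)) :=
              Ideal.mem_map_of_mem _ h3
            rw [Ideal.map_pow] at h5
            exact Ideal.pow_right_mono Ideal.map_comap_le e h5
          have hg0 : g ≠ 0 := by
            rw [hg]
            refine Finset.prod_ne_zero_iff.mpr fun δ _ => ?_
            exact (smul_ne_zero_iff_ne _).mpr hβ0
          have hspg : Ideal.span {g} ≠ ⊥ := by rwa [Ne, Ideal.span_singleton_eq_bot]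
          have h6 : e ≤ nord P' (Ideal.span {g}) := by
            rw [← nord_pow_dvd hP' hP'0 hspg, Ideal.dvd_span_singleton]
            exact h4
          -- stabilizer
          obtain ⟨h, hh⟩ := primes_transitive K p hp P P' hP hP' hpP hpP'
          have hstab : ∀ δ : D, (δ : K ≃ₐ[ℚ] K) • P' = P' := by
            intro δ
            rw [← hh, ← mul_smul, hcomm, mul_smul, (hD _).mpr δ.2]
          have h7 : nord P' (Ideal.span {g}) = Nat.card D * nord P' (Ideal.span {β}) := by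
            have h8 : Ideal.span {g} = ∏ δ : D, ((δ : K ≃ₐ[ℚ] K) • Ideal.span {β}) := by
              rw [hg, ← Ideal.prod_span_singleton]
              exact Finset.prod_congr rfl fun δ _ => (nsmul_span _ _).symm
            rw [h8, nord_prod _ _ _ (fun δ _ => nsmul_ne_bot _ hspβ)]
            have h9 : ∀ δ : D, nord P' ((δ : K ≃ₐ[ℚ] K) • Ideal.span {β}) =
                nord P' (Ideal.span {β}) := by
              intro δ
              conv_lhs => rw [← hstab δ]
              exact nord_smul _ hP' hP'0 hspβ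
            rw [Finset.sum_congr rfl fun δ _ => h9 δ, Finset.sum_const, Finset.card_univ,
              smul_eq_mul, hcardD]
          rw [h7, he, mul_comm] at h6
          exact Nat.le_of_mul_le_mul_left h6 Nat.card_pos
        calc e0 * nord P' (Ideal.span {(p : 𝓞 K)}) ≤ e0 * 1 := Nat.mul_le_mul_left _ h1
          _ = e0 := mul_one _
          _ ≤ _ := h2
      · rw [nord_eq_zero_of_not_mem hP' hP'0 hpK0 hpP', mul_zero]
        exact Nat.zero_le _
    rw [Ideal.span_singleton_pow, Ideal.dvd_span_singleton, Ideal.mem_span_singleton] at hdv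
    exact hdv
  · apply ndvd_of_nord h𝔞0 (pow_ne_zero _ hspa)
    intro Q hQ hQ0
    have h1 : nord Q (Ideal.span {γ}) = nord Q (Phi v q) + nord Q 𝔞 := by
      rw [h𝔞, nord_mul Q hPne h𝔞0]
    by_cases h : ∃ τ : (IntermediateField.fixedField D) ≃ₐ[ℚ] (IntermediateField.fixedField D), Q = τ • q
    · obtain ⟨τ, rfl⟩ := h
      rw [hPhiτ] at h1
      have h2 : v τ = nord (τ • q) (Ideal.span {γ}) := rfl
      omega
    · push Not at h
      have h2 := hsplit' Q
      rw [hordp' Q h, mul_zero, add_zero] at h2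
      rw [nord_pow]
      omega
  · rw [h𝔞, mul_comm]

end Pool.Agent.Lib.MP_79499b_co.DZ
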