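import Pool.Agent.Lib.MP_79499b_co.DZ.NDef

/-!
# NDiv: the number of ideal divisors of (a)^k

Statement: a finite set of ideals dividing `(a)^k` has at most `2^(k i Ω(a))` elements, `i = [L : ℚ]`,
`Ω(a)` = number of prime factors with multiplicity.

Proof. Let `J = (a)^k ≠ ⊥`. Every divisor `I` of `J` is nonzero, and is determined by the multiset
`normalizedFactors I ≤ normalizedFactors J` (`UniqueFactorizationMonoid.dvd_iff_normalizedFactors_le_..`,
product of the factors = `I`). The number of submultisets is at most `2^(card (normalizedFactors J))`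
(`Multiset.card_powerset`). Finally `card (normalizedFactors J) ≤ k i Ω(a)`: every factor `P` has
`N(P) ≥ 2`.. (this would only give `log`); better: `normalizedFactors (I J) = sum`, so it suffices that
`card (normalizedFactors (l)) ≤ i` for a rational prime `l`: each prime factor `P` of `(l)` contains `l`, so
`N(P)` is a power `l^f`, `f ≥ 1` (`Ideal.absNorm_mem`, `N(P) ∣ N((l)) = l^i`, `N(P) ≠ 1`), and
`∏ N(P) = N((l)) = l^i` (multiset product), so `l^(card) ≤ l^i`.
Induction on the prime factorisation of `a` (`Nat.recOnMul` or the list `a.primeFactorsList`).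
-/

set_option autoImplicit false

open NumberField UniqueFactorizationMonoid
open scoped Pointwise

namespace Pool.Agent.Lib.MP_79499b_co.DZ

private theorem div_prime (L : Type) [Field L] [NumberField L] (l : ℕ) (hl : l.Prime) :
    Multiset.card (normalizedFactors (Ideal.span {(l : 𝓞 L)})) ≤ Module.finrank ℚ L := by
  have h0 : Ideal.span {(l : 𝓞 L)} ≠ ⊥ := by
    rw [Ne, Ideal.span_singleton_eq_bot]
    exact_mod_cast hl.ne_zero
  have h1 : Ideal.absNorm (Ideal.span {(l : 𝓞 L)}) = l ^ Module.finrank ℚ L := by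
    rw [Ideal.absNorm_span_singleton]
    have h2 : Algebra.norm ℤ (l : 𝓞 L) = (l : ℤ) ^ Module.finrank ℚ L := by
      have h3 := Algebra.norm_algebraMap (R := ℤ) (S := 𝓞 L) (l : ℤ)
      rw [RingOfIntegers.rank] at h3
      rw [← h3]
      simp
    rw [h2, Int.natAbs_pow, Int.natAbs_natCast]
  have h2 : ((normalizedFactors (Ideal.span {(l : 𝓞 L)})).map Ideal.absNorm).prod =
      l ^ Module.finrank ℚ L := by
    rw [← h1, ← map_multiset_prod, Ideal.prod_normalizedFactors_eq_self h0]
  have h3 : ∀ x ∈ (normalizedFactors (Ideal.span {(l : 𝓞 L)})).map Ideal.absNorm, l ≤ x := by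
    intro x hx
    rw [Multiset.mem_map] at hx
    obtain ⟨P, hP, rfl⟩ := hx
    have h4 : Ideal.absNorm P ∣ l ^ Module.finrank ℚ L := by
      rw [← h1]
      exact map_dvd _ (dvd_of_mem_normalizedFactors hP)
    obtain ⟨j, _, hj⟩ := (Nat.dvd_prime_pow hl).mp h4
    have h5 : j ≠ 0 := by
      rintro rfl
      rw [pow_zero, Ideal.absNorm_eq_one_iff] at hj
      have h6 := (prime_of_normalized_factor P hP).not_isUnit
      apply h6
      rw [hj, ← Ideal.one_eq_top]
      exact isUnit_one
    rw [hj]
    exact Nat.le_self_pow h5 l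
  have h4 := Multiset.pow_card_le_prod h3
  rw [h2, Multiset.card_map] at h4
  exact (Nat.pow_le_pow_iff_right hl.one_lt).mp h4

private theorem div_all (L : Type) [Field L] [NumberField L] (a : ℕ) : a ≠ 0 →
    Multiset.card (normalizedFactors (Ideal.span {(a : 𝓞 L)})) ≤
      Module.finrank ℚ L * a.primeFactorsList.length := by
  induction a using Nat.recOnMul with
  | zero => exact fun h => absurd rfl h
  | one =>
    intro _
    rw [Nat.cast_one, Ideal.span_singleton_one, ← Ideal.one_eq_top, normalizedFactors_one]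
    simp
  | prime p hp =>
    intro _
    rw [Nat.primeFactorsList_prime hp, List.length_singleton, mul_one]
    exact div_prime L p hp
  | mul a b iha ihb =>
    intro hab
    have ha : a ≠ 0 := left_ne_zero_of_mul hab
    have hb : b ≠ 0 := right_ne_zero_of_mul hab
    have h1 : Ideal.span {(a : 𝓞 L)} ≠ 0 := by
      rw [Ideal.zero_eq_bot, Ne, Ideal.span_singleton_eq_bot]
      exact_mod_cast ha
    have h2 : Ideal.span {(b : 𝓞 L)} ≠ 0 := by
      rw [Ideal.zero_eq_bot, Ne, Ideal.span_singleton_eq_bot]
      exact_mod_cast hb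
    rw [Nat.cast_mul, ← Ideal.span_singleton_mul_span_singleton, normalizedFactors_mul h1 h2,
      Multiset.card_add, (Nat.perm_primeFactorsList_mul ha hb).length_eq, List.length_append,
      mul_add]
    exact add_le_add (iha ha) (ihb hb)

theorem div_count (L : Type) [Field L] [NumberField L] (a : ℕ) (ha : a ≠ 0) (k : ℕ)
    (S : Finset (Ideal (𝓞 L))) (hS : ∀ I ∈ S, I ∣ Ideal.span {(a : 𝓞 L)} ^ k) :
    S.card ≤ 2 ^ (k * Module.finrank ℚ L * a.primeFactorsList.length) := by
  classical
  have h0 : Ideal.span {(a : 𝓞 L)} ≠ 0 := by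
    rw [Ideal.zero_eq_bot, Ne, Ideal.span_singleton_eq_bot]
    exact_mod_cast ha
  have hJ : Ideal.span {(a : 𝓞 L)} ^ k ≠ 0 := pow_ne_zero _ h0
  have hI : ∀ I ∈ S, I ≠ 0 := fun I h => ne_zero_of_dvd_ne_zero hJ (hS I h)
  have h1 : S.card ≤
      (normalizedFactors (Ideal.span {(a : 𝓞 L)} ^ k)).powerset.toFinset.card := by
    refine Finset.card_le_card_of_injOn (fun I => normalizedFactors I) ?_ ?_
    · intro I h
      rw [Finset.mem_coe, Multiset.mem_toFinset, Multiset.mem_powerset]
      exact (dvd_iff_normalizedFactors_le_normalizedFactors (hI I h) hJ).mp (hS I h)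
    · intro I h I' h' heq
      rw [← Ideal.prod_normalizedFactors_eq_self (hI I h),
        ← Ideal.prod_normalizedFactors_eq_self (hI I' h')]
      exact congrArg Multiset.prod heq
  refine h1.trans ((Multiset.toFinset_card_le _).trans ?_)
  rw [Multiset.card_powerset, normalizedFactors_pow, Multiset.card_nsmul, mul_assoc]
  exact Nat.pow_le_pow_right (by norm_num) (Nat.mul_le_mul_left _ (div_all L a ha))

end Pool.Agent.Lib.MP_79499b_co.DZ
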