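import Mathlib

/-!
# NOpt: from the binomial coefficient to a bound for r

If `r ≤ j` the claim is clear. Otherwise `(r/j)^j ≤ binom(r, j)`: `binom(r,j) = ∏_{t<j} (r-t)/(j-t)` and each
factor is at least `r/j` (Mathlib: `Nat.pow_le_choose`-style lemmas; or induction on `j`). So
`(r/j)^j c ≤ A (2Y)^j`, `r/j ≤ 2Y (A/c)^(1/j)`.
-/

set_option autoImplicit false

open NumberField
open scoped Pointwise

namespace Pool.Agent.Lib.MP_79499b_co.DZ

theorem pow_le_choose (r j : ℕ) (hj : 1 ≤ j) (hr : j ≤ r) :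
    ((r : ℝ) / j) ^ j ≤ (r.choose j : ℝ) := by
  induction j generalizing r with
  | zero => omega
  | succ j ih =>
    by_cases h0 : j = 0
    · subst h0
      simp
    · obtain ⟨r', rfl⟩ : ∃ r', r = r' + 1 := ⟨r - 1, by omega⟩
      have h1 := ih r' (by omega) (by omega)
      have h2 : ((r' + 1).choose (j + 1) : ℝ) * ((j : ℝ) + 1) = ((r' : ℝ) + 1) * (r'.choose j : ℝ) := by
        exact_mod_cast (Nat.add_one_mul_choose_eq r' j).symm
      have hj0 : (0 : ℝ) < (j : ℝ) := by exact_mod_cast Nat.pos_of_ne_zero h0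
      have hr0 : (j : ℝ) ≤ (r' : ℝ) := by exact_mod_cast (by omega : j ≤ r')
      have h3 : (((r' + 1 : ℕ) : ℝ) / ((j + 1 : ℕ) : ℝ)) ≤ (r' : ℝ) / j := by
        push_cast
        rw [div_le_div_iff₀ (by linarith) hj0]
        nlinarith
      have h4 : (0 : ℝ) ≤ ((r' + 1 : ℕ) : ℝ) / ((j + 1 : ℕ) : ℝ) := by positivity
      calc (((r' + 1 : ℕ) : ℝ) / ((j + 1 : ℕ) : ℝ)) ^ (j + 1)
          = (((r' + 1 : ℕ) : ℝ) / ((j + 1 : ℕ) : ℝ)) *
              (((r' + 1 : ℕ) : ℝ) / ((j + 1 : ℕ) : ℝ)) ^ j := by ring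
        _ ≤ (((r' + 1 : ℕ) : ℝ) / ((j + 1 : ℕ) : ℝ)) * (r'.choose j : ℝ) := by
            refine mul_le_mul_of_nonneg_left ?_ h4
            exact (pow_le_pow_left₀ h4 h3 j).trans h1
        _ = ((r' + 1).choose (j + 1) : ℝ) := by
            have h5 : ((j + 1 : ℕ) : ℝ) ≠ 0 := by positivity
            rw [div_mul_eq_mul_div, div_eq_iff h5]
            push_cast
            linarith [h2]

theorem opt_bound (r j Y : ℕ) (hj : 1 ≤ j) (A c : ℝ) (hA : 0 ≤ A) (hc : 0 < c)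
    (h : ((r.choose j : ℕ) : ℝ) * c ≤ A * (2 * (Y : ℝ)) ^ j) :
    (r : ℝ) ≤ j + 2 * j * Y * (A / c) ^ ((1 : ℝ) / j) := by
  have hj0 : (0 : ℝ) < (j : ℝ) := by exact_mod_cast hj
  have hAc : 0 ≤ A / c := div_nonneg hA hc.le
  by_cases hr : j ≤ r
  · have h1 := pow_le_choose r j hj hr
    have h2 : ((r : ℝ) / j) ^ j ≤ (A / c) * (2 * (Y : ℝ)) ^ j := by
      refine h1.trans ?_
      rw [div_mul_eq_mul_div, le_div_iff₀ hc]
      exact h
    have h3 : (A / c) * (2 * (Y : ℝ)) ^ j = ((A / c) ^ ((1 : ℝ) / j) * (2 * (Y : ℝ))) ^ j := by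
      rw [mul_pow ((A / c) ^ ((1 : ℝ) / j)), ← Real.rpow_natCast ((A / c) ^ ((1 : ℝ) / j)) j, ← Real.rpow_mul hAc,
        one_div_mul_cancel hj0.ne', Real.rpow_one]
    rw [h3] at h2
    have h4 : (r : ℝ) / j ≤ (A / c) ^ ((1 : ℝ) / j) * (2 * (Y : ℝ)) :=
      le_of_pow_le_pow_left₀ (by omega) (by positivity) h2
    rw [div_le_iff₀ hj0] at h4
    nlinarith
  · have h1 : (r : ℝ) ≤ j := by exact_mod_cast (by omega : r ≤ j)
    have h2 : 0 ≤ 2 * (j : ℝ) * Y * (A / c) ^ ((1 : ℝ) / j) := by positivity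
    linarith

end Pool.Agent.Lib.MP_79499b_co.DZ
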