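import Pool.Agent.Lib.MP_79499b_co.DZ.NLF

/-!
# NSub: a normal integral basis descends to subfields

Proof. Let `b` be the basis of `𝓞 K`, `g • b h = b (g h)`; `L = fixedField D`. For an automorphism `σ` of `L`
let `t σ = ∑ b g` over the `g` in the Galois group of `K` with restriction `g|L = σ` (there are such `g`
by `lf_lift`; they form a coset `g0 D`; `|D|` elements). For `d ∈ D`: `d • t σ = ∑ b (d g) = t σ`, since
`(d g)|L = g|L`; so `t σ` comes from `𝓞 L` (`lf_fix`). The `t σ` are a `ℤ`-basis of `𝓞 L`: independent,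
because the `b g` are and the fibres are disjoint and nonempty; spanning: for `x ∈ 𝓞 L`, `x = ∑ c_g b g`,
and `d • x = x` gives `c_(d g) = c_g` for `d ∈ D` (uniqueness of coordinates), so `c` is constant on the fibres of
`g ↦ g|L` (two elements with the same restriction differ by an element of `D`: Galois correspondence
`IntermediateField.fixingSubgroup_fixedField`), so `x = ∑_σ c_σ t σ`.
`τ • t σ = t (τ σ)`: let `g0` be a lift of `τ`; `g0 • t σ = ∑ b (g0 g)`. Bound: an embedding `φ` of `L` extends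
to `K` (`lf_ext`), `‖φ (t σ)‖ ≤ ∑ ‖ψ (b g)‖ ≤ |D| B`.
-/

set_option autoImplicit false

open NumberField
open scoped Pointwise

namespace Pool.Agent.Lib.MP_79499b_co.DZ

private theorem nsub_coe_smul {E : Type} [Field E] [NumberField E] (g : E ≃ₐ[ℚ] E) (x : 𝓞 E) :
    ((g • x : 𝓞 E) : E) = g (x : E) := rfl

private theorem nsub_coe_sum {E : Type} [Field E] [NumberField E] {ι : Type} (s : Finset ι)
    (f : ι → 𝓞 E) : ((∑ i ∈ s, f i : 𝓞 E) : E) = ∑ i ∈ s, ((f i : 𝓞 E) : E) := by
  exact map_sum (algebraMap (𝓞 E) E) f s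

private theorem nsub_coe_zsmul {E : Type} [Field E] [NumberField E] (n : ℤ) (x : 𝓞 E) :
    ((n • x : 𝓞 E) : E) = n • (x : E) := by
  exact map_zsmul (algebraMap (𝓞 E) E) n x

private theorem nsub_ext {E : Type} [Field E] [NumberField E] {x y : 𝓞 E}
    (h : (x : E) = (y : E)) : x = y := RingOfIntegers.ext h

theorem nib_sub (K : Type) [Field K] [NumberField K] [IsGalois ℚ K]
    (hcomm : ∀ σ τ : K ≃ₐ[ℚ] K, σ * τ = τ * σ) (D : Subgroup (K ≃ₐ[ℚ] K)) (B : ℝ)
    (h : HasNIB K B) : HasNIB (IntermediateField.fixedField D) (Nat.card D * B) := by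
  classical
  obtain ⟨b, hb, hB⟩ := h
  haveI hGal : IsGalois ℚ (IntermediateField.fixedField D) := lf_galois K hcomm D
  haveI : Normal ℚ (IntermediateField.fixedField D) := hGal.to_normal
  set L := IntermediateField.fixedField D with hL
  let res : (K ≃ₐ[ℚ] K) →* (L ≃ₐ[ℚ] L) := AlgEquiv.restrictNormalHom L
  have hres : ∀ (g : K ≃ₐ[ℚ] K) (x : L), ((res g x : L) : K) = g (x : K) := by
    intro g x
    exact AlgEquiv.restrictNormal_commutes g L x
  have hsurj : Function.Surjective res := AlgEquiv.restrictNormalHom_surjective (F := ℚ) (K₁ := L) K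
  have hker : ∀ g : K ≃ₐ[ℚ] K, res g = 1 ↔ g ∈ D := by
    intro g
    have h1 : g ∈ L.fixingSubgroup ↔ g ∈ D := by
      rw [hL, IntermediateField.fixingSubgroup_fixedField D]
    rw [← h1, IntermediateField.mem_fixingSubgroup_iff]
    constructor
    · intro h2 x hx
      have h3 := hres g ⟨x, hx⟩
      rw [h2] at h3
      simpa using h3.symm
    · intro h2
      apply AlgEquiv.ext
      intro x
      apply Subtype.ext
      rw [hres g x]
      simpa using h2 x x.2
  let fib : (L ≃ₐ[ℚ] L) → Finset (K ≃ₐ[ℚ] K) := fun σ => Finset.univ.filter fun g => res g = σ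
  have hfibmem : ∀ (σ : L ≃ₐ[ℚ] L) (g : K ≃ₐ[ℚ] K), g ∈ fib σ ↔ res g = σ := by
    intro σ g
    simp [fib]
  have hsum : ∀ (g0 : K ≃ₐ[ℚ] K) (σ : L ≃ₐ[ℚ] L) (F : (K ≃ₐ[ℚ] K) → K),
      ∑ g ∈ fib σ, F (g0 * g) = ∑ g ∈ fib (res g0 * σ), F g := by
    intro g0 σ F
    apply Finset.sum_bij (fun g _ => g0 * g)
    · intro g hg
      rw [hfibmem] at hg ⊢
      rw [map_mul, hg]
    · intro g1 _ g2 _ h12
      exact mul_left_cancel h12
    · intro g hg
      refine ⟨g0⁻¹ * g, ?_, by simp⟩
      rw [hfibmem] at hg ⊢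
      rw [map_mul, hg, map_inv]
      simp
    · intro g _
      rfl
  have hact : ∀ (g0 : K ≃ₐ[ℚ] K) (σ : L ≃ₐ[ℚ] L),
      g0 (∑ g ∈ fib σ, ((b g : 𝓞 K) : K)) = ∑ g ∈ fib (res g0 * σ), ((b g : 𝓞 K) : K) := by
    intro g0 σ
    rw [map_sum, ← hsum g0 σ (fun g => ((b g : 𝓞 K) : K))]
    apply Finset.sum_congr rfl
    intro g _
    rw [← hb g0 g]
    rfl
  have ht : ∀ σ : L ≃ₐ[ℚ] L, ∃ y : 𝓞 L, ((y : L) : K) = ∑ g ∈ fib σ, ((b g : 𝓞 K) : K) := by
    intro σ
    obtain ⟨y, hy⟩ := lf_fix K D (∑ g ∈ fib σ, b g) (by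
      intro d hd
      rw [nsub_coe_sum, hact d σ, (hker d).2 hd, one_mul])
    refine ⟨y, ?_⟩
    rw [← nsub_coe_sum]
    exact hy
  choose t htK using ht
  have htot : ∀ c : (L ≃ₐ[ℚ] L) → ℤ,
      (((∑ σ, c σ • t σ : 𝓞 L) : L) : K) = ((∑ g, c (res g) • b g : 𝓞 K) : K) := by
    intro c
    rw [nsub_coe_sum, nsub_coe_sum]
    rw [show ((∑ σ, ((c σ • t σ : 𝓞 L) : L) : L) : K) = ∑ σ, (((c σ • t σ : 𝓞 L) : L) : K) from
      map_sum (algebraMap L K) _ _]
    rw [← Finset.sum_fiberwise_of_maps_to (s := Finset.univ) (t := Finset.univ) (g := fun g => res g)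
      (fun g _ => Finset.mem_univ _)]
    apply Finset.sum_congr rfl
    intro σ _
    have h1 : (((c σ • t σ : 𝓞 L) : L) : K) = c σ • (((t σ : 𝓞 L) : L) : K) := by
      rw [nsub_coe_zsmul]
      exact map_zsmul (algebraMap L K) _ _
    rw [h1, htK σ, Finset.smul_sum]
    apply Finset.sum_congr rfl
    intro g hg
    rw [hfibmem] at hg
    rw [hg, nsub_coe_zsmul]
  have hli : LinearIndependent ℤ t := by
    rw [Fintype.linearIndependent_iff]
    intro c hc σ
    have h1 : (∑ g, c (res g) • b g : 𝓞 K) = 0 := by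
      apply nsub_ext
      rw [← htot c, hc]
      rfl
    obtain ⟨g, rfl⟩ := hsurj σ
    have h2 := Fintype.linearIndependent_iff.1 b.linearIndependent (fun g => c (res g)) h1 g
    exact h2
  have hsp : ⊤ ≤ Submodule.span ℤ (Set.range t) := by
    intro x _
    have hXint : IsIntegral ℤ ((x : L) : K) := by
      have h1 : IsIntegral ℤ (x : L) := x.2
      exact h1.map (L.val.restrictScalars ℤ)
    obtain ⟨X, hX⟩ : ∃ X : 𝓞 K, (X : K) = ((x : L) : K) := ⟨⟨((x : L) : K), hXint⟩, rfl⟩
    obtain ⟨c, hXs⟩ : ∃ c : (K ≃ₐ[ℚ] K) → ℤ, ∑ g, c g • b g = X :=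
      ⟨fun g => b.repr X g, b.sum_repr X⟩
    have huniq : ∀ c' : (K ≃ₐ[ℚ] K) → ℤ, ∑ g, c' g • b g = X → ∀ g, c g = c' g := by
      intro c' hc' g
      have h6 : (∑ g, (c g - c' g) • b g : 𝓞 K) = 0 := by
        simp only [sub_smul, Finset.sum_sub_distrib]
        rw [hXs, hc', sub_self]
      have h7 := Fintype.linearIndependent_iff.1 b.linearIndependent (fun g => c g - c' g) h6 g
      exact sub_eq_zero.1 h7
    have hconst : ∀ d ∈ D, ∀ g, c (d * g) = c g := by
      intro d hd g
      have h1 : d • X = X := by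
        apply nsub_ext
        rw [nsub_coe_smul, hX]
        have h2 := hres d (x : L)
        rw [(hker d).2 hd] at h2
        simpa using h2.symm
      have h3 : ∑ g, c g • b (d * g) = X := by
        have h31 : d • (∑ g, c g • b g) = ∑ g, c g • b (d * g) := by
          rw [Finset.smul_sum]
          apply Finset.sum_congr rfl
          intro g' _
          rw [← hb d g']
          exact (smul_comm _ _ _)
        rw [← h31, hXs, h1]
      have h4 : ∑ g, c (d⁻¹ * g) • b g = X := by
        rw [← h3]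
        symm
        apply Fintype.sum_equiv (Equiv.mulLeft d)
        intro g'
        show c g' • b (d * g') = c (d⁻¹ * (d * g')) • b (d * g')
        rw [inv_mul_cancel_left]
      have h5 := huniq (fun g => c (d⁻¹ * g)) h4 (d * g)
      rw [h5]
      show c (d⁻¹ * (d * g)) = c g
      rw [inv_mul_cancel_left]
    choose lift hlift using hsurj
    have h8 : x = ∑ σ, c (lift σ) • t σ := by
      apply nsub_ext
      apply Subtype.ext
      show ((x : L) : K) = (((∑ σ, c (lift σ) • t σ : 𝓞 L) : L) : K)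
      rw [htot (fun σ => c (lift σ)), ← hX, ← hXs]
      congr 1
      apply Finset.sum_congr rfl
      intro g _
      have h9 : g * (lift (res g))⁻¹ ∈ D := by
        rw [← hker, map_mul, map_inv, hlift]
        simp
      have h10 := hconst _ h9 (lift (res g))
      rw [inv_mul_cancel_right] at h10
      rw [h10]
    rw [h8]
    apply Submodule.sum_mem
    intro σ _
    exact Submodule.smul_mem _ _ (Submodule.subset_span ⟨σ, rfl⟩)
  refine ⟨Module.Basis.mk hli hsp, ?_, ?_⟩
  · intro τ σ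
    rw [Module.Basis.mk_apply, Module.Basis.mk_apply]
    obtain ⟨g0, rfl⟩ := hsurj τ
    apply nsub_ext
    apply Subtype.ext
    rw [nsub_coe_smul, hres g0, htK σ, hact g0 σ, htK]
  · intro φ σ
    rw [Module.Basis.mk_apply]
    obtain ⟨ψ, hψ⟩ := lf_ext K L φ
    rw [← hψ, htK σ, map_sum]
    refine le_trans (norm_sum_le _ _) ?_
    refine le_trans (Finset.sum_le_sum fun g _ => hB ψ g) ?_
    rw [Finset.sum_const, nsmul_eq_mul]
    have hcard : (fib σ).card = Nat.card D := by
      obtain ⟨g0, rfl⟩ := hsurj σ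
      rw [Nat.card_eq_fintype_card, ← Finset.card_univ]
      symm
      apply Finset.card_bij (fun (d : D) _ => (d : K ≃ₐ[ℚ] K) * g0)
      · intro d _
        rw [hfibmem, map_mul, (hker d).2 d.2, one_mul]
      · intro d1 _ d2 _ h12
        exact Subtype.ext (mul_right_cancel h12)
      · intro g hg
        rw [hfibmem] at hg
        refine ⟨⟨g * g0⁻¹, ?_⟩, Finset.mem_univ _, by simp⟩
        rw [← hker, map_mul, map_inv, hg]
        simp
    rw [hcard]

end Pool.Agent.Lib.MP_79499b_co.DZ
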