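import Pool.Agent.Lib.MP_79499b_co.DZ.NEv
import Pool.Agent.Lib.MP_79499b_co.DZ.NOpt
import Pool.Agent.Lib.MP_79499b_co.DZ.NDes
import Pool.Agent.Lib.MP_79499b_co.DZ.NDiv
import Pool.Agent.Lib.MP_79499b_co.DZ.NSub

/-!
# NBadD: the bad primes with a given decomposition group

Statement: `R` a finite set of primes `p ≤ 2Y`, bad for `a`, not dividing `a`, unramified, all having a prime
ideal with stabilizer `D`. Then `|R| ≤ (2 e0 i + 1)^i 2^(2 e0 i Ω(a)) E`, `i = [K : ℚ]`,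
`E = j + 2 j Y (2 4^i (1 + log T)^i / |𝒬|)^(1/j)`.

Proof. Let `L = fixedField D`, `iL = [L : ℚ]`, `iL |D| = i` (`lf_finrank`), `e = e0 |D| ≤ e0 i`, `ccL` from
`lf_conj`. For `p ∈ R` choose `P_p`, `𝔭_p = P_p ∩ 𝓞 L` and `(v_p, γ_p, 𝔞_p)` from `descend`. The pairs
`(v_p, 𝔞_p)` take at most `(2e+1)^iL 2^(2 e iL Ω(a))` values: `v_p τ ≤ 2e`, the number of `τ` is `iL`
(`lf_galois`), and `𝔞_p ∣ (a)^(2e)` (`div_count`); this is at most `(2 e0 i + 1)^i 2^(2 e0 i Ω(a))`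
(`e iL = e0 i`). So it suffices that each fibre `R' = {p ∈ R : v_p = v, 𝔞_p = 𝔞}` has at most `E` elements
(`Finset.card_eq_sum_card_fiberwise`, `Finset.sum_le_card_nsmul`). If the fibre is empty, fine (`E ≥ 0`).
Otherwise apply `ev_count` to `L`, `ccL`, `v`, `e`, the basis of `nib_sub` (bound `|D| B0`; any index type),
`g` (`lf_gap`), `Q^(2e) ≤ Q^(2 e0 i) ≤ g` (`Q ≥ 1` as `𝒬` is nonempty), `𝔞 ≠ ⊥` (divides a nonzero ideal),
`a0 = a`, `𝔭`, `γ` (extended by anything outside `R'`), `R'`, `Y`; `𝒬`: for `q ∈ 𝒬` take a prime ideal of `𝓞 K`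
over `q` with trivial stabilizer (`SplitIn`) and `split_descend` with the same `D`; `T`:
`(iL |D| B0)^iL = (i B0)^iL ≤ max 1 ((i B0)^i) ≤ T`; `j`: `(T Q + 1)^iL ≤ (T Q + 1)^i ≤ (2Y)^j`. The result
`binom(|R'|, j) |𝒬| ≤ 2 4^iL (2Y)^j (1 + log T)^iL ≤ 2 4^i (2Y)^j (1 + log T)^i` and `opt_bound` with
`A = 2 4^i (1 + log T)^i`, `c = |𝒬|` give `|R'| ≤ E`.
-/

set_option autoImplicit false

open NumberField
open scoped Pointwise

namespace Pool.Agent.Lib.MP_79499b_co.DZ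

private theorem NBadD_pow (x : ℝ) (hx : 0 ≤ x) (a b : ℕ) (hab : a ≤ b) (T : ℕ) (hT1 : 1 ≤ T)
    (h : x ^ b ≤ T) : x ^ a ≤ T := by
  rcases le_total x 1 with h1 | h1
  · have h2 : x ^ a ≤ 1 := pow_le_one₀ hx h1
    have h3 : (1 : ℝ) ≤ T := by exact_mod_cast hT1
    linarith
  · exact (pow_le_pow_right₀ h1 hab).trans h

/-- Counting the pairs. -/
private theorem NBadD_img {G I : Type} [Fintype G] [DecidableEq G] [DecidableEq I] (R : Finset ℕ)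
    (v : ℕ → G → ℕ) (A : ℕ → I) (m N : ℕ) (hv : ∀ p ∈ R, ∀ τ, v p τ ≤ m)
    (hA : (R.image A).card ≤ N) :
    (R.image fun p => (v p, A p)).card ≤ (m + 1) ^ Fintype.card G * N := by
  have h1 : (R.image fun p => (v p, A p)) ⊆
      (Fintype.piFinset fun _ : G => Finset.range (m + 1)) ×ˢ (R.image A) := by
    intro y hy
    obtain ⟨p, hp, rfl⟩ := Finset.mem_image.1 hy
    rw [Finset.mem_product]
    refine ⟨?_, Finset.mem_image_of_mem A hp⟩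
    rw [Fintype.mem_piFinset]
    intro τ
    rw [Finset.mem_range]
    have h2 := hv p hp τ
    show v p τ < m + 1
    omega
  refine (Finset.card_le_card h1).trans ?_
  rw [Finset.card_product, Fintype.card_piFinset]
  simp only [Finset.card_range, Finset.prod_const, Finset.card_univ]
  exact Nat.mul_le_mul_left _ hA

private theorem NBadD_fib {β : Type} [DecidableEq β] (R : Finset ℕ) (f : ℕ → β) (E : ℝ)
    (h : ∀ y ∈ R.image f, (((R.filter fun p => f p = y).card : ℕ) : ℝ) ≤ E) :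
    (R.card : ℝ) ≤ ((R.image f).card : ℝ) * E := by
  have h1 : (R.card : ℝ) = ∑ y ∈ R.image f, (((R.filter fun p => f p = y).card : ℕ) : ℝ) := by
    rw [Finset.card_eq_sum_card_image f R]
    push_cast
    rfl
  rw [h1]
  refine (Finset.sum_le_sum h).trans ?_
  rw [Finset.sum_const, nsmul_eq_mul]

private theorem NBadD_field (K : Type) [Field K] [NumberField K] [IsGalois ℚ K]
    (hcomm : ∀ σ τ : K ≃ₐ[ℚ] K, σ * τ = τ * σ) (g : ℝ)
    (Q : ℕ) (𝒬 : Finset ℕ) (hne : 𝒬.Nonempty)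
    (h𝒬 : ∀ q ∈ 𝒬, q.Prime ∧ q ≤ Q ∧ Q < 2 * q ∧ SplitIn K q)
    (T : ℕ) (hT1 : 1 ≤ T)
    (Y j : ℕ) (hj : 1 ≤ j)
    (a : ℕ) (ha : a ≠ 0) (D : Subgroup (K ≃ₐ[ℚ] K)) (R : Finset ℕ)
    (ccL : (IntermediateField.fixedField D) ≃ₐ[ℚ] (IntermediateField.fixedField D))
    (hccL : IsConjAut (IntermediateField.fixedField D) ccL)
    [IsGalois ℚ (IntermediateField.fixedField D)]
    (hgap : GapAt (IntermediateField.fixedField D) g) (e iL iK : ℕ)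
    (hiL : Module.finrank ℚ (IntermediateField.fixedField D) = iL) (hiLK : iL ≤ iK)
    (hQg : (Q : ℝ) ^ (2 * e) ≤ g) (BL : ℝ) (hBL0 : 0 ≤ BL)
    (hnib : HasNIB (IntermediateField.fixedField D) BL)
    (hT : ((iL : ℝ) * BL) ^ iL ≤ T) (hYj : (T * Q + 1) ^ iL ≤ (2 * Y) ^ j)
    (hR : ∀ p ∈ R, p.Prime ∧ p ≤ 2 * Y ∧
      ∃ (𝔭 : Ideal (𝓞 (IntermediateField.fixedField D)))
        (v : ((IntermediateField.fixedField D) ≃ₐ[ℚ] (IntermediateField.fixedField D)) → ℕ)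
        (γ : 𝓞 (IntermediateField.fixedField D)) (𝔞 : Ideal (𝓞 (IntermediateField.fixedField D))),
        Ideal.absNorm 𝔭 = p ∧ (∀ τ, v τ + v (ccL * τ) = 2 * e) ∧ (∃ τ, v τ ≠ e) ∧
        𝔞 ∣ Ideal.span {(a : 𝓞 (IntermediateField.fixedField D))} ^ (2 * e) ∧
        𝔞 * Phi v 𝔭 = Ideal.span {γ} ∧
        ∀ φ : (IntermediateField.fixedField D) →+* ℂ,
          ‖φ (γ : IntermediateField.fixedField D)‖ = ((a : ℝ) * p) ^ e) :
    (R.card : ℝ) ≤ (((2 * e + 1) ^ iL * 2 ^ (2 * e * iL * a.primeFactorsList.length) : ℕ) : ℝ) *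
      (j + 2 * j * Y * (2 * 4 ^ iK * (1 + Real.log T) ^ iK / 𝒬.card) ^ ((1 : ℝ) / j)) := by
  classical
  choose! 𝔭 v γ 𝔞 hN hv hnc hdvd hphi habs using fun p hp => (hR p hp).2.2
  have hcard : Fintype.card ((IntermediateField.fixedField D) ≃ₐ[ℚ]
      (IntermediateField.fixedField D)) = iL := by
    rw [← Nat.card_eq_fintype_card, IsGalois.card_aut_eq_finrank, hiL]
  have hlogT : 1 ≤ 1 + Real.log T := by
    have : (1 : ℝ) ≤ T := by exact_mod_cast hT1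
    have := Real.log_nonneg this
    linarith
  have hcQ : (0 : ℝ) < (𝒬.card : ℝ) := by exact_mod_cast Finset.card_pos.2 hne
  set E : ℝ := j + 2 * j * Y * (2 * 4 ^ iK * (1 + Real.log T) ^ iK / 𝒬.card) ^ ((1 : ℝ) / j)
    with hE
  have hA0 : (0 : ℝ) ≤ 2 * 4 ^ iK * (1 + Real.log T) ^ iK := by positivity
  have hE0 : 0 ≤ E := by positivity
  have himg := NBadD_img R v 𝔞 (2 * e) (2 ^ (2 * e * iL * a.primeFactorsList.length)) (by
      intro p hp τ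
      have := hv p hp τ
      omega) (by
      have h1 := div_count (IntermediateField.fixedField D) a ha (2 * e) (R.image 𝔞) (by
        intro I hI
        obtain ⟨p, hp, rfl⟩ := Finset.mem_image.1 hI
        exact hdvd p hp)
      rw [hiL] at h1
      exact h1)
  rw [hcard] at himg
  refine (NBadD_fib R (fun p => (v p, 𝔞 p)) E ?_).trans
    (mul_le_mul_of_nonneg_right (by exact_mod_cast himg) hE0)
  intro y hy
  obtain ⟨p0, hp0, rfl⟩ := Finset.mem_image.1 hy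
  obtain ⟨b, _, hb⟩ := hnib
  have ha0 : (0 : ℝ) < (a : ℝ) := by exact_mod_cast Nat.pos_of_ne_zero ha
  have h𝔞 : 𝔞 p0 ≠ ⊥ := by
    intro h
    have h1 := hdvd p0 hp0
    rw [h] at h1
    have h2 : Ideal.span {(a : 𝓞 (IntermediateField.fixedField D))} ^ (2 * e) ≠ 0 := by
      refine pow_ne_zero _ ?_
      rw [Ne, Ideal.zero_eq_bot, Ideal.span_singleton_eq_bot]
      exact_mod_cast ha
    apply h2
    rw [← Ideal.zero_eq_bot, zero_dvd_iff] at h1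
    exact h1
  have hev := ev_count ccL hccL (v p0) e (hv p0 hp0) (hnc p0 hp0) b BL hBL0 hb g hgap Q hQg
    (𝔞 p0) h𝔞 (a : ℝ) ha0 𝔭 γ (R.filter fun p => (v p, 𝔞 p) = (v p0, 𝔞 p0)) Y (by
      intro p hp
      obtain ⟨hpR, hpe⟩ := Finset.mem_filter.1 hp
      have e1 : v p = v p0 := congrArg Prod.fst hpe
      have e2 : 𝔞 p = 𝔞 p0 := congrArg Prod.snd hpe
      refine ⟨(hR p hpR).1, (hR p hpR).2.1, hN p hpR, ?_, habs p hpR⟩
      rw [← e1, ← e2]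
      exact hphi p hpR) 𝒬 (by
      intro q hq
      obtain ⟨h1, h2, h3, P, hP, hqP, hst⟩ := h𝒬 q hq
      obtain ⟨s1, s2, s3⟩ := split_descend K hcomm D P hP q h1 hqP (by
        intro τ hτ
        rw [hst τ hτ]
        exact D.one_mem)
      exact ⟨h1, h2, h3, _, s1, s2, s3⟩) T hT1 (by rw [hiL]; exact hT) j (by rw [hiL]; exact hYj)
  rw [hiL] at hev
  have h4 : (4 : ℝ) ^ iL ≤ 4 ^ iK := pow_le_pow_right₀ (by norm_num) hiLK
  have h5 : (1 + Real.log T) ^ iL ≤ (1 + Real.log T) ^ iK := pow_le_pow_right₀ hlogT hiLK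
  refine opt_bound _ j Y hj (2 * 4 ^ iK * (1 + Real.log T) ^ iK) 𝒬.card hA0 hcQ (hev.trans ?_)
  have h6 : (0 : ℝ) ≤ (2 * (Y : ℝ)) ^ j := by positivity
  calc 2 * 4 ^ iL * (2 * (Y : ℝ)) ^ j * (1 + Real.log T) ^ iL
      = 2 * (4 ^ iL * (1 + Real.log T) ^ iL) * (2 * (Y : ℝ)) ^ j := by ring
    _ ≤ 2 * (4 ^ iK * (1 + Real.log T) ^ iK) * (2 * (Y : ℝ)) ^ j := by
        refine mul_le_mul_of_nonneg_right ?_ h6
        refine mul_le_mul_of_nonneg_left ?_ (by norm_num)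
        exact mul_le_mul h4 h5 (by positivity) (by positivity)
    _ = 2 * 4 ^ iK * (1 + Real.log T) ^ iK * (2 * (Y : ℝ)) ^ j := by ring

theorem bad_D (K : Type) [Field K] [NumberField K] [IsGalois ℚ K]
    (hcomm : ∀ σ τ : K ≃ₐ[ℚ] K, σ * τ = τ * σ) (cc : K ≃ₐ[ℚ] K) (hcc : IsConjAut K cc)
    (B0 : ℝ) (hB0 : 0 ≤ B0) (hnib : HasNIB K B0) (g : ℝ) (hgap : GapAt K g)
    (e0 Q : ℕ) (hQg : (Q : ℝ) ^ (2 * (e0 * Module.finrank ℚ K)) ≤ g)
    (𝒬 : Finset ℕ) (hne : 𝒬.Nonempty)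
    (h𝒬 : ∀ q ∈ 𝒬, q.Prime ∧ q ≤ Q ∧ Q < 2 * q ∧ SplitIn K q)
    (T : ℕ) (hT1 : 1 ≤ T) (hT : (Module.finrank ℚ K * B0) ^ Module.finrank ℚ K ≤ T)
    (Y j : ℕ) (hj : 1 ≤ j) (hYj : (T * Q + 1) ^ Module.finrank ℚ K ≤ (2 * Y) ^ j)
    (a : ℕ) (ha : a ≠ 0) (D : Subgroup (K ≃ₐ[ℚ] K)) (R : Finset ℕ)
    (hR : ∀ p ∈ R, p.Prime ∧ p ≤ 2 * Y ∧ ¬ p ∣ a ∧ Unram K p ∧ BadP K e0 a p ∧
      ∃ P : Ideal (𝓞 K), P.IsPrime ∧ (p : 𝓞 K) ∈ P ∧ ∀ τ : K ≃ₐ[ℚ] K, τ • P = P ↔ τ ∈ D) :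
    (R.card : ℝ) ≤ (2 * e0 * Module.finrank ℚ K + 1) ^ Module.finrank ℚ K *
      2 ^ (2 * e0 * Module.finrank ℚ K * a.primeFactorsList.length) *
      (j + 2 * j * Y * (2 * 4 ^ Module.finrank ℚ K * (1 + Real.log T) ^ Module.finrank ℚ K /
        𝒬.card) ^ ((1 : ℝ) / j)) := by
  have hgal : IsGalois ℚ (IntermediateField.fixedField D) := lf_galois K hcomm D
  obtain ⟨ccL, hccL⟩ := lf_conj K hcomm D cc hcc
  set iK : ℕ := Module.finrank ℚ K with hiK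
  set iL : ℕ := Module.finrank ℚ (IntermediateField.fixedField D) with hiL
  have hfr : iL * Nat.card D = iK := lf_finrank K D
  have hiL1 : 1 ≤ iL := Module.finrank_pos
  have hiK1 : 1 ≤ iK := Module.finrank_pos
  have hcD1 : 1 ≤ Nat.card D := by
    rcases Nat.eq_zero_or_pos (Nat.card D) with h | h
    · rw [h, mul_zero] at hfr
      omega
    · exact h
  have hcDK : Nat.card D ≤ iK := by
    rw [← hfr]
    exact Nat.le_mul_of_pos_left _ hiL1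
  have hiLK : iL ≤ iK := by
    rw [← hfr]
    exact Nat.le_mul_of_pos_right _ hcD1
  set e : ℕ := e0 * Nat.card D with he
  have hee : e ≤ e0 * iK := Nat.mul_le_mul_left _ hcDK
  have hQ1 : (1 : ℝ) ≤ (Q : ℝ) := by
    obtain ⟨q, hq⟩ := hne
    obtain ⟨h1, h2, _⟩ := h𝒬 q hq
    have := h1.one_lt
    exact_mod_cast (by omega : 1 ≤ Q)
  have hQg' : (Q : ℝ) ^ (2 * e) ≤ g :=
    (pow_le_pow_right₀ hQ1 (by omega)).trans hQg
  have hcast : (iL : ℝ) * (Nat.card D : ℝ) = (iK : ℝ) := by exact_mod_cast hfr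
  have hT' : ((iL : ℝ) * ((Nat.card D : ℝ) * B0)) ^ iL ≤ T := by
    rw [← mul_assoc, hcast]
    exact NBadD_pow _ (by positivity) iL iK hiLK T hT1 hT
  have hYj' : (T * Q + 1) ^ iL ≤ (2 * Y) ^ j :=
    (Nat.pow_le_pow_right (by omega) hiLK).trans hYj
  have key := NBadD_field K hcomm g Q 𝒬 hne h𝒬 T hT1 Y j hj a ha D R ccL hccL
    (lf_gap K _ g hgap) e iL iK rfl hiLK hQg' ((Nat.card D : ℝ) * B0) (by positivity)
    (nib_sub K hcomm D B0 hnib) hT' hYj' (by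
      intro p hp
      obtain ⟨h1, h2, h3, h4, h5, P, hP, hpP, hst⟩ := hR p hp
      obtain ⟨v, γ, 𝔞, d1, d2, d3, d4, d5⟩ :=
        descend K hcomm D P hP p h1 hpP hst h4 e0 a ha h3 h5 ccL hccL
      obtain ⟨s1, s2, s3⟩ := split_descend K hcomm D P hP p h1 hpP (fun τ hτ => (hst τ).1 hτ)
      exact ⟨h1, h2, _, v, γ, 𝔞, s2, d1, d2, d3, d4, d5⟩)
  refine key.trans ?_
  have hlogT : 0 ≤ 1 + Real.log T := by
    have : (1 : ℝ) ≤ T := by exact_mod_cast hT1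
    have := Real.log_nonneg this
    linarith
  refine mul_le_mul_of_nonneg_right ?_ (by positivity)
  have h1 : (2 * e + 1) ^ iL ≤ (2 * e0 * iK + 1) ^ iK := by
    refine (Nat.pow_le_pow_left (m := 2 * e0 * iK + 1) ?_ iL).trans
      (Nat.pow_le_pow_right (by omega) hiLK)
    have : 2 * e ≤ 2 * (e0 * iK) := by omega
    calc 2 * e + 1 ≤ 2 * (e0 * iK) + 1 := by omega
      _ = 2 * e0 * iK + 1 := by ring
  have h2 : 2 * e * iL = 2 * e0 * iK := by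
    rw [he, ← hfr]
    ring
  rw [h2]
  push_cast
  have h3 : ((2 * (e : ℝ) + 1) ^ iL) ≤ (2 * (e0 : ℝ) * iK + 1) ^ iK := by exact_mod_cast h1
  exact mul_le_mul_of_nonneg_right h3 (by positivity)

end Pool.Agent.Lib.MP_79499b_co.DZ
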