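import Pool.Agent.Lib.MP_79499b_co.DZ.NDef

/-!
# NBd: conjugates and norm of an element with small coordinates

Let `‖φ (b k)‖ ≤ B0` for all embeddings `φ` and all `k`, and `|coordinates of β| ≤ m`.

`conj_bd`: `‖φ β‖ = ‖∑ k, (b.repr β k) φ (b k)‖ ≤ i m B0` (triangle inequality), `i = Fintype.card ι`.

`norm_bd`: `N((β)) = |Norm β| = ∏ over the embeddings φ of ‖φ β‖ ≤ (i m B0)^i`. Use
`Ideal.absNorm_span_singleton`, `Algebra.norm_eq_prod_embeddings` (or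
`NumberField.prod_abs_eq_one..`-style lemmas; `Algebra.coe_norm_int`), the number of embeddings is
`finrank ℚ L` (`NumberField.Embeddings.card`), and `finrank ℚ L = Fintype.card ι`
(`RingOfIntegers.rank`, `Module.finrank_eq_card_basis`), which is the lemma `card_eq_finrank`.
-/

set_option autoImplicit false

open NumberField
open scoped Pointwise

namespace Pool.Agent.Lib.MP_79499b_co.DZ

theorem card_eq_finrank {L : Type} [Field L] [NumberField L] {ι : Type} [Fintype ι]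
    (b : Module.Basis ι ℤ (𝓞 L)) : Fintype.card ι = Module.finrank ℚ L := by
  rw [← RingOfIntegers.rank, Module.finrank_eq_card_basis b]

theorem conj_bd {L : Type} [Field L] [NumberField L] {ι : Type} [Fintype ι]
    (b : Module.Basis ι ℤ (𝓞 L)) (B0 : ℝ)
    (hB : ∀ (φ : L →+* ℂ) (k : ι), ‖φ ((b k : 𝓞 L) : L)‖ ≤ B0)
    (β : 𝓞 L) (m : ℕ) (hβ : ∀ k, |b.repr β k| ≤ (m : ℤ)) (φ : L →+* ℂ) :
    ‖φ (β : L)‖ ≤ Fintype.card ι * m * B0 := by
  have h1 : φ (β : L) = ∑ k, ((b.repr β k : ℤ) : ℂ) * φ ((b k : 𝓞 L) : L) := by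
    have h0 : φ (β : L) = (φ.comp (algebraMap (𝓞 L) L)) β := rfl
    rw [h0]
    conv_lhs => rw [← b.sum_repr β]
    rw [map_sum]
    refine Finset.sum_congr rfl fun k _ => ?_
    rw [zsmul_eq_mul, map_mul, map_intCast]
    rfl
  rw [h1]
  refine (norm_sum_le _ _).trans ?_
  have h2 : ∀ k ∈ (Finset.univ : Finset ι), ‖((b.repr β k : ℤ) : ℂ) * φ ((b k : 𝓞 L) : L)‖ ≤
      m * B0 := by
    intro k _
    rw [norm_mul, Complex.norm_intCast]
    have h3 : |((b.repr β k : ℤ) : ℝ)| ≤ m := by exact_mod_cast hβ k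
    exact mul_le_mul h3 (hB φ k) (norm_nonneg _) (Nat.cast_nonneg m)
  refine (Finset.sum_le_card_nsmul _ _ _ h2).trans ?_
  rw [Finset.card_univ, nsmul_eq_mul, mul_assoc]

theorem norm_bd {L : Type} [Field L] [NumberField L] {ι : Type} [Fintype ι]
    (b : Module.Basis ι ℤ (𝓞 L)) (B0 : ℝ)
    (hB : ∀ (φ : L →+* ℂ) (k : ι), ‖φ ((b k : 𝓞 L) : L)‖ ≤ B0)
    (β : 𝓞 L) (m : ℕ) (hβ : ∀ k, |b.repr β k| ≤ (m : ℤ)) :
    ((Ideal.absNorm (Ideal.span {β}) : ℕ) : ℝ) ≤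
      (Fintype.card ι * m * B0) ^ Fintype.card ι := by
  classical
  have h1 : ((Ideal.absNorm (Ideal.span {β}) : ℕ) : ℝ) = ‖((Algebra.norm ℤ β : ℤ) : ℂ)‖ := by
    rw [Ideal.absNorm_span_singleton, Complex.norm_intCast, ← Int.cast_abs, Int.abs_eq_natAbs,
      Int.cast_natCast]
  have h2 : ((Algebra.norm ℤ β : ℤ) : ℂ) = ∏ σ : L →ₐ[ℚ] ℂ, σ (β : L) := by
    have h3 := Algebra.norm_eq_prod_embeddings ℚ ℂ (β : L)
    rw [← h3, ← Algebra.coe_norm_int]
    simp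
  rw [h1, h2, norm_prod]
  have h4 : ∀ σ ∈ (Finset.univ : Finset (L →ₐ[ℚ] ℂ)), ‖σ (β : L)‖ ≤ Fintype.card ι * m * B0 :=
    fun σ _ => conj_bd b B0 hB β m hβ (σ : L →+* ℂ)
  refine (Finset.prod_le_prod (fun σ _ => norm_nonneg _) h4).trans ?_
  rw [Finset.prod_const, Finset.card_univ, AlgHom.card, ← card_eq_finrank b]

end Pool.Agent.Lib.MP_79499b_co.DZ
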