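import Pool.Agent.Lib.MP_79499b_co.DZ.NDef

/-!
# NBox: box principle in an ideal

Statement: if `N(I) < (m+1)^i`, `i` the number of basis elements, then `I` contains a nonzero element
all of whose coordinates are at most `m` in absolute value.

Proof. Consider the map from the functions `c : ι → Fin (m+1)` to `𝓞 L ⧸ I` sending `c` to the class of
`∑ k, c k • b k`. The source has `(m+1)^i` elements, the target has `N(I)` elements (`Ideal.absNorm_apply`,
`Submodule.cardQuot_apply`, it is finite because `I ≠ ⊥`). So two different functions `c, c'` have the same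
class; `β = ∑ k, (c k - c' k) • b k` is in `I`, it is nonzero because `b` is a basis, and its coordinates
`c k - c' k` are in `[-m, m]`.
-/

set_option autoImplicit false

open NumberField
open scoped Pointwise

namespace Pool.Agent.Lib.MP_79499b_co.DZ

theorem box_ideal {L : Type} [Field L] [NumberField L] {ι : Type} [Fintype ι]
    (b : Module.Basis ι ℤ (𝓞 L)) (I : Ideal (𝓞 L)) (hI : I ≠ ⊥) (m : ℕ)
    (hm : Ideal.absNorm I < (m + 1) ^ Fintype.card ι) :
    ∃ β : 𝓞 L, β ∈ I ∧ β ≠ 0 ∧ ∀ k, |b.repr β k| ≤ (m : ℤ) := by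
  classical
  haveI hfin : Finite (𝓞 L ⧸ I) := Ideal.finiteQuotientOfFreeOfNeBot I hI
  haveI := Fintype.ofFinite (𝓞 L ⧸ I)
  have hcard : Fintype.card (𝓞 L ⧸ I) < Fintype.card (ι → Fin (m + 1)) := by
    rw [Fintype.card_fun, Fintype.card_fin, ← Nat.card_eq_fintype_card]
    rwa [Ideal.absNorm_apply, Submodule.cardQuot_apply] at hm
  obtain ⟨c, c', hne, h⟩ := Fintype.exists_ne_map_eq_of_card_lt
    (fun c : ι → Fin (m + 1) => Ideal.Quotient.mk I (∑ k, ((c k : ℕ) : ℤ) • b k)) hcard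
  have hrep : ∀ k, b.repr (∑ k, (((c k : ℕ) : ℤ) - ((c' k : ℕ) : ℤ)) • b k) k =
      ((c k : ℕ) : ℤ) - ((c' k : ℕ) : ℤ) := by
    intro k
    rw [b.repr_sum_self]
  refine ⟨∑ k, (((c k : ℕ) : ℤ) - ((c' k : ℕ) : ℤ)) • b k, ?_, ?_, ?_⟩
  · have h1 := Ideal.Quotient.eq.mp h
    have h2 : ∑ k, (((c k : ℕ) : ℤ) - ((c' k : ℕ) : ℤ)) • b k =
        ∑ k, ((c k : ℕ) : ℤ) • b k - ∑ k, ((c' k : ℕ) : ℤ) • b k := by
      rw [← Finset.sum_sub_distrib]
      exact Finset.sum_congr rfl fun k _ => sub_smul _ _ _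
    rw [h2]
    exact h1
  · intro h0
    apply hne
    funext k
    have h1 := hrep k
    rw [h0, map_zero, Finsupp.zero_apply] at h1
    apply Fin.ext
    omega
  · intro k
    rw [hrep k]
    have h1 := (c k).isLt
    have h2 := (c' k).isLt
    rw [abs_le]
    omega

end Pool.Agent.Lib.MP_79499b_co.DZ
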