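import Mathlib

/-!
# NChr: characters of order dividing c modulo a prime w = c r + 1

The group of units of `ZMod w` is cyclic of order `c r`; the characters `χ` with `χ^c = 1` are `c` in number
(the dual group is cyclic of order `c r` too), and for `q` prime to `w` the sum of their values at `q` is
`c` if `q` is a `c`-th power, i.e. `q^r = 1`, and `0` otherwise. (With a generator `u` and a primitive
`c`-th root of unity `ξ` the characters are `χ_k(u) = ξ^k`, `k < c`; `∑_k ξ^(k a) = 0` unless `c ∣ a`;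
`q = u^a`, `q^r = 1` iff `c r ∣ a r` iff `c ∣ a`. Or abstractly: the sum over a finite group `Γ` of characters at
`q` is invariant under multiplication by `χ0(q)`, `χ0 ∈ Γ`; if `q^r ≠ 1` there is `χ0` with `χ0^c = 1`,
`χ0(q) ≠ 1`, namely `χ0 = χ^r` where `χ(q^r) ≠ 1`: `DirichletCharacter` / `MulChar` duality
`MulChar.exists_apply_ne_one_of_hasEnoughRootsOfUnity`.)
-/

set_option autoImplicit false

open NumberField
open scoped Pointwise

namespace Pool.Agent.Lib.MP_79499b_co.DZ

private theorem chr_units_card (w c r : ℕ) (hw : w.Prime) (e : w = c * r + 1) :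
    Nat.card (ZMod w)ˣ = c * r := by
  have : Fact w.Prime := ⟨hw⟩
  rw [Nat.card_eq_fintype_card, ZMod.card_units, e]
  simp

private theorem chr_grp_card (w c r : ℕ) (hw : w.Prime) (e : w = c * r + 1) :
    Nat.card (DirichletCharacter ℂ w) = c * r := by
  have : Fact w.Prime := ⟨hw⟩
  rw [← chr_units_card w c r hw e]
  exact MulChar.card_eq_card_units_of_hasEnoughRootsOfUnity (ZMod w) ℂ

private theorem chr_cyc (w : ℕ) (hw : w.Prime) : IsCyclic (DirichletCharacter ℂ w) := by
  have : Fact w.Prime := ⟨hw⟩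
  obtain ⟨φ⟩ := MulChar.mulEquiv_units (ZMod w) ℂ
  exact isCyclic_of_surjective φ.symm φ.symm.surjective

open scoped Classical in
theorem chr_card (w c r : ℕ) [NeZero w] (hw : w.Prime) (e : w = c * r + 1) :
    (Finset.univ.filter (fun χ : DirichletCharacter ℂ w => χ ^ c = 1)).card = c := by
  have : Fact w.Prime := ⟨hw⟩
  have := chr_cyc w hw
  have h1 := IsCyclic.card_powMonoidHom_ker (DirichletCharacter ℂ w) c
  rw [chr_grp_card w c r hw e] at h1
  have h2 : (c * r).gcd c = c := Nat.gcd_eq_right (dvd_mul_right c r)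
  rw [h2] at h1
  rw [← Fintype.card_subtype, ← Nat.card_eq_fintype_card]
  refine Eq.trans ?_ h1
  apply Nat.card_congr
  exact Equiv.subtypeEquivRight (fun χ => by simp [MonoidHom.mem_ker])

private theorem chr_pow (w c r : ℕ) (hw : w.Prime) (e : w = c * r + 1) (u : (ZMod w)ˣ)
    (hu : u ^ r = 1) : ∃ v : (ZMod w)ˣ, v ^ c = u := by
  have : Fact w.Prime := ⟨hw⟩
  have hc := chr_units_card w c r hw e
  have hc0 : 0 < c := by
    rcases Nat.eq_zero_or_pos c with h | h
    · rw [h] at e; simp at e; exact absurd hw (by rw [e]; norm_num)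
    · exact h
  have h1 := IsCyclic.card_powMonoidHom_range (ZMod w)ˣ c
  have h2 := IsCyclic.card_powMonoidHom_ker (ZMod w)ˣ r
  rw [hc] at h1 h2
  have h3 : (c * r).gcd c = c := Nat.gcd_eq_right (dvd_mul_right c r)
  have h4 : (c * r).gcd r = r := Nat.gcd_eq_right (dvd_mul_left r c)
  rw [h3, Nat.mul_div_cancel_left r hc0] at h1
  rw [h4] at h2
  have h5 : (powMonoidHom c : (ZMod w)ˣ →* (ZMod w)ˣ).range ≤
      (powMonoidHom r : (ZMod w)ˣ →* (ZMod w)ˣ).ker := by
    rintro x ⟨v, rfl⟩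
    rw [MonoidHom.mem_ker]
    simp only [powMonoidHom_apply]
    rw [← pow_mul, ← hc, pow_card_eq_one']
  have h6 : (powMonoidHom c : (ZMod w)ˣ →* (ZMod w)ˣ).range =
      (powMonoidHom r : (ZMod w)ˣ →* (ZMod w)ˣ).ker :=
    Subgroup.eq_of_le_of_card_ge h5 (by rw [h1, h2])
  have h7 : u ∈ (powMonoidHom r : (ZMod w)ˣ →* (ZMod w)ˣ).ker := by
    rw [MonoidHom.mem_ker]; simpa using hu
  rw [← h6] at h7
  obtain ⟨v, hv⟩ := h7
  exact ⟨v, by simpa using hv⟩

open scoped Classical in
theorem chr_detect (w c r : ℕ) [NeZero w] (hw : w.Prime) (e : w = c * r + 1) (q : ℕ)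
    (hq : ¬ w ∣ q) :
    ∑ χ ∈ Finset.univ.filter (fun χ : DirichletCharacter ℂ w => χ ^ c = 1), χ (q : ZMod w) =
      if (q : ZMod w) ^ r = 1 then (c : ℂ) else 0 := by
  have : Fact w.Prime := ⟨hw⟩
  have hqu : IsUnit (q : ZMod w) := by
    rw [ZMod.isUnit_iff_coprime]
    exact ((Nat.Prime.coprime_iff_not_dvd hw).2 hq).symm
  obtain ⟨u, hu⟩ := hqu
  split_ifs with h
  · rw [Finset.sum_congr rfl (g := fun _ => (1 : ℂ))]
    · rw [Finset.sum_const, chr_card w c r hw e]; simp
    · intro χ hχ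
      rw [Finset.mem_filter] at hχ
      rw [← hu] at h ⊢
      obtain ⟨v, hv⟩ := chr_pow w c r hw e u (by ext; simpa using h)
      rw [← hv, Units.val_pow_eq_pow_val, map_pow, ← MulChar.pow_apply_coe, hχ.2, MulChar.one_apply_coe]
  · obtain ⟨χ, hχ⟩ := MulChar.exists_apply_ne_one_of_hasEnoughRootsOfUnity (ZMod w) ℂ h
    have h0 : (χ ^ r) ^ c = 1 := by
      rw [← pow_mul, mul_comm r c, ← chr_grp_card w c r hw e, pow_card_eq_one']
    have h1 : (χ ^ r) (q : ZMod w) ≠ 1 := by
      rw [← hu] at hχ ⊢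
      rwa [MulChar.pow_apply_coe, ← map_pow]
    have h2 : ∑ ψ ∈ Finset.univ.filter (fun χ : DirichletCharacter ℂ w => χ ^ c = 1),
        ψ (q : ZMod w) = (χ ^ r) (q : ZMod w) * 
        ∑ ψ ∈ Finset.univ.filter (fun χ : DirichletCharacter ℂ w => χ ^ c = 1), ψ (q : ZMod w) := by
      rw [Finset.mul_sum]
      symm
      apply Finset.sum_bij (fun ψ _ => χ ^ r * ψ)
      · intro ψ hψ
        rw [Finset.mem_filter] at hψ ⊢
        exact ⟨Finset.mem_univ _, by rw [mul_pow, h0, hψ.2, mul_one]⟩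
      · intro a _ b _ hab
        exact mul_left_cancel hab
      · intro b hb
        rw [Finset.mem_filter] at hb
        refine ⟨(χ ^ r)⁻¹ * b, ?_, ?_⟩
        · rw [Finset.mem_filter]
          refine ⟨Finset.mem_univ _, ?_⟩
          rw [mul_pow, hb.2, mul_one, inv_pow, h0, inv_one]
        · rw [mul_inv_cancel_left]
      · intro ψ _
        rw [MulChar.mul_apply]
    have h3 : (1 - (χ ^ r) (q : ZMod w)) * 
        ∑ ψ ∈ Finset.univ.filter (fun χ : DirichletCharacter ℂ w => χ ^ c = 1), ψ (q : ZMod w) = 0 := by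
      rw [sub_mul, one_mul, ← h2, sub_self]
    rcases mul_eq_zero.1 h3 with h4 | h4
    · exact absurd (sub_eq_zero.1 h4).symm h1
    · exact h4

end Pool.Agent.Lib.MP_79499b_co.DZ
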