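import Mathlib

/-!
# NCls: counting b in the classes given by the root conditions

Statement: `w1 ≠ w2` primes, `m = a p` coprime to `w1 w2`, `Z ≥ w1 w2` real; the number of `b`, `1 ≤ b ≤ Z`,
with `w1 ∣ (m b)^s + 1` and `w2 ∣ ∑_{i<s} (m b)^i` is at most `2 s^2 Z/(w1 w2)`.

Proof. In `ZMod w1` the polynomial `X^s + 1` (degree `s ≥ 1`) has at most `s` roots, and in `ZMod w2` the
polynomial `∑_{i<s} X^i` (nonzero, degree `s - 1`) has at most `s` roots (`Polynomial.card_roots'`). So `m b`, and,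
as `m` is a unit, `b`, lies in at most `s^2` classes modulo `W = w1 w2` (Chinese remainder). Each class has at
most `Z/W + 1 ≤ 2Z/W` elements in `[1, Z]` (`Nat.count_modEq_card`-style).
-/

set_option autoImplicit false

open NumberField
open scoped Pointwise

namespace Pool.Agent.Lib.MP_79499b_co.DZ

open Polynomial in
private theorem NCls_r1 (w s : ℕ) (hw : w.Prime) (hs : 1 ≤ s) :
    ∃ A : Finset (ZMod w), A.card ≤ s ∧ ∀ y : ZMod w, y ^ s + 1 = 0 → y ∈ A := by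
  classical
  have := Fact.mk hw
  have hdeg : (X ^ s + C 1 : (ZMod w)[X]).natDegree = s := natDegree_X_pow_add_C
  have hne : (X ^ s + C 1 : (ZMod w)[X]) ≠ 0 := by
    intro h
    rw [h, natDegree_zero] at hdeg
    omega
  refine ⟨(X ^ s + C 1 : (ZMod w)[X]).roots.toFinset, ?_, ?_⟩
  · refine (Multiset.toFinset_card_le _).trans ?_
    have := card_roots' (X ^ s + C 1 : (ZMod w)[X])
    rwa [hdeg] at this
  · intro y hy
    rw [Multiset.mem_toFinset, mem_roots hne, IsRoot.def]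
    simpa using hy

open Polynomial in
private theorem NCls_r2 (w s : ℕ) (hw : w.Prime) (hs : 1 ≤ s) :
    ∃ A : Finset (ZMod w), A.card ≤ s ∧ ∀ y : ZMod w, ∑ i ∈ Finset.range s, y ^ i = 0 → y ∈ A := by
  classical
  have := Fact.mk hw
  set f : (ZMod w)[X] := ∑ i ∈ Finset.range s, X ^ i with hf
  have hne : f ≠ 0 := by
    intro h
    have h1 : f.coeff 0 = 1 := by
      rw [hf, finsetSum_coeff, Finset.sum_eq_single 0]
      · simp
      · intro i _ hi
        rw [coeff_X_pow, if_neg (Ne.symm hi)]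
      · intro h0
        exact absurd (Finset.mem_range.mpr (by omega)) h0
    rw [h, coeff_zero] at h1
    exact zero_ne_one h1
  have hdeg : f.natDegree ≤ s := by
    rw [hf]
    refine natDegree_sum_le_of_forall_le _ _ fun i hi => ?_
    rw [Finset.mem_range] at hi
    exact (natDegree_X_pow_le i).trans hi.le
  refine ⟨f.roots.toFinset, ?_, ?_⟩
  · exact ((Multiset.toFinset_card_le _).trans (card_roots' f)).trans hdeg
  · intro y hy
    rw [Multiset.mem_toFinset, mem_roots hne, IsRoot.def, hf, eval_finsetSum]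
    simpa using hy

private theorem NCls_fib (W : ℕ) (hW : 1 ≤ W) (Z : ℝ) (hZ : (W : ℝ) ≤ Z) (F : Finset ℕ)
    (hF : ∀ b ∈ F, (b : ℝ) ≤ Z) (hF2 : ∀ b ∈ F, ∀ b' ∈ F, b ≡ b' [MOD W]) :
    (F.card : ℝ) ≤ 2 * Z / W := by
  have hWr : (0 : ℝ) < W := by exact_mod_cast hW
  have h1 : F.card ≤ (Finset.range (⌊Z / W⌋₊ + 1)).card := by
    refine Finset.card_le_card_of_injOn (fun b => b / W) ?_ ?_
    · intro b hb
      rw [Finset.coe_range, Set.mem_Iio, Nat.lt_succ_iff]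
      refine Nat.le_floor ?_
      refine Nat.cast_div_le.trans ?_
      exact (div_le_div_iff_of_pos_right hWr).mpr (hF b hb)
    · intro b hb b' hb' h
      have h2 : b % W = b' % W := hF2 b hb b' hb'
      have h3 : b / W = b' / W := h
      rw [← Nat.div_add_mod b W, ← Nat.div_add_mod b' W, h2, h3]
  rw [Finset.card_range] at h1
  have h2 : (F.card : ℝ) ≤ (⌊Z / W⌋₊ : ℝ) + 1 := by exact_mod_cast h1
  have h3 : (⌊Z / W⌋₊ : ℝ) ≤ Z / W := Nat.floor_le (div_nonneg (hWr.le.trans hZ) hWr.le)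
  have h4 : (1 : ℝ) ≤ Z / W := by rw [le_div_iff₀ hWr]; linarith
  have h5 : 2 * Z / W = Z / W + Z / W := by ring
  rw [h5]
  linarith

theorem cls_count (w1 w2 s m : ℕ) (h1 : w1.Prime) (h2 : w2.Prime) (hne : w1 ≠ w2) (hs : 1 ≤ s)
    (hm : Nat.Coprime m (w1 * w2)) (Z : ℝ) (hZ : (w1 : ℝ) * w2 ≤ Z) (S : Finset ℕ)
    (hS : ∀ b ∈ S, 1 ≤ b ∧ (b : ℝ) ≤ Z ∧ w1 ∣ (m * b) ^ s + 1 ∧
      w2 ∣ ∑ i ∈ Finset.range s, (m * b) ^ i) :
    (S.card : ℝ) ≤ 2 * (s : ℝ) ^ 2 * Z / ((w1 : ℝ) * w2) := by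
  classical
  obtain ⟨A1, hA1, hA1'⟩ := NCls_r1 w1 s h1 hs
  obtain ⟨A2, hA2, hA2'⟩ := NCls_r2 w2 s h2 hs
  have hm1 : Nat.Coprime w1 m := (Nat.Coprime.coprime_mul_right_right hm).symm
  have hm2 : Nat.Coprime w2 m := (Nat.Coprime.coprime_mul_left_right hm).symm
  have hcop : Nat.Coprime w1 w2 := (Nat.coprime_primes h1 h2).mpr hne
  have hmaps : ∀ b ∈ S, (((m * b : ℕ) : ZMod w1), ((m * b : ℕ) : ZMod w2)) ∈ A1 ×ˢ A2 := by
    intro b hb
    obtain ⟨-, -, e1, e2⟩ := hS b hb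
    rw [Finset.mem_product]
    refine ⟨hA1' _ ?_, hA2' _ ?_⟩
    · have := (ZMod.natCast_eq_zero_iff ((m * b) ^ s + 1) w1).mpr e1
      rw [Nat.cast_add, Nat.cast_pow, Nat.cast_one] at this
      exact this
    · have := (ZMod.natCast_eq_zero_iff (∑ i ∈ Finset.range s, (m * b) ^ i) w2).mpr e2
      rw [Nat.cast_sum] at this
      rw [← this]
      exact Finset.sum_congr rfl fun i _ => (Nat.cast_pow _ _).symm
  have hW1 : 1 ≤ w1 * w2 := Nat.mul_pos h1.pos h2.pos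
  have hcard := Finset.card_eq_sum_card_fiberwise (s := S) (t := A1 ×ˢ A2)
    (f := fun b => (((m * b : ℕ) : ZMod w1), ((m * b : ℕ) : ZMod w2))) hmaps
  rw [hcard, Nat.cast_sum]
  have hfib : ∀ y ∈ A1 ×ˢ A2, (((S.filter fun b =>
      (((m * b : ℕ) : ZMod w1), ((m * b : ℕ) : ZMod w2)) = y).card : ℕ) : ℝ) ≤
      2 * Z / ((w1 : ℝ) * w2) := by
    intro y _
    have h3 := NCls_fib (w1 * w2) hW1 Z (by push_cast; exact hZ)
      (S.filter fun b => (((m * b : ℕ) : ZMod w1), ((m * b : ℕ) : ZMod w2)) = y)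
      (fun b hb => (hS b (Finset.mem_filter.mp hb).1).2.1) (by
        intro b hb b' hb'
        have e1 := (Finset.mem_filter.mp hb).2
        have e2 := (Finset.mem_filter.mp hb').2
        have e3 := e1.trans e2.symm
        rw [Prod.mk.injEq, ZMod.natCast_eq_natCast_iff, ZMod.natCast_eq_natCast_iff] at e3
        refine (Nat.modEq_and_modEq_iff_modEq_mul hcop).mp ⟨?_, ?_⟩
        · exact Nat.ModEq.cancel_left_of_coprime hm1 e3.1
        · exact Nat.ModEq.cancel_left_of_coprime hm2 e3.2)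
    have hc : ((w1 * w2 : ℕ) : ℝ) = (w1 : ℝ) * w2 := Nat.cast_mul _ _
    rw [hc] at h3
    exact h3
  refine (Finset.sum_le_card_nsmul _ _ _ hfib).trans ?_
  rw [nsmul_eq_mul, Finset.card_product, Nat.cast_mul]
  have hZ0 : (0 : ℝ) ≤ Z := le_trans (by positivity) hZ
  have hq : (0 : ℝ) ≤ 2 * Z / ((w1 : ℝ) * w2) := by positivity
  have h5 : ((A1.card : ℝ) * A2.card) ≤ (s : ℝ) * s := by
    have a1 : (A1.card : ℝ) ≤ s := by exact_mod_cast hA1
    have a2 : (A2.card : ℝ) ≤ s := by exact_mod_cast hA2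
    exact mul_le_mul a1 a2 (Nat.cast_nonneg _) (Nat.cast_nonneg _)
  calc ((A1.card : ℝ) * A2.card) * (2 * Z / ((w1 : ℝ) * w2))
      ≤ ((s : ℝ) * s) * (2 * Z / ((w1 : ℝ) * w2)) := mul_le_mul_of_nonneg_right h5 hq
    _ = 2 * (s : ℝ) ^ 2 * Z / ((w1 : ℝ) * w2) := by ring

end Pool.Agent.Lib.MP_79499b_co.DZ
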