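import Pool.Agent.Lib.MP_79499b_co.DZ.NDef

/-!
# NCyc: the cyclotomic field Q(zeta_(w1 w2))

`F = CyclotomicField (w1*w2) ℚ`, `w1 ≠ w2` primes.

* `cyc_galois`, `cyc_comm`: `IsCyclotomicExtension.isGalois`, and the Galois group is isomorphic to
  `(ZMod W)ˣ` (`IsCyclotomicExtension.Rat.galEquivZMod`).
* `cyc_conj`: the automorphism `ζ ↦ ζ⁻¹` (`galEquivZMod.symm (-1)`) is complex conjugation in every
  embedding: `φ ζ` is a root of unity, `|φ ζ| = 1`, `conj (φ ζ) = (φ ζ)⁻¹`, and both ring homomorphisms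
  `φ ∘ cc` and `conj ∘ φ` agree on `ζ`, which generates `F` over `ℚ`
  (Mathlib may have it: `NumberField.IsCMField`, `IsCMField.complexConj`, but `W ≤ 2` must be allowed).
* `cyc_finrank`: `[F : ℚ] = φ(W) = (w1 - 1)(w2 - 1)` (`IsCyclotomicExtension.finrank`).
* `cyc_card`: the number of `τ` with `τ^(r1 r2) = 1` is `r1 r2`; they are a subgroup (commutative), so it is
  `Mgp F (r1*r2)`. In `(ZMod w1)ˣ × (ZMod w2)ˣ` (`ZMod.chineseRemainder`, `Units.mapEquiv`, `MulEquiv.prodUnits`)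
  the factors are cyclic of order `w_i - 1 = c_i r_i`, and the number of `u` with `u^(r1 r2) = 1` in the first
  one is `gcd (c1 r1, r1 r2) = r1 gcd (c1, r2) = r1` (`IsCyclic.card_powMonoidHom_range`-style lemmas,
  `IsCyclic.card_pow_eq_one_le`; or with a generator).
-/

set_option autoImplicit false

open NumberField
open scoped Pointwise

namespace Pool.Agent.Lib.MP_79499b_co.DZ

/-- the instance for the rational algebra structure found by instance search -/
theorem cyc_inst (W : ℕ) [NeZero W] : IsCyclotomicExtension {W} ℚ (CyclotomicField W ℚ) :=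
  CyclotomicField.isCyclotomicExtension W ℚ

attribute [local instance] cyc_inst

theorem cyc_galois (W : ℕ) [NeZero W] : IsGalois ℚ (CyclotomicField W ℚ) :=
  IsCyclotomicExtension.isGalois {W} ℚ (CyclotomicField W ℚ)

theorem cyc_comm (W : ℕ) [NeZero W] (σ τ : CyclotomicField W ℚ ≃ₐ[ℚ] CyclotomicField W ℚ) :
    σ * τ = τ * σ := by
  apply (IsCyclotomicExtension.Rat.galEquivZMod W (CyclotomicField W ℚ)).injective
  rw [map_mul, map_mul, mul_comm]

theorem cyc_conj (W : ℕ) [NeZero W] :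
    ∃ cc : CyclotomicField W ℚ ≃ₐ[ℚ] CyclotomicField W ℚ, IsConjAut (CyclotomicField W ℚ) cc := by
  set K := CyclotomicField W ℚ with hK
  refine ⟨(IsCyclotomicExtension.Rat.galEquivZMod W K).symm (-1), ?_⟩
  intro φ x
  set cc : K ≃ₐ[ℚ] K := (IsCyclotomicExtension.Rat.galEquivZMod W K).symm (-1) with hcc
  have hζ := IsCyclotomicExtension.zeta_spec W ℚ K
  set ζ := IsCyclotomicExtension.zeta W ℚ K with hz
  have hζ1 : ζ ^ W = 1 := hζ.pow_eq_one
  have h1 : cc ζ = ζ ^ ((-1 : ZMod W)).val := by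
    rw [IsCyclotomicExtension.Rat.galEquivZMod_apply_of_pow_eq W K cc hζ1, hcc,
      MulEquiv.apply_symm_apply]
    simp
  have h2 : cc ζ * ζ = 1 := by
    rw [h1, ← pow_succ]
    rw [hζ.pow_eq_one_iff_dvd, ← ZMod.natCast_eq_zero_iff]
    push_cast
    rw [ZMod.natCast_zmod_val]
    ring
  have hn : ‖φ ζ‖ = 1 := by
    refine Complex.norm_eq_one_of_pow_eq_one (n := W) ?_ (NeZero.ne W)
    rw [← map_pow, hζ1, map_one]
  have h3 : φ (cc ζ) = (starRingEnd ℂ) (φ ζ) := by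
    rw [← Complex.inv_eq_conj hn]
    refine eq_inv_of_mul_eq_one_left ?_
    rw [← map_mul, h2, map_one]
  let f : K →ₐ[ℚ] ℂ := (φ.comp (cc : K →+* K)).toRatAlgHom
  let g : K →ₐ[ℚ] ℂ := ((starRingEnd ℂ).comp φ).toRatAlgHom
  have hfg : f = g := by
    refine (hζ.powerBasis ℚ).algHom_ext ?_
    rw [hζ.powerBasis_gen ℚ]
    exact h3
  exact congrArg (fun F : K →ₐ[ℚ] ℂ => F x) hfg

theorem cyc_finrank (w1 w2 : ℕ) (h1 : w1.Prime) (h2 : w2.Prime) (hne : w1 ≠ w2) :
    Module.finrank ℚ (CyclotomicField (w1 * w2) ℚ) = (w1 - 1) * (w2 - 1) := by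
  haveI : NeZero (w1 * w2) := ⟨(Nat.mul_pos h1.pos h2.pos).ne'⟩
  rw [IsCyclotomicExtension.finrank (CyclotomicField (w1 * w2) ℚ)
    (Polynomial.cyclotomic.irreducible_rat (NeZero.pos (w1 * w2))),
    Nat.totient_mul ((Nat.coprime_primes h1 h2).2 hne), Nat.totient_prime h1, Nat.totient_prime h2]

private lemma ncyc_card_pow (w r : ℕ) (hw : w.Prime) :
    Nat.card {u : (ZMod w)ˣ // u ^ r = 1} = (w - 1).gcd r := by
  haveI : Fact w.Prime := ⟨hw⟩
  have h1 := IsCyclic.card_powMonoidHom_ker (G := (ZMod w)ˣ) r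
  rw [Nat.card_eq_fintype_card, Nat.card_eq_fintype_card, ZMod.card_units] at h1
  rw [Nat.card_eq_fintype_card, ← h1]
  refine Fintype.card_congr (Equiv.subtypeEquivRight fun u => ?_)
  rw [MonoidHom.mem_ker, powMonoidHom_apply]

private lemma ncyc_mgp {F : Type} [Field F] [NumberField F]
    (hcomm : ∀ σ τ : F ≃ₐ[ℚ] F, σ * τ = τ * σ) (r : ℕ) (τ : F ≃ₐ[ℚ] F) :
    τ ∈ Mgp F r ↔ τ ^ r = 1 := by
  constructor
  · intro h
    let H : Subgroup (F ≃ₐ[ℚ] F) :=
      { carrier := {τ | τ ^ r = 1}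
        mul_mem' := by
          intro a b ha hb
          have h1 : Commute a b := hcomm a b
          show (a * b) ^ r = 1
          rw [h1.mul_pow, ha, hb, mul_one]
        one_mem' := one_pow r
        inv_mem' := by
          intro a ha
          show a⁻¹ ^ r = 1
          rw [inv_pow, ha, inv_one] }
    have h2 : Mgp F r ≤ H := (Subgroup.closure_le H).2 (fun _ hx => hx)
    exact h2 h
  · intro h
    exact Subgroup.subset_closure h

theorem cyc_card (w1 w2 c1 c2 r1 r2 : ℕ) (h1 : w1.Prime) (h2 : w2.Prime) (hne : w1 ≠ w2)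
    (e1 : w1 = c1 * r1 + 1) (e2 : w2 = c2 * r2 + 1) (hc1 : Nat.Coprime r1 (c1 * c2))
    (hc2 : Nat.Coprime r2 (c1 * c2)) (hr : Nat.Coprime r1 r2) :
    Nat.card (Mgp (CyclotomicField (w1 * w2) ℚ) (r1 * r2)) = r1 * r2 := by
  haveI : NeZero (w1 * w2) := ⟨(Nat.mul_pos h1.pos h2.pos).ne'⟩
  have hcop : Nat.Coprime w1 w2 := (Nat.coprime_primes h1 h2).2 hne
  set K := CyclotomicField (w1 * w2) ℚ with hK
  let E : (K ≃ₐ[ℚ] K) ≃* (ZMod w1)ˣ × (ZMod w2)ˣ :=
    (IsCyclotomicExtension.Rat.galEquivZMod (w1 * w2) K).trans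
      ((Units.mapEquiv (ZMod.chineseRemainder hcop).toMulEquiv).trans MulEquiv.prodUnits)
  have hcard1 : Nat.card (Mgp K (r1 * r2)) =
      Nat.card {u : (ZMod w1)ˣ × (ZMod w2)ˣ // u ^ (r1 * r2) = 1} := by
    refine Nat.card_congr ?_
    refine Equiv.subtypeEquiv E.toEquiv fun τ => ?_
    rw [ncyc_mgp (cyc_comm (w1 * w2))]
    show τ ^ (r1 * r2) = 1 ↔ E τ ^ (r1 * r2) = 1
    rw [← map_pow]
    constructor
    · intro h; rw [h, map_one]
    · intro h
      exact E.injective (by rw [h, map_one])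
  have hcard2 : Nat.card {u : (ZMod w1)ˣ × (ZMod w2)ˣ // u ^ (r1 * r2) = 1} =
      Nat.card {u : (ZMod w1)ˣ // u ^ (r1 * r2) = 1} * Nat.card {u : (ZMod w2)ˣ // u ^ (r1 * r2) = 1} := by
    rw [← Nat.card_prod]
    refine Nat.card_congr ?_
    refine (Equiv.subtypeEquivRight fun u => ?_).trans
      (Equiv.subtypeProdEquivProd (p := fun u : (ZMod w1)ˣ => u ^ (r1 * r2) = 1)
        (q := fun u : (ZMod w2)ˣ => u ^ (r1 * r2) = 1))
    rw [Prod.ext_iff]
    rfl
  rw [hcard1, hcard2, ncyc_card_pow w1 _ h1, ncyc_card_pow w2 _ h2, e1, e2, Nat.add_sub_cancel,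
    Nat.add_sub_cancel]
  have g1 : Nat.gcd (c1 * r1) (r1 * r2) = r1 := by
    rw [mul_comm c1 r1, Nat.gcd_mul_left]
    have : Nat.gcd c1 r2 = 1 := (Nat.Coprime.coprime_mul_right_right hc2).symm
    rw [this, mul_one]
  have g2 : Nat.gcd (c2 * r2) (r1 * r2) = r2 := by
    rw [Nat.gcd_mul_right]
    have : Nat.gcd c2 r1 = 1 := (Nat.Coprime.coprime_mul_left_right hc1).symm
    rw [this, one_mul]
  rw [g1, g2]

end Pool.Agent.Lib.MP_79499b_co.DZ
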