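import Mathlib

/-!
# DZ, part (N): definitions

`GapAt K g`: the only algebraic integers of `K` all of whose conjugates are at most `g` in absolute
value are the rational integers.

`BadP K e0 a p`: there is an integer `β` of `K` with `|β| = (a p)^e0` in every embedding which is not
divisible by `p^e0`.

`IsConjAut K cc`: the automorphism `cc` is complex conjugation in every embedding.

`HasNIB K B`: the ring of integers has a basis permuted simply transitively by the Galois group (a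
normal integral basis) with all conjugates at most `B`.

`MFix F r β`: `β` is fixed by all automorphisms `τ` with `τ ^ r = 1`.

`ND F e0 r n`: every `MFix F r` integer `β` with `|β| = n^e0` in every embedding is `± n^e0`.
-/

set_option autoImplicit false

open NumberField
open scoped Pointwise

namespace Pool.Agent.Lib.MP_79499b_co.DZ

/-- All small integers of `K` are rational. -/
def GapAt (K : Type) [Field K] [NumberField K] (g : ℝ) : Prop :=
  ∀ h : 𝓞 K, (∀ φ : K →+* ℂ, ‖φ (h : K)‖ ≤ g) → ∃ z : ℤ, h = (z : 𝓞 K)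

/-- The prime `p` is bad for `a`. -/
def BadP (K : Type) [Field K] [NumberField K] (e0 a p : ℕ) : Prop :=
  ∃ β : 𝓞 K, (∀ φ : K →+* ℂ, ‖φ (β : K)‖ = ((a * p : ℕ) : ℝ) ^ e0) ∧ ¬ ((p : 𝓞 K) ^ e0 ∣ β)

/-- `cc` is complex conjugation in every embedding. -/
def IsConjAut (K : Type) [Field K] [NumberField K] (cc : K ≃ₐ[ℚ] K) : Prop :=
  ∀ (φ : K →+* ℂ) (x : K), φ (cc x) = (starRingEnd ℂ) (φ x)

/-- A normal integral basis with conjugates at most `B`. -/
def HasNIB (K : Type) [Field K] [NumberField K] (B : ℝ) : Prop :=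
  ∃ b : Module.Basis (K ≃ₐ[ℚ] K) ℤ (𝓞 K), (∀ g h : K ≃ₐ[ℚ] K, g • b h = b (g * h)) ∧
    ∀ (φ : K →+* ℂ) (g : K ≃ₐ[ℚ] K), ‖φ ((b g : 𝓞 K) : K)‖ ≤ B

/-- The prime `p` is unramified in `K`: it is in no square of a prime ideal. -/
def Unram (K : Type) [Field K] [NumberField K] (p : ℕ) : Prop :=
  ∀ P : Ideal (𝓞 K), P.IsPrime → (p : 𝓞 K) ∈ P → (p : 𝓞 K) ∉ P ^ 2

/-- The prime `q` splits completely in `K`: some prime ideal over `q` has trivial stabilizer. -/
def SplitIn (K : Type) [Field K] [NumberField K] (q : ℕ) : Prop :=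
  ∃ P : Ideal (𝓞 K), P.IsPrime ∧ (q : 𝓞 K) ∈ P ∧ ∀ τ : K ≃ₐ[ℚ] K, τ • P = P → τ = 1

/-- `Phi v I` is the product of the `τ I` to the power `v τ`. -/
noncomputable def Phi {L : Type} [Field L] [NumberField L] (v : (L ≃ₐ[ℚ] L) → ℕ)
    (I : Ideal (𝓞 L)) : Ideal (𝓞 L) :=
  ∏ τ : L ≃ₐ[ℚ] L, (τ • I) ^ v τ

/-- `PhiE v x` is the product of the `τ x` to the power `v τ`. -/
noncomputable def PhiE {L : Type} [Field L] [NumberField L] (v : (L ≃ₐ[ℚ] L) → ℕ)
    (x : 𝓞 L) : 𝓞 L :=
  ∏ τ : L ≃ₐ[ℚ] L, (τ • x) ^ v τ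

/-- `β` is fixed by all automorphisms of order dividing `r`. -/
def MFix (F : Type) [Field F] [NumberField F] (r : ℕ) (β : 𝓞 F) : Prop :=
  ∀ τ : F ≃ₐ[ℚ] F, τ ^ r = 1 → τ (β : F) = (β : F)

/-- The only `MFix F r` solutions of `|β| = n^e0` (all embeddings) are `± n^e0`. -/
def ND (F : Type) [Field F] [NumberField F] (e0 r n : ℕ) : Prop :=
  ∀ β : 𝓞 F, MFix F r β → (∀ φ : F →+* ℂ, ‖φ (β : F)‖ = (n : ℝ) ^ e0) →
    β = (n : 𝓞 F) ^ e0 ∨ β = -(n : 𝓞 F) ^ e0

/-- The subgroup generated by the automorphisms of order dividing `r`. -/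
def Mgp (F : Type) [Field F] [NumberField F] (r : ℕ) : Subgroup (F ≃ₐ[ℚ] F) :=
  Subgroup.closure {τ | τ ^ r = 1}

/-- The field of elements fixed by all automorphisms of order dividing `r`. -/
noncomputable abbrev KF (F : Type) [Field F] [NumberField F] (r : ℕ) : IntermediateField ℚ F :=
  IntermediateField.fixedField (Mgp F r)

end Pool.Agent.Lib.MP_79499b_co.DZ
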