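import Pool.Agent.Lib.MP_79499b_co.DZ.NPhi

/-!
# NLab: equal labels have equal primes q

Setting: `v τ + v (cc τ) = 2e`, `v` not constant `e`; `GapAt L g`, `Q^(2e) ≤ g`; `𝔞 ≠ 0`; for `p ∈ R` an ideal
`𝔭 p` of norm `p` and `γ p` with `𝔞 Phi(𝔭 p) = (γ p)`, `|γ p| = (a0 p)^e` in every embedding; `q, q' ≤ Q`
primes with prime ideals `𝔮, 𝔮'` of norm `q, q'` and trivial stabilizer; `S, S'` subsets of `R` of the same
size; `(β) = C A 𝔮`, `(β') = C A' 𝔮'`, `A = ∏_{p ∈ S} 𝔭 p`, `A'` the same for `S'`. Claim: `q = q'`.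

Proof. Suppose `q ≠ q'`. Write `Φ = Phi v`, `Φ' = Phi (v ∘ (cc *))`, `x^Φ = PhiE v x`. `Φ` is multiplicative.
(1) `Φ(C) Φ(A) Φ(𝔮) = (β^Φ)` and `Φ(C) Φ(A') Φ(𝔮') = (β'^Φ)` (`Phi_span`), with
`|β^Φ| = N((β))^e = (N(C) N(A) q)^e`, `|β'^Φ| = (N(C) N(A') q')^e` (`norm_PhiE`; `N` multiplicative).
Here `N(A) = ∏_{p ∈ S} p`.
(2) `∏_{p ∈ S} (γ p) = 𝔞^j Φ(A)`, `∏_{p ∈ S'} (γ p) = 𝔞^j Φ(A')`, `j = |S| = |S'|`. Put
`G = ∏_{p ∈ S} γ p`, `G' = ∏_{p ∈ S'} γ p`; `|G| = a0^(je) N(A)^e`, `|G'| = a0^(je) N(A')^e`.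
(3) Put `x = G β'^Φ`, `x' = G' β^Φ`. Ideals: `(x) Φ(𝔮) = 𝔞^j Φ(A) Φ(C) Φ(A') Φ(𝔮') Φ(𝔮) = (x') Φ(𝔮')`.
(4) Multiply by `Φ'(𝔮')`: by `Phi_conj`, `(x) Φ(𝔮) Φ'(𝔮') = (x') (q')^(2e)`. So `x` divides `x' q'^(2e)` in
`𝓞 L` (`Ideal.span_singleton_le_span_singleton`, `Ideal.dvd_iff_le`): `x' q'^(2e) = x h`, and cancelling the
nonzero ideal `(x)`: `(h) = Φ(𝔮) Φ'(𝔮')`.
(5) `|h| = |x'| q'^(2e) / |x| = (N(A')^e (N(C) N(A) q)^e q'^(2e)) / (N(A)^e (N(C) N(A') q')^e) = (q q')^e ≤ Q^(2e) ≤ g`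
in every embedding. By `GapAt`, `h = z` is a rational integer, so `τ h = h` for all `τ`.
(6) Compare the multiplicity of the prime ideal `σ 𝔮` in `(h)` for `σ` in the Galois group. It is `v σ`:
the `τ 𝔮` are different prime ideals, and `Φ'(𝔮')` is a product of prime ideals containing `q' ≠ q`, which
are not equal to `σ 𝔮` (it contains `q`; `q, q'` coprime). As `σ • (h) = (h)`, the multiplicity of `σ 𝔮` in
`(h)` equals that of `𝔮`, so `v σ = v 1` for all `σ`. Then `2 v 1 = 2e`, `v` is constant `e`: contradiction.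
(All ideals and numbers are nonzero: `β ≠ 0` because its ideal is a product of nonzero ideals; `p > 0`,
`a0 > 0`.)
-/

set_option autoImplicit false

open NumberField
open scoped Pointwise

namespace Pool.Agent.Lib.MP_79499b_co.DZ

/-- multiplicity of a conjugate of a totally split prime in `Phi v 𝔮 * J` -/
theorem NLab_mult {L : Type} [Field L] [NumberField L] (v : (L ≃ₐ[ℚ] L) → ℕ)
    (𝔮 : Ideal (𝓞 L)) (h𝔮 : 𝔮.IsPrime) (hb : 𝔮 ≠ ⊥)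
    (hst : ∀ τ : L ≃ₐ[ℚ] L, τ • 𝔮 = 𝔮 → τ = 1) (J : Ideal (𝓞 L)) (σ : L ≃ₐ[ℚ] L)
    (hJ : ¬ (σ • 𝔮) ∣ J) :
    emultiplicity (σ • 𝔮) (Phi v 𝔮 * J) = v σ := by
  classical
  have hpr : ∀ τ : L ≃ₐ[ℚ] L, Prime (τ • 𝔮) := fun τ =>
    Ideal.prime_of_isPrime (NPhi_smul_bot τ 𝔮 hb) (NPhi_isPrime_smul τ 𝔮 h𝔮)
  rw [emultiplicity_mul (hpr σ), emultiplicity_eq_zero.2 hJ, add_zero]
  unfold Phi
  rw [Finset.emultiplicity_prod (hpr σ), Finset.sum_eq_single σ]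
  · rw [emultiplicity_pow_self (hpr σ).ne_zero (hpr σ).not_isUnit]
  · intro τ _ hne
    rw [emultiplicity_eq_zero]
    intro h
    have h1 := (hpr σ).dvd_of_dvd_pow h
    have h2 : σ • 𝔮 = τ • 𝔮 := by
      have h3 := (hpr σ).dvd_prime_iff_associated (hpr τ)
      exact associated_iff_eq.1 (h3.1 h1)
    apply hne
    have h4 : (σ⁻¹ * τ) • 𝔮 = 𝔮 := by
      rw [mul_smul, ← h2, inv_smul_smul]
    have h5 := hst _ h4
    rw [inv_mul_eq_one] at h5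
    exact h5.symm
  · intro h
    exact absurd (Finset.mem_univ σ) h

theorem label_unique {L : Type} [Field L] [NumberField L] [IsGalois ℚ L] (cc : L ≃ₐ[ℚ] L)
    (hcc : IsConjAut L cc) (v : (L ≃ₐ[ℚ] L) → ℕ) (e : ℕ)
    (hv : ∀ τ, v τ + v (cc * τ) = 2 * e) (hnc : ∃ τ, v τ ≠ e)
    (g : ℝ) (hgap : GapAt L g) (Q : ℝ) (hQg : Q ^ (2 * e) ≤ g)
    (𝔞 : Ideal (𝓞 L)) (h𝔞 : 𝔞 ≠ ⊥) (a0 : ℝ) (ha0 : 0 < a0)
    (𝔭 : ℕ → Ideal (𝓞 L)) (γ : ℕ → 𝓞 L) (R : Finset ℕ)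
    (hR : ∀ p ∈ R, 0 < p ∧ Ideal.absNorm (𝔭 p) = p ∧ 𝔞 * Phi v (𝔭 p) = Ideal.span {γ p} ∧
      ∀ φ : L →+* ℂ, ‖φ ((γ p : 𝓞 L) : L)‖ = (a0 * p) ^ e)
    (q q' : ℕ) (hq : q.Prime) (hq' : q'.Prime) (hqQ : (q : ℝ) ≤ Q) (hqQ' : (q' : ℝ) ≤ Q)
    (𝔮 𝔮' : Ideal (𝓞 L)) (h𝔮 : 𝔮.IsPrime) (h𝔮' : 𝔮'.IsPrime)
    (hN : Ideal.absNorm 𝔮 = q) (hN' : Ideal.absNorm 𝔮' = q')
    (hst : ∀ τ : L ≃ₐ[ℚ] L, τ • 𝔮 = 𝔮 → τ = 1) (hst' : ∀ τ : L ≃ₐ[ℚ] L, τ • 𝔮' = 𝔮' → τ = 1)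
    (S S' : Finset ℕ) (hS : S ⊆ R) (hS' : S' ⊆ R) (hcard : S.card = S'.card)
    (C : Ideal (𝓞 L)) (hC : C ≠ ⊥) (β β' : 𝓞 L)
    (h1 : Ideal.span {β} = C * (∏ p ∈ S, 𝔭 p) * 𝔮)
    (h2 : Ideal.span {β'} = C * (∏ p ∈ S', 𝔭 p) * 𝔮') : q = q' := by
  classical
  by_contra hqq
  have hpb : ∀ p ∈ R, 𝔭 p ≠ ⊥ := by
    intro p hp h
    have h3 := (hR p hp).2.1
    rw [h, Ideal.absNorm_bot] at h3
    exact (hR p hp).1.ne h3
  have hqb : 𝔮 ≠ ⊥ := by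
    rintro rfl
    rw [Ideal.absNorm_bot] at hN
    exact hq.ne_zero hN.symm
  have hqb' : 𝔮' ≠ ⊥ := by
    rintro rfl
    rw [Ideal.absNorm_bot] at hN'
    exact hq'.ne_zero hN'.symm
  -- facts for a subset
  have key : ∀ T : Finset ℕ, T ⊆ R →
      (∏ p ∈ T, 𝔭 p) ≠ ⊥ ∧ ((Ideal.absNorm (∏ p ∈ T, 𝔭 p) : ℕ) : ℝ) = ∏ p ∈ T, (p : ℝ) ∧
      0 < ∏ p ∈ T, (p : ℝ) ∧
      𝔞 ^ T.card * Phi v (∏ p ∈ T, 𝔭 p) = Ideal.span {∏ p ∈ T, γ p} ∧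
      ∀ φ : L →+* ℂ, ‖φ ((∏ p ∈ T, γ p : 𝓞 L) : L)‖ = (a0 ^ T.card * ∏ p ∈ T, (p : ℝ)) ^ e := by
    intro T hT
    refine ⟨?_, ?_, ?_, ?_, ?_⟩
    · exact Finset.prod_ne_zero_iff.2 fun p hp => hpb p (hT hp)
    · rw [map_prod, Nat.cast_prod]
      exact Finset.prod_congr rfl fun p hp => by rw [(hR p (hT hp)).2.1]
    · exact Finset.prod_pos fun p hp => by exact_mod_cast (hR p (hT hp)).1
    · rw [← Ideal.prod_span_singleton, Phi_prod, ← Finset.prod_const, ← Finset.prod_mul_distrib]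
      exact Finset.prod_congr rfl fun p hp => (hR p (hT hp)).2.2.1
    · intro φ
      have h3 : ((∏ p ∈ T, γ p : 𝓞 L) : L) = ∏ p ∈ T, ((γ p : 𝓞 L) : L) := by
        push_cast
        rfl
      rw [h3, map_prod, norm_prod, ← Finset.prod_const, ← Finset.prod_mul_distrib, ← Finset.prod_pow]
      exact Finset.prod_congr rfl fun p hp => (hR p (hT hp)).2.2.2 φ
  obtain ⟨kA, kN, kpos, kG, kn⟩ := key S hS
  obtain ⟨kA', kN', kpos', kG', kn'⟩ := key S' hS'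
  set A := ∏ p ∈ S, 𝔭 p with hA
  set A' := ∏ p ∈ S', 𝔭 p with hA'
  set G := ∏ p ∈ S, γ p with hG
  set G' := ∏ p ∈ S', γ p with hG'
  set nA : ℝ := ∏ p ∈ S, (p : ℝ) with hnA
  set nA' : ℝ := ∏ p ∈ S', (p : ℝ) with hnA'
  set nC : ℝ := ((Ideal.absNorm C : ℕ) : ℝ) with hnC
  have hnCpos : 0 < nC := by
    have h3 : Ideal.absNorm C ≠ 0 := fun h => hC (Ideal.absNorm_eq_zero_iff.1 h)
    rw [hnC]
    exact_mod_cast Nat.pos_of_ne_zero h3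
  have hqpos : (0 : ℝ) < q := by exact_mod_cast hq.pos
  have hqpos' : (0 : ℝ) < q' := by exact_mod_cast hq'.pos
  rw [← hcard] at kG' kn'
  set j := S.card with hj
  -- (1)
  have e1 : Phi v C * Phi v A * Phi v 𝔮 = Ideal.span {PhiE v β} := by
    rw [← Phi_span, h1, Phi_mul, Phi_mul]
  have e1' : Phi v C * Phi v A' * Phi v 𝔮' = Ideal.span {PhiE v β'} := by
    rw [← Phi_span, h2, Phi_mul, Phi_mul]
  have n1 : ∀ φ : L →+* ℂ, ‖φ ((PhiE v β : 𝓞 L) : L)‖ = (nC * nA * q) ^ e := by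
    intro φ
    rw [norm_PhiE cc hcc v e hv β φ, h1, map_mul, map_mul, hN]
    push_cast
    rw [kN]
  have n1' : ∀ φ : L →+* ℂ, ‖φ ((PhiE v β' : 𝓞 L) : L)‖ = (nC * nA' * q') ^ e := by
    intro φ
    rw [norm_PhiE cc hcc v e hv β' φ, h2, map_mul, map_mul, hN']
    push_cast
    rw [kN']
  have hβ : β ≠ 0 := by
    rintro rfl
    have h3 : C * A * 𝔮 = ⊥ := by rw [← h1]; simp
    have h4 : C * A * 𝔮 ≠ 0 := mul_ne_zero (mul_ne_zero hC kA) hqb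
    exact h4 h3
  have hβ' : β' ≠ 0 := by
    rintro rfl
    have h3 : C * A' * 𝔮' = ⊥ := by rw [← h2]; simp
    have h4 : C * A' * 𝔮' ≠ 0 := mul_ne_zero (mul_ne_zero hC kA') hqb'
    exact h4 h3
  have hG0 : G ≠ 0 := by
    intro h
    have h3 : 𝔞 ^ j * Phi v A = ⊥ := by rw [kG, h]; simp
    have h4 : 𝔞 ^ j * Phi v A ≠ 0 := mul_ne_zero (pow_ne_zero _ h𝔞) (Phi_ne_bot v A kA)
    exact h4 h3
  have hG0' : G' ≠ 0 := by
    intro h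
    have h3 : 𝔞 ^ j * Phi v A' = ⊥ := by rw [kG', h]; simp
    have h4 : 𝔞 ^ j * Phi v A' ≠ 0 := mul_ne_zero (pow_ne_zero _ h𝔞) (Phi_ne_bot v A' kA')
    exact h4 h3
  set x := G * PhiE v β' with hx
  set x' := G' * PhiE v β with hx'
  have hx0 : x ≠ 0 := mul_ne_zero hG0 (PhiE_ne_zero v β' hβ')
  -- (3)
  have e3 : Ideal.span {x} * Phi v 𝔮 = Ideal.span {x'} * Phi v 𝔮' := by
    rw [hx, hx', ← Ideal.span_singleton_mul_span_singleton, ← Ideal.span_singleton_mul_span_singleton,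
      ← kG, ← kG', ← e1, ← e1']
    ring
  -- (4)
  set Φ' := Phi (fun τ => v (cc * τ)) 𝔮' with hΦ'
  have e4 : Ideal.span {x} * (Phi v 𝔮 * Φ') = Ideal.span {x' * (q' : 𝓞 L) ^ (2 * e)} := by
    rw [← mul_assoc, e3, mul_assoc, Phi_conj cc v e hv 𝔮' h𝔮' q' hq' hN' hst',
      Ideal.span_singleton_pow, Ideal.span_singleton_mul_span_singleton]
  have hdvd : x ∣ x' * (q' : 𝓞 L) ^ (2 * e) := by
    rw [← Ideal.span_singleton_le_span_singleton, ← e4]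
    exact Ideal.mul_le_left (I := Ideal.span {x}) (J := Phi v 𝔮 * Φ')
  obtain ⟨h, hh⟩ := hdvd
  have e5 : Ideal.span {h} = Phi v 𝔮 * Φ' := by
    have h3 : Ideal.span {x} * Ideal.span {h} = Ideal.span {x} * (Phi v 𝔮 * Φ') := by
      rw [e4, hh, Ideal.span_singleton_mul_span_singleton]
    have h4 : Ideal.span {x} ≠ (0 : Ideal (𝓞 L)) := by
      simpa [Ideal.zero_eq_bot, Ideal.span_singleton_eq_bot] using hx0
    exact mul_left_cancel₀ h4 h3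
  -- (5)
  have e6 : ∀ φ : L →+* ℂ, ‖φ (h : L)‖ = ((q : ℝ) * q') ^ e := by
    intro φ
    have h3 : φ ((x' : 𝓞 L) : L) * (q' : ℂ) ^ (2 * e) = φ ((x : 𝓞 L) : L) * φ (h : L) := by
      have h4 := congrArg (fun y : 𝓞 L => φ ((y : 𝓞 L) : L)) hh
      simpa using h4
    have h4 := congrArg norm h3
    rw [norm_mul, norm_mul, norm_pow, Complex.norm_natCast] at h4
    have h5 : ‖φ ((x' : 𝓞 L) : L)‖ = (a0 ^ j * nA') ^ e * (nC * nA * q) ^ e := by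
      have h6 : ((x' : 𝓞 L) : L) = ((G' : 𝓞 L) : L) * ((PhiE v β : 𝓞 L) : L) := by
        rw [hx']
        push_cast
        rfl
      rw [h6, map_mul, norm_mul, kn' φ, n1 φ]
    have h5' : ‖φ ((x : 𝓞 L) : L)‖ = (a0 ^ j * nA) ^ e * (nC * nA' * q') ^ e := by
      have h6 : ((x : 𝓞 L) : L) = ((G : 𝓞 L) : L) * ((PhiE v β' : 𝓞 L) : L) := by
        rw [hx]
        push_cast
        rfl
      rw [h6, map_mul, norm_mul, kn φ, n1' φ]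
    rw [h5, h5'] at h4
    have h7 : (0 : ℝ) < (a0 ^ j * nA) ^ e * (nC * nA' * q') ^ e := by positivity
    have h8 : (a0 ^ j * nA) ^ e * (nC * nA' * q') ^ e * ‖φ (h : L)‖ =
        (a0 ^ j * nA) ^ e * (nC * nA' * q') ^ e * ((q : ℝ) * q') ^ e := by
      rw [← h4, pow_mul]
      simp only [mul_pow]
      ring
    exact mul_left_cancel₀ h7.ne' h8
  obtain ⟨z, hz⟩ := hgap h (by
    intro φ
    rw [e6 φ]
    refine le_trans ?_ hQg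
    rw [pow_mul]
    refine pow_le_pow_left₀ (by positivity) ?_ e
    rw [sq]
    exact mul_le_mul hqQ hqQ' hqpos'.le (hqpos.le.trans hqQ))
  -- (6)
  have hfix : ∀ σ : L ≃ₐ[ℚ] L, σ • Ideal.span {h} = Ideal.span {h} := by
    intro σ
    have h3 : σ • ((z : ℤ) : 𝓞 L) = ((z : ℤ) : 𝓞 L) :=
      map_intCast (MulSemiringAction.toRingHom (L ≃ₐ[ℚ] L) (𝓞 L) σ) z
    rw [NPhi_smul_span, hz, h3]
  have hJ : ∀ σ : L ≃ₐ[ℚ] L, ¬ (σ • 𝔮) ∣ Φ' := by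
    intro σ hd
    have hpr : Prime (σ • 𝔮) :=
      Ideal.prime_of_isPrime (NPhi_smul_bot σ 𝔮 hqb) (NPhi_isPrime_smul σ 𝔮 h𝔮)
    rw [hΦ', Phi] at hd
    obtain ⟨τ, _, hτ⟩ := (hpr.dvd_finsetProd_iff _).1 hd
    have h3 := hpr.dvd_of_dvd_pow hτ
    have h4 : (q : 𝓞 L) ∈ σ • 𝔮 := by
      have h := Ideal.absNorm_mem (σ • 𝔮)
      rwa [absNorm_smul, hN] at h
    have h5 : (q' : 𝓞 L) ∈ σ • 𝔮 := by
      have h := Ideal.absNorm_mem (τ • 𝔮')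
      rw [absNorm_smul, hN'] at h
      exact Ideal.dvd_iff_le.1 h3 h
    have h6 : Nat.Coprime q q' := (Nat.coprime_primes hq hq').2 hqq
    have h7 : IsCoprime (q : ℤ) (q' : ℤ) := by exact_mod_cast Nat.isCoprime_iff_coprime.2 h6
    obtain ⟨a, b, hab⟩ := h7
    have h8 : (1 : 𝓞 L) ∈ σ • 𝔮 := by
      have h9 : (1 : 𝓞 L) = (a : 𝓞 L) * (q : 𝓞 L) + (b : 𝓞 L) * (q' : 𝓞 L) := by
        have := congrArg (fun z : ℤ => (z : 𝓞 L)) hab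
        push_cast at this
        exact this.symm
      rw [h9]
      exact Ideal.add_mem _ (Ideal.mul_mem_left _ _ h4) (Ideal.mul_mem_left _ _ h5)
    exact (NPhi_isPrime_smul σ 𝔮 h𝔮).ne_top ((Ideal.eq_top_iff_one _).2 h8)
  have hmul : ∀ σ : L ≃ₐ[ℚ] L, emultiplicity (σ • 𝔮) (Ideal.span {h}) = v σ := by
    intro σ
    rw [e5]
    exact NLab_mult v 𝔮 h𝔮 hqb hst Φ' σ (hJ σ)
  have hdv : ∀ (σ : L ≃ₐ[ℚ] L) (I J : Ideal (𝓞 L)), I ∣ J → σ • I ∣ σ • J := by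
    rintro σ I J ⟨K, rfl⟩
    rw [NPhi_smul_mul]
    exact Dvd.intro _ rfl
  have hinv : ∀ σ : L ≃ₐ[ℚ] L, emultiplicity (σ • 𝔮) (Ideal.span {h}) =
      emultiplicity 𝔮 (Ideal.span {h}) := by
    intro σ
    rw [emultiplicity_eq_emultiplicity_iff]
    intro n
    constructor
    · intro hd
      have h3 := hdv σ⁻¹ _ _ hd
      rw [hfix, smul_pow', inv_smul_smul] at h3
      exact h3
    · intro hd
      have h3 := hdv σ _ _ hd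
      rw [hfix, smul_pow'] at h3
      exact h3
  have hconst : ∀ σ : L ≃ₐ[ℚ] L, v σ = v 1 := by
    intro σ
    have h3 := hmul σ
    have h4 := hmul 1
    rw [hinv] at h3 h4
    rw [h3] at h4
    exact_mod_cast h4
  obtain ⟨τ, hτ⟩ := hnc
  have h3 := hv τ
  rw [hconst (cc * τ), hconst τ] at h3
  apply hτ
  rw [hconst τ]
  omega

end Pool.Agent.Lib.MP_79499b_co.DZ
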