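import Pool.Agent.Lib.MP_79499b_co.DZ.NDef

/-!
# NLat: lattice points of an ideal in a box

Statement: a set `S` of elements of the nonzero ideal `J` with coordinates in `[-m, m]` has at most
`(2m + N)^i / N` elements, `N = N(J)`.

Proof. `N ∈ J` (`Ideal.absNorm_mem`), so every class of `𝓞 L ⧸ J` has a representative `ρ` with all
coordinates in `[0, N-1]` (reduce the coordinates of any representative modulo `N`: the difference is in
`N 𝓞 L ⊆ J`). Choose one such `ρ c` for every class `c`; there are `N = Nat.card (𝓞 L ⧸ J)` classes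
(`Ideal.absNorm_apply`). The map `S × (𝓞 L ⧸ J) → (ι → ℤ)`, `(β, c) ↦ coordinates of β + ρ c`, is injective
(the class of `β + ρ c` is `c` since `β ∈ J`, and then `β` is determined), and its values lie in
`[-m, m + N - 1]^i`, a set of `(2m + N)^i` elements (`Fintype.piFinset`, `Int.card_Icc`).
-/

set_option autoImplicit false

open NumberField
open scoped Pointwise

namespace Pool.Agent.Lib.MP_79499b_co.DZ

theorem lat_count {L : Type} [Field L] [NumberField L] {ι : Type} [Fintype ι]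
    (b : Module.Basis ι ℤ (𝓞 L)) (J : Ideal (𝓞 L)) (hJ : J ≠ ⊥) (m : ℕ)
    (S : Finset (𝓞 L)) (hS : ∀ β ∈ S, β ∈ J ∧ ∀ k, |b.repr β k| ≤ (m : ℤ)) :
    S.card * Ideal.absNorm J ≤ (2 * m + Ideal.absNorm J) ^ Fintype.card ι := by
  classical
  haveI hfin : Finite (𝓞 L ⧸ J) := Ideal.finiteQuotientOfFreeOfNeBot J hJ
  haveI := Fintype.ofFinite (𝓞 L ⧸ J)
  obtain ⟨N, hN⟩ : ∃ N : ℕ, N = Ideal.absNorm J := ⟨_, rfl⟩
  have hcard : Fintype.card (𝓞 L ⧸ J) = N := by
    rw [hN, ← Nat.card_eq_fintype_card, Ideal.absNorm_apply, Submodule.cardQuot_apply]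
  have hNpos : 0 < N := by
    rw [← hcard]
    exact Fintype.card_pos_iff.mpr ⟨0⟩
  have hNJ : ((N : ℤ) : 𝓞 L) ∈ J := by
    have := Ideal.absNorm_mem J
    rw [← hN] at this
    simpa using this
  have hN0 : (0 : ℤ) < (N : ℤ) := by exact_mod_cast hNpos
  have hρ : ∀ c : 𝓞 L ⧸ J, ∃ r : 𝓞 L, Ideal.Quotient.mk J r = c ∧
      ∀ k, 0 ≤ b.repr r k ∧ b.repr r k < N := by
    intro c
    obtain ⟨x, rfl⟩ := Ideal.Quotient.mk_surjective c
    have hrep : ∀ k, b.repr (∑ k, (b.repr x k % (N : ℤ)) • b k) k = b.repr x k % (N : ℤ) := by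
      intro k
      rw [b.repr_sum_self]
    refine ⟨∑ k, (b.repr x k % (N : ℤ)) • b k, ?_, fun k => ?_⟩
    · rw [eq_comm, Ideal.Quotient.eq]
      have h1 : x - ∑ k, (b.repr x k % (N : ℤ)) • b k =
          ((N : ℤ) : 𝓞 L) * ∑ k, (b.repr x k / (N : ℤ)) • b k := by
        have h2 : x = ∑ k, b.repr x k • b k := (b.sum_repr x).symm
        rw [Finset.mul_sum]
        have h3 : ∑ k, b.repr x k • b k - ∑ k, (b.repr x k % (N : ℤ)) • b k =
            ∑ k, ((N : ℤ) : 𝓞 L) * (b.repr x k / (N : ℤ)) • b k := by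
          rw [← Finset.sum_sub_distrib]
          refine Finset.sum_congr rfl fun k _ => ?_
          rw [← sub_smul, Int.emod_def, sub_sub_cancel, zsmul_eq_mul, zsmul_eq_mul, Int.cast_mul]
          ring
        rw [← h3, ← h2]
      rw [h1]
      exact J.mul_mem_right _ hNJ
    · rw [hrep k]
      exact ⟨Int.emod_nonneg _ hN0.ne', Int.emod_lt_of_pos _ hN0⟩
  choose ρ hρ1 hρ2 using hρ
  have hinj : Set.InjOn (fun q : 𝓞 L × (𝓞 L ⧸ J) => fun k => b.repr (q.1 + ρ q.2) k)
      (S ×ˢ (Finset.univ : Finset (𝓞 L ⧸ J)) : Finset (𝓞 L × (𝓞 L ⧸ J))) := by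
    rintro ⟨β, c⟩ h ⟨β', c'⟩ h' heq
    rw [Finset.mem_coe, Finset.mem_product] at h h'
    have h1 : β + ρ c = β' + ρ c' := b.repr.injective (Finsupp.ext fun k => congrFun heq k)
    have h2 : Ideal.Quotient.mk J β = 0 := Ideal.Quotient.eq_zero_iff_mem.mpr (hS β h.1).1
    have h3 : Ideal.Quotient.mk J β' = 0 := Ideal.Quotient.eq_zero_iff_mem.mpr (hS β' h'.1).1
    have h4 := congrArg (Ideal.Quotient.mk J) h1
    rw [map_add, map_add, h2, h3, zero_add, zero_add, hρ1, hρ1] at h4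
    subst h4
    rw [add_right_cancel h1]
  have hmap : ∀ q ∈ S ×ˢ (Finset.univ : Finset (𝓞 L ⧸ J)),
      (fun k => b.repr (q.1 + ρ q.2) k) ∈
        Fintype.piFinset (fun _ : ι => Finset.Ico (-(m : ℤ)) (m + N)) := by
    rintro ⟨β, c⟩ h
    rw [Finset.mem_product] at h
    rw [Fintype.mem_piFinset]
    intro k
    rw [Finset.mem_Ico]
    show -(m : ℤ) ≤ b.repr (β + ρ c) k ∧ b.repr (β + ρ c) k < m + N
    rw [map_add, Finsupp.add_apply]
    have h1 := abs_le.mp ((hS β h.1).2 k)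
    have h2 := hρ2 c k
    constructor <;> linarith [h1.1, h1.2, h2.1, h2.2]
  have hle := Finset.card_le_card_of_injOn _ hmap hinj
  rw [Finset.card_product, Finset.card_univ, hcard, Fintype.card_piFinset, Finset.prod_const,
    Finset.card_univ, Int.card_Ico] at hle
  rw [← hN]
  have h5 : ((m : ℤ) + N - -(m : ℤ)).toNat = 2 * m + N := by omega
  rwa [h5] at hle

end Pool.Agent.Lib.MP_79499b_co.DZ
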