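import Pool.Agent.Lib.MP_79499b_co.DZ.NDef

/-!
# NSum: the sum of 1/N(I) over the ideals of norm at most T

Statement: `∑ 1/N(I) ≤ (1 + log T)^i` over any finite set of nonzero ideals of norm at most `T`,
`i = [L : ℚ]`.

Proof. For every rational prime `p` there are at most `i` prime ideals of `𝓞 L` containing `p` (the product
of the different prime ideals over `p` divides `(p)`, whose norm is `p^i`, and each of them has norm at
least `p`; or `Ideal.ncard_primesOver_mul_..`, `Ideal.sum_ramification_inertia`). So there is a function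
`idx` from the nonzero prime ideals to `Fin i` which is injective on the prime ideals over the same `p`.
For a nonzero ideal `I` and `k : Fin i` let `m_k(I)` be the product of `N(P)^(v_P(I))` over the prime
divisors `P` of `I` with `idx P = k` (the product of the norms of the elements of
`(normalizedFactors I).filter (idx = k)`). Then `∏_k m_k(I) = N(I)`, in particular `1 ≤ m_k(I) ≤ N(I) ≤ T`,
and `I ↦ (m_k(I))_k` is injective: if `P` is a prime ideal over `p` with `idx P = k` and `N(P) = p^f`,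
`f ≥ 1`, then the exponent of `p` in `m_k(I)` is `f v_P(I)` (norms of prime ideals over other primes are
powers of these other primes, and `P` is the only prime ideal over `p` of index `k`), so the `m_k(I)`
determine all `v_P(I)`. Hence
`∑_{I ∈ S} 1/N(I) = ∑_{I ∈ S} ∏_k 1/m_k(I) ≤ ∏_k ∑_{m ≤ T} 1/m ≤ (1 + log T)^i`
(`Finset.prod_univ_sum` / `Fintype.piFinset`, `harmonic_le_one_add_log`).
-/

set_option autoImplicit false

open NumberField
open scoped Pointwise

namespace Pool.Agent.Lib.MP_79499b_co.DZ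

section nsum

variable {L : Type} [Field L] [NumberField L]

/-- the rational prime below -/
private noncomputable def nsumPr (P : Ideal (𝓞 L)) : ℕ := Ideal.absNorm (Ideal.under ℤ P)

omit [NumberField L] in
private theorem nsum_lies (P : Ideal (𝓞 L)) : P.LiesOver (Ideal.span {(nsumPr P : ℤ)}) :=
  ⟨Int.ideal_span_absNorm_eq_self _⟩

omit [NumberField L] in
private theorem nsum_prime (P : Ideal (𝓞 L)) (hP : P.IsPrime) (h0 : P ≠ ⊥) :
    (nsumPr P).Prime := by
  have : NeZero P := ⟨h0⟩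
  exact Nat.absNorm_under_prime P

private theorem nsum_norm (P : Ideal (𝓞 L)) (hP : P.IsPrime) (h0 : P ≠ ⊥) :
    ∃ f : ℕ, f ≠ 0 ∧ Ideal.absNorm P = nsumPr P ^ f := by
  have := nsum_lies P
  have h := Ideal.absNorm_eq_pow_inertiaDeg' P (nsum_prime P hP h0)
  refine ⟨_, ?_, h⟩
  intro hf
  rw [hf, pow_zero, Ideal.absNorm_eq_one_iff] at h
  exact hP.ne_top h

private theorem nsum_idx : ∃ idx : Ideal (𝓞 L) → Fin (Module.finrank ℚ L),
    ∀ P Q : Ideal (𝓞 L), P.IsPrime → P ≠ ⊥ → Q.IsPrime → Q ≠ ⊥ → nsumPr P = nsumPr Q →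
      idx P = idx Q → P = Q := by
  classical
  have hpos : 0 < Module.finrank ℚ L := Module.finrank_pos
  have h : ∀ p : ℕ, ∃ f : Ideal (𝓞 L) → Fin (Module.finrank ℚ L), p.Prime →
      ∀ P Q : Ideal (𝓞 L), P.IsPrime → P ≠ ⊥ → Q.IsPrime → Q ≠ ⊥ → nsumPr P = p →
      nsumPr Q = p → f P = f Q → P = Q := by
    intro p
    by_cases hp : p.Prime
    · have hp0 : (Ideal.span {(p : ℤ)}) ≠ ⊥ := by
        rw [Ne, Ideal.span_singleton_eq_bot]
        exact_mod_cast hp.ne_zero
      have : (Ideal.span {(p : ℤ)}).IsPrime := by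
        rw [Ideal.span_singleton_prime (by exact_mod_cast hp.ne_zero)]
        exact Nat.prime_iff_prime_int.mp hp
      have : (Ideal.span {(p : ℤ)}).IsMaximal := Ideal.IsPrime.isMaximal this hp0
      set s := IsDedekindDomain.primesOverFinset (Ideal.span {(p : ℤ)}) (𝓞 L) with hs
      have hmem : ∀ P : Ideal (𝓞 L), P.IsPrime → nsumPr P = p → P ∈ s := by
        intro P hP hPp
        rw [hs, IsDedekindDomain.mem_primesOverFinset_iff hp0]
        refine ⟨hP, ?_⟩
        have := nsum_lies P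
        rwa [hPp] at this
      have hcard : s.card ≤ Module.finrank ℚ L := by
        rw [Finset.card_eq_sum_ones, ← Ideal.sum_ramification_inertia (𝓞 L) ℚ L hp0]
        refine Finset.sum_le_sum fun P hP => ?_
        have hP' := (IsDedekindDomain.mem_primesOverFinset_iff hp0 _).mp hP
        have : P.IsPrime := hP'.1
        have : P.LiesOver (Ideal.span {(p : ℤ)}) := hP'.2
        refine Right.one_le_mul ?_ ?_
        · exact Nat.pos_iff_ne_zero.mpr
            (Ideal.IsDedekindDomain.ramificationIdx'_ne_zero_of_liesOver _ hp0)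
        · exact Nat.pos_iff_ne_zero.mpr (Ideal.inertiaDeg'_ne_zero _ P)
      obtain ⟨e⟩ : Nonempty (s ↪ Fin (Module.finrank ℚ L)) := by
        apply Function.Embedding.nonempty_of_card_le
        rw [Fintype.card_coe, Fintype.card_fin]
        exact hcard
      refine ⟨fun P => if hP : P ∈ s then e ⟨P, hP⟩ else ⟨0, hpos⟩, fun _ P Q hP _ hQ _ hPp hQp h => ?_⟩
      simp only [dif_pos (hmem P hP hPp), dif_pos (hmem Q hQ hQp)] at h
      exact congrArg Subtype.val (e.injective h)
    · exact ⟨fun _ => ⟨0, hpos⟩, fun h => absurd h hp⟩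
  choose f hf using h
  refine ⟨fun P => f (nsumPr P) P, fun P Q hP hP0 hQ hQ0 hPQ h => ?_⟩
  refine hf (nsumPr Q) (nsum_prime Q hQ hQ0) P Q hP hP0 hQ hQ0 hPQ rfl ?_
  simp only [hPQ] at h
  exact h

/-- the part of index `k` of the norm -/
private noncomputable def nsumM {i : ℕ} (idx : Ideal (𝓞 L) → Fin i) (s : Multiset (Ideal (𝓞 L)))
    (k : Fin i) : ℕ :=
  ((s.filter fun P => idx P = k).map Ideal.absNorm).prod

private theorem nsum_cons {i : ℕ} (idx : Ideal (𝓞 L) → Fin i) (s : Multiset (Ideal (𝓞 L)))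
    (a : Ideal (𝓞 L)) (k : Fin i) :
    nsumM idx (a ::ₘ s) k = (if idx a = k then Ideal.absNorm a else 1) * nsumM idx s k := by
  unfold nsumM
  split_ifs with h
  · rw [Multiset.filter_cons_of_pos (p := fun P => idx P = k) s h, Multiset.map_cons,
      Multiset.prod_cons]
  · rw [Multiset.filter_cons_of_neg (p := fun P => idx P = k) s h, one_mul]

private theorem nsum_prod {i : ℕ} (idx : Ideal (𝓞 L) → Fin i) (s : Multiset (Ideal (𝓞 L))) :
    ∏ k, nsumM idx s k = (s.map Ideal.absNorm).prod := by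
  induction s using Multiset.induction_on with
  | empty => simp [nsumM]
  | cons a s ih =>
    simp only [nsum_cons]
    rw [Finset.prod_mul_distrib, ih, Multiset.map_cons, Multiset.prod_cons]
    simp

private theorem nsum_pos {i : ℕ} (idx : Ideal (𝓞 L) → Fin i) (s : Multiset (Ideal (𝓞 L)))
    (hs : ∀ P ∈ s, P ≠ ⊥) (k : Fin i) : nsumM idx s k ≠ 0 := by
  unfold nsumM
  intro h
  rw [Multiset.prod_eq_zero_iff, Multiset.mem_map] at h
  obtain ⟨P, hP, h0⟩ := h
  exact hs P (Multiset.mem_of_mem_filter hP) (Ideal.absNorm_eq_zero_iff.mp h0)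

private theorem nsum_fact {i : ℕ} (idx : Ideal (𝓞 L) → Fin i)
    (hidx : ∀ P Q : Ideal (𝓞 L), P.IsPrime → P ≠ ⊥ → Q.IsPrime → Q ≠ ⊥ →
      nsumPr P = nsumPr Q → idx P = idx Q → P = Q)
    (P : Ideal (𝓞 L)) (hP : P.IsPrime) (hP0 : P ≠ ⊥) (f : ℕ)
    (hf : Ideal.absNorm P = nsumPr P ^ f) (s : Multiset (Ideal (𝓞 L)))
    (hs : ∀ Q ∈ s, Q.IsPrime ∧ Q ≠ ⊥) :
    (nsumM idx s (idx P)).factorization (nsumPr P) = f * s.count P := by
  classical
  induction s using Multiset.induction_on with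
  | empty => simp [nsumM]
  | cons a s ih =>
    have hs' : ∀ Q ∈ s, Q.IsPrime ∧ Q ≠ ⊥ := fun Q hQ => hs Q (Multiset.mem_cons_of_mem hQ)
    obtain ⟨ha, ha0⟩ := hs a (Multiset.mem_cons_self a s)
    have ih' := ih hs'
    rw [nsum_cons]
    have h1 : (if idx a = idx P then Ideal.absNorm a else 1) ≠ 0 := by
      split_ifs
      · exact Ideal.absNorm_eq_zero_iff.not.mpr ha0
      · exact one_ne_zero
    rw [Nat.factorization_mul h1 (nsum_pos idx s (fun Q hQ => (hs' Q hQ).2) _), Finsupp.add_apply,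
      ih', Multiset.count_cons]
    have hp := nsum_prime P hP hP0
    by_cases hPa : P = a
    · subst hPa
      rw [if_pos rfl, if_pos rfl, hf, Nat.factorization_pow, Finsupp.smul_apply,
        hp.factorization_self]
      simp
      ring
    · rw [if_neg hPa, add_zero]
      split_ifs with h
      · obtain ⟨g, -, hg⟩ := nsum_norm a ha ha0
        have hne : nsumPr a ≠ nsumPr P := fun h2 => hPa (hidx P a hP hP0 ha ha0 h2.symm h.symm)
        rw [hg, Nat.factorization_pow, Finsupp.smul_apply,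
          Nat.factorization_eq_zero_of_not_dvd, smul_zero, zero_add]
        intro hd
        exact hne ((Nat.prime_dvd_prime_iff_eq hp (nsum_prime a ha ha0)).mp hd).symm
      · simp

end nsum


theorem ideal_sum (L : Type) [Field L] [NumberField L] (T : ℕ) (hT : 1 ≤ T)
    (S : Finset (Ideal (𝓞 L))) (hS : ∀ I ∈ S, I ≠ ⊥ ∧ Ideal.absNorm I ≤ T) :
    ∑ I ∈ S, (1 / ((Ideal.absNorm I : ℕ) : ℝ)) ≤ (1 + Real.log T) ^ Module.finrank ℚ L := by
  classical
  obtain ⟨idx, hidx⟩ := nsum_idx (L := L)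
  set nf : Ideal (𝓞 L) → Multiset (Ideal (𝓞 L)) := UniqueFactorizationMonoid.normalizedFactors
    with hnf
  have hfac : ∀ I ∈ S, ∀ Q ∈ nf I, Q.IsPrime ∧ Q ≠ ⊥ := by
    intro I hI Q hQ
    have h := UniqueFactorizationMonoid.prime_of_normalized_factor Q hQ
    exact ⟨Ideal.isPrime_of_prime h, h.ne_zero⟩
  have hprod : ∀ I ∈ S, ∏ k, nsumM idx (nf I) k = Ideal.absNorm I := by
    intro I hI
    rw [nsum_prod, ← map_multiset_prod]
    congr 1
    exact Ideal.prod_normalizedFactors_eq_self (hS I hI).1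
  have hinj : Set.InjOn (fun I => nsumM idx (nf I)) (S : Set (Ideal (𝓞 L))) := by
    intro I hI J hJ h
    have hI' : I ∈ S := hI
    have hJ' : J ∈ S := hJ
    have hms : nf I = nf J := by
      refine Multiset.ext.mpr fun P => ?_
      by_cases hP : P.IsPrime ∧ P ≠ ⊥
      · obtain ⟨f, hf0, hf⟩ := nsum_norm P hP.1 hP.2
        have h1 := nsum_fact idx hidx P hP.1 hP.2 f hf (nf I) (hfac I hI')
        have h2 := nsum_fact idx hidx P hP.1 hP.2 f hf (nf J) (hfac J hJ')
        have h3 : nsumM idx (nf I) (idx P) = nsumM idx (nf J) (idx P) := congrFun h (idx P)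
        rw [h3, h2] at h1
        exact (Nat.eq_of_mul_eq_mul_left (Nat.pos_of_ne_zero hf0) h1).symm
      · rw [Multiset.count_eq_zero_of_notMem, Multiset.count_eq_zero_of_notMem]
        · exact fun h' => hP (hfac J hJ' P h')
        · exact fun h' => hP (hfac I hI' P h')
    have h1 := Ideal.prod_normalizedFactors_eq_self (hS I hI').1
    have h2 := Ideal.prod_normalizedFactors_eq_self (hS J hJ').1
    rw [← h1, ← h2]
    exact congrArg Multiset.prod hms
  have e1 : ∑ I ∈ S, (1 / ((Ideal.absNorm I : ℕ) : ℝ)) =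
      ∑ I ∈ S, ∏ k, (1 / ((nsumM idx (nf I) k : ℕ) : ℝ)) := by
    refine Finset.sum_congr rfl fun I hI => ?_
    rw [← hprod I hI]
    push_cast
    simp [Finset.prod_inv_distrib]
  have e2 : ∑ I ∈ S, ∏ k, (1 / ((nsumM idx (nf I) k : ℕ) : ℝ)) =
      ∑ t ∈ S.image (fun I => nsumM idx (nf I)), ∏ k, (1 / ((t k : ℕ) : ℝ)) := by
    rw [Finset.sum_image hinj]
  have e3 : ∑ t ∈ S.image (fun I => nsumM idx (nf I)), ∏ k, (1 / ((t k : ℕ) : ℝ)) ≤
      ∑ t ∈ Fintype.piFinset (fun _ : Fin (Module.finrank ℚ L) => Finset.Icc 1 T),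
        ∏ k, (1 / ((t k : ℕ) : ℝ)) := by
    apply Finset.sum_le_sum_of_subset_of_nonneg
    · intro t ht
      rw [Finset.mem_image] at ht
      obtain ⟨I, hI, rfl⟩ := ht
      rw [Fintype.mem_piFinset]
      intro k
      have hpos : ∀ k, nsumM idx (nf I) k ≠ 0 := nsum_pos idx _ (fun Q hQ => (hfac I hI Q hQ).2)
      rw [Finset.mem_Icc]
      refine ⟨Nat.one_le_iff_ne_zero.mpr (hpos k), ?_⟩
      have h1 : nsumM idx (nf I) k ∣ ∏ k, nsumM idx (nf I) k :=
        Finset.dvd_prod_of_mem _ (Finset.mem_univ k)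
      rw [hprod I hI] at h1
      exact (Nat.le_of_dvd (Nat.pos_of_ne_zero (Ideal.absNorm_eq_zero_iff.not.mpr (hS I hI).1))
        h1).trans (hS I hI).2
    · intro t _ _
      exact Finset.prod_nonneg fun k _ => by positivity
  have e4 : ∑ t ∈ Fintype.piFinset (fun _ : Fin (Module.finrank ℚ L) => Finset.Icc 1 T),
      ∏ k, (1 / ((t k : ℕ) : ℝ)) =
      ∏ _k : Fin (Module.finrank ℚ L), ∑ m ∈ Finset.Icc 1 T, (1 / ((m : ℕ) : ℝ)) := by
    rw [Finset.prod_univ_sum]
  have e5 : ∑ m ∈ Finset.Icc 1 T, (1 / ((m : ℕ) : ℝ)) ≤ 1 + Real.log T := by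
    have h := harmonic_le_one_add_log T
    rw [harmonic_eq_sum_Icc] at h
    push_cast at h
    simpa only [one_div] using h
  rw [e1, e2]
  refine e3.trans ?_
  rw [e4, Finset.prod_const, Finset.card_univ, Fintype.card_fin]
  exact pow_le_pow_left₀ (Finset.sum_nonneg fun m _ => by positivity) e5 _

end Pool.Agent.Lib.MP_79499b_co.DZ
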