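import Pool.Agent.Lib.MP_79499b_co.DZ.NBox
import Pool.Agent.Lib.MP_79499b_co.DZ.NBd
import Pool.Agent.Lib.MP_79499b_co.DZ.NLat
import Pool.Agent.Lib.MP_79499b_co.DZ.NSum
import Pool.Agent.Lib.MP_79499b_co.DZ.NLab

/-!
# NEv: the counting inequality (Ellenberg and Venkatesh, with the box principle)

Statement: `binom(|R|, j) |𝒬| ≤ 2 * 4^i * (2Y)^j * (1 + log T)^i`, `i = [L : ℚ]`, where `(i B0)^i ≤ T` and
`(T Q + 1)^i ≤ (2Y)^j`.

Proof. Put `i = finrank ℚ L = Fintype.card ι` (`card_eq_finrank`), `i ≥ 1`. If `𝒬` is empty there is nothing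
to prove, so `Q ≥ 2`. Let `S` be a subset of `R` of size `j` and `q ∈ 𝒬`; `A_S = ∏_{p ∈ S} 𝔭 p`,
`N(A_S 𝔮_q) = q ∏_{p ∈ S} p =: N_{S,q} ≤ Q (2Y)^j`. Let `m_{S,q}` be the integer with
`m_{S,q}^i ≤ N_{S,q} < (m_{S,q}+1)^i` (integer `i`-th root, `Nat.find` or `Nat.nthRoot`), and `m` the one for
`Q (2Y)^j`; `m_{S,q} ≤ m`. By `box_ideal` there is `0 ≠ β_{S,q} ∈ A_S 𝔮_q` with coordinates at most
`m_{S,q}`; `A_S 𝔮_q` divides `(β_{S,q})`, so `(β_{S,q}) = C_{S,q} A_S 𝔮_q` with an ideal `C_{S,q} ≠ ⊥`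
(the label). By `norm_bd`, `N(C) N_{S,q} = N((β)) ≤ (i m_{S,q} B0)^i ≤ N_{S,q} (i B0)^i`, so
`N(C_{S,q}) ≤ (i B0)^i ≤ T`.
For a given label `C`, all `(S,q)` with `C_{S,q} = C` have the same `q` (`label_unique`, `a0`, `𝔞`, `γ` as
given), call it `q_C`. The map `S ↦ β_{S,q_C}` is injective on these `S`: `β` determines
`A_S = (β) / (C 𝔮)` (cancel), and `A_S` determines `S`, since `N(A_S) = ∏_{p ∈ S} p` has the set of prime
divisors `S` (`Nat.primeFactors_prod`). The `β_{S,q_C}` are in `C 𝔮`, `N(C 𝔮) = N(C) q ≤ T Q`, with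
coordinates at most `m`. As `(T Q)^i < (T Q + 1)^i ≤ (2Y)^j ≤ Q (2Y)^j < (m+1)^i`, we have `T Q ≤ m`, so by
`lat_count` their number is at most `(2m + N(C) q)^i / (N(C) q) ≤ (3m)^i / (N(C) q) ≤ 4^i Q (2Y)^j / (N(C) q)`,
and this is at most `2 * 4^i (2Y)^j / N(C)` because `Q < 2 q`.
Sum over the labels (a finite set of nonzero ideals of norm at most `T`, `ideal_sum`):
`binom(|R|, j) |𝒬| ≤ 2 * 4^i (2Y)^j ∑_C 1/N(C) ≤ 2 * 4^i (2Y)^j (1 + log T)^i`.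
(`Finset.card_powersetCard`, `Finset.card_product`, `Finset.card_eq_sum_card_image` for the fibres.)
-/

set_option autoImplicit false

open NumberField
open scoped Pointwise

namespace Pool.Agent.Lib.MP_79499b_co.DZ

private theorem NEv_root (i N : ℕ) (hi : 1 ≤ i) : ∃ m : ℕ, m ^ i ≤ N ∧ N < (m + 1) ^ i := by
  have h0 : (0 : ℕ) ^ i ≤ N := by
    rw [zero_pow (by omega)]
    exact Nat.zero_le _
  refine ⟨Nat.findGreatest (fun m => m ^ i ≤ N) N,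
    Nat.findGreatest_spec (P := fun m => m ^ i ≤ N) (Nat.zero_le N) h0, ?_⟩
  by_contra hcon
  push Not at hcon
  set m := Nat.findGreatest (fun m => m ^ i ≤ N) N with hm
  have h1 : m + 1 ≤ (m + 1) ^ i := Nat.le_self_pow (by omega) _
  have h2 : m + 1 ≤ Nat.findGreatest (fun m => m ^ i ≤ N) N :=
    Nat.le_findGreatest (h1.trans hcon) hcon
  omega

private theorem NEv_label {L : Type} [Field L] [NumberField L] {ι : Type} [Fintype ι]
    (b : Module.Basis ι ℤ (𝓞 L)) (B0 : ℝ) (hB0 : 0 ≤ B0)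
    (hB : ∀ (φ : L →+* ℂ) (k : ι), ‖φ ((b k : 𝓞 L) : L)‖ ≤ B0)
    (T : ℕ) (hT : (Fintype.card ι * B0) ^ Fintype.card ι ≤ T) (hι : 1 ≤ Fintype.card ι)
    (I : Ideal (𝓞 L)) (hI : I ≠ ⊥) (M : ℕ)
    (hM : Ideal.absNorm I < (M + 1) ^ Fintype.card ι) :
    ∃ (β : 𝓞 L) (C : Ideal (𝓞 L)), C ≠ ⊥ ∧ Ideal.span {β} = C * I ∧ Ideal.absNorm C ≤ T ∧
      ∀ k, |b.repr β k| ≤ (M : ℤ) := by
  obtain ⟨m, hm1, hm2⟩ := NEv_root (Fintype.card ι) (Ideal.absNorm I) hι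
  obtain ⟨β, hβI, hβ0, hβ⟩ := box_ideal b I hI m hm2
  have hdvd : I ∣ Ideal.span {β} := by
    rw [Ideal.dvd_iff_le, Ideal.span_singleton_le_iff_mem]
    exact hβI
  obtain ⟨C, hC⟩ := hdvd
  rw [mul_comm] at hC
  have hmM : m ≤ M := by
    by_contra h
    push Not at h
    have h1 : (M + 1) ^ Fintype.card ι ≤ m ^ Fintype.card ι := Nat.pow_le_pow_left (by omega) _
    omega
  have hspan : Ideal.span {β} ≠ ⊥ := by
    rw [Ne, Ideal.span_singleton_eq_bot]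
    exact hβ0
  have hC0 : C ≠ ⊥ := by
    rintro rfl
    apply hspan
    rw [hC, Ideal.bot_mul]
  refine ⟨β, C, hC0, hC, ?_, fun k => (hβ k).trans (by exact_mod_cast hmM)⟩
  have hn := norm_bd b B0 hB β m hβ
  rw [hC, map_mul] at hn
  have hNI : 0 < Ideal.absNorm I := Nat.pos_of_ne_zero fun h => hI (Ideal.absNorm_eq_zero_iff.1 h)
  have hNI' : (0 : ℝ) < (Ideal.absNorm I : ℝ) := by exact_mod_cast hNI
  have hm1' : (m : ℝ) ^ Fintype.card ι ≤ (Ideal.absNorm I : ℝ) := by exact_mod_cast hm1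
  have h2 : ((Fintype.card ι : ℝ) * m * B0) ^ Fintype.card ι =
      (m : ℝ) ^ Fintype.card ι * ((Fintype.card ι : ℝ) * B0) ^ Fintype.card ι := by
    rw [← mul_pow]
    ring
  have h3 : (m : ℝ) ^ Fintype.card ι * ((Fintype.card ι : ℝ) * B0) ^ Fintype.card ι ≤
      (Ideal.absNorm I : ℝ) * T :=
    mul_le_mul hm1' hT (by positivity) hNI'.le
  rw [h2] at hn
  push_cast at hn
  have h4 : (Ideal.absNorm C : ℝ) * (Ideal.absNorm I : ℝ) ≤ T * (Ideal.absNorm I : ℝ) := by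
    linarith
  have h5 := le_of_mul_le_mul_right h4 hNI'
  exact_mod_cast h5

private theorem NEv_mem {A : Type} [CommRing A] (D I J : Ideal A) (β : A)
    (h : Ideal.span {β} = D * (I * J)) : β ∈ D * J := by
  have e2 : β ∈ Ideal.span {β} := Ideal.mem_span_singleton_self _
  rw [h] at e2
  have h3 : D * (I * J) ≤ D * J := Ideal.mul_mono_right Ideal.mul_le_right
  exact h3 e2

private theorem NEv_prod_inj {S S' : Finset ℕ} (hS : ∀ p ∈ S, p.Prime) (hS' : ∀ p ∈ S', p.Prime)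
    (h : ∏ p ∈ S, p = ∏ p ∈ S', p) : S = S' := by
  rw [← Nat.primeFactors_prod hS, ← Nat.primeFactors_prod hS', h]

theorem ev_count {L : Type} [Field L] [NumberField L] [IsGalois ℚ L] (cc : L ≃ₐ[ℚ] L)
    (hcc : IsConjAut L cc) (v : (L ≃ₐ[ℚ] L) → ℕ) (e : ℕ)
    (hv : ∀ τ, v τ + v (cc * τ) = 2 * e) (hnc : ∃ τ, v τ ≠ e)
    {ι : Type} [Fintype ι] (b : Module.Basis ι ℤ (𝓞 L)) (B0 : ℝ) (hB0 : 0 ≤ B0)
    (hB : ∀ (φ : L →+* ℂ) (k : ι), ‖φ ((b k : 𝓞 L) : L)‖ ≤ B0)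
    (g : ℝ) (hgap : GapAt L g) (Q : ℕ) (hQg : (Q : ℝ) ^ (2 * e) ≤ g)
    (𝔞 : Ideal (𝓞 L)) (h𝔞 : 𝔞 ≠ ⊥) (a0 : ℝ) (ha0 : 0 < a0)
    (𝔭 : ℕ → Ideal (𝓞 L)) (γ : ℕ → 𝓞 L) (R : Finset ℕ) (Y : ℕ)
    (hR : ∀ p ∈ R, p.Prime ∧ p ≤ 2 * Y ∧ Ideal.absNorm (𝔭 p) = p ∧
      𝔞 * Phi v (𝔭 p) = Ideal.span {γ p} ∧ ∀ φ : L →+* ℂ, ‖φ ((γ p : 𝓞 L) : L)‖ = (a0 * p) ^ e)
    (𝒬 : Finset ℕ)
    (h𝒬 : ∀ q ∈ 𝒬, q.Prime ∧ q ≤ Q ∧ Q < 2 * q ∧ ∃ 𝔮 : Ideal (𝓞 L), 𝔮.IsPrime ∧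
      Ideal.absNorm 𝔮 = q ∧ ∀ τ : L ≃ₐ[ℚ] L, τ • 𝔮 = 𝔮 → τ = 1)
    (T : ℕ) (hT1 : 1 ≤ T) (hT : (Module.finrank ℚ L * B0) ^ Module.finrank ℚ L ≤ T)
    (j : ℕ) (hYj : (T * Q + 1) ^ Module.finrank ℚ L ≤ (2 * Y) ^ j) :
    ((R.card.choose j : ℕ) : ℝ) * (𝒬.card : ℝ) ≤
      2 * 4 ^ Module.finrank ℚ L * (2 * (Y : ℝ)) ^ j *
        (1 + Real.log T) ^ Module.finrank ℚ L := by
  classical
  set i : ℕ := Module.finrank ℚ L with hidef
  have hci : Fintype.card ι = i := card_eq_finrank b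
  have hi1 : 1 ≤ i := Module.finrank_pos
  have hlogT : 0 ≤ 1 + Real.log T := by
    have : (1 : ℝ) ≤ T := by exact_mod_cast hT1
    have := Real.log_nonneg this
    linarith
  rcases Finset.eq_empty_or_nonempty 𝒬 with h0 | ⟨q1, hq1⟩
  · rw [h0, Finset.card_empty, Nat.cast_zero, mul_zero]
    positivity
  have hQ1 : 1 ≤ Q := by
    obtain ⟨h1, h2, _⟩ := h𝒬 q1 hq1
    have := h1.one_lt
    omega
  -- the prime ideals over the `q`
  choose! 𝔮 h𝔮1 h𝔮2 h𝔮3 using fun q hq => (h𝒬 q hq).2.2.2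
  -- the size of the ideals
  have hA : ∀ S ∈ R.powersetCard j, Ideal.absNorm (∏ p ∈ S, 𝔭 p) = ∏ p ∈ S, p := by
    intro S hS
    rw [Finset.mem_powersetCard] at hS
    rw [map_prod]
    exact Finset.prod_congr rfl fun p hp => (hR p (hS.1 hp)).2.2.1
  have hAle : ∀ S ∈ R.powersetCard j, ∏ p ∈ S, p ≤ (2 * Y) ^ j := by
    intro S hS
    rw [Finset.mem_powersetCard] at hS
    rw [← hS.2]
    exact Finset.prod_le_pow_card _ _ _ fun p hp => (hR p (hS.1 hp)).2.1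
  have hApos : ∀ S ∈ R.powersetCard j, 0 < ∏ p ∈ S, p := by
    intro S hS
    rw [Finset.mem_powersetCard] at hS
    exact Finset.prod_pos fun p hp => (hR p (hS.1 hp)).1.pos
  obtain ⟨M, hM1, hM2⟩ := NEv_root i (Q * (2 * Y) ^ j) hi1
  have hTQM : T * Q ≤ M := by
    have h1 : (T * Q + 1) ^ i < (M + 1) ^ i := by
      refine lt_of_le_of_lt (hYj.trans ?_) hM2
      exact Nat.le_mul_of_pos_left _ (by omega)
    have h2 := lt_of_pow_lt_pow_left₀ i (Nat.zero_le _) h1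
    omega
  -- labels
  have hlab : ∀ x ∈ R.powersetCard j ×ˢ 𝒬, ∃ (β : 𝓞 L) (C : Ideal (𝓞 L)), C ≠ ⊥ ∧
      Ideal.span {β} = C * ((∏ p ∈ x.1, 𝔭 p) * 𝔮 x.2) ∧ Ideal.absNorm C ≤ T ∧
      ∀ k, |b.repr β k| ≤ (M : ℤ) := by
    intro x hx
    rw [Finset.mem_product] at hx
    have hN : Ideal.absNorm ((∏ p ∈ x.1, 𝔭 p) * 𝔮 x.2) = (∏ p ∈ x.1, p) * x.2 := by
      rw [map_mul, hA x.1 hx.1, h𝔮2 x.2 hx.2]
    have hq := h𝒬 x.2 hx.2
    have hNpos : 0 < (∏ p ∈ x.1, p) * x.2 := Nat.mul_pos (hApos x.1 hx.1) hq.1.pos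
    refine NEv_label b B0 hB0 hB T (by rw [hci]; exact hT) (by rw [hci]; exact hi1) _ ?_ M ?_
    · intro hbot
      rw [← Ideal.absNorm_eq_zero_iff, hN] at hbot
      omega
    · rw [hN, hci]
      refine lt_of_le_of_lt ?_ hM2
      rw [mul_comm Q]
      exact Nat.mul_le_mul (hAle x.1 hx.1) hq.2.1
  choose! β C hC0 hspan hCT hcoord using hlab
  set P := R.powersetCard j ×ˢ 𝒬 with hP
  have hPcard : (P.card : ℝ) = ((R.card.choose j : ℕ) : ℝ) * (𝒬.card : ℝ) := by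
    rw [hP, Finset.card_product, Finset.card_powersetCard]
    push_cast
    rfl
  rw [← hPcard]
  -- the fibres
  have hfib : ∀ D ∈ P.image C, (((P.filter fun x => C x = D).card : ℕ) : ℝ) ≤
      2 * 4 ^ i * (2 * (Y : ℝ)) ^ j * (1 / ((Ideal.absNorm D : ℕ) : ℝ)) := by
    intro D hD
    obtain ⟨x0, hx0, hx0D⟩ := Finset.mem_image.1 hD
    have hx0' := Finset.mem_product.1 hx0
    have hD0 : D ≠ ⊥ := by rw [← hx0D]; exact hC0 x0 hx0
    have hq0 := h𝒬 x0.2 hx0'.2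
    have hNDpos : 0 < Ideal.absNorm D :=
      Nat.pos_of_ne_zero fun h => hD0 (Ideal.absNorm_eq_zero_iff.1 h)
    -- all have the same prime
    have hsame : ∀ x ∈ P, C x = D → x.2 = x0.2 := by
      intro x hx hxD
      have hx' := Finset.mem_product.1 hx
      have hqx := h𝒬 x.2 hx'.2
      have e1 := hspan x hx
      have e2 := hspan x0 hx0
      rw [hxD, ← mul_assoc] at e1
      rw [hx0D, ← mul_assoc] at e2
      have s1 := Finset.mem_powersetCard.1 hx'.1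
      have s2 := Finset.mem_powersetCard.1 hx0'.1
      exact label_unique cc hcc v e hv hnc g hgap (Q : ℝ) hQg 𝔞 h𝔞 a0 ha0 𝔭 γ R
        (fun p hp => ⟨(hR p hp).1.pos, (hR p hp).2.2.1, (hR p hp).2.2.2.1, (hR p hp).2.2.2.2⟩)
        x.2 x0.2 hqx.1 hq0.1 (by exact_mod_cast hqx.2.1) (by exact_mod_cast hq0.2.1)
        (𝔮 x.2) (𝔮 x0.2) (h𝔮1 _ hx'.2) (h𝔮1 _ hx0'.2) (h𝔮2 _ hx'.2) (h𝔮2 _ hx0'.2)
        (h𝔮3 _ hx'.2) (h𝔮3 _ hx0'.2) x.1 x0.1 s1.1 s2.1 (s1.2.trans s2.2.symm) D hD0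
        (β x) (β x0) e1 e2
    have h𝔮0 : 𝔮 x0.2 ≠ ⊥ := by
      intro h
      have h1 := h𝔮2 _ hx0'.2
      rw [h, Ideal.absNorm_bot] at h1
      exact hq0.1.ne_zero h1.symm
    have hinj : Set.InjOn β (P.filter fun x => C x = D) := by
      intro x hx y hy hxy
      rw [Finset.mem_coe, Finset.mem_filter] at hx hy
      have hx2 := hsame x hx.1 hx.2
      have hy2 := hsame y hy.1 hy.2
      have e1 := hspan x hx.1
      have e2 := hspan y hy.1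
      rw [hx.2, hx2] at e1
      rw [hy.2, hy2, ← hxy, e1] at e2
      have e3 := mul_left_cancel₀ hD0 e2
      have e4 := mul_right_cancel₀ h𝔮0 e3
      have e5 := congrArg Ideal.absNorm e4
      have hx1 := Finset.mem_product.1 hx.1
      have hy1 := Finset.mem_product.1 hy.1
      rw [hA x.1 hx1.1, hA y.1 hy1.1] at e5
      have s1 := Finset.mem_powersetCard.1 hx1.1
      have s2 := Finset.mem_powersetCard.1 hy1.1
      have e6 := NEv_prod_inj (fun p hp => (hR p (s1.1 hp)).1) (fun p hp => (hR p (s2.1 hp)).1) e5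
      exact Prod.ext e6 (hx2.trans hy2.symm)
    have hDq : D * 𝔮 x0.2 ≠ ⊥ := fun h => (Ideal.mul_eq_bot.1 h).elim hD0 h𝔮0
    have hmemJ : ∀ x ∈ P, C x = D → β x ∈ D * 𝔮 x0.2 := by
      intro x hx hxD
      have e1 := hspan x hx
      rw [hxD, hsame x hx hxD] at e1
      exact NEv_mem D (∏ p ∈ x.1, 𝔭 p) (𝔮 x0.2) (β x) e1
    have hW : ∀ z ∈ (P.filter fun x => C x = D).image β,
        z ∈ D * 𝔮 x0.2 ∧ ∀ k, |b.repr z k| ≤ (M : ℤ) := by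
      intro z hz
      obtain ⟨x, hx, hxz⟩ := Finset.mem_image.1 hz
      have hx' := Finset.mem_filter.1 hx
      rw [← hxz]
      exact ⟨hmemJ x hx'.1 hx'.2, hcoord x hx'.1⟩
    have hlat := lat_count b (D * 𝔮 x0.2) hDq M _ hW
    rw [Finset.card_image_of_injOn hinj, map_mul, h𝔮2 _ hx0'.2, hci] at hlat
    have hDT : Ideal.absNorm D ≤ T := by rw [← hx0D]; exact hCT x0 hx0
    have h1 : 2 * M + Ideal.absNorm D * x0.2 ≤ 3 * M := by
      have : Ideal.absNorm D * x0.2 ≤ T * Q := Nat.mul_le_mul hDT hq0.2.1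
      omega
    have h2 : (2 * M + Ideal.absNorm D * x0.2) ^ i ≤ 3 ^ i * (Q * (2 * Y) ^ j) := by
      refine (Nat.pow_le_pow_left h1 i).trans ?_
      rw [mul_pow]
      exact Nat.mul_le_mul_left _ hM1
    have h3 : (P.filter fun x => C x = D).card * (Ideal.absNorm D * x0.2) ≤
        3 ^ i * (2 * x0.2 * (2 * Y) ^ j) := by
      refine (hlat.trans h2).trans ?_
      exact Nat.mul_le_mul_left _ (Nat.mul_le_mul_right _ (by omega))
    have h4 : (P.filter fun x => C x = D).card * Ideal.absNorm D ≤ 3 ^ i * (2 * (2 * Y) ^ j) := by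
      refine le_of_mul_le_mul_right (a := x0.2) ?_ hq0.1.pos
      calc (P.filter fun x => C x = D).card * Ideal.absNorm D * x0.2
          = (P.filter fun x => C x = D).card * (Ideal.absNorm D * x0.2) := by ring
        _ ≤ 3 ^ i * (2 * x0.2 * (2 * Y) ^ j) := h3
        _ = 3 ^ i * (2 * (2 * Y) ^ j) * x0.2 := by ring
    have hND' : (0 : ℝ) < (Ideal.absNorm D : ℝ) := by exact_mod_cast hNDpos
    have h5 : (((P.filter fun x => C x = D).card : ℕ) : ℝ) * (Ideal.absNorm D : ℝ) ≤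
        3 ^ i * (2 * (2 * (Y : ℝ)) ^ j) := by exact_mod_cast h4
    have h6 : (3 : ℝ) ^ i ≤ 4 ^ i := pow_le_pow_left₀ (by norm_num) (by norm_num) i
    have h7 : (0 : ℝ) ≤ 2 * (2 * (Y : ℝ)) ^ j := by positivity
    rw [mul_one_div, le_div_iff₀ hND']
    calc (((P.filter fun x => C x = D).card : ℕ) : ℝ) * (Ideal.absNorm D : ℝ)
        ≤ 3 ^ i * (2 * (2 * (Y : ℝ)) ^ j) := h5
      _ ≤ 4 ^ i * (2 * (2 * (Y : ℝ)) ^ j) := mul_le_mul_of_nonneg_right h6 h7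
      _ = 2 * 4 ^ i * (2 * (Y : ℝ)) ^ j := by ring
  have hsum := ideal_sum L T hT1 (P.image C) (by
    intro I hI
    obtain ⟨x, hx, rfl⟩ := Finset.mem_image.1 hI
    exact ⟨hC0 x hx, hCT x hx⟩)
  have hcount : (P.card : ℝ) = ∑ D ∈ P.image C, (((P.filter fun x => C x = D).card : ℕ) : ℝ) := by
    rw [Finset.card_eq_sum_card_image C P]
    push_cast
    rfl
  rw [hcount]
  refine (Finset.sum_le_sum hfib).trans ?_
  rw [← Finset.mul_sum]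
  exact mul_le_mul_of_nonneg_left hsum (by positivity)

end Pool.Agent.Lib.MP_79499b_co.DZ
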