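import Pool.Agent.Lib.MP_79499b_co.DZ.NDef

/-!
# NLF: the subfield fixed by D

`K` is Galois over `ℚ` with commutative group, `D` a subgroup, `L = IntermediateField.fixedField D`.

* `lf_galois`: `D` is normal, so `L` is Galois (`IsGalois.of_fixedField_normal_subgroup`).
* `lf_finrank`: `[L : ℚ] * |D| = [K : ℚ]` (`IntermediateField.finrank_fixedField_eq_card`, tower).
* `lf_ext`: every embedding of `L` into `ℂ` extends to `K` (`IntermediateField` / `AlgHom` lifting into an
  algebraically closed field: `exists_algHom_of_splits`-style or `IsAlgClosed.lift`).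
* `lf_conj`: `cc` restricted to `L` (`AlgEquiv.restrictNormal`) is complex conjugation in every embedding
  of `L`: extend the embedding to `K`.
* `lf_gap`: an integer of `L` with all conjugates at most `g` has, as an integer of `K`, all conjugates at most
  `g` (restrict the embeddings of `K` to `L`), so it is rational.
* `lf_lift`: every automorphism `τ` of `L` is the restriction of an automorphism `σ` of `K`
  (`AlgEquiv.liftNormal` or `AlgEquiv.restrictNormalHom_surjective`); if `σ` is in `D` then `τ = 1`.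
* `lf_fix`: an integer of `K` fixed by `D` comes from an integer of `L`.
-/

set_option autoImplicit false

open NumberField
open scoped Pointwise

namespace Pool.Agent.Lib.MP_79499b_co.DZ

theorem lf_galois (K : Type) [Field K] [NumberField K] [IsGalois ℚ K]
    (hcomm : ∀ σ τ : K ≃ₐ[ℚ] K, σ * τ = τ * σ) (D : Subgroup (K ≃ₐ[ℚ] K)) :
    IsGalois ℚ (IntermediateField.fixedField D) := by
  have hn : D.Normal := ⟨fun n hn g => by
    rw [hcomm g n, mul_assoc, mul_inv_cancel, mul_one]; exact hn⟩
  exact IsGalois.of_fixedField_normal_subgroup D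

theorem lf_finrank (K : Type) [Field K] [NumberField K] [IsGalois ℚ K]
    (D : Subgroup (K ≃ₐ[ℚ] K)) :
    Module.finrank ℚ (IntermediateField.fixedField D) * Nat.card D = Module.finrank ℚ K := by
  have h := IntermediateField.finrank_fixedField_eq_card D
  have h2 := Module.finrank_mul_finrank ℚ (IntermediateField.fixedField D) K
  rw [h] at h2
  exact h2

theorem lf_ext (K : Type) [Field K] [NumberField K] (L : IntermediateField ℚ K)
    (φ : L →+* ℂ) : ∃ ψ : K →+* ℂ, ∀ x : L, ψ (x : K) = φ x := by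
  letI : Algebra L ℂ := φ.toAlgebra
  haveI : Algebra.IsAlgebraic L K := inferInstance
  let ψ : K →ₐ[L] ℂ := IsAlgClosed.lift
  exact ⟨ψ.toRingHom, fun x => ψ.commutes x⟩

theorem lf_conj (K : Type) [Field K] [NumberField K] [IsGalois ℚ K]
    (hcomm : ∀ σ τ : K ≃ₐ[ℚ] K, σ * τ = τ * σ) (D : Subgroup (K ≃ₐ[ℚ] K))
    (cc : K ≃ₐ[ℚ] K) (hcc : IsConjAut K cc) :
    ∃ ccL : (IntermediateField.fixedField D) ≃ₐ[ℚ] (IntermediateField.fixedField D),
      IsConjAut (IntermediateField.fixedField D) ccL := by
  haveI := lf_galois K hcomm D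
  refine ⟨cc.restrictNormal (IntermediateField.fixedField D), fun φ x => ?_⟩
  obtain ⟨ψ, hψ⟩ := lf_ext K (IntermediateField.fixedField D) φ
  rw [← hψ, ← hψ]
  have h := AlgEquiv.restrictNormal_commutes cc (IntermediateField.fixedField D) x
  have h' : ((cc.restrictNormal (IntermediateField.fixedField D) x :
      IntermediateField.fixedField D) : K) = cc (x : K) := h
  rw [h', hcc]

theorem lf_gap (K : Type) [Field K] [NumberField K] (L : IntermediateField ℚ K)
    (g : ℝ) (hgap : GapAt K g) : GapAt L g := by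
  intro h hh
  obtain ⟨z, hz⟩ := hgap (algebraMap (𝓞 L) (𝓞 K) h) (fun ψ => hh (ψ.comp (algebraMap L K)))
  refine ⟨z, ?_⟩
  have hinj : Function.Injective (algebraMap (𝓞 L) (𝓞 K)) := FaithfulSMul.algebraMap_injective _ _
  apply hinj
  rw [hz, map_intCast]

theorem lf_lift (K : Type) [Field K] [NumberField K] [IsGalois ℚ K]
    (hcomm : ∀ σ τ : K ≃ₐ[ℚ] K, σ * τ = τ * σ) (D : Subgroup (K ≃ₐ[ℚ] K))
    (τ : (IntermediateField.fixedField D) ≃ₐ[ℚ] (IntermediateField.fixedField D)) :
    ∃ σ : K ≃ₐ[ℚ] K, (∀ x : IntermediateField.fixedField D, σ (x : K) = ((τ x :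
      IntermediateField.fixedField D) : K)) ∧ (σ ∈ D → τ = 1) := by
  haveI := lf_galois K hcomm D
  have hcm : ∀ x : IntermediateField.fixedField D, τ.liftNormal K (x : K) =
      ((τ x : IntermediateField.fixedField D) : K) := fun x => AlgEquiv.liftNormal_commutes τ K x
  refine ⟨τ.liftNormal K, hcm, fun hD => ?_⟩
  ext x
  rw [← hcm x]
  exact x.2 ⟨_, hD⟩

theorem lf_fix (K : Type) [Field K] [NumberField K] (D : Subgroup (K ≃ₐ[ℚ] K)) (x : 𝓞 K)
    (hx : ∀ σ ∈ D, σ (x : K) = (x : K)) :
    ∃ y : 𝓞 (IntermediateField.fixedField D), ((y : IntermediateField.fixedField D) : K) = (x : K) := by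
  have hmem : (x : K) ∈ IntermediateField.fixedField D := fun σ => hx σ.1 σ.2
  have hint : IsIntegral ℤ (⟨(x : K), hmem⟩ : IntermediateField.fixedField D) := by
    have h : IsIntegral ℤ (algebraMap (IntermediateField.fixedField D) K ⟨(x : K), hmem⟩) :=
      x.isIntegral_coe
    exact (isIntegral_algebraMap_iff (FaithfulSMul.algebraMap_injective _ _)).1 h
  exact ⟨⟨⟨(x : K), hmem⟩, hint⟩, rfl⟩

end Pool.Agent.Lib.MP_79499b_co.DZ
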