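import Pool.Agent.Lib.MP_79499b_co.DZ.NCyc
import Pool.Agent.Lib.MP_79499b_co.DZ.NLF

/-!
# NGap: the gap property of K = KF F (r1 r2)

Statement: if `(2g)^(c1 c2) < w1` and `< w2` then `GapAt (KF F (r1*r2)) g`.

Proof. Let `β ∈ 𝓞 K`, `K = KF F (r1*r2)`, with `|φ β| ≤ g` for every embedding; `[K : ℚ] = c1 c2`
(`lf_finrank`, `cyc_card`, `cyc_finrank`: `(w1-1)(w2-1) = c1 c2 r1 r2`). Let `ζ1 = ζ^w2`, `ζ2 = ζ^w1`
(primitive roots of order `w1`, `w2`; `ℤ[ζ] = ℤ[ζ1, ζ2]` is `𝓞 F`).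
(1) Let `τ` be an automorphism of `F` with `τ ζ2 = ζ2`. For all `x ∈ 𝓞 F`, `τ x - x ∈ (1 - ζ1)`.
The ideal `(1 - ζ1)` is proper and contains `w1`.
(2) Put `δ = τ β - β`. It is in `𝓞 K` (`K` is normal over `ℚ`) and in `(1 - ζ1)`. The norm
of `δ` is a rational integer in `(1 - ζ1)`, so it is divisible by `w1`. If `δ ≠ 0` then
`|N_{K/ℚ}(δ)| ≥ w1`, but `|N_{K/ℚ}(δ)| = ∏_φ |φ δ| ≤ (2g)^(c1 c2) < w1`: contradiction. So
`τ β = β` for all `τ` fixing `ζ2`, and in the same way for all `τ` fixing `ζ1`.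
(3) These `τ` generate the Galois group (`(ZMod W)ˣ`: every unit is the product of one which is 1 modulo `w1`
and one which is 1 modulo `w2`), so `β` is in `ℚ`, an integer (`IsIntegrallyClosed ℤ`).
-/

set_option autoImplicit false

open NumberField
open scoped Pointwise

namespace Pool.Agent.Lib.MP_79499b_co.DZ

/-- The ideal of `1 - μ` contains `w`. -/
private lemma ngap_mem {R : Type*} [CommRing R] [IsDomain R] {w : ℕ} (hw : w.Prime) {μ : R}
    (hμ : IsPrimitiveRoot μ w) : (1 - μ) ∣ (w : R) := by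
  have : Fact w.Prime := ⟨hw⟩
  have h1 : Polynomial.eval 1 (Polynomial.cyclotomic w R) = (w : R) :=
    Polynomial.eval_one_cyclotomic_prime
  rw [Polynomial.cyclotomic_eq_prod_X_sub_primitiveRoots hμ, Polynomial.eval_prod] at h1
  rw [← h1]
  have h2 : μ ∈ primitiveRoots w R := (mem_primitiveRoots hw.pos).2 hμ
  have h3 := Finset.dvd_prod_of_mem
    (fun i => Polynomial.eval 1 (Polynomial.X - Polynomial.C i : Polynomial R)) h2
  simpa using h3

/-- `1 - μ` is not a unit if `w` is not. -/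
private lemma ngap_unit {R : Type*} [CommRing R] [IsDomain R] {w : ℕ} (hw : w.Prime) {μ : R}
    (hμ : IsPrimitiveRoot μ w) (hu : IsUnit (1 - μ)) : IsUnit (w : R) := by
  have : Fact w.Prime := ⟨hw⟩
  have h1 : Polynomial.eval 1 (Polynomial.cyclotomic w R) = (w : R) :=
    Polynomial.eval_one_cyclotomic_prime
  rw [Polynomial.cyclotomic_eq_prod_X_sub_primitiveRoots hμ, Polynomial.eval_prod] at h1
  rw [← h1]
  refine IsUnit.prod_iff.2 fun i hi => ?_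
  have h2 : IsPrimitiveRoot i w := (mem_primitiveRoots hw.pos).1 hi
  obtain ⟨k, -, hk⟩ := h2.eq_pow_of_pow_eq_one hμ.pow_eq_one
  have h3 : (1 - i) ∣ (1 - μ) := by
    rw [← hk]
    simpa using sub_dvd_pow_sub_pow (1 : R) i k
  simpa using isUnit_of_dvd_unit h3 hu

/-- A prime number is not a unit in the ring of integers. -/
private lemma ngap_nat_unit (F : Type) [Field F] [NumberField F] {w : ℕ} (hw : w.Prime) :
    ¬ IsUnit (w : 𝓞 F) := by
  intro hu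
  have h1 : IsUnit (Algebra.norm ℤ (w : 𝓞 F)) := hu.map (Algebra.norm ℤ)
  have h2 : (w : 𝓞 F) = algebraMap ℤ (𝓞 F) (w : ℤ) := by simp
  rw [h2, Algebra.norm_algebraMap] at h1
  have h3 : Module.finrank ℤ (𝓞 F) ≠ 0 := by
    rw [RingOfIntegers.rank]
    exact Module.finrank_pos.ne'
  rw [isUnit_pow_iff h3, Int.isUnit_iff] at h1
  have := hw.one_lt
  omega

/-- An integer in the ideal of `1 - μ` is divisible by `w`. -/
private lemma ngap_dvd (F : Type) [Field F] [NumberField F] {w : ℕ} (hw : w.Prime) {μ : 𝓞 F}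
    (hμ : IsPrimitiveRoot μ w) (n : ℕ) (hn : (1 - μ) ∣ (n : 𝓞 F)) : w ∣ n := by
  by_contra hnd
  have hc : IsCoprime (w : ℤ) (n : ℤ) := by
    rw [Nat.isCoprime_iff_coprime]
    exact (Nat.Prime.coprime_iff_not_dvd hw).2 hnd
  obtain ⟨a, b, hab⟩ := hc
  have h1 : (a : 𝓞 F) * (w : 𝓞 F) + (b : 𝓞 F) * (n : 𝓞 F) = 1 := by exact_mod_cast hab
  have h2 : (1 - μ) ∣ (1 : 𝓞 F) := by
    have h3 : (1 - μ) ∣ (a : 𝓞 F) * (w : 𝓞 F) + (b : 𝓞 F) * (n : 𝓞 F) :=
      dvd_add ((ngap_mem hw hμ).mul_left _) (hn.mul_left _)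
    rwa [h1] at h3
  exact ngap_nat_unit F hw (ngap_unit hw hμ (isUnit_of_dvd_one h2))

/-- If `τ` fixes `ζ^a`, then it is trivial modulo `1 - ζ^b` (`a b = W` coprime). -/
private lemma ngap_sub (F : Type) [Field F] [NumberField F] (W a b : ℕ) [NeZero W]
    [IsCyclotomicExtension {W} ℚ F] (hb : 1 < b) (hab : a.Coprime b)
    (ζ : F) (hζ : IsPrimitiveRoot ζ W) (τ : F ≃ₐ[ℚ] F) (hτ : τ (ζ ^ a) = ζ ^ a) (x : 𝓞 F) :
    (1 - hζ.toInteger ^ b) ∣ (τ • x - x) := by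
  set z : 𝓞 F := hζ.toInteger with hz
  set I : Ideal (𝓞 F) := Ideal.span {1 - z ^ b} with hI
  set f1 : 𝓞 F →ₐ[ℤ] (𝓞 F ⧸ I) := Ideal.Quotient.mkₐ ℤ I with hf1
  set f2 : 𝓞 F →ₐ[ℤ] (𝓞 F ⧸ I) :=
    ((Ideal.Quotient.mk I).comp (MulSemiringAction.toRingHom (F ≃ₐ[ℚ] F) (𝓞 F) τ)).toIntAlgHom
    with hf2
  have e1 : f1 z ^ b = 1 := by
    rw [← map_pow, ← map_one f1]
    simp only [hf1, Ideal.Quotient.mkₐ_eq_mk]
    rw [Ideal.Quotient.eq, hI, Ideal.mem_span_singleton]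
    exact ⟨-1, by ring⟩
  have e2' : f2 z = f1 z ^ ((IsCyclotomicExtension.Rat.galEquivZMod W F τ).val.val) := by
    have h1 : τ • z = z ^ ((IsCyclotomicExtension.Rat.galEquivZMod W F τ).val.val) :=
      IsCyclotomicExtension.Rat.galEquivZMod_smul_of_pow_eq W F τ
        (hζ.toInteger_isPrimitiveRoot.pow_eq_one)
    have h2 : f2 z = f1 (τ • z) := rfl
    rw [h2, h1, map_pow]
  have e2 : f2 z ^ b = 1 := by
    rw [e2', ← pow_mul, mul_comm, pow_mul, e1, one_pow]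
  have e3 : f2 z ^ a = f1 z ^ a := by
    have h1 : τ • (z ^ a) = z ^ a := by
      apply RingOfIntegers.ext
      exact hτ
    have h2 : f2 (z ^ a) = f1 (τ • (z ^ a)) := rfl
    rw [← map_pow, ← map_pow, h2, h1]
  have e4 : f1 z = f2 z := by
    obtain ⟨m, hm⟩ := Nat.exists_mul_mod_eq_one_of_coprime hab hb
    have hq : a * m = b * (a * m / b) + 1 := by
      have := Nat.div_add_mod (a * m) b
      omega
    have h1 : f1 z ^ (a * m) = f2 z ^ (a * m) := by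
      rw [pow_mul, pow_mul, e3]
    rw [hq, pow_succ, pow_succ, pow_mul, pow_mul, e1, e2, one_pow, one_mul, one_mul] at h1
    exact h1
  have e5 : f1 = f2 := by
    refine AlgHom.ext_of_adjoin_eq_top
      (IsCyclotomicExtension.Rat.adjoin_singleton_eq_top hζ) ?_
    intro y hy
    rw [Set.mem_singleton_iff.1 hy]
    exact e4
  have e6 : f2 x = f1 x := by rw [e5]
  have e7 : Ideal.Quotient.mk I (τ • x) = Ideal.Quotient.mk I x := e6
  rw [Ideal.Quotient.eq, hI, Ideal.mem_span_singleton] at e7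
  exact e7

/-- The norm of a small integer is small. -/
private lemma ngap_norm (K : Type) [Field K] [NumberField K] (G : ℝ) (δ : 𝓞 K)
    (h : ∀ φ : K →+* ℂ, ‖φ (δ : K)‖ ≤ G) :
    (((Algebra.norm ℤ δ).natAbs : ℕ) : ℝ) ≤ G ^ Module.finrank ℚ K := by
  have h1 : algebraMap ℚ ℂ (Algebra.norm ℚ (δ : K)) = ∏ σ : K →ₐ[ℚ] ℂ, σ (δ : K) :=
    Algebra.norm_eq_prod_embeddings ℚ ℂ (δ : K)
  have h2 : ((Algebra.norm ℤ δ : ℤ) : ℚ) = Algebra.norm ℚ (δ : K) := Algebra.coe_norm_int δ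
  have h3 : (((Algebra.norm ℤ δ).natAbs : ℕ) : ℝ) = ‖algebraMap ℚ ℂ (Algebra.norm ℚ (δ : K))‖ := by
    rw [← h2]
    simp [Nat.cast_natAbs]
  rw [h3, h1, norm_prod]
  calc ∏ σ : K →ₐ[ℚ] ℂ, ‖σ (δ : K)‖ ≤ ∏ _σ : K →ₐ[ℚ] ℂ, G :=
        Finset.prod_le_prod (fun _ _ => norm_nonneg _) fun σ _ => h σ.toRingHom
    _ = G ^ Module.finrank ℚ K := by
        rw [Finset.prod_const, Finset.card_univ, AlgHom.card]

/-- `β` is fixed by the automorphisms which fix `ζ^b`. -/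
private lemma ngap_fix (F : Type) [Field F] [NumberField F] (W a b : ℕ) [NeZero W]
    [IsCyclotomicExtension {W} ℚ F] (hW : W = b * a) (ha : a.Prime) (hb : 1 < b)
    (hab : a.Coprime b) (ζ : F) (hζ : IsPrimitiveRoot ζ W) (K : IntermediateField ℚ F)
    [IsGalois ℚ K] (g : ℝ) (hg : (2 * g) ^ Module.finrank ℚ K < a) (β : 𝓞 K)
    (hβ : ∀ φ : K →+* ℂ, ‖φ (β : K)‖ ≤ g)
    (τ : F ≃ₐ[ℚ] F) (hτ : τ (ζ ^ a) = ζ ^ a) : τ ((β : K) : F) = ((β : K) : F) := by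
  set τK : K ≃ₐ[ℚ] K := τ.restrictNormal K with hτK
  have hcom : ∀ x : K, ((τK x : K) : F) = τ (x : F) := fun x =>
    AlgEquiv.restrictNormal_commutes τ K x
  set δ : 𝓞 K := τK • β - β with hδ
  have hδF : algebraMap (𝓞 K) (𝓞 F) δ
      = τ • (algebraMap (𝓞 K) (𝓞 F) β) - algebraMap (𝓞 K) (𝓞 F) β := by
    rw [hδ, map_sub]
    congr 1
    apply RingOfIntegers.ext
    exact hcom (β : K)
  set n : ℕ := (Algebra.norm ℤ δ).natAbs with hn
  have hdvd : δ ∣ (n : 𝓞 K) := by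
    rw [hn, ← Ideal.absNorm_span_singleton, ← Ideal.mem_span_singleton]
    exact Ideal.absNorm_mem _
  have hdvdF : algebraMap (𝓞 K) (𝓞 F) δ ∣ (n : 𝓞 F) := by
    have := map_dvd (algebraMap (𝓞 K) (𝓞 F)) hdvd
    rwa [map_natCast] at this
  have hmu : IsPrimitiveRoot (hζ.toInteger ^ b) a :=
    hζ.toInteger_isPrimitiveRoot.pow (NeZero.pos W) hW
  have h1 : (1 - hζ.toInteger ^ b) ∣ (n : 𝓞 F) := by
    refine dvd_trans ?_ hdvdF
    rw [hδF]
    exact ngap_sub F W a b hb hab ζ hζ τ hτ _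
  have h2 : a ∣ n := ngap_dvd F ha hmu n h1
  have h3 : (n : ℝ) ≤ (2 * g) ^ Module.finrank ℚ K := by
    refine ngap_norm K (2 * g) δ fun φ => ?_
    have e1 : φ (δ : K) = φ (τK (β : K)) - φ (β : K) := by
      rw [← map_sub]
      rfl
    rw [e1]
    have e2 : ‖φ (τK (β : K))‖ ≤ g := hβ (φ.comp (τK : K →+* K))
    have e3 := hβ φ
    have e4 := norm_sub_le (φ (τK (β : K))) (φ (β : K))
    linarith
  have h4 : n < a := by
    have : (n : ℝ) < a := lt_of_le_of_lt h3 hg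
    exact_mod_cast this
  have h5 : n = 0 := Nat.eq_zero_of_dvd_of_lt h2 h4
  have h6 : δ = 0 := by
    rw [hn, Int.natAbs_eq_zero] at h5
    exact Algebra.norm_eq_zero_iff.1 h5
  have h7 : τK • β = β := sub_eq_zero.1 h6
  rw [← hcom]
  have h8 : ((τK • β : 𝓞 K) : K) = (β : K) := by rw [h7]
  have h9 : τK (β : K) = (β : K) := h8
  rw [h9]

/-- Every automorphism is a product of two automorphisms of this kind. -/
private lemma ngap_gen (F : Type) [Field F] [NumberField F] (W a b : ℕ) [NeZero W]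
    [IsCyclotomicExtension {W} ℚ F] (hW : W = b * a)
    (hab : a.Coprime b) (ζ : F) (hζ : IsPrimitiveRoot ζ W) (σ : F ≃ₐ[ℚ] F) :
    ∃ τ1 τ2 : F ≃ₐ[ℚ] F, τ1 (ζ ^ a) = ζ ^ a ∧ τ2 (ζ ^ b) = ζ ^ b ∧ ∀ x, σ x = τ1 (τ2 x) := by
  subst hW
  set E := IsCyclotomicExtension.Rat.galEquivZMod (b * a) F with hE
  have hE1 : ∀ (σ : F ≃ₐ[ℚ] F) (x : F), x ^ (b * a) = 1 → σ x = x ^ (E σ).val.val :=
    fun σ x hx => IsCyclotomicExtension.Rat.galEquivZMod_apply_of_pow_eq (b * a) F σ hx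
  set u : ℕ := (E σ).val.val with hu
  have hcu : u.Coprime (b * a) := ZMod.val_coe_unit_coprime (E σ)
  -- the chinese remainders
  obtain ⟨u1, hu1a, hu1b⟩ := Nat.chineseRemainder hab u 1
  obtain ⟨u2, hu2a, hu2b⟩ := Nat.chineseRemainder hab 1 u
  have hc1 : u1.Coprime (b * a) := by
    refine Nat.Coprime.mul_right ?_ ?_
    · have := hu1b.gcd_eq
      rw [Nat.Coprime, this, Nat.gcd_one_left]
    · have := hu1a.gcd_eq
      rw [Nat.Coprime, this]
      exact (Nat.Coprime.coprime_mul_left_right hcu)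
  have hc2 : u2.Coprime (b * a) := by
    refine Nat.Coprime.mul_right ?_ ?_
    · have := hu2b.gcd_eq
      rw [Nat.Coprime, this]
      exact (Nat.Coprime.coprime_mul_right_right hcu)
    · have := hu2a.gcd_eq
      rw [Nat.Coprime, this, Nat.gcd_one_left]
  set v1 := ZMod.unitOfCoprime u1 hc1 with hv1
  set v2 := ZMod.unitOfCoprime u2 hc2 with hv2
  have hact : ∀ (v : ℕ) (hv : v.Coprime (b * a)) (x : F), x ^ (b * a) = 1 →
      (E.symm (ZMod.unitOfCoprime v hv)) x = x ^ v := by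
    intro v hv x hx
    rw [hE1 _ x hx, MulEquiv.apply_symm_apply, ZMod.coe_unitOfCoprime, ZMod.val_natCast]
    conv_rhs => rw [← Nat.div_add_mod v (b * a), pow_add, pow_mul, hx, one_pow, one_mul]
  have hpw : ∀ (x : F) (m k l : ℕ), x ^ m = 1 → k ≡ l [MOD m] → x ^ k = x ^ l := by
    intro x m k l hx hkl
    rw [← Nat.div_add_mod k m, ← Nat.div_add_mod l m, pow_add, pow_add, pow_mul, pow_mul, hx,
      one_pow, one_pow, one_mul, one_mul, hkl]
  have hWz : ζ ^ (b * a) = 1 := hζ.pow_eq_one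
  refine ⟨E.symm v1, E.symm v2, ?_, ?_, ?_⟩
  · rw [hact u1 hc1 _ (by rw [← pow_mul, mul_comm, pow_mul, hWz, one_pow]), ]
    have := hpw (ζ ^ a) b u1 1 (by rw [← pow_mul, mul_comm, hWz]) hu1b
    rw [this, pow_one]
  · rw [hact u2 hc2 _ (by rw [← pow_mul, mul_comm, pow_mul, hWz, one_pow]), ]
    have := hpw (ζ ^ b) a u2 1 (by rw [← pow_mul, hWz]) hu2a
    rw [this, pow_one]
  · intro x
    have h1 : σ = E.symm v1 * E.symm v2 := by
      rw [← map_mul, MulEquiv.eq_symm_apply]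
      apply Units.ext
      have h2 : ((E σ : (ZMod (b * a))ˣ) : ZMod (b * a)) = ((u : ℕ) : ZMod (b * a)) := by
        rw [hu, ZMod.natCast_zmod_val]
      rw [h2, Units.val_mul, hv1, hv2, ZMod.coe_unitOfCoprime, ZMod.coe_unitOfCoprime,
        ← Nat.cast_mul, ZMod.natCast_eq_natCast_iff]
      have hab' : b.Coprime a := hab.symm
      rw [← Nat.modEq_and_modEq_iff_modEq_mul hab']
      constructor
      · have := hu1b.mul hu2b
        rw [one_mul] at this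
        exact this.symm
      · have := hu1a.mul hu2a
        rw [mul_one] at this
        exact this.symm
    rw [h1]
    rfl

private lemma ngap_main (F : Type) [Field F] [NumberField F] [IsGalois ℚ F] (W w1 w2 : ℕ)
    [NeZero W] [IsCyclotomicExtension {W} ℚ F] (hW : W = w1 * w2) (h1 : w1.Prime) (h2 : w2.Prime)
    (hne : w1 ≠ w2) (K : IntermediateField ℚ F) [IsGalois ℚ K] (g : ℝ)
    (hg1 : (2 * g) ^ Module.finrank ℚ K < w1) (hg2 : (2 * g) ^ Module.finrank ℚ K < w2) :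
    GapAt K g := by
  intro β hβ
  have hcop : w1.Coprime w2 := (Nat.coprime_primes h1 h2).2 hne
  have hζ := IsCyclotomicExtension.zeta_spec W ℚ F
  set ζ := IsCyclotomicExtension.zeta W ℚ F with hζd
  have hfix : ∀ σ : F ≃ₐ[ℚ] F, σ ((β : K) : F) = ((β : K) : F) := by
    intro σ
    obtain ⟨τ1, τ2, ht1, ht2, hst⟩ := ngap_gen F W w2 w1 hW hcop.symm ζ hζ σ
    rw [hst, ngap_fix F W w1 w2 (by rw [hW, mul_comm]) h1 h2.one_lt hcop ζ hζ K g hg1 β hβ τ2 ht2,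
      ngap_fix F W w2 w1 hW h2 h1.one_lt hcop.symm ζ hζ K g hg2 β hβ τ1 ht1]
  have hbot := (IsGalois.mem_bot_iff_fixed ((β : K) : F)).2 hfix
  obtain ⟨q, hq⟩ := IntermediateField.mem_bot.1 hbot
  have hint : IsIntegral ℤ q := by
    have h3 : IsIntegral ℤ (algebraMap ℚ F q) := by
      rw [hq]
      exact (RingOfIntegers.isIntegral_coe β).map (IsScalarTower.toAlgHom ℤ K F)
    exact (isIntegral_algebraMap_iff (algebraMap ℚ F).injective).1 h3
  obtain ⟨z, hz⟩ := IsIntegrallyClosed.isIntegral_iff.1 hint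
  refine ⟨z, ?_⟩
  apply RingOfIntegers.ext
  apply Subtype.ext
  have h5 : ((β : K) : F) = (z : F) := by
    rw [← hq, ← hz]
    simp
  rw [h5]
  simp

theorem KF_finrank (w1 w2 c1 c2 r1 r2 : ℕ) (h1 : w1.Prime) (h2 : w2.Prime) (hne : w1 ≠ w2)
    (e1 : w1 = c1 * r1 + 1) (e2 : w2 = c2 * r2 + 1) (hc1 : Nat.Coprime r1 (c1 * c2))
    (hc2 : Nat.Coprime r2 (c1 * c2)) (hr : Nat.Coprime r1 r2) :
    Module.finrank ℚ (KF (CyclotomicField (w1 * w2) ℚ) (r1 * r2)) = c1 * c2 := by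
  have : NeZero (w1 * w2) := ⟨Nat.mul_ne_zero h1.ne_zero h2.ne_zero⟩
  have hG : IsGalois ℚ (CyclotomicField (w1 * w2) ℚ) := cyc_galois (w1 * w2)
  have k1 := lf_finrank (CyclotomicField (w1 * w2) ℚ) (Mgp (CyclotomicField (w1 * w2) ℚ) (r1 * r2))
  rw [cyc_card w1 w2 c1 c2 r1 r2 h1 h2 hne e1 e2 hc1 hc2 hr, cyc_finrank w1 w2 h1 h2 hne] at k1
  have k2 : w1 - 1 = c1 * r1 := by omega
  have k3 : w2 - 1 = c2 * r2 := by omega
  rw [k2, k3] at k1
  have k4 : 0 < r1 := by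
    rcases Nat.eq_zero_or_pos r1 with h | h
    · rw [h, mul_zero, zero_add] at e1
      exact absurd e1 h1.ne_one
    · exact h
  have k5 : 0 < r2 := by
    rcases Nat.eq_zero_or_pos r2 with h | h
    · rw [h, mul_zero, zero_add] at e2
      exact absurd e2 h2.ne_one
    · exact h
  have k6 : c1 * r1 * (c2 * r2) = (c1 * c2) * (r1 * r2) := by ring
  rw [k6] at k1
  exact Nat.eq_of_mul_eq_mul_right (Nat.mul_pos k4 k5) k1

theorem gap_KF (w1 w2 c1 c2 r1 r2 : ℕ) (h1 : w1.Prime) (h2 : w2.Prime) (hne : w1 ≠ w2)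
    (e1 : w1 = c1 * r1 + 1) (e2 : w2 = c2 * r2 + 1) (hc1 : Nat.Coprime r1 (c1 * c2))
    (hc2 : Nat.Coprime r2 (c1 * c2)) (hr : Nat.Coprime r1 r2) (g : ℝ) (hg : 0 ≤ g)
    (hg1 : (2 * g) ^ (c1 * c2) < w1) (hg2 : (2 * g) ^ (c1 * c2) < w2) :
    GapAt (KF (CyclotomicField (w1 * w2) ℚ) (r1 * r2)) g := by
  have : NeZero (w1 * w2) := ⟨Nat.mul_ne_zero h1.ne_zero h2.ne_zero⟩
  have hG : IsGalois ℚ (CyclotomicField (w1 * w2) ℚ) := cyc_galois (w1 * w2)
  have hK : IsGalois ℚ (KF (CyclotomicField (w1 * w2) ℚ) (r1 * r2)) :=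
    lf_galois (CyclotomicField (w1 * w2) ℚ) (cyc_comm (w1 * w2)) _
  have hrk := KF_finrank w1 w2 c1 c2 r1 r2 h1 h2 hne e1 e2 hc1 hc2 hr
  rw [← hrk] at hg1 hg2
  have hne0 : NeZero (((w1 * w2 : ℕ) : ℚ)) := ⟨by
    exact_mod_cast Nat.mul_ne_zero h1.ne_zero h2.ne_zero⟩
  have hcyc : IsCyclotomicExtension {w1 * w2} ℚ (CyclotomicField (w1 * w2) ℚ) :=
    CyclotomicField.isCyclotomicExtension (w1 * w2) ℚ
  exact ngap_main (CyclotomicField (w1 * w2) ℚ) (w1 * w2) w1 w2 rfl h1 h2 hne _ g hg1 hg2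

end Pool.Agent.Lib.MP_79499b_co.DZ
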