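import Pool.Agent.Lib.BV.LSM

/-!
# NLS: the multiplicative large sieve for powers of a prime sum

* `ls_power`: let `a(n)` be the number of `f : Fin j → B` with `∏ f = n`. Then
  `∑_{n ≤ Q^j} a(n) χ(n) = (∑_{p ∈ B} χ(p))^j` (`Finset.prod_univ_sum` / `Fintype.piFinset`; `n = ∏ f` satisfies
  `1 ≤ n ≤ Q^j`), `∑ a(n) = |B|^j`, `a(n) ≤ j!` (by unique factorisation the multiset of the values of `f` is
  determined by `n`, and a multiset of size `j` has at most `j!` orderings), so `∑ a(n)^2 ≤ j! |B|^j`. Apply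
  `BV.large_sieve_mul Z (Q^j) a` and `q/φ(q) ≥ 1`.
* `exc_card`: `|E| (η |B|)^(2j) ≤ ∑_{W ≤ Z} PS W (..)` (for every `W ∈ E` one of the nonnegative terms is at
  least `(η|B|)^(2j)`), and divide.
-/

set_option autoImplicit false

open NumberField
open scoped Pointwise

namespace Pool.Agent.Lib.MP_79499b_co.DZ

open Finset

/-- ordered representations as a product of `j` elements of `B` -/
private def NLS_r (B : Finset ℕ) : ℕ → ℕ → ℕ
  | 0, n => if n = 1 then 1 else 0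
  | (j + 1), n => ∑ p ∈ B, if p ∣ n then NLS_r B j (n / p) else 0

private theorem NLS_prop {B : Finset ℕ} (Q : ℕ) (hB : ∀ q ∈ B, q.Prime ∧ q ≤ Q) :
    ∀ (j n : ℕ), NLS_r B j n ≠ 0 →
    n ≤ Q ^ j ∧ n ≠ 0 ∧ n.primeFactorsList.length = j := by
  intro j
  induction j with
  | zero =>
    intro n h
    have : n = 1 := by
      by_contra h1
      exact h (by simp [NLS_r, h1])
    subst this
    simp
  | succ j ih =>
    intro n h
    have h1 : ∃ p ∈ B, p ∣ n ∧ NLS_r B j (n / p) ≠ 0 := by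
      by_contra h2
      push Not at h2
      apply h
      rw [NLS_r]
      refine sum_eq_zero fun p hp => ?_
      split_ifs with h3
      · exact h2 p hp h3
      · rfl
    obtain ⟨p, hp, ⟨k, rfl⟩, h2⟩ := h1
    have hp' := hB p hp
    rw [Nat.mul_div_cancel_left k hp'.1.pos] at h2
    obtain ⟨h4, h5, h6⟩ := ih k h2
    refine ⟨?_, mul_ne_zero hp'.1.ne_zero h5, ?_⟩
    · calc p * k ≤ Q * Q ^ j := Nat.mul_le_mul hp'.2 h4
        _ = Q ^ (j + 1) := (pow_succ' _ _).symm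
    · rw [(Nat.perm_primeFactorsList_mul hp'.1.ne_zero h5).length_eq, List.length_append, h6,
        Nat.primeFactorsList_prime hp'.1]
      simp
      ring

private theorem NLS_le {B : Finset ℕ} (Q : ℕ) (hB : ∀ q ∈ B, q.Prime ∧ q ≤ Q) :
    ∀ (j n : ℕ), NLS_r B j n ≤ j.factorial := by
  intro j
  induction j with
  | zero =>
    intro n
    simp only [NLS_r, Nat.factorial_zero]
    split_ifs <;> omega
  | succ j ih =>
    intro n
    by_cases h0 : NLS_r B (j + 1) n = 0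
    · rw [h0]
      exact Nat.zero_le _
    obtain ⟨_, h3, h4⟩ := NLS_prop Q hB (j + 1) n h0
    have h5 : NLS_r B (j + 1) n ≤ ∑ p ∈ n.primeFactors, j.factorial := by
      rw [NLS_r, ← sum_filter]
      have h6 : B.filter (fun p => p ∣ n) ⊆ n.primeFactors := by
        intro p hp
        rw [mem_filter] at hp
        exact Nat.mem_primeFactors.2 ⟨(hB p hp.1).1, hp.2, h3⟩
      exact (sum_le_sum fun p _ => ih (n / p)).trans
        (sum_le_sum_of_subset_of_nonneg h6 fun _ _ _ => Nat.zero_le _)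
    refine h5.trans ?_
    rw [sum_const, smul_eq_mul, Nat.factorial_succ]
    refine Nat.mul_le_mul_right _ ?_
    rw [← h4]
    exact List.toFinset_card_le _

private theorem NLS_sum {R : Type} [CommRing R] {B : Finset ℕ} (Q : ℕ)
    (hB : ∀ q ∈ B, q.Prime ∧ q ≤ Q) (f : ℕ → R) (hf1 : f 1 = 1)
    (hf : ∀ p ∈ B, ∀ k, f (p * k) = f p * f k) : ∀ (j N : ℕ), Q ^ j ≤ N →
    ∑ n ∈ Icc 1 N, (NLS_r B j n : R) * f n = (∑ p ∈ B, f p) ^ j := by
  intro j
  induction j with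
  | zero =>
    intro N hN
    rw [pow_zero] at hN
    rw [sum_eq_single 1]
    · simp [NLS_r, hf1]
    · intro n _ hn
      simp [NLS_r, hn]
    · intro h
      exact absurd (mem_Icc.2 ⟨le_rfl, hN⟩) h
  | succ j ih =>
    intro N hN
    have h1 : ∑ n ∈ Icc 1 N, (NLS_r B (j + 1) n : R) * f n =
        ∑ p ∈ B, ∑ n ∈ Icc 1 N, if p ∣ n then (NLS_r B j (n / p) : R) * f n else 0 := by
      rw [sum_comm]
      refine sum_congr rfl fun n _ => ?_
      rw [NLS_r]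
      push_cast
      rw [sum_mul]
      refine sum_congr rfl fun p _ => ?_
      split_ifs <;> simp
    rw [h1, pow_succ', sum_mul]
    refine sum_congr rfl fun p hp => ?_
    have hp' := hB p hp
    have hN' : Q ^ j ≤ N / p := by
      rw [Nat.le_div_iff_mul_le hp'.1.pos]
      calc Q ^ j * p ≤ Q ^ j * Q := Nat.mul_le_mul_left _ hp'.2
        _ = Q ^ (j + 1) := (pow_succ _ _).symm
        _ ≤ N := hN
    rw [← ih (N / p) hN', mul_sum, ← sum_filter]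
    symm
    refine sum_bij (fun k _ => p * k) ?_ ?_ ?_ ?_
    · intro k hk
      rw [mem_Icc] at hk
      rw [mem_filter, mem_Icc]
      have := (Nat.le_div_iff_mul_le hp'.1.pos).1 hk.2
      exact ⟨⟨Nat.mul_pos hp'.1.pos hk.1, by rwa [mul_comm]⟩, dvd_mul_right _ _⟩
    · intro a _ b _ hab
      exact Nat.eq_of_mul_eq_mul_left hp'.1.pos hab
    · intro n hn
      rw [mem_filter, mem_Icc] at hn
      obtain ⟨k, rfl⟩ := hn.2
      refine ⟨k, mem_Icc.2 ⟨?_, ?_⟩, rfl⟩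
      · exact Nat.pos_of_ne_zero (by rintro rfl; simp at hn)
      · rw [Nat.le_div_iff_mul_le hp'.1.pos, mul_comm]
        exact hn.1.2
    · intro k _
      rw [Nat.mul_div_cancel_left k hp'.1.pos, hf p hp]
      ring

private theorem NLS_sq {B : Finset ℕ} (Q : ℕ) (hB : ∀ q ∈ B, q.Prime ∧ q ≤ Q) (j : ℕ) :
    ∑ n ∈ Icc 1 (Q ^ j), ‖((NLS_r B j n : ℕ) : ℂ)‖ ^ 2 ≤ j.factorial * (B.card : ℝ) ^ j := by
  have h1 : ∑ n ∈ Icc 1 (Q ^ j), (NLS_r B j n : ℝ) * 1 = (∑ _p ∈ B, (1 : ℝ)) ^ j :=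
    NLS_sum Q hB (fun _ => (1 : ℝ)) rfl (fun _ _ _ => (mul_one 1).symm) j _ le_rfl
  rw [sum_const, nsmul_eq_mul, mul_one] at h1
  rw [← h1, mul_sum]
  refine sum_le_sum fun n _ => ?_
  rw [Complex.norm_natCast, mul_one, sq]
  have h2 : (NLS_r B j n : ℝ) ≤ j.factorial := by exact_mod_cast NLS_le Q hB j n
  exact mul_le_mul_of_nonneg_right h2 (Nat.cast_nonneg _)

private theorem NLS_char {B : Finset ℕ} (Q : ℕ) (hB : ∀ q ∈ B, q.Prime ∧ q ≤ Q) (j : ℕ) {W : ℕ}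
    (χ : DirichletCharacter ℂ W) :
    ∑ n ∈ Icc 1 (Q ^ j), ((NLS_r B j n : ℕ) : ℂ) * χ (n : ZMod W) =
      (∑ p ∈ B, χ (p : ZMod W)) ^ j :=
  NLS_sum Q hB (fun n => χ (n : ZMod W)) (by simp) (by
    intro p _ k
    push_cast
    rw [map_mul]) j _ le_rfl

theorem ls_power (Z Q j : ℕ) (B : Finset ℕ) (hB : ∀ q ∈ B, q.Prime ∧ q ≤ Q) :
    ∑ W ∈ Finset.Icc 1 Z, BV.PS W (fun χ => ‖∑ p ∈ B, χ (p : ZMod W)‖ ^ (2 * j)) ≤
      6 * ((Q : ℝ) ^ j + (Z : ℝ) ^ 2) * (j.factorial * (B.card : ℝ) ^ j) := by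
  have h1 := Pool.Agent.Lib.BV.large_sieve_mul Z (Q ^ j) (fun n => ((NLS_r B j n : ℕ) : ℂ))
  have h2 := NLS_sq Q hB j
  have h3 : ∑ W ∈ Finset.Icc 1 Z, BV.PS W (fun χ => ‖∑ p ∈ B, χ (p : ZMod W)‖ ^ (2 * j)) ≤
      ∑ q ∈ Icc 1 Z, ((q : ℝ) / q.totient) * Pool.Agent.Lib.BV.PS q
        (fun χ => ‖∑ n ∈ Icc 1 (Q ^ j), ((NLS_r B j n : ℕ) : ℂ) * χ (n : ZMod q)‖ ^ 2) := by
    refine sum_le_sum fun q hq => ?_
    rw [mem_Icc] at hq
    have hφ0 : (0 : ℝ) < q.totient := by exact_mod_cast Nat.totient_pos.2 hq.1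
    have hφ : (1 : ℝ) ≤ (q : ℝ) / q.totient := by
      rw [le_div_iff₀ hφ0, one_mul]
      exact_mod_cast Nat.totient_le q
    have e1 : (fun χ : DirichletCharacter ℂ q =>
        ‖∑ n ∈ Icc 1 (Q ^ j), ((NLS_r B j n : ℕ) : ℂ) * χ (n : ZMod q)‖ ^ 2) =
        fun χ : DirichletCharacter ℂ q => ‖∑ p ∈ B, χ (p : ZMod q)‖ ^ (2 * j) := by
      funext χ
      rw [NLS_char Q hB j χ, norm_pow, ← pow_mul, mul_comm j 2]
    rw [e1]
    exact le_mul_of_one_le_left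
      (Pool.Agent.Lib.BV.PS_nonneg fun χ => by positivity) hφ
  refine h3.trans (h1.trans ?_)
  have h7 : (0 : ℝ) ≤ 6 * ((Q ^ j : ℕ) + (Z : ℝ) ^ 2) := by positivity
  refine (mul_le_mul_of_nonneg_left h2 h7).trans (le_of_eq ?_)
  push_cast
  ring

theorem exc_card (Z Q j : ℕ) (B : Finset ℕ) (hB : ∀ q ∈ B, q.Prime ∧ q ≤ Q) (hne : B.Nonempty)
    (η : ℝ) (hη : 0 < η) (E : Finset ℕ)
    (hE : ∀ W ∈ E, 1 ≤ W ∧ W ≤ Z ∧ ∃ χ : DirichletCharacter ℂ W, χ.IsPrimitive ∧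
      η * B.card ≤ ‖∑ p ∈ B, χ (p : ZMod W)‖) :
    (E.card : ℝ) ≤ 6 * ((Q : ℝ) ^ j + (Z : ℝ) ^ 2) * j.factorial /
      (η ^ (2 * j) * (B.card : ℝ) ^ j) := by
  classical
  have hb : (0 : ℝ) < B.card := by exact_mod_cast hne.card_pos
  have h1 := ls_power Z Q j B hB
  have h2 : (E.card : ℝ) * (η * B.card) ^ (2 * j) ≤
      ∑ W ∈ Finset.Icc 1 Z, BV.PS W (fun χ => ‖∑ p ∈ B, χ (p : ZMod W)‖ ^ (2 * j)) := by
    rw [← nsmul_eq_mul, ← sum_const]
    have hsub : E ⊆ Finset.Icc 1 Z := by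
      intro W hW
      obtain ⟨a, b, _⟩ := hE W hW
      exact mem_Icc.2 ⟨a, b⟩
    refine (sum_le_sum fun W hW => ?_).trans (sum_le_sum_of_subset_of_nonneg hsub fun W _ _ =>
      Pool.Agent.Lib.BV.PS_nonneg fun χ => by positivity)
    obtain ⟨_, _, χ, hχ, hle⟩ := hE W hW
    refine (pow_le_pow_left₀ (by positivity) hle (2 * j)).trans ?_
    unfold BV.PS
    exact single_le_sum (f := fun χ : DirichletCharacter ℂ W =>
      ‖∑ p ∈ B, χ (p : ZMod W)‖ ^ (2 * j)) (fun χ _ => by positivity)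
      (mem_filter.2 ⟨mem_univ _, hχ⟩)
  have h3 := h2.trans h1
  rw [le_div_iff₀ (by positivity)]
  have h4 : (0 : ℝ) < (B.card : ℝ) ^ j := by positivity
  have h5 : (E.card : ℝ) * (η ^ (2 * j) * (B.card : ℝ) ^ j) * (B.card : ℝ) ^ j ≤
      6 * ((Q : ℝ) ^ j + (Z : ℝ) ^ 2) * j.factorial * (B.card : ℝ) ^ j := by
    calc (E.card : ℝ) * (η ^ (2 * j) * (B.card : ℝ) ^ j) * (B.card : ℝ) ^ j
        = (E.card : ℝ) * (η * B.card) ^ (2 * j) := by ring
      _ ≤ _ := h3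
      _ = _ := by ring
  exact le_of_mul_le_mul_right h5 h4

end Pool.Agent.Lib.MP_79499b_co.DZ
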