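import Pool.Agent.Lib.MP_79499b_co.DZ.NPar

/-!
# NNumM: the numerical part of NMain

`L = log x → ∞`. (a) `m ≤ κ LL x` gives `(Z1 x)^(e0 m) ≤ exp(L^(1/4) e0 κ log L) ≤ exp(L^(2/5)/i)/2`;
(b) `exp(L^(2/5)/i)/2 ≥ 1`; (c) `X2 x ≥ 1`, `Z1 x ≥ 1`; (d) `2 s^2 (1 + L)^3 exp(-L^(1/10)) ≤ ε`.
-/

set_option autoImplicit false

open NumberField
open scoped Pointwise

namespace Pool.Agent.Lib.MP_79499b_co.DZ

private theorem m_pow (C a b : ℝ) (hab : a < b) : ∀ᶠ L : ℝ in Filter.atTop,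
    C * L ^ a ≤ L ^ b := by
  filter_upwards [(tendsto_rpow_atTop (sub_pos.2 hab)).eventually_ge_atTop C,
    Filter.eventually_gt_atTop 0] with L h1 h2
  calc C * L ^ a ≤ L ^ (b - a) * L ^ a :=
        mul_le_mul_of_nonneg_right h1 (Real.rpow_nonneg h2.le _)
    _ = L ^ b := by rw [← Real.rpow_add h2]; congr 1; ring

private theorem m_log (C a b : ℝ) (hC : 0 ≤ C) (hab : a < b) : ∀ᶠ L : ℝ in Filter.atTop,
    C * L ^ a * Real.log L ≤ L ^ b := by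
  have h0 : 0 < (b - a) / 2 := by linarith
  filter_upwards [m_pow (C / ((b - a) / 2)) (a + (b - a) / 2) b (by linarith),
    Filter.eventually_gt_atTop 0] with L h1 h2
  calc C * L ^ a * Real.log L ≤ C * L ^ a * (L ^ ((b - a) / 2) / ((b - a) / 2)) :=
        mul_le_mul_of_nonneg_left (Real.log_le_rpow_div h2.le h0)
          (mul_nonneg hC (Real.rpow_nonneg h2.le _))
    _ = C / ((b - a) / 2) * L ^ (a + (b - a) / 2) := by
        rw [Real.rpow_add h2]; ring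
    _ ≤ L ^ b := h1

private theorem m_exp (C ε : ℝ) (hε : 0 < ε) : ∀ᶠ L : ℝ in Filter.atTop,
    C * (1 + L) ^ 3 * Real.exp (-(L ^ (1 / 10 : ℝ))) ≤ ε := by
  have h1 := (Real.tendsto_pow_mul_exp_neg_atTop_nhds_zero 30).comp
    (tendsto_rpow_atTop (show (0 : ℝ) < 1 / 10 by norm_num))
  have h2 := h1.const_mul (|C| * 8)
  rw [mul_zero] at h2
  filter_upwards [h2.eventually_lt_const hε, Filter.eventually_ge_atTop 1] with L h3 h4
  have h5 : (L ^ (1 / 10 : ℝ)) ^ 30 = L ^ 3 := by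
    rw [← Real.rpow_natCast, ← Real.rpow_mul (by linarith), ← Real.rpow_natCast]
    congr 1
    norm_num
  simp only [Function.comp] at h3
  rw [h5] at h3
  refine le_trans ?_ h3.le
  have h6 : (1 + L) ^ 3 ≤ 8 * L ^ 3 := by nlinarith [sq_nonneg (L - 1), sq_nonneg L]
  have h7 : C * (1 + L) ^ 3 ≤ |C| * (8 * L ^ 3) :=
    mul_le_mul (le_abs_self C) h6 (by positivity) (abs_nonneg C)
  calc C * (1 + L) ^ 3 * Real.exp (-(L ^ (1 / 10 : ℝ)))
      ≤ |C| * (8 * L ^ 3) * Real.exp (-(L ^ (1 / 10 : ℝ))) :=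
        mul_le_mul_of_nonneg_right h7 (Real.exp_pos _).le
    _ = |C| * 8 * (L ^ 3 * Real.exp (-(L ^ (1 / 10 : ℝ)))) := by ring

theorem num_main (s e0 i : ℕ) (hi : 1 ≤ i) (κ ε : ℝ) (hε : 0 < ε) :
    ∃ x0 : ℕ, ∀ x : ℕ, x0 ≤ x →
      (∀ m : ℕ, (m : ℝ) ≤ κ * LL x →
        Z1 x ^ (e0 * m) ≤ Real.exp (Real.log x ^ (2 / 5 : ℝ) / i) / 2) ∧
      1 ≤ Real.exp (Real.log x ^ (2 / 5 : ℝ) / i) / 2 ∧ 1 ≤ X2 x ∧ 1 ≤ Z1 x ∧
      2 * (s : ℝ) ^ 2 * (1 + Real.log x) ^ 3 * Real.exp (-(Real.log x ^ (1 / 10 : ℝ))) ≤ ε := by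
  have hi' : (0 : ℝ) < i := by exact_mod_cast hi
  have hev : ∀ᶠ L : ℝ in Filter.atTop,
      (∀ m : ℕ, (m : ℝ) ≤ κ * Real.log L →
        Real.exp (L ^ (1 / 4 : ℝ)) ^ (e0 * m) ≤ Real.exp (L ^ (2 / 5 : ℝ) / i) / 2) ∧
      1 ≤ Real.exp (L ^ (2 / 5 : ℝ) / i) / 2 ∧ 1 ≤ Real.exp (L ^ (9 / 20 : ℝ)) ∧
      1 ≤ Real.exp (L ^ (1 / 4 : ℝ)) ∧
      2 * (s : ℝ) ^ 2 * (1 + L) ^ 3 * Real.exp (-(L ^ (1 / 10 : ℝ))) ≤ ε := by
    filter_upwards [m_exp (2 * (s : ℝ) ^ 2) ε hε, Filter.eventually_ge_atTop 1,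
      m_log (2 * i * e0 * |κ|) (1 / 4) (2 / 5) (by positivity) (by norm_num),
      m_pow (2 * i * Real.log 2) 0 (2 / 5) (by norm_num)] with L h1 h2 h3 h4
    have hL0 : 0 < L := by linarith
    have hlog : 0 ≤ Real.log L := Real.log_nonneg h2
    have h4' : Real.log 2 ≤ L ^ (2 / 5 : ℝ) / i / 2 := by
      rw [Real.rpow_zero, mul_one] at h4
      rw [le_div_iff₀ (by norm_num), le_div_iff₀ hi']
      linarith
    have hhalf : Real.exp (L ^ (2 / 5 : ℝ) / i / 2) ≤ Real.exp (L ^ (2 / 5 : ℝ) / i) / 2 := by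
      rw [le_div_iff₀ (by norm_num)]
      calc Real.exp (L ^ (2 / 5 : ℝ) / i / 2) * 2
          = Real.exp (L ^ (2 / 5 : ℝ) / i / 2) * Real.exp (Real.log 2) := by
            rw [Real.exp_log (by norm_num)]
        _ ≤ Real.exp (L ^ (2 / 5 : ℝ) / i / 2) * Real.exp (L ^ (2 / 5 : ℝ) / i / 2) :=
            mul_le_mul_of_nonneg_left (Real.exp_le_exp.2 h4') (Real.exp_pos _).le
        _ = Real.exp (L ^ (2 / 5 : ℝ) / i) := by
            rw [← Real.exp_add]; congr 1; ring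
    refine ⟨?_, ?_, Real.one_le_exp (Real.rpow_nonneg hL0.le _),
      Real.one_le_exp (Real.rpow_nonneg hL0.le _), h1⟩
    · intro m hm
      refine le_trans ?_ hhalf
      rw [← Real.exp_nat_mul]
      refine Real.exp_le_exp.2 ?_
      have hm' : (m : ℝ) ≤ |κ| * Real.log L :=
        hm.trans (mul_le_mul_of_nonneg_right (le_abs_self κ) hlog)
      have hq : (0 : ℝ) ≤ L ^ (1 / 4 : ℝ) := Real.rpow_nonneg hL0.le _
      rw [le_div_iff₀ (by norm_num), le_div_iff₀ hi']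
      push_cast
      calc (e0 : ℝ) * m * L ^ (1 / 4 : ℝ) * 2 * i
          = (2 * i * e0 * L ^ (1 / 4 : ℝ)) * m := by ring
        _ ≤ (2 * i * e0 * L ^ (1 / 4 : ℝ)) * (|κ| * Real.log L) :=
            mul_le_mul_of_nonneg_left hm' (by positivity)
        _ = 2 * i * e0 * |κ| * L ^ (1 / 4 : ℝ) * Real.log L := by ring
        _ ≤ L ^ (2 / 5 : ℝ) := h3
    · refine le_trans (Real.one_le_exp ?_) hhalf
      positivity
  obtain ⟨x0, hx0⟩ := Filter.eventually_atTop.1 (log_tend.eventually hev)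
  exact ⟨x0, fun x hx => hx0 x hx⟩

end Pool.Agent.Lib.MP_79499b_co.DZ
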