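import Pool.Agent.Lib.MP_79499b_co.DZ.LD
import Pool.Agent.Lib.Sieve.Mertens

/-!
# NOm: almost all n have few prime factors, and no square of a large prime

* `om_few`: `∑_{1 ≤ n < x} Ω(n) = ∑_{p^k < x, k ≥ 1} ⌊(x-1)/p^k⌋ ≤ x ∑_{p ≤ x} 1/(p-1) ≤ x (LL x + C)` by the
  upper bound of Mertens (`∑_{p ≤ x} 1/p ≤ loglog x + C`, in `Pool/Agent/Lib/Sieve/Mertens.lean` or
  `MP_79499b_co/MertensUpper29.lean`; `∑ 1/(p(p-1)) ≤ 1`). Markov: the number of `n < x` with
  `Ω(n) > κ LL x` is at most `x (LL x + C)/(κ LL x) ≤ 2x/κ ≤ ε x` for `κ = 2/ε` and `x` large. (`n = 0` has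
  `primeFactorsList = []`.)
* `sq_few`: `n = 0`, or some `p > Z`, `p^2 ∣ n`, `n < x`: at most `1 + ∑_{p > Z} x/p^2 ≤ 1 + 2x/Z` for `Z ≥ 1`
  (sum over integers `p > Z`), with `Z = exp((log x)^(1/4)) → ∞`: at most `ε x` for `x` large.
-/

set_option autoImplicit false

open NumberField
open scoped Pointwise

namespace Pool.Agent.Lib.MP_79499b_co.DZ

open Finset in
theorem NOm_len (N : ℕ) : N.primeFactorsList.length = ∑ p ∈ N.primeFactors, N.factorization p := by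
  rw [← List.sum_toFinset_count_eq_length]
  refine Finset.sum_congr rfl fun p _ => ?_
  rw [Nat.primeFactorsList_count_eq]

open Finset in
theorem NOm_sum (x : ℕ) :
    ∑ n ∈ range x, n.primeFactorsList.length = ((x - 1).factorial).primeFactorsList.length := by
  induction x with
  | zero => simp
  | succ x ih =>
    rw [sum_range_succ, ih]
    rcases Nat.eq_zero_or_pos x with h | h
    · subst h; simp
    · obtain ⟨y, rfl⟩ : ∃ y, x = y + 1 := ⟨x - 1, by omega⟩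
      simp only [Nat.add_sub_cancel]
      rw [Nat.factorial_succ, (Nat.perm_primeFactorsList_mul (by omega)
        (Nat.factorial_ne_zero y)).length_eq, List.length_append]
      omega

open Finset in
theorem NOm_fact (N : ℕ) (p : ℕ) (hp : p.Prime) :
    ((N.factorial.factorization p : ℕ) : ℝ) ≤ 2 * N * (1 / (p : ℝ)) := by
  have := Fact.mk hp
  have h1 := sub_one_mul_padicValNat_factorial (p := p) N
  rw [Nat.factorization_def _ hp]
  have h2 : (p - 1) * padicValNat p N.factorial ≤ N := by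
    rw [h1]; exact Nat.sub_le _ _
  have h3 : ((p : ℝ) - 1) * (padicValNat p N.factorial : ℝ) ≤ N := by
    have h4 : (((p - 1) * padicValNat p N.factorial : ℕ) : ℝ) ≤ (N : ℝ) := by exact_mod_cast h2
    rw [Nat.cast_mul, Nat.cast_sub hp.one_lt.le, Nat.cast_one] at h4
    exact h4
  have hp2 : (2 : ℝ) ≤ p := by exact_mod_cast hp.two_le
  have h5 : (p : ℝ) / 2 * (padicValNat p N.factorial : ℝ) ≤ N := by
    refine le_trans (mul_le_mul_of_nonneg_right ?_ (Nat.cast_nonneg _)) h3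
    linarith
  have h6 : (0 : ℝ) < p := by linarith
  rw [mul_one_div, le_div_iff₀ h6]
  nlinarith

open Finset in
theorem NOm_mert : ∃ C : ℝ, 0 < C ∧ ∀ x : ℕ, 3 ≤ x →
    ∑ p ∈ (Icc 1 x).filter Nat.Prime, (1 : ℝ) / p ≤ C + LL x := by
  obtain ⟨C, hC, h⟩ := Sieve.mertens_product_upper
  refine ⟨|Real.log C| + 1, by positivity, fun x hx => ?_⟩
  have h1 := h x (by omega)
  have hlx : 0 < Real.log x := Real.log_pos (by exact_mod_cast (by omega : 1 < x))
  have hfac : ∀ p ∈ (Icc 1 x).filter Nat.Prime, Real.exp ((1 : ℝ) / p) ≤ (1 - (1 : ℝ) / p)⁻¹ := by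
    intro p hp
    have hp' := (mem_filter.1 hp).2
    have hp2 : (2 : ℝ) ≤ p := by exact_mod_cast hp'.two_le
    have h3 : 0 < 1 - (1 : ℝ) / p := by
      rw [sub_pos, div_lt_one (by linarith)]; linarith
    rw [le_inv_comm₀ (Real.exp_pos _) h3, ← Real.exp_neg]
    have := Real.add_one_le_exp (-(1 / (p : ℝ)))
    linarith
  have h2 : Real.exp (∑ p ∈ (Icc 1 x).filter Nat.Prime, (1 : ℝ) / p) ≤ C * Real.log x := by
    rw [Real.exp_sum]
    refine le_trans (Finset.prod_le_prod (fun _ _ => (Real.exp_pos _).le) hfac) h1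
  have h3 := Real.log_le_log (Real.exp_pos _) h2
  rw [Real.log_exp, Real.log_mul hC.ne' hlx.ne'] at h3
  unfold LL
  have := le_abs_self (Real.log C)
  linarith

open Finset in
theorem NOm_cnt_le (x : ℕ) (P : ℕ → Prop) (t : Finset ℕ) (h : ∀ n, n < x → P n → n ∈ t) :
    cnt x P ≤ t.card := by
  unfold cnt
  refine Nat.cast_le.2 (card_le_card ?_)
  intro n hn
  simp only [mem_filter, mem_range] at hn
  exact h n hn.1 hn.2

open Finset in
theorem om_few (ε : ℝ) (hε : 0 < ε) : ∃ (κ : ℝ) (x0 : ℕ), 0 < κ ∧ ∀ x : ℕ, x0 ≤ x →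
    cnt x (fun n => κ * LL x < (n.primeFactorsList.length : ℝ)) ≤ ε * x := by
  classical
  obtain ⟨C, hC, hM⟩ := NOm_mert
  have hev : ∀ᶠ x : ℕ in Filter.atTop, C ≤ LL x := LL_tend.eventually_ge_atTop C
  obtain ⟨x1, hx1⟩ := Filter.eventually_atTop.1 hev
  refine ⟨4 / ε, max x1 3, by positivity, fun x hx => ?_⟩
  have hx3 : 3 ≤ x := le_trans (le_max_right _ _) hx
  have hLC := hx1 x (le_trans (le_max_left _ _) hx)
  have hL0 : 0 < LL x := lt_of_lt_of_le hC hLC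
  have hsum : ((∑ n ∈ range x, n.primeFactorsList.length : ℕ) : ℝ) ≤ 4 * x * LL x := by
    rw [NOm_sum, NOm_len]
    push_cast
    have h1 : ∑ p ∈ ((x - 1).factorial).primeFactors, (((x - 1).factorial.factorization p : ℕ) : ℝ)
        ≤ ∑ p ∈ (Icc 1 x).filter Nat.Prime, 2 * (x : ℝ) * (1 / (p : ℝ)) := by
      have hsub : ((x - 1).factorial).primeFactors ⊆ (Icc 1 x).filter Nat.Prime := by
        intro p hp
        have hp' := Nat.prime_of_mem_primeFactors hp
        have hd := Nat.dvd_of_mem_primeFactors hp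
        rw [hp'.dvd_factorial] at hd
        rw [mem_filter, mem_Icc]
        exact ⟨⟨hp'.one_lt.le, by omega⟩, hp'⟩
      refine le_trans (Finset.sum_le_sum fun p hp => ?_)
        (Finset.sum_le_sum_of_subset_of_nonneg hsub fun _ _ _ => by positivity)
      have h2 := NOm_fact (x - 1) p (Nat.prime_of_mem_primeFactors hp)
      refine le_trans h2 ?_
      have h3 : ((x - 1 : ℕ) : ℝ) ≤ x := by exact_mod_cast Nat.sub_le x 1
      gcongr
    refine le_trans h1 ?_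
    rw [← Finset.mul_sum]
    have h2 := hM x hx3
    have h3 : (0 : ℝ) ≤ x := Nat.cast_nonneg x
    nlinarith
  have hmarkov : cnt x (fun n => 4 / ε * LL x < (n.primeFactorsList.length : ℝ)) * (4 / ε * LL x) ≤
      ((∑ n ∈ range x, n.primeFactorsList.length : ℕ) : ℝ) := by
    unfold cnt
    push_cast
    rw [← nsmul_eq_mul, ← Finset.sum_const]
    refine le_trans (Finset.sum_le_sum fun n hn => ?_)
      (Finset.sum_le_sum_of_subset_of_nonneg (Finset.filter_subset _ _) fun _ _ _ => by positivity)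
    exact (mem_filter.1 hn).2.le
  have h5 := hmarkov.trans hsum
  have h6 : cnt x (fun n => 4 / ε * LL x < (n.primeFactorsList.length : ℝ)) * (4 / ε * LL x) ≤
      (ε * x) * (4 / ε * LL x) := by
    refine h5.trans (le_of_eq ?_)
    field_simp
  exact le_of_mul_le_mul_right h6 (by positivity)

open Finset in
theorem sq_few (ε : ℝ) (hε : 0 < ε) : ∃ x0 : ℕ, ∀ x : ℕ, x0 ≤ x →
    cnt x (fun n => ∃ p : ℕ, p.Prime ∧ Real.exp (Real.log x ^ (1 / 4 : ℝ)) < p ∧ p ^ 2 ∣ n) ≤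
      ε * x := by
  classical
  have h1 : Filter.Tendsto (fun x : ℕ => Real.exp (Real.log x ^ (1 / 4 : ℝ))) Filter.atTop
      Filter.atTop :=
    Real.tendsto_exp_atTop.comp ((tendsto_rpow_atTop (by norm_num)).comp log_tend)
  have hev : ∀ᶠ x : ℕ in Filter.atTop, 4 / ε + 2 ≤ Real.exp (Real.log x ^ (1 / 4 : ℝ)) :=
    h1.eventually_ge_atTop _
  have hev2 : ∀ᶠ x : ℕ in Filter.atTop, 2 / ε ≤ (x : ℝ) :=
    tendsto_natCast_atTop_atTop.eventually_ge_atTop _
  obtain ⟨x0, hx0⟩ := Filter.eventually_atTop.1 (hev.and hev2)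
  refine ⟨x0, fun x hx => ?_⟩
  obtain ⟨hE, hxe⟩ := hx0 x hx
  set E := Real.exp (Real.log x ^ (1 / 4 : ℝ)) with hEdef
  set K : ℕ := ⌊E⌋₊ with hK
  have hE0 : 0 ≤ E := (Real.exp_pos _).le
  have hKE : E < K + 1 := Nat.lt_floor_add_one E
  have h4ε : 0 < 4 / ε := by positivity
  have hK1 : 4 / ε ≤ K := by linarith
  have hKpos : (0 : ℝ) < K := lt_of_lt_of_le h4ε hK1
  have hK0 : K ≠ 0 := by
    intro h
    rw [h] at hKpos
    simp at hKpos
  -- n = 0
  have hs : cnt x (fun n => ∃ p : ℕ, p.Prime ∧ E < p ∧ p ^ 2 ∣ n) ≤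
      cnt x (fun n => n = 0 ∨ ∃ p ∈ Ioc K (max K x), n ≠ 0 ∧ p ^ 2 ∣ n) := by
    refine cnt_mono ?_
    rintro n hn ⟨p, hp, hEp, hd⟩
    by_cases h0 : n = 0
    · exact Or.inl h0
    · refine Or.inr ⟨p, ?_, h0, hd⟩
      have hpn : p ^ 2 ≤ n := Nat.le_of_dvd (Nat.pos_of_ne_zero h0) hd
      have hpp : p ≤ p ^ 2 := Nat.le_self_pow two_ne_zero p
      rw [mem_Ioc]
      refine ⟨?_, le_trans (by omega) (le_max_right _ _)⟩
      rw [hK, Nat.floor_lt hE0]
      exact hEp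
  have h0 : cnt x (fun n => n = 0) ≤ 1 := by
    have h := NOm_cnt_le x (fun n => n = 0) {0} (fun n _ hn => by rw [mem_singleton]; exact hn)
    rwa [card_singleton, Nat.cast_one] at h
  have h2 : cnt x (fun n => ∃ p ∈ Ioc K (max K x), n ≠ 0 ∧ p ^ 2 ∣ n) ≤ x * (1 / K) := by
    refine (cnt_exists x _ _).trans ?_
    have h3 : ∀ p ∈ Ioc K (max K x), cnt x (fun n => n ≠ 0 ∧ p ^ 2 ∣ n) ≤ x * ((p : ℝ) ^ 2)⁻¹ := by
      intro p hp
      have hp0 : 0 < p := lt_of_le_of_lt (Nat.zero_le _) (mem_Ioc.1 hp).1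
      have h5 : ((Ioc 0 x).filter (fun n => p ^ 2 ∣ n)).card = x / p ^ 2 :=
        Nat.Ioc_filter_dvd_card_eq_div x (p ^ 2)
      refine le_trans (NOm_cnt_le x _ ((Ioc 0 x).filter (fun n => p ^ 2 ∣ n)) ?_) ?_
      · intro n hn hn2
        rw [mem_filter, mem_Ioc]
        exact ⟨⟨Nat.pos_of_ne_zero hn2.1, hn.le⟩, hn2.2⟩
      rw [h5]
      have h7 := @Nat.cast_div_le ℝ _ _ _ x (p ^ 2)
      push_cast at h7
      rw [div_eq_mul_inv] at h7
      exact h7
    refine (sum_le_sum h3).trans ?_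
    rw [← mul_sum]
    have h8 := sum_Ioc_inv_sq_le_sub (α := ℝ) hK0 (le_max_left K x)
    have h9 : (0 : ℝ) ≤ (((max K x : ℕ) : ℝ))⁻¹ := by positivity
    have h10 : ∑ i ∈ Ioc K (max K x), ((i : ℝ) ^ 2)⁻¹ ≤ 1 / K := by
      rw [one_div]
      linarith
    exact mul_le_mul_of_nonneg_left h10 (Nat.cast_nonneg x)
  have h3 := (hs.trans (cnt_or x _ _)).trans (add_le_add h0 h2)
  refine h3.trans ?_
  have h4 : (1 : ℝ) ≤ ε / 2 * x := by
    rw [div_le_iff₀ hε] at hxe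
    linarith
  have h5 : (1 : ℝ) / K ≤ ε / 4 := by
    rw [div_le_iff₀ hKpos]
    rw [div_le_iff₀ hε] at hK1
    linarith
  have h6 : (x : ℝ) * (1 / K) ≤ x * (ε / 4) := mul_le_mul_of_nonneg_left h5 (Nat.cast_nonneg x)
  have h7 : (0 : ℝ) ≤ x := Nat.cast_nonneg x
  nlinarith

end Pool.Agent.Lib.MP_79499b_co.DZ
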