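import Pool.Agent.Lib.MP_79499b_co.DZ.NCyc

/-!
# NSem: primes p with -1 in the group generated by p

Statement: `W = w1 w2` divides `p^t + 1`, `β ∈ 𝓞 F` with `|β| = n^e0` in every embedding; then
`p^(e0 v_p(n))` divides `β`.

Proof. `p` does not divide `W` (`W ∣ p^t + 1` and `W > 2`.. if `p ∣ W` then `p = w1` say divides `p^t + 1`, so
`t = 0`, `W ∣ 2`: impossible). Let `cc` be complex conjugation (`cyc_conj`), i.e. the automorphism
corresponding to `-1` (it maps `ζ` to `ζ⁻¹`). `β (cc β) = n^(2 e0)` (apply an embedding). Let `P` be a prime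
ideal containing `p`. `-1 = p^t` in `(ZMod W)ˣ`, so by `IsCyclotomicExtension.Rat.galEquivZMod_stabilizer` `cc`
fixes `P`, so `P` has the same multiplicity in `(β)` and in `(cc β)`: twice it is the multiplicity of `P` in
`(n)^(2 e0)`, which is at least `2 e0 v_p(n)` times that of `P` in `(p)`. So the multiplicity of every prime
ideal `P` containing `p` in `(β)` is at least its multiplicity in `(p)^(e0 v_p(n))`; the other prime ideals
have multiplicity 0 in `(p)`. So `(p)^(e0 v_p(n))` divides `(β)` (`UniqueFactorizationMonoid`,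
`Ideal` normalized factors) and `p^(e0 v_p(n)) ∣ β`. (`n ≠ 0`.)
-/

set_option autoImplicit false

open NumberField
open scoped Pointwise

namespace Pool.Agent.Lib.MP_79499b_co.DZ

private theorem nsem_coprime {W p t : ℕ} (hp : p.Prime) (hW : 2 < W) (h : W ∣ p ^ t + 1) :
    Nat.Coprime p W := by
  rcases Nat.eq_zero_or_pos t with ht | ht
  · subst ht
    rw [pow_zero] at h
    have := Nat.le_of_dvd (by norm_num) h
    omega
  · rw [hp.coprime_iff_not_dvd]
    intro h2
    have h3 : p ∣ p ^ t + 1 := h2.trans h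
    have h4 : p ∣ p ^ t := dvd_pow_self p ht.ne'
    exact hp.one_lt.ne' (Nat.dvd_one.mp ((Nat.dvd_add_right h4).mp h3))

private theorem nsem_stab (W p t : ℕ) [NeZero W] [Fact p.Prime] (K : Type) [Field K]
    [NumberField K] [IsCyclotomicExtension {W} ℚ K] (hcop : Nat.Coprime p W)
    (ht : W ∣ p ^ t + 1) (cc : K ≃ₐ[ℚ] K) (hcc : IsConjAut K cc) (P : Ideal (𝓞 K))
    [P.IsMaximal] [P.LiesOver (Ideal.span {(p : ℤ)})] : cc • P = P := by
  have hζ := IsCyclotomicExtension.zeta_spec W ℚ K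
  set ζ := IsCyclotomicExtension.zeta W ℚ K with hζdef
  obtain ⟨φ⟩ : Nonempty (K →+* ℂ) := inferInstance
  have h1 : cc ζ = ζ⁻¹ := by
    apply φ.injective
    rw [hcc, map_inv₀]
    have hn : ‖φ ζ‖ = 1 := by
      have : (φ ζ) ^ W = 1 := by rw [← map_pow, hζ.pow_eq_one, map_one]
      exact Complex.norm_eq_one_of_pow_eq_one this (NeZero.ne W)
    exact (Complex.inv_eq_conj hn).symm
  have h2 : ζ ^ (IsCyclotomicExtension.Rat.galEquivZMod W K cc).val.val =
      ζ ^ (p ^ t) := by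
    rw [← IsCyclotomicExtension.Rat.galEquivZMod_apply_of_pow_eq W _ cc hζ.pow_eq_one, h1]
    have h3 : ζ ^ (p ^ t) * ζ = 1 := by
      rw [← pow_succ]
      obtain ⟨m, hm⟩ := ht
      rw [hm, pow_mul, hζ.pow_eq_one, one_pow]
    exact (eq_inv_of_mul_eq_one_left h3).symm
  have h4 : IsCyclotomicExtension.Rat.galEquivZMod W K cc =
      ZMod.unitOfCoprime p hcop ^ t := by
    rw [(hζ.isOfFinOrder (NeZero.ne _)).pow_inj_mod, ← hζ.eq_orderOf,
      ← ZMod.natCast_eq_natCast_iff', Nat.cast_pow, ← ZMod.coe_unitOfCoprime p hcop,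
      ← Units.val_pow_eq_pow_val, ZMod.natCast_zmod_val, ← Units.ext_iff] at h2
    exact h2
  have h5 : IsCyclotomicExtension.Rat.galEquivZMod W K cc ∈
      (IsCyclotomicExtension.Rat.galEquivZMod W K).mapSubgroup
        (MulAction.stabilizer (K ≃ₐ[ℚ] K) P) := by
    rw [IsCyclotomicExtension.Rat.galEquivZMod_stabilizer W K p P hcop, h4]
    exact ⟨t, by simp⟩
  obtain ⟨σ, hσ, hσ2⟩ := h5
  have h6 : σ = cc := (IsCyclotomicExtension.Rat.galEquivZMod W K).injective hσ2
  rw [← h6]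
  exact hσ

private theorem nsem_mul (W n e0 : ℕ) [NeZero W]
    (cc : CyclotomicField W ℚ ≃ₐ[ℚ] CyclotomicField W ℚ)
    (hcc : IsConjAut (CyclotomicField W ℚ) cc) (β : 𝓞 (CyclotomicField W ℚ))
    (hβ : ∀ φ : CyclotomicField W ℚ →+* ℂ,
      ‖φ (β : CyclotomicField W ℚ)‖ = (n : ℝ) ^ e0) :
    β * (cc • β) = (n : 𝓞 (CyclotomicField W ℚ)) ^ (2 * e0) := by
  obtain ⟨φ⟩ : Nonempty (CyclotomicField W ℚ →+* ℂ) := inferInstance
  apply FaithfulSMul.algebraMap_injective (𝓞 (CyclotomicField W ℚ)) (CyclotomicField W ℚ)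
  apply φ.injective
  have h1 : algebraMap (𝓞 (CyclotomicField W ℚ)) (CyclotomicField W ℚ) (cc • β) =
      cc (β : CyclotomicField W ℚ) := rfl
  rw [map_mul, h1, map_mul, hcc, Complex.mul_conj, Complex.normSq_eq_norm_sq, hβ φ]
  rw [map_pow, map_pow, map_natCast, map_natCast]
  push_cast
  ring

theorem semi_dvd (w1 w2 p t n e0 : ℕ) (h1 : w1.Prime) (h2 : w2.Prime) (hne : w1 ≠ w2)
    (hp : p.Prime) (ht : w1 * w2 ∣ p ^ t + 1) (hn : n ≠ 0) (β : 𝓞 (CyclotomicField (w1 * w2) ℚ))
    (hβ : ∀ φ : CyclotomicField (w1 * w2) ℚ →+* ℂ,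
      ‖φ (β : CyclotomicField (w1 * w2) ℚ)‖ = (n : ℝ) ^ e0) :
    (p : 𝓞 (CyclotomicField (w1 * w2) ℚ)) ^ (e0 * n.factorization p) ∣ β := by
  classical
  have hW : 2 < w1 * w2 := by
    have := h1.two_le
    have := h2.two_le
    nlinarith
  have : NeZero (w1 * w2) := ⟨by omega⟩
  have : Fact p.Prime := ⟨hp⟩
  have hNZ : NeZero ((w1 * w2 : ℕ) : ℚ) := ⟨Nat.cast_ne_zero.mpr (by omega)⟩
  have hcyc : IsCyclotomicExtension {w1 * w2} ℚ (CyclotomicField (w1 * w2) ℚ) :=
    CyclotomicField.isCyclotomicExtension _ _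
  have hcop := nsem_coprime hp hW ht
  obtain ⟨cc, hcc⟩ := cyc_conj (w1 * w2)
  have hmul := nsem_mul (w1 * w2) n e0 cc hcc β hβ
  have hn0 : (n : 𝓞 (CyclotomicField (w1 * w2) ℚ)) ≠ 0 := Nat.cast_ne_zero.mpr hn
  have hp0 : (p : 𝓞 (CyclotomicField (w1 * w2) ℚ)) ≠ 0 := Nat.cast_ne_zero.mpr hp.ne_zero
  have hβ0 : β ≠ 0 := by
    rintro rfl
    rw [zero_mul] at hmul
    exact pow_ne_zero _ hn0 hmul.symm
  have hcβ0 : cc • β ≠ 0 := by
    intro h
    rw [h, mul_zero] at hmul
    exact pow_ne_zero _ hn0 hmul.symm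
  set m := e0 * n.factorization p with hm
  have sp : Ideal.span {(p : 𝓞 (CyclotomicField (w1 * w2) ℚ))} ≠ 0 := by
    rwa [Ne, Ideal.zero_eq_bot, Ideal.span_singleton_eq_bot]
  have sn : Ideal.span {(n : 𝓞 (CyclotomicField (w1 * w2) ℚ))} ≠ 0 := by
    rwa [Ne, Ideal.zero_eq_bot, Ideal.span_singleton_eq_bot]
  have sβ : Ideal.span {β} ≠ 0 := by
    rwa [Ne, Ideal.zero_eq_bot, Ideal.span_singleton_eq_bot]
  have scβ : Ideal.span {cc • β} ≠ 0 := by
    rwa [Ne, Ideal.zero_eq_bot, Ideal.span_singleton_eq_bot]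
  suffices h : Ideal.span {(p : 𝓞 (CyclotomicField (w1 * w2) ℚ))} ^ m ∣ Ideal.span {β} by
    rw [Ideal.span_singleton_pow, Ideal.dvd_span_singleton, Ideal.mem_span_singleton] at h
    exact h
  rw [UniqueFactorizationMonoid.dvd_iff_normalizedFactors_le_normalizedFactors
    (pow_ne_zero _ sp) sβ, UniqueFactorizationMonoid.normalizedFactors_pow, Multiset.le_iff_count]
  intro P
  rw [Multiset.count_nsmul]
  by_cases hP : P ∈ UniqueFactorizationMonoid.normalizedFactors
    (Ideal.span {(p : 𝓞 (CyclotomicField (w1 * w2) ℚ))})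
  swap
  · rw [Multiset.count_eq_zero_of_notMem hP, mul_zero]
    exact Nat.zero_le _
  have hPp : Prime P := UniqueFactorizationMonoid.prime_of_normalized_factor P hP
  have hPi : P.IsPrime := Ideal.isPrime_of_prime hPp
  have hPb : P ≠ ⊥ := hPp.ne_zero
  have hPm : P.IsMaximal := hPi.isMaximal hPb
  have hpP : (p : 𝓞 (CyclotomicField (w1 * w2) ℚ)) ∈ P := by
    have := UniqueFactorizationMonoid.dvd_of_mem_normalizedFactors hP
    exact Ideal.dvd_span_singleton.mp this
  have hlies : P.LiesOver (Ideal.span {(p : ℤ)}) := by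
    refine ⟨?_⟩
    have hmax : (Ideal.span {(p : ℤ)}).IsMaximal :=
      PrincipalIdealRing.isMaximal_of_irreducible (Nat.prime_iff_prime_int.mp hp).irreducible
    refine hmax.eq_of_le (Ideal.comap_ne_top _ hPi.ne_top) ?_
    rw [Ideal.span_singleton_le_iff_mem, Ideal.under_def, Ideal.mem_comap]
    simpa using hpP
  have hstab := nsem_stab (w1 * w2) p t (CyclotomicField (w1 * w2) ℚ) hcop ht cc hcc P
  -- the multiplicities of `β` and `cc β` at `P` are equal
  have hcnt : ∀ I : Ideal (𝓞 (CyclotomicField (w1 * w2) ℚ)), I ≠ 0 →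
      ((UniqueFactorizationMonoid.normalizedFactors I).count P : ℕ∞) = emultiplicity P I := by
    intro I hI
    rw [UniqueFactorizationMonoid.emultiplicity_eq_count_normalizedFactors hPp.irreducible hI,
      normalize_eq]
  have hcc2 : emultiplicity P (Ideal.span {cc • β}) = emultiplicity P (Ideal.span {β}) := by
    rw [emultiplicity_eq_emultiplicity_iff]
    intro k
    rw [Ideal.dvd_span_singleton, Ideal.dvd_span_singleton]
    have h3 : P ^ k = cc • (P ^ k) := by
      rw [smul_pow', hstab]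
    conv_lhs => rw [h3]
    exact Ideal.smul_mem_pointwise_smul_iff
  have e1 : emultiplicity P (Ideal.span {β}) + emultiplicity P (Ideal.span {β}) =
      emultiplicity P (Ideal.span {(n : 𝓞 (CyclotomicField (w1 * w2) ℚ))} ^ (2 * e0)) := by
    conv_lhs => rw [← hcc2]
    rw [hcc2]
    conv_lhs => arg 2; rw [← hcc2]
    rw [← emultiplicity_mul hPp, Ideal.span_singleton_mul_span_singleton, hmul,
      Ideal.span_singleton_pow]
  have e2 : emultiplicity P (Ideal.span {(p : 𝓞 (CyclotomicField (w1 * w2) ℚ))} ^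
      (n.factorization p * (2 * e0))) ≤
      emultiplicity P (Ideal.span {(n : 𝓞 (CyclotomicField (w1 * w2) ℚ))} ^ (2 * e0)) := by
    rw [pow_mul]
    apply emultiplicity_le_emultiplicity_of_dvd_right
    apply pow_dvd_pow_of_dvd
    rw [Ideal.span_singleton_pow, Ideal.dvd_span_singleton, Ideal.mem_span_singleton]
    have := Nat.ordProj_dvd n p
    exact_mod_cast (Nat.cast_dvd_cast (α := 𝓞 (CyclotomicField (w1 * w2) ℚ)) this)
  rw [← e1, ← hcnt _ sβ, ← hcnt _ (pow_ne_zero _ sp),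
    UniqueFactorizationMonoid.normalizedFactors_pow, Multiset.count_nsmul] at e2
  have e3 : n.factorization p * (2 * e0) * Multiset.count P
      (UniqueFactorizationMonoid.normalizedFactors
        (Ideal.span {(p : 𝓞 (CyclotomicField (w1 * w2) ℚ))})) ≤
      Multiset.count P (UniqueFactorizationMonoid.normalizedFactors (Ideal.span {β})) +
      Multiset.count P (UniqueFactorizationMonoid.normalizedFactors (Ideal.span {β})) := by
    exact_mod_cast e2
  have e4 : n.factorization p * (2 * e0) * Multiset.count P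
      (UniqueFactorizationMonoid.normalizedFactors
        (Ideal.span {(p : 𝓞 (CyclotomicField (w1 * w2) ℚ))})) =
      2 * (m * Multiset.count P
      (UniqueFactorizationMonoid.normalizedFactors
        (Ideal.span {(p : 𝓞 (CyclotomicField (w1 * w2) ℚ))}))) := by
    rw [hm]; ring
  omega

end Pool.Agent.Lib.MP_79499b_co.DZ
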