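import Pool.Agent.Lib.MP_79499b_co.DZ.NGap
import Pool.Agent.Lib.MP_79499b_co.DZ.NSem

/-!
# NRed: a failure of ND gives a large bad prime

Setting: `F = CyclotomicField (w1*w2) ℚ`, `K = KF F (r1*r2)` with `GapAt K g`, `g ≥ 1`; `n` coprime to
`w1 w2`, `Z^(e0 Ω(n)) ≤ g`, `n` not divisible by `p²` for the primes `p > Z`; `p0 ∣ n` a prime with
`w1 w2 ∣ p0^t + 1`.

Proof. Let `β` be as in the failure of `ND`: `MFix`, `|β| = n^e0` everywhere, `β ≠ ± n^e0`. For the primes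
`l ∣ n` call `l` good if `l^(e0 v_l(n)) ∣ β`; let `b = ∏_{l good} l^(v_l(n))`, `n = n' b`, `n', b` coprime. The
numbers `l^(e0 v_l(n))` are pairwise coprime, so `b^e0 ∣ β`, `β = b^e0 β'`, and `β'` is `MFix` (cancel the
rational integer `b^e0 ≠ 0`) with `|β'| = n'^e0` everywhere. `β'` comes from an integer `β''` of `K` (`lf_fix`
with `D = Mgp F (r1*r2)`, the closure of the `τ` with `τ^(r1 r2) = 1`; `β'` is fixed by the closure), and the
embeddings of `K` extend to `F` (`lf_ext`): `|β''| = n'^e0` in every embedding of `K`.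
If `n'^e0 ≤ g` then `β'' = z ∈ ℤ` by `GapAt`, `|z| = n'^e0`, so `β = ± b^e0 n'^e0 = ± n^e0`: contradiction. So
`n'^e0 > g ≥ (Z^(Ω(n)))^e0`, hence `n' > Z^(Ω(n)) ≥ Z^(Ω(n'))` (`Z ≥ 1`), so `n'` has a prime factor `p > Z`
(otherwise `n' ≤ Z^(Ω(n'))`: product of `Ω(n')` primes at most `Z`). `p² ∤ n`, so `v_p(n) = 1`, `n' = a p`,
`p ∤ a`; `n = a p b`. `p ∤ w1 w2` as `n` is coprime to `w1 w2`. `BadP K e0 a p`: take `β''`; if `p^e0 ∣ β''` in
`𝓞 K` then `p^e0 ∣ β'` in `𝓞 F`, so `p^(e0 v_p(n)) = p^e0 ∣ β` and `p` would be good, `p ∣ b`, contradiction with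
`p ∣ n'`. Finally `p0` is good by `semi_dvd`, so `p0 ∣ b`.
-/

set_option autoImplicit false

open NumberField
open scoped Pointwise

namespace Pool.Agent.Lib.MP_79499b_co.DZ

/-- coprime natural numbers are coprime in every ring -/
private theorem NRed_isCoprime {R : Type} [CommRing R] {a b : ℕ} (h : a.Coprime b) :
    IsCoprime (a : R) (b : R) := by
  have h1 : IsCoprime (a : ℤ) (b : ℤ) := Nat.isCoprime_iff_coprime.2 h
  have h2 := h1.map (Int.castRingHom R)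
  simpa using h2

private theorem NRed_core (F : Type) [Field F] [NumberField F] (r e0 n W : ℕ)
    (g : ℝ) (hg1 : 1 ≤ g) (hgap : GapAt (KF F r) g)
    (hn : n ≠ 0) (hcop : Nat.Coprime n W) (Z : ℝ) (hZ : 1 ≤ Z)
    (hZg : Z ^ (e0 * n.primeFactorsList.length) ≤ g)
    (hsq : ∀ p : ℕ, p.Prime → Z < p → ¬ p ^ 2 ∣ n)
    (p0 : ℕ) (hp0 : p0.Prime) (hp0n : p0 ∣ n)
    (hgood0 : ∀ β : 𝓞 F, (∀ φ : F →+* ℂ, ‖φ (β : F)‖ = (n : ℝ) ^ e0) →
      (p0 : 𝓞 F) ^ (e0 * n.factorization p0) ∣ β)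
    (hnd : ¬ ND F e0 r n) :
    ∃ a p b : ℕ, n = a * p * b ∧ p.Prime ∧ Z < p ∧ ¬ p ∣ a ∧ ¬ p ∣ W ∧
      BadP (KF F r) e0 a p ∧ p0 ∣ b := by
  classical
  unfold ND at hnd
  push Not at hnd
  obtain ⟨β, hfix, habs, hne1, hne2⟩ := hnd
  -- good primes
  set S := n.primeFactors.filter fun l : ℕ => (l : 𝓞 F) ^ (e0 * n.factorization l) ∣ β with hS
  set T := n.primeFactors.filter fun l : ℕ => ¬ (l : 𝓞 F) ^ (e0 * n.factorization l) ∣ β with hT
  set b := ∏ l ∈ S, l ^ n.factorization l with hb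
  set n' := ∏ l ∈ T, l ^ n.factorization l with hn'
  have hprod : b * n' = n := by
    rw [hb, hn', hS, hT, Finset.prod_filter_mul_prod_filter_not]
    exact Nat.prod_factorization_pow_eq_self hn
  have hb0 : b ≠ 0 := by rintro h; rw [h, zero_mul] at hprod; exact hn hprod.symm
  have hn0 : n' ≠ 0 := by rintro h; rw [h, mul_zero] at hprod; exact hn hprod.symm
  have hbdvd : (b : 𝓞 F) ^ e0 ∣ β := by
    have e1 : (b : 𝓞 F) ^ e0 = ∏ l ∈ S, (l : 𝓞 F) ^ (e0 * n.factorization l) := by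
      rw [hb]
      push_cast
      rw [← Finset.prod_pow]
      exact Finset.prod_congr rfl fun l _ => by rw [← pow_mul, mul_comm]
    rw [e1]
    apply Finset.prod_dvd_of_coprime
    · intro l hl l' hl' hll
      have hl1 : l.Prime := Nat.prime_of_mem_primeFactors (Finset.mem_filter.1 hl).1
      have hl2 : l'.Prime := Nat.prime_of_mem_primeFactors (Finset.mem_filter.1 hl').1
      exact (NRed_isCoprime ((Nat.coprime_primes hl1 hl2).2 hll)).pow
    · intro l hl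
      exact (Finset.mem_filter.1 hl).2
  obtain ⟨β', hβ'⟩ := hbdvd
  have hβF : (β : F) = (b : F) ^ e0 * (β' : F) := by
    rw [hβ']
    push_cast
    rfl
  have hbF : (b : F) ^ e0 ≠ 0 := pow_ne_zero _ (Nat.cast_ne_zero.2 hb0)
  -- `β'` is fixed
  have hfix' : ∀ σ ∈ Mgp F r, σ (β' : F) = (β' : F) := by
    intro σ hσ
    unfold Mgp at hσ
    induction hσ using Subgroup.closure_induction with
    | mem τ hτ =>
      have h1 := hfix τ hτ
      rw [hβF, map_mul, map_pow, map_natCast] at h1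
      exact mul_left_cancel₀ hbF h1
    | one => rfl
    | mul x y _ _ hx hy => rw [AlgEquiv.mul_apply, hy, hx]
    | inv x _ hx =>
      have h2 : x⁻¹ (x (β' : F)) = (β' : F) := by
        rw [← AlgEquiv.mul_apply, inv_mul_cancel, AlgEquiv.one_apply]
      rw [hx] at h2
      exact h2
  have hbR : (0 : ℝ) < (b : ℝ) ^ e0 := by
    have : (0 : ℝ) < (b : ℝ) := by exact_mod_cast Nat.pos_of_ne_zero hb0
    positivity
  have habs' : ∀ φ : F →+* ℂ, ‖φ (β' : F)‖ = (n' : ℝ) ^ e0 := by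
    intro φ
    have h1 := habs φ
    rw [hβF, map_mul, map_pow, map_natCast, norm_mul, norm_pow, Complex.norm_natCast, ← hprod] at h1
    push_cast at h1
    rw [mul_pow] at h1
    exact mul_left_cancel₀ hbR.ne' h1
  obtain ⟨γ, hγ⟩ := lf_fix F (Mgp F r) β' hfix'
  have habsγ : ∀ ψ : (KF F r) →+* ℂ, ‖ψ (γ : KF F r)‖ = (n' : ℝ) ^ e0 := by
    intro ψ
    obtain ⟨φ, hφ⟩ := lf_ext F (KF F r) ψ
    rw [← hφ, hγ]
    exact habs' φ
  -- the size of `n'`
  have hbig : g < (n' : ℝ) ^ e0 := by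
    by_contra hle
    rw [not_lt] at hle
    obtain ⟨z, hz⟩ := hgap γ fun ψ => (habsγ ψ).le.trans hle
    have hz' : (β' : F) = (z : F) := by
      rw [← hγ, hz]
      simp
    obtain ⟨φ⟩ : Nonempty (F →+* ℂ) := inferInstance
    have h1 := habs' φ
    rw [hz', map_intCast, Complex.norm_intCast] at h1
    have h2 : (|z| : ℤ) = ((n' ^ e0 : ℕ) : ℤ) := by
      have : ((|z| : ℤ) : ℝ) = (((n' ^ e0 : ℕ) : ℤ) : ℝ) := by push_cast; exact h1
      exact_mod_cast this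
    have h3 : (n : F) ^ e0 = (b : F) ^ e0 * ((n' ^ e0 : ℕ) : F) := by
      rw [← hprod]
      push_cast
      ring
    rcases abs_eq (by positivity : (0 : ℤ) ≤ ((n' ^ e0 : ℕ) : ℤ)) |>.1 h2 with h4 | h4
    · apply hne1
      apply RingOfIntegers.ext
      rw [hβF, hz', h4]
      push_cast
      push_cast at h3
      rw [h3]
    · apply hne2
      apply RingOfIntegers.ext
      rw [hβF, hz', h4]
      push_cast
      push_cast at h3
      rw [h3]
      ring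
  have hlen : n'.primeFactorsList.length ≤ n.primeFactorsList.length :=
    (Nat.primeFactorsList_sublist_of_dvd (Dvd.intro_left b hprod) hn).length_le
  have hZn : Z ^ n.primeFactorsList.length < n' := by
    have h1 : (Z ^ n.primeFactorsList.length) ^ e0 < (n' : ℝ) ^ e0 := by
      rw [← pow_mul, mul_comm]
      exact hZg.trans_lt hbig
    exact lt_of_pow_lt_pow_left₀ e0 (Nat.cast_nonneg _) h1
  have hex : ∃ p : ℕ, p.Prime ∧ p ∣ n' ∧ Z < p := by
    by_contra hno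
    push Not at hno
    have h1 : ∀ l : List ℕ, (∀ q ∈ l, (q : ℝ) ≤ Z) → ((l.prod : ℕ) : ℝ) ≤ Z ^ l.length := by
      intro l
      induction l with
      | nil => intro _; simp
      | cons q l ih =>
        intro hq
        rw [List.prod_cons, List.length_cons, pow_succ, mul_comm (Z ^ _), Nat.cast_mul]
        exact mul_le_mul (hq q (by simp)) (ih fun q' hq' => hq q' (by simp [hq']))
          (Nat.cast_nonneg _) (by linarith)
    have h2 := h1 n'.primeFactorsList fun q hq =>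
      hno q (Nat.prime_of_mem_primeFactorsList hq) (Nat.dvd_of_mem_primeFactorsList hq)
    rw [Nat.prod_primeFactorsList hn0] at h2
    have h3 : Z ^ n'.primeFactorsList.length ≤ Z ^ n.primeFactorsList.length :=
      pow_le_pow_right₀ hZ hlen
    linarith
  obtain ⟨p, hp, hpn', hZp⟩ := hex
  have hpn : p ∣ n := hpn'.trans (Dvd.intro_left b hprod)
  have hpT : ¬ (p : 𝓞 F) ^ (e0 * n.factorization p) ∣ β := by
    rw [hn', Prime.dvd_finsetProd_iff hp.prime] at hpn'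
    obtain ⟨l, hl, hpl⟩ := hpn'
    have hl' := Finset.mem_filter.1 hl
    have hlp : l.Prime := Nat.prime_of_mem_primeFactors hl'.1
    have e : p = l := (Nat.prime_dvd_prime_iff_eq hp hlp).1 (hp.dvd_of_dvd_pow hpl)
    rw [e]
    exact hl'.2
  have hv : n.factorization p = 1 := by
    have h1 : 1 ≤ n.factorization p := (hp.dvd_iff_one_le_factorization hn).1 hpn
    have h2 : ¬ 2 ≤ n.factorization p := fun h =>
      hsq p hp hZp ((hp.pow_dvd_iff_le_factorization hn).2 h)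
    omega
  rw [hv, mul_one] at hpT
  obtain ⟨a, ha⟩ := hpn'
  refine ⟨a, p, b, ?_, hp, hZp, ?_, ?_, ⟨γ, ?_, ?_⟩, ?_⟩
  · rw [← hprod, ha]
    ring
  · rintro ⟨c, rfl⟩
    apply hsq p hp hZp
    rw [← hprod, ha]
    exact ⟨b * c, by ring⟩
  · intro hpW
    have h1 : p ∣ 1 := by
      rw [← hcop]
      exact Nat.dvd_gcd hpn hpW
    exact hp.one_lt.ne' (Nat.dvd_one.1 h1)
  · intro ψ
    rw [habsγ ψ, ha, mul_comm p a]
  · rintro ⟨δ, hδ⟩
    apply hpT
    have hint : IsIntegral ℤ (((δ : KF F r)) : F) :=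
      map_isIntegral_int ((KF F r).val : (KF F r) →+* F) δ.isIntegral_coe
    obtain ⟨δ', hδ'⟩ : ∃ δ' : 𝓞 F, (δ' : F) = ((δ : KF F r) : F) := ⟨⟨_, hint⟩, rfl⟩
    have e2 : (γ : KF F r) = (p : KF F r) ^ e0 * (δ : KF F r) := by
      rw [hδ]
      simp
    have e3 : ((γ : KF F r) : F) = (p : F) ^ e0 * ((δ : KF F r) : F) := by
      rw [e2]
      push_cast
      rfl
    have e4 : (β' : F) = (p : F) ^ e0 * (δ' : F) := by
      rw [← hγ, hδ']
      exact e3
    have e1 : β' = (p : 𝓞 F) ^ e0 * δ' := by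
      apply RingOfIntegers.ext
      push_cast
      exact e4
    rw [hβ', e1]
    exact ⟨(b : 𝓞 F) ^ e0 * δ', by ring⟩
  · have h1 : p0 ∈ S := by
      rw [hS, Finset.mem_filter]
      exact ⟨Nat.mem_primeFactors.2 ⟨hp0, hp0n, hn⟩, hgood0 β habs⟩
    have h2 : p0 ∣ p0 ^ n.factorization p0 := by
      apply dvd_pow_self
      have := (hp0.dvd_iff_one_le_factorization hn).1 hp0n
      omega
    rw [hb]
    exact h2.trans (Finset.dvd_prod_of_mem _ h1)

theorem reduce (w1 w2 r1 r2 e0 n : ℕ) (h1 : w1.Prime) (h2 : w2.Prime) (hne : w1 ≠ w2)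
    (g : ℝ) (hg1 : 1 ≤ g) (hgap : GapAt (KF (CyclotomicField (w1 * w2) ℚ) (r1 * r2)) g)
    (hn : n ≠ 0) (hcop : Nat.Coprime n (w1 * w2)) (Z : ℝ) (hZ : 1 ≤ Z)
    (hZg : Z ^ (e0 * n.primeFactorsList.length) ≤ g)
    (hsq : ∀ p : ℕ, p.Prime → Z < p → ¬ p ^ 2 ∣ n)
    (p0 t : ℕ) (hp0 : p0.Prime) (hp0n : p0 ∣ n) (hp0t : w1 * w2 ∣ p0 ^ t + 1)
    (hnd : ¬ ND (CyclotomicField (w1 * w2) ℚ) e0 (r1 * r2) n) :
    ∃ a p b : ℕ, n = a * p * b ∧ p.Prime ∧ Z < p ∧ ¬ p ∣ a ∧ ¬ p ∣ w1 * w2 ∧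
      BadP (KF (CyclotomicField (w1 * w2) ℚ) (r1 * r2)) e0 a p ∧ p0 ∣ b := by
  classical
  have hgood0 : ∀ β : 𝓞 (CyclotomicField (w1 * w2) ℚ),
      (∀ φ : CyclotomicField (w1 * w2) ℚ →+* ℂ,
        ‖φ (β : CyclotomicField (w1 * w2) ℚ)‖ = (n : ℝ) ^ e0) →
      (p0 : 𝓞 (CyclotomicField (w1 * w2) ℚ)) ^ (e0 * n.factorization p0) ∣ β :=
    fun β hβ => semi_dvd w1 w2 p0 t n e0 h1 h2 hne hp0 hp0t hn β hβ
  exact NRed_core (CyclotomicField (w1 * w2) ℚ) (r1 * r2) e0 n (w1 * w2) g hg1 hgap hn hcop Z hZ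
    hZg hsq p0 hp0 hp0n hgood0 hnd

end Pool.Agent.Lib.MP_79499b_co.DZ
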