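import Mathlib

/-!
# NPrm: primitivity

* `prim_prime`: a nontrivial character modulo a prime is primitive (the conductor divides `w` and is not 1).
* `prim_mul`: `χ = changeLevel χ1 * changeLevel χ2`; its values at natural numbers are the products (both sides
  are 0 if `q` is not coprime to `w1 w2`); it is primitive: the conductor divides `w1 w2`; if it were a
  proper divisor, it would divide `w1` or `w2`, say `w1`: then `χ` factors through `w1`, so `χ(q) = 1` for all
  `q ≡ 1 mod w1` coprime to `w2`, i.e. `χ2(q) = 1` for all classes `q` modulo `w2` (Chinese remainder),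
  contradiction to `χ2 ≠ 1`.
-/

set_option autoImplicit false

open NumberField
open scoped Pointwise

namespace Pool.Agent.Lib.MP_79499b_co.DZ

theorem prim_prime (w : ℕ) (hw : w.Prime) (χ : DirichletCharacter ℂ w) (h : χ ≠ 1) :
    χ.IsPrimitive := by
  have : NeZero w := ⟨hw.ne_zero⟩
  have h1 := χ.conductor_dvd_level
  rcases (Nat.dvd_prime hw).1 h1 with h2 | h2
  · exact absurd (DirichletCharacter.eq_one_iff_conductor_eq_one.2 h2) h
  · exact h2

private theorem prm_val (w1 w2 : ℕ)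
    (χ1 : DirichletCharacter ℂ w1) (χ2 : DirichletCharacter ℂ w2) (q : ℕ) :
    (DirichletCharacter.changeLevel (dvd_mul_right w1 w2) χ1 *
      DirichletCharacter.changeLevel (dvd_mul_left w2 w1) χ2) (q : ZMod (w1 * w2)) =
      χ1 (q : ZMod w1) * χ2 (q : ZMod w2) := by
  by_cases hq : IsUnit (q : ZMod (w1 * w2))
  · rw [MulChar.mul_apply]
    obtain ⟨u, hu⟩ := hq
    rw [← hu, DirichletCharacter.changeLevel_eq_cast_of_dvd, 
      DirichletCharacter.changeLevel_eq_cast_of_dvd, hu]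
    simp
  · rw [MulChar.map_nonunit _ hq]
    have hq' : ¬ q.Coprime (w1 * w2) := fun h => hq ((ZMod.isUnit_iff_coprime _ _).2 h)
    rw [Nat.coprime_mul_iff_right, not_and_or] at hq'
    rcases hq' with h | h
    · rw [MulChar.map_nonunit χ1 (fun h' => h ((ZMod.isUnit_iff_coprime _ _).1 h')), zero_mul]
    · rw [MulChar.map_nonunit χ2 (fun h' => h ((ZMod.isUnit_iff_coprime _ _).1 h')), mul_zero]

private theorem prm_aux (w1 w2 f : ℕ) (h1 : w1.Prime) (h2 : w2.Prime) (hne : w1 ≠ w2)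
    (χ2 : DirichletCharacter ℂ w2) (χ : DirichletCharacter ℂ (w1 * w2)) 
    (hχ : ∀ q : ℕ, (q : ZMod w1) = 1 → χ (q : ZMod (w1 * w2)) = χ2 (q : ZMod w2))
    (hf : f ∣ w1) (hfac : χ.FactorsThrough f) : χ2 = 1 := by
  obtain ⟨hd, χ0, h0⟩ := hfac
  ext u
  have hco : w1.Coprime w2 := (Nat.coprime_primes h1 h2).2 hne
  have : NeZero w2 := ⟨h2.ne_zero⟩
  obtain ⟨q, hq1, hq2⟩ := Nat.chineseRemainder hco 1 (u : ZMod w2).val
  have e1 : (q : ZMod w1) = 1 := by
    have := (ZMod.natCast_eq_natCast_iff q 1 w1).2 hq1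
    simpa using this
  have e2 : (q : ZMod w2) = (u : ZMod w2) := by
    have := (ZMod.natCast_eq_natCast_iff q (u : ZMod w2).val w2).2 hq2
    simpa using this
  have hqu : IsUnit (q : ZMod (w1 * w2)) := by
    rw [ZMod.isUnit_iff_coprime, Nat.coprime_mul_iff_right]
    refine ⟨(ZMod.isUnit_iff_coprime _ _).1 (by rw [e1]; exact isUnit_one), 
      (ZMod.isUnit_iff_coprime _ _).1 (by rw [e2]; exact u.isUnit)⟩
  have e3 := hχ q e1
  rw [e2, h0] at e3
  obtain ⟨v, hv⟩ := hqu
  rw [← hv, DirichletCharacter.changeLevel_eq_cast_of_dvd, hv] at e3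
  have e4 : ((q : ZMod (w1 * w2)).cast : ZMod f) = 1 := by
    rw [ZMod.cast_natCast hd]
    have : (q : ZMod f) = ((1 : ℕ) : ZMod f) := 
      (ZMod.natCast_eq_natCast_iff q 1 f).2 (Nat.ModEq.of_dvd hf hq1)
    simpa using this
  rw [e4, map_one] at e3
  rw [← e3, MulChar.one_apply_coe]

theorem prim_mul (w1 w2 : ℕ) (h1 : w1.Prime) (h2 : w2.Prime) (hne : w1 ≠ w2)
    (χ1 : DirichletCharacter ℂ w1) (χ2 : DirichletCharacter ℂ w2) (n1 : χ1 ≠ 1) (n2 : χ2 ≠ 1) :
    ∃ χ : DirichletCharacter ℂ (w1 * w2), χ.IsPrimitive ∧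
      ∀ q : ℕ, χ (q : ZMod (w1 * w2)) = χ1 (q : ZMod w1) * χ2 (q : ZMod w2) := by
  refine ⟨DirichletCharacter.changeLevel (dvd_mul_right w1 w2) χ1 *
      DirichletCharacter.changeLevel (dvd_mul_left w2 w1) χ2, ?_, prm_val w1 w2 χ1 χ2⟩
  set χ := DirichletCharacter.changeLevel (dvd_mul_right w1 w2) χ1 *
      DirichletCharacter.changeLevel (dvd_mul_left w2 w1) χ2 with hχ
  have hval := prm_val w1 w2 χ1 χ2
  have hd := χ.conductor_dvd_level
  have hfac := χ.factorsThrough_conductor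
  have hA : ¬ χ.conductor ∣ w1 := by
    intro hf
    apply n2
    apply prm_aux w1 w2 χ.conductor h1 h2 hne χ2 χ _ hf hfac
    intro q hq
    rw [hval q, hq, map_one, one_mul]
  have hB : ¬ χ.conductor ∣ w2 := by
    intro hf
    apply n1
    have key : ∀ n : ℕ, ∀ (e : n = w1 * w2) , ∀ ψ : DirichletCharacter ℂ n, 
        (∀ q : ℕ, ψ (q : ZMod n) = χ1 (q : ZMod w1) * χ2 (q : ZMod w2)) → 
        ∀ f : ℕ, f ∣ w2 → ψ.FactorsThrough f → n = w2 * w1 → χ1 = 1 := by
      intro n e ψ hψ f hf' hfac' e'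
      subst e'
      apply prm_aux w2 w1 f h2 h1 hne.symm χ1 ψ _ hf' hfac'
      intro q hq
      rw [hψ q, hq, map_one, mul_one]
    exact key (w1 * w2) rfl χ hval χ.conductor hf hfac (mul_comm _ _)
  obtain ⟨a, b, ha, hb, hab⟩ := (Nat.dvd_mul.1 hd)
  rcases (Nat.dvd_prime h1).1 ha with r | r <;> rcases (Nat.dvd_prime h2).1 hb with s | s
  · exact absurd (by rw [← hab, r, s]; simp) hA
  · exact absurd (by rw [← hab, r, s]; simp) hB
  · exact absurd (by rw [← hab, r, s]; simp) hA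
  · show χ.conductor = w1 * w2
    rw [← hab, r, s]

end Pool.Agent.Lib.MP_79499b_co.DZ
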