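import Pool.Agent.Lib.MP_79499b_co.DZ.NChr
import Pool.Agent.Lib.MP_79499b_co.DZ.NPrm

/-!
# NMany: many split primes if no primitive character sum is large

Proof. `c1 c2 #{q ∈ B : split} = ∑_{q ∈ B} ∑_{χ1^c1 = 1} ∑_{χ2^c2 = 1} χ1(q) χ2(q)` (`chr_detect` twice). The term
`χ1 = 1, χ2 = 1` is `|B|` (no `q ∈ B` is divisible by `w1` or `w2`). For the other `c1 c2 - 1` pairs
(`chr_card`): if `χ2 = 1` the sum over `q` is that of the primitive character `χ1` (`prim_prime`); if `χ1 = 1`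
that of `χ2`; otherwise that of the primitive character of `prim_mul`. In all cases it is less than
`|B|/(2 c1 c2)` in absolute value. So `c1 c2 # ≥ |B| - (c1 c2 - 1) |B|/(2 c1 c2) ≥ |B|/2`.
-/

set_option autoImplicit false

open NumberField
open scoped Pointwise

namespace Pool.Agent.Lib.MP_79499b_co.DZ

private theorem NMany_one {w : ℕ} (hw : w.Prime) {q : ℕ} (hq : ¬ w ∣ q) :
    (1 : DirichletCharacter ℂ w) (q : ZMod w) = 1 :=
  MulChar.one_apply ((ZMod.isUnit_iff_coprime q w).2 ((hw.coprime_iff_not_dvd).2 hq).symm)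

theorem split_many (w1 w2 c1 c2 r1 r2 : ℕ) (h1 : w1.Prime) (h2 : w2.Prime) (hne : w1 ≠ w2)
    (hc1 : 1 ≤ c1) (hc2 : 1 ≤ c2) (e1 : w1 = c1 * r1 + 1) (e2 : w2 = c2 * r2 + 1)
    (B : Finset ℕ) (hB : ∀ q ∈ B, ¬ w1 ∣ q ∧ ¬ w2 ∣ q)
    (hs : ∀ W : ℕ, (W = w1 ∨ W = w2 ∨ W = w1 * w2) → ∀ χ : DirichletCharacter ℂ W,
      χ.IsPrimitive → ‖∑ q ∈ B, χ (q : ZMod W)‖ < (B.card : ℝ) / (2 * c1 * c2)) :
    (B.card : ℝ) / (2 * c1 * c2) ≤
      ((B.filter (fun q : ℕ => (q : ZMod w1) ^ r1 = 1 ∧ (q : ZMod w2) ^ r2 = 1)).card : ℝ) := by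
  have n1 : NeZero w1 := ⟨h1.ne_zero⟩
  have n2 : NeZero w2 := ⟨h2.ne_zero⟩
  have k1 := chr_card w1 c1 r1 h1 e1
  have k2 := chr_card w2 c2 r2 h2 e2
  have d1 := chr_detect w1 c1 r1 h1 e1
  have d2 := chr_detect w2 c2 r2 h2 e2
  set N := (B.filter (fun q : ℕ => (q : ZMod w1) ^ r1 = 1 ∧ (q : ZMod w2) ^ r2 = 1)).card
    with hN
  classical
  generalize hS1 : (Finset.univ.filter (fun χ : DirichletCharacter ℂ w1 => χ ^ c1 = 1)) = S1
    at k1 d1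
  generalize hS2 : (Finset.univ.filter (fun χ : DirichletCharacter ℂ w2 => χ ^ c2 = 1)) = S2
    at k2 d2
  have m1 : (1 : DirichletCharacter ℂ w1) ∈ S1 := by
    rw [← hS1]
    exact Finset.mem_filter.2 ⟨Finset.mem_univ _, one_pow _⟩
  have m2 : (1 : DirichletCharacter ℂ w2) ∈ S2 := by
    rw [← hS2]
    exact Finset.mem_filter.2 ⟨Finset.mem_univ _, one_pow _⟩
  have hkey : ((c1 : ℂ) * c2) * N = ∑ x ∈ S1 ×ˢ S2, ∑ q ∈ B,
      x.1 (q : ZMod w1) * x.2 (q : ZMod w2) := by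
    rw [Finset.sum_comm]
    have h3 : ∀ q ∈ B, ∑ x ∈ S1 ×ˢ S2, x.1 (q : ZMod w1) * x.2 (q : ZMod w2) =
        if (q : ZMod w1) ^ r1 = 1 ∧ (q : ZMod w2) ^ r2 = 1 then (c1 : ℂ) * c2 else 0 := by
      intro q hq
      rw [Finset.sum_product]
      show ∑ x ∈ S1, ∑ y ∈ S2, x (q : ZMod w1) * y (q : ZMod w2) = _
      rw [← Finset.sum_mul_sum, d1 q (hB q hq).1, d2 q (hB q hq).2]
      by_cases a : (q : ZMod w1) ^ r1 = 1
      · by_cases b : (q : ZMod w2) ^ r2 = 1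
        · rw [if_pos a, if_pos b, if_pos ⟨a, b⟩]
        · rw [if_neg b, mul_zero]
          exact (if_neg (fun h => b h.2)).symm
      · rw [if_neg a, zero_mul]
        exact (if_neg (fun h => a h.1)).symm
    rw [Finset.sum_congr rfl h3, ← Finset.sum_filter, Finset.sum_const, nsmul_eq_mul, mul_comm, hN]
  have hmem : ((1 : DirichletCharacter ℂ w1), (1 : DirichletCharacter ℂ w2)) ∈ S1 ×ˢ S2 :=
    Finset.mk_mem_product m1 m2
  rw [← Finset.add_sum_erase _ _ hmem] at hkey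
  have hone : ∑ q ∈ B, (1 : DirichletCharacter ℂ w1) (q : ZMod w1) *
      (1 : DirichletCharacter ℂ w2) (q : ZMod w2) = (B.card : ℂ) := by
    rw [Finset.sum_congr rfl (fun q hq => by
      rw [NMany_one h1 (hB q hq).1, NMany_one h2 (hB q hq).2, one_mul])]
    rw [Finset.sum_const, nsmul_eq_mul, mul_one]
  have hcc : (0 : ℝ) < 2 * c1 * c2 := by
    have a : (0 : ℝ) < c1 := by exact_mod_cast hc1
    have b : (0 : ℝ) < c2 := by exact_mod_cast hc2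
    positivity
  have hsmall : ∀ x ∈ (S1 ×ˢ S2).erase (1, 1),
      ‖∑ q ∈ B, x.1 (q : ZMod w1) * x.2 (q : ZMod w2)‖ ≤ (B.card : ℝ) / (2 * c1 * c2) := by
    rintro ⟨χ1, χ2⟩ hx
    rw [Finset.mem_erase] at hx
    show ‖∑ q ∈ B, χ1 (q : ZMod w1) * χ2 (q : ZMod w2)‖ ≤ _
    by_cases a1 : χ1 = 1
    · by_cases a2 : χ2 = 1
      · exact absurd (by rw [a1, a2]) hx.1
      · have h4 : ∑ q ∈ B, χ1 (q : ZMod w1) * χ2 (q : ZMod w2) = ∑ q ∈ B, χ2 (q : ZMod w2) :=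
          Finset.sum_congr rfl fun q hq => by rw [a1, NMany_one h1 (hB q hq).1, one_mul]
        rw [h4]
        exact (hs w2 (Or.inr (Or.inl rfl)) χ2 (prim_prime w2 h2 χ2 a2)).le
    · by_cases a2 : χ2 = 1
      · have h4 : ∑ q ∈ B, χ1 (q : ZMod w1) * χ2 (q : ZMod w2) = ∑ q ∈ B, χ1 (q : ZMod w1) :=
          Finset.sum_congr rfl fun q hq => by rw [a2, NMany_one h2 (hB q hq).2, mul_one]
        rw [h4]
        exact (hs w1 (Or.inl rfl) χ1 (prim_prime w1 h1 χ1 a1)).le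
      · obtain ⟨χ, hχ, hv⟩ := prim_mul w1 w2 h1 h2 hne χ1 χ2 a1 a2
        have h4 : ∑ q ∈ B, χ1 (q : ZMod w1) * χ2 (q : ZMod w2) =
            ∑ q ∈ B, χ (q : ZMod (w1 * w2)) :=
          Finset.sum_congr rfl fun q _ => (hv q).symm
        rw [h4]
        exact (hs (w1 * w2) (Or.inr (Or.inr rfl)) χ hχ).le
  have hcard : (((S1 ×ˢ S2).erase (1, 1)).card : ℝ) = (c1 : ℝ) * c2 - 1 := by
    rw [Finset.card_erase_of_mem hmem, Finset.card_product, k1, k2, Nat.cast_sub]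
    · push_cast
      ring
    · exact Nat.mul_pos hc1 hc2
  have hsum := (norm_sum_le _ _).trans (Finset.sum_le_sum hsmall)
  rw [Finset.sum_const, nsmul_eq_mul, hcard] at hsum
  have h5 : ∑ x ∈ (S1 ×ˢ S2).erase (1, 1), ∑ q ∈ B,
      x.1 (q : ZMod w1) * x.2 (q : ZMod w2) = (((c1 : ℝ) * c2 * N - B.card : ℝ) : ℂ) := by
    push_cast
    rw [hkey, hone]
    ring
  rw [h5, Complex.norm_real, Real.norm_eq_abs] at hsum
  have h6 := (abs_le.1 hsum).1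
  have hb0 : (0 : ℝ) ≤ B.card := Nat.cast_nonneg _
  have h7 : ((c1 : ℝ) * c2 - 1) * ((B.card : ℝ) / (2 * c1 * c2)) ≤ (B.card : ℝ) / 2 := by
    have h8 : ((c1 : ℝ) * c2) * ((B.card : ℝ) / (2 * c1 * c2)) = (B.card : ℝ) / 2 := by
      have a : (c1 : ℝ) ≠ 0 := by exact_mod_cast (by omega : c1 ≠ 0)
      have b : (c2 : ℝ) ≠ 0 := by exact_mod_cast (by omega : c2 ≠ 0)
      field_simp
    have h9 : (0 : ℝ) ≤ (B.card : ℝ) / (2 * c1 * c2) := by positivity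
    linarith
  rw [div_le_iff₀ hcc]
  linarith

end Pool.Agent.Lib.MP_79499b_co.DZ
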