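import Pool.Agent.Lib.MP_79499b_co.DZ.NPar

/-!
# NNumS: the numerical part of NSX

`L = log x → ∞`, `Q = Qx x e0 (c1 c2) = ⌊exp(L^(2/5)/(4 e0 (c1 c2)^2))⌋ → ∞`.
(a) `Q < X1 x`; (b) `√Q ≤ Q/(8 c1 c2 log Q)` since `8 c1 c2 log Q ≤ √Q` for large `Q`;
(c) `j = ⌈4 L^(9/20)/log Q⌉`: `Q^j ≥ exp(4 L^(9/20)) = (X2 x)^4`; `j ≤ C L^(1/20)` because
`log Q ≥ L^(2/5)/(8 e0 (c1 c2)^2)`; the expression is
`12 j! (16 (c1 c2)^2 log Q)^j ≤ 12 (16 (c1 c2)^2 j log Q)^j = exp(O(L^(1/20) log L)) ≤ exp(L^(1/10))`.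
(d) `4 exp(L^(1/10)) (1 + L^(9/20)) exp(-L^(2/5)) ≤ 1/log L`.
-/

set_option autoImplicit false

open NumberField
open scoped Pointwise

namespace Pool.Agent.Lib.MP_79499b_co.DZ

private theorem m_pow (C a b : ℝ) (hab : a < b) : ∀ᶠ L : ℝ in Filter.atTop,
    C * L ^ a ≤ L ^ b := by
  filter_upwards [(tendsto_rpow_atTop (sub_pos.2 hab)).eventually_ge_atTop C,
    Filter.eventually_gt_atTop 0] with L h1 h2
  calc C * L ^ a ≤ L ^ (b - a) * L ^ a :=
        mul_le_mul_of_nonneg_right h1 (Real.rpow_nonneg h2.le _)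
    _ = L ^ b := by rw [← Real.rpow_add h2]; congr 1; ring

private theorem m_log (C a b : ℝ) (hC : 0 ≤ C) (hab : a < b) : ∀ᶠ L : ℝ in Filter.atTop,
    C * L ^ a * Real.log L ≤ L ^ b := by
  have h0 : 0 < (b - a) / 2 := by linarith
  filter_upwards [m_pow (C / ((b - a) / 2)) (a + (b - a) / 2) b (by linarith),
    Filter.eventually_gt_atTop 0] with L h1 h2
  calc C * L ^ a * Real.log L ≤ C * L ^ a * (L ^ ((b - a) / 2) / ((b - a) / 2)) :=
        mul_le_mul_of_nonneg_left (Real.log_le_rpow_div h2.le h0)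
          (mul_nonneg hC (Real.rpow_nonneg h2.le _))
    _ = C / ((b - a) / 2) * L ^ (a + (b - a) / 2) := by
        rw [Real.rpow_add h2]; ring
    _ ≤ L ^ b := h1

private theorem m_exp1 : ∀ᶠ L : ℝ in Filter.atTop,
    4 * Real.exp (L ^ (1 / 10 : ℝ)) * (1 + L ^ (9 / 20 : ℝ)) / Real.exp (L ^ (2 / 5 : ℝ)) ≤
      1 / Real.log L := by
  have h1 := (Real.tendsto_pow_mul_exp_neg_atTop_nhds_zero 20).comp
    (tendsto_rpow_atTop (show (0 : ℝ) < 1 / 10 by norm_num))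
  filter_upwards [h1.eventually_lt_const (show (0 : ℝ) < 1 / 8 by norm_num),
    Filter.eventually_gt_atTop 3, m_pow 2 (1 / 10) (2 / 5) (by norm_num)] with L h3 h4 h5
  have hL0 : 0 < L := by linarith
  have hlog : 0 < Real.log L := Real.log_pos (by linarith)
  simp only [Function.comp] at h3
  have h6 : (L ^ (1 / 10 : ℝ)) ^ 20 = L * L := by
    rw [← Real.rpow_natCast, ← Real.rpow_mul hL0.le, ← sq, ← Real.rpow_natCast]
    congr 1
    norm_num
  rw [h6] at h3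
  have h7 : L ^ (9 / 20 : ℝ) ≤ L := by
    calc L ^ (9 / 20 : ℝ) ≤ L ^ (1 : ℝ) :=
          Real.rpow_le_rpow_of_exponent_le (by linarith) (by norm_num)
      _ = L := Real.rpow_one L
  have h8 : Real.log L ≤ L := (Real.log_le_sub_one_of_pos hL0).trans (by linarith)
  rw [div_le_div_iff₀ (Real.exp_pos _) hlog, one_mul]
  calc 4 * Real.exp (L ^ (1 / 10 : ℝ)) * (1 + L ^ (9 / 20 : ℝ)) * Real.log L
      ≤ 4 * Real.exp (L ^ (1 / 10 : ℝ)) * (2 * L) * L := by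
        have h9 : 1 + L ^ (9 / 20 : ℝ) ≤ 2 * L := by linarith
        have h10 : 0 ≤ 4 * Real.exp (L ^ (1 / 10 : ℝ)) := by positivity
        exact mul_le_mul (mul_le_mul_of_nonneg_left h9 h10) h8 hlog.le (by positivity)
    _ = 8 * (L * L * Real.exp (-(L ^ (1 / 10 : ℝ)))) *
          (Real.exp (L ^ (1 / 10 : ℝ)) * Real.exp (L ^ (1 / 10 : ℝ))) := by
        rw [Real.exp_neg]
        field_simp
        ring
    _ ≤ 1 * (Real.exp (L ^ (1 / 10 : ℝ)) * Real.exp (L ^ (1 / 10 : ℝ))) := by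
        refine mul_le_mul_of_nonneg_right ?_ (by positivity)
        linarith
    _ ≤ Real.exp (L ^ (2 / 5 : ℝ)) := by
        rw [one_mul, ← Real.exp_add]
        refine Real.exp_le_exp.2 ?_
        linarith

private theorem m_sqrt (c : ℝ) (hc : 0 < c) : ∀ᶠ q : ℝ in Filter.atTop,
    √q ≤ q / (8 * c * Real.log q) := by
  filter_upwards [m_log (8 * c) 0 (1 / 2) (by positivity) (by norm_num),
    Filter.eventually_gt_atTop 1] with q h1 h2
  have hq : 0 < q := by linarith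
  have hlog : 0 < Real.log q := Real.log_pos h2
  rw [Real.rpow_zero, mul_one, ← Real.sqrt_eq_rpow] at h1
  rw [le_div_iff₀ (by positivity)]
  calc √q * (8 * c * Real.log q) ≤ √q * √q := mul_le_mul_of_nonneg_left h1 (Real.sqrt_nonneg _)
    _ = q := Real.mul_self_sqrt hq.le

private theorem m_floor (y : ℝ) (hy : 2 ≤ y) : y / 2 ≤ (⌊y⌋₊ : ℝ) := by
  have := Nat.lt_floor_add_one y
  linarith

theorem num_sx (e0 c1 c2 Q0 : ℕ) (he0 : 1 ≤ e0) (hc1 : 1 ≤ c1) (hc2 : 1 ≤ c2) :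
    ∃ x0 : ℕ, ∀ x : ℕ, x0 ≤ x →
      Q0 ≤ Qx x e0 (c1 * c2) ∧ (Qx x e0 (c1 * c2) : ℝ) < X1 x ∧
      √(Qx x e0 (c1 * c2) : ℝ) ≤
        (Qx x e0 (c1 * c2) : ℝ) / (8 * c1 * c2 * Real.log (Qx x e0 (c1 * c2))) ∧
      (∃ j : ℕ, 1 ≤ j ∧ X2 x ^ 4 ≤ (Qx x e0 (c1 * c2) : ℝ) ^ j ∧
        12 * (Qx x e0 (c1 * c2) : ℝ) ^ j * j.factorial /
          ((1 / (2 * (c1 : ℝ) * c2)) ^ (2 * j) *
            ((Qx x e0 (c1 * c2) : ℝ) / (4 * Real.log (Qx x e0 (c1 * c2)))) ^ j) ≤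
          Real.exp (Real.log x ^ (1 / 10 : ℝ))) ∧
      4 * Real.exp (Real.log x ^ (1 / 10 : ℝ)) * (1 + Real.log x ^ (9 / 20 : ℝ)) / X1 x ≤
        1 / LL x := by
  have hc1' : (1 : ℝ) ≤ c1 := by exact_mod_cast hc1
  have hc2' : (1 : ℝ) ≤ c2 := by exact_mod_cast hc2
  have he0' : (1 : ℝ) ≤ e0 := by exact_mod_cast he0
  have hc12 : (1 : ℝ) ≤ c1 * c2 := by nlinarith
  set D : ℝ := 4 * (e0 : ℝ) * (((c1 * c2 : ℕ) : ℝ)) ^ 2 with hD
  have hDc : D = 4 * (e0 : ℝ) * ((c1 : ℝ) * c2) ^ 2 := by rw [hD]; push_cast; ring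
  have hD4 : 4 ≤ D := by
    rw [hDc]
    have : (1 : ℝ) ≤ ((c1 : ℝ) * c2) ^ 2 := one_le_pow₀ hc12
    nlinarith
  have hD0 : 0 < D := by linarith
  set C : ℝ := 8 * D + 1 with hC
  set B : ℝ := 80 * ((c1 : ℝ) * c2) ^ 2 with hB
  have hB80 : 80 ≤ B := by
    rw [hB]
    have : (1 : ℝ) ≤ ((c1 : ℝ) * c2) ^ 2 := one_le_pow₀ hc12
    linarith
  have hev : ∀ᶠ L : ℝ in Filter.atTop,
      Q0 ≤ ⌊Real.exp (L ^ (2 / 5 : ℝ) / D)⌋₊ ∧
      ((⌊Real.exp (L ^ (2 / 5 : ℝ) / D)⌋₊ : ℕ) : ℝ) < Real.exp (L ^ (2 / 5 : ℝ)) ∧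
      √((⌊Real.exp (L ^ (2 / 5 : ℝ) / D)⌋₊ : ℕ) : ℝ) ≤
        ((⌊Real.exp (L ^ (2 / 5 : ℝ) / D)⌋₊ : ℕ) : ℝ) /
          (8 * c1 * c2 * Real.log ((⌊Real.exp (L ^ (2 / 5 : ℝ) / D)⌋₊ : ℕ) : ℝ)) ∧
      (∃ j : ℕ, 1 ≤ j ∧ Real.exp (L ^ (9 / 20 : ℝ)) ^ 4 ≤
          ((⌊Real.exp (L ^ (2 / 5 : ℝ) / D)⌋₊ : ℕ) : ℝ) ^ j ∧
        12 * ((⌊Real.exp (L ^ (2 / 5 : ℝ) / D)⌋₊ : ℕ) : ℝ) ^ j * j.factorial /
          ((1 / (2 * (c1 : ℝ) * c2)) ^ (2 * j) *
            (((⌊Real.exp (L ^ (2 / 5 : ℝ) / D)⌋₊ : ℕ) : ℝ) /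
              (4 * Real.log ((⌊Real.exp (L ^ (2 / 5 : ℝ) / D)⌋₊ : ℕ) : ℝ))) ^ j) ≤
          Real.exp (L ^ (1 / 10 : ℝ))) ∧
      4 * Real.exp (L ^ (1 / 10 : ℝ)) * (1 + L ^ (9 / 20 : ℝ)) / Real.exp (L ^ (2 / 5 : ℝ)) ≤
        1 / Real.log L := by
    have hT : Filter.Tendsto (fun L : ℝ => ((⌊Real.exp (L ^ (2 / 5 : ℝ) / D)⌋₊ : ℕ) : ℝ))
        Filter.atTop Filter.atTop :=
      tendsto_natCast_atTop_atTop.comp (tendsto_nat_floor_atTop.comp (Real.tendsto_exp_atTop.comp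
        ((tendsto_rpow_atTop (by norm_num)).atTop_div_const hD0)))
    filter_upwards [m_exp1, hT.eventually (m_sqrt ((c1 : ℝ) * c2) (by linarith)),
      hT.eventually_ge_atTop (Q0 : ℝ), hT.eventually_ge_atTop 3,
      Filter.eventually_ge_atTop 1,
      m_pow (2 * D * Real.log 2) 0 (2 / 5) (by norm_num),
      m_pow C 0 (1 / 20) (by norm_num),
      m_log (3 * C) (1 / 20) (1 / 10) (by positivity) (by norm_num),
      m_pow (3 * Real.log 12) 0 (1 / 10) (by norm_num),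
      m_pow (3 * C * Real.log B) (1 / 20) (1 / 10) (by norm_num)]
      with L h1 h2 h3 h4 h5 h6 h7 h8 h9 h10
    have hL0 : 0 < L := by linarith
    have hlogL : 0 ≤ Real.log L := Real.log_nonneg h5
    set Q : ℕ := ⌊Real.exp (L ^ (2 / 5 : ℝ) / D)⌋₊ with hQ
    have hQ0 : (0 : ℝ) < Q := by linarith
    have hlogQ : 0 < Real.log Q := Real.log_pos (by linarith)
    have hQle : (Q : ℝ) ≤ Real.exp (L ^ (2 / 5 : ℝ) / D) := Nat.floor_le (Real.exp_pos _).le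
    have hr25 : 0 < L ^ (2 / 5 : ℝ) := Real.rpow_pos_of_pos hL0 _
    have hr920 : 0 < L ^ (9 / 20 : ℝ) := Real.rpow_pos_of_pos hL0 _
    have hr120 : 0 < L ^ (1 / 20 : ℝ) := Real.rpow_pos_of_pos hL0 _
    have hlogQle : Real.log Q ≤ L ^ (2 / 5 : ℝ) / D := by
      rw [← Real.log_exp (L ^ (2 / 5 : ℝ) / D)]
      exact Real.log_le_log hQ0 hQle
    have hlogQge : L ^ (2 / 5 : ℝ) / (2 * D) ≤ Real.log Q := by
      have h11 : Real.exp (L ^ (2 / 5 : ℝ) / D) / 2 ≤ Q := by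
        refine m_floor _ ?_
        linarith
      have h12 : Real.log (Real.exp (L ^ (2 / 5 : ℝ) / D) / 2) ≤ Real.log Q :=
        Real.log_le_log (by positivity) h11
      rw [Real.log_div (Real.exp_pos _).ne' (by norm_num), Real.log_exp] at h12
      rw [Real.rpow_zero, mul_one] at h6
      have h13 : Real.log 2 ≤ L ^ (2 / 5 : ℝ) / (2 * D) := by
        rw [le_div_iff₀ (by positivity)]
        linarith
      have h14 : L ^ (2 / 5 : ℝ) / D = 2 * (L ^ (2 / 5 : ℝ) / (2 * D)) := by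
        field_simp
      linarith
    refine ⟨by exact_mod_cast h3, ?_, ?_, ?_, h1⟩
    · refine lt_of_le_of_lt hQle (Real.exp_lt_exp.2 ?_)
      rw [div_lt_iff₀ hD0]
      nlinarith
    · have h15 : 8 * ((c1 : ℝ) * c2) * Real.log Q = 8 * c1 * c2 * Real.log Q := by ring
      rw [← h15]
      exact h2
    · refine ⟨⌈4 * L ^ (9 / 20 : ℝ) / Real.log Q⌉₊, ?_, ?_, ?_⟩
      · exact Nat.one_le_iff_ne_zero.2 (Nat.ceil_pos.2 (by positivity)).ne'
      · set j : ℕ := ⌈4 * L ^ (9 / 20 : ℝ) / Real.log Q⌉₊ with hj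
        have h16 : 4 * L ^ (9 / 20 : ℝ) / Real.log Q ≤ j := Nat.le_ceil _
        rw [div_le_iff₀ hlogQ] at h16
        calc Real.exp (L ^ (9 / 20 : ℝ)) ^ 4 = Real.exp (4 * L ^ (9 / 20 : ℝ)) := by
              rw [← Real.exp_nat_mul]; norm_num
          _ ≤ Real.exp (j * Real.log Q) := Real.exp_le_exp.2 h16
          _ = (Q : ℝ) ^ j := by
              rw [Real.exp_nat_mul, Real.exp_log hQ0]
      · set j : ℕ := ⌈4 * L ^ (9 / 20 : ℝ) / Real.log Q⌉₊ with hj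
        have h17 : (j : ℝ) < 4 * L ^ (9 / 20 : ℝ) / Real.log Q + 1 :=
          Nat.ceil_lt_add_one (by positivity)
        have h18 : 4 * L ^ (9 / 20 : ℝ) / Real.log Q ≤ 8 * D * L ^ (1 / 20 : ℝ) := by
          rw [div_le_iff₀ hlogQ]
          have h19 : L ^ (9 / 20 : ℝ) = L ^ (1 / 20 : ℝ) * L ^ (2 / 5 : ℝ) := by
            rw [← Real.rpow_add hL0]; norm_num
          calc 4 * L ^ (9 / 20 : ℝ) = 8 * D * L ^ (1 / 20 : ℝ) * (L ^ (2 / 5 : ℝ) / (2 * D)) := by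
                rw [h19]; field_simp; ring
            _ ≤ 8 * D * L ^ (1 / 20 : ℝ) * Real.log Q :=
                mul_le_mul_of_nonneg_left hlogQge (by positivity)
        have h1r : (1 : ℝ) ≤ L ^ (1 / 20 : ℝ) := Real.one_le_rpow h5 (by norm_num)
        have hjC : (j : ℝ) ≤ C * L ^ (1 / 20 : ℝ) := by
          have h23 : C * L ^ (1 / 20 : ℝ) = 8 * D * L ^ (1 / 20 : ℝ) + L ^ (1 / 20 : ℝ) := by
            rw [hC]; ring
          rw [h23]
          exact h17.le.trans (add_le_add h18 h1r)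
        have hjQ : (j : ℝ) * Real.log Q ≤ 5 * L ^ (9 / 20 : ℝ) := by
          have h20 : (j : ℝ) * Real.log Q ≤
              (4 * L ^ (9 / 20 : ℝ) / Real.log Q + 1) * Real.log Q :=
            mul_le_mul_of_nonneg_right h17.le hlogQ.le
          have h21 : (4 * L ^ (9 / 20 : ℝ) / Real.log Q + 1) * Real.log Q =
              4 * L ^ (9 / 20 : ℝ) + Real.log Q := by
            field_simp
          have h22 : Real.log Q ≤ L ^ (9 / 20 : ℝ) := by
            refine hlogQle.trans ?_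
            calc L ^ (2 / 5 : ℝ) / D ≤ L ^ (2 / 5 : ℝ) / 1 :=
                  div_le_div_of_nonneg_left hr25.le one_pos (by linarith)
              _ = L ^ (2 / 5 : ℝ) := div_one _
              _ ≤ L ^ (9 / 20 : ℝ) := Real.rpow_le_rpow_of_exponent_le h5 (by norm_num)
          linarith
        have hc0 : (0 : ℝ) < c1 := by linarith
        have hc0' : (0 : ℝ) < c2 := by linarith
        have hexpr : 12 * (Q : ℝ) ^ j * j.factorial /
            ((1 / (2 * (c1 : ℝ) * c2)) ^ (2 * j) * ((Q : ℝ) / (4 * Real.log Q)) ^ j) =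
            12 * (j.factorial * (16 * ((c1 : ℝ) * c2) ^ 2 * Real.log Q) ^ j) := by
          have h23 : (1 / (2 * (c1 : ℝ) * c2)) ^ (2 * j) * ((Q : ℝ) / (4 * Real.log Q)) ^ j =
              ((Q : ℝ) / (16 * ((c1 : ℝ) * c2) ^ 2 * Real.log Q)) ^ j := by
            rw [pow_mul, ← mul_pow]
            congr 1
            field_simp
            ring
          rw [h23, div_pow]
          have h24 : (Q : ℝ) ^ j ≠ 0 := (pow_pos hQ0 j).ne'
          field_simp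
        rw [hexpr]
        have hfac : (j.factorial : ℝ) ≤ (j : ℝ) ^ j := by
          exact_mod_cast Nat.factorial_le_pow j
        have h25 : (j.factorial : ℝ) * (16 * ((c1 : ℝ) * c2) ^ 2 * Real.log Q) ^ j ≤
            (B * L ^ (9 / 20 : ℝ)) ^ j := by
          calc (j.factorial : ℝ) * (16 * ((c1 : ℝ) * c2) ^ 2 * Real.log Q) ^ j
              ≤ (j : ℝ) ^ j * (16 * ((c1 : ℝ) * c2) ^ 2 * Real.log Q) ^ j :=
                mul_le_mul_of_nonneg_right hfac (by positivity)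
            _ = (16 * ((c1 : ℝ) * c2) ^ 2 * (j * Real.log Q)) ^ j := by
                rw [← mul_pow]; congr 1; ring
            _ ≤ (16 * ((c1 : ℝ) * c2) ^ 2 * (5 * L ^ (9 / 20 : ℝ))) ^ j :=
                pow_le_pow_left₀ (by positivity)
                  (mul_le_mul_of_nonneg_left hjQ (by positivity)) j
            _ = (B * L ^ (9 / 20 : ℝ)) ^ j := by
                rw [hB]; congr 1; ring
        have hB0 : 0 < B := by linarith
        have hlogB : 0 ≤ Real.log B := Real.log_nonneg (by linarith)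
        have h26 : (B * L ^ (9 / 20 : ℝ)) ^ j =
            Real.exp (j * (Real.log B + 9 / 20 * Real.log L)) := by
          rw [Real.exp_nat_mul, Real.exp_add, Real.exp_log hB0, mul_comm (9 / 20) (Real.log L),
            ← Real.rpow_def_of_pos hL0]
        have h27 : (j : ℝ) * (Real.log B + 9 / 20 * Real.log L) ≤
            C * L ^ (1 / 20 : ℝ) * (Real.log B + Real.log L) :=
          mul_le_mul hjC (by linarith) (by positivity) (by positivity)
        rw [Real.rpow_zero, mul_one] at h9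
        calc 12 * ((j.factorial : ℝ) * (16 * ((c1 : ℝ) * c2) ^ 2 * Real.log Q) ^ j)
            ≤ 12 * Real.exp (j * (Real.log B + 9 / 20 * Real.log L)) := by
              rw [← h26]
              exact mul_le_mul_of_nonneg_left h25 (by norm_num)
          _ = Real.exp (Real.log 12 + j * (Real.log B + 9 / 20 * Real.log L)) := by
              rw [Real.exp_add, Real.exp_log (by norm_num)]
          _ ≤ Real.exp (L ^ (1 / 10 : ℝ)) := by
              refine Real.exp_le_exp.2 ?_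
              nlinarith
  obtain ⟨x0, hx0⟩ := Filter.eventually_atTop.1 (log_tend.eventually hev)
  refine ⟨x0, fun x hx => ?_⟩
  have := hx0 x hx
  exact this

end Pool.Agent.Lib.MP_79499b_co.DZ
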