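import Pool.Agent.Lib.MP_79499b_co.DZ.NPH
import Pool.Agent.Lib.MP_79499b_co.DZ.NNumS
import Pool.Agent.Lib.MP_79499b_co.DZ.NLS
import Pool.Agent.Lib.MP_79499b_co.DZ.NMany

/-!
# NSX: the exceptional pairs are negligible

Proof. `L = log x`, `Q = Qx x e0 (c1 c2)`, `B` the primes in `(Q/2, Q]` (`|B| ≥ Q/(4 log Q)` by `primes_half`),
`Z = ⌊(X2 x)^2⌋`, `η = 1/(2 c1 c2)`. `Q < X1 x`, so no `q ∈ B` is divisible by a prime `w > X1 x`. Let `E` be the
set of the `W`, `2 ≤ W ≤ Z`, having a primitive character with `|∑_{q ∈ B} χ(q)| ≥ η |B|`. With `j` from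
`num_sx`, `Q^j ≥ (X2 x)^4 ≥ Z^2`, `exc_card` gives
`|E| ≤ 12 Q^j j! / (η^(2j) |B|^j) ≤ exp(L^(1/10))`.
Let `(w1, w2) ∈ SX`, `r_i = (w_i - 1)/c_i` (exact, `c_i ∣ w_i - 1`). If none of `w1, w2, w1 w2` is in `E` then by
`split_many` `|SpS| ≥ |B|/(2 c1 c2) ≥ Q/(8 c1 c2 log Q) ≥ √Q`, contradicting the definition of `SX` (`SpS` is the
filtered `B`). So `w1 ∈ E` or `w2 ∈ E` or `w1 w2 ∈ E`. The sum of `1/(w1 w2)` over the pairs with `w1 ∈ E` is at most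
`|E| (1/X1 x) ∑_{w2 ≤ X2 x} 1/w2 ≤ |E| (1 + L^(9/20))/X1 x` (harmonic sum, `log (X2 x) = L^(9/20)`), the same for
`w2`, and the pairs with `w1 w2 ∈ E` are at most `2 |E|` in number (each `W` is a product of two primes in at
most two orders) with `1/(w1 w2) ≤ 1/X1 x`. Total at most
`4 exp(L^(1/10)) (1 + L^(9/20))/X1 x ≤ 1/LL x` (`num_sx`).
-/

set_option autoImplicit false

open NumberField
open scoped Pointwise

namespace Pool.Agent.Lib.MP_79499b_co.DZ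

private theorem NSX_harm (y : ℝ) (hy : 1 ≤ y) :
    ∑ w ∈ Finset.Icc 1 ⌊y⌋₊, (1 : ℝ) / (w : ℝ) ≤ 1 + Real.log y := by
  have h1 := harmonic_le_one_add_log ⌊y⌋₊
  rw [harmonic_eq_sum_Icc] at h1
  push_cast at h1
  have h2 : 0 < ⌊y⌋₊ := Nat.floor_pos.2 hy
  have h3 : Real.log ((⌊y⌋₊ : ℕ) : ℝ) ≤ Real.log y :=
    Real.log_le_log (by exact_mod_cast h2) (Nat.floor_le (by linarith))
  have h4 : ∑ w ∈ Finset.Icc 1 ⌊y⌋₊, (1 : ℝ) / (w : ℝ) = ∑ w ∈ Finset.Icc 1 ⌊y⌋₊, ((w : ℝ))⁻¹ :=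
    Finset.sum_congr rfl fun w _ => one_div _
  rw [h4]
  linarith

private theorem NSX_pairs (S : Finset (ℕ × ℕ)) (E : Finset ℕ)
    (hS : ∀ w ∈ S, w.1.Prime ∧ w.2.Prime ∧ w.1 * w.2 ∈ E) : S.card ≤ 2 * E.card := by
  classical
  have h1 : S.card ≤ 2 * (S.image (fun w => w.1 * w.2)).card := by
    refine Finset.card_le_mul_card_image S 2 ?_
    intro a ha
    rw [Finset.mem_image] at ha
    obtain ⟨⟨p, q⟩, hpq, rfl⟩ := ha
    have h2 : S.filter (fun w => w.1 * w.2 = p * q) ⊆ {(p, q), (q, p)} := by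
      rintro ⟨u, v⟩ huv
      rw [Finset.mem_filter] at huv
      obtain ⟨huS, he⟩ := huv
      obtain ⟨hu, hv, -⟩ := hS _ huS
      obtain ⟨hp, hq, -⟩ := hS _ hpq
      simp only at hu hv hp hq he
      have h3 : u ∣ p * q := ⟨v, he.symm⟩
      rw [Finset.mem_insert, Finset.mem_singleton, Prod.mk.injEq, Prod.mk.injEq]
      rcases (Nat.Prime.dvd_mul hu).1 h3 with h4 | h4
      · left
        have h5 : u = p := (Nat.prime_dvd_prime_iff_eq hu hp).1 h4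
        refine ⟨h5, ?_⟩
        rw [h5] at he
        exact Nat.eq_of_mul_eq_mul_left hp.pos he
      · right
        have h5 : u = q := (Nat.prime_dvd_prime_iff_eq hu hq).1 h4
        refine ⟨h5, ?_⟩
        rw [h5, mul_comm p q] at he
        exact Nat.eq_of_mul_eq_mul_left hq.pos he
    exact (Finset.card_le_card h2).trans (Finset.card_le_two)
  refine h1.trans (Nat.mul_le_mul_left _ (Finset.card_le_card ?_))
  intro a ha
  rw [Finset.mem_image] at ha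
  obtain ⟨w, hw, rfl⟩ := ha
  exact (hS w hw).2.2

theorem sx_sum (e0 c1 c2 : ℕ) (he0 : 1 ≤ e0) (hc1 : 1 ≤ c1) (hc2 : 1 ≤ c2) :
    ∃ x0 : ℕ, ∀ x : ℕ, x0 ≤ x →
      ∑ w ∈ SX e0 c1 c2 x, (1 : ℝ) / ((w.1 : ℝ) * w.2) ≤ 1 / LL x := by
  classical
  obtain ⟨Q0, hQ0⟩ := primes_half
  obtain ⟨x0, hx0⟩ := num_sx e0 c1 c2 (max Q0 10) he0 hc1 hc2
  refine ⟨x0, fun x hx => ?_⟩
  obtain ⟨n1, n2, n3, ⟨j, hj1, hj2, hj3⟩, n5⟩ := hx0 x hx
  set Q : ℕ := Qx x e0 (c1 * c2) with hQ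
  set B : Finset ℕ := (Finset.Icc 1 Q).filter (fun q => q.Prime ∧ Q < 2 * q) with hB
  have hQ1 : Q0 ≤ Q := le_trans (le_max_left _ _) n1
  have hQ10 : 10 ≤ Q := le_trans (le_max_right _ _) n1
  have hBc := hQ0 Q hQ1
  rw [← hB] at hBc
  have hQr : (10 : ℝ) ≤ (Q : ℝ) := by exact_mod_cast hQ10
  have hlogQ : 0 < Real.log Q := Real.log_pos (by linarith)
  have hQl : 0 < (Q : ℝ) / (4 * Real.log Q) := by positivity
  have hBpos : (0 : ℝ) < B.card := lt_of_lt_of_le hQl hBc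
  have hL : 0 ≤ Real.log (x : ℝ) := Real.log_natCast_nonneg x
  have hX1 : 1 ≤ X1 x := Real.one_le_exp (Real.rpow_nonneg hL _)
  have hX2 : 1 ≤ X2 x := Real.one_le_exp (Real.rpow_nonneg hL _)
  have hc1' : (1 : ℝ) ≤ c1 := by exact_mod_cast hc1
  have hc2' : (1 : ℝ) ≤ c2 := by exact_mod_cast hc2
  set Z : ℕ := ⌊X2 x ^ 2⌋₊ with hZ
  set η : ℝ := 1 / (2 * (c1 : ℝ) * c2) with hη
  have hη0 : 0 < η := by rw [hη]; positivity
  have hηB : η * B.card = (B.card : ℝ) / (2 * c1 * c2) := by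
    rw [hη]; ring
  set E : Finset ℕ := (Finset.Icc 1 Z).filter (fun W => ∃ χ : DirichletCharacter ℂ W,
    χ.IsPrimitive ∧ η * B.card ≤ ‖∑ p ∈ B, χ (p : ZMod W)‖) with hE
  -- the number of exceptional moduli
  have hEc : (E.card : ℝ) ≤ Real.exp (Real.log x ^ (1 / 10 : ℝ)) := by
    have h1 := exc_card Z Q j B (by
      intro q hq
      rw [hB, Finset.mem_filter, Finset.mem_Icc] at hq
      exact ⟨hq.2.1, hq.1.2⟩) (Finset.card_pos.1 (by exact_mod_cast hBpos)) η hη0 E (by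
      intro W hW
      rw [hE, Finset.mem_filter, Finset.mem_Icc] at hW
      exact ⟨hW.1.1, hW.1.2, hW.2⟩)
    refine h1.trans (le_trans ?_ hj3)
    have hZ2 : (Z : ℝ) ^ 2 ≤ (Q : ℝ) ^ j := by
      have h2 : (Z : ℝ) ≤ X2 x ^ 2 := Nat.floor_le (by positivity)
      calc (Z : ℝ) ^ 2 ≤ (X2 x ^ 2) ^ 2 := pow_le_pow_left₀ (Nat.cast_nonneg _) h2 2
        _ = X2 x ^ 4 := by ring
        _ ≤ (Q : ℝ) ^ j := hj2
    have hnum : 6 * ((Q : ℝ) ^ j + (Z : ℝ) ^ 2) * j.factorial ≤ 12 * (Q : ℝ) ^ j * j.factorial := by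
      refine mul_le_mul_of_nonneg_right ?_ (Nat.cast_nonneg _)
      linarith
    refine div_le_div₀ (by positivity) hnum (by positivity) ?_
    exact mul_le_mul_of_nonneg_left (pow_le_pow_left₀ hQl.le hBc j) (by positivity)
  -- membership
  have hmem : ∀ w ∈ SX e0 c1 c2 x, Rg x w.1 ∧ Rg x w.2 ∧
      (w.1 ∈ E ∨ w.2 ∈ E ∨ w.1 * w.2 ∈ E) := by
    intro w hw
    unfold SX at hw
    rw [Finset.mem_filter, Finset.mem_product, mem_RR, mem_RR] at hw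
    obtain ⟨⟨hw1, hw2⟩, hne, hd1, hd2, hcard⟩ := hw
    refine ⟨hw1, hw2, ?_⟩
    by_contra hcon
    push Not at hcon
    obtain ⟨k1, k2, k3⟩ := hcon
    have hw1pos : 1 ≤ w.1 := hw1.1.one_lt.le
    have hw2pos : 1 ≤ w.2 := hw2.1.one_lt.le
    have hXX : X2 x ≤ X2 x ^ 2 := by nlinarith
    have z1 : w.1 ≤ Z := Nat.le_floor (hw1.2.2.trans hXX)
    have z2 : w.2 ≤ Z := Nat.le_floor (hw2.2.2.trans hXX)
    have z3 : w.1 * w.2 ≤ Z := by
      refine Nat.le_floor ?_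
      push_cast
      rw [pow_two]
      exact mul_le_mul hw1.2.2 hw2.2.2 (Nat.cast_nonneg _) (by linarith)
    have hnotE : ∀ W : ℕ, 1 ≤ W → W ≤ Z → W ∉ E → ∀ χ : DirichletCharacter ℂ W,
        χ.IsPrimitive → ‖∑ q ∈ B, χ (q : ZMod W)‖ < (B.card : ℝ) / (2 * c1 * c2) := by
      intro W hW1 hW2 hWE χ hχ
      by_contra hlt
      push Not at hlt
      refine hWE ?_
      rw [hE, Finset.mem_filter, Finset.mem_Icc]
      exact ⟨⟨hW1, hW2⟩, χ, hχ, by rw [hηB]; exact hlt⟩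
    have hnd : ∀ u : ℕ, X1 x < u → ∀ q ∈ B, ¬ u ∣ q := by
      intro u hu q hq hdvd
      rw [hB, Finset.mem_filter, Finset.mem_Icc] at hq
      have h1 := Nat.le_of_dvd (by omega) hdvd
      have h2 : (u : ℝ) ≤ Q := by exact_mod_cast h1.trans hq.1.2
      linarith
    have hsplit := split_many w.1 w.2 c1 c2 ((w.1 - 1) / c1) ((w.2 - 1) / c2) hw1.1 hw2.1 hne
      hc1 hc2 (by rw [Nat.mul_div_cancel' hd1]; omega) (by rw [Nat.mul_div_cancel' hd2]; omega)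
      B (fun q hq => ⟨hnd w.1 hw1.2.1 q hq, hnd w.2 hw2.2.1 q hq⟩) (by
        intro W hW χ hχ
        rcases hW with rfl | rfl | rfl
        · exact hnotE _ hw1pos z1 k1 χ hχ
        · exact hnotE _ hw2pos z2 k2 χ hχ
        · exact hnotE _ (Nat.mul_pos hw1pos hw2pos) z3 k3 χ hχ)
    have hsub : (B.filter (fun q : ℕ => (q : ZMod w.1) ^ ((w.1 - 1) / c1) = 1 ∧
        (q : ZMod w.2) ^ ((w.2 - 1) / c2) = 1)).card ≤
        (SpS Q w.1 w.2 ((w.1 - 1) / c1) ((w.2 - 1) / c2)).card := by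
      refine Finset.card_le_card ?_
      intro q hq
      rw [Finset.mem_filter, hB, Finset.mem_filter] at hq
      unfold SpS
      rw [Finset.mem_filter]
      exact ⟨hq.1.1, hq.1.2.1, hq.1.2.2, hq.2.1, hq.2.2⟩
    have hsub' : ((B.filter (fun q : ℕ => (q : ZMod w.1) ^ ((w.1 - 1) / c1) = 1 ∧
        (q : ZMod w.2) ^ ((w.2 - 1) / c2) = 1)).card : ℝ) ≤
        ((SpS Q w.1 w.2 ((w.1 - 1) / c1) ((w.2 - 1) / c2)).card : ℝ) := by exact_mod_cast hsub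
    have h5 : (Q : ℝ) / (8 * c1 * c2 * Real.log Q) ≤ (B.card : ℝ) / (2 * c1 * c2) := by
      have h6 : (Q : ℝ) / (8 * c1 * c2 * Real.log Q) =
          ((Q : ℝ) / (4 * Real.log Q)) / (2 * c1 * c2) := by
        field_simp
        ring
      rw [h6]
      exact div_le_div_of_nonneg_right hBc (by positivity)
    have h7 := hsplit.trans hsub'
    linarith
  -- the sums
  have hH := NSX_harm (X2 x) hX2
  have hlX2 : Real.log (X2 x) = Real.log x ^ (9 / 20 : ℝ) := Real.log_exp _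
  rw [hlX2] at hH
  set H : ℝ := 1 + Real.log x ^ (9 / 20 : ℝ) with hHdef
  have hH1 : 1 ≤ H := by
    have := Real.rpow_nonneg hL (9 / 20 : ℝ)
    rw [hHdef]; linarith
  have hRR : ∑ w ∈ RR x, (1 : ℝ) / (w : ℝ) ≤ H := by
    refine le_trans (Finset.sum_le_sum_of_subset_of_nonneg (Finset.filter_subset _ _) ?_) hH
    intro i _ _
    positivity
  have hER : ∑ w ∈ E ∩ RR x, (1 : ℝ) / (w : ℝ) ≤ E.card * (1 / X1 x) := by
    have h1 : ∀ w ∈ E ∩ RR x, (1 : ℝ) / (w : ℝ) ≤ 1 / X1 x := by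
      intro w hw
      rw [Finset.mem_inter, mem_RR] at hw
      exact one_div_le_one_div_of_le (by linarith) hw.2.2.1.le
    calc ∑ w ∈ E ∩ RR x, (1 : ℝ) / (w : ℝ) ≤ (E ∩ RR x).card • (1 / X1 x) :=
          Finset.sum_le_card_nsmul _ _ _ h1
      _ = ((E ∩ RR x).card : ℝ) * (1 / X1 x) := by rw [nsmul_eq_mul]
      _ ≤ E.card * (1 / X1 x) := by
          refine mul_le_mul_of_nonneg_right ?_ (by positivity)
          exact_mod_cast Finset.card_le_card Finset.inter_subset_left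
  have hnn : ∀ w : ℕ × ℕ, (0 : ℝ) ≤ 1 / ((w.1 : ℝ) * w.2) := fun w => by positivity
  have hS1 : ∑ w ∈ (SX e0 c1 c2 x).filter (fun w => w.1 ∈ E), (1 : ℝ) / ((w.1 : ℝ) * w.2) ≤
      E.card * (1 / X1 x) * H := by
    calc ∑ w ∈ (SX e0 c1 c2 x).filter (fun w => w.1 ∈ E), (1 : ℝ) / ((w.1 : ℝ) * w.2)
        ≤ ∑ w ∈ (E ∩ RR x) ×ˢ (RR x), (1 : ℝ) / ((w.1 : ℝ) * w.2) := by
          refine Finset.sum_le_sum_of_subset_of_nonneg ?_ fun w _ _ => hnn w
          intro w hw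
          rw [Finset.mem_filter] at hw
          obtain ⟨a1, a2, -⟩ := hmem w hw.1
          rw [Finset.mem_product, Finset.mem_inter, mem_RR, mem_RR]
          exact ⟨⟨hw.2, a1⟩, a2⟩
      _ = (∑ w ∈ E ∩ RR x, (1 : ℝ) / (w : ℝ)) * ∑ w ∈ RR x, (1 : ℝ) / (w : ℝ) := by
          rw [Finset.sum_product, Finset.sum_mul_sum]
          refine Finset.sum_congr rfl fun a _ => Finset.sum_congr rfl fun b _ => ?_
          simp only
          rw [div_mul_div_comm, one_mul]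
      _ ≤ _ := mul_le_mul hER hRR (Finset.sum_nonneg fun _ _ => by positivity) (by positivity)
  have hS2 : ∑ w ∈ (SX e0 c1 c2 x).filter (fun w => w.2 ∈ E), (1 : ℝ) / ((w.1 : ℝ) * w.2) ≤
      E.card * (1 / X1 x) * H := by
    calc ∑ w ∈ (SX e0 c1 c2 x).filter (fun w => w.2 ∈ E), (1 : ℝ) / ((w.1 : ℝ) * w.2)
        ≤ ∑ w ∈ (RR x) ×ˢ (E ∩ RR x), (1 : ℝ) / ((w.1 : ℝ) * w.2) := by
          refine Finset.sum_le_sum_of_subset_of_nonneg ?_ fun w _ _ => hnn w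
          intro w hw
          rw [Finset.mem_filter] at hw
          obtain ⟨a1, a2, -⟩ := hmem w hw.1
          rw [Finset.mem_product, Finset.mem_inter, mem_RR, mem_RR]
          exact ⟨a1, hw.2, a2⟩
      _ = (∑ w ∈ RR x, (1 : ℝ) / (w : ℝ)) * ∑ w ∈ E ∩ RR x, (1 : ℝ) / (w : ℝ) := by
          rw [Finset.sum_product, Finset.sum_mul_sum]
          refine Finset.sum_congr rfl fun a _ => Finset.sum_congr rfl fun b _ => ?_
          simp only
          rw [div_mul_div_comm, one_mul]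
      _ ≤ H * (E.card * (1 / X1 x)) :=
          mul_le_mul hRR hER (Finset.sum_nonneg fun _ _ => by positivity) (by positivity)
      _ = _ := by ring
  have hS3 : ∑ w ∈ (SX e0 c1 c2 x).filter (fun w => w.1 * w.2 ∈ E),
      (1 : ℝ) / ((w.1 : ℝ) * w.2) ≤ 2 * E.card * (1 / X1 x) := by
    have h1 : ∀ w ∈ (SX e0 c1 c2 x).filter (fun w => w.1 * w.2 ∈ E),
        (1 : ℝ) / ((w.1 : ℝ) * w.2) ≤ 1 / X1 x := by
      intro w hw
      rw [Finset.mem_filter] at hw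
      obtain ⟨a1, a2, -⟩ := hmem w hw.1
      refine one_div_le_one_div_of_le (by linarith) ?_
      have e1 := a1.2.1
      have e2 : (1 : ℝ) ≤ w.2 := by exact_mod_cast a2.1.one_lt.le
      nlinarith
    have h2 := NSX_pairs ((SX e0 c1 c2 x).filter (fun w => w.1 * w.2 ∈ E)) E (by
      intro w hw
      rw [Finset.mem_filter] at hw
      obtain ⟨a1, a2, -⟩ := hmem w hw.1
      exact ⟨a1.1, a2.1, hw.2⟩)
    calc ∑ w ∈ (SX e0 c1 c2 x).filter (fun w => w.1 * w.2 ∈ E), (1 : ℝ) / ((w.1 : ℝ) * w.2)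
        ≤ ((SX e0 c1 c2 x).filter (fun w => w.1 * w.2 ∈ E)).card • (1 / X1 x) :=
          Finset.sum_le_card_nsmul _ _ _ h1
      _ = (((SX e0 c1 c2 x).filter (fun w => w.1 * w.2 ∈ E)).card : ℝ) * (1 / X1 x) := by
          rw [nsmul_eq_mul]
      _ ≤ 2 * E.card * (1 / X1 x) := by
          refine mul_le_mul_of_nonneg_right ?_ (by positivity)
          exact_mod_cast h2
  have htot : ∑ w ∈ SX e0 c1 c2 x, (1 : ℝ) / ((w.1 : ℝ) * w.2) ≤
      E.card * (1 / X1 x) * H + E.card * (1 / X1 x) * H + 2 * E.card * (1 / X1 x) := by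
    have hcov : SX e0 c1 c2 x ⊆ ((SX e0 c1 c2 x).filter (fun w => w.1 ∈ E) ∪
        (SX e0 c1 c2 x).filter (fun w => w.2 ∈ E)) ∪
        (SX e0 c1 c2 x).filter (fun w => w.1 * w.2 ∈ E) := by
      intro w hw
      rw [Finset.mem_union, Finset.mem_union]
      rcases (hmem w hw).2.2 with h | h | h
      · exact Or.inl (Or.inl (Finset.mem_filter.2 ⟨hw, h⟩))
      · exact Or.inl (Or.inr (Finset.mem_filter.2 ⟨hw, h⟩))
      · exact Or.inr (Finset.mem_filter.2 ⟨hw, h⟩)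
    have hun : ∀ s t : Finset (ℕ × ℕ), ∑ w ∈ s ∪ t, (1 : ℝ) / ((w.1 : ℝ) * w.2) ≤
        ∑ w ∈ s, (1 : ℝ) / ((w.1 : ℝ) * w.2) + ∑ w ∈ t, (1 : ℝ) / ((w.1 : ℝ) * w.2) := by
      intro s t
      rw [← Finset.sum_union_inter]
      have : 0 ≤ ∑ w ∈ s ∩ t, (1 : ℝ) / ((w.1 : ℝ) * w.2) := Finset.sum_nonneg fun w _ => hnn w
      linarith
    calc ∑ w ∈ SX e0 c1 c2 x, (1 : ℝ) / ((w.1 : ℝ) * w.2)
        ≤ ∑ w ∈ ((SX e0 c1 c2 x).filter (fun w => w.1 ∈ E) ∪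
          (SX e0 c1 c2 x).filter (fun w => w.2 ∈ E)) ∪
          (SX e0 c1 c2 x).filter (fun w => w.1 * w.2 ∈ E), (1 : ℝ) / ((w.1 : ℝ) * w.2) :=
          Finset.sum_le_sum_of_subset_of_nonneg hcov fun w _ _ => hnn w
      _ ≤ _ := (hun _ _).trans (add_le_add ((hun _ _).trans (add_le_add hS1 hS2)) hS3)
  refine htot.trans (le_trans ?_ n5)
  have e1 : (E.card : ℝ) * (1 / X1 x) * H + E.card * (1 / X1 x) * H + 2 * E.card * (1 / X1 x) =
      (2 * H + 2) * (1 / X1 x) * E.card := by ring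
  have e2 : 4 * Real.exp (Real.log x ^ (1 / 10 : ℝ)) * H / X1 x =
      (4 * H) * (1 / X1 x) * Real.exp (Real.log x ^ (1 / 10 : ℝ)) := by ring
  rw [e1, e2]
  refine mul_le_mul (mul_le_mul_of_nonneg_right (by linarith) (by positivity)) hEc
    (Nat.cast_nonneg _) (by positivity)

end Pool.Agent.Lib.MP_79499b_co.DZ
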