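import Pool.Agent.Lib.MP_79499b_co.DZ.NRSum
import Pool.Agent.Lib.MP_79499b_co.DZ.NRed
import Pool.Agent.Lib.MP_79499b_co.DZ.NSX
import Pool.Agent.Lib.MP_79499b_co.DZ.NOm
import Pool.Agent.Lib.MP_79499b_co.DZ.NCls
import Pool.Agent.Lib.MP_79499b_co.DZ.NNumM

/-!
# NMain: almost all n satisfy ND for all pairs used

Statement (N-II): for all `s ≥ 2`, `c1, c2 ≥ 1`, `ε > 0` and `x` large, the number of `n < x` for which some pair
`(w1, w2)` with `GPair`, not in `SX`, `w1 ∣ n^s + 1`, `w2 ∣ ∑_{i<s} n^i`, some prime `p0 ∣ n` with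
`p0 > (X2 x)^8` and `w1 w2 ∣ p0^t + 1`, violates `ND` is at most `ε x`.

Proof. `L = log x`, `e0 = s - 1 ≥ 1`, `i = c1 c2`, `Z = Z1 x = exp(L^(1/4))`, `g = exp(L^(2/5)/i)/2` (`(2g)^i = X1 x`,
`gap_KF`). Discard the `n` with `Ω(n) > κ LL x` (`om_few` with `ε/3`, `κ` from there) and those divisible by
`p^2`, `p > Z` a prime (`sq_few` with `ε/4`); `n = 0` is divisible by all these squares, so it is discarded too.
For the other `n` the hypotheses of `reduce` hold for `x` large: `n` is coprime to `w1 w2` (`w1 ∣ n^s + 1`; if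
`w2 ∣ n` then `∑_{i<s} n^i ≡ 1`), `Z^(e0 Ω(n)) ≤ exp(L^(1/4) e0 κ log L) ≤ g`, `g ≥ 1`. So `n = a p b` with
`p ∈ R_a`: `p` prime, `Z1 x < p ≤ x`, `p ∤ a`, `p ∤ w1 w2`, `BadP K e0 a p`; `p0 ∣ b`, so
`b ≥ p0 > (X2 x)^8 ≥ w1 w2`; `Ω(a) ≤ Ω(n) ≤ κ LL x`, `1 ≤ a < x`, `b ≤ x/(a p)`, `a p` coprime to `w1 w2`.
For fixed pair, `a`, `p` the number of `b` is at most `2 s^2 x/(a p w1 w2)` (`cls_count`, `Z = x/(ap)`; if there is
such a `b` then `x/(ap) ≥ b > w1 w2`). Sum over `p ∈ R_a` (`rare_sum` with this `κ`; `R_a` is the finset of all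
such primes at most `x`): `∑ 1/p ≤ exp(-L^(1/10))`; over `a < x`: `∑ 1/a ≤ 1 + L`; over the pairs:
`(∑_{w ≤ X2 x} 1/w)^2 ≤ (1 + L)^2`. Total at most `2 s^2 (1 + L)^3 exp(-L^(1/10)) x ≤ (ε/4) x` for `x` large. All numerical facts are in `num_main`.
(Union bound `cnt_exists` / `Finset.card_biUnion_le`; the map `(pair, a, p, b) ↦ n = a p b` covers the set. `r1, r2`
are determined by `w1, w2`.)
-/

set_option autoImplicit false

open NumberField
open scoped Pointwise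

namespace Pool.Agent.Lib.MP_79499b_co.DZ

private theorem NMain_len (a n : ℕ) (hn : n ≠ 0) (h : a ∣ n) :
    a.primeFactorsList.length ≤ n.primeFactorsList.length := by
  obtain ⟨b, rfl⟩ := h
  have ha : a ≠ 0 := left_ne_zero_of_mul hn
  have hb : b ≠ 0 := right_ne_zero_of_mul hn
  rw [(Nat.perm_primeFactorsList_mul ha hb).length_eq, List.length_append]
  omega

open scoped Classical in
/-- the event for fixed pair and fixed `a`, `p` -/
private def NMain_E (s w1 w2 a p n : ℕ) : Prop :=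
  0 < a * p ∧ a * p ∣ n ∧ ((w1 : ℝ) * w2 < ((n / (a * p) : ℕ) : ℝ)) ∧ w1 ∣ n ^ s + 1 ∧
    w2 ∣ ∑ i ∈ Finset.range s, n ^ i ∧ Nat.Coprime (a * p) (w1 * w2)

open scoped Classical in
private theorem NMain_cnt (s w1 w2 a p x : ℕ) (h1 : w1.Prime) (h2 : w2.Prime) (hne : w1 ≠ w2)
    (hs : 1 ≤ s) : cnt x (NMain_E s w1 w2 a p) ≤
      2 * (s : ℝ) ^ 2 * ((x : ℝ) / (a * p)) / ((w1 : ℝ) * w2) := by
  have hRHS : 0 ≤ 2 * (s : ℝ) ^ 2 * ((x : ℝ) / (a * p)) / ((w1 : ℝ) * w2) := by positivity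
  rcases Finset.eq_empty_or_nonempty ((Finset.range x).filter (NMain_E s w1 w2 a p)) with h0 | h0
  · unfold cnt
    rw [h0, Finset.card_empty, Nat.cast_zero]
    exact hRHS
  · obtain ⟨n0, hn0⟩ := h0
    rw [Finset.mem_filter, Finset.mem_range] at hn0
    have hap : 0 < a * p := hn0.2.1
    have hcop := hn0.2.2.2.2.2.2
    have hapr : (0 : ℝ) < (a : ℝ) * p := by exact_mod_cast hap
    have hle : ∀ n : ℕ, n < x → ((n / (a * p) : ℕ) : ℝ) ≤ (x : ℝ) / (a * p) := by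
      intro n hn
      have e1 : ((n / (a * p) : ℕ) : ℝ) ≤ (n : ℝ) / ((a * p : ℕ) : ℝ) := Nat.cast_div_le
      rw [Nat.cast_mul] at e1
      refine e1.trans ?_
      rw [div_le_div_iff_of_pos_right hapr]
      exact_mod_cast hn.le
    have hZ : (w1 : ℝ) * w2 ≤ (x : ℝ) / (a * p) := (hn0.2.2.2.1.trans_le (hle n0 hn0.1)).le
    have hinj : Set.InjOn (fun n => n / (a * p))
        ((Finset.range x).filter (NMain_E s w1 w2 a p) : Set ℕ) := by
      intro n hn n' hn' h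
      rw [Finset.mem_coe, Finset.mem_filter] at hn hn'
      have e1 := Nat.mul_div_cancel' hn.2.2.1
      have e2 := Nat.mul_div_cancel' hn'.2.2.1
      have h' : n / (a * p) = n' / (a * p) := h
      rw [← e1, ← e2, h']
    have hmain := cls_count w1 w2 s (a * p) h1 h2 hne hs hcop ((x : ℝ) / (a * p)) hZ
      (((Finset.range x).filter (NMain_E s w1 w2 a p)).image (fun n => n / (a * p))) (by
        intro b hb
        rw [Finset.mem_image] at hb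
        obtain ⟨n, hn, rfl⟩ := hb
        rw [Finset.mem_filter, Finset.mem_range] at hn
        obtain ⟨hnx, -, hdvd, hlt, hd1, hd2, -⟩ := hn
        have e1 := Nat.mul_div_cancel' hdvd
        refine ⟨?_, hle n hnx, ?_, ?_⟩
        · have h3 : (0 : ℝ) < ((n / (a * p) : ℕ) : ℝ) := lt_of_le_of_lt (by positivity) hlt
          exact_mod_cast h3
        · rw [e1]; exact hd1
        · rw [e1]; exact hd2)
    rw [Finset.card_image_of_injOn hinj] at hmain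
    exact hmain

private theorem NMain_cop (n w1 w2 s : ℕ) (p1 : w1.Prime) (p2 : w2.Prime) (hs : 1 ≤ s)
    (h1 : w1 ∣ n ^ s + 1) (h2 : w2 ∣ ∑ i ∈ Finset.range s, n ^ i) :
    Nat.Coprime n (w1 * w2) := by
  refine Nat.Coprime.mul_right ?_ ?_
  · refine ((Nat.Prime.coprime_iff_not_dvd p1).mpr ?_).symm
    intro h
    have h3 : w1 ∣ n ^ s := dvd_pow h (by omega)
    have h4 : w1 ∣ 1 := (Nat.dvd_add_right h3).mp h1
    exact p1.one_lt.ne' (Nat.dvd_one.mp h4)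
  · refine ((Nat.Prime.coprime_iff_not_dvd p2).mpr ?_).symm
    intro h
    obtain ⟨k, rfl⟩ : ∃ k, s = k + 1 := ⟨s - 1, by omega⟩
    rw [Finset.sum_range_succ'] at h2
    have h3 : w2 ∣ ∑ i ∈ Finset.range k, n ^ (i + 1) :=
      Finset.dvd_sum fun i _ => dvd_pow h (by omega)
    have h4 : w2 ∣ n ^ 0 := (Nat.dvd_add_right h3).mp h2
    rw [pow_zero] at h4
    exact p2.one_lt.ne' (Nat.dvd_one.mp h4)

private theorem NMain_harm (N : ℕ) : ∑ a ∈ Finset.Icc 1 N, (1 : ℝ) / a ≤ 1 + Real.log N := by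
  have h := harmonic_le_one_add_log N
  rw [harmonic_eq_sum_Icc] at h
  push_cast at h
  simpa [one_div] using h

theorem nd_rare (s c1 c2 : ℕ) (hs : 2 ≤ s) (hc1 : 1 ≤ c1) (hc2 : 1 ≤ c2) (ε : ℝ) (hε : 0 < ε) :
    ∃ x0 : ℕ, ∀ x : ℕ, x0 ≤ x →
      cnt x (fun n => ∃ w1 w2 r1 r2 p0 t : ℕ, GPair c1 c2 x w1 w2 r1 r2 ∧
        (w1, w2) ∉ SX (s - 1) c1 c2 x ∧ w1 ∣ n ^ s + 1 ∧ w2 ∣ ∑ i ∈ Finset.range s, n ^ i ∧
        p0.Prime ∧ p0 ∣ n ∧ X2 x ^ 8 < p0 ∧ w1 * w2 ∣ p0 ^ t + 1 ∧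
        ¬ ND (CyclotomicField (w1 * w2) ℚ) (s - 1) (r1 * r2) n) ≤ ε * x := by
  classical
  have hi1 : 1 ≤ c1 * c2 := Nat.mul_pos hc1 hc2
  have he0 : 1 ≤ s - 1 := by omega
  obtain ⟨κ, x1, hκ, hx1⟩ := om_few (ε / 3) (by positivity)
  obtain ⟨x2, hx2⟩ := sq_few (ε / 4) (by positivity)
  obtain ⟨x3, hx3⟩ := num_main s (s - 1) (c1 * c2) hi1 κ (ε / 4) (by positivity)
  obtain ⟨x4, hx4⟩ := rare_sum (s - 1) c1 c2 he0 hc1 hc2 κ
  obtain ⟨x5, hx5⟩ := Filter.eventually_atTop.mp (log_tend.eventually_ge_atTop (1 : ℝ))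
  refine ⟨max x1 (max x2 (max x3 (max x4 x5))), ?_⟩
  intro x hx
  simp only [max_le_iff] at hx
  obtain ⟨hxa, hxb, hxc, hxd, hxe⟩ := hx
  have hA := hx1 x hxa
  have hB := hx2 x hxb
  obtain ⟨hC1, hC2, hC3, hC4, hC5⟩ := hx3 x hxc
  have hD := hx4 x hxd
  have hL1 : 1 ≤ Real.log x := hx5 x hxe
  set L := Real.log x with hL
  -- the index sets
  set W : Finset (ℕ × ℕ) := ((RR x) ×ˢ (RR x)).filter (fun w =>
    (∃ r1 r2, GPair c1 c2 x w.1 w.2 r1 r2) ∧ w ∉ SX (s - 1) c1 c2 x) with hW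
  set A : Finset ℕ := (Finset.Icc 1 x).filter
    (fun a => (a.primeFactorsList.length : ℝ) ≤ κ * LL x) with hAdef
  set R : ℕ × ℕ → ℕ → Finset ℕ := fun w a => (Finset.range (x + 1)).filter (fun p =>
    p.Prime ∧ Z1 x < p ∧ p ≤ x ∧ ¬ p ∣ a ∧ ¬ p ∣ w.1 * w.2 ∧
        BadP (KF (CyclotomicField (w.1 * w.2) ℚ) (((w.1 - 1) / c1) * ((w.2 - 1) / c2)))
          (s - 1) a p) with hR
  have hrid : ∀ w1 w2 r1 r2, GPair c1 c2 x w1 w2 r1 r2 → (w1 - 1) / c1 = r1 ∧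
      (w2 - 1) / c2 = r2 := by
    intro w1 w2 r1 r2 hG
    obtain ⟨-, -, -, e1, e2, -, -, -⟩ := hG
    constructor
    · rw [e1, Nat.add_sub_cancel, Nat.mul_div_cancel_left _ (by omega)]
    · rw [e2, Nat.add_sub_cancel, Nat.mul_div_cancel_left _ (by omega)]
  have hcover : cnt x (fun n => ∃ w1 w2 r1 r2 p0 t : ℕ, GPair c1 c2 x w1 w2 r1 r2 ∧
        (w1, w2) ∉ SX (s - 1) c1 c2 x ∧ w1 ∣ n ^ s + 1 ∧ w2 ∣ ∑ i ∈ Finset.range s, n ^ i ∧
        p0.Prime ∧ p0 ∣ n ∧ X2 x ^ 8 < p0 ∧ w1 * w2 ∣ p0 ^ t + 1 ∧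
        ¬ ND (CyclotomicField (w1 * w2) ℚ) (s - 1) (r1 * r2) n) ≤
      cnt x (fun n => κ * LL x < (n.primeFactorsList.length : ℝ)) +
      (cnt x (fun n => ∃ p : ℕ, p.Prime ∧ Real.exp (Real.log x ^ (1 / 4 : ℝ)) < p ∧ p ^ 2 ∣ n) +
      cnt x (fun n => ∃ w ∈ W, ∃ a ∈ A, ∃ p ∈ R w a, NMain_E s w.1 w.2 a p n)) := by
    refine le_trans ?_ ((cnt_or x _ _).trans (add_le_add_right (cnt_or x _ _) _))
    refine cnt_mono fun n hnx hn => ?_
    by_cases h1 : κ * LL x < (n.primeFactorsList.length : ℝ)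
    · exact Or.inl h1
    refine Or.inr ?_
    by_cases h2 : ∃ p : ℕ, p.Prime ∧ Real.exp (Real.log x ^ (1 / 4 : ℝ)) < p ∧ p ^ 2 ∣ n
    · exact Or.inl h2
    refine Or.inr ?_
    obtain ⟨w1, w2, r1, r2, p0, t, hG, hSX, hd1, hd2, hp0, hp0n, hp0X, hp0t, hnd⟩ := hn
    obtain ⟨hrr1, hrr2⟩ := hrid _ _ _ _ hG
    have hG' := hG
    obtain ⟨hw1, hw2, hne, e1, e2, hcr1, hcr2, hrr⟩ := hG
    have p1 := hw1.1
    have p2 := hw2.1
    rw [not_lt] at h1
    have hn0 : n ≠ 0 := by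
      rintro rfl
      obtain ⟨q, hq1, hq2⟩ := Nat.exists_infinite_primes
        (⌊Real.exp (Real.log x ^ (1 / 4 : ℝ))⌋₊ + 1)
      refine h2 ⟨q, hq2, ?_, dvd_zero _⟩
      exact (Nat.lt_floor_add_one _).trans_le (by exact_mod_cast hq1)
    set g : ℝ := Real.exp (L ^ (2 / 5 : ℝ) / ((c1 * c2 : ℕ) : ℝ)) / 2 with hg
    have hg0 : 0 ≤ g := by positivity
    have hicast : (0 : ℝ) < ((c1 * c2 : ℕ) : ℝ) := by exact_mod_cast hi1
    have h2g : (2 * g) ^ (c1 * c2) = X1 x := by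
      have h1 : 2 * g = Real.exp (L ^ (2 / 5 : ℝ) / ((c1 * c2 : ℕ) : ℝ)) := by rw [hg]; ring
      rw [h1, ← Real.exp_nat_mul, mul_div_cancel₀ _ hicast.ne']
      rfl
    have hgap := gap_KF w1 w2 c1 c2 r1 r2 p1 p2 hne e1 e2 hcr1 hcr2 hrr g hg0
      (by rw [h2g]; exact hw1.2.1) (by rw [h2g]; exact hw2.2.1)
    have hcop := NMain_cop n w1 w2 s p1 p2 (by omega) hd1 hd2
    obtain ⟨a, p, b, hnab, hp, hZp, hpa, hpw, hbad, hp0b⟩ := reduce w1 w2 r1 r2 (s - 1) n p1 p2 hne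
      g hC2 hgap hn0 hcop (Z1 x) hC4 (hC1 _ h1)
      (fun q hq hZq hq2 => h2 ⟨q, hq, hZq, hq2⟩) p0 t hp0 hp0n hp0t hnd
    have hab0 : a * p ≠ 0 := by
      intro h
      rw [hnab, h, zero_mul] at hn0
      exact hn0 rfl
    have ha0 : a ≠ 0 := left_ne_zero_of_mul hab0
    have hb0 : b ≠ 0 := by
      rintro rfl
      rw [hnab, mul_zero] at hn0
      exact hn0 rfl
    have hapn : a * p ∣ n := ⟨b, hnab⟩
    have han : a ∣ n := (dvd_mul_right a p).trans hapn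
    have hpn : p ∣ n := (dvd_mul_left p a).trans hapn
    have han' : a ≤ n := Nat.le_of_dvd (Nat.pos_of_ne_zero hn0) han
    have hpn' : p ≤ n := Nat.le_of_dvd (Nat.pos_of_ne_zero hn0) hpn
    have hdivb : n / (a * p) = b := by
      rw [hnab]
      exact Nat.mul_div_cancel_left b (Nat.pos_of_ne_zero hab0)
    refine ⟨(w1, w2), ?_, a, ?_, p, ?_, ?_⟩
    · rw [hW, Finset.mem_filter, Finset.mem_product]
      exact ⟨⟨mem_RR.mpr hw1, mem_RR.mpr hw2⟩, ⟨r1, r2, hG'⟩, hSX⟩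
    · rw [hAdef, Finset.mem_filter, Finset.mem_Icc]
      refine ⟨⟨Nat.pos_of_ne_zero ha0, by omega⟩, ?_⟩
      refine le_trans ?_ h1
      exact_mod_cast NMain_len a n hn0 han
    · rw [hR, Finset.mem_filter, Finset.mem_range]
      refine ⟨by omega, hp, hZp, by omega, hpa, hpw, ?_⟩
      show BadP (KF (CyclotomicField (w1 * w2) ℚ) (((w1 - 1) / c1) * ((w2 - 1) / c2)))
          (s - 1) a p
      rw [hrr1, hrr2]
      exact hbad
    · refine ⟨Nat.pos_of_ne_zero hab0, hapn, ?_, hd1, hd2, Nat.Coprime.coprime_dvd_left hapn hcop⟩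
      show (w1 : ℝ) * w2 < ((n / (a * p) : ℕ) : ℝ)
      rw [hdivb]
      have hb1 : (p0 : ℝ) ≤ b := by
        exact_mod_cast Nat.le_of_dvd (Nat.pos_of_ne_zero hb0) hp0b
      have hw12 : (w1 : ℝ) * w2 ≤ X2 x ^ 2 := by
        rw [pow_two]
        exact mul_le_mul hw1.2.2 hw2.2.2 (Nat.cast_nonneg _) (by linarith)
      have hX28 : X2 x ^ 2 ≤ X2 x ^ 8 := pow_le_pow_right₀ hC3 (by norm_num)
      linarith
  have hmain : cnt x (fun n => ∃ w ∈ W, ∃ a ∈ A, ∃ p ∈ R w a, NMain_E s w.1 w.2 a p n) ≤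
      2 * (s : ℝ) ^ 2 * (1 + L) ^ 3 * Real.exp (-(L ^ (1 / 10 : ℝ))) * x := by
    set δ := Real.exp (-(L ^ (1 / 10 : ℝ))) with hδ
    have hδ0 : 0 ≤ δ := (Real.exp_pos _).le
    have step1 : ∀ w ∈ W, ∀ a ∈ A, cnt x (fun n => ∃ p ∈ R w a, NMain_E s w.1 w.2 a p n) ≤
        2 * (s : ℝ) ^ 2 * x * δ * ((1 : ℝ) / a) * ((1 : ℝ) / ((w.1 : ℝ) * w.2)) := by
      intro w hw a ha
      rw [hW, Finset.mem_filter, Finset.mem_product] at hw
      rw [hAdef, Finset.mem_filter, Finset.mem_Icc] at ha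
      obtain ⟨⟨hw1, hw2⟩, ⟨r1, r2, hG⟩, hSX⟩ := hw
      obtain ⟨hrr1, hrr2⟩ := hrid _ _ _ _ hG
      have hne := hG.2.2.1
      have hG1 := hG.1
      have hG2 := hG.2.1
      have hsum := hD w.1 w.2 r1 r2 hG hSX a (by omega) ha.2 (R w a) (by
        intro p hp
        rw [hR, Finset.mem_filter] at hp
        obtain ⟨-, h1, h2, h3, h4, h5, h6⟩ := hp
        rw [hrr1, hrr2] at h6
        exact ⟨h1, h2, h3, h4, h5, h6⟩)
      refine (cnt_exists x (R w a) (fun p n => NMain_E s w.1 w.2 a p n)).trans ?_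
      have h1 : ∀ p ∈ R w a, cnt x (NMain_E s w.1 w.2 a p) ≤
          2 * (s : ℝ) ^ 2 * x * ((1 : ℝ) / a) * ((1 : ℝ) / ((w.1 : ℝ) * w.2)) * (1 / (p : ℝ)) := by
        intro p _
        refine (NMain_cnt s w.1 w.2 a p x hG1.1 hG2.1 hne (by omega)).trans (le_of_eq ?_)
        simp only [div_eq_mul_inv, mul_inv, one_mul]
        ring
      refine (Finset.sum_le_sum h1).trans ?_
      rw [← Finset.mul_sum]
      have h2 : 0 ≤ 2 * (s : ℝ) ^ 2 * x * ((1 : ℝ) / a) * ((1 : ℝ) / ((w.1 : ℝ) * w.2)) := by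
        positivity
      refine (mul_le_mul_of_nonneg_left hsum h2).trans (le_of_eq ?_)
      rw [hδ]
      ring
    have step2 : ∀ w ∈ W, cnt x (fun n => ∃ a ∈ A, ∃ p ∈ R w a, NMain_E s w.1 w.2 a p n) ≤
        2 * (s : ℝ) ^ 2 * x * δ * (1 + L) * ((1 : ℝ) / ((w.1 : ℝ) * w.2)) := by
      intro w hw
      refine (cnt_exists x A (fun a n => ∃ p ∈ R w a, NMain_E s w.1 w.2 a p n)).trans ?_
      refine (Finset.sum_le_sum (step1 w hw)).trans ?_
      have h3 : ∑ a ∈ A, (1 : ℝ) / a ≤ 1 + L := by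
        refine le_trans ?_ (NMain_harm x)
        refine Finset.sum_le_sum_of_subset_of_nonneg (Finset.filter_subset _ _) ?_
        intro a _ _
        positivity
      have h4 : ∑ a ∈ A, 2 * (s : ℝ) ^ 2 * x * δ * ((1 : ℝ) / a) * ((1 : ℝ) / ((w.1 : ℝ) * w.2)) =
          2 * (s : ℝ) ^ 2 * x * δ * (∑ a ∈ A, (1 : ℝ) / a) * ((1 : ℝ) / ((w.1 : ℝ) * w.2)) := by
        rw [Finset.mul_sum, Finset.sum_mul]
      rw [h4]
      refine mul_le_mul_of_nonneg_right ?_ (by positivity)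
      exact mul_le_mul_of_nonneg_left h3 (by positivity)
    refine (cnt_exists x W (fun w n => ∃ a ∈ A, ∃ p ∈ R w a, NMain_E s w.1 w.2 a p n)).trans ?_
    refine (Finset.sum_le_sum step2).trans ?_
    have h5 : ∑ w ∈ RR x, (1 : ℝ) / w ≤ 1 + L := by
      have h6 : ∑ w ∈ RR x, (1 : ℝ) / w ≤ ∑ w ∈ Finset.Icc 1 ⌊X2 x⌋₊, (1 : ℝ) / w := by
        refine Finset.sum_le_sum_of_subset_of_nonneg ?_ ?_
        · unfold RR
          exact Finset.filter_subset _ _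
        · intro a _ _
          positivity
      refine h6.trans ((NMain_harm _).trans ?_)
      have h7 : Real.log (⌊X2 x⌋₊ : ℝ) ≤ Real.log (X2 x) := by
        refine Real.log_le_log ?_ (Nat.floor_le (by linarith))
        have : 1 ≤ ⌊X2 x⌋₊ := Nat.le_floor (by simpa using hC3)
        exact_mod_cast this
      have h8 : Real.log (X2 x) ≤ L := by
        unfold X2
        rw [Real.log_exp]
        calc Real.log x ^ (9 / 20 : ℝ) ≤ Real.log x ^ (1 : ℝ) :=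
              Real.rpow_le_rpow_of_exponent_le hL1 (by norm_num)
          _ = L := Real.rpow_one _
      linarith
    have h9 : ∑ w ∈ W, (1 : ℝ) / ((w.1 : ℝ) * w.2) ≤ (1 + L) ^ 2 := by
      have h10 : ∑ w ∈ W, (1 : ℝ) / ((w.1 : ℝ) * w.2) ≤
          ∑ w ∈ (RR x) ×ˢ (RR x), (1 : ℝ) / ((w.1 : ℝ) * w.2) := by
        refine Finset.sum_le_sum_of_subset_of_nonneg (Finset.filter_subset _ _) ?_
        intro a _ _
        positivity
      refine h10.trans ?_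
      have h11 : ∑ w ∈ (RR x) ×ˢ (RR x), (1 : ℝ) / ((w.1 : ℝ) * w.2) =
          (∑ w ∈ RR x, (1 : ℝ) / w) * (∑ w ∈ RR x, (1 : ℝ) / w) := by
        rw [Finset.sum_mul_sum, Finset.sum_product]
        refine Finset.sum_congr rfl fun a _ => Finset.sum_congr rfl fun b _ => ?_
        rw [one_div, one_div, one_div, mul_inv]
      have h12 : 0 ≤ ∑ w ∈ RR x, (1 : ℝ) / w := Finset.sum_nonneg fun a _ => by positivity
      rw [h11, pow_two]
      exact mul_le_mul h5 h5 h12 (by linarith)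
    rw [← Finset.mul_sum]
    refine (mul_le_mul_of_nonneg_left h9 (by positivity)).trans (le_of_eq ?_)
    ring
  have hfin : 2 * (s : ℝ) ^ 2 * (1 + L) ^ 3 * Real.exp (-(L ^ (1 / 10 : ℝ))) * x ≤ ε / 4 * x :=
    mul_le_mul_of_nonneg_right hC5 (Nat.cast_nonneg _)
  have hx0 : (0 : ℝ) ≤ (x : ℝ) := Nat.cast_nonneg _
  have := mul_nonneg hε.le hx0
  nlinarith [hcover, hA, hB, hmain, hfin]

end Pool.Agent.Lib.MP_79499b_co.DZ
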