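import Pool.Agent.Lib.MP_79499b_co.DZ.NCyc

/-!
# NNib: the normal integral basis of Q(zeta_(w1 w2))

Proof. `W = w1 w2`, `ζ` a primitive root of order `W`, `b σ = σ ζ`. The `ℤ`-span `S` of the `σ ζ` (= the `ζ^u`,
`u` coprime to `W`, `galEquivZMod`) contains all `ζ^k`:
if `w1 ∣ k` and `w2 ∤ k` then `∑_{x<w1} ζ^(k + x w2) = 0` and the exponents `k + x w2`, `0 < x < w1`, are
coprime to `W`; the same with `w1, w2` exchanged; and `1 = - ∑_{0<x<w1} ζ^(x w2)`, where `x w2` is divisible by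
`w2` but not by `w1`. So `S = ℤ[ζ] = 𝓞 F` (`IsCyclotomicExtension.Rat.adjoin_singleton_eq_top`, valid for every
conductor). The number of `σ` is `[F : ℚ]`, and the `σ ζ` span `F` over `ℚ`, so they are `ℚ`-independent
(`linearIndependent_of_top_le_span_of_card_eq_finrank`), hence `ℤ`-independent: a basis (`Module.Basis.mk`).
`g • (h ζ) = (g h) ζ`; roots of unity have absolute value 1 in every embedding.
-/

set_option autoImplicit false

open NumberField
open scoped Pointwise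

namespace Pool.Agent.Lib.MP_79499b_co.DZ

private theorem NNib_rel {R : Type} [CommRing R] [IsDomain R] {z : R} {w : ℕ} (hw : 1 < w)
    {m : ℕ} (hz : IsPrimitiveRoot (z ^ m) w) (k : ℕ) (S : Submodule ℤ R)
    (h : ∀ x : ℕ, 0 < x → x < w → z ^ (k + x * m) ∈ S) : z ^ k ∈ S := by
  have h1 := hz.geom_sum_eq_zero hw
  obtain ⟨v, rfl⟩ : ∃ v, w = v + 1 := ⟨w - 1, by omega⟩
  rw [Finset.sum_range_succ', pow_zero] at h1
  have h2 : z ^ k = -∑ x ∈ Finset.range v, z ^ (k + (x + 1) * m) := by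
    have h3 : z ^ k * (∑ x ∈ Finset.range v, (z ^ m) ^ (x + 1) + 1) = 0 := by rw [h1, mul_zero]
    rw [mul_add, mul_one, Finset.mul_sum] at h3
    have h4 : ∑ x ∈ Finset.range v, z ^ k * (z ^ m) ^ (x + 1) =
        ∑ x ∈ Finset.range v, z ^ (k + (x + 1) * m) := by
      refine Finset.sum_congr rfl fun x _ => ?_
      rw [← pow_mul, ← pow_add, mul_comm m]
    rw [h4] at h3
    exact eq_neg_of_add_eq_zero_right h3
  rw [h2]
  refine S.neg_mem (S.sum_mem fun x hx => h (x + 1) (Nat.succ_pos x) ?_)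
  have := Finset.mem_range.1 hx
  omega

private theorem NNib_all {R : Type} [CommRing R] [IsDomain R] {z : R} {w1 w2 : ℕ}
    (h1 : w1.Prime) (h2 : w2.Prime) (hne : w1 ≠ w2) (hz : IsPrimitiveRoot z (w1 * w2))
    (S : Submodule ℤ R) (h : ∀ k : ℕ, k.Coprime (w1 * w2) → z ^ k ∈ S) (k : ℕ) : z ^ k ∈ S := by
  have hc : Nat.Coprime w1 w2 := (Nat.coprime_primes h1 h2).2 hne
  have hz1 : IsPrimitiveRoot (z ^ w2) w1 :=
    hz.pow (Nat.mul_pos h1.pos h2.pos) (by ring)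
  have hz2 : IsPrimitiveRoot (z ^ w1) w2 :=
    hz.pow (Nat.mul_pos h1.pos h2.pos) (by ring)
  have hA : ∀ k : ℕ, ¬ w1 ∣ k → ¬ w2 ∣ k → z ^ k ∈ S := by
    intro k hk1 hk2
    refine h k (Nat.Coprime.mul_right ?_ ?_)
    · exact ((h1.coprime_iff_not_dvd).2 hk1).symm
    · exact ((h2.coprime_iff_not_dvd).2 hk2).symm
  -- shifts
  have sh1 : ∀ x : ℕ, 0 < x → x < w1 → ¬ w1 ∣ x * w2 := by
    intro x hx hx' hd
    have := (Nat.Coprime.dvd_mul_right hc).1 hd
    exact absurd (Nat.le_of_dvd hx this) (by omega)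
  have sh2 : ∀ x : ℕ, 0 < x → x < w2 → ¬ w2 ∣ x * w1 := by
    intro x hx hx' hd
    have := (Nat.Coprime.dvd_mul_right hc.symm).1 hd
    exact absurd (Nat.le_of_dvd hx this) (by omega)
  have hB : ∀ k : ℕ, w1 ∣ k → ¬ w2 ∣ k → z ^ k ∈ S := by
    intro k hk1 hk2
    refine NNib_rel h1.one_lt hz1 k S fun x hx hx' => hA _ ?_ ?_
    · intro hd
      exact sh1 x hx hx' ((Nat.dvd_add_right hk1).1 hd)
    · intro hd
      exact hk2 ((Nat.dvd_add_left (Dvd.intro_left x rfl)).1 hd)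
  have hC : ∀ k : ℕ, w2 ∣ k → ¬ w1 ∣ k → z ^ k ∈ S := by
    intro k hk2 hk1
    refine NNib_rel h2.one_lt hz2 k S fun x hx hx' => hA _ ?_ ?_
    · intro hd
      exact hk1 ((Nat.dvd_add_left (Dvd.intro_left x rfl)).1 hd)
    · intro hd
      exact sh2 x hx hx' ((Nat.dvd_add_right hk2).1 hd)
  by_cases a1 : w1 ∣ k
  · by_cases a2 : w2 ∣ k
    · refine NNib_rel h1.one_lt hz1 k S fun x hx hx' => hC _ ?_ ?_
      · exact (Nat.dvd_add_right a2).2 (Dvd.intro_left x rfl)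
      · intro hd
        exact sh1 x hx hx' ((Nat.dvd_add_right a1).1 hd)
    · exact hB k a1 a2
  · by_cases a2 : w2 ∣ k
    · exact hC k a2 a1
    · exact hA k a1 a2

theorem nib_cyc (w1 w2 : ℕ) (h1 : w1.Prime) (h2 : w2.Prime) (hne : w1 ≠ w2) :
    HasNIB (CyclotomicField (w1 * w2) ℚ) 1 := by
  have hW : w1 * w2 ≠ 0 := (Nat.mul_pos h1.pos h2.pos).ne'
  have : NeZero (w1 * w2) := ⟨hW⟩
  have hq : NeZero ((w1 * w2 : ℕ) : ℚ) := ⟨by exact_mod_cast hW⟩
  have hcy : IsCyclotomicExtension {w1 * w2} ℚ (CyclotomicField (w1 * w2) ℚ) :=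
    CyclotomicField.isCyclotomicExtension (w1 * w2) ℚ
  have hg : IsGalois ℚ (CyclotomicField (w1 * w2) ℚ) := cyc_galois (w1 * w2)
  have hζ := IsCyclotomicExtension.zeta_spec (w1 * w2) ℚ (CyclotomicField (w1 * w2) ℚ)
  have hz := hζ.toInteger_isPrimitiveRoot
  have hspan : ⊤ ≤ Submodule.span ℤ (Set.range
      (fun σ : CyclotomicField (w1 * w2) ℚ ≃ₐ[ℚ] CyclotomicField (w1 * w2) ℚ =>
        σ • hζ.toInteger)) := by
    have hall := NNib_all h1 h2 hne hz (Submodule.span ℤ (Set.range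
      (fun σ : CyclotomicField (w1 * w2) ℚ ≃ₐ[ℚ] CyclotomicField (w1 * w2) ℚ =>
        σ • hζ.toInteger))) (by
      intro k hk
      refine Submodule.subset_span
        ⟨(IsCyclotomicExtension.Rat.galEquivZMod (w1 * w2)
          (CyclotomicField (w1 * w2) ℚ)).symm (ZMod.unitOfCoprime k hk), ?_⟩
      show _ • hζ.toInteger = hζ.toInteger ^ k
      rw [IsCyclotomicExtension.Rat.galEquivZMod_smul_of_pow_eq (w1 * w2)
        (CyclotomicField (w1 * w2) ℚ) _ hz.pow_eq_one, MulEquiv.apply_symm_apply,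
        ZMod.coe_unitOfCoprime, ZMod.val_natCast]
      exact (pow_eq_pow_mod k hz.pow_eq_one).symm)
    have h3 := IsCyclotomicExtension.Rat.adjoin_singleton_eq_top hζ
    have h4 : (⊤ : Submodule ℤ (𝓞 (CyclotomicField (w1 * w2) ℚ))) =
        Submodule.span ℤ (Submonoid.closure {hζ.toInteger}) := by
      rw [← Algebra.adjoin_eq_span, h3]
      rfl
    rw [h4, Submodule.span_le]
    intro x hx
    obtain ⟨n, rfl⟩ := Submonoid.mem_closure_singleton.1 hx
    exact hall n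
  have hcard : Fintype.card (CyclotomicField (w1 * w2) ℚ ≃ₐ[ℚ] CyclotomicField (w1 * w2) ℚ) =
      Module.finrank ℤ (𝓞 (CyclotomicField (w1 * w2) ℚ)) := by
    rw [RingOfIntegers.rank, ← IsGalois.card_aut_eq_finrank ℚ (CyclotomicField (w1 * w2) ℚ),
      Nat.card_eq_fintype_card]
  refine ⟨basisOfTopLeSpanOfCardEqFinrank _ hspan hcard, ?_, ?_⟩
  · intro g h
    rw [coe_basisOfTopLeSpanOfCardEqFinrank]
    exact (mul_smul g h _).symm
  · intro φ g
    rw [coe_basisOfTopLeSpanOfCardEqFinrank]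
    have h5 : (φ ((g • hζ.toInteger : 𝓞 (CyclotomicField (w1 * w2) ℚ)) :
        CyclotomicField (w1 * w2) ℚ)) ^ (w1 * w2) = 1 := by
      rw [← map_pow, ← map_pow, ← smul_pow', hz.pow_eq_one, smul_one, map_one, map_one]
    exact (Complex.norm_eq_one_of_pow_eq_one h5 hW).le

end Pool.Agent.Lib.MP_79499b_co.DZ
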