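import Pool.Agent.Lib.MP_79499b_co.DZ.NPar

/-!
# NNum: the numerical part of NRar

`L = log x → ∞`, `Q = Qx x e0 i = ⌊exp(L^(2/5)/(4 e0 i^2))⌋`.

(a) `Q^(2 e0 i) ≤ exp(L^(2/5)/(2i)) ≤ exp(L^(2/5)/i)/2` as soon as `exp(L^(2/5)/(2i)) ≥ 2`.
(b) `Q ≤ exp(L^(2/5)/4) < exp(L^(2/5)) = X1 x`, and `Q ≥ 1`.
(c) Let `log T ≤ i (log i + 2 L^(9/20))`, `√Q ≤ c`, `exp(L^(1/5)) ≤ Y`, `m ≤ κ LL x`. Take
`j = ⌈i log(T Q + 1)/log(2Y)⌉ + 1`. Then `(T Q + 1)^i ≤ (2Y)^j`, and `log(T Q + 1) ≤ 1 + log T + log Q ≤ C L^(9/20)`,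
`log(2Y) ≥ L^(1/5)`, so `1 ≤ j ≤ C L^(1/4)`. With `A = 2 4^i (1 + log T)^i ≤ C L^i` and
`√Q ≥ exp(L^(2/5)/(8 e0 i^2))/2`: `A/c ≤ exp(-L^(2/5)/(16 e0 i^2)) < 1` for large `L`, so
`(A/c)^(1/j) ≤ exp(-c' L^(2/5-1/4)) = exp(-c' L^(3/20))`. `2^(2 e0 i m) ≤ exp(2 e0 i |κ| LL x) ≤ L^(2 e0 i |κ|)`.
Total `≤ C L^C (j + 2 j Y exp(-c' L^(3/20))) ≤ C L^(C+1) Y (exp(-L^(1/5)) + 2 exp(-c' L^(3/20))) ≤ Y exp(-L^(1/9))`
for `L` large, since `1/9 < 3/20 < 1/5`.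
-/

set_option autoImplicit false

open NumberField
open scoped Pointwise

namespace Pool.Agent.Lib.MP_79499b_co.DZ

private lemma NNum_asym (A : ℝ) (n : ℕ) (a b s t : ℝ) (ha : 0 < a) (hs : 0 < s) (hts : t < s) :
    ∀ᶠ L : ℝ in Filter.atTop, A * L ^ n * Real.exp (b * L ^ t) ≤ Real.exp (a * L ^ s) := by
  have h1 : ∀ᶠ L : ℝ in Filter.atTop, A ≤ a / 3 * L ^ s :=
    ((tendsto_rpow_atTop hs).const_mul_atTop (by positivity)).eventually_ge_atTop A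
  have h2 : ∀ᶠ L : ℝ in Filter.atTop, ‖Real.log L‖ ≤ (a / (3 * ((n : ℝ) + 1))) * ‖L ^ s‖ :=
    (isLittleO_log_rpow_atTop hs).bound (by positivity)
  have h3 : ∀ᶠ L : ℝ in Filter.atTop, |b| * L ^ (-(s - t)) ≤ a / 3 := by
    have := (tendsto_rpow_neg_atTop (show 0 < s - t by linarith)).const_mul |b|
    rw [mul_zero] at this
    exact this.eventually_le_const (by positivity)
  filter_upwards [Filter.eventually_ge_atTop 1, h1, h2, h3] with L hL e1 e2 e3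
  have hL0 : 0 < L := by linarith
  have hlog : 0 ≤ Real.log L := Real.log_nonneg hL
  rw [Real.norm_eq_abs, abs_of_nonneg hlog, Real.norm_eq_abs, abs_of_pos (by positivity)] at e2
  have f2 : (n : ℝ) * Real.log L ≤ a / 3 * L ^ s := by
    calc (n : ℝ) * Real.log L ≤ ((n : ℝ) + 1) * ((a / (3 * ((n : ℝ) + 1))) * L ^ s) := by
          gcongr
          linarith
      _ = a / 3 * L ^ s := by field_simp
  have f3 : b * L ^ t ≤ a / 3 * L ^ s := by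
    calc b * L ^ t ≤ |b| * L ^ t := by
          gcongr
          exact le_abs_self b
      _ = |b| * L ^ (-(s - t)) * L ^ s := by
          rw [mul_assoc, ← Real.rpow_add hL0]
          congr 2
          ring
      _ ≤ a / 3 * L ^ s := by gcongr
  have f1 : A ≤ Real.exp (a / 3 * L ^ s) := by
    have := Real.add_one_le_exp (a / 3 * L ^ s)
    linarith
  have f4 : L ^ n = Real.exp (n * Real.log L) := by
    rw [Real.exp_nat_mul, Real.exp_log hL0]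
  calc A * L ^ n * Real.exp (b * L ^ t) ≤
        Real.exp (a / 3 * L ^ s) * Real.exp (a / 3 * L ^ s) * Real.exp (a / 3 * L ^ s) := by
          rw [f4]
          gcongr
    _ = Real.exp (a * L ^ s) := by
        rw [← Real.exp_add, ← Real.exp_add]
        congr 1
        ring

private lemma NNum_ten (x : ℕ → Prop) (P : ℝ → Prop) (h : ∀ᶠ L : ℝ in Filter.atTop, P L)
    (hx : ∀ n : ℕ, P (Real.log n) → x n) : ∃ x0 : ℕ, ∀ n : ℕ, x0 ≤ n → x n := by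
  obtain ⟨x0, h0⟩ := Filter.eventually_atTop.mp (log_tend.eventually h)
  exact ⟨x0, fun n hn => hx n (h0 n hn)⟩

theorem num_q (e0 i : ℕ) (he0 : 1 ≤ e0) (hi : 1 ≤ i) : ∃ x0 : ℕ, ∀ x : ℕ, x0 ≤ x →
    (Qx x e0 i : ℝ) ^ (2 * (e0 * i)) ≤ Real.exp (Real.log x ^ (2 / 5 : ℝ) / i) / 2 ∧
    (Qx x e0 i : ℝ) < X1 x ∧ 1 ≤ Qx x e0 i := by
  have he0' : (1 : ℝ) ≤ e0 := by exact_mod_cast he0
  have hi' : (1 : ℝ) ≤ i := by exact_mod_cast hi
  have hev : ∀ᶠ L : ℝ in Filter.atTop, 1 ≤ L ∧ 2 * (i : ℝ) ≤ L ^ (2 / 5 : ℝ) :=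
    (Filter.eventually_ge_atTop 1).and
      ((tendsto_rpow_atTop (show (0 : ℝ) < 2 / 5 by norm_num)).eventually_ge_atTop _)
  refine NNum_ten _ _ hev fun x hx => ?_
  obtain ⟨hL, h2⟩ := hx
  set L := Real.log (x : ℝ) with hLdef
  have hL0 : 0 < L := by linarith
  set u := L ^ (2 / 5 : ℝ) with hu
  have hu0 : 0 < u := by positivity
  have hden : 0 < 4 * (e0 : ℝ) * (i : ℝ) ^ 2 := by positivity
  have hQ : (Qx x e0 i : ℝ) ≤ Real.exp (u / (4 * e0 * (i : ℝ) ^ 2)) := by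
    unfold Qx
    exact Nat.floor_le (Real.exp_pos _).le
  refine ⟨?_, ?_, ?_⟩
  · have h3 : (Qx x e0 i : ℝ) ^ (2 * (e0 * i)) ≤ Real.exp (u / (2 * i)) := by
      calc (Qx x e0 i : ℝ) ^ (2 * (e0 * i)) ≤
            (Real.exp (u / (4 * e0 * (i : ℝ) ^ 2))) ^ (2 * (e0 * i)) := by gcongr
        _ = Real.exp (u / (2 * i)) := by
            rw [← Real.exp_nat_mul]
            congr 1
            push_cast
            field_simp
            ring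
    have h4 : 2 ≤ Real.exp (u / (2 * i)) := by
      have h5 : 1 ≤ u / (2 * i) := by
        rw [le_div_iff₀ (by positivity)]
        linarith
      have := Real.add_one_le_exp (u / (2 * i))
      linarith
    have h5 : Real.exp (u / i) = Real.exp (u / (2 * i)) * Real.exp (u / (2 * i)) := by
      rw [← Real.exp_add]
      congr 1
      field_simp
      ring
    rw [h5]
    nlinarith
  · refine hQ.trans_lt ?_
    unfold X1
    apply Real.exp_lt_exp.mpr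
    rw [div_lt_iff₀ hden]
    have : (1 : ℝ) ≤ (i : ℝ) ^ 2 := one_le_pow₀ hi'
    have h4 : 1 < 4 * (e0 : ℝ) * (i : ℝ) ^ 2 := by nlinarith
    calc u = u * 1 := (mul_one u).symm
      _ < u * (4 * (e0 : ℝ) * (i : ℝ) ^ 2) := by gcongr
  · unfold Qx
    apply Nat.le_floor
    rw [Nat.cast_one]
    exact Real.one_le_exp (by positivity)

/-- the choice of `j` -/
private lemma NNum_j (i T Q Y : ℕ) (b : ℝ) (hb0 : 0 ≤ b) (hT : 1 ≤ T) (hQ : 1 ≤ Q) (l : ℝ)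
    (hl : 0 < l) (hY : Real.exp l ≤ Y) (hb : i * Real.log (T * Q + 1) ≤ b * l) :
    ∃ j : ℕ, 1 ≤ j ∧ (j : ℝ) ≤ b + 2 ∧ (T * Q + 1) ^ i ≤ (2 * Y) ^ j := by
  have hY0 : (0 : ℝ) < Y := (Real.exp_pos l).trans_le hY
  have hY2 : l ≤ Real.log (2 * Y) := by
    rw [Real.le_log_iff_exp_le (by positivity)]
    linarith
  refine ⟨⌈b⌉₊ + 1, by omega, ?_, ?_⟩
  · push_cast
    have := (Nat.ceil_lt_add_one hb0).le
    linarith
  · have h1 : ((T : ℝ) * Q + 1) ^ i ≤ (2 * (Y : ℝ)) ^ (⌈b⌉₊ + 1) := by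
      have e1 : ((T : ℝ) * Q + 1) ^ i = Real.exp (i * Real.log (T * Q + 1)) := by
        rw [Real.exp_nat_mul, Real.exp_log (by positivity)]
      have e2 : (2 * (Y : ℝ)) ^ (⌈b⌉₊ + 1) = Real.exp ((⌈b⌉₊ + 1 : ℕ) * Real.log (2 * Y)) := by
        rw [Real.exp_nat_mul, Real.exp_log (by positivity)]
      rw [e1, e2]
      apply Real.exp_le_exp.mpr
      refine hb.trans ?_
      have e3 : b ≤ ((⌈b⌉₊ + 1 : ℕ) : ℝ) := by
        push_cast
        have := Nat.le_ceil b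
        linarith
      gcongr
    exact_mod_cast h1

/-- the logarithms -/
private lemma NNum_log (i T Q : ℕ) (hi : 1 ≤ i) (hT : 1 ≤ T) (hQ : 1 ≤ Q) (v w : ℝ) (hv : 1 ≤ v)
    (hw : w ≤ v) (hTl : Real.log T ≤ i * (Real.log i + 2 * v)) (hQl : Real.log Q ≤ w) :
    Real.log (T * Q + 1) ≤ (i * Real.log i + 2 * i + 2) * v ∧
    1 + Real.log T ≤ (i * Real.log i + 2 * i + 2) * v := by
  have hi' : (1 : ℝ) ≤ i := by exact_mod_cast hi
  have hT' : (1 : ℝ) ≤ T := by exact_mod_cast hT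
  have hQ' : (1 : ℝ) ≤ Q := by exact_mod_cast hQ
  have hli : 0 ≤ Real.log i := Real.log_nonneg hi'
  have h1 : 0 ≤ i * Real.log i := by positivity
  have h2 : i * Real.log i ≤ i * Real.log i * v := le_mul_of_one_le_right h1 hv
  constructor
  · have h3 : Real.log (T * Q + 1) ≤ Real.log (2 * (T * Q)) := by
      apply Real.log_le_log (by positivity)
      have : (1 : ℝ) ≤ T * Q := one_le_mul_of_one_le_of_one_le hT' hQ'
      linarith
    have h4 : Real.log (2 * ((T : ℝ) * Q)) = Real.log 2 + (Real.log T + Real.log Q) := by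
      rw [Real.log_mul (by norm_num) (by positivity), Real.log_mul (by positivity) (by positivity)]
    have h5 : Real.log 2 ≤ 1 := by
      have := Real.log_two_lt_d9
      linarith
    nlinarith
  · nlinarith

/-- the small power -/
private lemma NNum_E (L a C3 C2 : ℝ) (i j : ℕ) (hL : 1 ≤ L) (ha : 0 < a) (hC2 : 0 < C2)
    (B c Q : ℝ) (hB0 : 0 ≤ B) (hB : B ≤ C3 * L ^ i)
    (hQ : Real.exp (a * L ^ (2 / 5 : ℝ)) / 2 ≤ Q) (hc : √Q ≤ c)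
    (h : 2 * C3 * L ^ i ≤ Real.exp (a / 4 * L ^ (2 / 5 : ℝ))) (hj : 1 ≤ j)
    (hj2 : (j : ℝ) ≤ C2 * L ^ (1 / 4 : ℝ)) :
    (B / c) ^ ((1 : ℝ) / j) ≤ Real.exp (-(a / (4 * C2) * L ^ (3 / 20 : ℝ))) := by
  have hL0 : 0 < L := by linarith
  have hj0 : (0 : ℝ) < j := by exact_mod_cast hj
  set u := L ^ (2 / 5 : ℝ) with hu
  have hc1 : Real.exp (a / 2 * u) / 2 ≤ c := by
    refine le_trans ?_ hc
    apply Real.le_sqrt_of_sq_le
    refine le_trans ?_ hQ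
    have : Real.exp (a * u) = Real.exp (a / 2 * u) * Real.exp (a / 2 * u) := by
      rw [← Real.exp_add]
      congr 1
      ring
    rw [this]
    have := Real.exp_pos (a / 2 * u)
    nlinarith
  have hc0 : 0 < c := lt_of_lt_of_le (by positivity) hc1
  have h1 : B / c ≤ Real.exp (-(a / 4 * u)) := by
    rw [div_le_iff₀ hc0]
    calc B ≤ C3 * L ^ i := hB
      _ = (2 * C3 * L ^ i) / 2 := by ring
      _ ≤ Real.exp (a / 4 * u) / 2 := by gcongr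
      _ = Real.exp (-(a / 4 * u)) * (Real.exp (a / 2 * u) / 2) := by
          rw [← mul_div_assoc, ← Real.exp_add]
          congr 2
          ring
      _ ≤ Real.exp (-(a / 4 * u)) * c := by gcongr
  calc (B / c) ^ ((1 : ℝ) / j) ≤ (Real.exp (-(a / 4 * u))) ^ ((1 : ℝ) / j) :=
        Real.rpow_le_rpow (by positivity) h1 (by positivity)
    _ = Real.exp (-(a / 4 * u) * (1 / j)) := (Real.exp_mul _ _).symm
    _ ≤ Real.exp (-(a / (4 * C2) * L ^ (3 / 20 : ℝ))) := by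
        apply Real.exp_le_exp.mpr
        have h2 : a / (4 * C2) * L ^ (3 / 20 : ℝ) ≤ a / 4 * u * (1 / j) := by
          rw [mul_one_div, le_div_iff₀ hj0]
          calc a / (4 * C2) * L ^ (3 / 20 : ℝ) * j ≤
                a / (4 * C2) * L ^ (3 / 20 : ℝ) * (C2 * L ^ (1 / 4 : ℝ)) := by gcongr
            _ = a / 4 * (L ^ (3 / 20 : ℝ) * L ^ (1 / 4 : ℝ)) := by
                field_simp
            _ = a / 4 * u := by
                rw [← Real.rpow_add hL0, hu]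
                norm_num
        linarith

/-- the total -/
private lemma NNum_tot (L D C2 a' : ℝ) (K i e0 j Y m : ℕ) (hL : 1 ≤ L) (hC2 : 0 < C2)
    (hY : Real.exp (L ^ (1 / 5 : ℝ)) ≤ Y)
    (hm : (2 : ℝ) ^ (2 * e0 * i * m) ≤ L ^ K)
    (hD : D = 2 ^ i * ((2 * (e0 : ℝ) * i + 1) ^ i * C2))
    (hj2 : (j : ℝ) ≤ C2 * L) (E : ℝ) (hE0 : 0 ≤ E)
    (hE : E ≤ Real.exp (-(a' * L ^ (3 / 20 : ℝ))))
    (h1 : 2 * D * L ^ (K + 1) * Real.exp (1 * L ^ (1 / 9 : ℝ)) ≤ Real.exp (1 * L ^ (1 / 5 : ℝ)))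
    (h2 : 4 * D * L ^ (K + 1) * Real.exp (1 * L ^ (1 / 9 : ℝ)) ≤
      Real.exp (a' * L ^ (3 / 20 : ℝ))) :
    2 ^ i * ((2 * (e0 : ℝ) * i + 1) ^ i * 2 ^ (2 * e0 * i * m) * (j + 2 * j * Y * E)) ≤
          Y * Real.exp (-(L ^ (1 / 9 : ℝ))) := by
  have hL0 : 0 < L := by linarith
  have hD0 : 0 < D := by
    rw [hD]
    positivity
  have hY0 : (0 : ℝ) < Y := (Real.exp_pos _).trans_le hY
  rw [one_mul] at h1
  rw [one_mul] at h1 h2
  set w := L ^ (1 / 9 : ℝ) with hw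
  have e1 : 2 ^ i * ((2 * (e0 : ℝ) * i + 1) ^ i * 2 ^ (2 * e0 * i * m) * (j + 2 * j * Y * E)) ≤
      D * L ^ (K + 1) * (1 + 2 * (Y * E)) := by
    calc 2 ^ i * ((2 * (e0 : ℝ) * i + 1) ^ i * 2 ^ (2 * e0 * i * m) * (j + 2 * j * Y * E)) =
          2 ^ i * ((2 * (e0 : ℝ) * i + 1) ^ i * 2 ^ (2 * e0 * i * m) * (j * (1 + 2 * (Y * E)))) := by
            ring
      _ ≤ 2 ^ i * ((2 * (e0 : ℝ) * i + 1) ^ i * L ^ K * (C2 * L * (1 + 2 * (Y * E)))) := by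
            gcongr
      _ = D * L ^ (K + 1) * (1 + 2 * (Y * E)) := by
            rw [hD, pow_succ]
            ring
  refine e1.trans ?_
  have e2 : D * L ^ (K + 1) * 1 ≤ Y * Real.exp (-w) / 2 := by
    have f1 : 2 * D * L ^ (K + 1) ≤ Real.exp (L ^ (1 / 5 : ℝ)) * Real.exp (-w) := by
      rw [Real.exp_neg, ← div_eq_mul_inv, le_div_iff₀ (Real.exp_pos _)]
      exact h1
    have f2 : Real.exp (L ^ (1 / 5 : ℝ)) * Real.exp (-w) ≤ Y * Real.exp (-w) := by gcongr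
    linarith
  have e3 : D * L ^ (K + 1) * (2 * (Y * E)) ≤ Y * Real.exp (-w) / 2 := by
    have f1 : 4 * D * L ^ (K + 1) * Real.exp (-(a' * L ^ (3 / 20 : ℝ))) ≤ Real.exp (-w) := by
      rw [Real.exp_neg (a' * L ^ (3 / 20 : ℝ)), ← div_eq_mul_inv, div_le_iff₀ (Real.exp_pos _),
        Real.exp_neg, inv_mul_eq_div, le_div_iff₀ (Real.exp_pos _)]
      exact h2
    calc D * L ^ (K + 1) * (2 * (Y * E)) ≤
          D * L ^ (K + 1) * (2 * (Y * Real.exp (-(a' * L ^ (3 / 20 : ℝ))))) := by gcongr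
      _ = Y * (4 * D * L ^ (K + 1) * Real.exp (-(a' * L ^ (3 / 20 : ℝ)))) / 2 := by ring
      _ ≤ Y * Real.exp (-w) / 2 := by gcongr
  calc D * L ^ (K + 1) * (1 + 2 * (Y * E)) =
        D * L ^ (K + 1) * 1 + D * L ^ (K + 1) * (2 * (Y * E)) := by ring
    _ ≤ Y * Real.exp (-w) := by linarith

theorem num_rare (e0 i : ℕ) (he0 : 1 ≤ e0) (hi : 1 ≤ i) (κ : ℝ) : ∃ x0 : ℕ, ∀ x : ℕ, x0 ≤ x →
    ∀ (T : ℕ) (c : ℝ) (Y m : ℕ), 1 ≤ T →
      Real.log T ≤ i * (Real.log i + 2 * Real.log x ^ (9 / 20 : ℝ)) →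
      √(Qx x e0 i : ℝ) ≤ c → Real.exp (Real.log x ^ (1 / 5 : ℝ)) ≤ Y → (m : ℝ) ≤ κ * LL x →
      ∃ j : ℕ, 1 ≤ j ∧ (T * Qx x e0 i + 1) ^ i ≤ (2 * Y) ^ j ∧
        2 ^ i * ((2 * (e0 : ℝ) * i + 1) ^ i * 2 ^ (2 * e0 * i * m) *
          (j + 2 * j * Y * (2 * 4 ^ i * (1 + Real.log T) ^ i / c) ^ ((1 : ℝ) / j))) ≤
          Y * Real.exp (-(Real.log x ^ (1 / 9 : ℝ))) := by
  have he0' : (1 : ℝ) ≤ e0 := by exact_mod_cast he0
  have hi' : (1 : ℝ) ≤ i := by exact_mod_cast hi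
  have hli : 0 ≤ Real.log i := Real.log_nonneg hi'
  obtain ⟨a, haD⟩ : ∃ a : ℝ, a = 1 / (4 * e0 * (i : ℝ) ^ 2) := ⟨_, rfl⟩
  have ha : 0 < a := by
    rw [haD]
    positivity
  have ha1 : a ≤ 1 := by
    rw [haD, div_le_one (by positivity)]
    have : (1 : ℝ) ≤ (i : ℝ) ^ 2 := one_le_pow₀ hi'
    nlinarith
  obtain ⟨C1, hC1D⟩ : ∃ C1 : ℝ, C1 = i * Real.log i + 2 * i + 2 := ⟨_, rfl⟩
  have hC1 : 0 < C1 := by
    rw [hC1D]
    positivity
  obtain ⟨C2, hC2D⟩ : ∃ C2 : ℝ, C2 = i * C1 + 2 := ⟨_, rfl⟩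
  have hC2 : 0 < C2 := by
    rw [hC2D]
    positivity
  obtain ⟨C3, hC3D⟩ : ∃ C3 : ℝ, C3 = 2 * 4 ^ i * C1 ^ i := ⟨_, rfl⟩
  obtain ⟨K, hK⟩ : ∃ K : ℕ, 2 * (e0 : ℝ) * i * |κ| ≤ K := exists_nat_ge _
  obtain ⟨D, hD⟩ : ∃ D : ℝ, D = 2 ^ i * ((2 * (e0 : ℝ) * i + 1) ^ i * C2) := ⟨_, rfl⟩
  have hev := (((Filter.eventually_ge_atTop (1 : ℝ)).and
      ((Real.tendsto_log_atTop.eventually_ge_atTop 0).and
      ((tendsto_rpow_atTop (show (0 : ℝ) < 2 / 5 by norm_num)).eventually_ge_atTop (1 / a)))).and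
      (NNum_asym (2 * C3) i (a / 4) 0 (2 / 5) 0 (by positivity) (by norm_num) (by norm_num))).and
      ((NNum_asym (2 * D) (K + 1) 1 1 (1 / 5) (1 / 9) (by norm_num) (by norm_num)
        (by norm_num)).and
      (NNum_asym (4 * D) (K + 1) (a / (4 * C2)) 1 (3 / 20) (1 / 9) (by positivity) (by norm_num)
        (by norm_num)))
  refine NNum_ten _ _ hev fun x hx => ?_
  obtain ⟨⟨⟨hL, hLL, hu⟩, h3⟩, h4, h5⟩ := hx
  intro T c Y m hT hTl hc hY hm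
  have hLLx : LL x = Real.log (Real.log x) := rfl
  rw [hLLx] at hm
  have hQdef : Qx x e0 i = ⌊Real.exp (a * Real.log x ^ (2 / 5 : ℝ))⌋₊ := by
    unfold Qx
    rw [haD]
    congr 2
    ring
  rw [hQdef] at hc ⊢
  generalize Real.log (x : ℝ) = L at *
  clear hQdef hLLx
  have hL0 : 0 < L := by linarith
  rw [zero_mul, Real.exp_zero, mul_one] at h3
  have hau : 1 ≤ a * L ^ (2 / 5 : ℝ) := by
    rw [div_le_iff₀ ha] at hu
    linarith
  have hexp2 : 2 ≤ Real.exp (a * L ^ (2 / 5 : ℝ)) := by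
    have := Real.add_one_le_exp (a * L ^ (2 / 5 : ℝ))
    linarith
  have hQle : (⌊Real.exp (a * L ^ (2 / 5 : ℝ))⌋₊ : ℝ) ≤ Real.exp (a * L ^ (2 / 5 : ℝ)) :=
    Nat.floor_le (Real.exp_pos _).le
  have hQge : Real.exp (a * L ^ (2 / 5 : ℝ)) / 2 ≤ (⌊Real.exp (a * L ^ (2 / 5 : ℝ))⌋₊ : ℝ) := by
    have := Nat.lt_floor_add_one (Real.exp (a * L ^ (2 / 5 : ℝ)))
    linarith
  generalize ⌊Real.exp (a * L ^ (2 / 5 : ℝ))⌋₊ = Q at *
  have hQ1 : 1 ≤ Q := by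
    have : (1 : ℝ) ≤ Q := by linarith
    exact_mod_cast this
  have hv : 1 ≤ L ^ (9 / 20 : ℝ) := Real.one_le_rpow hL (by norm_num)
  have hw : a * L ^ (2 / 5 : ℝ) ≤ L ^ (9 / 20 : ℝ) := by
    calc a * L ^ (2 / 5 : ℝ) ≤ 1 * L ^ (9 / 20 : ℝ) := by
          have : L ^ (2 / 5 : ℝ) ≤ L ^ (9 / 20 : ℝ) :=
            Real.rpow_le_rpow_of_exponent_le hL (by norm_num)
          gcongr
      _ = _ := one_mul _
  have hQl : Real.log Q ≤ a * L ^ (2 / 5 : ℝ) := by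
    rw [Real.log_le_iff_le_exp (by exact_mod_cast hQ1)]
    exact hQle
  obtain ⟨g1, g2⟩ := NNum_log i T Q hi hT hQ1 (L ^ (9 / 20 : ℝ)) _ hv hw hTl hQl
  rw [← hC1D] at g1 g2
  have hb : i * Real.log (T * Q + 1) ≤ (i * C1 * L ^ (1 / 4 : ℝ)) * L ^ (1 / 5 : ℝ) := by
    rw [mul_assoc (i * C1), ← Real.rpow_add hL0, mul_assoc]
    norm_num only [show (1 / 4 : ℝ) + 1 / 5 = 9 / 20 by norm_num]
    gcongr
  obtain ⟨j, hj1, hj2, hj3⟩ := NNum_j i T Q Y (i * C1 * L ^ (1 / 4 : ℝ)) (by positivity) hT hQ1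
    (L ^ (1 / 5 : ℝ)) (by positivity) hY hb
  have hq1 : 1 ≤ L ^ (1 / 4 : ℝ) := Real.one_le_rpow hL (by norm_num)
  have hj4 : (j : ℝ) ≤ C2 * L ^ (1 / 4 : ℝ) := by
    rw [hC2D]
    nlinarith
  have hj5 : (j : ℝ) ≤ C2 * L := by
    refine hj4.trans ?_
    have : L ^ (1 / 4 : ℝ) ≤ L := by
      calc L ^ (1 / 4 : ℝ) ≤ L ^ (1 : ℝ) := Real.rpow_le_rpow_of_exponent_le hL (by norm_num)
        _ = L := Real.rpow_one L
    gcongr
  have hlT : 0 ≤ Real.log T := Real.log_natCast_nonneg T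
  have hB0 : 0 ≤ 2 * 4 ^ i * (1 + Real.log T) ^ i := by positivity
  have hB : 2 * 4 ^ i * (1 + Real.log T) ^ i ≤ C3 * L ^ i := by
    rw [hC3D]
    have h6 : 1 + Real.log T ≤ C1 * L := by
      refine g2.trans ?_
      have : L ^ (9 / 20 : ℝ) ≤ L := by
        calc L ^ (9 / 20 : ℝ) ≤ L ^ (1 : ℝ) := Real.rpow_le_rpow_of_exponent_le hL (by norm_num)
          _ = L := Real.rpow_one L
      gcongr
    calc 2 * 4 ^ i * (1 + Real.log T) ^ i ≤ 2 * 4 ^ i * (C1 * L) ^ i := by gcongr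
      _ = 2 * 4 ^ i * C1 ^ i * L ^ i := by
          rw [mul_pow]
          ring
  have hE := NNum_E L a C3 C2 i j hL ha hC2 _ c Q hB0 hB hQge hc h3 hj1 hj4
  have hmK : (2 : ℝ) ^ (2 * e0 * i * m) ≤ L ^ K := by
    have f1 : (2 : ℝ) ≤ Real.exp 1 := by
      have := Real.add_one_le_exp (1 : ℝ)
      linarith
    have f2 : (2 : ℝ) ^ (2 * e0 * i * m) ≤ Real.exp ((2 * e0 * i * m : ℕ) * 1) := by
      rw [Real.exp_nat_mul]
      gcongr
    refine f2.trans ?_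
    have f3 : L ^ K = Real.exp (K * Real.log L) := by
      rw [Real.exp_nat_mul, Real.exp_log hL0]
    rw [f3]
    apply Real.exp_le_exp.mpr
    push_cast
    rw [mul_one]
    have f4 : (m : ℝ) ≤ |κ| * Real.log L := by
      refine hm.trans ?_
      gcongr
      exact le_abs_self κ
    calc 2 * (e0 : ℝ) * i * m ≤ 2 * (e0 : ℝ) * i * (|κ| * Real.log L) := by gcongr
      _ = (2 * (e0 : ℝ) * i * |κ|) * Real.log L := by ring
      _ ≤ K * Real.log L := by gcongr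
  have hc0 : 0 ≤ c := (Real.sqrt_nonneg _).trans hc
  exact ⟨j, hj1, hj3, NNum_tot L D C2 (a / (4 * C2)) K i e0 j Y m hL hC2 hY hmK hD hj5 _
    (by positivity) hE h4 h5⟩

end Pool.Agent.Lib.MP_79499b_co.DZ
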