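import Pool.Agent.Lib.SW.SC.PIA

/-!
# NPH: primes in (Q/2, Q]

By `PIA_theta` (in `Pool.Agent.Lib.SW.SC.PIA`: `Chebyshev.theta x / x → 1`),
`∑_{Q/2 < p ≤ Q} log p = theta Q - theta (Q/2) ≥ Q/4` for large `Q`, and each `log p ≤ log Q`.
-/

set_option autoImplicit false

open NumberField
open scoped Pointwise

namespace Pool.Agent.Lib.MP_79499b_co.DZ

theorem primes_half : ∃ Q0 : ℕ, ∀ Q : ℕ, Q0 ≤ Q →
    (Q : ℝ) / (4 * Real.log Q) ≤
      (((Finset.Icc 1 Q).filter (fun q => q.Prime ∧ Q < 2 * q)).card : ℝ) := by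
  have h1 : ∀ᶠ x : ℝ in Filter.atTop, |Chebyshev.theta x / x - 1| < 1 / 8 := by
    have h2 := (Metric.tendsto_nhds.mp Pool.Agent.Lib.SW.PIA_theta) (1 / 8) (by norm_num)
    filter_upwards [h2] with x hx
    rwa [Real.dist_eq] at hx
  obtain ⟨x0, hx0⟩ := Filter.eventually_atTop.mp h1
  refine ⟨2 * (⌈|x0|⌉₊ + 2), fun Q hQ => ?_⟩
  have hQ1 : 2 * |x0| + 4 ≤ (Q : ℝ) := by
    have h3 : (2 * (⌈|x0|⌉₊ + 2) : ℝ) ≤ (Q : ℝ) := by exact_mod_cast hQ
    have h4 := Nat.le_ceil |x0|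
    linarith
  have hx00 := abs_nonneg x0
  have hx01 := le_abs_self x0
  have hQ0 : (0 : ℝ) < Q := by linarith
  have a1 := hx0 (Q : ℝ) (by linarith)
  have a2 := hx0 ((Q : ℝ) / 2) (by linarith)
  rw [abs_lt] at a1 a2
  have b1 : (7 / 8 : ℝ) * Q < Chebyshev.theta (Q : ℝ) := by
    have h3 : 7 / 8 < Chebyshev.theta (Q : ℝ) / Q := by linarith [a1.1]
    rwa [lt_div_iff₀ hQ0] at h3
  have b2 : Chebyshev.theta ((Q : ℝ) / 2) < (9 / 8 : ℝ) * (Q / 2) := by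
    have h3 : Chebyshev.theta ((Q : ℝ) / 2) / ((Q : ℝ) / 2) < 9 / 8 := by linarith [a2.2]
    rwa [div_lt_iff₀ (by linarith)] at h3
  have hlog : 0 < Real.log Q := Real.log_pos (by linarith)
  have hfl : ⌊(Q : ℝ) / 2⌋₊ = Q / 2 := by
    have := Nat.floor_div_natCast (Q : ℝ) 2
    simpa using this
  have c1 : Chebyshev.theta (Q : ℝ) = Chebyshev.theta ((Q : ℝ) / 2) +
      ∑ p ∈ (Finset.Icc 1 Q).filter (fun q => q.Prime ∧ Q < 2 * q), Real.log p := by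
    unfold Chebyshev.theta
    rw [hfl, Nat.floor_natCast, ← Finset.sum_union]
    · refine Finset.sum_congr ?_ fun _ _ => rfl
      ext p
      simp only [Finset.mem_filter, Finset.mem_Ioc, Finset.mem_union, Finset.mem_Icc]
      constructor
      · rintro ⟨⟨h3, h4⟩, h5⟩
        by_cases h6 : p ≤ Q / 2
        · exact Or.inl ⟨⟨h3, h6⟩, h5⟩
        · exact Or.inr ⟨⟨h3, h4⟩, h5, by omega⟩
      · rintro (⟨⟨h3, h4⟩, h5⟩ | ⟨⟨h3, h4⟩, h5, h6⟩)
        · exact ⟨⟨h3, by omega⟩, h5⟩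
        · exact ⟨⟨h3, h4⟩, h5⟩
    · rw [Finset.disjoint_left]
      intro p hp hp'
      simp only [Finset.mem_filter, Finset.mem_Ioc, Finset.mem_Icc] at hp hp'
      omega
  have c2 : ∑ p ∈ (Finset.Icc 1 Q).filter (fun q => q.Prime ∧ Q < 2 * q), Real.log p ≤
      (((Finset.Icc 1 Q).filter (fun q => q.Prime ∧ Q < 2 * q)).card : ℝ) * Real.log Q := by
    rw [← nsmul_eq_mul]
    refine Finset.sum_le_card_nsmul _ _ _ fun p hp => ?_
    simp only [Finset.mem_filter, Finset.mem_Icc] at hp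
    have h3 : (0 : ℝ) < (p : ℝ) := by exact_mod_cast hp.1.1
    have h4 : (p : ℝ) ≤ (Q : ℝ) := by exact_mod_cast hp.1.2
    exact Real.log_le_log h3 h4
  rw [div_le_iff₀ (by positivity)]
  nlinarith

end Pool.Agent.Lib.MP_79499b_co.DZ
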