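import Pool.Agent.Lib.MP_79499b_co.DZ.LD
import Pool.Agent.Lib.MP_79499b_co.DZ.NDef

/-!
# NPar: the parameters of part (N)

`Qx x e0 i = ⌊exp ((log x)^(2/5) / (4 e0 i^2))⌋`: the size of the split primes `q`.
`SpS Q w1 w2 r1 r2`: the primes `q` in `(Q/2, Q]` with `q^r1 = 1` mod `w1`, `q^r2 = 1` mod `w2`.
`SX e0 c1 c2 x`: the exceptional pairs: `w1 ≠ w2` primes of the range, `c_i ∣ w_i - 1`, with fewer than
`√Q` split primes, `Q = Qx x e0 (c1*c2)`, `r_i = (w_i - 1)/c_i`.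
`Z1 x = exp ((log x)^(1/4))`.
`GPair c1 c2 x w1 w2 r1 r2`: the conditions on the pair used in part (N), except for `SX`.
-/

set_option autoImplicit false

open NumberField
open scoped Pointwise

namespace Pool.Agent.Lib.MP_79499b_co.DZ

/-- the size of the split primes -/
noncomputable def Qx (x e0 i : ℕ) : ℕ :=
  ⌊Real.exp (Real.log x ^ (2 / 5 : ℝ) / (4 * e0 * (i : ℝ) ^ 2))⌋₊

open scoped Classical in
/-- the split primes in `(Q/2, Q]` -/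
noncomputable def SpS (Q w1 w2 r1 r2 : ℕ) : Finset ℕ :=
  (Finset.Icc 1 Q).filter (fun q => q.Prime ∧ Q < 2 * q ∧ (q : ZMod w1) ^ r1 = 1 ∧
    (q : ZMod w2) ^ r2 = 1)

open scoped Classical in
/-- the exceptional pairs -/
noncomputable def SX (e0 c1 c2 x : ℕ) : Finset (ℕ × ℕ) :=
  ((RR x) ×ˢ (RR x)).filter (fun w => w.1 ≠ w.2 ∧ c1 ∣ w.1 - 1 ∧ c2 ∣ w.2 - 1 ∧
    ((SpS (Qx x e0 (c1 * c2)) w.1 w.2 ((w.1 - 1) / c1) ((w.2 - 1) / c2)).card : ℝ) <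
      √(Qx x e0 (c1 * c2) : ℝ))

/-- the threshold for the large bad prime -/
noncomputable def Z1 (x : ℕ) : ℝ := Real.exp (Real.log x ^ (1 / 4 : ℝ))

/-- the conditions on the pair `(w1, w2)` -/
def GPair (c1 c2 x w1 w2 r1 r2 : ℕ) : Prop :=
  Rg x w1 ∧ Rg x w2 ∧ w1 ≠ w2 ∧ w1 = c1 * r1 + 1 ∧ w2 = c2 * r2 + 1 ∧
    Nat.Coprime r1 (c1 * c2) ∧ Nat.Coprime r2 (c1 * c2) ∧ Nat.Coprime r1 r2

end Pool.Agent.Lib.MP_79499b_co.DZ
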