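import Pool.Agent.Lib.MP_79499b_co.DZ.NTr

/-!
# NSpl: splitting in the fixed field of a group containing the decomposition group

Proof of `split_descend`: let `P` be a prime ideal of `𝓞 K` over `p` with stabilizer contained in `D`,
`𝔭 = P ∩ 𝓞 L`, `L = fixedField D`. (1) `𝔭` is prime (comap). (2) Let `σ` be a Frobenius element at `P`
(`IsArithFrobAt.exists_of_isInvariant` over `ℤ`: `σ x - x^p ∈ P` for all `x ∈ 𝓞 K`, the residue field of
`ℤ` at `P ∩ ℤ = (p)` has `p` elements; `IsArithFrobAt.mem_stabilizer`: `σ P = P`). So `σ ∈ D`, and for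
`x ∈ 𝓞 L` we get `x - x^p ∈ P`, i.e. `x^p - x ∈ 𝔭`: `N(𝔭) = p` by `absNorm_eq_of_frob`.
(3) Let `τ 𝔭 = 𝔭`, `σ` a lift of `τ` (`lf_lift`). `σ P ∩ 𝓞 L = τ 𝔭 = 𝔭`, so by `primes_transitive_rel` there
is `δ ∈ D` with `δ P = σ P`; then `δ⁻¹ σ` fixes `P`, so it is in `D`, `σ ∈ D` and `τ = 1` (`lf_lift`).
-/

set_option autoImplicit false

open NumberField
open scoped Pointwise

namespace Pool.Agent.Lib.MP_79499b_co.DZ

private theorem nspl_under (L : Type) [Field L] [NumberField L] (p : ℕ)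
    (hp : p.Prime) (P : Ideal (𝓞 L)) (hP : P.IsPrime) (h1 : (p : 𝓞 L) ∈ P) :
    P.under ℤ = Ideal.span {(p : ℤ)} := by
  have hmax : (Ideal.span {(p : ℤ)}).IsMaximal :=
    PrincipalIdealRing.isMaximal_of_irreducible (Nat.prime_iff_prime_int.1 hp).irreducible
  have hle : Ideal.span {(p : ℤ)} ≤ P.under ℤ := by
    rw [Ideal.span_singleton_le_iff_mem, Ideal.mem_comap]
    simpa using h1
  have hne : P.under ℤ ≠ ⊤ := by
    intro h
    have : (1 : ℤ) ∈ P.under ℤ := by rw [h]; trivial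
    rw [Ideal.mem_comap, map_one] at this
    exact hP.ne_top ((Ideal.eq_top_iff_one P).2 this)
  exact (hmax.eq_of_le hne hle).symm

theorem split_descend (K : Type) [Field K] [NumberField K] [IsGalois ℚ K]
    (hcomm : ∀ σ τ : K ≃ₐ[ℚ] K, σ * τ = τ * σ) (D : Subgroup (K ≃ₐ[ℚ] K))
    (P : Ideal (𝓞 K)) (hP : P.IsPrime) (p : ℕ) (hp : p.Prime) (hpP : (p : 𝓞 K) ∈ P)
    (hD : ∀ τ : K ≃ₐ[ℚ] K, τ • P = P → τ ∈ D) :
    (P.comap (algebraMap (𝓞 (IntermediateField.fixedField D)) (𝓞 K))).IsPrime ∧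
    Ideal.absNorm (P.comap (algebraMap (𝓞 (IntermediateField.fixedField D)) (𝓞 K))) = p ∧
    (∀ τ : (IntermediateField.fixedField D) ≃ₐ[ℚ] (IntermediateField.fixedField D),
      τ • (P.comap (algebraMap (𝓞 (IntermediateField.fixedField D)) (𝓞 K))) =
        P.comap (algebraMap (𝓞 (IntermediateField.fixedField D)) (𝓞 K)) → τ = 1) := by
  haveI := hP
  have hP0 : P ≠ ⊥ := by
    rintro rfl
    rw [Ideal.mem_bot] at hpP
    exact hp.ne_zero (by exact_mod_cast hpP)
  haveI hfin : Finite (𝓞 K ⧸ P) := Ideal.finiteQuotientOfFreeOfNeBot P hP0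
  have h1 : (P.comap (algebraMap (𝓞 (IntermediateField.fixedField D)) (𝓞 K))).IsPrime :=
    Ideal.comap_isPrime _ _
  refine ⟨h1, ?_, ?_⟩
  · refine absNorm_eq_of_frob _ p hp _ h1 ?_ (fun x => ?_)
    · rw [Ideal.mem_comap, map_natCast]
      exact hpP
    · obtain ⟨σ, hσ⟩ := IsArithFrobAt.exists_of_isInvariant ℤ (K ≃ₐ[ℚ] K) P
      have hst : σ • P = P := MulAction.mem_stabilizer_iff.1 hσ.mem_stabilizer
      have hσD : σ ∈ D := hD σ hst
      have hx := hσ (algebraMap (𝓞 (IntermediateField.fixedField D)) (𝓞 K) x)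
      have hcard : Nat.card (ℤ ⧸ P.under ℤ) = p := by
        rw [nspl_under K p hp P hP hpP]
        rw [Nat.card_congr (Int.quotientSpanNatEquivZMod p).toEquiv, Nat.card_zmod]
      rw [hcard] at hx
      have hfix : (MulSemiringAction.toAlgHom ℤ (𝓞 K) σ)
          (algebraMap (𝓞 (IntermediateField.fixedField D)) (𝓞 K) x) =
          algebraMap (𝓞 (IntermediateField.fixedField D)) (𝓞 K) x := by
        apply RingOfIntegers.ext
        exact (x : IntermediateField.fixedField D).2 ⟨σ, hσD⟩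
      rw [hfix] at hx
      rw [Ideal.mem_comap, map_sub, map_pow]
      have := P.neg_mem hx
      rwa [neg_sub] at this
  · intro τ hτ
    obtain ⟨σ, hσ, hσD⟩ := lf_lift K hcomm D τ
    have hinv : ∀ y : 𝓞 (IntermediateField.fixedField D),
        σ⁻¹ • (algebraMap (𝓞 (IntermediateField.fixedField D)) (𝓞 K) y) =
        algebraMap (𝓞 (IntermediateField.fixedField D)) (𝓞 K) (τ⁻¹ • y) := by
      intro y
      rw [inv_smul_eq_iff]
      apply RingOfIntegers.ext
      have h3 := hσ ((τ⁻¹ • y : 𝓞 (IntermediateField.fixedField D)) : IntermediateField.fixedField D)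
      have h4 : τ ((τ⁻¹ • y : 𝓞 (IntermediateField.fixedField D)) : IntermediateField.fixedField D) =
          (y : IntermediateField.fixedField D) := by
        have h5 : ((τ⁻¹ • y : 𝓞 (IntermediateField.fixedField D)) : IntermediateField.fixedField D) =
            τ⁻¹ (y : IntermediateField.fixedField D) := rfl
        rw [h5]
        exact τ.apply_symm_apply _
      rw [h4] at h3
      exact h3.symm
    have hcomap : (σ • P).comap (algebraMap (𝓞 (IntermediateField.fixedField D)) (𝓞 K)) =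
        P.comap (algebraMap (𝓞 (IntermediateField.fixedField D)) (𝓞 K)) := by
      rw [← hτ]
      ext y
      rw [Ideal.mem_comap, Ideal.mem_pointwise_smul_iff_inv_smul_mem, hinv y,
        Ideal.mem_pointwise_smul_iff_inv_smul_mem, Ideal.mem_comap]
    haveI hσP : (σ • P).IsPrime := inferInstance
    obtain ⟨δ, hδ, hδP⟩ := primes_transitive_rel K D P (σ • P) hP hσP hcomap.symm
    refine hσD ?_
    have h6 : (δ⁻¹ * σ) • P = P := by rw [mul_smul, ← hδP, inv_smul_smul]
    have h7 := D.mul_mem hδ (hD _ h6)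
    rwa [mul_inv_cancel_left] at h7

end Pool.Agent.Lib.MP_79499b_co.DZ
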