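import Pool.Agent.Lib.MP_79499b_co.DZ.NCyc
import Pool.Agent.Lib.MP_79499b_co.DZ.NSpl

/-!
# NQ: splitting and ramification in K = KF F (r1 r2)

* `split_KF`: let `q` be a prime not dividing `w1 w2` with `q^r1 = 1` mod `w1` and `q^r2 = 1` mod `w2`. Let `𝔔`
  be a prime ideal of `𝓞 F` containing `q`, `P = 𝔔 ∩ 𝓞 K`. The stabilizer of `𝔔` is generated by the
  automorphism `σ_q` corresponding to `q ∈ (ZMod W)ˣ` (`IsCyclotomicExtension.Rat.galEquivZMod_stabilizer`),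
  and `σ_q^(r1 r2) = 1` because `q^(r1 r2) = 1` mod `w1 w2`; so the stabilizer is contained in
  `Mgp F (r1*r2)`. Now `split_descend` with `K := F`, `D := Mgp F (r1*r2)`, `P := 𝔔` gives that `P` is prime
  and has trivial stabilizer: `SplitIn K q`.
* `unram_KF`: let `p` be a prime not dividing `w1 w2`, `P` a prime ideal of `𝓞 K` with `p ∈ P^2`. Take a prime
  ideal `𝔔` of `𝓞 F` over `P` (`Ideal.exists_ideal_over_prime_of_isIntegral`); then `p ∈ 𝔔^2`, so the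
  ramification index of `𝔔` over `p` is at least 2, contradicting
  `IsCyclotomicExtension.Rat.ramificationIdx_eq_of_not_dvd`.
-/

set_option autoImplicit false

open NumberField
open scoped Pointwise

namespace Pool.Agent.Lib.MP_79499b_co.DZ

attribute [local instance] cyc_inst

private lemma nq_pow_one (w1 w2 r1 r2 q : ℕ) (hcop : Nat.Coprime w1 w2)
    (hq1 : (q : ZMod w1) ^ r1 = 1) (hq2 : (q : ZMod w2) ^ r2 = 1) :
    ((q : ℕ) : ZMod (w1 * w2)) ^ (r1 * r2) = 1 := by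
  have a1 : q ^ (r1 * r2) ≡ 1 [MOD w1] := by
    rw [← ZMod.natCast_eq_natCast_iff]
    push_cast
    rw [pow_mul, hq1, one_pow]
  have a2 : q ^ (r1 * r2) ≡ 1 [MOD w2] := by
    rw [← ZMod.natCast_eq_natCast_iff]
    push_cast
    rw [mul_comm r1 r2, pow_mul, hq2, one_pow]
  have a3 : q ^ (r1 * r2) ≡ 1 [MOD w1 * w2] := (Nat.modEq_and_modEq_iff_modEq_mul hcop).1 ⟨a1, a2⟩
  have a4 := (ZMod.natCast_eq_natCast_iff _ _ (w1 * w2)).2 a3
  push_cast at a4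
  exact a4

theorem split_KF (w1 w2 r1 r2 q : ℕ) (h1 : w1.Prime) (h2 : w2.Prime) (hne : w1 ≠ w2)
    (hq : q.Prime) (hqw : ¬ q ∣ w1 * w2) (hq1 : (q : ZMod w1) ^ r1 = 1)
    (hq2 : (q : ZMod w2) ^ r2 = 1) :
    SplitIn (KF (CyclotomicField (w1 * w2) ℚ) (r1 * r2)) q := by
  haveI : NeZero (w1 * w2) := ⟨(Nat.mul_pos h1.pos h2.pos).ne'⟩
  haveI : Fact q.Prime := ⟨hq⟩
  have hcop : Nat.Coprime w1 w2 := (Nat.coprime_primes h1 h2).2 hne
  have hqc : q.Coprime (w1 * w2) := (Nat.Prime.coprime_iff_not_dvd hq).2 hqw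
  haveI : IsGalois ℚ (CyclotomicField (w1 * w2) ℚ) := cyc_galois (w1 * w2)
  haveI hm : (Ideal.span {(q : ℤ)}).IsMaximal :=
    Int.ideal_span_isMaximal_of_prime q
  obtain ⟨Q, hQm, hQl⟩ := Ideal.exists_maximal_ideal_liesOver_of_isIntegral
    (S := 𝓞 (CyclotomicField (w1 * w2) ℚ)) (Ideal.span {(q : ℤ)})
  have hqQ : ((q : ℕ) : 𝓞 (CyclotomicField (w1 * w2) ℚ)) ∈ Q := by
    have h3 : (q : ℤ) ∈ Ideal.comap (algebraMap ℤ (𝓞 (CyclotomicField (w1 * w2) ℚ))) Q := by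
      rw [← Ideal.under_def, ← hQl.over]
      exact Ideal.mem_span_singleton_self _
    rw [Ideal.mem_comap] at h3
    simpa using h3
  have hD : ∀ τ : CyclotomicField (w1 * w2) ℚ ≃ₐ[ℚ] CyclotomicField (w1 * w2) ℚ, τ • Q = Q →
      τ ∈ Mgp (CyclotomicField (w1 * w2) ℚ) (r1 * r2) := by
    intro τ hτ
    have h4 := IsCyclotomicExtension.Rat.mem_zpowers_galEquivZMod_of_mem_stabilizer (w1 * w2)
      (CyclotomicField (w1 * w2) ℚ) q Q hqc (σ := τ) (MulAction.mem_stabilizer_iff.2 hτ)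
    refine Subgroup.subset_closure ?_
    show τ ^ (r1 * r2) = 1
    apply (IsCyclotomicExtension.Rat.galEquivZMod (w1 * w2) (CyclotomicField (w1 * w2) ℚ)).injective
    rw [map_pow, map_one]
    obtain ⟨i, hi⟩ := Subgroup.mem_zpowers_iff.1 h4
    rw [← hi, ← zpow_natCast, ← zpow_mul, mul_comm i, zpow_mul, zpow_natCast]
    have h5 : ZMod.unitOfCoprime q hqc ^ (r1 * r2) = 1 := by
      ext
      rw [Units.val_pow_eq_pow_val, ZMod.coe_unitOfCoprime, Units.val_one]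
      exact nq_pow_one w1 w2 r1 r2 q hcop hq1 hq2
    rw [h5, one_zpow]
  obtain ⟨hP1, _, hP3⟩ := split_descend (CyclotomicField (w1 * w2) ℚ) (cyc_comm (w1 * w2))
    (Mgp (CyclotomicField (w1 * w2) ℚ) (r1 * r2)) Q hQm.isPrime q hq hqQ hD
  refine ⟨_, hP1, ?_, hP3⟩
  rw [Ideal.mem_comap, map_natCast]
  exact hqQ

theorem unram_KF (w1 w2 r p : ℕ) (h1 : w1.Prime) (h2 : w2.Prime) (hne : w1 ≠ w2)
    (hp : p.Prime) (hpw : ¬ p ∣ w1 * w2) :
    Unram (KF (CyclotomicField (w1 * w2) ℚ) r) p := by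
  haveI : NeZero (w1 * w2) := ⟨(Nat.mul_pos h1.pos h2.pos).ne'⟩
  haveI : Fact p.Prime := ⟨hp⟩
  intro P hP hpP hpP2
  haveI := hP
  have hinj : Function.Injective (algebraMap (𝓞 (KF (CyclotomicField (w1 * w2) ℚ) r))
      (𝓞 (CyclotomicField (w1 * w2) ℚ))) := FaithfulSMul.algebraMap_injective _ _
  obtain ⟨Q, _, hQp, hQc⟩ := Ideal.exists_ideal_over_prime_of_isIntegral
    (S := 𝓞 (CyclotomicField (w1 * w2) ℚ)) P ⊥ (by
      rw [← RingHom.ker_eq_comap_bot, (RingHom.injective_iff_ker_eq_bot _).1 hinj]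
      exact bot_le)
  haveI := hQp
  have hpQ2 : ((p : ℕ) : 𝓞 (CyclotomicField (w1 * w2) ℚ)) ∈ Q ^ 2 := by
    have h3 : P.map (algebraMap (𝓞 (KF (CyclotomicField (w1 * w2) ℚ) r))
        (𝓞 (CyclotomicField (w1 * w2) ℚ))) ≤ Q := by
      rw [Ideal.map_le_iff_le_comap, hQc]
    have h4 := Ideal.mem_map_of_mem (algebraMap (𝓞 (KF (CyclotomicField (w1 * w2) ℚ) r))
        (𝓞 (CyclotomicField (w1 * w2) ℚ))) hpP2
    rw [Ideal.map_pow, map_natCast] at h4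
    exact Ideal.pow_right_mono h3 2 h4
  have hpQ : ((p : ℕ) : 𝓞 (CyclotomicField (w1 * w2) ℚ)) ∈ Q :=
    Ideal.pow_le_self two_ne_zero hpQ2
  haveI hm : (Ideal.span {(p : ℤ)}).IsMaximal := Int.ideal_span_isMaximal_of_prime p
  haveI hl : Q.LiesOver (Ideal.span {(p : ℤ)}) := by
    constructor
    refine hm.eq_of_le ?_ ?_
    · exact (Ideal.IsPrime.comap (algebraMap ℤ (𝓞 (CyclotomicField (w1 * w2) ℚ)))).ne_top
    · rw [Ideal.span_singleton_le_iff_mem, Ideal.under_def, Ideal.mem_comap]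
      simpa using hpQ
  have h5 := IsCyclotomicExtension.Rat.ramificationIdx_eq_of_not_dvd p
    (CyclotomicField (w1 * w2) ℚ) Q hpw
  have hmap : (Ideal.span {(p : ℤ)}).map (algebraMap ℤ (𝓞 (CyclotomicField (w1 * w2) ℚ))) =
      Ideal.span {((p : ℕ) : 𝓞 (CyclotomicField (w1 * w2) ℚ))} := by
    rw [Ideal.map_span, Set.image_singleton]
    simp
  have hp0 : ((p : ℕ) : 𝓞 (CyclotomicField (w1 * w2) ℚ)) ≠ 0 := Nat.cast_ne_zero.2 hp.ne_zero
  have hne0 : (Ideal.span {(p : ℤ)}).map (algebraMap ℤ (𝓞 (CyclotomicField (w1 * w2) ℚ))) ≠ ⊥ := by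
    rw [hmap, Ne, Ideal.span_singleton_eq_bot]
    exact hp0
  rw [Ideal.IsDedekindDomain.ramificationIdx_eq_multiplicity (Ideal.span {(p : ℤ)}) Q hne0, hmap] at h5
  have hdvd : Q ^ 2 ∣ Ideal.span {((p : ℕ) : 𝓞 (CyclotomicField (w1 * w2) ℚ))} := by
    rw [Ideal.dvd_span_singleton]
    exact hpQ2
  have hfin : FiniteMultiplicity Q (Ideal.span {((p : ℕ) : 𝓞 (CyclotomicField (w1 * w2) ℚ))}) := by
    refine FiniteMultiplicity.of_prime_left ?_ ?_
    · refine Ideal.prime_of_isPrime ?_ hQp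
      intro hb
      rw [hb] at hpQ
      exact hp0 (Ideal.mem_bot.1 hpQ)
    · rw [← hmap]; exact hne0
  have h6 := hfin.le_multiplicity_of_pow_dvd hdvd
  omega

end Pool.Agent.Lib.MP_79499b_co.DZ
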