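import Pool.Agent.Lib.MP_79499b_co.DZ.NRar

/-!
# NRSum: the sum of 1/p over the bad primes

Proof. Split `R` into the dyadic blocks `2^k < p ≤ 2^(k+1)`, `Y = 2^k`: for `p > Z1 x = exp(L^(1/4))` we have
`Y ≥ p/2 ≥ exp(L^(1/4))/2 ≥ exp(L^(1/5))` for `x` large, and `Y < p ≤ x`. In each block `rare_prime` gives at
most `Y exp(-L^(1/9))` primes, each with `1/p ≤ 1/Y`, so the block contributes at most `exp(-L^(1/9))`; there
are at most `1 + log x / log 2` blocks: total `≤ (1 + L/log 2) exp(-L^(1/9)) ≤ exp(-L^(1/10))` for `x` large.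
-/

set_option autoImplicit false

open NumberField
open scoped Pointwise

namespace Pool.Agent.Lib.MP_79499b_co.DZ

private theorem nrsum_num1 : ∀ᶠ L : ℝ in Filter.atTop,
    Real.exp (L ^ (1 / 5 : ℝ)) ≤ Real.exp (L ^ (1 / 4 : ℝ)) / 2 := by
  filter_upwards [Filter.eventually_ge_atTop ((2 : ℝ) ^ 20)] with L hL
  have hL0 : (0 : ℝ) < L := lt_of_lt_of_le (by positivity) hL
  have h1 : (2 : ℝ) ≤ L ^ (1 / 20 : ℝ) := by
    have h2 : ((2 : ℝ) ^ 20) ^ (1 / 20 : ℝ) ≤ L ^ (1 / 20 : ℝ) :=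
      Real.rpow_le_rpow (by positivity) hL (by norm_num)
    have h3 : ((2 : ℝ) ^ 20) ^ (1 / 20 : ℝ) = 2 := by
      rw [← Real.rpow_natCast, ← Real.rpow_mul (by norm_num)]
      norm_num
    rw [h3] at h2
    exact h2
  have h4 : L ^ (1 / 4 : ℝ) = L ^ (1 / 5 : ℝ) * L ^ (1 / 20 : ℝ) := by
    rw [← Real.rpow_add hL0]
    norm_num
  have h5 : (1 : ℝ) ≤ L ^ (1 / 5 : ℝ) := by
    apply Real.one_le_rpow _ (by norm_num)
    linarith [show (1 : ℝ) ≤ 2 ^ 20 by norm_num]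
  have h6 : L ^ (1 / 5 : ℝ) + Real.log 2 ≤ L ^ (1 / 4 : ℝ) := by
    have h7 := Real.log_two_lt_d9
    rw [h4]
    nlinarith
  have h8 : Real.exp (L ^ (1 / 5 : ℝ)) * 2 = Real.exp (L ^ (1 / 5 : ℝ) + Real.log 2) := by
    rw [Real.exp_add, Real.exp_log (by norm_num)]
  rw [le_div_iff₀ (by norm_num), h8]
  exact Real.exp_le_exp.2 h6

private theorem nrsum_num2 : ∀ᶠ L : ℝ in Filter.atTop,
    (2 * L + 1) * Real.exp (-(L ^ (1 / 9 : ℝ))) ≤ Real.exp (-(L ^ (1 / 10 : ℝ))) := by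
  have ht : Filter.Tendsto (fun L : ℝ => L ^ (1 / 9 : ℝ) / 2) Filter.atTop Filter.atTop :=
    (tendsto_rpow_atTop (by norm_num)).atTop_div_const (by norm_num)
  have h0 := (ht.eventually ((Real.tendsto_exp_div_pow_atTop 9).eventually_ge_atTop (3 * 2 ^ 9)))
  filter_upwards [Filter.eventually_ge_atTop ((2 : ℝ) ^ 90), h0] with L hL h0
  have hL0 : (0 : ℝ) < L := lt_of_lt_of_le (by positivity) hL
  have hL1 : (1 : ℝ) ≤ L := by linarith [show (1 : ℝ) ≤ 2 ^ 90 by norm_num]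
  have h1 : (2 : ℝ) ≤ L ^ (1 / 90 : ℝ) := by
    have h2 : ((2 : ℝ) ^ 90) ^ (1 / 90 : ℝ) ≤ L ^ (1 / 90 : ℝ) :=
      Real.rpow_le_rpow (by positivity) hL (by norm_num)
    have h3 : ((2 : ℝ) ^ 90) ^ (1 / 90 : ℝ) = 2 := by
      rw [← Real.rpow_natCast, ← Real.rpow_mul (by norm_num)]
      norm_num
    rw [h3] at h2
    exact h2
  have h4 : L ^ (1 / 9 : ℝ) = L ^ (1 / 10 : ℝ) * L ^ (1 / 90 : ℝ) := by
    rw [← Real.rpow_add hL0]
    norm_num
  have h5 : (0 : ℝ) < L ^ (1 / 10 : ℝ) := Real.rpow_pos_of_pos hL0 _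
  have h6 : L ^ (1 / 10 : ℝ) ≤ L ^ (1 / 9 : ℝ) / 2 := by
    rw [h4]
    nlinarith
  have hs : (0 : ℝ) < L ^ (1 / 9 : ℝ) / 2 := by
    have := Real.rpow_pos_of_pos hL0 (1 / 9 : ℝ)
    linarith
  have h7 : (L ^ (1 / 9 : ℝ) / 2) ^ 9 * 2 ^ 9 = L := by
    rw [div_pow, div_mul_cancel₀ _ (by norm_num), ← Real.rpow_natCast, ← Real.rpow_mul hL0.le]
    norm_num
  have h8 : 2 * L + 1 ≤ Real.exp (L ^ (1 / 9 : ℝ) / 2) := by
    have h9 : 3 * 2 ^ 9 * (L ^ (1 / 9 : ℝ) / 2) ^ 9 ≤ Real.exp (L ^ (1 / 9 : ℝ) / 2) := by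
      rwa [le_div_iff₀ (by positivity)] at h0
    have h10 : 3 * 2 ^ 9 * (L ^ (1 / 9 : ℝ) / 2) ^ 9 = 3 * L := by
      rw [mul_assoc, mul_comm (2 ^ 9 : ℝ), h7]
    linarith
  calc (2 * L + 1) * Real.exp (-(L ^ (1 / 9 : ℝ)))
      ≤ Real.exp (L ^ (1 / 9 : ℝ) / 2) * Real.exp (-(L ^ (1 / 9 : ℝ))) :=
        mul_le_mul_of_nonneg_right h8 (Real.exp_pos _).le
    _ = Real.exp (-(L ^ (1 / 9 : ℝ) / 2)) := by
        rw [← Real.exp_add]
        congr 1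
        ring
    _ ≤ Real.exp (-(L ^ (1 / 10 : ℝ))) := Real.exp_le_exp.2 (by linarith)

theorem rare_sum (e0 c1 c2 : ℕ) (he0 : 1 ≤ e0) (hc1 : 1 ≤ c1) (hc2 : 1 ≤ c2) (κ : ℝ) :
    ∃ x0 : ℕ, ∀ x : ℕ, x0 ≤ x → ∀ w1 w2 r1 r2 : ℕ, GPair c1 c2 x w1 w2 r1 r2 →
      (w1, w2) ∉ SX e0 c1 c2 x → ∀ a : ℕ, a ≠ 0 → (a.primeFactorsList.length : ℝ) ≤ κ * LL x →
      ∀ R : Finset ℕ,
      (∀ p ∈ R, p.Prime ∧ Z1 x < p ∧ p ≤ x ∧ ¬ p ∣ a ∧ ¬ p ∣ w1 * w2 ∧
        BadP (KF (CyclotomicField (w1 * w2) ℚ) (r1 * r2)) e0 a p) →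
      ∑ p ∈ R, (1 : ℝ) / p ≤ Real.exp (-(Real.log x ^ (1 / 10 : ℝ))) := by
  obtain ⟨x1, hx1⟩ := rare_prime e0 c1 c2 he0 hc1 hc2 κ
  have hev := (log_tend.eventually (nrsum_num1.and nrsum_num2)).and
    ((log_tend.eventually_ge_atTop 0).and (Filter.eventually_ge_atTop x1))
  obtain ⟨x0, hx0⟩ := Filter.eventually_atTop.1 hev
  refine ⟨x0, fun x hx w1 w2 r1 r2 hG hS a ha hκ R hR => ?_⟩
  obtain ⟨⟨hn1, hn2⟩, hL0, hxx1⟩ := hx0 x hx
  have hblock : ∀ k ∈ Finset.range (Nat.log 2 x + 1),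
      ∑ p ∈ R.filter (fun p => Nat.log 2 p = k), (1 : ℝ) / p ≤
        Real.exp (-(Real.log x ^ (1 / 9 : ℝ))) := by
    intro k _
    rcases (R.filter (fun p => Nat.log 2 p = k)).eq_empty_or_nonempty with he | ⟨p0, hp0⟩
    · rw [he, Finset.sum_empty]
      exact (Real.exp_pos _).le
    · have hY : Real.exp (Real.log x ^ (1 / 5 : ℝ)) ≤ ((2 ^ k : ℕ) : ℝ) := by
        obtain ⟨hp0R, hp0k⟩ := Finset.mem_filter.1 hp0
        have h1 := (hR p0 hp0R).2.1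
        have h2 : p0 < 2 ^ (k + 1) := by
          rw [← hp0k]
          exact Nat.lt_pow_succ_log_self (by norm_num) p0
        have h3 : (p0 : ℝ) < 2 ^ (k + 1) := by exact_mod_cast h2
        have h4 : Z1 x < 2 ^ (k + 1) := h1.trans h3
        have h5 : Real.exp (Real.log x ^ (1 / 4 : ℝ)) / 2 ≤ 2 ^ k := by
          unfold Z1 at h4
          rw [pow_succ] at h4
          linarith
        push_cast
        linarith
      have hcard := hx1 x hxx1 w1 w2 r1 r2 hG hS a ha hκ (2 ^ k) hY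
        (R.filter (fun p => Nat.log 2 p = k)) (fun p hp => by
          obtain ⟨hpR, hpk⟩ := Finset.mem_filter.1 hp
          obtain ⟨q1, q2, q3, q4, q5, q6⟩ := hR p hpR
          refine ⟨q1, ?_, q4, q5, q6⟩
          have h2 : p < 2 ^ (k + 1) := by
            rw [← hpk]
            exact Nat.lt_pow_succ_log_self (by norm_num) p
          rw [pow_succ] at h2
          omega)
      have hY0 : (0 : ℝ) < ((2 ^ k : ℕ) : ℝ) := by positivity
      have h6 : ∑ p ∈ R.filter (fun p => Nat.log 2 p = k), (1 : ℝ) / p ≤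
          ∑ _p ∈ R.filter (fun p => Nat.log 2 p = k), (1 : ℝ) / ((2 ^ k : ℕ) : ℝ) := by
        refine Finset.sum_le_sum (fun p hp => ?_)
        obtain ⟨hpR, hpk⟩ := Finset.mem_filter.1 hp
        have hp1 := (hR p hpR).1
        have h7 : 2 ^ k ≤ p := by
          rw [← hpk]
          exact Nat.pow_log_le_self 2 hp1.ne_zero
        exact one_div_le_one_div_of_le hY0 (by exact_mod_cast h7)
      rw [Finset.sum_const, nsmul_eq_mul] at h6
      refine h6.trans ?_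
      rw [mul_one_div, div_le_iff₀ hY0, mul_comm (Real.exp _)]
      exact hcard
  have hmaps : ∀ p ∈ R, Nat.log 2 p ∈ Finset.range (Nat.log 2 x + 1) := by
    intro p hp
    have h1 := (hR p hp).2.2.1
    have h2 := Nat.log_mono_right (b := 2) h1
    rw [Finset.mem_range]
    omega
  rw [← Finset.sum_fiberwise_of_maps_to hmaps]
  refine (Finset.sum_le_sum hblock).trans ?_
  rw [Finset.sum_const, nsmul_eq_mul, Finset.card_range]
  have hlog : ((Nat.log 2 x + 1 : ℕ) : ℝ) ≤ 2 * Real.log x + 1 := by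
    have h1 : ((Nat.log 2 x : ℕ) : ℝ) ≤ Real.logb 2 x := by
      have := Real.natLog_le_logb x 2
      exact_mod_cast this
    have h2 : Real.logb 2 x ≤ 2 * Real.log x := by
      rw [Real.logb, div_le_iff₀ (Real.log_pos (by norm_num))]
      have h3 := Real.log_two_gt_d9
      nlinarith
    push_cast
    linarith
  exact (mul_le_mul_of_nonneg_right hlog (Real.exp_pos _).le).trans hn2

end Pool.Agent.Lib.MP_79499b_co.DZ
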