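import Pool.Agent.Lib.MP_79499b_co.DZ.NNum
import Pool.Agent.Lib.MP_79499b_co.DZ.NBad
import Pool.Agent.Lib.MP_79499b_co.DZ.NGap
import Pool.Agent.Lib.MP_79499b_co.DZ.NQ
import Pool.Agent.Lib.MP_79499b_co.DZ.NNib
import Pool.Agent.Lib.MP_79499b_co.DZ.NSub

/-!
# NRar: bad primes in (Y, 2Y] are rare

Statement: for `x ≥ x0`, a pair with `GPair`, not in `SX`, `1 ≤ a` with `Ω(a) ≤ κ loglog x`,
`exp((log x)^(1/5)) ≤ Y`: a finite set `R` of primes `p ≤ 2Y`, `p ∤ a`, `p ∤ w1 w2`, bad for `a` in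
`K = KF F (r1*r2)`, has at most `Y exp(-(log x)^(1/9))` elements.

Proof (assembly). `L = log x`, `i = c1 c2 = [K : ℚ]` (`KF_finrank`), `Q = Qx x e0 i`. Apply `bad_all` to `K`:
Galois (`lf_galois`, with `K := F`, `D := Mgp F (r1*r2)`, `cyc_galois`, `cyc_comm`), commutative (`lf_lift`: lifts
commute), `cc` from `lf_conj` and `cyc_conj`, `B0 = r1 r2` (`nib_sub` with `nib_cyc` and `cyc_card`:
`Nat.card D * 1`), `g = exp(L^(2/5)/i)/2`: `(2g)^i = exp(L^(2/5)) = X1 x < w1, w2` (`gap_KF`);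
`Q^(2 e0 i) ≤ g` (`num_q`). `𝒬 = SpS Q w1 w2 r1 r2` (`r_i = (w_i - 1)/c_i`); `|𝒬| ≥ √Q ≥ 1` because
`(w1,w2) ∉ SX` (the other conditions in `SX` hold: `mem_RR`); the `q ∈ 𝒬` are at most `Q < X1 x`, so they do not
divide `w1 w2` (primes), and split in `K` (`split_KF`). The `p ∈ R` are unramified (`unram_KF`).
`T = (i r1 r2)^i`, `log T = i (log i + log (r1 r2)) ≤ i (log i + 2 L^(9/20))` as `r1 r2 ≤ w1 w2 ≤ (X2 x)^2`.
`j` from `num_rare` with `c = |𝒬|`, `m = Ω(a)`.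
-/

set_option autoImplicit false

open NumberField
open scoped Pointwise

namespace Pool.Agent.Lib.MP_79499b_co.DZ

private theorem NRar_comm (F : Type) [Field F] [NumberField F] [IsGalois ℚ F]
    (hcomm : ∀ σ τ : F ≃ₐ[ℚ] F, σ * τ = τ * σ) (D : Subgroup (F ≃ₐ[ℚ] F))
    (σ τ : (IntermediateField.fixedField D) ≃ₐ[ℚ] (IntermediateField.fixedField D)) :
    σ * τ = τ * σ := by
  obtain ⟨s, hs, -⟩ := lf_lift F hcomm D σ
  obtain ⟨t, ht, -⟩ := lf_lift F hcomm D τ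
  refine AlgEquiv.ext fun x => Subtype.ext ?_
  rw [AlgEquiv.mul_apply, AlgEquiv.mul_apply, ← hs, ← ht, ← ht, ← hs]
  have h := AlgEquiv.congr_fun (hcomm s t) (x : F)
  rw [AlgEquiv.mul_apply, AlgEquiv.mul_apply] at h
  exact h

private theorem NRar_log (i r : ℕ) (hi : 1 ≤ i) (hr : 1 ≤ r) :
    Real.log (((i * r) ^ i : ℕ) : ℝ) = i * (Real.log i + Real.log r) := by
  have hi' : (i : ℝ) ≠ 0 := by
    have : (0 : ℝ) < i := by exact_mod_cast hi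
    exact this.ne'
  have hr' : (r : ℝ) ≠ 0 := by
    have : (0 : ℝ) < r := by exact_mod_cast hr
    exact this.ne'
  rw [Nat.cast_pow, Nat.cast_mul, Real.log_pow, Real.log_mul hi' hr']

theorem rare_prime (e0 c1 c2 : ℕ) (he0 : 1 ≤ e0) (hc1 : 1 ≤ c1) (hc2 : 1 ≤ c2) (κ : ℝ) :
    ∃ x0 : ℕ, ∀ x : ℕ, x0 ≤ x → ∀ w1 w2 r1 r2 : ℕ, GPair c1 c2 x w1 w2 r1 r2 →
      (w1, w2) ∉ SX e0 c1 c2 x → ∀ a : ℕ, a ≠ 0 → (a.primeFactorsList.length : ℝ) ≤ κ * LL x →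
      ∀ Y : ℕ, Real.exp (Real.log x ^ (1 / 5 : ℝ)) ≤ Y → ∀ R : Finset ℕ,
      (∀ p ∈ R, p.Prime ∧ p ≤ 2 * Y ∧ ¬ p ∣ a ∧ ¬ p ∣ w1 * w2 ∧
        BadP (KF (CyclotomicField (w1 * w2) ℚ) (r1 * r2)) e0 a p) →
      (R.card : ℝ) ≤ Y * Real.exp (-(Real.log x ^ (1 / 9 : ℝ))) := by
  classical
  have hi1 : 1 ≤ c1 * c2 := Nat.mul_pos hc1 hc2
  obtain ⟨xq, hxq⟩ := num_q e0 (c1 * c2) he0 hi1
  obtain ⟨xr, hxr⟩ := num_rare e0 (c1 * c2) he0 hi1 κ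
  refine ⟨max xq xr, ?_⟩
  intro x hx w1 w2 r1 r2 hG hSX a ha hOm Y hY R hR
  have hGG := hG
  obtain ⟨hw1, hw2, hne, e1, e2, hcr1, hcr2, hrr⟩ := hG
  obtain ⟨hQ1, hQ2, hQ3⟩ := hxq x ((le_max_left _ _).trans hx)
  have hrare := hxr x ((le_max_right _ _).trans hx)
  have p1 := hw1.1
  have p2 := hw2.1
  have hr1 : 1 ≤ r1 := by
    rcases Nat.eq_zero_or_pos r1 with h | h
    · rw [h, mul_zero, zero_add] at e1
      exact absurd e1 p1.one_lt.ne'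
    · exact h
  have hr2 : 1 ≤ r2 := by
    rcases Nat.eq_zero_or_pos r2 with h | h
    · rw [h, mul_zero, zero_add] at e2
      exact absurd e2 p2.one_lt.ne'
    · exact h
  have hd1 : (w1 - 1) / c1 = r1 := by
    rw [e1, Nat.add_sub_cancel, Nat.mul_div_cancel_left _ (by omega)]
  have hd2 : (w2 - 1) / c2 = r2 := by
    rw [e2, Nat.add_sub_cancel, Nat.mul_div_cancel_left _ (by omega)]
  have hdv1 : c1 ∣ w1 - 1 := ⟨r1, by rw [e1, Nat.add_sub_cancel]⟩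
  have hdv2 : c2 ∣ w2 - 1 := ⟨r2, by rw [e2, Nat.add_sub_cancel]⟩
  have : NeZero (w1 * w2) := ⟨(Nat.mul_pos p1.pos p2.pos).ne'⟩
  have hgalF : IsGalois ℚ (CyclotomicField (w1 * w2) ℚ) := cyc_galois (w1 * w2)
  have hcommF := cyc_comm (w1 * w2)
  have hgalK : IsGalois ℚ (KF (CyclotomicField (w1 * w2) ℚ) (r1 * r2)) :=
    lf_galois _ hcommF _
  obtain ⟨cc, hcc⟩ := cyc_conj (w1 * w2)
  obtain ⟨ccL, hccL⟩ := lf_conj _ hcommF (Mgp (CyclotomicField (w1 * w2) ℚ) (r1 * r2)) cc hcc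
  have hnib := nib_sub _ hcommF (Mgp (CyclotomicField (w1 * w2) ℚ) (r1 * r2)) 1
    (nib_cyc w1 w2 p1 p2 hne)
  rw [cyc_card w1 w2 c1 c2 r1 r2 p1 p2 hne e1 e2 hcr1 hcr2 hrr, mul_one] at hnib
  have hfin := KF_finrank w1 w2 c1 c2 r1 r2 p1 p2 hne e1 e2 hcr1 hcr2 hrr
  set L := Real.log x with hL
  set g : ℝ := Real.exp (L ^ (2 / 5 : ℝ) / ((c1 * c2 : ℕ) : ℝ)) / 2 with hg
  have hg0 : 0 ≤ g := by positivity
  have hicast : (0 : ℝ) < ((c1 * c2 : ℕ) : ℝ) := by exact_mod_cast hi1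
  have h2g : (2 * g) ^ (c1 * c2) = X1 x := by
    have h1 : 2 * g = Real.exp (L ^ (2 / 5 : ℝ) / ((c1 * c2 : ℕ) : ℝ)) := by rw [hg]; ring
    rw [h1, ← Real.exp_nat_mul, mul_div_cancel₀ _ hicast.ne']
    rfl
  have hgap := gap_KF w1 w2 c1 c2 r1 r2 p1 p2 hne e1 e2 hcr1 hcr2 hrr g hg0
    (by rw [h2g]; exact hw1.2.1) (by rw [h2g]; exact hw2.2.1)
  set Q := Qx x e0 (c1 * c2) with hQdef
  set S := SpS Q w1 w2 r1 r2 with hS
  have hScard : √(Q : ℝ) ≤ (S.card : ℝ) := by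
    by_contra hcon
    rw [not_le] at hcon
    refine hSX ?_
    unfold SX
    rw [Finset.mem_filter, Finset.mem_product]
    refine ⟨⟨mem_RR.mpr hw1, mem_RR.mpr hw2⟩, hne, hdv1, hdv2, ?_⟩
    show ((SpS (Qx x e0 (c1 * c2)) w1 w2 ((w1 - 1) / c1) ((w2 - 1) / c2)).card : ℝ) < _
    rw [hd1, hd2]
    exact hcon
  have hS0 : S.Nonempty := by
    rw [← Finset.card_pos]
    have h1 : (1 : ℝ) ≤ √(Q : ℝ) := Real.one_le_sqrt.mpr (by exact_mod_cast hQ3)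
    have h2 : (1 : ℝ) ≤ (S.card : ℝ) := h1.trans hScard
    exact_mod_cast h2
  have hSq : ∀ q ∈ S, q.Prime ∧ q ≤ Q ∧ Q < 2 * q ∧
      SplitIn (KF (CyclotomicField (w1 * w2) ℚ) (r1 * r2)) q := by
    intro q hq
    rw [hS] at hq
    unfold SpS at hq
    rw [Finset.mem_filter, Finset.mem_Icc] at hq
    obtain ⟨⟨-, hqQ⟩, hqp, hq2, hqa, hqb⟩ := hq
    refine ⟨hqp, hqQ, hq2, split_KF w1 w2 r1 r2 q p1 p2 hne hqp ?_ hqa hqb⟩
    intro hdvd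
    have hlt : (q : ℝ) < X1 x := lt_of_le_of_lt (by exact_mod_cast hqQ) hQ2
    rcases (Nat.Prime.dvd_mul hqp).mp hdvd with h | h
    · rw [(Nat.prime_dvd_prime_iff_eq hqp p1).mp h] at hlt
      exact absurd (hlt.trans hw1.2.1) (lt_irrefl _)
    · rw [(Nat.prime_dvd_prime_iff_eq hqp p2).mp h] at hlt
      exact absurd (hlt.trans hw2.2.1) (lt_irrefl _)
  set T : ℕ := ((c1 * c2) * (r1 * r2)) ^ (c1 * c2) with hT
  have hr12 : 1 ≤ r1 * r2 := Nat.mul_pos hr1 hr2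
  have hT1 : 1 ≤ T := Nat.one_le_pow _ _ (Nat.mul_pos hi1 hr12)
  have hlogT : Real.log T ≤ ((c1 * c2 : ℕ) : ℝ) *
      (Real.log ((c1 * c2 : ℕ) : ℝ) + 2 * L ^ (9 / 20 : ℝ)) := by
    rw [hT, NRar_log _ _ hi1 hr12]
    refine mul_le_mul_of_nonneg_left ?_ hicast.le
    have h1 : Real.log ((r1 * r2 : ℕ) : ℝ) ≤ 2 * L ^ (9 / 20 : ℝ) := by
      have hr1w : (r1 : ℝ) ≤ X2 x := by
        refine le_trans ?_ hw1.2.2
        have : r1 ≤ w1 := by rw [e1]; nlinarith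
        exact_mod_cast this
      have hr2w : (r2 : ℝ) ≤ X2 x := by
        refine le_trans ?_ hw2.2.2
        have : r2 ≤ w2 := by rw [e2]; nlinarith
        exact_mod_cast this
      have hr1p : (0 : ℝ) < r1 := by exact_mod_cast hr1
      have hr2p : (0 : ℝ) < r2 := by exact_mod_cast hr2
      rw [Nat.cast_mul, Real.log_mul hr1p.ne' hr2p.ne']
      have a1 := Real.log_le_log hr1p hr1w
      have a2 := Real.log_le_log hr2p hr2w
      unfold X2 at a1 a2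
      rw [Real.log_exp] at a1 a2
      linarith
    linarith
  obtain ⟨j, hj, hYj, hfinal⟩ := hrare T (S.card : ℝ) Y a.primeFactorsList.length hT1 hlogT
    hScard hY hOm
  have hbad := bad_all (KF (CyclotomicField (w1 * w2) ℚ) (r1 * r2))
    (NRar_comm _ hcommF _) ccL hccL ((r1 * r2 : ℕ) : ℝ) (Nat.cast_nonneg _) hnib g hgap e0 Q
    (by rw [hfin]; exact hQ1) S hS0 hSq T hT1
    (by rw [hfin, hT]; push_cast; exact le_rfl) Y j hj (by rw [hfin]; exact hYj) a ha R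
    (fun p hp => by
      obtain ⟨b1, b2, b3, b4, b5⟩ := hR p hp
      exact ⟨b1, b2, b3, unram_KF w1 w2 (r1 * r2) p p1 p2 hne b1 b4, b5⟩)
  rw [hfin] at hbad
  exact hbad.trans hfinal

end Pool.Agent.Lib.MP_79499b_co.DZ
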