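import Pool.Agent.Lib.MP_79499b_co.DZ.NLF

/-!
# NTr: transitivity on the primes, norm of a prime with trivial Frobenius

* `primes_transitive`: for `L` Galois over `ℚ`, two prime ideals of `𝓞 L` containing the same rational prime
  are conjugate (`Algebra.IsInvariant.exists_smul_of_under_eq` with `A = ℤ`, `G` the Galois group acting on
  `𝓞 L`: both ideals lie over `(p)`; `Ideal.exists_smul_eq..` lemmas for Galois groups).
* `primes_transitive_rel`: the same with the group `D` and the ring of integers of `fixedField D`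
  (invariants of `D` on `𝓞 K`: `Algebra.IsInvariant (𝓞 (fixedField D)) (𝓞 K) D` from `lf_fix`; or the Galois
  group of `K` over `fixedField D`, which is `D`: `IntermediateField.fixingSubgroup_fixedField`).
* `absNorm_eq_of_frob`: if `P` is a prime ideal containing `p` and `x^p - x ∈ P` for all `x ∈ 𝓞 L` then the
  field `𝓞 L ⧸ P` has at most `p` elements (roots of `X^p - X`), and its characteristic is `p`, so
  `N(P) = p`.
-/

set_option autoImplicit false

open NumberField
open scoped Pointwise

namespace Pool.Agent.Lib.MP_79499b_co.DZ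

private theorem under_eq (L : Type) [Field L] [NumberField L] (p : ℕ)
    (hp : p.Prime) (P : Ideal (𝓞 L)) (hP : P.IsPrime) (h1 : (p : 𝓞 L) ∈ P) :
    P.under ℤ = Ideal.span {(p : ℤ)} := by
  have hmax : (Ideal.span {(p : ℤ)}).IsMaximal :=
    PrincipalIdealRing.isMaximal_of_irreducible (Nat.prime_iff_prime_int.1 hp).irreducible
  have hle : Ideal.span {(p : ℤ)} ≤ P.under ℤ := by
    rw [Ideal.span_singleton_le_iff_mem, Ideal.mem_comap]
    simpa using h1
  have hne : P.under ℤ ≠ ⊤ := by
    intro h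
    have : (1 : ℤ) ∈ P.under ℤ := by rw [h]; trivial
    rw [Ideal.mem_comap, map_one] at this
    exact hP.ne_top ((Ideal.eq_top_iff_one P).2 this)
  exact (hmax.eq_of_le hne hle).symm

theorem primes_transitive (L : Type) [Field L] [NumberField L] [IsGalois ℚ L] (p : ℕ)
    (hp : p.Prime) (P P' : Ideal (𝓞 L)) (hP : P.IsPrime) (hP' : P'.IsPrime)
    (h1 : (p : 𝓞 L) ∈ P) (h2 : (p : 𝓞 L) ∈ P') : ∃ τ : L ≃ₐ[ℚ] L, τ • P = P' := by
  haveI := hP
  haveI := hP'
  have h : P.under ℤ = P'.under ℤ := by
    rw [under_eq L p hp P hP h1, under_eq L p hp P' hP' h2]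
  obtain ⟨g, hg⟩ := Algebra.IsInvariant.exists_smul_of_under_eq ℤ (𝓞 L) (L ≃ₐ[ℚ] L) P P' h
  exact ⟨g, hg.symm⟩

theorem primes_transitive_rel (K : Type) [Field K] [NumberField K] [IsGalois ℚ K]
    (D : Subgroup (K ≃ₐ[ℚ] K)) (P P' : Ideal (𝓞 K)) (hP : P.IsPrime) (hP' : P'.IsPrime)
    (h : P.comap (algebraMap (𝓞 (IntermediateField.fixedField D)) (𝓞 K)) =
      P'.comap (algebraMap (𝓞 (IntermediateField.fixedField D)) (𝓞 K))) :
    ∃ δ ∈ D, δ • P = P' := by
  haveI := hP
  haveI := hP'
  haveI i1 : IsGaloisGroup D (IntermediateField.fixedField D) K := IsGaloisGroup.subgroup _ ℚ K D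
  haveI i2 := IsGaloisGroup.of_isFractionRing D (𝓞 (IntermediateField.fixedField D)) (𝓞 K)
    (IntermediateField.fixedField D) K
  obtain ⟨g, hg⟩ := Algebra.IsInvariant.exists_smul_of_under_eq (𝓞 (IntermediateField.fixedField D))
    (𝓞 K) D P P' h
  exact ⟨g.1, g.2, hg.symm⟩

private theorem card_dom (F : Type) [CommRing F] [IsDomain F] [Fintype F] (p : ℕ) (hp : p.Prime) (hpz : ((p : ℕ) : F) = 0)
    (hroot : ∀ y : F, y ^ p - y = 0) : Fintype.card F = p := by
  haveI : Fact p.Prime := ⟨hp⟩
  haveI : CharP F p := by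
    have h1 := ringChar.dvd hpz
    rcases (Nat.dvd_prime hp).1 h1 with h2 | h2
    · exfalso
      have h3 : ((ringChar F : ℕ) : F) = 0 := ringChar.Nat.cast_ringChar
      rw [h2, Nat.cast_one] at h3
      exact one_ne_zero h3
    · exact (ringChar.eq_iff).1 h2
  have hge : p ≤ Fintype.card F := by
    have hinj : Function.Injective (ZMod.castHom (dvd_refl p) F) := RingHom.injective _
    have := Fintype.card_le_of_injective _ hinj
    rwa [ZMod.card] at this
  have hdeg : (Polynomial.X ^ p - Polynomial.X : Polynomial F).natDegree = p := by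
    rw [Polynomial.natDegree_sub_eq_left_of_natDegree_lt]
    · exact Polynomial.natDegree_X_pow p
    · rw [Polynomial.natDegree_X_pow, Polynomial.natDegree_X]; exact hp.one_lt
  have hle : Fintype.card F ≤ p := by
    classical
    have hne : (Polynomial.X ^ p - Polynomial.X : Polynomial F) ≠ 0 := by
      intro h
      rw [h, Polynomial.natDegree_zero] at hdeg
      exact hp.ne_zero hdeg.symm
    have hsub : (Finset.univ : Finset F) ⊆
        (Polynomial.X ^ p - Polynomial.X : Polynomial F).roots.toFinset := by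
      intro y _
      rw [Multiset.mem_toFinset, Polynomial.mem_roots hne, Polynomial.IsRoot.def]
      simpa using hroot y
    calc Fintype.card F = (Finset.univ : Finset F).card := Finset.card_univ.symm
      _ ≤ _ := Finset.card_le_card hsub
      _ ≤ Multiset.card (Polynomial.X ^ p - Polynomial.X : Polynomial F).roots :=
          Multiset.toFinset_card_le _
      _ ≤ (Polynomial.X ^ p - Polynomial.X : Polynomial F).natDegree :=
          Polynomial.card_roots' _
      _ = p := hdeg
  exact le_antisymm hle hge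

theorem absNorm_eq_of_frob (L : Type) [Field L] [NumberField L] (p : ℕ) (hp : p.Prime)
    (P : Ideal (𝓞 L)) (hP : P.IsPrime) (hpP : (p : 𝓞 L) ∈ P) (h : ∀ x : 𝓞 L, x ^ p - x ∈ P) :
    Ideal.absNorm P = p := by
  haveI := hP
  have hP0 : P ≠ ⊥ := by
    rintro rfl
    rw [Ideal.mem_bot] at hpP
    exact hp.ne_zero (by exact_mod_cast hpP)
  haveI hfin : Finite (𝓞 L ⧸ P) := Ideal.finiteQuotientOfFreeOfNeBot P hP0
  haveI : Fintype (𝓞 L ⧸ P) := Fintype.ofFinite _
  have hcard : Ideal.absNorm P = Fintype.card (𝓞 L ⧸ P) := by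
    rw [Ideal.absNorm_apply, Submodule.cardQuot_apply, Nat.card_eq_fintype_card]
  have hroot : ∀ y : 𝓞 L ⧸ P, y ^ p - y = 0 := by
    intro y
    obtain ⟨x, rfl⟩ := Ideal.Quotient.mk_surjective y
    rw [← map_pow, ← map_sub, Ideal.Quotient.eq_zero_iff_mem]
    exact h x
  have hpz : ((p : ℕ) : 𝓞 L ⧸ P) = 0 := by
    have : Ideal.Quotient.mk P (p : 𝓞 L) = 0 := Ideal.Quotient.eq_zero_iff_mem.2 hpP
    rwa [map_natCast] at this
  rw [hcard]
  exact card_dom (𝓞 L ⧸ P) p hp hpz hroot

end Pool.Agent.Lib.MP_79499b_co.DZ
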