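import Pool.Agent.Lib.MP_79499b_co.DZ.NMain
import Pool.Agent.Lib.MP_79499b_co.DZ.ZDefs

/-!
# NZ: part N in the form of ZDefs
-/

set_option autoImplicit false

namespace Pool.Agent.Lib.MP_79499b_co.DZ

theorem n_thm (s : ℕ) (hs : 2 ≤ s) : NThm s := by
  intro c1 c2 hc1 hc2
  refine ⟨SX (s - 1) c1 c2, sx_sum (s - 1) c1 c2 (by omega) hc1 hc2, ?_⟩
  intro ε hε
  obtain ⟨x0, hx0⟩ := nd_rare s c1 c2 hs hc1 hc2 ε hε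
  refine ⟨x0, fun x hx => le_trans (cnt_mono ?_) (hx0 x hx)⟩
  rintro n _ ⟨w1, w2, r1, r2, q, t, hw1, hw2, hne, e1, e2, k1, k2, k3, _, _, hS, d1, d2, hq, hqn, hqX,
    hqt, hnd⟩
  exact ⟨w1, w2, r1, r2, q, t, ⟨hw1, hw2, hne, e1, e2, k1, k2, k3⟩, hS, d1, d2, hq, hqn, hqX, hqt, hnd⟩

end Pool.Agent.Lib.MP_79499b_co.DZ
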