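import Pool.Agent.Lib.MP_79499b_co.DZ.ZDefs
import Pool.Agent.Lib.MP_79499b_co.DZ.A10

/-!
# DZ Z1: density zero from the three parts
-/

set_option autoImplicit false

namespace Pool.Agent.Lib.MP_79499b_co.DZ

open Finset Filter

theorem X1_tend : Tendsto X1 atTop atTop := by
  unfold X1
  exact Real.tendsto_exp_atTop.comp ((tendsto_rpow_atTop (by norm_num)).comp log_tend)

theorem even_zero {s : ℕ} (hs : 2 ≤ s) (hC : PairThm s) (hN : NThm s) (ε : ℝ) (hε : 0 < ε) :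
    ∃ x0 : ℕ, ∀ x : ℕ, x0 ≤ x → cnt x (fun n => EO.AbOrder n (2 * s)) ≤ ε * x := by
  obtain ⟨c1, c2, p0, hc1, hc2, hp0, hcc, hC⟩ := hC
  obtain ⟨S, ⟨x1, hS⟩, hN⟩ := hN c1 c2 hc1 hc2
  obtain ⟨B, x2, hC⟩ := hC (ε / 2) (by positivity)
  obtain ⟨x3, hN⟩ := hN (ε / 2) (by positivity)
  obtain ⟨W0, hW⟩ := excl s c1 c2 p0 B hs hp0 hcc
  obtain ⟨x4, hx4⟩ := (X1_tend.eventually_ge_atTop (W0 : ℝ)).exists_forall_of_atTop
  refine ⟨max (max x1 x2) (max x3 x4), fun x hx => ?_⟩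
  have hx1 : x1 ≤ x := (le_max_left _ _).trans ((le_max_left _ _).trans hx)
  have hx2 : x2 ≤ x := (le_max_right _ _).trans ((le_max_left _ _).trans hx)
  have hx3 : x3 ≤ x := (le_max_left _ _).trans ((le_max_right _ _).trans hx)
  have hx4' : x4 ≤ x := (le_max_right _ _).trans ((le_max_right _ _).trans hx)
  have hX1 := hx4 x hx4'
  have h1 := hC x hx2 (S x) (hS x hx1)
  have h2 := hN x hx3
  refine (cnt_mono (P' := fun n => (¬ ∃ w1 w2 r1 r2 : ℕ, Rg x w1 ∧ Rg x w2 ∧ (w1, w2) ∉ S x ∧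
        Shape s c1 c2 w1 w2 r1 r2 n ∧ Split p0 B w1 w2 r1 r2 n ∧ Large x w1 w2 n) ∨
        Fails s c1 c2 x (S x) n) fun n hnx hAb => ?_).trans ((cnt_or x _ _).trans (by linarith))
  by_contra hcon
  push Not at hcon
  obtain ⟨⟨w1, w2, r1, r2, hw1, hw2, hwS, hSh, hSp, q, hq, hqn, hqX, hq1, hq2⟩, hF⟩ := hcon
  obtain ⟨t, ht⟩ := selfconj_pow hSh.prime1 hSh.prime2 hSh.ne hSh.eq1 hSh.eq2 hSh.odd1 hSh.odd2
    hSh.one1 hSh.one2 hcc hq1 hq2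
  have hND : ND (CyclotomicField (w1 * w2) ℚ) (s - 1) (r1 * r2) n := by
    by_contra hND
    exact hF ⟨w1, w2, r1, r2, q, t, hw1, hw2, hSh.ne, hSh.eq1, hSh.eq2, hSh.cop1, hSh.cop2,
      hSh.cop, hSh.odd1, hSh.odd2, hwS, hSh.dvd1, hSh.dvd2, hq, hqn, hqX, ht, hND⟩
  have hW1 : W0 ≤ w1 := by
    have : (W0 : ℝ) ≤ w1 := hX1.trans hw1.2.1.le
    exact_mod_cast this
  have hW2 : W0 ≤ w2 := by
    have : (W0 : ℝ) ≤ w2 := hX1.trans hw2.2.1.le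
    exact_mod_cast this
  exact hW w1 w2 r1 r2 n hW1 hW2 hSh hSp hND hAb

end Pool.Agent.Lib.MP_79499b_co.DZ
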