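import Pool.Agent.Lib.MP_79499b_co.DZ.ZNil
import Pool.Agent.Lib.MP_79499b_co.DZ.CMain
import Pool.Agent.Lib.MP_79499b_co.DZ.NZ

/-!
# DZ Z3: density zero for even `m`, nilpotent groups
-/

set_option autoImplicit false

namespace Pool.Agent.Lib.MP_79499b_co.DZ

open Finset Filter Topology

theorem even_density_nil {m : ℕ} (hm : 4 ≤ m) (heven : Even m) :
    Tendsto (fun x : ℕ => cnt x (fun n => NilOrder n m) / x) atTop (𝓝 0) := by
  obtain ⟨s, rfl⟩ := heven
  have hs : 2 ≤ s := by omega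
  rw [← two_mul]
  rw [Metric.tendsto_atTop]
  intro ε hε
  obtain ⟨x0, hx0⟩ := even_zero_nil hs (pair_thm s hs) (n_thm s hs) (ε / 2) (by positivity)
  refine ⟨max x0 1, fun x hx => ?_⟩
  have h1 : x0 ≤ x := (le_max_left _ _).trans hx
  have h2 : 1 ≤ x := (le_max_right _ _).trans hx
  have hx' : (0 : ℝ) < x := by exact_mod_cast h2
  have h3 := hx0 x h1
  have h4 := cnt_nonneg x (fun n => NilOrder n (2 * s))
  rw [Real.dist_eq, sub_zero, abs_of_nonneg (by positivity), div_lt_iff₀ hx']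
  nlinarith

end Pool.Agent.Lib.MP_79499b_co.DZ
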