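import Pool.Agent.Lib.MP_79499b_co.DZ.ZDefs
import Pool.Agent.Lib.MP_79499b_co.DZ.A10
import Pool.Agent.Lib.MP_79499b_co.DZ.Z1

/-!
# ZNil: the same for finite nilpotent groups

A finite nilpotent group whose order is divisible by the different primes `w1`, `w2` maps onto a commutative
group of order `w1 w2` (product of the Sylow subgroups, abelianization of a Sylow subgroup). The rest of part A
only uses the image of the difference set in such a quotient.
-/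

set_option autoImplicit false

namespace Pool.Agent.Lib.MP_79499b_co.DZ

open Finset MonoidAlgebra

/-- some finite nilpotent group has a difference set with the Singer parameters for `(n, m)` -/
def NilOrder (n m : ℕ) : Prop :=
  ∃ (G : Type) (_ : Group G) (_ : Group.IsNilpotent G) (_ : Fintype G) (_ : DecidableEq G)
    (D : Finset G),
    Fintype.card G * (n - 1) = n ^ m - 1 ∧
    D.card * (n - 1) = n ^ (m - 1) - 1 ∧
    ∀ g : G, g ≠ 1 →
      ((D ×ˢ D).filter (fun p : G × G => p.1 * p.2⁻¹ = g)).card * (n - 1) =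
        n ^ (m - 2) - 1

/-- a finite nilpotent group whose order is divisible by the prime `w` maps onto a group of order `w` -/
theorem ZNil_surj (G : Type) [Group G] [Finite G] (hnil : Group.IsNilpotent G) (w : ℕ) (hw : w.Prime)
    (hd : w ∣ Nat.card G) :
    ∃ (Q : Type) (_ : CommGroup Q) (_ : Finite Q) (f : G →* Q), Function.Surjective f ∧
      Nat.card Q = w := by
  classical
  have hF := Fact.mk hw
  have htf := Group.isNilpotent_of_finite_tfae (G := G)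
  obtain ⟨e⟩ := (htf.out 0 4).1 hnil
  have hmem : w ∈ (Nat.card G).primeFactors := by
    rw [Nat.mem_primeFactors]
    exact ⟨hw, hd, Nat.card_pos.ne'⟩
  let P : Sylow w G := default
  let f0 : (∀ p : (Nat.card G).primeFactors, ∀ P : Sylow p G, (↑P : Subgroup G)) →*
      (P : Subgroup G) :=
    { toFun := fun z => z ⟨w, hmem⟩ P
      map_one' := rfl
      map_mul' := fun _ _ => rfl }
  have hf0 : Function.Surjective f0 := by
    intro y
    let z : (∀ p : (Nat.card G).primeFactors, ∀ P : Sylow p G, (↑P : Subgroup G)) :=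
      Function.update 1 ⟨w, hmem⟩ (Function.update (fun _ => 1) P y)
    refine ⟨z, ?_⟩
    change z ⟨w, hmem⟩ P = y
    simp [z]
  let f1 : G →* (P : Subgroup G) := f0.comp e.symm.toMonoidHom
  have hf1 : Function.Surjective f1 := hf0.comp e.symm.surjective
  -- the abelianization of the Sylow subgroup
  have hPp : IsPGroup w (P : Subgroup G) := P.isPGroup'
  have hPcard : w ∣ Nat.card (P : Subgroup G) := P.dvd_card_of_dvd_card hd
  have hnt : Nontrivial (P : Subgroup G) := by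
    rw [← Finite.one_lt_card_iff_nontrivial]
    exact lt_of_lt_of_le hw.one_lt (Nat.le_of_dvd Nat.card_pos hPcard)
  let A := Abelianization (P : Subgroup G)
  have hPnil : Group.IsNilpotent (P : Subgroup G) := hPp.isNilpotent
  have hAnt : Nontrivial A := by
    have h1 : commutator (P : Subgroup G) < ⊤ :=
      Group.IsSolvable.commutator_lt_top_of_nontrivial (P : Subgroup G)
    by_contra h2
    rw [not_nontrivial_iff_subsingleton] at h2
    apply h1.ne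
    rw [← QuotientGroup.ker_mk' (commutator (P : Subgroup G)), MonoidHom.ker_eq_top_iff]
    ext x
    exact @Subsingleton.elim A h2 _ _
  have hAp : IsPGroup w A := hPp.to_quotient _
  obtain ⟨k, hk⟩ := IsPGroup.iff_card.1 hAp
  have hk0 : k ≠ 0 := by
    rintro rfl
    rw [pow_zero] at hk
    have := Finite.one_lt_card (α := A)
    omega
  obtain ⟨j, rfl⟩ : ∃ j, k = j + 1 := ⟨k - 1, by omega⟩
  have hFA : Fintype A := Fintype.ofFinite A
  obtain ⟨H, hH⟩ := exists_subgroup_card_eq (w ^ j) A ⟨w, by rw [hk, pow_succ]⟩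
  have hQ : Nat.card (A ⧸ H) = w := by
    have h1 := Subgroup.card_eq_card_quotient_mul_card_subgroup H
    rw [hH, hk, pow_succ, mul_comm] at h1
    exact (Nat.eq_of_mul_eq_mul_right (pow_pos hw.pos j) h1).symm
  refine ⟨A ⧸ H, inferInstance, inferInstance,
    ((QuotientGroup.mk' H).comp Abelianization.of).comp f1, ?_, hQ⟩
  exact (QuotientGroup.mk'_surjective H).comp ((QuotientGroup.mk'_surjective (commutator (P : Subgroup G))).comp hf1)

theorem exists_quot_nil {n s w1 w2 : ℕ} (hn : 2 ≤ n) (hs : 2 ≤ s) (hw1 : w1.Prime) (hw2 : w2.Prime)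
    (hne : w1 ≠ w2) (d1 : w1 ∣ n ^ s + 1) (d2 : w2 ∣ ∑ i ∈ range s, n ^ i)
    (h : NilOrder n (2 * s)) :
    ∃ (Q : Type) (_ : CommGroup Q) (_ : Fintype Q) (X : MonoidAlgebra ℤ Q) (lam : ℤ),
      Nat.card Q = w1 * w2 ∧
      X * iv X = (((((n : ℤ) ^ (s - 1)) ^ 2 : ℤ)) : MonoidAlgebra ℤ Q)
        + (lam : MonoidAlgebra ℤ Q) * el univ ∧
      (w1 : ℤ) ∣ aug X - (n : ℤ) ^ (s - 1) ∧ (w2 : ℤ) ∣ aug X + (n : ℤ) ^ (s - 1) := by
  obtain ⟨G, _, hnil, _, _, D, hG, hD, hlam⟩ := h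
  obtain ⟨q, rfl⟩ : ∃ q, n = q + 1 := ⟨n - 1, by omega⟩
  obtain ⟨r, rfl⟩ : ∃ r, s = r + 1 := ⟨s - 1, by omega⟩
  have hq : 0 < q := by omega
  rw [Nat.add_sub_cancel] at hG hD
  have gs : ∀ a, (∑ i ∈ range a, (q + 1) ^ i) * q + 1 = (q + 1) ^ a := fun a =>
    geom_sum_mul_add q a
  set S : ℕ → ℕ := fun a => ∑ i ∈ range a, (q + 1) ^ i with hS
  have gs' : ∀ a, S a * q + 1 = (q + 1) ^ a := gs
  have hG' : Fintype.card G = S (2 * (r + 1)) := by
    have h1 := gs' (2 * (r + 1))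
    exact Nat.eq_of_mul_eq_mul_right hq (by omega)
  have hD' : D.card = S (2 * r + 1) := by
    have h1 := gs' (2 * r + 1)
    have h2 : 2 * (r + 1) - 1 = 2 * r + 1 := by omega
    rw [h2] at hD
    exact Nat.eq_of_mul_eq_mul_right hq (by omega)
  have hlam' : ∀ g : G, g ≠ 1 →
      ((D ×ˢ D).filter (fun p : G × G => p.1 * p.2⁻¹ = g)).card = S (2 * r) := by
    intro g hg
    have h1 := gs' (2 * r)
    have h2 : 2 * (r + 1) - 2 = 2 * r := by omega
    have h3 := hlam g hg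
    rw [h2, Nat.add_sub_cancel] at h3
    exact Nat.eq_of_mul_eq_mul_right hq (by omega)
  have hfac : S (2 * (r + 1)) = ((q + 1) ^ (r + 1) + 1) * S (r + 1) := by
    have h1 := gs' (2 * (r + 1))
    have h2 := gs' (r + 1)
    have h3 : (q + 1) ^ (2 * (r + 1)) = (q + 1) ^ (r + 1) * (q + 1) ^ (r + 1) := by
      rw [two_mul, pow_add]
    apply Nat.eq_of_mul_eq_mul_right hq
    have h4 : S (2 * (r + 1)) * q + 1 = (S (r + 1) * q + 1) * (S (r + 1) * q + 1) := by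
      rw [h1, h3, ← h2]
    have h5 : ((q + 1) ^ (r + 1) + 1) * S (r + 1) * q = (S (r + 1) * q + 2) * (S (r + 1) * q) := by
      rw [← h2]; ring
    rw [h5]
    have h6 : (S (r + 1) * q + 1) * (S (r + 1) * q + 1)
        = (S (r + 1) * q + 2) * (S (r + 1) * q) + 1 := by ring
    omega
  have hdvd : w1 * w2 ∣ Nat.card G := by
    rw [Nat.card_eq_fintype_card, hG', hfac]
    exact mul_dvd_mul d1 d2
  obtain ⟨Q1, _, _, f1, hf1, hQ1⟩ := ZNil_surj G hnil w1 hw1 ((dvd_mul_right _ _).trans hdvd)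
  obtain ⟨Q2, _, _, f2, hf2, hQ2⟩ := ZNil_surj G hnil w2 hw2 ((dvd_mul_left _ _).trans hdvd)
  let f : G →* Q1 × Q2 := f1.prod f2
  have hQ : Nat.card (Q1 × Q2) = w1 * w2 := by rw [Nat.card_prod, hQ1, hQ2]
  have hsurj : Function.Surjective f := by
    have hr1 : w1 ∣ Nat.card f.range := by
      rw [← hQ1]
      refine Subgroup.card_dvd_of_surjective ((MonoidHom.fst Q1 Q2).comp f.range.subtype) ?_
      intro y
      obtain ⟨x, hx⟩ := hf1 y
      exact ⟨⟨f x, x, rfl⟩, hx⟩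
    have hr2 : w2 ∣ Nat.card f.range := by
      rw [← hQ2]
      refine Subgroup.card_dvd_of_surjective ((MonoidHom.snd Q1 Q2).comp f.range.subtype) ?_
      intro y
      obtain ⟨x, hx⟩ := hf2 y
      exact ⟨⟨f x, x, rfl⟩, hx⟩
    have hcop : Nat.Coprime w1 w2 := (Nat.coprime_primes hw1 hw2).2 hne
    have hr : w1 * w2 ∣ Nat.card f.range := hcop.mul_dvd_of_dvd_of_dvd hr1 hr2
    have htop : f.range = ⊤ := by
      apply Subgroup.eq_top_of_card_eq
      refine Nat.dvd_antisymm (Subgroup.card_subgroup_dvd_card _) ?_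
      rw [hQ]
      exact hr
    exact MonoidHom.range_eq_top.1 htop
  have inst : Fintype (Q1 × Q2) := Fintype.ofFinite _
  have hmul := im_mul_iv f hsurj D (lam := (S (2 * r) : ℤ)) (by
    intro g hg
    exact_mod_cast hlam' g hg)
  have haug := aug_im f D
  have hS1 : S (2 * r + 1) = S (2 * r) + (q + 1) ^ (2 * r) := Finset.sum_range_succ _ _
  have hS2 : S (2 * (r + 1)) = S (2 * r + 1) + (q + 1) ^ (2 * r + 1) := Finset.sum_range_succ _ _
  have hv1 : (w1 : ℤ) ∣ (S (2 * (r + 1)) : ℤ) := by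
    rw [hfac]
    exact_mod_cast Dvd.dvd.mul_right d1 _
  have hv2 : (w2 : ℤ) ∣ (S (2 * (r + 1)) : ℤ) := by
    rw [hfac]
    exact_mod_cast Dvd.dvd.mul_left d2 _
  have hk : (D.card : ℤ) = (S (2 * (r + 1)) : ℤ) - ((q : ℤ) + 1) ^ (2 * r + 1) := by
    rw [hD', hS2]; push_cast; ring
  have hpow : ((q : ℤ) + 1) ^ (2 * r + 1) = ((q : ℤ) + 1) ^ r * ((q : ℤ) + 1) ^ (r + 1) := by
    rw [← pow_add]; congr 1; omega
  refine ⟨Q1 × Q2, inferInstance, inst, im f D,
    (S (2 * r) : ℤ) * (Nat.card f.ker : ℤ), hQ, ?_, ?_, ?_⟩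
  · rw [hmul]
    congr 2
    rw [hD', hS1, Nat.add_sub_cancel]
    push_cast
    ring
  · rw [haug, hk, hpow, Nat.add_sub_cancel]
    push_cast
    have h1 : (w1 : ℤ) ∣ ((q : ℤ) + 1) ^ (r + 1) + 1 := by exact_mod_cast d1
    have h2 : (S (2 * (r + 1)) : ℤ) - ((q : ℤ) + 1) ^ r * ((q : ℤ) + 1) ^ (r + 1)
        - ((q : ℤ) + 1) ^ r
        = (S (2 * (r + 1)) : ℤ) - ((q : ℤ) + 1) ^ r * (((q : ℤ) + 1) ^ (r + 1) + 1) := by ring
    rw [h2]
    exact dvd_sub hv1 (Dvd.dvd.mul_left h1 _)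
  · rw [haug, hk, hpow, Nat.add_sub_cancel]
    push_cast
    have h1 : (w2 : ℤ) ∣ ((q : ℤ) + 1) ^ (r + 1) - 1 := by
      have h3 := gs' (r + 1)
      have h4 : ((q : ℤ) + 1) ^ (r + 1) - 1 = (S (r + 1) : ℤ) * q := by
        have : ((S (r + 1) : ℤ)) * q + 1 = ((q : ℤ) + 1) ^ (r + 1) := by exact_mod_cast h3
        linarith
      rw [h4]
      exact Dvd.dvd.mul_right (by exact_mod_cast d2) _
    have h2 : (S (2 * (r + 1)) : ℤ) - ((q : ℤ) + 1) ^ r * ((q : ℤ) + 1) ^ (r + 1)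
        + ((q : ℤ) + 1) ^ r
        = (S (2 * (r + 1)) : ℤ) - ((q : ℤ) + 1) ^ r * (((q : ℤ) + 1) ^ (r + 1) - 1) := by ring
    rw [h2]
    exact dvd_sub hv2 (Dvd.dvd.mul_left h1 _)


theorem excl_nil (s c1 c2 p0 B : ℕ) (hs : 2 ≤ s) (hp0 : p0.Prime)
    (hc : c1.factorization 2 = c2.factorization 2) :
    ∃ W0 : ℕ, ∀ w1 w2 r1 r2 n : ℕ, W0 ≤ w1 → W0 ≤ w2 →
      Shape s c1 c2 w1 w2 r1 r2 n → Split p0 B w1 w2 r1 r2 n →
      ND (CyclotomicField (w1 * w2) ℚ) (s - 1) (r1 * r2) n → ¬ NilOrder n (2 * s) := by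
  refine ⟨p0 ^ ((B ^ (s - 1) + 1) ^ 4) + 1, ?_⟩
  intro w1 w2 r1 r2 n hW1 hW2 hSh hSp hND hAb
  have hw1 := hSh.prime1
  have hw2 := hSh.prime2
  have hp1 : 1 < p0 ^ ((B ^ (s - 1) + 1) ^ 4) := by
    apply Nat.one_lt_pow _ hp0.one_lt
    positivity
  have h21 : 2 < w1 := by omega
  have h22 : 2 < w2 := by omega
  have hn2 : 2 ≤ n := by
    have hd := hSh.dvd1
    by_contra hcon
    have : n = 0 ∨ n = 1 := by omega
    rcases this with rfl | rfl
    · rw [zero_pow (by omega), zero_add] at hd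
      have := Nat.le_of_dvd one_pos hd
      omega
    · rw [one_pow] at hd
      have := Nat.le_of_dvd two_pos hd
      omega
  have hn1 : ¬ w1 ∣ n := by
    intro h
    have h1 : w1 ∣ n ^ s := dvd_pow h (by omega)
    have h2 : w1 ∣ 1 := (Nat.dvd_add_right h1).mp hSh.dvd1
    exact hw1.one_lt.ne' (Nat.dvd_one.mp h2)
  have hn2' : ¬ w2 ∣ n := by
    intro h
    obtain ⟨r, rfl⟩ : ∃ r, s = r + 1 := ⟨s - 1, by omega⟩
    have h3 := hSh.dvd2
    rw [Finset.sum_range_succ', pow_zero] at h3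
    have h1 : w2 ∣ ∑ i ∈ range r, n ^ (i + 1) :=
      Finset.dvd_sum fun i _ => dvd_pow h (by omega)
    have h2 : w2 ∣ 1 := (Nat.dvd_add_right h1).mp h3
    exact hw2.one_lt.ne' (Nat.dvd_one.mp h2)
  have hkey : ∀ w : ℕ, w.Prime → 2 < w → ¬ w ∣ n → ¬ (w : ℤ) ∣ 2 * (n : ℤ) ^ (s - 1) := by
    intro w hw h2 hn h
    rcases (Nat.prime_iff_prime_int.mp hw).dvd_or_dvd h with h | h
    · have h3 : w ∣ 2 := by exact_mod_cast h
      have := Nat.le_of_dvd two_pos h3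
      omega
    · have h3 : (w : ℤ) ∣ (n : ℤ) := (Nat.prime_iff_prime_int.mp hw).dvd_of_dvd_pow h
      exact hn (by exact_mod_cast h3)
  obtain ⟨Q, _, _, X, lam, hQ, hX, hk1, hk2⟩ :=
    exists_quot_nil hn2 hs hw1 hw2 hSh.ne hSh.dvd1 hSh.dvd2 hAb
  obtain ⟨a, ha⟩ := exists_inv hs hp0 hc (by omega) (by omega) hSh hSp hQ X hX
  set X' : MonoidAlgebra ℤ Q := single a 1 * X with hX'def
  have haug : aug X' = aug X := by
    rw [hX'def, map_mul, aug_single, one_mul]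
  have hX' : X' * iv X' = (((((n : ℤ) ^ (s - 1)) ^ 2 : ℤ)) : MonoidAlgebra ℤ Q)
      + (lam : MonoidAlgebra ℤ Q) * el univ := by
    rw [← hX, hX'def, map_mul, iv_single]
    have h1 : (single a (1 : ℤ) : MonoidAlgebra ℤ Q) * single a⁻¹ 1 = 1 := by
      rw [MonoidAlgebra.single_mul_single, mul_inv_cancel, mul_one]
      rfl
    calc single a 1 * X * (single a⁻¹ 1 * iv X)
        = (single a (1 : ℤ) * single a⁻¹ 1) * (X * iv X) := by ring
      _ = X * iv X := by rw [h1, one_mul]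
  have hWpos : 0 < w1 * w2 := Nat.mul_pos hw1.pos hw2.pos
  refine sign_contra X' (N0 := (n : ℤ) ^ (s - 1)) hw1 hw2 (by rw [hQ]; exact dvd_mul_right _ _)
    (by rw [hQ]; exact dvd_mul_left _ _) (fun ψ hψ => ?_) (by rw [haug]; exact hk1)
    (by rw [haug]; exact hk2) (hkey w1 hw1 h21 hn1) (hkey w2 hw2 h22 hn2')
  exact ev_eq hWpos hQ X' hX' ha hND ψ hψ


open Filter in
theorem even_zero_nil {s : ℕ} (hs : 2 ≤ s) (hC : PairThm s) (hN : NThm s) (ε : ℝ) (hε : 0 < ε) :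
    ∃ x0 : ℕ, ∀ x : ℕ, x0 ≤ x → cnt x (fun n => NilOrder n (2 * s)) ≤ ε * x := by
  obtain ⟨c1, c2, p0, hc1, hc2, hp0, hcc, hC⟩ := hC
  obtain ⟨S, ⟨x1, hS⟩, hN⟩ := hN c1 c2 hc1 hc2
  obtain ⟨B, x2, hC⟩ := hC (ε / 2) (by positivity)
  obtain ⟨x3, hN⟩ := hN (ε / 2) (by positivity)
  obtain ⟨W0, hW⟩ := excl_nil s c1 c2 p0 B hs hp0 hcc
  obtain ⟨x4, hx4⟩ := (X1_tend.eventually_ge_atTop (W0 : ℝ)).exists_forall_of_atTop
  refine ⟨max (max x1 x2) (max x3 x4), fun x hx => ?_⟩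
  have hx1 : x1 ≤ x := (le_max_left _ _).trans ((le_max_left _ _).trans hx)
  have hx2 : x2 ≤ x := (le_max_right _ _).trans ((le_max_left _ _).trans hx)
  have hx3 : x3 ≤ x := (le_max_left _ _).trans ((le_max_right _ _).trans hx)
  have hx4' : x4 ≤ x := (le_max_right _ _).trans ((le_max_right _ _).trans hx)
  have hX1 := hx4 x hx4'
  have h1 := hC x hx2 (S x) (hS x hx1)
  have h2 := hN x hx3
  refine (cnt_mono (P' := fun n => (¬ ∃ w1 w2 r1 r2 : ℕ, Rg x w1 ∧ Rg x w2 ∧ (w1, w2) ∉ S x ∧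
        Shape s c1 c2 w1 w2 r1 r2 n ∧ Split p0 B w1 w2 r1 r2 n ∧ Large x w1 w2 n) ∨
        Fails s c1 c2 x (S x) n) fun n hnx hAb => ?_).trans ((cnt_or x _ _).trans (by linarith))
  by_contra hcon
  push Not at hcon
  obtain ⟨⟨w1, w2, r1, r2, hw1, hw2, hwS, hSh, hSp, q, hq, hqn, hqX, hq1, hq2⟩, hF⟩ := hcon
  obtain ⟨t, ht⟩ := selfconj_pow hSh.prime1 hSh.prime2 hSh.ne hSh.eq1 hSh.eq2 hSh.odd1 hSh.odd2
    hSh.one1 hSh.one2 hcc hq1 hq2
  have hND : ND (CyclotomicField (w1 * w2) ℚ) (s - 1) (r1 * r2) n := by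
    by_contra hND
    exact hF ⟨w1, w2, r1, r2, q, t, hw1, hw2, hSh.ne, hSh.eq1, hSh.eq2, hSh.cop1, hSh.cop2,
      hSh.cop, hSh.odd1, hSh.odd2, hwS, hSh.dvd1, hSh.dvd2, hq, hqn, hqX, ht, hND⟩
  have hW1 : W0 ≤ w1 := by
    have : (W0 : ℝ) ≤ w1 := hX1.trans hw1.2.1.le
    exact_mod_cast this
  have hW2 : W0 ≤ w2 := by
    have : (W0 : ℝ) ≤ w2 := hX1.trans hw2.2.1.le
    exact_mod_cast this
  exact hW w1 w2 r1 r2 n hW1 hW2 hSh hSp hND hAb


end Pool.Agent.Lib.MP_79499b_co.DZ
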